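import Pool.Agent.Lib.NLG.NTg
import Pool.Agent.Lib.NLT.Vdc

/-!
# Module WeylG: the inverse theorem for Weyl sums

PROOF by induction on `D ≥ 1` (for all `Θ`, `R`, `H`). `D = 1`: `‖tv H (fun t => ex (θ t + θ0))‖ ≤ 1 / (2 H nrm θ)` (NLT/Geo), so `nrm θ ≤ R / (2 H)`,
`q = 1`. Step `D → D + 1`, `Θ` of degree `≤ D + 1` with coefficient `θ` of `X ^ (D + 1)`. Let `A` be the integer part of `H / (16 R ^ 2)`. Van der
Corput (NLT/Vdc, or: `‖tv H F‖ ^ 2 ≤ tvr A (fun k => tvr A (fun k' => ‖tv H (fun t => F (t + k) conj F (t + k'))‖)) + 8 A / H`): the average over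
`k, k' < A` of `‖tv H (fun t => ex ((Θ (t + k) - Θ (t + k'))))‖` is `≥ 1 / (2 R ^ 2)`, so at least `A ^ 2 / (4 R ^ 2)` pairs have a value
`≥ 1 / (4 R ^ 2)`. `Θ (t + k) - Θ (t + k')` has degree `≤ D` and coefficient `(D + 1) θ (k - k')` of `t ^ D` (`Polynomial.taylor`). Induction
with `R1 = 4 R ^ 2`: `q ≤ R1 ^ C`, `nrm (q (D + 1) (k - k') θ) ≤ R1 ^ C / H ^ D`. Pigeonhole on `q`, then on `k'`: at least
`A / (4 R ^ 2 R1 ^ C)` of the `k`, with the same `q`, `k'`. `ntg_diff` with `θ' = q (D + 1) θ`, `K = 4 R ^ 2 R1 ^ C`, `δ = R1 ^ C / H ^ D`: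
`q' ≤ 5 K`, `nrm (q' q (D + 1) θ) ≤ 80 K ^ 2 δ / A ≤ R ^ C' / H ^ (D + 1)` (`A ≥ H / (32 R ^ 2)`).
`weyl_mod`: the same for `P ∈ Z[X]` and a frequency of `ZMod M`: `chi ξ (P t) = ex (P t * (ξ.val / M))` (`chi_int`), `Θ = (ξ.val / M) P`.
-/

set_option autoImplicit false

open Finset Polynomial

namespace Pool.Agent.NLG

open Pool.Agent.HLT Pool.Agent.NLT

namespace WeylGAux

lemma taylor_coeff_D (D : ℕ) (Θ : ℝ[X]) (h : Θ.natDegree ≤ D + 1) (r : ℝ) :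
    (taylor r Θ).coeff D = Θ.coeff D + ((D : ℝ) + 1) * Θ.coeff (D + 1) * r := by
  rw [taylor_coeff]
  have h1 : (hasseDeriv D Θ).natDegree < 2 := by
    have := natDegree_hasseDeriv_le Θ D
    omega
  rw [eval_eq_sum_range' h1, Finset.sum_range_succ, Finset.sum_range_one, hasseDeriv_coeff,
    hasseDeriv_coeff]
  have h2 : (1 + D).choose D = D + 1 := by
    rw [Nat.add_comm, Nat.choose_succ_self_right]
  rw [h2, zero_add, Nat.choose_self, add_comm 1 D]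
  push_cast
  ring

lemma taylor_coeff_top (D : ℕ) (Θ : ℝ[X]) (h : Θ.natDegree ≤ D + 1) (r : ℝ) :
    (taylor r Θ).coeff (D + 1) = Θ.coeff (D + 1) := by
  rw [taylor_coeff]
  have h1 : (hasseDeriv (D + 1) Θ).natDegree < 1 := by
    have := natDegree_hasseDeriv_le Θ (D + 1)
    omega
  rw [eval_eq_sum_range' h1, Finset.sum_range_one, hasseDeriv_coeff, zero_add, Nat.choose_self]
  push_cast
  ring

lemma diff_natDegree (D : ℕ) (Θ : ℝ[X]) (h : Θ.natDegree ≤ D + 1) (r s : ℝ) :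
    (taylor r Θ - taylor s Θ).natDegree ≤ D := by
  rw [natDegree_le_iff_coeff_eq_zero]
  intro n hn
  rw [coeff_sub]
  rcases Nat.lt_or_ge (D + 1) n with h1 | h1
  · rw [coeff_eq_zero_of_natDegree_lt (by rw [natDegree_taylor]; omega),
      coeff_eq_zero_of_natDegree_lt (by rw [natDegree_taylor]; omega), sub_zero]
  · have h2 : n = D + 1 := by omega
    rw [h2, taylor_coeff_top D Θ h, taylor_coeff_top D Θ h, sub_self]

lemma diff_coeff (D : ℕ) (Θ : ℝ[X]) (h : Θ.natDegree ≤ D + 1) (r s : ℝ) :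
    (taylor r Θ - taylor s Θ).coeff D = ((D : ℝ) + 1) * Θ.coeff (D + 1) * (r - s) := by
  rw [coeff_sub, taylor_coeff_D D Θ h, taylor_coeff_D D Θ h]
  ring

lemma diff_eval (Θ : ℝ[X]) (r s t : ℝ) :
    (taylor r Θ - taylor s Θ).eval t = Θ.eval (t + r) - Θ.eval (t + s) := by
  rw [eval_sub, taylor_eval, taylor_eval]

end WeylGAux

/-- Van der Corput, scalar form. -/
theorem vdc_scalar (H A : ℕ) (hA : 1 ≤ A) (hH : 1 ≤ H) (F : ℕ → ℂ) (hF : ∀ t, ‖F t‖ ≤ 1) :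
    ‖tv H F‖ ^ 2 ≤ tvr A (fun k => tvr A (fun k' =>
      ‖tv H (fun t => F (t + k) * (starRingEnd ℂ) (F (t + k')))‖)) + 8 * A / H := by
  have hH0 : (0 : ℝ) < H := by exact_mod_cast hH
  rcases Nat.lt_or_ge H A with h | h
  · have h1 : ‖tv H F‖ ^ 2 ≤ 1 := pow_le_one₀ (norm_nonneg _) (norm_tv_le_one H F hF)
    have h2 : 0 ≤ tvr A (fun k => tvr A (fun k' =>
        ‖tv H (fun t => F (t + k) * (starRingEnd ℂ) (F (t + k')))‖)) :=
      tvr_nonneg A fun k => tvr_nonneg A fun k' => norm_nonneg _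
    have h3 : (1 : ℝ) ≤ 8 * A / H := by
      rw [le_div_iff₀ hH0]
      have : (H : ℝ) < A := by exact_mod_cast h
      linarith
    linarith
  · have h1 := vdc_norm (M := 1) H A hA h (fun _ => 1) (fun _ => by simp) (fun _ t => F t)
      (fun _ t => hF t)
    simp only [one_mul, av_const] at h1
    exact h1

namespace WeylGAux

lemma one (H R : ℕ) (Θ : ℝ[X]) (hR : 2 ≤ R) (hH : R ≤ H) (hΘ : Θ.natDegree ≤ 1)
    (h : 1 / (R : ℝ) ≤ ‖tv H (fun t => ex (Θ.eval (t : ℝ)))‖) :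
    nrm (Θ.coeff 1) ≤ (R : ℝ) / (H : ℝ) := by
  have hR0 : (0 : ℝ) < R := by
    have : 0 < R := by omega
    exact_mod_cast this
  have hH0 : (0 : ℝ) < H := by
    have : 0 < H := by omega
    exact_mod_cast this
  have h1 : ∀ t : ℝ, Θ.eval t = t * Θ.coeff 1 + Θ.coeff 0 := by
    intro t
    rw [eval_eq_sum_range' (show Θ.natDegree < 2 by omega), Finset.sum_range_succ, Finset.sum_range_one]
    ring
  have h2 := geo_Ico 0 H (Θ.coeff 1) (Θ.coeff 0)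
  have h3 : ‖tv H (fun t => ex (Θ.eval (t : ℝ)))‖ =
      ‖∑ t ∈ Ico 0 H, ex ((t : ℝ) * Θ.coeff 1 + Θ.coeff 0)‖ / H := by
    unfold tv
    rw [norm_div, Complex.norm_natCast, Finset.range_eq_Ico]
    congr 2
    exact Finset.sum_congr rfl fun t _ => congrArg ex (h1 t)
  rw [h3, le_div_iff₀ hH0] at h
  have h4 : 0 ≤ nrm (Θ.coeff 1) := nrm_nonneg _
  have h5 : 2 * nrm (Θ.coeff 1) * (1 / (R : ℝ) * H) ≤ 1 :=
    (mul_le_mul_of_nonneg_left h (by linarith)).trans h2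
  have h6 : nrm (Θ.coeff 1) * H ≤ R := by
    have h7 : 2 * nrm (Θ.coeff 1) * (1 / (R : ℝ) * H) = 2 * (nrm (Θ.coeff 1) * H) / R := by
      field_simp
    rw [h7, div_le_one hR0] at h5
    have h8 : 0 ≤ nrm (Θ.coeff 1) * H := mul_nonneg h4 hH0.le
    linarith
  rw [le_div_iff₀ hH0]
  exact h6

/-- many differences with a large exponential sum -/
lemma popular (H R A : ℕ) (Θ : ℝ[X]) (hR : 2 ≤ R) (hA : 1 ≤ A) (hH : 1 ≤ H) (hAH : A * (16 * R ^ 2) ≤ H)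
    (h : 1 / (R : ℝ) ≤ ‖tv H (fun t => ex (Θ.eval (t : ℝ)))‖) :
    ∃ k₀ : ℕ, (A : ℝ) / (4 * (R : ℝ) ^ 2) ≤ (((range A).filter (fun k : ℕ =>
      1 / (4 * (R : ℝ) ^ 2) ≤ ‖tv H (fun t => ex ((taylor (k₀ : ℝ) Θ - taylor (k : ℝ) Θ).eval (t : ℝ)))‖)).card : ℝ) := by
  classical
  have hR0 : (0 : ℝ) < R := by
    have : 0 < R := by omega
    exact_mod_cast this
  have hH0 : (0 : ℝ) < H := by exact_mod_cast hH
  have hA0 : (0 : ℝ) < A := by exact_mod_cast hA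
  have h1 := vdc_scalar H A hA hH (fun t => ex (Θ.eval (t : ℝ))) (fun t => (norm_ex _).le)
  have e1 : ∀ k k' : ℕ, (fun t : ℕ => ex (Θ.eval (((t + k : ℕ)) : ℝ)) *
      (starRingEnd ℂ) (ex (Θ.eval (((t + k' : ℕ)) : ℝ)))) =
      fun t : ℕ => ex ((taylor (k : ℝ) Θ - taylor (k' : ℝ) Θ).eval (t : ℝ)) := by
    intro k k'
    funext t
    rw [diff_eval, sub_eq_add_neg, ex_add, ex_neg]
    push_cast
    rfl
  simp only [e1] at h1
  have h2 : 8 * (A : ℝ) / H ≤ 1 / (2 * (R : ℝ) ^ 2) := by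
    have h3 : (A : ℝ) * (16 * (R : ℝ) ^ 2) ≤ H := by exact_mod_cast hAH
    rw [div_le_div_iff₀ hH0 (by positivity)]
    nlinarith
  have h3 : 1 / (R : ℝ) ^ 2 ≤ ‖tv H (fun t => ex (Θ.eval (t : ℝ)))‖ ^ 2 := by
    have := pow_le_pow_left₀ (by positivity) h 2
    rwa [div_pow, one_pow] at this
  have h4 : 1 / (2 * (R : ℝ) ^ 2) ≤ tvr A (fun k => tvr A (fun k' =>
      ‖tv H (fun t => ex ((taylor (k : ℝ) Θ - taylor (k' : ℝ) Θ).eval (t : ℝ)))‖)) := by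
    have h5 : 1 / (R : ℝ) ^ 2 = 1 / (2 * (R : ℝ) ^ 2) + 1 / (2 * (R : ℝ) ^ 2) := by
      field_simp
      norm_num
    linarith
  -- choose `k₀`
  obtain ⟨k₀, -, hk₀⟩ : ∃ k₀ < A, 1 / (2 * (R : ℝ) ^ 2) ≤ tvr A (fun k' =>
      ‖tv H (fun t => ex ((taylor (k₀ : ℝ) Θ - taylor (k' : ℝ) Θ).eval (t : ℝ)))‖) := by
    by_contra hcon
    push Not at hcon
    have h6 : tvr A (fun k => tvr A (fun k' =>
        ‖tv H (fun t => ex ((taylor (k : ℝ) Θ - taylor (k' : ℝ) Θ).eval (t : ℝ)))‖)) <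
        1 / (2 * (R : ℝ) ^ 2) := by
      unfold tvr at hcon ⊢
      rw [div_lt_iff₀ hA0]
      have h7 := Finset.sum_lt_sum_of_nonempty (s := range A) (by
        rw [Finset.nonempty_range_iff]; omega) (fun k hk => hcon k (Finset.mem_range.1 hk))
      refine h7.trans_le (le_of_eq ?_)
      rw [Finset.sum_const, card_range, nsmul_eq_mul]
      ring
    linarith
  refine ⟨k₀, ?_⟩
  rw [tvr_eq_evr] at hk₀
  rcases evr_popular (range A) _ (fun k _ => norm_tv_le_one H _ (fun t => (norm_ex _).le)) _ hk₀ with h8 | h8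
  · have e2 : 1 / (2 * (R : ℝ) ^ 2) / 2 = 1 / (4 * (R : ℝ) ^ 2) := by
      field_simp
      norm_num
    rw [e2, card_range] at h8
    refine le_trans (le_of_eq ?_) h8
    ring
  · rw [Finset.range_eq_empty_iff] at h8
    omega

lemma step (D C : ℕ) (hD : 1 ≤ D)
    (ih : ∀ (H R : ℕ) (Θ : ℝ[X]), 2 ≤ R → R ^ C ≤ H → Θ.natDegree ≤ D →
      1 / (R : ℝ) ≤ ‖tv H (fun t => ex (Θ.eval (t : ℝ)))‖ →
      ∃ q : ℕ, 1 ≤ q ∧ q ≤ R ^ C ∧ nrm ((q : ℝ) * Θ.coeff D) ≤ (R : ℝ) ^ C / (H : ℝ) ^ D)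
    (H R : ℕ) (Θ : ℝ[X]) (hR : 2 ≤ R) (hH : R ^ (12 * C + 22 + D) ≤ H) (hΘ : Θ.natDegree ≤ D + 1)
    (h : 1 / (R : ℝ) ≤ ‖tv H (fun t => ex (Θ.eval (t : ℝ)))‖) :
    ∃ q : ℕ, 1 ≤ q ∧ q ≤ R ^ (12 * C + 22 + D) ∧
      nrm ((q : ℝ) * Θ.coeff (D + 1)) ≤ (R : ℝ) ^ (12 * C + 22 + D) / (H : ℝ) ^ (D + 1) := by
  classical
  have hR1 : 1 ≤ R := by omega
  have hRpos : 0 < R := by omega
  have hpm : ∀ {a b : ℕ}, a ≤ b → R ^ a ≤ R ^ b := fun hab => Nat.pow_le_pow_right hRpos hab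
  have hHle : ∀ {a : ℕ}, a ≤ 12 * C + 22 + D → R ^ a ≤ H := fun ha => (hpm ha).trans hH
  have p2 : ∀ n : ℕ, 2 ^ n ≤ R ^ n := fun n => Nat.pow_le_pow_left hR n
  have hR1le : 4 * R ^ 2 ≤ R ^ 4 := by
    calc 4 * R ^ 2 = 2 ^ 2 * R ^ 2 := by norm_num
      _ ≤ R ^ 2 * R ^ 2 := Nat.mul_le_mul_right _ (p2 2)
      _ = R ^ 4 := by ring
  obtain ⟨Q, hQ⟩ : ∃ Q, Q = (4 * R ^ 2) ^ C := ⟨_, rfl⟩
  have hQ1 : 1 ≤ Q := by
    rw [hQ]
    exact Nat.one_le_pow _ _ (by positivity)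
  have hQle : Q ≤ R ^ (4 * C) := by
    rw [hQ, pow_mul]
    exact Nat.pow_le_pow_left hR1le C
  obtain ⟨K, hK⟩ : ∃ K, K = 4 * R ^ 2 * Q := ⟨_, rfl⟩
  have hK1 : 1 ≤ K := by
    rw [hK]
    exact Nat.mul_pos (by positivity) hQ1
  have hKle : K ≤ R ^ (4 * C + 4) := by
    rw [hK]
    calc 4 * R ^ 2 * Q ≤ R ^ 4 * R ^ (4 * C) := Nat.mul_le_mul hR1le hQle
      _ = R ^ (4 * C + 4) := by rw [← pow_add]; congr 1; ring
  obtain ⟨A, hA⟩ : ∃ A, A = H / (16 * R ^ 2) := ⟨_, rfl⟩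
  have h16 : 0 < 16 * R ^ 2 := by positivity
  have hAH : A * (16 * R ^ 2) ≤ H := by
    rw [hA]
    exact Nat.div_mul_le_self _ _
  have h32 : 32 * R ^ 2 ≤ H := by
    calc 32 * R ^ 2 = 2 ^ 5 * R ^ 2 := by norm_num
      _ ≤ R ^ 5 * R ^ 2 := Nat.mul_le_mul_right _ (p2 5)
      _ = R ^ 7 := by ring
      _ ≤ H := hHle (by omega)
  have hAlow : H ≤ A * (32 * R ^ 2) := by
    have h1 : H < (A + 1) * (16 * R ^ 2) := by
      rw [hA]
      have := Nat.lt_div_mul_add h16 (a := H)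
      calc H < H / (16 * R ^ 2) * (16 * R ^ 2) + 16 * R ^ 2 := this
        _ = (H / (16 * R ^ 2) + 1) * (16 * R ^ 2) := by ring
    nlinarith
  have h100 : 100 * K ^ 2 ≤ A := by
    have h1 : 100 * K ^ 2 * (32 * R ^ 2) ≤ H := by
      calc 100 * K ^ 2 * (32 * R ^ 2) ≤ 2 ^ 12 * K ^ 2 * R ^ 2 := by
            have : 100 * K ^ 2 * (32 * R ^ 2) = 3200 * (K ^ 2 * R ^ 2) := by ring
            rw [this]
            calc 3200 * (K ^ 2 * R ^ 2) ≤ 4096 * (K ^ 2 * R ^ 2) := Nat.mul_le_mul_right _ (by norm_num)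
              _ = 2 ^ 12 * K ^ 2 * R ^ 2 := by ring
        _ ≤ R ^ 12 * (R ^ (4 * C + 4)) ^ 2 * R ^ 2 :=
            Nat.mul_le_mul_right _ (Nat.mul_le_mul (p2 12) (Nat.pow_le_pow_left hKle 2))
        _ = R ^ (8 * C + 22) := by
            rw [← pow_mul, ← pow_add, ← pow_add]
            congr 1
            ring
        _ ≤ H := hHle (by omega)
    exact Nat.le_of_mul_le_mul_right (h1.trans hAlow) (by positivity)
  have hA1 : 1 ≤ A := by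
    have : 1 ≤ K ^ 2 := Nat.one_le_pow _ _ hK1
    omega
  have hH1 : 1 ≤ H := by
    have : 1 ≤ R ^ 2 := Nat.one_le_pow _ _ hRpos
    omega
  have hR0 : (0 : ℝ) < R := by exact_mod_cast hRpos
  have hH0 : (0 : ℝ) < H := by exact_mod_cast hH1
  have hA0 : (0 : ℝ) < A := by exact_mod_cast hA1
  have hQ0 : (0 : ℝ) < Q := by exact_mod_cast hQ1
  have hK0 : (0 : ℝ) < K := by exact_mod_cast hK1
  obtain ⟨k₀, hk₀⟩ := popular H R A Θ hR hA1 hH1 hAH h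
  obtain ⟨P, hP⟩ : ∃ P : Finset ℕ, P = (range A).filter (fun k : ℕ =>
      1 / (4 * (R : ℝ) ^ 2) ≤ ‖tv H (fun t => ex ((taylor (k₀ : ℝ) Θ - taylor (k : ℝ) Θ).eval (t : ℝ)))‖) :=
    ⟨_, rfl⟩
  rw [← hP] at hk₀
  obtain ⟨δ, hδ⟩ : ∃ δ : ℝ, δ = (Q : ℝ) / (H : ℝ) ^ D := ⟨_, rfl⟩
  have hδ0 : 0 ≤ δ := by
    rw [hδ]
    positivity
  have hq : ∀ k ∈ P, ∃ q : ℕ, 1 ≤ q ∧ q ≤ Q ∧
      nrm ((q : ℝ) * (((D : ℝ) + 1) * Θ.coeff (D + 1) * ((k₀ : ℝ) - k))) ≤ δ := by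
    intro k hk
    rw [hP, Finset.mem_filter] at hk
    have h1 := ih H (4 * R ^ 2) (taylor (k₀ : ℝ) Θ - taylor (k : ℝ) Θ) (by nlinarith)
      (by rw [← hQ]; exact hQle.trans (hHle (by omega))) (diff_natDegree D Θ hΘ _ _)
      (by push_cast; exact hk.2)
    obtain ⟨q, hq1, hq2, hq3⟩ := h1
    refine ⟨q, hq1, by rw [hQ]; exact hq2, ?_⟩
    rw [diff_coeff D Θ hΘ] at hq3
    rw [hδ, hQ]
    push_cast
    push_cast at hq3
    exact hq3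
  choose! qf hqf using hq
  -- pigeonhole
  obtain ⟨q₀, hq₀m, hq₀⟩ : ∃ q₀ ∈ Icc 1 Q, (A : ℝ) / K ≤ ((P.filter (fun k => qf k = q₀)).card : ℝ) := by
    by_contra hcon
    push Not at hcon
    have h1 : P.card = ∑ q ∈ Icc 1 Q, (P.filter (fun k => qf k = q)).card :=
      Finset.card_eq_sum_card_fiberwise (fun k hk => by
        have := hqf k hk
        exact Finset.mem_coe.2 (Finset.mem_Icc.2 ⟨this.1, this.2.1⟩))
    have h2 : (P.card : ℝ) < ∑ _q ∈ Icc 1 Q, (A : ℝ) / K := by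
      rw [h1]
      push_cast
      exact Finset.sum_lt_sum_of_nonempty ⟨1, Finset.mem_Icc.2 ⟨le_rfl, hQ1⟩⟩ hcon
    rw [Finset.sum_const, Nat.card_Icc, Nat.add_sub_cancel, nsmul_eq_mul] at h2
    have h3 : (Q : ℝ) * ((A : ℝ) / K) = (A : ℝ) / (4 * (R : ℝ) ^ 2) := by
      rw [hK]
      push_cast
      field_simp
    rw [h3] at h2
    linarith
  rw [Finset.mem_Icc] at hq₀m
  have hq₀0 : (0 : ℝ) < q₀ := by exact_mod_cast hq₀m.1
  have h200 : 200 * (K : ℝ) * δ ≤ 1 := by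
    have h1 : 200 * K * Q ≤ H := by
      calc 200 * K * Q ≤ 2 ^ 8 * K * Q := by
            have : 200 * K ≤ 2 ^ 8 * K := Nat.mul_le_mul_right _ (by norm_num)
            exact Nat.mul_le_mul_right _ this
        _ ≤ R ^ 8 * R ^ (4 * C + 4) * R ^ (4 * C) := Nat.mul_le_mul (Nat.mul_le_mul (p2 8) hKle) hQle
        _ = R ^ (8 * C + 12) := by
            rw [← pow_add, ← pow_add]
            congr 1
            ring
        _ ≤ H := hHle (by omega)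
    have h2 : (200 * K * Q : ℝ) ≤ H := by exact_mod_cast h1
    have h3 : (H : ℝ) ≤ (H : ℝ) ^ D := le_self_pow₀ (by exact_mod_cast hH1) (by omega)
    rw [hδ, ← mul_div_assoc, div_le_one (by positivity)]
    exact h2.trans h3
  have hS := ntg_diff (-((q₀ : ℝ) * (((D : ℝ) + 1) * Θ.coeff (D + 1)))) δ A K hK1 h100 hδ0 h200
    ((q₀ : ℝ) * (((D : ℝ) + 1) * Θ.coeff (D + 1)) * k₀) (P.filter (fun k => qf k = q₀)) (by
      intro k hk
      rw [Finset.mem_filter] at hk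
      have h1 := hqf k hk.1
      rw [hk.2] at h1
      refine ⟨?_, ?_⟩
      · have h2 := hk.1
        rw [hP, Finset.mem_filter, Finset.mem_range] at h2
        exact h2.1
      · refine le_trans (le_of_eq ?_) h1.2.2
        congr 1
        ring) hq₀
  obtain ⟨q', hq'1, hq'2, hq'3⟩ := hS
  refine ⟨q' * q₀ * (D + 1), ?_, ?_, ?_⟩
  · exact Nat.mul_pos (Nat.mul_pos hq'1 hq₀m.1) (Nat.succ_pos D)
  · have hD2 : D + 1 ≤ 2 ^ D := Nat.lt_two_pow_self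
    calc q' * q₀ * (D + 1) ≤ (5 * K) * Q * 2 ^ D :=
          Nat.mul_le_mul (Nat.mul_le_mul hq'2 hq₀m.2) hD2
      _ ≤ (2 ^ 3 * K) * Q * 2 ^ D := by
          have : 5 * K ≤ 2 ^ 3 * K := Nat.mul_le_mul_right _ (by norm_num)
          exact Nat.mul_le_mul_right _ (Nat.mul_le_mul_right _ this)
      _ ≤ (R ^ 3 * R ^ (4 * C + 4)) * R ^ (4 * C) * R ^ D :=
          Nat.mul_le_mul (Nat.mul_le_mul (Nat.mul_le_mul (p2 3) hKle) hQle) (p2 D)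
      _ = R ^ (8 * C + 7 + D) := by
          rw [← pow_add, ← pow_add, ← pow_add]
          congr 1
          ring
      _ ≤ R ^ (12 * C + 22 + D) := hpm (by omega)
  · have e1 : nrm (((q' * q₀ * (D + 1) : ℕ) : ℝ) * Θ.coeff (D + 1)) =
        nrm ((q' : ℝ) * (-((q₀ : ℝ) * (((D : ℝ) + 1) * Θ.coeff (D + 1))))) := by
      rw [← nrm_ng]
      congr 1
      push_cast
      ring
    rw [e1]
    refine hq'3.trans ?_
    rw [hδ, div_le_div_iff₀ hA0 (by positivity)]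
    have h1 : 80 * K ^ 2 * Q * (32 * R ^ 2) ≤ R ^ (12 * C + 22 + D) := by
      calc 80 * K ^ 2 * Q * (32 * R ^ 2) ≤ 2 ^ 12 * K ^ 2 * Q * R ^ 2 := by
            have : 80 * K ^ 2 * Q * (32 * R ^ 2) = 2560 * (K ^ 2 * Q * R ^ 2) := by ring
            rw [this]
            calc 2560 * (K ^ 2 * Q * R ^ 2) ≤ 4096 * (K ^ 2 * Q * R ^ 2) :=
                  Nat.mul_le_mul_right _ (by norm_num)
              _ = 2 ^ 12 * K ^ 2 * Q * R ^ 2 := by ring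
        _ ≤ R ^ 12 * (R ^ (4 * C + 4)) ^ 2 * R ^ (4 * C) * R ^ 2 :=
            Nat.mul_le_mul_right _ (Nat.mul_le_mul (Nat.mul_le_mul (p2 12)
              (Nat.pow_le_pow_left hKle 2)) hQle)
        _ = R ^ (12 * C + 22) := by
            rw [← pow_mul, ← pow_add, ← pow_add, ← pow_add]
            congr 1
            ring
        _ ≤ R ^ (12 * C + 22 + D) := hpm (by omega)
    have h2 : (80 * (K : ℝ) ^ 2 * Q * (32 * (R : ℝ) ^ 2)) ≤ (R : ℝ) ^ (12 * C + 22 + D) := by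
      exact_mod_cast h1
    have h3 : (H : ℝ) ≤ A * (32 * (R : ℝ) ^ 2) := by exact_mod_cast hAlow
    have h4 : 80 * (K : ℝ) ^ 2 * ((Q : ℝ) / (H : ℝ) ^ D) * (H : ℝ) ^ (D + 1) =
        80 * (K : ℝ) ^ 2 * Q * H := by
      rw [pow_succ (H : ℝ) D]
      field_simp
    rw [h4]
    calc 80 * (K : ℝ) ^ 2 * Q * H ≤ 80 * (K : ℝ) ^ 2 * Q * (A * (32 * (R : ℝ) ^ 2)) :=
          mul_le_mul_of_nonneg_left h3 (by positivity)
      _ = (80 * (K : ℝ) ^ 2 * Q * (32 * (R : ℝ) ^ 2)) * A := by ring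
      _ ≤ (R : ℝ) ^ (12 * C + 22 + D) * A := mul_le_mul_of_nonneg_right h2 hA0.le

end WeylGAux

theorem weyl_real (D : ℕ) (hD : 1 ≤ D) : ∃ C : ℕ, ∀ (H R : ℕ) (Θ : ℝ[X]), 2 ≤ R → R ^ C ≤ H → Θ.natDegree ≤ D →
    1 / (R : ℝ) ≤ ‖tv H (fun t => ex (Θ.eval (t : ℝ)))‖ →
    ∃ q : ℕ, 1 ≤ q ∧ q ≤ R ^ C ∧ nrm ((q : ℝ) * Θ.coeff D) ≤ (R : ℝ) ^ C / (H : ℝ) ^ D := by
  induction D, hD using Nat.le_induction with
  | base =>
    refine ⟨1, fun H R Θ hR hH hΘ h => ⟨1, le_rfl, ?_, ?_⟩⟩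
    · rw [pow_one]
      omega
    · rw [pow_one] at hH
      rw [pow_one, pow_one, Nat.cast_one, one_mul]
      exact WeylGAux.one H R Θ hR hH hΘ h
  | succ D hD ih =>
    obtain ⟨C, hC⟩ := ih
    exact ⟨12 * C + 22 + D, fun H R Θ hR hH hΘ h => WeylGAux.step D C hD hC H R Θ hR hH hΘ h⟩

theorem weyl_mod (D : ℕ) (hD : 1 ≤ D) : ∃ C : ℕ, ∀ (M : ℕ) [NeZero M] (H R : ℕ) (P : ℤ[X]) (ξ : ZMod M), 2 ≤ R → R ^ C ≤ H →
    P.natDegree ≤ D → 1 / (R : ℝ) ≤ ‖tv H (fun t => chi ξ ((P.eval (t : ℤ) : ℤ) : ZMod M))‖ →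
    ∃ q : ℕ, 1 ≤ q ∧ q ≤ R ^ C ∧
      nrm ((q : ℝ) * (P.coeff D : ℝ) * ((ξ.val : ℝ) / (M : ℝ))) ≤ (R : ℝ) ^ C / (H : ℝ) ^ D := by
  obtain ⟨C, hC⟩ := weyl_real D hD
  refine ⟨C, fun M _ H R P ξ hR hH hP h => ?_⟩
  obtain ⟨Θ, hΘ⟩ : ∃ Θ : ℝ[X], Θ = Polynomial.C ((ξ.val : ℝ) / (M : ℝ)) * P.map (Int.castRingHom ℝ) :=
    ⟨_, rfl⟩
  have h1 : Θ.natDegree ≤ D := by
    rw [hΘ]
    exact (natDegree_C_mul_le _ _).trans (natDegree_map_le.trans hP)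
  have h2 : ∀ t : ℕ, chi ξ ((P.eval (t : ℤ) : ℤ) : ZMod M) = ex (Θ.eval (t : ℝ)) := by
    intro t
    rw [chi_int, hΘ, eval_mul, eval_C]
    have h3 : (P.map (Int.castRingHom ℝ)).eval (t : ℝ) = ((P.eval (t : ℤ) : ℤ) : ℝ) := by
      have h4 := Polynomial.eval_intCast_map (Int.castRingHom ℝ) P (t : ℤ)
      push_cast at h4
      exact h4
    rw [h3, mul_comm]
  simp only [h2] at h
  obtain ⟨q, hq1, hq2, hq3⟩ := hC H R Θ hR hH h1 h
  refine ⟨q, hq1, hq2, ?_⟩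
  refine le_trans (le_of_eq ?_) hq3
  congr 1
  rw [hΘ, coeff_C_mul, coeff_map]
  simp only [eq_intCast]
  ring

end Pool.Agent.NLG
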