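import Pool.Agent.Lib.NLG.BlkA

/-!
# Module BlkB: from cyclic groups of the right size to all cyclic groups (phases)

PROOF. `D0 = d (last m)`, `N = H ^ D0`, `B = D0 R N` (`poly_bound`), `M'` a prime with `2 (N + B) < M' ≤ 4 (N + B)` (Bertrand: `Nat.exists_prime_lt_and_le_two_mul`), so
`N ≤ M' ≤ 8 (D0 + 1) R N ≤ R1 N`, `R1 = R ^ C1`. By `TP_block` the average over `y` of `TP_(M')` of the lifted functions is `N / M' ≥ 1 / R1` times `TP`; so some `y` has
`‖TP_(M')‖ ≥ 1 / (R1 R)`. `CoreB m` with `R1 R` in place of `R` for the lifted functions (bounded by one) and the polynomials `P j - P j 0` (`Fam_sub`, `Fam_mono`).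
-/

set_option autoImplicit false

open Finset Polynomial

namespace Pool.Agent.NLG

open Pool.Agent.HLT Pool.Agent.NLT

theorem genB_succ (m : ℕ) (h : CoreB m) : GenB (m + 1) := by
  intro d D hd h1 hD _
  obtain ⟨C0, hC0⟩ := h d D hd h1 hD
  set D0 := d (Fin.last m) with hD0
  refine ⟨(D0 + 4) * C0, ?_⟩
  intro M _ H R hR hH P hP Θ hΘ f0 hf0 f hf hlow
  have hR1 : 1 ≤ R := by omega
  have hH1 : 1 ≤ H := le_trans (Nat.one_le_pow _ _ (by omega)) hH
  set N := H ^ D0 with hN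
  have hN1 : 1 ≤ N := Nat.one_le_pow _ _ hH1
  set B := D0 * R * N with hB
  obtain ⟨M', hM'p, hM'1, hM'2⟩ := Nat.exists_prime_lt_and_le_two_mul (2 * (N + B)) (by omega)
  have : Fact M'.Prime := ⟨hM'p⟩
  have : NeZero M' := ⟨hM'p.ne_zero⟩
  -- the size of `M'`
  have hR3 : 4 * (D0 + 1) ≤ R ^ (D0 + 2) := by
    have e1 : D0 + 1 ≤ 2 ^ D0 := Nat.lt_two_pow_self
    calc 4 * (D0 + 1) ≤ 4 * 2 ^ D0 := Nat.mul_le_mul_left _ e1
      _ = 2 ^ (D0 + 2) := by ring
      _ ≤ R ^ (D0 + 2) := Nat.pow_le_pow_left hR _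
  have hM'3 : M' ≤ R ^ (D0 + 3) * N := by
    calc M' ≤ 2 * (2 * (N + B)) := hM'2
      _ = 4 * (1 + D0 * R) * N := by rw [hB]; ring
      _ ≤ 4 * ((D0 + 1) * R) * N := by
          refine Nat.mul_le_mul_right _ (Nat.mul_le_mul_left _ ?_)
          have : 1 + D0 * R ≤ R + D0 * R := Nat.add_le_add_right hR1 _
          calc 1 + D0 * R ≤ R + D0 * R := this
            _ = (D0 + 1) * R := by ring
      _ = (4 * (D0 + 1)) * (R * N) := by ring
      _ ≤ R ^ (D0 + 2) * (R * N) := Nat.mul_le_mul_right _ hR3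
      _ = R ^ (D0 + 3) * N := by ring
  have hbd : ∀ j, ∀ t < H, |(P j).eval (t : ℤ) - (P j).eval 0| ≤ (B : ℤ) := by
    intro j t ht
    have hj : d j ≤ D0 := hd.monotone (Fin.le_last j)
    refine (poly_bound (P j) (d j) R H (hP.1 j) (hP.2 j) t ht.le).trans ?_
    have e : d j * R * H ^ d j ≤ B := by
      rw [hB, hN]
      exact Nat.mul_le_mul (Nat.mul_le_mul_right _ hj) (Nat.pow_le_pow_right hH1 hj)
    exact_mod_cast e
  -- averaging over blocks
  have key := TP_block H N B (fun t => ex (Θ.eval (t : ℝ))) P f0 f hbd hM'1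
  have hMpos : (0 : ℝ) < M' := by exact_mod_cast hM'p.pos
  have hRpos : (0 : ℝ) < R := by exact_mod_cast hR1
  have hlow2 : 1 / (R : ℝ) ^ (D0 + 4) ≤ avr (fun y => ‖TP H (fun t => ex (Θ.eval (t : ℝ)))
      (fun j => P j - C ((P j).eval 0)) (lift0 M' N y f0)
      (fun j => lift M' y (fun x => f j (x + (((P j).eval 0 : ℤ) : ZMod M))))‖) := by
    refine le_trans ?_ (norm_av_le _)
    rw [key, norm_mul, norm_div, Complex.norm_natCast, Complex.norm_natCast]
    have e1 : 1 / (R : ℝ) ^ (D0 + 3) ≤ (N : ℝ) / (M' : ℝ) := by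
      rw [div_le_div_iff₀ (by positivity) hMpos, one_mul]
      have : (M' : ℝ) ≤ (R : ℝ) ^ (D0 + 3) * N := by exact_mod_cast hM'3
      linarith
    calc 1 / (R : ℝ) ^ (D0 + 4) = 1 / (R : ℝ) ^ (D0 + 3) * (1 / (R : ℝ)) := by
          rw [div_mul_div_comm, one_mul, ← pow_succ]
      _ ≤ (N : ℝ) / (M' : ℝ) * ‖TP H (fun t => ex (Θ.eval (t : ℝ))) P f0 f‖ :=
          mul_le_mul e1 hlow (by positivity) (by positivity)
  obtain ⟨y, hy⟩ : ∃ y : ZMod M, 1 / (R : ℝ) ^ (D0 + 4) ≤ ‖TP H (fun t => ex (Θ.eval (t : ℝ)))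
      (fun j => P j - C ((P j).eval 0)) (lift0 M' N y f0)
      (fun j => lift M' y (fun x => f j (x + (((P j).eval 0 : ℤ) : ZMod M))))‖ := by
    by_contra hcon
    push Not at hcon
    have hM : (0 : ℝ) < M := by exact_mod_cast NeZero.pos M
    have : avr (fun y : ZMod M => ‖TP H (fun t => ex (Θ.eval (t : ℝ)))
        (fun j => P j - C ((P j).eval 0)) (lift0 M' N y f0)
        (fun j => lift M' y (fun x => f j (x + (((P j).eval 0 : ℤ) : ZMod M))))‖) < 1 / (R : ℝ) ^ (D0 + 4) := by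
      unfold avr
      rw [div_lt_iff₀ hM]
      calc _ < ∑ _y : ZMod M, 1 / (R : ℝ) ^ (D0 + 4) :=
            Finset.sum_lt_sum_of_nonempty Finset.univ_nonempty (fun y _ => hcon y)
        _ = 1 / (R : ℝ) ^ (D0 + 4) * M := by
            rw [Finset.sum_const, Finset.card_univ, ZMod.card, nsmul_eq_mul, mul_comm]
    linarith
  have hR2 : R ≤ R ^ (D0 + 4) := by
    calc R = R ^ 1 := (pow_one R).symm
      _ ≤ R ^ (D0 + 4) := Nat.pow_le_pow_right hR1 (by omega)
  have hres := hC0 M' H (R ^ (D0 + 4)) (hR.trans hR2) (by rw [← pow_mul]; exact hH)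
    (by rw [← hN]; omega)
    (by
      rw [← hN]
      exact hM'3.trans (Nat.mul_le_mul_right _ (Nat.pow_le_pow_right hR1 (by omega))))
    (fun j => P j - C ((P j).eval 0)) (Fam_mono (Fam_sub hP h1) hR2) Θ hΘ (lift0 M' N y f0)
    (by
      intro z
      unfold lift0
      split_ifs
      · exact hf0 _
      · simp)
    (fun j => lift M' y (fun x => f j (x + (((P j).eval 0 : ℤ) : ZMod M))))
    (by
      intro j z
      unfold lift
      exact hf j _)
    (by
      push_cast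
      exact hy)
  obtain ⟨q, hq1, hq2, hq3⟩ := hres
  refine ⟨q, hq1, by rw [pow_mul]; exact hq2, ?_⟩
  rw [pow_mul]
  exact_mod_cast hq3

end Pool.Agent.NLG
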