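import Pool.Agent.Lib.NLG.Defs

/-!
# Averages over finite sets: basic facts
-/

set_option autoImplicit false

open Finset

namespace Pool.Agent.NLG

open Pool.Agent.HLT Pool.Agent.NLT

section basic

variable {α β : Type}

lemma card_ne {s : Finset α} (hs : s.Nonempty) : (s.card : ℝ) ≠ 0 := by
  have := Finset.card_pos.mpr hs
  positivity

lemma card_neC {s : Finset α} (hs : s.Nonempty) : (s.card : ℂ) ≠ 0 := by
  exact_mod_cast card_ne hs

lemma ev_const {s : Finset α} (hs : s.Nonempty) (c : ℂ) : ev s (fun _ => c) = c := by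
  unfold ev
  rw [Finset.sum_const, nsmul_eq_mul, mul_div_assoc, mul_comm, div_mul_cancel₀ _ (card_neC hs)]

lemma evr_const {s : Finset α} (hs : s.Nonempty) (c : ℝ) : evr s (fun _ => c) = c := by
  unfold evr
  rw [Finset.sum_const, nsmul_eq_mul, mul_div_assoc, mul_comm, div_mul_cancel₀ _ (card_ne hs)]

lemma ev_congr {s : Finset α} {F G : α → ℂ} (h : ∀ a ∈ s, F a = G a) : ev s F = ev s G := by
  unfold ev
  rw [Finset.sum_congr rfl h]

lemma evr_congr {s : Finset α} {F G : α → ℝ} (h : ∀ a ∈ s, F a = G a) : evr s F = evr s G := by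
  unfold evr
  rw [Finset.sum_congr rfl h]

lemma evr_nonneg (s : Finset α) {F : α → ℝ} (h : ∀ a ∈ s, 0 ≤ F a) : 0 ≤ evr s F := by
  unfold evr
  exact div_nonneg (Finset.sum_nonneg h) (Nat.cast_nonneg _)

lemma evr_mono (s : Finset α) {F G : α → ℝ} (h : ∀ a ∈ s, F a ≤ G a) : evr s F ≤ evr s G := by
  unfold evr
  exact div_le_div_of_nonneg_right (Finset.sum_le_sum h) (Nat.cast_nonneg _)

lemma evr_le (s : Finset α) {F : α → ℝ} {c : ℝ} (hc : 0 ≤ c) (h : ∀ a ∈ s, F a ≤ c) : evr s F ≤ c := by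
  rcases s.eq_empty_or_nonempty with rfl | hs
  · unfold evr
    simpa using hc
  · exact (evr_mono s h).trans (le_of_eq (evr_const hs c))

lemma norm_ev_le (s : Finset α) (F : α → ℂ) : ‖ev s F‖ ≤ evr s (fun a => ‖F a‖) := by
  unfold ev evr
  rw [norm_div, Complex.norm_natCast]
  exact div_le_div_of_nonneg_right (norm_sum_le _ _) (Nat.cast_nonneg _)

lemma norm_ev_le_one (s : Finset α) {F : α → ℂ} (hF : ∀ a ∈ s, ‖F a‖ ≤ 1) : ‖ev s F‖ ≤ 1 :=
  (norm_ev_le s F).trans (evr_le s zero_le_one hF)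

lemma ev_add (s : Finset α) (F G : α → ℂ) : ev s (fun a => F a + G a) = ev s F + ev s G := by
  unfold ev
  rw [Finset.sum_add_distrib, add_div]

lemma ev_sub (s : Finset α) (F G : α → ℂ) : ev s (fun a => F a - G a) = ev s F - ev s G := by
  unfold ev
  rw [Finset.sum_sub_distrib, sub_div]

lemma evr_add (s : Finset α) (F G : α → ℝ) : evr s (fun a => F a + G a) = evr s F + evr s G := by
  unfold evr
  rw [Finset.sum_add_distrib, add_div]

lemma ev_mul_left (s : Finset α) (c : ℂ) (F : α → ℂ) : ev s (fun a => c * F a) = c * ev s F := by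
  unfold ev
  rw [← Finset.mul_sum, mul_div_assoc]

lemma ev_mul_right (s : Finset α) (c : ℂ) (F : α → ℂ) : ev s (fun a => F a * c) = ev s F * c := by
  unfold ev
  rw [← Finset.sum_mul, mul_div_right_comm]

lemma evr_mul_left (s : Finset α) (c : ℝ) (F : α → ℝ) : evr s (fun a => c * F a) = c * evr s F := by
  unfold evr
  rw [← Finset.mul_sum, mul_div_assoc]

lemma ev_conj (s : Finset α) (F : α → ℂ) : ev s (fun a => (starRingEnd ℂ) (F a)) = (starRingEnd ℂ) (ev s F) := by
  unfold ev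
  rw [map_div₀, map_sum, Complex.conj_natCast]

lemma ev_ofReal (s : Finset α) (F : α → ℝ) : ev s (fun a => (F a : ℂ)) = ((evr s F : ℝ) : ℂ) := by
  unfold ev evr
  push_cast
  rfl

lemma ev_comm (s : Finset α) (t : Finset β) (F : α → β → ℂ) :
    ev s (fun a => ev t (fun b => F a b)) = ev t (fun b => ev s (fun a => F a b)) := by
  unfold ev
  rw [← Finset.sum_div, ← Finset.sum_div, Finset.sum_comm, div_div, div_div, mul_comm (t.card : ℂ)]

lemma evr_comm (s : Finset α) (t : Finset β) (F : α → β → ℝ) :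
    evr s (fun a => evr t (fun b => F a b)) = evr t (fun b => evr s (fun a => F a b)) := by
  unfold evr
  rw [← Finset.sum_div, ← Finset.sum_div, Finset.sum_comm, div_div, div_div, mul_comm (t.card : ℝ)]

lemma ev_prod (s : Finset α) (t : Finset β) (F : α × β → ℂ) :
    ev (s ×ˢ t) F = ev s (fun a => ev t (fun b => F (a, b))) := by
  unfold ev
  rw [Finset.sum_product, Finset.card_product, ← Finset.sum_div, div_div, Nat.cast_mul,
    mul_comm (t.card : ℂ)]

lemma evr_prod (s : Finset α) (t : Finset β) (F : α × β → ℝ) :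
    evr (s ×ˢ t) F = evr s (fun a => evr t (fun b => F (a, b))) := by
  unfold evr
  rw [Finset.sum_product, Finset.card_product, ← Finset.sum_div, div_div, Nat.cast_mul,
    mul_comm (t.card : ℝ)]

lemma norm_ev_sq (s : Finset α) (F : α → ℂ) :
    ((‖ev s F‖ ^ 2 : ℝ) : ℂ) = ev s (fun a => ev s (fun b => F a * (starRingEnd ℂ) (F b))) := by
  have h1 : ((‖ev s F‖ ^ 2 : ℝ) : ℂ) = ev s F * (starRingEnd ℂ) (ev s F) := by
    rw [Complex.mul_conj, Complex.normSq_eq_norm_sq]
  rw [h1, ← ev_conj, ← ev_mul_right]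
  exact ev_congr fun a _ => (ev_mul_left s (F a) _).symm

/-- Jensen. -/
lemma evr_pow_le (s : Finset α) {F : α → ℝ} (hF : ∀ a ∈ s, 0 ≤ F a) (n : ℕ) (hn : 1 ≤ n) :
    evr s F ^ n ≤ evr s (fun a => F a ^ n) := by
  rcases s.eq_empty_or_nonempty with rfl | hs
  · unfold evr
    simp [zero_pow (by omega : n ≠ 0)]
  · have h := Real.pow_arith_mean_le_arith_mean_pow s (fun _ => 1 / (s.card : ℝ)) F
      (fun i _ => by positivity) (by
        rw [Finset.sum_const, nsmul_eq_mul]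
        have := card_ne hs
        field_simp) hF n
    rw [← Finset.mul_sum, ← Finset.mul_sum] at h
    unfold evr
    calc ((∑ a ∈ s, F a) / (s.card : ℝ)) ^ n = (1 / (s.card : ℝ) * ∑ a ∈ s, F a) ^ n := by
          congr 1
          ring
      _ ≤ 1 / (s.card : ℝ) * ∑ a ∈ s, F a ^ n := h
      _ = (∑ a ∈ s, F a ^ n) / (s.card : ℝ) := by ring

lemma norm_ev_pow_le (s : Finset α) (F : α → ℂ) (n : ℕ) (hn : 1 ≤ n) :
    ‖ev s F‖ ^ n ≤ evr s (fun a => ‖F a‖ ^ n) :=
  (pow_le_pow_left₀ (norm_nonneg _) (norm_ev_le s F) n).trans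
    (evr_pow_le s (fun _ _ => norm_nonneg _) n hn)

/-- Cauchy-Schwarz with one factor bounded by one. -/
lemma norm_ev_mul_sq_le (s : Finset α) (F G : α → ℂ) (hG : ∀ a ∈ s, ‖G a‖ ≤ 1) :
    ‖ev s (fun a => G a * F a)‖ ^ 2 ≤ evr s (fun a => ‖F a‖ ^ 2) := by
  refine (norm_ev_pow_le s _ 2 (by norm_num)).trans (evr_mono s fun a ha => ?_)
  rw [norm_mul, mul_pow]
  exact mul_le_of_le_one_left (by positivity) (pow_le_one₀ (norm_nonneg _) (hG a ha))

/-- An average of numbers of `[0, 1]` which is at least `δ` has many terms which are at least `δ / 2`. -/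
lemma evr_popular (s : Finset α) (F : α → ℝ) (hF : ∀ a ∈ s, F a ≤ 1) (δ : ℝ) (h : δ ≤ evr s F) :
    δ / 2 * (s.card : ℝ) ≤ ((s.filter (fun a => δ / 2 ≤ F a)).card : ℝ) ∨ s = ∅ := by
  classical
  rcases s.eq_empty_or_nonempty with hs | hs
  · exact Or.inr hs
  left
  have hc : (0 : ℝ) < s.card := by exact_mod_cast Finset.card_pos.mpr hs
  have h1 : δ * s.card ≤ ∑ a ∈ s, F a := by
    unfold evr at h
    rwa [le_div_iff₀ hc] at h
  have h2 : ∑ a ∈ s, F a = ∑ a ∈ s.filter (fun a => δ / 2 ≤ F a), F a +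
      ∑ a ∈ s.filter (fun a => ¬ δ / 2 ≤ F a), F a := (Finset.sum_filter_add_sum_filter_not s _ F).symm
  have h3 : ∑ a ∈ s.filter (fun a => δ / 2 ≤ F a), F a ≤ ((s.filter (fun a => δ / 2 ≤ F a)).card : ℝ) := by
    refine (Finset.sum_le_sum (fun a ha => hF a (Finset.mem_filter.mp ha).1)).trans ?_
    simp
  rcases le_or_gt δ 0 with hδ | hδ
  · have : δ / 2 * (s.card : ℝ) ≤ 0 := by nlinarith
    exact this.trans (Nat.cast_nonneg _)
  have h4 : ∑ a ∈ s.filter (fun a => ¬ δ / 2 ≤ F a), F a ≤ δ / 2 * s.card := by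
    refine (Finset.sum_le_sum (fun a ha => (not_le.mp (Finset.mem_filter.mp ha).2).le)).trans ?_
    rw [Finset.sum_const, nsmul_eq_mul, mul_comm]
    refine mul_le_mul_of_nonneg_left ?_ (by linarith)
    exact_mod_cast Finset.card_filter_le _ _
  linarith

/-- Weighted averaging: a lower bound for an average of `a` gives one for an average of `b`. -/
lemma wavg_pos {ι : Type} (s : Finset ι) (w a b : ι → ℝ) (δ β : ℝ) (hw : ∀ i ∈ s, 0 ≤ w i)
    (hs : ∑ i ∈ s, w i ≤ 1) (ha : ∀ i ∈ s, a i ≤ 1) (hb : ∀ i ∈ s, 0 ≤ b i) (hδ : 0 ≤ δ) (hβ : 0 ≤ β)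
    (h : δ ≤ ∑ i ∈ s, w i * a i) (hab : ∀ i ∈ s, δ / 2 ≤ a i → β ≤ b i) :
    β * (δ / 2) ≤ ∑ i ∈ s, w i * b i := by
  classical
  have h2 : ∑ i ∈ s, w i * a i = ∑ i ∈ s.filter (fun i => δ / 2 ≤ a i), w i * a i +
      ∑ i ∈ s.filter (fun i => ¬ δ / 2 ≤ a i), w i * a i :=
    (Finset.sum_filter_add_sum_filter_not s _ _).symm
  have h3 : ∑ i ∈ s.filter (fun i => ¬ δ / 2 ≤ a i), w i * a i ≤ δ / 2 := by
    calc ∑ i ∈ s.filter (fun i => ¬ δ / 2 ≤ a i), w i * a i
        ≤ ∑ i ∈ s.filter (fun i => ¬ δ / 2 ≤ a i), w i * (δ / 2) :=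
          Finset.sum_le_sum (fun i hi => mul_le_mul_of_nonneg_left
            (not_le.mp (Finset.mem_filter.mp hi).2).le (hw i (Finset.mem_filter.mp hi).1))
      _ = (∑ i ∈ s.filter (fun i => ¬ δ / 2 ≤ a i), w i) * (δ / 2) := by rw [Finset.sum_mul]
      _ ≤ 1 * (δ / 2) := by
          refine mul_le_mul_of_nonneg_right ?_ (by linarith)
          exact (Finset.sum_le_sum_of_subset_of_nonneg (Finset.filter_subset _ _)
            (fun i hi _ => hw i hi)).trans hs
      _ = δ / 2 := one_mul _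
  have h4 : ∑ i ∈ s.filter (fun i => δ / 2 ≤ a i), w i * a i ≤ ∑ i ∈ s.filter (fun i => δ / 2 ≤ a i), w i := by
    refine Finset.sum_le_sum (fun i hi => ?_)
    exact mul_le_of_le_one_right (hw i (Finset.mem_filter.mp hi).1) (ha i (Finset.mem_filter.mp hi).1)
  calc β * (δ / 2) ≤ β * ∑ i ∈ s.filter (fun i => δ / 2 ≤ a i), w i :=
        mul_le_mul_of_nonneg_left (by linarith) hβ
    _ = ∑ i ∈ s.filter (fun i => δ / 2 ≤ a i), w i * β := by
        rw [Finset.mul_sum]
        exact Finset.sum_congr rfl fun i _ => mul_comm _ _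
    _ ≤ ∑ i ∈ s.filter (fun i => δ / 2 ≤ a i), w i * b i :=
        Finset.sum_le_sum (fun i hi => mul_le_mul_of_nonneg_left
          (hab i (Finset.mem_filter.mp hi).1 (Finset.mem_filter.mp hi).2) (hw i (Finset.mem_filter.mp hi).1))
    _ ≤ ∑ i ∈ s, w i * b i :=
        Finset.sum_le_sum_of_subset_of_nonneg (Finset.filter_subset _ _)
          (fun i hi _ => mul_nonneg (hw i hi) (hb i hi))

/-- The same for uniform averages. -/
lemma evr_pos (s : Finset α) (a b : α → ℝ) (δ β : ℝ) (ha : ∀ i ∈ s, a i ≤ 1) (hb : ∀ i ∈ s, 0 ≤ b i)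
    (hδ : 0 ≤ δ) (hβ : 0 ≤ β) (h : δ ≤ evr s a) (hab : ∀ i ∈ s, δ / 2 ≤ a i → β ≤ b i) :
    β * (δ / 2) ≤ evr s b := by
  rcases s.eq_empty_or_nonempty with rfl | hs
  · have h0 : δ = 0 := by
      unfold evr at h
      simp at h
      linarith
    unfold evr
    simp [h0]
  have hc := card_ne hs
  have e : ∀ F : α → ℝ, evr s F = ∑ i ∈ s, (1 / (s.card : ℝ)) * F i := by
    intro F
    unfold evr
    rw [← Finset.mul_sum]
    field_simp
  rw [e] at h ⊢
  refine wavg_pos s (fun _ => 1 / (s.card : ℝ)) a b δ β (fun _ _ => by positivity) ?_ ha hb hδ hβ h hab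
  rw [Finset.sum_const, nsmul_eq_mul]
  field_simp
  exact le_refl _

lemma tv_eq_ev (H : ℕ) (F : ℕ → ℂ) : tv H F = ev (range H) F := by
  unfold tv ev
  rw [Finset.card_range]

lemma tvr_eq_evr (H : ℕ) (F : ℕ → ℝ) : tvr H F = evr (range H) F := by
  unfold tvr evr
  rw [Finset.card_range]

end basic

section group

variable {M : ℕ} [NeZero M]

lemma av_eq_ev (F : ZMod M → ℂ) : av F = ev univ F := by
  unfold av ev
  rw [Finset.card_univ, ZMod.card]

lemma avr_eq_evr (F : ZMod M → ℝ) : avr F = evr univ F := by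
  unfold avr evr
  rw [Finset.card_univ, ZMod.card]

lemma ev_av_comm {α : Type} (s : Finset α) (F : α → ZMod M → ℂ) :
    ev s (fun a => av (F a)) = av (fun x => ev s (fun a => F a x)) := by
  simp only [av_eq_ev]
  exact ev_comm s univ F

lemma evr_avr_comm {α : Type} (s : Finset α) (F : α → ZMod M → ℝ) :
    evr s (fun a => avr (F a)) = avr (fun x => evr s (fun a => F a x)) := by
  simp only [avr_eq_evr]
  exact evr_comm s univ F

end group

end Pool.Agent.NLG
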