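import Pool.Agent.Lib.NLG.BlkA
import Pool.Agent.Lib.NLG.Ev

/-!
# Module BlkC: from cyclic groups of the right size to all cyclic groups (inverse theorem)

PROOF. As in BlkB (`D0 = d (last m)`, `N = H ^ D0`, `B = D0 R N`, `M'` prime, `2 (N + B) < M' ≤ 4 (N + B) ≤ R1 N`). `avr_y ‖TP_(M')(lifted at y)‖ ≥ 1 / (R1 R)`, so at least
`M / (2 R1 R)` of the `y` have `‖TP_(M')‖ ≥ 1 / (2 R1 R) =: 1 / R2`. `CoreA m` with `R2` in place of `R` (all lifted functions are bounded): for each such `y` and each `j`: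
`Star C R2 H (d j) (lift M' y f~ j)`, `f~ j x = f j (x + P j 0)`, with some `q = q (y, j) ≤ R2 ^ C`. Fix `j`. One `q` occurs for at least `M / (R2 R2 ^ C)` of the `y`. Let `J ≥ 1` with
`J R ^ C' ≤ H ^ d j`. For these `y`: `R2 ^ (-C) ≤ avr_z ‖tv J (fun i => f~ j (y + (z + q i)'))‖`; if `|z'| + q J < M' / 2` then `(z + q i)' = z' + q i`; the other `z` are a proportion
`≤ (2 q J + 2) / M' ≤ R2 ^ (-C) / 2` (`C'` large; `M' ≥ H ^ D0 ≥ H ^ d j`). So `R2 ^ (-C) / 2 ≤ avr_z ‖tv J (fun i => f~ j (y + z' + q i))‖` for at least `M / R2 ^ (C + 1)` of the `y`. Average over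
ALL `y` (nonnegative terms): `R2 ^ (-2 C - 2) ≤ avr_y avr_z ‖..‖ = avr_x ‖tv J (fun i => f~ j (x + q i))‖ = avr_x ‖tv J (fun i => f j (x + q i))‖` (shift `y` by `z'`, then by `P j 0`).
-/

set_option autoImplicit false

open Finset Polynomial

namespace Pool.Agent.NLG

open Pool.Agent.HLT Pool.Agent.NLT

namespace BlkCAux

/-- the residues near the end of the range of representatives -/
lemma bad_card {M' : ℕ} [NeZero M'] (k : ℕ) :
    ((univ : Finset (ZMod M')).filter (fun z => (M' : ℤ) ≤ 2 * (z.valMinAbs + k))).card ≤ k + 1 := by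
  classical
  have h1 : ((univ : Finset (ZMod M')).filter (fun z => (M' : ℤ) ≤ 2 * (z.valMinAbs + k))).card ≤
      (Icc ((M' : ℤ) / 2 - k) ((M' : ℤ) / 2)).card := by
    refine Finset.card_le_card_of_injOn (fun z => z.valMinAbs) ?_ ?_
    · intro z hz
      rw [Finset.mem_coe, Finset.mem_filter] at hz
      have h2 := hz.2
      have h3 := (ZMod.valMinAbs_mem_Ioc z).2
      rw [Finset.mem_coe, Finset.mem_Icc]
      constructor
      · show (M' : ℤ) / 2 - k ≤ z.valMinAbs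
        omega
      · show z.valMinAbs ≤ (M' : ℤ) / 2
        omega
    · intro z _ z' _ h
      exact ZMod.injective_valMinAbs h
  refine h1.trans ?_
  rw [Int.card_Icc]
  omega

lemma point {M M' : ℕ} [NeZero M] [NeZero M'] (F : ZMod M → ℂ) (hF : Bd F) (q J : ℕ) (y : ZMod M) (z : ZMod M') :
    ‖tv J (fun i => lift M' y F (z + ((q * i : ℕ) : ZMod M')))‖ ≤
      ‖tv J (fun i => F ((y + ((z.valMinAbs : ℤ) : ZMod M)) + ((q * i : ℕ) : ZMod M)))‖ +
        (if (M' : ℤ) ≤ 2 * (z.valMinAbs + (q * J : ℕ)) then 1 else 0) := by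
  have hb : ‖tv J (fun i => lift M' y F (z + ((q * i : ℕ) : ZMod M')))‖ ≤ 1 :=
    norm_tv_le_one _ _ (fun i => hF _)
  by_cases hz : (M' : ℤ) ≤ 2 * (z.valMinAbs + (q * J : ℕ))
  · rw [if_pos hz]
    have := norm_nonneg (tv J (fun i => F ((y + ((z.valMinAbs : ℤ) : ZMod M)) + ((q * i : ℕ) : ZMod M))))
    linarith
  · rw [if_neg hz, add_zero]
    apply le_of_eq
    congr 1
    unfold tv
    congr 1
    refine Finset.sum_congr rfl fun i hi => ?_
    rw [Finset.mem_range] at hi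
    have h1 : q * i ≤ q * J := Nat.mul_le_mul_left _ hi.le
    have h2 := (ZMod.valMinAbs_mem_Ioc z).1
    have h3 : (z + (((q * i : ℕ) : ℤ) : ZMod M')).valMinAbs = z.valMinAbs + ((q * i : ℕ) : ℤ) := by
      refine BlkAAux.vma_add z.valMinAbs ((q * i : ℕ) : ℤ) ?_ ?_ z (ZMod.coe_valMinAbs z).symm
      · have : (0 : ℤ) ≤ ((q * i : ℕ) : ℤ) := Int.natCast_nonneg _
        omega
      · have : ((q * i : ℕ) : ℤ) ≤ ((q * J : ℕ) : ℤ) := by exact_mod_cast h1
        omega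
    rw [Int.cast_natCast] at h3
    show F (y + (((z + ((q * i : ℕ) : ZMod M')).valMinAbs : ℤ) : ZMod M)) =
      F ((y + ((z.valMinAbs : ℤ) : ZMod M)) + ((q * i : ℕ) : ZMod M))
    rw [h3]
    congr 1
    push_cast
    ring

lemma transfer {M M' : ℕ} [NeZero M] [NeZero M'] (F : ZMod M → ℂ) (hF : Bd F) (q J : ℕ) (Y : Finset (ZMod M)) (δ : ℝ)
    (hδ : 0 ≤ δ) (hbad : ((q * J + 1 : ℕ) : ℝ) / M' ≤ δ / 2)
    (hY : ∀ y ∈ Y, δ ≤ avr (fun z : ZMod M' => ‖tv J (fun i => lift M' y F (z + ((q * i : ℕ) : ZMod M')))‖)) :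
    (Y.card : ℝ) / M * (δ / 2) ≤ avr (fun x => ‖tv J (fun i => F (x + ((q * i : ℕ) : ZMod M)))‖) := by
  classical
  have hM : (0 : ℝ) < M := by exact_mod_cast NeZero.pos M
  have hM' : (0 : ℝ) < M' := by exact_mod_cast NeZero.pos M'
  set T : ZMod M → ℝ := fun y => avr (fun z : ZMod M' =>
    ‖tv J (fun i => F ((y + ((z.valMinAbs : ℤ) : ZMod M)) + ((q * i : ℕ) : ZMod M)))‖) with hT
  have hT0 : ∀ y, 0 ≤ T y := fun y => avr_nonneg fun _ => norm_nonneg _
  have h1 : ∀ y ∈ Y, δ / 2 ≤ T y := by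
    intro y hy
    have e1 := hY y hy
    have e2 : avr (fun z : ZMod M' => ‖tv J (fun i => lift M' y F (z + ((q * i : ℕ) : ZMod M')))‖) ≤
        T y + avr (fun z : ZMod M' => (if (M' : ℤ) ≤ 2 * (z.valMinAbs + (q * J : ℕ)) then (1 : ℝ) else 0)) := by
      rw [hT, ← avr_add]
      exact avr_mono fun z => point F hF q J y z
    have e3 : avr (fun z : ZMod M' => (if (M' : ℤ) ≤ 2 * (z.valMinAbs + (q * J : ℕ)) then (1 : ℝ) else 0)) ≤
        δ / 2 := by
      refine le_trans ?_ hbad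
      unfold avr
      refine div_le_div_of_nonneg_right ?_ hM'.le
      rw [← Finset.sum_filter, Finset.sum_const, nsmul_eq_mul, mul_one]
      exact_mod_cast bad_card (q * J)
    linarith
  have h2 : avr T = avr (fun x => ‖tv J (fun i => F (x + ((q * i : ℕ) : ZMod M)))‖) := by
    have e1 : avr T = avr (fun z : ZMod M' => avr (fun y : ZMod M =>
        ‖tv J (fun i => F ((y + ((z.valMinAbs : ℤ) : ZMod M)) + ((q * i : ℕ) : ZMod M)))‖)) := by
      rw [hT]
      unfold avr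
      rw [← Finset.sum_div, ← Finset.sum_div, Finset.sum_comm, div_div, div_div, mul_comm (M' : ℝ)]
    rw [e1]
    have e2 : ∀ z : ZMod M', avr (fun y : ZMod M =>
        ‖tv J (fun i => F ((y + ((z.valMinAbs : ℤ) : ZMod M)) + ((q * i : ℕ) : ZMod M)))‖) =
        avr (fun x => ‖tv J (fun i => F (x + ((q * i : ℕ) : ZMod M)))‖) := fun z =>
      avr_shift (fun x => ‖tv J (fun i => F (x + ((q * i : ℕ) : ZMod M)))‖) _
    simp only [e2]
    exact avr_const _
  rw [← h2]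
  unfold avr
  rw [div_mul_eq_mul_div]
  refine div_le_div_of_nonneg_right ?_ hM.le
  calc (Y.card : ℝ) * (δ / 2) = ∑ _y ∈ Y, (δ / 2) := by rw [Finset.sum_const, nsmul_eq_mul]
    _ ≤ ∑ y ∈ Y, T y := Finset.sum_le_sum h1
    _ ≤ ∑ y, T y := Finset.sum_le_sum_of_subset_of_nonneg (Finset.subset_univ _) (fun y _ _ => hT0 y)

/-- one value is taken often -/
lemma often {α : Type} (Y : Finset α) (qf : α → ℕ) (Q : ℕ) (h : ∀ y ∈ Y, 1 ≤ qf y ∧ qf y ≤ Q) (hQ : 1 ≤ Q) :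
    ∃ q : ℕ, 1 ≤ q ∧ q ≤ Q ∧ (Y.card : ℝ) / Q ≤ ((Y.filter (fun y => qf y = q)).card : ℝ) := by
  classical
  by_contra hcon
  push Not at hcon
  have h1 : Y.card = ∑ q ∈ Icc 1 Q, (Y.filter (fun y => qf y = q)).card :=
    Finset.card_eq_sum_card_fiberwise (fun y hy => by
      rw [Finset.mem_coe, Finset.mem_Icc]
      exact h y hy)
  have h2 : (Y.card : ℝ) = ∑ q ∈ Icc 1 Q, ((Y.filter (fun y => qf y = q)).card : ℝ) := by exact_mod_cast h1
  have hQ0 : (0 : ℝ) < Q := by exact_mod_cast hQ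
  have h3 : ∑ q ∈ Icc 1 Q, ((Y.filter (fun y => qf y = q)).card : ℝ) < ∑ _q ∈ Icc 1 Q, (Y.card : ℝ) / Q := by
    refine Finset.sum_lt_sum_of_nonempty ⟨1, Finset.mem_Icc.2 ⟨le_rfl, hQ⟩⟩ fun q hq => ?_
    rw [Finset.mem_Icc] at hq
    exact hcon q hq.1 hq.2
  rw [Finset.sum_const, Nat.card_Icc, nsmul_eq_mul, Nat.add_sub_cancel, mul_div_cancel₀ _ hQ0.ne'] at h3
  linarith

lemma norm_TP_le {M m : ℕ} [NeZero M] (H : ℕ) (P : Fin m → ℤ[X]) {f0 : ZMod M → ℂ} (hf0 : Bd f0)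
    {f : Fin m → ZMod M → ℂ} (hf : ∀ j, Bd (f j)) : ‖TP H (fun _ => 1) P f0 f‖ ≤ 1 := by
  unfold TP
  refine norm_tv_le_one _ _ fun t => ?_
  rw [one_mul]
  refine norm_av_le_one fun x => ?_
  rw [norm_mul, norm_prod]
  exact mul_le_one₀ (hf0 x) (Finset.prod_nonneg fun _ _ => norm_nonneg _)
    (Finset.prod_le_one (fun _ _ => norm_nonneg _) fun j _ => hf j _)

end BlkCAux

open BlkCAux

theorem genA_succ (m : ℕ) (h : CoreA m) : GenA (m + 1) := by
  classical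
  intro d hd h1
  obtain ⟨C0, hC0⟩ := h d hd h1
  set D0 := d (Fin.last m) with hD0
  set E := (D0 + 5) * C0 with hE
  refine ⟨3 * E + D0 + 20, ?_⟩
  intro M _ H R hR hH P hP f0 hf0 f hf hlow j
  have hR1 : 1 ≤ R := by omega
  have hRr : (2 : ℝ) ≤ R := by exact_mod_cast hR
  have hRr1 : (1 : ℝ) ≤ R := by linarith
  have hH1 : 1 ≤ H := le_trans (Nat.one_le_pow _ _ (by omega)) hH
  set N := H ^ D0 with hN
  have hN1 : 1 ≤ N := Nat.one_le_pow _ _ hH1
  set B := D0 * R * N with hB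
  obtain ⟨M', hM'p, hM'1, hM'2⟩ := Nat.exists_prime_lt_and_le_two_mul (2 * (N + B)) (by omega)
  have : Fact M'.Prime := ⟨hM'p⟩
  have : NeZero M' := ⟨hM'p.ne_zero⟩
  -- the size of `M'`
  have hR3 : 4 * (D0 + 1) ≤ R ^ (D0 + 2) := by
    have e1 : D0 + 1 ≤ 2 ^ D0 := Nat.lt_two_pow_self
    calc 4 * (D0 + 1) ≤ 4 * 2 ^ D0 := Nat.mul_le_mul_left _ e1
      _ = 2 ^ (D0 + 2) := by ring
      _ ≤ R ^ (D0 + 2) := Nat.pow_le_pow_left hR _
  have hM'3 : M' ≤ R ^ (D0 + 3) * N := by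
    calc M' ≤ 2 * (2 * (N + B)) := hM'2
      _ = 4 * (1 + D0 * R) * N := by rw [hB]; ring
      _ ≤ 4 * ((D0 + 1) * R) * N := by
          refine Nat.mul_le_mul_right _ (Nat.mul_le_mul_left _ ?_)
          have : 1 + D0 * R ≤ R + D0 * R := Nat.add_le_add_right hR1 _
          calc 1 + D0 * R ≤ R + D0 * R := this
            _ = (D0 + 1) * R := by ring
      _ = (4 * (D0 + 1)) * (R * N) := by ring
      _ ≤ R ^ (D0 + 2) * (R * N) := Nat.mul_le_mul_right _ hR3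
      _ = R ^ (D0 + 3) * N := by ring
  have hbd : ∀ j, ∀ t < H, |(P j).eval (t : ℤ) - (P j).eval 0| ≤ (B : ℤ) := by
    intro j t ht
    have hj : d j ≤ D0 := hd.monotone (Fin.le_last j)
    refine (poly_bound (P j) (d j) R H (hP.1 j) (hP.2 j) t ht.le).trans ?_
    have e : d j * R * H ^ d j ≤ B := by
      rw [hB, hN]
      exact Nat.mul_le_mul (Nat.mul_le_mul_right _ hj) (Nat.pow_le_pow_right hH1 hj)
    exact_mod_cast e
  -- averaging over blocks
  have key := TP_block H N B (fun _ => 1) P f0 f hbd hM'1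
  have hMpos : (0 : ℝ) < M' := by exact_mod_cast hM'p.pos
  have hM : (0 : ℝ) < M := by exact_mod_cast NeZero.pos M
  have hRpos : (0 : ℝ) < R := by exact_mod_cast hR1
  have hlow2 : 1 / (R : ℝ) ^ (D0 + 4) ≤ avr (fun y => ‖TP H (fun _ => 1)
      (fun j => P j - C ((P j).eval 0)) (lift0 M' N y f0)
      (fun j => lift M' y (fun x => f j (x + (((P j).eval 0 : ℤ) : ZMod M))))‖) := by
    refine le_trans ?_ (norm_av_le _)
    rw [key, norm_mul, norm_div, Complex.norm_natCast, Complex.norm_natCast]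
    have e1 : 1 / (R : ℝ) ^ (D0 + 3) ≤ (N : ℝ) / (M' : ℝ) := by
      rw [div_le_div_iff₀ (by positivity) hMpos, one_mul]
      have : (M' : ℝ) ≤ (R : ℝ) ^ (D0 + 3) * N := by exact_mod_cast hM'3
      linarith
    calc 1 / (R : ℝ) ^ (D0 + 4) = 1 / (R : ℝ) ^ (D0 + 3) * (1 / (R : ℝ)) := by
          rw [div_mul_div_comm, one_mul, ← pow_succ]
      _ ≤ (N : ℝ) / (M' : ℝ) * ‖TP H (fun _ => 1) P f0 f‖ :=
          mul_le_mul e1 hlow (by positivity) (by positivity)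
  have hB0 : ∀ y : ZMod M, Bd (lift0 M' N y f0) := by
    intro y z
    unfold lift0
    split_ifs
    · exact hf0 _
    · simp
  have hBj : ∀ (y : ZMod M) (j : Fin (m + 1)), Bd (lift M' y (fun x => f j (x + (((P j).eval 0 : ℤ) : ZMod M)))) := by
    intro y j z
    unfold lift
    exact hf j _
  -- many blocks
  set Y : Finset (ZMod M) := univ.filter (fun y => 1 / (R : ℝ) ^ (D0 + 4) / 2 ≤ ‖TP H (fun _ => 1)
      (fun j => P j - C ((P j).eval 0)) (lift0 M' N y f0)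
      (fun j => lift M' y (fun x => f j (x + (((P j).eval 0 : ℤ) : ZMod M))))‖) with hY
  have hYc : 1 / (R : ℝ) ^ (D0 + 5) * M ≤ Y.card := by
    rw [avr_eq_evr] at hlow2
    have e1 := evr_popular univ _ (fun y _ => norm_TP_le H _ (hB0 y) (hBj y)) _ hlow2
    have e2 : (univ : Finset (ZMod M)) ≠ ∅ := Finset.univ_nonempty.ne_empty
    have e3 := e1.resolve_right e2
    rw [Finset.card_univ, ZMod.card] at e3
    refine le_trans ?_ e3
    refine mul_le_mul_of_nonneg_right ?_ hM.le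
    rw [div_div, div_le_div_iff₀ (by positivity) (by positivity), pow_succ (R : ℝ) (D0 + 4)]
    have e4 : (0 : ℝ) < (R : ℝ) ^ (D0 + 4) := by positivity
    nlinarith
  have hR2 : R ≤ R ^ (D0 + 5) := by
    calc R = R ^ 1 := (pow_one R).symm
      _ ≤ R ^ (D0 + 5) := Nat.pow_le_pow_right hR1 (by omega)
  have hstar : ∀ y ∈ Y, Star C0 (R ^ (D0 + 5)) H (d j) (lift M' y (fun x => f j (x + (((P j).eval 0 : ℤ) : ZMod M)))) := by
    intro y hy
    have hy' := (Finset.mem_filter.1 hy).2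
    refine hC0 M' H (R ^ (D0 + 5)) (hR.trans hR2)
      (by rw [← pow_mul]; exact (Nat.pow_le_pow_right hR1 (by omega)).trans hH)
      (by rw [← hN]; omega)
      (by
        rw [← hN]
        exact hM'3.trans (Nat.mul_le_mul_right _ (Nat.pow_le_pow_right hR1 (by omega))))
      (fun j => P j - C ((P j).eval 0)) (Fam_mono (Fam_sub hP h1) hR2) (lift0 M' N y f0) (hB0 y)
      (fun j => lift M' y (fun x => f j (x + (((P j).eval 0 : ℤ) : ZMod M)))) (hBj y) ?_ j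
    refine le_trans ?_ hy'
    push_cast
    rw [div_div, div_le_div_iff₀ (by positivity) (by positivity), pow_succ (R : ℝ) (D0 + 4)]
    have e4 : (0 : ℝ) < (R : ℝ) ^ (D0 + 4) := by positivity
    nlinarith
  choose! qf hq1 hq2 hq3 using hstar
  have hRE : 1 ≤ R ^ E := Nat.one_le_pow _ _ (by omega)
  have hRE' : (R ^ (D0 + 5)) ^ C0 = R ^ E := by rw [← pow_mul]
  obtain ⟨q, hq1', hq2', hq3'⟩ := often Y qf (R ^ E) (fun y hy => ⟨hq1 y hy, by rw [← hRE']; exact hq2 y hy⟩) hRE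
  refine ⟨q, hq1', hq2'.trans (Nat.pow_le_pow_right hR1 (by omega)), ?_⟩
  intro J hJ hJH
  have hdj : H ^ d j ≤ N := Nat.pow_le_pow_right hH1 (hd.monotone (Fin.le_last j))
  have hREr : (0 : ℝ) < (R : ℝ) ^ E := by positivity
  have htr := transfer (M' := M') (fun x => f j (x + (((P j).eval 0 : ℤ) : ZMod M))) (fun x => hf j _) q J
    (Y.filter (fun y => qf y = q)) (1 / (R : ℝ) ^ E) (by positivity) (by
      rw [div_le_iff₀ hMpos]
      have e1 : (q * J + 1) * (4 * R ^ E) ≤ M' := by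
        have e2 : q * J + 1 ≤ 2 * (R ^ E * J) := by
          have : q * J ≤ R ^ E * J := Nat.mul_le_mul_right _ hq2'
          have : 1 ≤ R ^ E * J := Nat.mul_pos hRE hJ
          omega
        have e3 : 2 * (R ^ E * J) * (4 * R ^ E) ≤ J * R ^ (3 * E + D0 + 20) := by
          have e5 : 8 * (R ^ E * R ^ E) ≤ R ^ (3 * E + D0 + 20) := by
            have e6 : 8 ≤ R ^ 3 := by
              calc 8 = 2 ^ 3 := by norm_num
                _ ≤ R ^ 3 := Nat.pow_le_pow_left hR 3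
            calc 8 * (R ^ E * R ^ E) ≤ R ^ 3 * (R ^ E * R ^ E) := Nat.mul_le_mul_right _ e6
              _ = R ^ (3 + (E + E)) := by rw [pow_add, pow_add]
              _ ≤ R ^ (3 * E + D0 + 20) := Nat.pow_le_pow_right hR1 (by omega)
          calc 2 * (R ^ E * J) * (4 * R ^ E) = J * (8 * (R ^ E * R ^ E)) := by ring
            _ ≤ J * R ^ (3 * E + D0 + 20) := Nat.mul_le_mul_left _ e5
        calc (q * J + 1) * (4 * R ^ E) ≤ 2 * (R ^ E * J) * (4 * R ^ E) := Nat.mul_le_mul_right _ e2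
          _ ≤ J * R ^ (3 * E + D0 + 20) := e3
          _ ≤ H ^ d j := hJH
          _ ≤ N := hdj
          _ ≤ M' := by omega
      have e2 : ((q * J + 1 : ℕ) : ℝ) * (4 * (R : ℝ) ^ E) ≤ M' := by exact_mod_cast e1
      have e3 : (0 : ℝ) ≤ ((q * J + 1 : ℕ) : ℝ) * (2 * (R : ℝ) ^ E) := by positivity
      have e4 : ((q * J + 1 : ℕ) : ℝ) ≤ M' / (2 * (R : ℝ) ^ E) := by
        rw [le_div_iff₀ (by positivity)]
        linarith
      refine e4.trans (le_of_eq ?_)
      field_simp) (by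
      intro y hy
      rw [Finset.mem_filter] at hy
      have e1 := hq3 y hy.1 J hJ (by
        rw [hRE']
        exact (Nat.mul_le_mul_left _ (Nat.pow_le_pow_right hR1 (by omega))).trans hJH)
      rw [hy.2, Nat.cast_pow, ← pow_mul] at e1
      exact e1)
  have hsh : avr (fun x => ‖tv J (fun i => f j ((x + ((q * i : ℕ) : ZMod M)) + (((P j).eval 0 : ℤ) : ZMod M)))‖) =
      avr (fun x => ‖tv J (fun i => f j (x + ((q * i : ℕ) : ZMod M)))‖) := by
    rw [← avr_shift (fun x => ‖tv J (fun i => f j (x + ((q * i : ℕ) : ZMod M)))‖) (((P j).eval 0 : ℤ) : ZMod M)]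
    congr 1
    funext x
    congr 2
    funext i
    congr 1
    ring
  rw [← hsh]
  refine le_trans ?_ htr
  have e1 : 1 / (R : ℝ) ^ (D0 + 5) / (R : ℝ) ^ E ≤ ((Y.filter (fun y => qf y = q)).card : ℝ) / M := by
    rw [le_div_iff₀ hM]
    have e2 : (Y.card : ℝ) / ((R ^ E : ℕ) : ℝ) ≤ ((Y.filter (fun y => qf y = q)).card : ℝ) := hq3'
    refine le_trans ?_ e2
    push_cast
    rw [div_mul_eq_mul_div]
    exact div_le_div_of_nonneg_right hYc hREr.le
  have e2 : (0 : ℝ) < 1 / (R : ℝ) ^ E / 2 := by positivity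
  refine le_trans ?_ (mul_le_mul_of_nonneg_right e1 e2.le)
  have e3 : 1 / (R : ℝ) ^ (D0 + 5) / (R : ℝ) ^ E * (1 / (R : ℝ) ^ E / 2) =
      1 / ((R : ℝ) ^ (D0 + 5) * (R : ℝ) ^ E * (R : ℝ) ^ E * 2) := by
    field_simp
  rw [e3]
  refine one_div_le_one_div_of_le (by positivity) ?_
  calc (R : ℝ) ^ (D0 + 5) * (R : ℝ) ^ E * (R : ℝ) ^ E * 2 ≤ (R : ℝ) ^ (D0 + 5) * (R : ℝ) ^ E * (R : ℝ) ^ E * R :=
        mul_le_mul_of_nonneg_left hRr (by positivity)
    _ = (R : ℝ) ^ (2 * E + D0 + 6) := by ring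
    _ ≤ (R : ℝ) ^ (3 * E + D0 + 20) := pow_le_pow_right₀ hRr1 (by omega)

end Pool.Agent.NLG
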