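import Pool.Agent.Lib.NLG.DefsC
import Pool.Agent.Lib.NLG.WeylG

/-!
# Module CoreBm: phases

PROOFS. `genB_zero`: there is no function `f j`, so `TP H θ P f0 f = tv H (θ t * av f0)` and `‖tv H θ‖ ≥ 1 / R`; `weyl_real D`.
`coreB`: let `1 / R ≤ ‖TP H θ P f0 f‖`, `θ t = ex (Θ t)`. `RedG m` gives `η` with `1 / R ^ C ≤ ‖TP H (fun t => θ t * chi η (Pm t)) (P castSucc) (f0 chi η) (f castSucc)‖`, and
`θ t * chi η (Pm t) = ex (Θ' t)` with `Θ' = Θ + (η.val / M) Pm` (`chi_int`, `ex_add`; `Pm` mapped to `ℝ[X]`), of degree `≤ D` with the same coefficient of index `D`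
(`natDegree Pm = d (last m) < D`). Apply `GenB m` with `R ^ C` (or `R ^ (C + 1)`) in place of `R` (`Fam` is monotone in `R`; restriction to `castSucc`: degrees `d castSucc`).
-/

set_option autoImplicit false

open Finset Polynomial

namespace Pool.Agent.NLG

open Pool.Agent.HLT Pool.Agent.NLT

namespace CoreBmAux

lemma norm_av_le {M : ℕ} [NeZero M] (f : ZMod M → ℂ) (hf : Bd f) : ‖av f‖ ≤ 1 := by
  have hM : (0 : ℝ) < (M : ℝ) := by exact_mod_cast Nat.pos_of_ne_zero (NeZero.ne M)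
  rw [av, norm_div, Complex.norm_natCast, div_le_one hM]
  refine (norm_sum_le _ _).trans ?_
  refine (Finset.sum_le_sum (fun x _ => hf x)).trans ?_
  simp

lemma tv_mul (H : ℕ) (θ : ℕ → ℂ) (c : ℂ) : tv H (fun t => θ t * c) = tv H θ * c := by
  rw [tv, tv, ← Finset.sum_mul]
  ring

end CoreBmAux

theorem genB_zero : GenB 0 := by
  intro d D _ _ _ hD
  obtain ⟨C, hC⟩ := weyl_real D hD
  refine ⟨C, fun M _ H R hR hH P _ Θ hΘ f0 hf0 f _ h => hC H R Θ hR hH hΘ ?_⟩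
  refine h.trans ?_
  have h1 : TP H (fun t => ex (Θ.eval (t : ℝ))) P f0 f =
      tv H (fun t => ex (Θ.eval (t : ℝ))) * av f0 := by
    rw [← CoreBmAux.tv_mul, TP]
    simp
  rw [h1, norm_mul]
  exact mul_le_of_le_one_right (norm_nonneg _) (CoreBmAux.norm_av_le f0 hf0)

theorem coreB (m : ℕ) (hR : RedG m) (hB : GenB m) : CoreB m := by
  intro d D hd1 hd2 hd3
  obtain ⟨C1, hC1⟩ := hR d hd1 hd2
  have hD : 1 ≤ D := (hd2 0).trans (hd3 0).le
  obtain ⟨C2, hC2⟩ := hB (fun j => d j.castSucc) D (fun i j hij => hd1 (Fin.castSucc_lt_castSucc_iff.2 hij))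
    (fun j => hd2 _) (fun j => hd3 _) hD
  refine ⟨(C1 + 1) * (C2 + 1), fun M _ H R hR2 hH hM1 hM2 P hP Θ hΘ f0 hf0 f hf h => ?_⟩
  have hR1 : 1 ≤ R := by omega
  have e1 : C1 + 1 ≤ (C1 + 1) * (C2 + 1) := Nat.le_mul_of_pos_right _ (by omega)
  have e2 : (C1 + 1) * C2 ≤ (C1 + 1) * (C2 + 1) := Nat.mul_le_mul_left _ (by omega)
  have h1 : R ^ C1 ≤ H := (Nat.pow_le_pow_right hR1 ((Nat.le_succ C1).trans e1)).trans hH
  have h2 : (R ^ (C1 + 1)) ^ C2 ≤ H := by
    rw [← pow_mul]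
    exact (Nat.pow_le_pow_right hR1 e2).trans hH
  have h3 : 2 ≤ R ^ (C1 + 1) := hR2.trans (by
    calc R = R ^ 1 := (pow_one R).symm
      _ ≤ R ^ (C1 + 1) := Nat.pow_le_pow_right hR1 (by omega))
  obtain ⟨η, hη⟩ := hC1 M H R hR2 h1 hM1 hM2 P hP (fun t => ex (Θ.eval (t : ℝ)))
    (fun t => norm_ex _) f0 hf0 f hf h
  obtain ⟨Θ', hΘ'⟩ : ∃ Θ' : ℝ[X], Θ' = Θ + Polynomial.C ((η.val : ℝ) / (M : ℝ)) *
      (P (Fin.last m)).map (Int.castRingHom ℝ) := ⟨_, rfl⟩
  have hdeg : (P (Fin.last m)).natDegree < D := by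
    rw [hP.1]
    exact hd3 _
  have h4 : Θ'.natDegree ≤ D := by
    rw [hΘ']
    refine (natDegree_add_le _ _).trans (max_le hΘ ?_)
    exact (natDegree_C_mul_le _ _).trans (natDegree_map_le.trans hdeg.le)
  have h5 : Θ'.coeff D = Θ.coeff D := by
    rw [hΘ', coeff_add, coeff_C_mul, coeff_map, coeff_eq_zero_of_natDegree_lt hdeg]
    simp
  have h6 : ∀ t : ℕ, ex (Θ.eval (t : ℝ)) * chi η ((((P (Fin.last m)).eval (t : ℤ) : ℤ)) : ZMod M) =
      ex (Θ'.eval (t : ℝ)) := by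
    intro t
    rw [chi_int, hΘ', eval_add, eval_mul, eval_C]
    have h3 : ((P (Fin.last m)).map (Int.castRingHom ℝ)).eval (t : ℝ) =
        (((P (Fin.last m)).eval (t : ℤ) : ℤ) : ℝ) := by
      have h4 := Polynomial.eval_intCast_map (Int.castRingHom ℝ) (P (Fin.last m)) (t : ℤ)
      push_cast at h4
      exact h4
    rw [h3, ← ex_add, mul_comm ((η.val : ℝ) / (M : ℝ))]
  simp only [h6] at hη
  have hfam : Fam m (fun j => d j.castSucc) (R ^ (C1 + 1)) H (fun j => P j.castSucc) := by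
    refine ⟨fun j => hP.1 _, fun j i hi => (hP.2 j.castSucc i hi).trans ?_⟩
    refine Nat.mul_le_mul_right _ ?_
    calc R = R ^ 1 := (pow_one R).symm
      _ ≤ R ^ (C1 + 1) := Nat.pow_le_pow_right hR1 (by omega)
  have hbd : Bd (fun x => f0 x * chi η x) := by
    intro x
    rw [norm_mul]
    have : ‖chi η x‖ = 1 := by
      rw [chi]
      exact AddChar.norm_apply _ _
    rw [this, mul_one]
    exact hf0 x
  obtain ⟨q, hq1, hq2, hq3⟩ := hC2 M H (R ^ (C1 + 1)) h3 h2 (fun j => P j.castSucc) hfam Θ' h4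
    (fun x => f0 x * chi η x) hbd (fun j => f j.castSucc) (fun j => hf _) (by
      refine le_trans ?_ hη
      have hR0 : (1 : ℝ) ≤ R := by exact_mod_cast hR1
      rw [Nat.cast_pow]
      exact one_div_le_one_div_of_le (by positivity) (pow_le_pow_right₀ hR0 (by omega)))
  have hR0 : (1 : ℝ) ≤ R := by exact_mod_cast hR1
  refine ⟨q, hq1, hq2.trans ?_, ?_⟩
  · rw [← pow_mul]
    exact Nat.pow_le_pow_right hR1 e2
  · rw [← h5]
    refine hq3.trans ?_
    rw [Nat.cast_pow, ← pow_mul]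
    exact div_le_div_of_nonneg_right (pow_le_pow_right₀ hR0 e2) (by positivity)

end Pool.Agent.NLG
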