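import Pool.Agent.Lib.NLG.BXA

/-!
# Module DensG: equidistribution of sums of many directions, in mean square

PROOF. Fix `h : Fin l → τ`. Let `ρ (d)` be the proportion of the `p, p' : Fin l → [0, A)` with
`∑_a ε a • (c (h a) (p' a - p a)) = d`, so `∑ d, ρ d = 1`. `∑ d, ρ d chi ξ d = ∏_a ‖tv A (fun i => chi ξ (c (h a) i))‖ ^ 2`
(independence; the sign of `ε a` is irrelevant), hence by Parseval `M ∑ d, ρ d ^ 2 = ∑ ξ ∏_a ‖tv A ..‖ ^ 4 ≤ ∑ ξ ∏_a ‖tv A ..‖ ^ 2`
(`‖tv A ..‖ ≤ 1`). The average over `h` of the right side is `∑ ξ kap Ω A c ξ ^ l` (product of `l` independent averages).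
Now for fixed `h`: `∑ d, ρ d Φ h d ≤ ∑_(M ρ d ≤ T) .. + ∑_(M ρ d > T) ρ d ≤ T avr (Φ h) + (M / T) ∑ d, ρ d ^ 2`. Average over `h`.
(The index set `piFinset (Ω × [0, A)^2)` is the product of `piFinset Ω` and the pairs `(p, p')`.)
-/

set_option autoImplicit false

open Finset

namespace Pool.Agent.NLG

open Pool.Agent.HLT Pool.Agent.NLT

namespace DensGAux

/-- An average over a product of two index families. -/
lemma evr_piProd {l : ℕ} {α β : Type} (S : Finset α) (P : Finset β) (G : (Fin l → α × β) → ℝ) :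
    evr (Fintype.piFinset (fun _ : Fin l => S ×ˢ P)) G =
      evr (Fintype.piFinset (fun _ : Fin l => S)) (fun h =>
        evr (Fintype.piFinset (fun _ : Fin l => P)) (fun p => G (fun a => (h a, p a)))) := by
  classical
  rw [← evr_prod (Fintype.piFinset (fun _ : Fin l => S)) (Fintype.piFinset (fun _ : Fin l => P))
    (fun hp => G (fun a => (hp.1 a, hp.2 a)))]
  unfold evr
  have hc : (Fintype.piFinset (fun _ : Fin l => S ×ˢ P)).card =
      (Fintype.piFinset (fun _ : Fin l => S) ×ˢ Fintype.piFinset (fun _ : Fin l => P)).card := by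
    rw [Finset.card_product, Fintype.card_piFinset, Fintype.card_piFinset, Fintype.card_piFinset]
    simp [mul_pow]
  have hs : ∑ q ∈ Fintype.piFinset (fun _ : Fin l => S ×ˢ P), G q =
      ∑ hp ∈ Fintype.piFinset (fun _ : Fin l => S) ×ˢ Fintype.piFinset (fun _ : Fin l => P),
        G (fun a => (hp.1 a, hp.2 a)) := by
    refine Finset.sum_nbij' (fun q => ((fun a => (q a).1), (fun a => (q a).2)))
      (fun hp => fun a => (hp.1 a, hp.2 a)) ?_ ?_ ?_ ?_ ?_
    · intro q hq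
      rw [Fintype.mem_piFinset] at hq
      rw [Finset.mem_product, Fintype.mem_piFinset, Fintype.mem_piFinset]
      exact ⟨fun a => (Finset.mem_product.mp (hq a)).1, fun a => (Finset.mem_product.mp (hq a)).2⟩
    · intro hp hh
      rw [Finset.mem_product, Fintype.mem_piFinset, Fintype.mem_piFinset] at hh
      rw [Fintype.mem_piFinset]
      exact fun a => Finset.mem_product.mpr ⟨hh.1 a, hh.2 a⟩
    · intro q _
      rfl
    · intro hp _
      rfl
    · intro q _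
      rfl
  rw [hc, hs]

/-- Independence. -/
lemma ev_prod_univ {l : ℕ} {β : Type} (P : Finset β) (f : Fin l → β → ℂ) :
    ev (Fintype.piFinset (fun _ : Fin l => P)) (fun p => ∏ a, f a (p a)) = ∏ a, ev P (f a) := by
  classical
  unfold ev
  rw [Finset.prod_div_distrib, Finset.prod_univ_sum, Fintype.card_piFinset]
  simp

lemma evr_prod_univ {l : ℕ} {β : Type} (P : Finset β) (f : Fin l → β → ℝ) :
    evr (Fintype.piFinset (fun _ : Fin l => P)) (fun p => ∏ a, f a (p a)) = ∏ a, evr P (f a) := by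
  classical
  unfold evr
  rw [Finset.prod_div_distrib, Finset.prod_univ_sum, Fintype.card_piFinset]
  simp

variable {M : ℕ} [NeZero M]

lemma chi_sum_right {ι : Type} (s : Finset ι) (ξ : ZMod M) (x : ι → ZMod M) :
    chi ξ (∑ i ∈ s, x i) = ∏ i ∈ s, chi ξ (x i) := by
  classical
  induction s using Finset.induction_on with
  | empty => simp [chi_zero_right]
  | insert a s ha ih => rw [Finset.sum_insert ha, Finset.prod_insert ha, chi_add_right, ih]

lemma ev_pair (A : ℕ) (v ξ : ZMod M) :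
    ev (range A ×ˢ range A) (fun p => chi ξ (v * ((p.2 : ZMod M) - (p.1 : ZMod M)))) =
      ((‖tv A (fun i => chi ξ (v * (i : ZMod M)))‖ ^ 2 : ℝ) : ℂ) := by
  rw [tv_eq_ev, norm_ev_sq, ev_prod, ev_comm]
  refine ev_congr fun j _ => ev_congr fun i _ => ?_
  rw [mul_sub, chi_sub_right]

lemma ev_pair_sign (A : ℕ) (v ξ : ZMod M) (e : ℤ) (he : e = 1 ∨ e = -1) :
    ev (range A ×ˢ range A) (fun p => chi ξ (e • (v * ((p.2 : ZMod M) - (p.1 : ZMod M))))) =
      ((‖tv A (fun i => chi ξ (v * (i : ZMod M)))‖ ^ 2 : ℝ) : ℂ) := by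
  rcases he with rfl | rfl
  · simp only [one_smul]
    exact ev_pair A v ξ
  · simp only [neg_smul, one_smul, chi_neg_right]
    rw [ev_conj, ev_pair, Complex.conj_ofReal]

lemma norm_tv_le_one (A : ℕ) (F : ℕ → ℂ) (hF : ∀ i, ‖F i‖ ≤ 1) : ‖tv A F‖ ≤ 1 := by
  rw [tv_eq_ev]
  exact norm_ev_le_one _ (fun i _ => hF i)

/-- The proportion of the `p ∈ P` with `D p = d`. -/
noncomputable def rho {β : Type} (P : Finset β) (D : β → ZMod M) (d : ZMod M) : ℝ := by
  classical exact ((P.filter (fun p => D p = d)).card : ℝ) / (P.card : ℝ)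

lemma rho_nonneg {β : Type} (P : Finset β) (D : β → ZMod M) (d : ZMod M) : 0 ≤ rho P D d := by
  unfold rho
  positivity

lemma sum_rho {β : Type} (P : Finset β) (D : β → ZMod M) (F : ZMod M → ℝ) :
    ∑ d, rho P D d * F d = evr P (fun p => F (D p)) := by
  classical
  unfold rho evr
  rw [← Finset.sum_fiberwise_of_maps_to (g := D) (t := univ) (fun _ _ => Finset.mem_univ _), Finset.sum_div]
  refine Finset.sum_congr rfl (fun d _ => ?_)
  have h : ∑ p ∈ P.filter (fun p => D p = d), F (D p) = ∑ p ∈ P.filter (fun p => D p = d), F d :=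
    Finset.sum_congr rfl (fun p hp => by rw [(Finset.mem_filter.mp hp).2])
  rw [h, Finset.sum_const, nsmul_eq_mul]
  ring

lemma sum_rhoC {β : Type} (P : Finset β) (D : β → ZMod M) (F : ZMod M → ℂ) :
    ∑ d, (rho P D d : ℂ) * F d = ev P (fun p => F (D p)) := by
  classical
  unfold rho ev
  rw [← Finset.sum_fiberwise_of_maps_to (g := D) (t := univ) (fun _ _ => Finset.mem_univ _), Finset.sum_div]
  refine Finset.sum_congr rfl (fun d _ => ?_)
  have h : ∑ p ∈ P.filter (fun p => D p = d), F (D p) = ∑ p ∈ P.filter (fun p => D p = d), F d :=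
    Finset.sum_congr rfl (fun p hp => by rw [(Finset.mem_filter.mp hp).2])
  rw [h, Finset.sum_const, nsmul_eq_mul]
  push_cast
  ring

/-- Parseval for the law of `D p`. -/
lemma rho_sq {β : Type} (P : Finset β) (D : β → ZMod M) :
    (M : ℝ) * ∑ d, rho P D d ^ 2 = ∑ ξ, ‖ev P (fun p => chi ξ (D p))‖ ^ 2 := by
  have hM : (M : ℝ) ≠ 0 := Nat.cast_ne_zero.mpr (NeZero.ne M)
  have h1 : ∀ d, ‖(rho P D d : ℂ)‖ ^ 2 = rho P D d ^ 2 := by
    intro d
    rw [Complex.norm_real, Real.norm_eq_abs, sq_abs]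
  have h2 : ∀ ξ, (∑ d, (rho P D d : ℂ) * chi d ξ) = ev P (fun p => chi ξ (D p)) := by
    intro ξ
    rw [← sum_rhoC P D (fun d => chi ξ d)]
    exact Finset.sum_congr rfl (fun d _ => by rw [chi_comm])
  have h3 : avr (fun ξ => ‖ev P (fun p => chi ξ (D p))‖ ^ 2) = ∑ d, rho P D d ^ 2 := by
    have h4 : avr (fun ξ => ‖ev P (fun p => chi ξ (D p))‖ ^ 2) =
        avr (fun ξ => ‖∑ d, (rho P D d : ℂ) * chi d ξ‖ ^ 2) := by
      unfold avr
      congr 1
      exact Finset.sum_congr rfl (fun ξ _ => by simp only [h2 ξ])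
    rw [h4, parseval_series (fun d => (rho P D d : ℂ))]
    exact Finset.sum_congr rfl (fun d _ => h1 d)
  rw [← h3]
  unfold avr
  exact mul_div_cancel₀ _ hM

/-- The pointwise inequality. -/
lemma pw {r f T m : ℝ} (hr : 0 ≤ r) (hf : 0 ≤ f) (hf1 : f ≤ 1) (hT : 0 < T) (hm : 0 < m) :
    r * f ≤ T / m * f + m / T * r ^ 2 := by
  have h2 : 0 ≤ m / T * r ^ 2 := by positivity
  have h3 : 0 ≤ T / m * f := by positivity
  rcases le_total (m * r) T with h | h
  · have h1 : r ≤ T / m := by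
      rw [le_div_iff₀ hm]
      linarith
    have := mul_le_mul_of_nonneg_right h1 hf
    linarith
  · have h1 : r * f ≤ r := mul_le_of_le_one_right hr hf1
    have h4 : r ≤ m / T * r ^ 2 := by
      have h5 : 1 ≤ m * r / T := by
        rw [le_div_iff₀ hT]
        linarith
      calc r = r * 1 := (mul_one r).symm
        _ ≤ r * (m * r / T) := mul_le_mul_of_nonneg_left h5 hr
        _ = m / T * r ^ 2 := by ring
    linarith

/-- The estimate for one family of directions. -/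
lemma one (A l : ℕ) (v : Fin l → ZMod M) (ε : Fin l → ℤ) (hε : ∀ a, ε a = 1 ∨ ε a = -1) (Φ : ZMod M → ℝ)
    (hΦ0 : ∀ d, 0 ≤ Φ d) (hΦ1 : ∀ d, Φ d ≤ 1) (T : ℝ) (hT : 0 < T) :
    evr (Fintype.piFinset (fun _ : Fin l => range A ×ˢ range A)) (fun p =>
        Φ (∑ a, ε a • (v a * (((p a).2 : ZMod M) - ((p a).1 : ZMod M))))) ≤
      T * avr Φ + 1 / T * ∑ ξ, ∏ a, ‖tv A (fun i => chi ξ (v a * (i : ZMod M)))‖ ^ 2 := by
  have hM : (0 : ℝ) < M := by exact_mod_cast Nat.pos_of_ne_zero (NeZero.ne M)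
  set P := Fintype.piFinset (fun _ : Fin l => range A ×ˢ range A) with hP
  set D : (Fin l → ℕ × ℕ) → ZMod M := fun p => ∑ a, ε a • (v a * (((p a).2 : ZMod M) - ((p a).1 : ZMod M))) with hD
  have hft : ∀ ξ, ‖ev P (fun p => chi ξ (D p))‖ ^ 2 ≤ ∏ a, ‖tv A (fun i => chi ξ (v a * (i : ZMod M)))‖ ^ 2 := by
    intro ξ
    have h1 : ev P (fun p => chi ξ (D p)) = ((∏ a, ‖tv A (fun i => chi ξ (v a * (i : ZMod M)))‖ ^ 2 : ℝ) : ℂ) := by
      have h2 : ev P (fun p => chi ξ (D p)) =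
          ev P (fun p => ∏ a, chi ξ (ε a • (v a * (((p a).2 : ZMod M) - ((p a).1 : ZMod M))))) :=
        ev_congr fun p _ => chi_sum_right _ _ _
      rw [h2, hP, ev_prod_univ (range A ×ˢ range A)
        (fun a p => chi ξ (ε a • (v a * ((p.2 : ZMod M) - (p.1 : ZMod M)))))]
      rw [Complex.ofReal_prod]
      exact Finset.prod_congr rfl (fun a _ => ev_pair_sign A (v a) ξ (ε a) (hε a))
    have h0 : 0 ≤ ∏ a, ‖tv A (fun i => chi ξ (v a * (i : ZMod M)))‖ ^ 2 :=
      Finset.prod_nonneg (fun a _ => by positivity)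
    have h3 : ∏ a, ‖tv A (fun i => chi ξ (v a * (i : ZMod M)))‖ ^ 2 ≤ 1 :=
      Finset.prod_le_one (fun a _ => by positivity)
        (fun a _ => pow_le_one₀ (norm_nonneg _) (norm_tv_le_one A _ (fun i => (norm_chi _ _).le)))
    rw [h1, Complex.norm_real, Real.norm_eq_abs, abs_of_nonneg h0, sq]
    exact mul_le_of_le_one_right h0 h3
  have h1 : evr P (fun p => Φ (D p)) ≤ ∑ d, (T / M * Φ d + M / T * rho P D d ^ 2) := by
    rw [← sum_rho P D Φ]
    exact Finset.sum_le_sum (fun d _ => pw (rho_nonneg P D d) (hΦ0 d) (hΦ1 d) hT hM)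
  refine h1.trans ?_
  rw [Finset.sum_add_distrib, ← Finset.mul_sum, ← Finset.mul_sum]
  have h2 : T / M * ∑ d, Φ d = T * avr Φ := by
    unfold avr
    ring
  have h3 : M / T * ∑ d, rho P D d ^ 2 = 1 / T * (M * ∑ d, rho P D d ^ 2) := by ring
  rw [h2, h3, rho_sq]
  have h4 : 0 ≤ 1 / T := by positivity
  have h5 := mul_le_mul_of_nonneg_left (Finset.sum_le_sum (fun ξ (_ : ξ ∈ (univ : Finset (ZMod M))) => hft ξ)) h4
  linarith

end DensGAux

open DensGAux in
theorem dens {M : ℕ} [NeZero M] {τ : Type} (Ω : Finset τ) (hΩ : Ω.Nonempty) (c : τ → ZMod M) (A l : ℕ) (hA : 1 ≤ A)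
    (ε : Fin l → ℤ) (hε : ∀ a, ε a = 1 ∨ ε a = -1) (Φ : (Fin l → τ) → ZMod M → ℝ)
    (hΦ0 : ∀ h d, 0 ≤ Φ h d) (hΦ1 : ∀ h d, Φ h d ≤ 1) (T : ℝ) (hT : 0 < T) :
    evr (Fintype.piFinset (fun _ : Fin l => Ω ×ˢ (range A ×ˢ range A))) (fun q =>
        Φ (fun a => (q a).1)
          (∑ a, ε a • (c (q a).1 * (((q a).2.2 : ZMod M) - ((q a).2.1 : ZMod M))))) ≤
      T * evr (Fintype.piFinset (fun _ : Fin l => Ω)) (fun h => avr (fun d => Φ h d)) +
        1 / T * ∑ ξ, kap Ω A c ξ ^ l := by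
  have h1 : evr (Fintype.piFinset (fun _ : Fin l => Ω ×ˢ (range A ×ˢ range A))) (fun q =>
        Φ (fun a => (q a).1)
          (∑ a, ε a • (c (q a).1 * (((q a).2.2 : ZMod M) - ((q a).2.1 : ZMod M))))) =
      evr (Fintype.piFinset (fun _ : Fin l => Ω)) (fun h =>
        evr (Fintype.piFinset (fun _ : Fin l => range A ×ˢ range A)) (fun p =>
          Φ h (∑ a, ε a • (c (h a) * (((p a).2 : ZMod M) - ((p a).1 : ZMod M)))))) :=
    evr_piProd Ω (range A ×ˢ range A) _
  rw [h1]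
  refine (evr_mono _ (fun h _ => one A l (fun a => c (h a)) ε hε (Φ h) (hΦ0 h) (hΦ1 h) T hT)).trans ?_
  rw [evr_add, evr_mul_left, evr_mul_left]
  have h2 : evr (Fintype.piFinset (fun _ : Fin l => Ω)) (fun h =>
      ∑ ξ, ∏ a, ‖tv A (fun i => chi ξ (c (h a) * (i : ZMod M)))‖ ^ 2) = ∑ ξ, kap Ω A c ξ ^ l := by
    have h3 : evr (Fintype.piFinset (fun _ : Fin l => Ω)) (fun h =>
        ∑ ξ, ∏ a, ‖tv A (fun i => chi ξ (c (h a) * (i : ZMod M)))‖ ^ 2) =
        ∑ ξ, evr (Fintype.piFinset (fun _ : Fin l => Ω)) (fun h =>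
          ∏ a, ‖tv A (fun i => chi ξ (c (h a) * (i : ZMod M)))‖ ^ 2) := by
      unfold evr
      rw [Finset.sum_comm, Finset.sum_div]
    rw [h3]
    refine Finset.sum_congr rfl (fun ξ _ => ?_)
    rw [evr_prod_univ Ω (fun _ h => ‖tv A (fun i => chi ξ (c h * (i : ZMod M)))‖ ^ 2)]
    unfold kap
    rw [Finset.prod_const, Finset.card_univ, Fintype.card_fin]
  rw [h2]

end Pool.Agent.NLG
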