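import Pool.Agent.Lib.NLG.BXB

/-!
# Module Dual: a box average is a correlation with a structured function

PROOF of `Str_dual` (`n` directions `v i`; `g i k : ZMod M → ℂ`, `k : Fin n → ℤ`, bounded by one and independent of `k i`;
`W x = ev_(p, p' ∈ [0, A)^n) ∏_i g i (p' - p) (x + v_i (p'_i - p_i))`). Let `m i < A'`. In `W (x + v·m)` the average over `p'_i` may be
shifted: `E_(p'_i) φ (p'_i) = E_(p'_i) φ (p'_i - m_i) + O (2 m_i / A)` (all values bounded by one; one coordinate at a time,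
`norm_tv_shift`; replace `p'_i` by `p'_i - m_i`, an integer). After all shifts, with `k = p' - p` and `k - m` in place of `k`:
`W (x + v·m) = ev_(p, p') ∏_i g i (k - m) (x + ∑_(l ≠ i) v_l m_l + v_i k_i) + O (2 n A' / A)`; the factor `i` does not depend on `m i`.
This is `Str` with `N = (Fin n → ℕ) × (Fin n → ℕ)`, `T` = all pairs with values `< A`.
PROOF of `BB_dual`. `Δ_(y_1) .. Δ_(y_n) G (x) = G (x) ∏_i conj ((Δ_(y_(i+1)) .. Δ_(y_n) G) (x + y_i))` (induction: `Δ_(y_1) K (x) =
K (x) conj K (x + y_1)` with `K = Δ_(y_2) .. Δ_(y_n) G`). Average over `y_i = v_i (p'_i - p_i)`: `BB (L.map (fe A)) G = av (G W)` with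
`W` as in `Str_dual`, `g i k z = conj ((Δ_(v_(i+1) k_(i+1)) .. Δ_(v_n k_n) G) z)`, which depends only on the `k j`, `j > i`.
-/

set_option autoImplicit false

open Finset

namespace Pool.Agent.NLG

open Pool.Agent.HLT Pool.Agent.NLT

variable {M : ℕ} [NeZero M]

namespace DualAux

theorem ev_cons {Y : Type} (S : Finset Y) (n : ℕ) (Φ : (Fin (n + 1) → Y) → ℂ) :
    ev (Fintype.piFinset (fun _ : Fin (n + 1) => S)) Φ =
      ev S (fun a => ev (Fintype.piFinset (fun _ : Fin n => S))
        (fun m => Φ (Fin.cons a m : Fin (n + 1) → Y))) := by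
  rw [← ev_prod S (Fintype.piFinset fun _ : Fin n => S)
    (fun p => Φ (Fin.cons p.1 p.2 : Fin (n + 1) → Y))]
  unfold ev
  congr 1
  · refine Finset.sum_nbij' (fun f => (f 0, Fin.tail f)) (fun p => Fin.cons p.1 p.2)
      ?_ ?_ ?_ ?_ ?_
    · intro f hf
      rw [Fintype.mem_piFinset] at hf
      rw [Finset.mem_product, Fintype.mem_piFinset]
      exact ⟨hf 0, fun i => hf i.succ⟩
    · intro p hp
      rw [Finset.mem_product, Fintype.mem_piFinset] at hp
      rw [Fintype.mem_piFinset]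
      intro i
      refine Fin.cases ?_ (fun i => ?_) i
      · exact hp.1
      · exact hp.2 i
    · intro f _
      exact Fin.cons_self_tail f
    · intro p _
      exact Prod.ext rfl (Fin.tail_cons (α := fun _ => Y) p.1 p.2)
    · intro f _
      exact congrArg Φ (Fin.cons_self_tail f).symm
  · rw [Finset.card_product, Fintype.card_piFinset_const, Fintype.card_piFinset_const, pow_succ,
      mul_comm]

/-- Shifting all variables of an average over a box. -/
theorem norm_ev_box_shift (A n : ℕ) (F : (Fin n → ℤ) → ℂ) (hF : ∀ q, ‖F q‖ ≤ 1) (m : Fin n → ℕ) :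
    ‖ev (Fintype.piFinset (fun _ : Fin n => range A)) (fun q => F (fun i => (q i : ℤ))) -
      ev (Fintype.piFinset (fun _ : Fin n => range A)) (fun q => F (fun i => (q i : ℤ) - m i))‖ ≤
      ∑ i, 2 * (m i : ℝ) / A := by
  induction n with
  | zero =>
    have h : (fun q : Fin 0 → ℕ => F (fun i => (q i : ℤ))) =
        fun q : Fin 0 → ℕ => F (fun i => (q i : ℤ) - m i) := by
      funext q
      congr 1
      funext i
      exact i.elim0
    rw [h, sub_self, norm_zero]
    exact Finset.sum_nonneg fun i _ => i.elim0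
  | succ n ih =>
    rw [ev_cons, ev_cons]
    have e1 : ∀ (a : ℕ) (q : Fin n → ℕ), (fun i : Fin (n + 1) =>
        (((Fin.cons a q : Fin (n + 1) → ℕ) i : ℕ) : ℤ)) =
        (Fin.cons (a : ℤ) (fun i => (q i : ℤ)) : Fin (n + 1) → ℤ) := by
      intro a q
      funext i
      refine Fin.cases ?_ (fun i => ?_) i
      · rfl
      · rfl
    have e2 : ∀ (a : ℕ) (q : Fin n → ℕ), (fun i : Fin (n + 1) =>
        (((Fin.cons a q : Fin (n + 1) → ℕ) i : ℕ) : ℤ) - m i) =
        (Fin.cons ((a : ℤ) - m 0) (fun i => (q i : ℤ) - m i.succ) : Fin (n + 1) → ℤ) := by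
      intro a q
      funext i
      refine Fin.cases ?_ (fun i => ?_) i
      · rfl
      · rfl
    simp only [e1, e2]
    rw [Fin.sum_univ_succ]
    set Ψ : ℤ → ℂ := fun a => ev (Fintype.piFinset (fun _ : Fin n => range A))
      (fun q => F (Fin.cons a (fun i => (q i : ℤ)) : Fin (n + 1) → ℤ)) with hΨ
    have hΨ1 : ∀ a, ‖Ψ a‖ ≤ 1 := fun a => norm_ev_le_one _ fun q _ => hF _
    have h1 : ‖ev (range A) (fun a => Ψ (a : ℤ)) - ev (range A) (fun a => Ψ ((a : ℤ) - m 0))‖ ≤
        2 * (m 0 : ℝ) / A := by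
      have h2 := norm_tv_shift A (m 0) (fun t => Ψ ((t : ℤ) - m 0)) (fun t => hΨ1 _)
      rw [tv_eq_ev, tv_eq_ev] at h2
      have h3 : (fun t : ℕ => Ψ (((t + m 0 : ℕ) : ℤ) - m 0)) = fun t : ℕ => Ψ (t : ℤ) := by
        funext t
        congr 1
        push_cast
        ring
      rw [h3] at h2
      exact h2
    have h4 : ‖ev (range A) (fun a => Ψ ((a : ℤ) - m 0)) -
        ev (range A) (fun a => ev (Fintype.piFinset (fun _ : Fin n => range A))
          (fun q => F (Fin.cons ((a : ℤ) - m 0) (fun i => (q i : ℤ) - m i.succ) :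
            Fin (n + 1) → ℤ)))‖ ≤ ∑ i : Fin n, 2 * (m i.succ : ℝ) / A := by
      rw [← ev_sub]
      refine (norm_ev_le _ _).trans (evr_le _ ?_ fun a _ => ?_)
      · exact Finset.sum_nonneg fun i _ => by positivity
      · exact ih (fun q => F (Fin.cons ((a : ℤ) - m 0) q : Fin (n + 1) → ℤ)) (fun q => hF _)
          (fun i => m i.succ)
    calc _ ≤ ‖ev (range A) (fun a => Ψ (a : ℤ)) - ev (range A) (fun a => Ψ ((a : ℤ) - m 0))‖ +
          ‖ev (range A) (fun a => Ψ ((a : ℤ) - m 0)) -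
        ev (range A) (fun a => ev (Fintype.piFinset (fun _ : Fin n => range A))
          (fun q => F (Fin.cons ((a : ℤ) - m 0) (fun i => (q i : ℤ) - m i.succ) :
            Fin (n + 1) → ℤ)))‖ := norm_sub_le_norm_sub_add_norm_sub _ _ _
      _ ≤ _ := add_le_add h1 h4

/-- The functions of the dual of a box average. -/
noncomputable def gg : (n : ℕ) → (Fin n → ZMod M) → (ZMod M → ℂ) → Fin n → (Fin n → ℤ) →
    ZMod M → ℂ
  | 0, _, _ => fun i => i.elim0
  | n + 1, v, F => fun i => Fin.cases (motive := fun _ => (Fin (n + 1) → ℤ) → ZMod M → ℂ)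
      (fun _ z => (starRingEnd ℂ) (F z))
      (fun i' k z => gg n (Fin.tail v) (Dl (v 0 * ((k 0 : ℤ) : ZMod M)) F) i' (Fin.tail k) z) i

omit [NeZero M] in
theorem gg_zero (n : ℕ) (v : Fin (n + 1) → ZMod M) (F : ZMod M → ℂ) (k : Fin (n + 1) → ℤ)
    (z : ZMod M) : gg (n + 1) v F 0 k z = (starRingEnd ℂ) (F z) := rfl

omit [NeZero M] in
theorem gg_succ (n : ℕ) (v : Fin (n + 1) → ZMod M) (F : ZMod M → ℂ) (i : Fin n)
    (k : Fin (n + 1) → ℤ) (z : ZMod M) : gg (n + 1) v F i.succ k z =
      gg n (Fin.tail v) (Dl (v 0 * ((k 0 : ℤ) : ZMod M)) F) i (Fin.tail k) z := rfl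

theorem gg_bd (n : ℕ) (v : Fin n → ZMod M) (F : ZMod M → ℂ) (hF : Bd F) (i : Fin n)
    (k : Fin n → ℤ) : Bd (gg n v F i k) := by
  induction n generalizing F with
  | zero => exact i.elim0
  | succ n ih =>
    intro z
    refine Fin.cases ?_ (fun i => ?_) i
    · rw [gg_zero, RCLike.norm_conj]
      exact hF z
    · rw [gg_succ]
      exact ih _ _ (Dl_Bd _ hF) i _ z

theorem gg_indep (n : ℕ) (v : Fin n → ZMod M) (F : ZMod M → ℂ) (i : Fin n)
    (k k' : Fin n → ℤ) (h : ∀ j, j ≠ i → k j = k' j) : gg n v F i k = gg n v F i k' := by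
  induction n generalizing F with
  | zero => exact i.elim0
  | succ n ih =>
    funext z
    revert h
    refine Fin.cases ?_ (fun i => ?_) i
    · intro _
      rw [gg_zero, gg_zero]
    · intro h
      rw [gg_succ, gg_succ, h 0 (Fin.succ_ne_zero i).symm]
      rw [ih (Fin.tail v) (Dl (v 0 * ((k' 0 : ℤ) : ZMod M)) F) i (Fin.tail k) (Fin.tail k') ?_]
      intro j hj
      exact h j.succ (fun h' => hj (Fin.succ_injective _ h'))

/-- The dual function. -/
noncomputable def WW (A n : ℕ) (v : Fin n → ZMod M) (F : ZMod M → ℂ) : ZMod M → ℂ := fun x =>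
  ev (Fintype.piFinset (fun _ : Fin n => range A) ×ˢ Fintype.piFinset (fun _ : Fin n => range A))
    (fun p => ∏ i, gg n v F i (fun j => (p.2 j : ℤ) - p.1 j)
      (x + v i * ((((p.2 i : ℤ) - p.1 i : ℤ)) : ZMod M)))

theorem WW_succ (A n : ℕ) (v : Fin (n + 1) → ZMod M) (F : ZMod M → ℂ) (x : ZMod M) :
    WW A (n + 1) v F x = tv A (fun i => tv A (fun j =>
      (starRingEnd ℂ) (F (x + v 0 * ((j : ZMod M) - (i : ZMod M)))) *
        WW A n (Fin.tail v) (Dl (v 0 * ((j : ZMod M) - (i : ZMod M))) F) x)) := by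
  unfold WW
  rw [ev_prod, ev_cons, tv_eq_ev]
  refine ev_congr fun a _ => ?_
  simp only [ev_cons]
  rw [ev_comm, tv_eq_ev]
  refine ev_congr fun b _ => ?_
  rw [ev_prod, ← ev_mul_left]
  refine ev_congr fun p _ => ?_
  rw [← ev_mul_left]
  refine ev_congr fun q _ => ?_
  rw [Fin.prod_univ_succ, gg_zero]
  have e0 : ((((((Fin.cons b q : Fin (n + 1) → ℕ) 0 : ℕ) : ℤ) -
      (((Fin.cons a p : Fin (n + 1) → ℕ) 0 : ℕ) : ℤ) : ℤ)) : ZMod M) =
      (b : ZMod M) - (a : ZMod M) := by
    rw [Fin.cons_zero, Fin.cons_zero]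
    push_cast
    rfl
  rw [e0]
  congr 1
  refine Finset.prod_congr rfl fun i _ => ?_
  rw [gg_succ]
  simp only [e0, Fin.cons_succ]
  rfl

theorem WW_bd (A n : ℕ) (v : Fin n → ZMod M) (F : ZMod M → ℂ) (hF : Bd F) : Bd (WW A n v F) := by
  intro x
  refine norm_ev_le_one _ fun p _ => ?_
  rw [norm_prod]
  exact Finset.prod_le_one (fun i _ => norm_nonneg _) (fun i _ => gg_bd n v F hF i _ _)

theorem BB_WW (A n : ℕ) (v : Fin n → ZMod M) (F : ZMod M → ℂ) :
    BB ((List.ofFn v).map (fe A)) F = av (fun x => F x * WW A n v F x) := by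
  induction n generalizing F with
  | zero =>
    rw [List.ofFn_zero, List.map_nil]
    change av F = _
    congr 1
    funext x
    unfold WW
    simp only [Finset.univ_eq_empty, Finset.prod_empty]
    rw [ev_const, mul_one]
    rw [Finset.nonempty_product]
    exact ⟨⟨fun i => i.elim0, by rw [Fintype.mem_piFinset]; intro i; exact i.elim0⟩,
      ⟨fun i => i.elim0, by rw [Fintype.mem_piFinset]; intro i; exact i.elim0⟩⟩
  | succ n ih =>
    rw [List.ofFn_succ, List.map_cons, BB_fe]
    simp only [ih]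
    have h1 : ∀ x, F x * WW A (n + 1) v F x = ev (range A) (fun i => ev (range A) (fun j =>
        F x * ((starRingEnd ℂ) (F (x + v 0 * ((j : ZMod M) - (i : ZMod M)))) *
        WW A n (Fin.tail v) (Dl (v 0 * ((j : ZMod M) - (i : ZMod M))) F) x))) := by
      intro x
      rw [WW_succ, tv_eq_ev, ← ev_mul_left]
      refine ev_congr fun i _ => ?_
      rw [tv_eq_ev, ← ev_mul_left]
    simp only [h1]
    rw [← ev_av_comm, tv_eq_ev]
    refine ev_congr fun i _ => ?_
    rw [← ev_av_comm, tv_eq_ev]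
    refine ev_congr fun j _ => ?_
    congr 1
    funext x
    rw [← mul_assoc]
    rfl

end DualAux

theorem Str_dual (A : ℕ) (hA : 1 ≤ A) (n : ℕ) (v : Fin n → ZMod M) (g : Fin n → (Fin n → ℤ) → ZMod M → ℂ)
    (hg : ∀ i k, Bd (g i k)) (hi : ∀ i (k k' : Fin n → ℤ), (∀ j, j ≠ i → k j = k' j) → g i k = g i k') (A' : ℕ) :
    Str A' (2 * n * A' / A : ℝ) v (fun x =>
      ev (Fintype.piFinset (fun _ : Fin n => range A) ×ˢ Fintype.piFinset (fun _ : Fin n => range A))
        (fun p => ∏ i, g i (fun j => (p.2 j : ℤ) - p.1 j) (x + v i * ((((p.2 i : ℤ) - p.1 i : ℤ)) : ZMod M)))) := by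
  have hR : (range A).Nonempty := Finset.nonempty_range_iff.2 (by omega)
  have hP : (Fintype.piFinset (fun _ : Fin n => range A)).Nonempty :=
    Fintype.piFinset_nonempty.2 fun _ => hR
  refine ⟨(Fin n → ℕ) × (Fin n → ℕ), Fintype.piFinset (fun _ : Fin n => range A) ×ˢ
    Fintype.piFinset (fun _ : Fin n => range A), fun p i x m =>
      g i (fun j => (p.2 j : ℤ) - m j - p.1 j)
        (x + ∑ l ∈ univ.erase i, v l * (m l : ZMod M) +
          v i * ((((p.2 i : ℤ) - p.1 i : ℤ)) : ZMod M)), hP.product hP, ?_, ?_, ?_⟩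
  · intro p i x m
    exact hg i _ _
  · intro p i x m m' h
    simp only
    rw [hi i _ (fun j => (p.2 j : ℤ) - m' j - p.1 j) (fun j hj => by rw [h j hj])]
    congr 3
    exact Finset.sum_congr rfl fun l hl => by rw [h l (Finset.ne_of_mem_erase hl)]
  · intro x m hm
    have hA0 : (0 : ℝ) < A := by exact_mod_cast hA
    have hsum : ∑ i, 2 * (m i : ℝ) / A ≤ 2 * n * A' / A := by
      calc ∑ i, 2 * (m i : ℝ) / A ≤ ∑ _i : Fin n, 2 * (A' : ℝ) / A := by
            refine Finset.sum_le_sum fun i _ => div_le_div_of_nonneg_right ?_ hA0.le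
            have : (m i : ℝ) ≤ A' := by exact_mod_cast (hm i).le
            linarith
        _ = 2 * n * A' / A := by
            rw [Finset.sum_const, Finset.card_univ, Fintype.card_fin, nsmul_eq_mul]
            ring
    refine le_trans ?_ hsum
    simp only
    rw [ev_prod, ev_prod, ← ev_sub]
    refine (norm_ev_le _ _).trans (evr_le _ (Finset.sum_nonneg fun i _ => by positivity)
      fun p _ => ?_)
    have key := DualAux.norm_ev_box_shift A n (fun q => ∏ i, g i (fun j => q j - (p j : ℤ))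
      (x + ∑ l, v l * (m l : ZMod M) + v i * (((q i - (p i : ℤ) : ℤ)) : ZMod M))) (by
        intro q
        rw [norm_prod]
        exact Finset.prod_le_one (fun i _ => norm_nonneg _) (fun i _ => hg i _ _)) m
    convert key using 3
    refine ev_congr fun q _ => Finset.prod_congr rfl fun i _ => ?_
    simp only
    congr 1
    rw [← Finset.add_sum_erase univ (fun l => v l * (m l : ZMod M)) (Finset.mem_univ i)]
    push_cast
    ring

theorem BB_dual (A : ℕ) (hA : 1 ≤ A) (L : List (ZMod M)) (G : ZMod M → ℂ) (hG : Bd G) :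
    ∃ W : ZMod M → ℂ, Bd W ∧ BB (L.map (fe A)) G = av (fun x => G x * W x) ∧
      ∀ A' : ℕ, StL A' (2 * L.length * A' / A : ℝ) L W := by
  refine ⟨DualAux.WW A L.length L.get G, DualAux.WW_bd A _ _ G hG, ?_, ?_⟩
  · rw [← DualAux.BB_WW, List.ofFn_get]
  · intro A'
    exact ⟨L.length, L.get, (List.ofFn_get L).symm, Str_dual A hA L.length L.get
      (DualAux.gg L.length L.get G) (fun i k => DualAux.gg_bd _ _ G hG i k)
      (fun i k k' h => DualAux.gg_indep _ _ G i k k' h) A'⟩

end Pool.Agent.NLG
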