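import Pool.Agent.Lib.NLG.BXB

/-!
# Module Groups: several independent groups of directions

Let `dirs h` (`h ∈ Ω`) be nonempty lists of positive definite measures such that, for `R ≤ R1 ≤ R ^ C`, an average over `h`
of `‖BB (dirs h) G‖` which is at least `1 / R1` implies `UU K G ≥ 1 / R1 ^ C'`. Then the same for `l` independent groups.

PROOF by induction on `l ≥ 1` (for all `G`; the constant `C` depends on `C'`, `l`). `l = 1`: the hypothesis (`(List.ofFn h).flatMap dirs =
dirs (h 0)`). `l + 1`: `h = (h0, h')`, list `dirs h0 ++ rest`, `rest = (List.ofFn h').flatMap dirs`; by `BB_perm` it may be replaced by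
`rest ++ dirs h0`. `BB_split` for `rest` and `G`: `BB (rest ++ L') G = ∑_j w_j BB L' (G_j)` for all `L'` (index set, weights depending on `h'`).
With `L' = dirs h0`: `1 / R ≤ E_h' ∑_j w_j (E_h0 ‖BB (dirs h0) G_j‖)`. By `evr_pos` and `wavg_pos` (the hypothesis with
`R1 = 4 R`): `E_h' ∑_j w_j UU K G_j ≥ 1 / (4 R) ^ (C' + 2)`. With
`L' = List.replicate K un`: this is `E_h' ‖BB (rest ++ replicate K un) G‖ = E_h' ‖BB (replicate K un ++ rest) G‖ =` (`BB_split` for
`replicate K un`: weights `w'_i`, functions `G'_i`, NOT depending on `h'`) `∑_i w'_i E_h' ‖BB rest G'_i‖`. By the induction hypothesis for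
`l` groups and `wavg_pos`: `∑_i w'_i UU (l K) G'_i ≥ R ^ (-C'')`, and this sum is `(BB (replicate K un ++ replicate (l K) un) G).re =
UU ((l + 1) K) G`.
-/

set_option autoImplicit false

open Finset

namespace Pool.Agent.NLG

open Pool.Agent.HLT Pool.Agent.NLT

namespace GroupsAux

lemma evr_pi_succ {τ : Type} (Ω : Finset τ) (l : ℕ) (F : (Fin (l + 1) → τ) → ℝ) :
    evr (Fintype.piFinset (fun _ : Fin (l + 1) => Ω)) F =
      evr (Fintype.piFinset (fun _ : Fin l => Ω)) (fun h' => evr Ω (fun h0 => F (Fin.cons h0 h'))) := by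
  classical
  unfold evr
  rw [← Finset.sum_div, div_div]
  have hcard : ((Fintype.piFinset (fun _ : Fin (l + 1) => Ω)).card : ℝ) =
      (Ω.card : ℝ) * ((Fintype.piFinset (fun _ : Fin l => Ω)).card : ℝ) := by
    rw [Fintype.card_piFinset, Fintype.card_piFinset]
    simp only [Finset.prod_const, Finset.card_univ, Fintype.card_fin]
    push_cast
    ring
  have hsum : ∑ h ∈ Fintype.piFinset (fun _ : Fin (l + 1) => Ω), F h =
      ∑ h' ∈ Fintype.piFinset (fun _ : Fin l => Ω), ∑ h0 ∈ Ω, F (Fin.cons h0 h') := by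
    rw [← Finset.sum_product']
    refine (Finset.sum_nbij' (fun p : (Fin l → τ) × τ => (Fin.cons p.2 p.1 : Fin (l + 1) → τ))
      (fun h : Fin (l + 1) → τ => (Fin.tail h, h 0)) ?_ ?_ ?_ ?_ ?_).symm
    · intro p hp
      rw [Finset.mem_product, Fintype.mem_piFinset] at hp
      rw [Fintype.mem_piFinset]
      intro i
      refine Fin.cases ?_ (fun j => ?_) i
      · simpa using hp.2
      · simpa using hp.1 j
    · intro h hh
      rw [Fintype.mem_piFinset] at hh
      rw [Finset.mem_product, Fintype.mem_piFinset]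
      exact ⟨fun j => hh j.succ, hh 0⟩
    · intro p _
      simp
    · intro h _
      simp
    · intro p _
      rfl
  rw [hcard, hsum]

end GroupsAux

open GroupsAux in
theorem groups (K C' : ℕ) (hK : 1 ≤ K) (l : ℕ) (hl : 1 ≤ l) : ∃ C : ℕ, ∀ (M : ℕ) [NeZero M] (τ : Type)
    (Ω : Finset τ) (_ : Ω.Nonempty) (dirs : τ → List (ZMod M → ℝ)) (_ : ∀ h, dirs h ≠ [])
    (_ : ∀ h, ∀ μ ∈ dirs h, PD μ) (R : ℕ) (_ : 2 ≤ R)
    (_ : ∀ R1 : ℕ, R ≤ R1 → R1 ≤ R ^ C → ∀ G : ZMod M → ℂ, Bd G →
      1 / (R1 : ℝ) ≤ evr Ω (fun h => ‖BB (dirs h) G‖) → 1 / (R1 : ℝ) ^ C' ≤ UU K G),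
    ∀ G : ZMod M → ℂ, Bd G →
      1 / (R : ℝ) ≤ evr (Fintype.piFinset (fun _ : Fin l => Ω)) (fun h => ‖BB ((List.ofFn h).flatMap dirs) G‖) →
      1 / (R : ℝ) ^ C ≤ UU (l * K) G := by
  induction l, hl using Nat.le_induction with
  | base =>
    refine ⟨C' + 1, ?_⟩
    intro M _ τ Ω hΩ dirs hne hPD R hR hyp G hG h
    have hR1 : (1 : ℝ) ≤ R := by exact_mod_cast (by omega : 1 ≤ R)
    rw [evr_pi_succ Ω 0] at h
    have h0 : 1 / (R : ℝ) ≤ evr Ω (fun h0 => ‖BB (dirs h0) G‖) := by
      refine h.trans (evr_le _ (evr_nonneg _ fun _ _ => norm_nonneg _) fun h' _ => le_of_eq ?_)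
      refine evr_congr fun h0 _ => ?_
      congr 2
      simp
    have h1 := hyp R le_rfl (Nat.le_self_pow (by omega) R) G hG h0
    rw [one_mul]
    refine le_trans ?_ h1
    exact one_div_le_one_div_of_le (by positivity) (pow_le_pow_right₀ hR1 (by omega))
  | succ l hl ih =>
    obtain ⟨C0, ih⟩ := ih
    refine ⟨(3 * C' + 7) * (C0 + 1), ?_⟩
    intro M _ τ Ω hΩ dirs hne hPD R hR hyp G hG h
    have hR2 : (2 : ℝ) ≤ R := by exact_mod_cast hR
    have hR1 : (1 : ℝ) ≤ R := by linarith
    have hR0 : (0 : ℝ) < R := by linarith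
    -- the rest of the directions
    have hrest : ∀ h' : Fin l → τ, ∀ μ ∈ (List.ofFn h').flatMap dirs, PD μ := by
      intro h' μ hμ
      obtain ⟨t, -, ht⟩ := List.mem_flatMap.mp hμ
      exact hPD t μ ht
    have hun : ∀ k : ℕ, ∀ μ ∈ List.replicate k (un : ZMod M → ℝ), PD μ := by
      intro k μ hμ
      rw [List.eq_of_mem_replicate hμ]
      exact PD_un
    -- sizes
    set Q : ℕ := 2 * (4 * R) ^ (C' + 2) with hQdef
    have h4R : 4 * R ≤ R ^ 3 := by
      have : 2 * 2 * R ≤ R * R * R := Nat.mul_le_mul_right _ (Nat.mul_le_mul hR hR)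
      calc 4 * R = 2 * 2 * R := by ring
        _ ≤ R * R * R := this
        _ = R ^ 3 := by ring
    have hQR : Q ≤ R ^ (3 * C' + 7) := by
      calc Q = 2 * (4 * R) ^ (C' + 2) := rfl
        _ ≤ R * (R ^ 3) ^ (C' + 2) := Nat.mul_le_mul hR (Nat.pow_le_pow_left h4R _)
        _ = R ^ (3 * C' + 7) := by ring
    have hRQ : R ≤ Q := by
      calc R ≤ 4 * R := by omega
        _ ≤ (4 * R) ^ (C' + 2) := Nat.le_self_pow (by omega) _
        _ ≤ Q := by omega
    have hQ2 : 2 ≤ Q := hR.trans hRQ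
    have hQreal : (Q : ℝ) = 2 * (4 * R) ^ (C' + 2) := by
      rw [hQdef]
      push_cast
      ring
    -- the splitting
    choose ι s w Gs hw0 hw1 hGb hsplit using fun h' : Fin l → τ => BB_split ((List.ofFn h').flatMap dirs) (hrest h') G hG
    obtain ⟨ι', s', w', G', hw0', hw1', hGb', hsplit'⟩ := BB_split (List.replicate K (un : ZMod M → ℝ)) (hun K) G hG
    -- first average
    have hA : 1 / (R : ℝ) ≤ evr (Fintype.piFinset (fun _ : Fin l => Ω)) (fun h' => ∑ j ∈ s h', w h' j *
        evr Ω (fun h0 => ‖BB (dirs h0) (Gs h' j)‖)) := by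
      rw [evr_pi_succ Ω l] at h
      refine h.trans (evr_mono _ fun h' _ => ?_)
      have e1 : ∑ j ∈ s h', w h' j * evr Ω (fun h0 => ‖BB (dirs h0) (Gs h' j)‖) =
          evr Ω (fun h0 => ∑ j ∈ s h', w h' j * ‖BB (dirs h0) (Gs h' j)‖) := by
        unfold evr
        rw [Finset.sum_comm, Finset.sum_div]
        refine Finset.sum_congr rfl fun j _ => ?_
        rw [← Finset.mul_sum, mul_div_assoc]
      rw [e1]
      refine evr_mono _ fun h0 _ => ?_
      have e2 : BB ((List.ofFn (Fin.cons h0 h' : Fin (l + 1) → τ)).flatMap dirs) G =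
          BB ((List.ofFn h').flatMap dirs ++ dirs h0) G := by
        refine BB_perm ?_ G
        rw [List.ofFn_succ]
        simp only [Fin.cons_zero, Fin.cons_succ, List.flatMap_cons]
        exact List.perm_append_comm
      rw [e2, hsplit h' (dirs h0)]
      refine (norm_sum_le _ _).trans (Finset.sum_le_sum fun j _ => le_of_eq ?_)
      rw [norm_mul, Complex.norm_real, Real.norm_of_nonneg (hw0 h' j)]
    have ha1 : ∀ (h' : Fin l → τ) (j : ι h'), evr Ω (fun h0 => ‖BB (dirs h0) (Gs h' j)‖) ≤ 1 := fun h' j =>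
      evr_le _ zero_le_one fun h0 _ => norm_BB_le _ (hPD h0) _ (hGb h' j)
    have hB : 1 / (4 * R : ℝ) ^ (C' + 1) * (1 / (R : ℝ) / 2) ≤
        evr (Fintype.piFinset (fun _ : Fin l => Ω)) (fun h' => ∑ j ∈ s h', w h' j * UU K (Gs h' j)) := by
      refine evr_pos _ _ _ (1 / (R : ℝ)) (1 / (4 * R : ℝ) ^ (C' + 1)) ?_ ?_ (by positivity) (by positivity) hA ?_
      · intro h' _
        rw [← hw1 h']
        exact Finset.sum_le_sum fun j _ => mul_le_of_le_one_right (hw0 h' j) (ha1 h' j)
      · intro h' _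
        exact Finset.sum_nonneg fun j _ => mul_nonneg (hw0 h' j) (UU_nonneg K hK _)
      · intro h' _ hh'
        have hk := wavg_pos (s h') (w h') (fun j => evr Ω (fun h0 => ‖BB (dirs h0) (Gs h' j)‖))
          (fun j => UU K (Gs h' j)) (1 / (R : ℝ) / 2) (1 / (4 * R : ℝ) ^ C') (fun j _ => hw0 h' j) (hw1 h').le
          (fun j _ => ha1 h' j) (fun j _ => UU_nonneg K hK _) (by positivity) (by positivity) hh' ?_
        · refine le_trans (le_of_eq ?_) hk
          rw [pow_succ]
          field_simp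
          norm_num
        · intro j _ hj
          have h5 := hyp (4 * R) (by omega) (h4R.trans (Nat.pow_le_pow_right (by omega) (by nlinarith))) (Gs h' j)
            (hGb h' j) ?_
          · refine le_trans (le_of_eq ?_) h5
            push_cast
            rfl
          · refine le_trans (le_of_eq ?_) hj
            push_cast
            field_simp
            norm_num
    -- exchange
    have hC : 1 / (4 * R : ℝ) ^ (C' + 2) ≤ ∑ i ∈ s', w' i *
        evr (Fintype.piFinset (fun _ : Fin l => Ω)) (fun h' => ‖BB ((List.ofFn h').flatMap dirs) (G' i)‖) := by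
      have e1 : ∑ i ∈ s', w' i *
          evr (Fintype.piFinset (fun _ : Fin l => Ω)) (fun h' => ‖BB ((List.ofFn h').flatMap dirs) (G' i)‖) =
          evr (Fintype.piFinset (fun _ : Fin l => Ω)) (fun h' => ∑ i ∈ s', w' i *
            ‖BB ((List.ofFn h').flatMap dirs) (G' i)‖) := by
        unfold evr
        rw [Finset.sum_comm, Finset.sum_div]
        refine Finset.sum_congr rfl fun j _ => ?_
        rw [← Finset.mul_sum, mul_div_assoc]
      rw [e1]
      have e0 : 1 / (4 * R : ℝ) ^ (C' + 2) ≤ 1 / (4 * R : ℝ) ^ (C' + 1) * (1 / (R : ℝ) / 2) := by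
        have e3 : 1 / (4 * R : ℝ) ^ (C' + 1) * (1 / (R : ℝ) / 2) = 2 * (1 / (4 * R : ℝ) ^ (C' + 2)) := by
          rw [pow_succ (4 * R : ℝ) (C' + 1)]
          field_simp
          norm_num
        rw [e3]
        have : 0 ≤ 1 / (4 * R : ℝ) ^ (C' + 2) := by positivity
        linarith
      refine (e0.trans hB).trans (evr_mono _ fun h' _ => ?_)
      have e4 : ∑ j ∈ s h', w h' j * UU K (Gs h' j) =
          (BB ((List.ofFn h').flatMap dirs ++ List.replicate K un) G).re := by
        rw [hsplit h', Complex.re_sum]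
        refine Finset.sum_congr rfl fun j _ => ?_
        rw [Complex.re_ofReal_mul]
        rfl
      have e5 : BB ((List.ofFn h').flatMap dirs ++ List.replicate K un) G =
          BB (List.replicate K un ++ (List.ofFn h').flatMap dirs) G := BB_perm List.perm_append_comm G
      rw [e4, e5, hsplit', Complex.re_sum]
      refine Finset.sum_le_sum fun i _ => ?_
      rw [Complex.re_ofReal_mul]
      exact mul_le_mul_of_nonneg_left (Complex.re_le_norm _) (hw0' i)
    -- induction hypothesis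
    have hyp' : ∀ R1 : ℕ, Q ≤ R1 → R1 ≤ Q ^ C0 → ∀ G : ZMod M → ℂ, Bd G →
        1 / (R1 : ℝ) ≤ evr Ω (fun h => ‖BB (dirs h) G‖) → 1 / (R1 : ℝ) ^ C' ≤ UU K G := by
      intro R1 h1 h2
      refine hyp R1 (hRQ.trans h1) (h2.trans ?_)
      calc Q ^ C0 ≤ (R ^ (3 * C' + 7)) ^ C0 := Nat.pow_le_pow_left hQR _
        _ = R ^ ((3 * C' + 7) * C0) := by rw [← pow_mul]
        _ ≤ R ^ ((3 * C' + 7) * (C0 + 1)) := Nat.pow_le_pow_right (by omega) (Nat.mul_le_mul_left _ (by omega))
    have hlK : 1 ≤ l * K := Nat.mul_pos hl hK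
    have hD := wavg_pos s' w'
      (fun i => evr (Fintype.piFinset (fun _ : Fin l => Ω)) (fun h' => ‖BB ((List.ofFn h').flatMap dirs) (G' i)‖))
      (fun i => UU (l * K) (G' i)) (1 / (4 * R : ℝ) ^ (C' + 2)) (1 / (Q : ℝ) ^ C0) (fun i _ => hw0' i) hw1'.le
      (fun i _ => evr_le _ zero_le_one fun h' _ => norm_BB_le _ (hrest h') _ (hGb' i))
      (fun i _ => UU_nonneg _ hlK _) (by positivity) (by positivity) hC ?_
    · have e6 : ∑ i ∈ s', w' i * UU (l * K) (G' i) = UU ((l + 1) * K) G := by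
        have e7 : UU ((l + 1) * K) G = (BB (List.replicate K un ++ List.replicate (l * K) un) G).re := by
          unfold UU
          rw [← List.replicate_add]
          congr 3
          ring
        rw [e7, hsplit', Complex.re_sum]
        refine Finset.sum_congr rfl fun i _ => ?_
        rw [Complex.re_ofReal_mul]
        rfl
      rw [← e6]
      refine le_trans ?_ hD
      have hQ0 : (0 : ℝ) < Q := by
        have : 0 < Q := by omega
        exact_mod_cast this
      have e8 : 1 / (Q : ℝ) ^ C0 * (1 / (4 * R : ℝ) ^ (C' + 2) / 2) = 1 / (Q : ℝ) ^ (C0 + 1) := by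
        rw [pow_succ, hQreal]
        field_simp
        ring
      rw [e8]
      refine one_div_le_one_div_of_le (by positivity) ?_
      have e9 : (Q : ℝ) ≤ (R : ℝ) ^ (3 * C' + 7) := by exact_mod_cast hQR
      calc (Q : ℝ) ^ (C0 + 1) ≤ ((R : ℝ) ^ (3 * C' + 7)) ^ (C0 + 1) := pow_le_pow_left₀ hQ0.le e9 _
        _ = (R : ℝ) ^ ((3 * C' + 7) * (C0 + 1)) := by rw [← pow_mul]
    · intro i _ hi
      refine ih M τ Ω hΩ dirs hne hPD Q hQ2 hyp' (G' i) (hGb' i) (le_trans (le_of_eq ?_) hi)
      rw [hQreal]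
      field_simp

end Pool.Agent.NLG
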