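import Pool.Agent.Lib.NLG.StrA

/-!
# Module Iter: repeated Cauchy-Schwarz

PROOF of `iter_step`. Choose `ε_p` of modulus one with `‖av (..)_p‖ = ε_p av (..)_p`. Then the left average is `av_x f x * Z x`,
`Z x = ev_p ε_p conj (f (x + δ p)) W p x`; Cauchy-Schwarz: `(..) ^ 2 ≤ avr_x ‖Z x‖ ^ 2 = ev_(p, p') ε_p conj ε_p' av_x
conj (f (x + δ p)) f (x + δ p') W p x conj (W p' x)`. Shift `x` by `- δ p`, take norms and conjugate.
PROOF of `iter` by induction on `r`. `r = 0`: `ℓ = 1`, `ε = 1`, `W' q = W (q 0)`. Step: from `(ℓ, ε)` for `r`, take `ℓ' = ℓ + ℓ`,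
`ε' = Fin.append (-ε) ε`. Given the data for `r` (functions `W' q`, shifts `δ' q = ∑ ε a • δ (q a)`, list
`(List.ofFn q).flatMap dirs`), apply `iter_step` to the set `P^ℓ`; pairs `(q, q')` correspond to `Fin.append q q'` (an
equivalence of `(Fin ℓ → α) × (Fin ℓ → α)` and `Fin (ℓ + ℓ) → α`, `Fin.appendEquiv` or by hand, which maps
`piFinset × piFinset` onto `piFinset`); new function `conj (W' q (x - δ' q)) * W' q' (x - δ' q)`, structured by `StL_conj`, `StL_shift`,
`StL_mul` with the list `.. q ++ .. q'` and the error `2 ^ r η + 2 ^ r η`; new shift `δ' q' - δ' q`. For `q` with a value outside `P`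
the function `W'` is only required to be bounded.
-/

set_option autoImplicit false

open Finset

namespace Pool.Agent.NLG

open Pool.Agent.HLT Pool.Agent.NLT

namespace IterAux

theorem exists_phase {α : Type} (I : α → ℂ) :
    ∃ ε : α → ℂ, (∀ p, ‖ε p‖ ≤ 1) ∧ ∀ p, ε p * I p = ((‖I p‖ : ℝ) : ℂ) := by
  have h : ∀ p, ∃ e : ℂ, ‖e‖ ≤ 1 ∧ e * I p = ((‖I p‖ : ℝ) : ℂ) := by
    intro p
    by_cases h0 : I p = 0
    · exact ⟨0, by simp, by simp [h0]⟩
    · have hn : ‖I p‖ ≠ 0 := norm_ne_zero_iff.mpr h0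
      have hnC : ((‖I p‖ : ℝ) : ℂ) ≠ 0 := by exact_mod_cast hn
      refine ⟨(starRingEnd ℂ) (I p) / ((‖I p‖ : ℝ) : ℂ), ?_, ?_⟩
      · rw [norm_div, Complex.norm_conj, Complex.norm_real, norm_norm, div_self hn]
      · rw [div_mul_eq_mul_div, mul_comm, Complex.mul_conj, Complex.normSq_eq_norm_sq,
          div_eq_iff hnC]
        push_cast
        ring
  choose ε h1 h2 using h
  exact ⟨ε, h1, h2⟩

theorem evr_one {α : Type} (P : Finset α) (G : (Fin 1 → α) → ℝ) :
    evr (Fintype.piFinset (fun _ : Fin 1 => P)) G = evr P (fun p => G (fun _ => p)) := by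
  unfold evr
  rw [Fintype.card_piFinset_const, pow_one]
  congr 1
  refine Finset.sum_nbij' (fun q => q 0) (fun p => fun _ => p) ?_ ?_ ?_ ?_ ?_
  · intro q hq
    exact Fintype.mem_piFinset.mp hq 0
  · intro p hp
    exact Fintype.mem_piFinset.mpr fun _ => hp
  · intro q _
    funext i
    rw [Subsingleton.elim i 0]
  · intro p _
    rfl
  · intro q _
    congr 1
    funext i
    rw [Subsingleton.elim i 0]

theorem evr_append {α : Type} (P : Finset α) (l : ℕ) (G : (Fin l → α) × (Fin l → α) → ℝ) :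
    evr (Fintype.piFinset (fun _ : Fin l => P) ×ˢ Fintype.piFinset (fun _ : Fin l => P)) G =
      evr (Fintype.piFinset (fun _ : Fin (l + l) => P))
        (fun q => G (fun i => q (Fin.castAdd l i), fun i => q (Fin.natAdd l i))) := by
  unfold evr
  rw [Finset.card_product, Fintype.card_piFinset_const, Fintype.card_piFinset_const, pow_add]
  congr 1
  refine Finset.sum_nbij' (fun p => Fin.append p.1 p.2)
    (fun q => (fun i => q (Fin.castAdd l i), fun i => q (Fin.natAdd l i))) ?_ ?_ ?_ ?_ ?_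
  · intro p hp
    obtain ⟨h1, h2⟩ := Finset.mem_product.mp hp
    refine Fintype.mem_piFinset.mpr fun a => ?_
    refine Fin.addCases (fun i => ?_) (fun i => ?_) a
    · rw [Fin.append_left]
      exact Fintype.mem_piFinset.mp h1 i
    · rw [Fin.append_right]
      exact Fintype.mem_piFinset.mp h2 i
  · intro q hq
    have h := Fintype.mem_piFinset.mp hq
    exact Finset.mem_product.mpr ⟨Fintype.mem_piFinset.mpr fun _ => h _,
      Fintype.mem_piFinset.mpr fun _ => h _⟩
  · intro p _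
    apply Prod.ext
    · funext i
      exact Fin.append_left _ _ _
    · funext i
      exact Fin.append_right _ _ _
  · intro q _
    exact Fin.append_castAdd_natAdd
  · intro p _
    congr 1
    apply Prod.ext
    · funext i
      exact (Fin.append_left _ _ _).symm
    · funext i
      exact (Fin.append_right _ _ _).symm

end IterAux

theorem iter_step {M : ℕ} [NeZero M] {α : Type} (P : Finset α) (f : ZMod M → ℂ) (hf : Bd f) (δ : α → ZMod M)
    (W : α → ZMod M → ℂ) (hW : ∀ p, Bd (W p)) :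
    evr P (fun p => ‖av (fun x => f x * (starRingEnd ℂ) (f (x + δ p)) * W p x)‖) ^ 2 ≤
      evr (P ×ˢ P) (fun q => ‖av (fun x => f x * (starRingEnd ℂ) (f (x + (δ q.2 - δ q.1))) *
        ((starRingEnd ℂ) (W q.1 (x - δ q.1)) * W q.2 (x - δ q.1)))‖) := by
  obtain ⟨ε, hε1, hε2⟩ := IterAux.exists_phase
    (fun p => av (fun x => f x * (starRingEnd ℂ) (f (x + δ p)) * W p x))
  have h1 : ((evr P (fun p => ‖av (fun x => f x * (starRingEnd ℂ) (f (x + δ p)) * W p x)‖) : ℝ) : ℂ) =
      av (fun x => f x * ev P (fun p => ε p * ((starRingEnd ℂ) (f (x + δ p)) * W p x))) := by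
    rw [← ev_ofReal]
    have h2 : ev P (fun p => ((‖av (fun x => f x * (starRingEnd ℂ) (f (x + δ p)) * W p x)‖ : ℝ) : ℂ)) =
        ev P (fun p => av (fun x => f x * (ε p * ((starRingEnd ℂ) (f (x + δ p)) * W p x)))) := by
      refine ev_congr fun p _ => ?_
      rw [← hε2 p, ← av_mul_left]
      congr 1
      funext x
      ring
    rw [h2, ev_av_comm]
    congr 1
    funext x
    rw [ev_mul_left]
  have h0 : 0 ≤ evr P (fun p => ‖av (fun x => f x * (starRingEnd ℂ) (f (x + δ p)) * W p x)‖) :=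
    evr_nonneg _ fun _ _ => norm_nonneg _
  have h2 : evr P (fun p => ‖av (fun x => f x * (starRingEnd ℂ) (f (x + δ p)) * W p x)‖) ^ 2 ≤
      avr (fun x => ‖ev P (fun p => ε p * ((starRingEnd ℂ) (f (x + δ p)) * W p x))‖ ^ 2) := by
    have h3 := norm_av_mul_sq_le f
      (fun x => ev P (fun p => ε p * ((starRingEnd ℂ) (f (x + δ p)) * W p x))) hf
    rw [← h1, Complex.norm_real, Real.norm_eq_abs, sq_abs] at h3
    exact h3
  refine h2.trans ?_
  have h4 : ((avr (fun x => ‖ev P (fun p => ε p * ((starRingEnd ℂ) (f (x + δ p)) * W p x))‖ ^ 2) : ℝ) : ℂ) =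
      ev (P ×ˢ P) (fun q => av (fun x => ε q.1 * ((starRingEnd ℂ) (f (x + δ q.1)) * W q.1 x) *
        (starRingEnd ℂ) (ε q.2 * ((starRingEnd ℂ) (f (x + δ q.2)) * W q.2 x)))) := by
    rw [← av_ofReal, ev_prod]
    have h5 : ∀ x : ZMod M, ((‖ev P (fun p => ε p * ((starRingEnd ℂ) (f (x + δ p)) * W p x))‖ ^ 2 : ℝ) : ℂ) =
        ev P (fun p => ev P (fun p' => ε p * ((starRingEnd ℂ) (f (x + δ p)) * W p x) *
          (starRingEnd ℂ) (ε p' * ((starRingEnd ℂ) (f (x + δ p')) * W p' x)))) := fun x =>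
      norm_ev_sq P _
    simp only [h5]
    rw [← ev_av_comm]
    refine ev_congr fun p _ => ?_
    rw [ev_av_comm]
  have h6 : avr (fun x => ‖ev P (fun p => ε p * ((starRingEnd ℂ) (f (x + δ p)) * W p x))‖ ^ 2) ≤
      evr (P ×ˢ P) (fun q => ‖av (fun x => ε q.1 * ((starRingEnd ℂ) (f (x + δ q.1)) * W q.1 x) *
        (starRingEnd ℂ) (ε q.2 * ((starRingEnd ℂ) (f (x + δ q.2)) * W q.2 x)))‖) := by
    refine le_trans ?_ (norm_ev_le _ _)
    rw [← h4, Complex.norm_real, Real.norm_eq_abs]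
    exact le_abs_self _
  refine h6.trans (evr_mono _ fun q _ => ?_)
  have h7 : (fun x => ε q.1 * ((starRingEnd ℂ) (f (x + δ q.1)) * W q.1 x) *
        (starRingEnd ℂ) (ε q.2 * ((starRingEnd ℂ) (f (x + δ q.2)) * W q.2 x))) =
      fun x => (starRingEnd ℂ) (((starRingEnd ℂ) (ε q.1) * ε q.2) *
        (f (x + δ q.1) * (starRingEnd ℂ) (f (x + δ q.2)) *
          ((starRingEnd ℂ) (W q.1 x) * W q.2 x))) := by
    funext x
    simp only [map_mul, Complex.conj_conj]
    ring
  rw [h7, av_conj, Complex.norm_conj, av_mul_left, norm_mul, norm_mul, Complex.norm_conj]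
  have h8 : av (fun x => f (x + δ q.1) * (starRingEnd ℂ) (f (x + δ q.2)) *
          ((starRingEnd ℂ) (W q.1 x) * W q.2 x)) =
      av (fun x => f x * (starRingEnd ℂ) (f (x + (δ q.2 - δ q.1))) *
        ((starRingEnd ℂ) (W q.1 (x - δ q.1)) * W q.2 (x - δ q.1))) := by
    rw [← av_shift_sub _ (δ q.1)]
    congr 1
    funext x
    rw [sub_add_cancel, show x - δ q.1 + δ q.2 = x + (δ q.2 - δ q.1) from by ring]
  rw [h8]
  refine mul_le_of_le_one_left (norm_nonneg _) ?_
  exact mul_le_one₀ (hε1 q.1) (norm_nonneg _) (hε1 q.2)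

theorem iter (r : ℕ) : ∃ (l : ℕ) (ε : Fin l → ℤ), l = 2 ^ r ∧ (∀ a, ε a = 1 ∨ ε a = -1) ∧
    ∀ (M : ℕ) [NeZero M] (α : Type) (P : Finset α) (f : ZMod M → ℂ) (_ : Bd f) (δ : α → ZMod M)
      (W : α → ZMod M → ℂ) (_ : ∀ p, Bd (W p)) (A' : ℕ) (η : ℝ) (_ : 0 ≤ η) (dirs : α → List (ZMod M))
      (_ : ∀ p ∈ P, StL A' η (dirs p) (W p)),
      ∃ W' : (Fin l → α) → ZMod M → ℂ, (∀ q, Bd (W' q)) ∧
        (∀ q, (∀ a, q a ∈ P) → StL A' (2 ^ r * η) ((List.ofFn q).flatMap dirs) (W' q)) ∧
        evr P (fun p => ‖av (fun x => f x * (starRingEnd ℂ) (f (x + δ p)) * W p x)‖) ^ (2 ^ r) ≤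
          evr (Fintype.piFinset (fun _ : Fin l => P)) (fun q =>
            ‖av (fun x => f x * (starRingEnd ℂ) (f (x + ∑ a, ε a • δ (q a))) * W' q x)‖) := by
  induction r with
  | zero =>
    refine ⟨1, fun _ => 1, rfl, fun _ => Or.inl rfl, ?_⟩
    intro M _ α P f hf δ W hW A' η hη dirs hd
    refine ⟨fun q => W (q 0), fun q => hW (q 0), fun q hq => ?_, ?_⟩
    · have h1 := hd (q 0) (hq 0)
      have h2 : (List.ofFn q).flatMap dirs = dirs (q 0) := by
        rw [List.ofFn_succ, List.flatMap_cons, List.ofFn_zero, List.flatMap_nil, List.append_nil]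
      rw [h2, pow_zero, one_mul]
      exact h1
    · rw [pow_zero, pow_one]
      refine le_of_eq ?_
      rw [IterAux.evr_one P (fun q => ‖av (fun x => f x * (starRingEnd ℂ)
        (f (x + ∑ a : Fin 1, (1 : ℤ) • δ (q a))) * W (q 0) x)‖)]
      refine evr_congr fun p _ => ?_
      simp
  | succ r ih =>
    obtain ⟨l, ε, hl, hε, H⟩ := ih
    refine ⟨l + l, Fin.append (fun a => - ε a) ε, by rw [hl, pow_succ]; ring, ?_, ?_⟩
    · intro a
      refine Fin.addCases (fun i => ?_) (fun i => ?_) a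
      · rw [Fin.append_left]
        rcases hε i with h | h
        · exact Or.inr (by rw [h])
        · exact Or.inl (by rw [h]; rfl)
      · rw [Fin.append_right]
        exact hε i
    intro M _ α P f hf δ W hW A' η hη dirs hd
    obtain ⟨W', hW', hS, hI⟩ := H M α P f hf δ W hW A' η hη dirs hd
    set δ' : (Fin l → α) → ZMod M := fun q => ∑ a, ε a • δ (q a) with hδ'
    refine ⟨fun q x => (starRingEnd ℂ) (W' (fun i => q (Fin.castAdd l i))
        (x - δ' (fun i => q (Fin.castAdd l i)))) *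
        W' (fun i => q (Fin.natAdd l i)) (x - δ' (fun i => q (Fin.castAdd l i))), ?_, ?_, ?_⟩
    · intro q x
      rw [norm_mul, Complex.norm_conj]
      exact mul_le_one₀ (hW' _ _) (norm_nonneg _) (hW' _ _)
    · intro q hq
      have s1 := hS (fun i => q (Fin.castAdd l i)) (fun a => hq _)
      have s2 := hS (fun i => q (Fin.natAdd l i)) (fun a => hq _)
      have s3 := StL_mul (StL_conj (StL_shift s1 (- δ' (fun i => q (Fin.castAdd l i)))))
        (StL_shift s2 (- δ' (fun i => q (Fin.castAdd l i))))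
        (fun x => by rw [Complex.norm_conj]; exact hW' _ _) (fun x => hW' _ _)
      have e1 : (List.ofFn q).flatMap dirs = (List.ofFn (fun i => q (Fin.castAdd l i))).flatMap dirs ++
          (List.ofFn (fun i => q (Fin.natAdd l i))).flatMap dirs := by
        rw [← List.flatMap_append, ← List.ofFn_fin_append]
        congr 2
        exact (Fin.append_castAdd_natAdd (f := q)).symm
      have e2 : (2 : ℝ) ^ (r + 1) * η = 2 ^ r * η + 2 ^ r * η := by
        rw [pow_succ]
        ring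
      rw [e1, e2]
      simp only [sub_eq_add_neg]
      exact s3
    · have h1 := iter_step (Fintype.piFinset (fun _ : Fin l => P)) f hf δ' W' hW'
      have h0 : 0 ≤ evr P (fun p => ‖av (fun x => f x * (starRingEnd ℂ) (f (x + δ p)) * W p x)‖) :=
        evr_nonneg _ fun _ _ => norm_nonneg _
      have h2 := pow_le_pow_left₀ (pow_nonneg h0 (2 ^ r)) hI 2
      rw [← pow_mul, ← pow_succ] at h2
      refine (h2.trans h1).trans (le_of_eq ?_)
      rw [IterAux.evr_append]
      refine evr_congr fun q _ => ?_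
      have e3 : ∑ a, Fin.append (fun a => - ε a) ε a • δ (q a) =
          δ' (fun i => q (Fin.natAdd l i)) - δ' (fun i => q (Fin.castAdd l i)) := by
        rw [Fin.sum_univ_add]
        simp only [Fin.append_left, Fin.append_right, neg_smul, Finset.sum_neg_distrib]
        rw [hδ']
        ring
      rw [e3]

end Pool.Agent.NLG
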