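import Pool.Agent.Lib.NLG.BXB

/-!
# Module One: one direction

PROOF of `conc_one`. `BB [fe A (c h)] f = Q2 A f (c h) = ∑ ξ ‖ft f ξ‖ ^ 2 ‖tv A (fun i => chi ξ (c h i))‖ ^ 2` (`BB_fe_one`, `Q2_eq`).
Average over `h`: `1 / R ≤ ∑ ξ ‖ft f ξ‖ ^ 2 κ (ξ)`, `κ = kap Ω A c ≤ 1`. The `ξ` with `κ (ξ) < 1 / (2 R)` contribute at most `1 / (2 R)`
(`sum_ft_sq_le_one`). The others are at most `(2 R) ^ (2 ^ r) R ^ C0` in number. So `∑_(κ ≥ 1/(2R)) ‖ft f ξ‖ ^ 2 ≥ 1 / (2 R)` and some `ξ` has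
`‖ft f ξ‖ ^ 2 ≥ (2 R) ^ (- 2 ^ r - 1) R ^ (-C0)`; `UU 2 f = ∑ ‖ft f ξ‖ ^ 4` (`UU_two`) and `2 ≤ R`:
`C = 2 (2 (2 ^ r + 1) + C0)` is enough.
-/

set_option autoImplicit false

open Finset

namespace Pool.Agent.NLG

open Pool.Agent.HLT Pool.Agent.NLT

namespace OneAux

variable {M : ℕ} [NeZero M]

/-- the abstract inequality -/
theorem key {ι : Type} [Fintype ι] (a κ : ι → ℝ) (ha : ∀ i, 0 ≤ a i) (hκ0 : ∀ i, 0 ≤ κ i)
    (hκ1 : ∀ i, κ i ≤ 1) (ha1 : ∑ i, a i ≤ 1) {R : ℝ} (hR : 2 ≤ R) (n m : ℕ)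
    (hκ : ∑ i, κ i ^ n ≤ R ^ m) (h : 1 / R ≤ ∑ i, a i * κ i) :
    1 / R ^ (2 * (n + 2) + m) ≤ ∑ i, a i ^ 2 := by
  classical
  have hR0 : 0 < R := by linarith
  set S : Finset ι := univ.filter (fun i => 1 / (2 * R) ≤ κ i) with hS
  -- the small ones
  have h1 : ∑ i ∈ univ.filter (fun i => ¬ 1 / (2 * R) ≤ κ i), a i * κ i ≤ 1 / (2 * R) := by
    calc ∑ i ∈ univ.filter (fun i => ¬ 1 / (2 * R) ≤ κ i), a i * κ i
        ≤ ∑ i ∈ univ.filter (fun i => ¬ 1 / (2 * R) ≤ κ i), a i * (1 / (2 * R)) :=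
          sum_le_sum fun i hi => mul_le_mul_of_nonneg_left (not_le.1 (mem_filter.1 hi).2).le (ha i)
      _ ≤ ∑ i, a i * (1 / (2 * R)) :=
          sum_le_sum_of_subset_of_nonneg (filter_subset _ _)
            fun i _ _ => mul_nonneg (ha i) (by positivity)
      _ = (∑ i, a i) * (1 / (2 * R)) := (sum_mul _ _ _).symm
      _ ≤ 1 * (1 / (2 * R)) := mul_le_mul_of_nonneg_right ha1 (by positivity)
      _ = 1 / (2 * R) := one_mul _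
  have h2 : ∑ i, a i * κ i = ∑ i ∈ S, a i * κ i +
      ∑ i ∈ univ.filter (fun i => ¬ 1 / (2 * R) ≤ κ i), a i * κ i :=
    (sum_filter_add_sum_filter_not univ (fun i => 1 / (2 * R) ≤ κ i) _).symm
  have h3 : 1 / (2 * R) ≤ ∑ i ∈ S, a i := by
    have h4 : ∑ i ∈ S, a i * κ i ≤ ∑ i ∈ S, a i :=
      sum_le_sum fun i _ => mul_le_of_le_one_right (ha i) (hκ1 i)
    have h5 : 1 / R = 1 / (2 * R) + 1 / (2 * R) := by
      field_simp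
      norm_num
    linarith
  -- the number of the large ones
  have h6 : (S.card : ℝ) * (1 / (2 * R)) ^ n ≤ R ^ m := by
    calc (S.card : ℝ) * (1 / (2 * R)) ^ n = ∑ i ∈ S, (1 / (2 * R)) ^ n := by
          rw [sum_const, nsmul_eq_mul]
      _ ≤ ∑ i ∈ S, κ i ^ n := sum_le_sum fun i hi =>
          pow_le_pow_left₀ (by positivity) (mem_filter.1 hi).2 n
      _ ≤ ∑ i, κ i ^ n := sum_le_sum_of_subset_of_nonneg (filter_subset _ _)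
            fun i _ _ => pow_nonneg (hκ0 i) n
      _ ≤ R ^ m := hκ
  have h7 : (∑ i ∈ S, a i) ^ 2 ≤ S.card * ∑ i ∈ S, a i ^ 2 := sq_sum_le_card_mul_sum_sq
  have h8 : ∑ i ∈ S, a i ^ 2 ≤ ∑ i, a i ^ 2 :=
    sum_le_sum_of_subset_of_nonneg (filter_subset _ _) fun i _ _ => sq_nonneg _
  set Z : ℝ := ∑ i ∈ S, a i ^ 2 with hZ
  have hZ0 : 0 ≤ Z := sum_nonneg fun i _ => sq_nonneg _
  have h9 : (1 / (2 * R)) ^ 2 ≤ S.card * Z :=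
    (pow_le_pow_left₀ (by positivity) h3 2).trans h7
  have h10 : (1 / (2 * R)) ^ (n + 2) ≤ R ^ m * Z := by
    calc (1 / (2 * R)) ^ (n + 2) = (1 / (2 * R)) ^ n * (1 / (2 * R)) ^ 2 := pow_add _ _ _
      _ ≤ (1 / (2 * R)) ^ n * (S.card * Z) := mul_le_mul_of_nonneg_left h9 (by positivity)
      _ = ((S.card : ℝ) * (1 / (2 * R)) ^ n) * Z := by ring
      _ ≤ R ^ m * Z := mul_le_mul_of_nonneg_right h6 hZ0
  have h11 : (1 / R ^ 2) ^ (n + 2) ≤ (1 / (2 * R)) ^ (n + 2) := by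
    refine pow_le_pow_left₀ (by positivity) ?_ _
    refine one_div_le_one_div_of_le (by positivity) ?_
    nlinarith
  have h12 : 1 / R ^ (2 * (n + 2) + m) = (1 / R ^ 2) ^ (n + 2) / R ^ m := by
    rw [pow_add, pow_mul, one_div_pow, div_div]
  rw [h12, div_le_iff₀ (by positivity)]
  have h13 : R ^ m * Z ≤ (∑ i, a i ^ 2) * R ^ m := by
    rw [mul_comm]
    exact mul_le_mul_of_nonneg_right h8 (by positivity)
  linarith

theorem norm_BB (A : ℕ) (v : ZMod M) (f : ZMod M → ℂ) :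
    ‖BB [fe A v] f‖ = ∑ ξ, ‖ft f ξ‖ ^ 2 * ‖tv A (fun i => chi ξ (v * (i : ZMod M)))‖ ^ 2 := by
  have h0 : 0 ≤ Q2 A f v := by
    rw [Q2_eq]
    exact sum_nonneg fun ξ _ => by positivity
  rw [BB_fe_one, Complex.norm_real, Real.norm_of_nonneg h0, Q2_eq]

end OneAux

theorem conc_one (r C0 : ℕ) : ∃ C : ℕ, ∀ (M : ℕ) [NeZero M] (τ : Type) (Ω : Finset τ) (c : τ → ZMod M) (R A : ℕ),
    2 ≤ R → 1 ≤ A → ∑ ξ, kap Ω A c ξ ^ (2 ^ r) ≤ (R : ℝ) ^ C0 → ∀ f : ZMod M → ℂ, Bd f →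
      1 / (R : ℝ) ≤ evr Ω (fun h => ‖BB [fe A (c h)] f‖) → 1 / (R : ℝ) ^ C ≤ UU 2 f := by
  refine ⟨2 * (2 ^ r + 2) + C0, fun M _ τ Ω c R A hR hA hκ f hf h => ?_⟩
  have hR' : (2 : ℝ) ≤ (R : ℝ) := by exact_mod_cast hR
  have hk0 : ∀ ξ : ZMod M, 0 ≤ kap Ω A c ξ := fun ξ => evr_nonneg Ω fun a _ => by positivity
  have hk1 : ∀ ξ : ZMod M, kap Ω A c ξ ≤ 1 := fun ξ => evr_le Ω zero_le_one fun a _ =>
    pow_le_one₀ (norm_nonneg _) (norm_tv_le_one A _ fun i => (norm_chi _ _).le)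
  have e1 : evr Ω (fun h => ‖BB [fe A (c h)] f‖) = ∑ ξ, ‖ft f ξ‖ ^ 2 * kap Ω A c ξ := by
    unfold kap evr
    simp only [OneAux.norm_BB]
    rw [sum_comm, sum_div]
    refine sum_congr rfl fun ξ _ => ?_
    rw [← mul_sum, mul_div_assoc]
  rw [e1] at h
  have h1 := OneAux.key (fun ξ => ‖ft f ξ‖ ^ 2) (fun ξ => kap Ω A c ξ) (fun ξ => by positivity) hk0 hk1
    (sum_ft_sq_le_one hf) hR' (2 ^ r) C0 hκ h
  rw [UU_two]
  refine h1.trans (le_of_eq (sum_congr rfl fun ξ _ => ?_))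
  rw [← pow_mul]

end Pool.Agent.NLG
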