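import Pool.Agent.Lib.NLG.StrB
import Pool.Agent.Lib.NLG.Dual
import Pool.Agent.Lib.NLG.Iter
import Pool.Agent.Lib.NLG.DensG
import Pool.Agent.Lib.NLG.One
import Pool.Agent.Lib.NLG.Groups

/-!
# Module ConcG: concatenation

If the average over `h ∈ Ω` of the box norms of `f` in the directions `c (h)`, `c ∈ cs`, is large, then a Gowers norm of `f`
is large, provided that the moments of order `2 ^ r` of the kernels `kap Ω A' c` are at most `R ^ C0 (A / A') ^ E`, for all `c ∈ cs` and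
`A' ∈ [A / R^C, A]`.

PROOF by induction on the number `n + 1` of directions. `n = 0`: `conc_one` (`K = 2`). Step: `cs = c0 :: cs'`, `cs'` of length `n + 1`.
Let `dl p = c0 h * (j - i)` for `p = (h, i, j) ∈ P = Ω × [0, A)^2`. By `BB_fe` and `BB_dual` (`L = cs'.map (· h)`,
`G = Dl (dl p) f`) `E_h ‖BB (fe A (c0 h) :: ..) f‖ = E_h BB .. = E_(p ∈ P) av (f x conj (f (x + dl p)) W_p x)` with `W_p` bounded and
`StL A' (2 (n + 1) A' / A) (cs'.map (· h))` for every `A'`. `iter r`: with `l = 2 ^ r` copies, `δ_q = ∑ ε a • dl (q a)`,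
  `R ^ (- l) ≤ E_(q ∈ P^l) ‖av (f x conj (f (x + δ_q)) W'_q x)‖`, `W'_q` structured with error `η = l 2 (n + 1) A' / A`.
Choose `A'` = the integer part of `A / R ^ C1` with `η ≤ R ^ (-l) / 2`. Then (with `ρ_q = max (‖..‖ - η) 0`, `StL_bound`, Jensen
`evr_pow_le`, `N = (n + 1) l` directions) `(R ^ (-l) / 2) ^ (2 ^ N) ≤ E_q ‖BB (L_q.map (fe A')) (Dl δ_q f)‖`,
`L_q = (List.ofFn q).flatMap (fun p => cs'.map (· p.1))`. The function `Φ h d = ‖BB (((List.ofFn h).flatMap (fun h => cs'.map (fun c => fe A' (c h))))) (Dl d f)‖`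
is in `[0, 1]`; `dens` with `T = R ^ C2` (`∑ ξ kap Ω A c0 ξ ^ l ≤ R ^ C0`): `R ^ (-C3) ≤ E_(h ∈ Ω^l) avr_d Φ h d`.
For `d` in a set of density `≥ R ^ (-C3) / 2`, `E_h Φ h d ≥ R ^ (-C3) / 2`; `groups` (for `R' = R ^ C4` in place of `R`) with `dirs h = cs'.map (fun c => fe A' (c h))`; its hypothesis, for `R1 ≥ R'`,
is the induction hypothesis for `cs'`, `A'`, `R1`, with `C0' = C0 + E (C1 + 1)` in place of `C0`: for `A'' ≤ A'` with `A' ≤ R1 ^ C' A''` the
kernels are bounded by `R ^ C0 (A / A'') ^ E ≤ R ^ C0 R ^ ((C1 + 1) E) (A' / A'') ^ E ≤ R1 ^ C0' (A' / A'') ^ E` (`A ≤ R ^ (C1 + 1) A'`; `R1 ≤ R ^ C5`, so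
`A ≤ R ^ C A''`; `C1` depends only on `n`, `r`, so there is no circle). Result: `UU (l K') (Dl d f) ≥ R ^ (-C6)` for these `d`; average over
`d`: `UU_succ`. So `K = l K' + 1`. (At `A' = A` the factor `(A / A') ^ E` is `1`: this is what `dens` and `conc_one` need.)
-/

set_option autoImplicit false

open Finset

namespace Pool.Agent.NLG

open Pool.Agent.HLT Pool.Agent.NLT

namespace ConcGAux

theorem norm_tv_le' (A : ℕ) (F : ℕ → ℂ) : ‖tv A F‖ ≤ evr (range A) (fun i => ‖F i‖) := by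
  rw [tv_eq_ev]
  exact norm_ev_le _ _

/-- steps one and two: duality and repeated Cauchy-Schwarz -/
theorem corr (r : ℕ) : ∃ (l : ℕ) (ε : Fin l → ℤ), l = 2 ^ r ∧ (∀ a, ε a = 1 ∨ ε a = -1) ∧
    ∀ (n : ℕ) (M : ℕ) [NeZero M] (τ : Type) (Ω : Finset τ) (c0 : τ → ZMod M) (cs' : List (τ → ZMod M))
      (A A' : ℕ), cs'.length = n → 1 ≤ A → 1 ≤ A' → Ω.Nonempty → ∀ f : ZMod M → ℂ, Bd f → ∀ ρ η : ℝ, 0 ≤ ρ →
      ρ ≤ evr Ω (fun h => ‖BB (fe A (c0 h) :: cs'.map (fun c => fe A (c h))) f‖) →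
      η = 2 ^ r * (2 * n * A' / A) → η ≤ ρ ^ l →
      (ρ ^ l - η) ^ (2 ^ (l * n)) ≤ evr (Fintype.piFinset (fun _ : Fin l => Ω ×ˢ (range A ×ˢ range A)))
        (fun q => ‖BB ((List.ofFn (fun a => (q a).1)).flatMap (fun h => cs'.map (fun c => fe A' (c h))))
          (Dl (∑ a, ε a • (c0 (q a).1 * (((q a).2.2 : ZMod M) - ((q a).2.1 : ZMod M)))) f)‖) := by
  obtain ⟨l, ε, hl, hε, H⟩ := iter r
  refine ⟨l, ε, hl, hε, ?_⟩
  intro n M _ τ Ω c0 cs' A A' hn hA hA' hΩ f hf ρ η hρ h hη hηρ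
  classical
  set P : Finset (τ × ℕ × ℕ) := Ω ×ˢ (range A ×ˢ range A) with hP
  set δ : τ × ℕ × ℕ → ZMod M := fun p => c0 p.1 * ((p.2.2 : ZMod M) - (p.2.1 : ZMod M)) with hδ
  have hW : ∀ p : τ × ℕ × ℕ, ∃ W : ZMod M → ℂ, Bd W ∧
      BB ((cs'.map (fun c => c p.1)).map (fe A)) (Dl (δ p) f) = av (fun x => Dl (δ p) f x * W x) ∧
      ∀ A' : ℕ, StL A' (2 * (cs'.map (fun c => c p.1)).length * A' / A : ℝ) (cs'.map (fun c => c p.1)) W :=
    fun p => BB_dual A hA (cs'.map (fun c => c p.1)) (Dl (δ p) f) (Dl_Bd _ hf)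
  choose W hWb hWe hWs using hW
  have h1 : evr Ω (fun h => ‖BB (fe A (c0 h) :: cs'.map (fun c => fe A (c h))) f‖) ≤
      evr P (fun p => ‖av (fun x => f x * (starRingEnd ℂ) (f (x + δ p)) * W p x)‖) := by
    rw [hP, evr_prod]
    refine evr_mono Ω fun h _ => ?_
    rw [evr_prod, BB_fe]
    refine (norm_tv_le' A _).trans (evr_mono _ fun i _ => ?_)
    refine (norm_tv_le' A _).trans (evr_mono _ fun j _ => ?_)
    have e := hWe (h, i, j)
    rw [List.map_map] at e
    have e2 : (cs'.map (fun c => fe A (c h))) = cs'.map (fe A ∘ fun c => c (h, i, j).1) := rfl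
    rw [e2]
    change ‖BB _ (Dl (δ (h, i, j)) f)‖ ≤ _
    rw [e]
    rfl
  have hη0 : 0 ≤ 2 * (n : ℝ) * A' / A := by positivity
  obtain ⟨W', hW'b, hW's, hW'e⟩ := H M (τ × ℕ × ℕ) P f hf δ W hWb A' (2 * n * A' / A) hη0
    (fun p => cs'.map (fun c => c p.1)) (fun p _ => by
      have := hWs p A'
      rw [List.length_map, hn] at this
      exact this)
  rw [← hl] at hW'e
  have h2 : ρ ^ l ≤ evr (Fintype.piFinset (fun _ : Fin l => P)) (fun q =>
      ‖av (fun x => f x * (starRingEnd ℂ) (f (x + ∑ a, ε a • δ (q a))) * W' q x)‖) :=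
    (pow_le_pow_left₀ hρ (h.trans h1) l).trans hW'e
  set g : (Fin l → τ × ℕ × ℕ) → ℝ := fun q =>
    ‖av (fun x => f x * (starRingEnd ℂ) (f (x + ∑ a, ε a • δ (q a))) * W' q x)‖ with hg
  have hPn : (Fintype.piFinset (fun _ : Fin l => P)).Nonempty := by
    rw [Fintype.piFinset_nonempty]
    intro _
    rw [hP]
    exact hΩ.product ((nonempty_range_iff.2 (by omega)).product (nonempty_range_iff.2 (by omega)))
  have h3 : ρ ^ l - η ≤ evr (Fintype.piFinset (fun _ : Fin l => P)) (fun q => max (g q - η) 0) := by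
    have h4 : evr (Fintype.piFinset (fun _ : Fin l => P)) g ≤
        evr (Fintype.piFinset (fun _ : Fin l => P)) (fun q => max (g q - η) 0) + η := by
      rw [← evr_const hPn η, ← evr_add]
      rw [evr_const hPn η]
      exact evr_mono _ fun q _ => by
        have := le_max_left (g q - η) 0
        linarith
    linarith
  have hsub : 0 ≤ ρ ^ l - η := by linarith
  refine (pow_le_pow_left₀ hsub h3 (2 ^ (l * n))).trans ?_
  refine (evr_pow_le _ (fun q _ => le_max_right _ _) _ (Nat.one_le_two_pow)).trans ?_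
  refine evr_mono _ fun q hq => ?_
  have hq' : ∀ a, q a ∈ P := fun a => Fintype.mem_piFinset.1 hq a
  have hs := hW's q hq'
  rw [← hη] at hs
  have hlen : ((List.ofFn q).flatMap (fun p => cs'.map (fun c => c p.1))).length = l * n := by
    rw [List.length_flatMap]
    have : (List.ofFn q).map (fun a => (cs'.map (fun c => c a.1)).length) = List.replicate l n := by
      rw [List.eq_replicate_iff]
      refine ⟨by simp, ?_⟩
      intro b hb
      rw [List.mem_map] at hb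
      obtain ⟨a, _, rfl⟩ := hb
      rw [List.length_map, hn]
    rw [this, List.sum_replicate, smul_eq_mul]
  have hmap : ((List.ofFn q).flatMap (fun p => cs'.map (fun c => c p.1))).map (fe A') =
      (List.ofFn (fun a => (q a).1)).flatMap (fun h => cs'.map (fun c => fe A' (c h))) := by
    have e1 : (List.ofFn (fun a => (q a).1)) = (List.ofFn q).map Prod.fst := by
      rw [List.map_ofFn]
      rfl
    rw [e1, List.map_flatMap, List.flatMap_map]
    congr 1
    funext p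
    rw [List.map_map]
    rfl
  have hb := StL_bound A' hA' η ((List.ofFn q).flatMap (fun p => cs'.map (fun c => c p.1))) (W' q)
    (Dl (∑ a, ε a • δ (q a)) f) hs (Dl_Bd _ hf) (max (g q - η) 0) (le_max_right _ _)
  rcases le_total (g q) η with h5 | h5
  · rw [max_eq_right (by linarith), zero_pow (by positivity)]
    exact norm_nonneg _
  · rw [hlen, hmap] at hb
    refine hb ?_
    rw [max_eq_left (by linarith)]
    have e : g q = ‖av (fun x => Dl (∑ a, ε a • δ (q a)) f x * W' q x)‖ := rfl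
    rw [← e]
    linarith

/-- density step: from a large average over the sums to a large average over all shifts -/
theorem densStep {M : ℕ} [NeZero M] {τ : Type} (Ω : Finset τ) (hΩ : Ω.Nonempty) (c0 : τ → ZMod M) (A l : ℕ)
    (hA : 1 ≤ A) (ε : Fin l → ℤ) (hε : ∀ a, ε a = 1 ∨ ε a = -1) (Φ : (Fin l → τ) → ZMod M → ℝ)
    (hΦ0 : ∀ h d, 0 ≤ Φ h d) (hΦ1 : ∀ h d, Φ h d ≤ 1) (R : ℝ) (hR : 2 ≤ R) (b C0 : ℕ)
    (hk : ∑ ξ, kap Ω A c0 ξ ^ l ≤ R ^ C0)
    (h : 1 / R ^ b ≤ evr (Fintype.piFinset (fun _ : Fin l => Ω ×ˢ (range A ×ˢ range A))) (fun q =>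
        Φ (fun a => (q a).1)
          (∑ a, ε a • (c0 (q a).1 * (((q a).2.2 : ZMod M) - ((q a).2.1 : ZMod M)))))) :
    1 / R ^ (C0 + 2 * b + 2) ≤ avr (fun d => evr (Fintype.piFinset (fun _ : Fin l => Ω)) (fun h => Φ h d)) := by
  have hR0 : 0 < R := by linarith
  have h1 := dens Ω hΩ c0 A l hA ε hε Φ hΦ0 hΦ1 (R ^ (C0 + b + 1)) (by positivity)
  rw [evr_avr_comm] at h1
  set X := avr (fun d => evr (Fintype.piFinset (fun _ : Fin l => Ω)) (fun h => Φ h d)) with hX
  have h2 : 1 / R ^ (C0 + b + 1) * ∑ ξ, kap Ω A c0 ξ ^ l ≤ 1 / R ^ (b + 1) := by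
    calc 1 / R ^ (C0 + b + 1) * ∑ ξ, kap Ω A c0 ξ ^ l ≤ 1 / R ^ (C0 + b + 1) * R ^ C0 :=
          mul_le_mul_of_nonneg_left hk (by positivity)
      _ = 1 / R ^ (b + 1) := by
          rw [show C0 + b + 1 = (b + 1) + C0 by ring, pow_add R (b + 1) C0]
          field_simp
  have h3 : 1 / R ^ (b + 1) ≤ 1 / R ^ b - 1 / R ^ (b + 1) := by
    have e : 1 / R ^ b = R * (1 / R ^ (b + 1)) := by
      rw [pow_succ]
      field_simp
    have h4 : 0 < 1 / R ^ (b + 1) := by positivity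
    rw [e]
    nlinarith
  have h5 : 1 / R ^ (b + 1) ≤ R ^ (C0 + b + 1) * X := by linarith
  have e : 1 / R ^ (C0 + 2 * b + 2) = 1 / R ^ (b + 1) / R ^ (C0 + b + 1) := by
    rw [div_div, ← pow_add]
    congr 2
    ring
  rw [e, div_le_iff₀ (by positivity), mul_comm]
  exact h5

end ConcGAux

open ConcGAux in
theorem conc (n r C0 E : ℕ) : ∃ K C : ℕ, 2 ≤ K ∧ ∀ (M : ℕ) [NeZero M] (τ : Type) (Ω : Finset τ)
    (cs : List (τ → ZMod M)) (R A : ℕ), cs.length = n + 1 → Ω.Nonempty → 2 ≤ R → R ^ C ≤ A →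
    (∀ c ∈ cs, ∀ A' : ℕ, A' ≤ A → A ≤ R ^ C * A' →
      ∑ ξ, kap Ω A' c ξ ^ (2 ^ r) ≤ (R : ℝ) ^ C0 * ((A : ℝ) / A') ^ E) →
    ∀ f : ZMod M → ℂ, Bd f → 1 / (R : ℝ) ≤ evr Ω (fun h => ‖BB (cs.map (fun c => fe A (c h))) f‖) →
      1 / (R : ℝ) ^ C ≤ UU K f := by
  induction n generalizing C0 with
  | zero =>
    obtain ⟨C, hC⟩ := conc_one r C0
    refine ⟨2, C, le_rfl, ?_⟩
    intro M _ τ Ω cs R A hcs hΩ hR hRA hk f hf h
    obtain ⟨c, rfl⟩ := List.length_eq_one_iff.1 hcs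
    have hA : 1 ≤ A := le_trans (Nat.one_le_pow _ _ (by omega)) hRA
    have hA0 : (A : ℝ) ≠ 0 := by
      have : (0 : ℝ) < A := by exact_mod_cast hA
      exact this.ne'
    have h1 := hk c (by simp) A le_rfl (Nat.le_mul_of_pos_left _ (by positivity))
    rw [div_self hA0, one_pow, mul_one] at h1
    exact hC M τ Ω c R A hR hA h1 f hf h
  | succ n ih =>
    obtain ⟨l, ε, hl, hε, H⟩ := corr r
    have hl1 : 1 ≤ l := by rw [hl]; exact Nat.one_le_two_pow
    -- constants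
    set C1 : ℕ := l + 1 + 2 * l * (n + 1) with hC1
    obtain ⟨K', C', hK', IH⟩ := ih (C0 + E * (C1 + 1))
    obtain ⟨Cg, HG⟩ := groups K' C' (by omega) l hl1
    set b : ℕ := (l + 1) * 2 ^ (l * (n + 1)) with hb
    set C4 : ℕ := C0 + 2 * b + 2 + 1 with hC4
    refine ⟨l * K' + 1, C1 + 1 + C4 * Cg * C' + C4 * Cg + C4, by nlinarith, ?_⟩
    intro M _ τ Ω cs R A hcs hΩ hR hRA hk f hf h
    obtain ⟨c0, cs', rfl⟩ : ∃ c0 cs', cs = c0 :: cs' := by
      cases cs with
      | nil => simp at hcs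
      | cons c0 cs' => exact ⟨c0, cs', rfl⟩
    have hcs' : cs'.length = n + 1 := by simpa using hcs
    have hR1 : 1 ≤ R := by omega
    have hRr : (2 : ℝ) ≤ (R : ℝ) := by exact_mod_cast hR
    have hR0 : (0 : ℝ) < (R : ℝ) := by linarith
    have hA : 1 ≤ A := le_trans (Nat.one_le_pow _ _ (by omega)) hRA
    have hAr : (0 : ℝ) < (A : ℝ) := by exact_mod_cast hA
    set A' : ℕ := A / R ^ C1 with hA'
    have hpC1 : 0 < R ^ C1 := by positivity
    -- size of A'
    have hA'low : R ^ (C4 * Cg * C') ≤ A' := by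
      rw [hA', Nat.le_div_iff_mul_le hpC1, ← pow_add]
      exact le_trans (Nat.pow_le_pow_right hR1 (by omega)) hRA
    have hA'1 : 1 ≤ A' := le_trans (Nat.one_le_pow _ _ (by omega)) hA'low
    have hA'A : A' * R ^ C1 ≤ A := Nat.div_mul_le_self _ _
    have hA'le : A' ≤ A := Nat.div_le_self _ _
    have hAA' : A ≤ R ^ (C1 + 1) * A' := by
      have h1 : A < A' * R ^ C1 + R ^ C1 := by
        have := Nat.lt_div_mul_add (a := A) hpC1
        rwa [← hA'] at this
      have h2 : A' * R ^ C1 + R ^ C1 ≤ 2 * (A' * R ^ C1) := by nlinarith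
      calc A ≤ 2 * (A' * R ^ C1) := by omega
        _ ≤ R * (A' * R ^ C1) := Nat.mul_le_mul_right _ hR
        _ = R ^ (C1 + 1) * A' := by rw [pow_succ]; ring
    have hA'r : (0 : ℝ) < (A' : ℝ) := by exact_mod_cast hA'1
    -- the error
    set η : ℝ := 2 ^ r * (2 * ((n + 1 : ℕ) : ℝ) * A' / A) with hη
    have hη2 : η ≤ (1 / (R : ℝ)) ^ l / 2 := by
      have h1 : (A' : ℝ) / A ≤ 1 / (R : ℝ) ^ C1 := by
        rw [div_le_div_iff₀ hAr (by positivity)]
        rw [one_mul]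
        exact_mod_cast hA'A
      have h2 : η = (l : ℝ) * (2 * ((n + 1 : ℕ) : ℝ)) * ((A' : ℝ) / A) := by
        rw [hη, hl]
        push_cast
        ring
      have h3 : (l : ℝ) * (2 * ((n + 1 : ℕ) : ℝ)) ≤ (R : ℝ) ^ (2 * l * (n + 1)) := by
        have h4 : l * (2 * (n + 1)) ≤ 2 ^ (2 * l * (n + 1)) := by
          have := Nat.lt_two_pow_self (n := 2 * l * (n + 1))
          nlinarith
        calc (l : ℝ) * (2 * ((n + 1 : ℕ) : ℝ)) = ((l * (2 * (n + 1)) : ℕ) : ℝ) := by push_cast; ring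
          _ ≤ ((2 ^ (2 * l * (n + 1)) : ℕ) : ℝ) := by exact_mod_cast h4
          _ = (2 : ℝ) ^ (2 * l * (n + 1)) := by push_cast; ring
          _ ≤ (R : ℝ) ^ (2 * l * (n + 1)) := pow_le_pow_left₀ (by norm_num) hRr _
      rw [h2]
      calc (l : ℝ) * (2 * ((n + 1 : ℕ) : ℝ)) * ((A' : ℝ) / A)
          ≤ (R : ℝ) ^ (2 * l * (n + 1)) * (1 / (R : ℝ) ^ C1) := by
            apply mul_le_mul h3 h1 (by positivity) (by positivity)
        _ = 1 / ((R : ℝ) ^ l * R) := by
            rw [hC1, pow_add (R : ℝ) (l + 1) (2 * l * (n + 1)), pow_succ (R : ℝ) l]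
            field_simp
        _ ≤ (1 / (R : ℝ)) ^ l / 2 := by
            rw [one_div_pow, div_div]
            exact one_div_le_one_div_of_le (by positivity) (mul_le_mul_of_nonneg_left hRr (by positivity))
    have hpow0 : 0 < (1 / (R : ℝ)) ^ l := by positivity
    have e1 := H (n + 1) M τ Ω c0 cs' A A' hcs' hA hA'1 hΩ f hf (1 / (R : ℝ)) η (by positivity)
      (by simpa using h) rfl (by linarith)
    -- lower bound 1 / R ^ b
    have e2 : 1 / (R : ℝ) ^ b ≤ ((1 / (R : ℝ)) ^ l - η) ^ (2 ^ (l * (n + 1))) := by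
      have h1 : 1 / (R : ℝ) ^ (l + 1) ≤ (1 / (R : ℝ)) ^ l - η := by
        have h2 : 1 / (R : ℝ) ^ (l + 1) ≤ (1 / (R : ℝ)) ^ l / 2 := by
          rw [one_div_pow, div_div, pow_succ]
          exact one_div_le_one_div_of_le (by positivity) (mul_le_mul_of_nonneg_left hRr (by positivity))
        linarith
      calc 1 / (R : ℝ) ^ b = (1 / (R : ℝ) ^ (l + 1)) ^ (2 ^ (l * (n + 1))) := by
            rw [one_div_pow, ← pow_mul]
        _ ≤ _ := pow_le_pow_left₀ (by positivity) h1 _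
    -- the function of h and d
    set dirs : τ → List (ZMod M → ℝ) := fun h => cs'.map (fun c => fe A' (c h)) with hdirs
    have hPDd : ∀ h, ∀ μ ∈ dirs h, PD μ := by
      intro h μ hμ
      rw [hdirs, List.mem_map] at hμ
      obtain ⟨c, _, rfl⟩ := hμ
      exact PD_fe A' hA'1 _
    have hne : ∀ h, dirs h ≠ [] := by
      intro h h0
      have : (dirs h).length = n + 1 := by rw [hdirs, List.length_map, hcs']
      rw [h0] at this
      simp at this
    have hPDf : ∀ h : Fin l → τ, ∀ μ ∈ (List.ofFn h).flatMap dirs, PD μ := by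
      intro h μ hμ
      rw [List.mem_flatMap] at hμ
      obtain ⟨a, _, ha⟩ := hμ
      exact hPDd a μ ha
    set Φ : (Fin l → τ) → ZMod M → ℝ := fun h d => ‖BB ((List.ofFn h).flatMap dirs) (Dl d f)‖ with hΦ
    have hΦ0 : ∀ h d, 0 ≤ Φ h d := fun h d => norm_nonneg _
    have hΦ1 : ∀ h d, Φ h d ≤ 1 := fun h d => norm_BB_le _ (hPDf h) _ (Dl_Bd _ hf)
    have hk0 : ∑ ξ, kap Ω A c0 ξ ^ l ≤ (R : ℝ) ^ C0 := by
      have h1 := hk c0 (by simp) A le_rfl (Nat.le_mul_of_pos_left _ (by positivity))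
      rw [div_self hAr.ne', one_pow, mul_one, ← hl] at h1
      exact h1
    have e3 := densStep Ω hΩ c0 A l hA ε hε Φ hΦ0 hΦ1 (R : ℝ) hRr b C0 hk0 (e2.trans e1)
    rw [avr_eq_evr] at e3
    -- the good shifts
    have hR'2 : 2 ≤ R ^ C4 := le_trans hR (Nat.le_self_pow (by omega) R)
    have hgood : ∀ d : ZMod M, 1 / (R : ℝ) ^ (C0 + 2 * b + 2) / 2 ≤
        evr (Fintype.piFinset (fun _ : Fin l => Ω)) (fun h => Φ h d) →
        1 / (R : ℝ) ^ (C4 * Cg) ≤ UU (l * K') (Dl d f) := by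
      intro d hd
      have h1 : 1 / ((R ^ C4 : ℕ) : ℝ) ≤ evr (Fintype.piFinset (fun _ : Fin l => Ω)) (fun h => Φ h d) := by
        refine le_trans ?_ hd
        push_cast
        rw [div_div, hC4, pow_succ]
        exact one_div_le_one_div_of_le (by positivity) (mul_le_mul_of_nonneg_left hRr (by positivity))
      have h2 := HG M τ Ω hΩ dirs hne hPDd (R ^ C4) hR'2 ?_ (Dl d f) (Dl_Bd _ hf) h1
      · push_cast at h2
        rw [← pow_mul] at h2
        exact h2
      · intro R1 hR1a hR1b G hG hGa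
        have hRR1 : R ≤ R1 := le_trans (Nat.le_self_pow (by omega) R) hR1a
        have hR1c : R1 ^ C' ≤ R ^ (C4 * Cg * C') := by
          calc R1 ^ C' ≤ ((R ^ C4) ^ Cg) ^ C' := Nat.pow_le_pow_left hR1b _
            _ = R ^ (C4 * Cg * C') := by rw [← pow_mul, ← pow_mul, mul_assoc]
        refine IH M τ Ω cs' R1 A' hcs' hΩ (by omega) (hR1c.trans hA'low) ?_ G hG hGa
        intro c hc A'' hA''1 hA''2
        have hA''0 : 1 ≤ A'' := by
          by_contra h0
          have : A'' = 0 := by omega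
          rw [this, mul_zero] at hA''2
          omega
        have hA''r : (0 : ℝ) < (A'' : ℝ) := by exact_mod_cast hA''0
        have h3 : A ≤ R ^ (C1 + 1 + C4 * Cg * C' + C4 * Cg + C4) * A'' := by
          calc A ≤ R ^ (C1 + 1) * A' := hAA'
            _ ≤ R ^ (C1 + 1) * (R ^ (C4 * Cg * C') * A'') :=
                Nat.mul_le_mul_left _ (hA''2.trans (Nat.mul_le_mul_right _ hR1c))
            _ = R ^ (C1 + 1 + C4 * Cg * C') * A'' := by rw [pow_add]; ring
            _ ≤ _ := Nat.mul_le_mul_right _ (Nat.pow_le_pow_right hR1 (by omega))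
        have h4 := hk c (List.mem_cons_of_mem _ hc) A'' (hA''1.trans hA'le) h3
        refine h4.trans ?_
        have h5 : (A : ℝ) / A'' ≤ (R : ℝ) ^ (C1 + 1) * ((A' : ℝ) / A'') := by
          rw [← mul_div_assoc]
          refine div_le_div_of_nonneg_right ?_ hA''r.le
          exact_mod_cast hAA'
        calc (R : ℝ) ^ C0 * ((A : ℝ) / A'') ^ E
            ≤ (R : ℝ) ^ C0 * ((R : ℝ) ^ (C1 + 1) * ((A' : ℝ) / A'')) ^ E :=
              mul_le_mul_of_nonneg_left (pow_le_pow_left₀ (by positivity) h5 _) (by positivity)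
          _ = (R : ℝ) ^ (C0 + E * (C1 + 1)) * ((A' : ℝ) / A'') ^ E := by
              rw [mul_pow, ← pow_mul, pow_add, mul_comm E (C1 + 1)]
              ring
          _ ≤ (R1 : ℝ) ^ (C0 + E * (C1 + 1)) * ((A' : ℝ) / A'') ^ E := by
              refine mul_le_mul_of_nonneg_right ?_ (by positivity)
              exact pow_le_pow_left₀ hR0.le (by exact_mod_cast hRR1) _
    have hlK : 1 ≤ l * K' := by nlinarith
    have e4 := evr_pos univ
      (fun d : ZMod M => evr (Fintype.piFinset (fun _ : Fin l => Ω)) (fun h => Φ h d))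
      (fun d : ZMod M => UU (l * K') (Dl d f)) (1 / (R : ℝ) ^ (C0 + 2 * b + 2)) (1 / (R : ℝ) ^ (C4 * Cg))
      (fun d _ => evr_le _ zero_le_one fun h _ => hΦ1 h d) (fun d _ => UU_nonneg _ hlK _)
      (by positivity) (by positivity) e3 (fun d _ hd => hgood d hd)
    rw [UU_succ, avr_eq_evr]
    refine le_trans ?_ e4
    have h6 : (1 / (R : ℝ) ^ (C4 * Cg)) * (1 / (R : ℝ) ^ C4) ≤
        1 / (R : ℝ) ^ (C4 * Cg) * (1 / (R : ℝ) ^ (C0 + 2 * b + 2) / 2) := by
      refine mul_le_mul_of_nonneg_left ?_ (by positivity)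
      rw [div_div, hC4, pow_succ]
      exact one_div_le_one_div_of_le (by positivity) (mul_le_mul_of_nonneg_left hRr (by positivity))
    refine le_trans ?_ h6
    rw [div_mul_div_comm, one_mul, ← pow_add]
    refine one_div_le_one_div_of_le (by positivity) ?_
    exact pow_le_pow_right₀ (by linarith) (by omega)

end Pool.Agent.NLG
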