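import Pool.Agent.Lib.NLG.NTg
import Pool.Agent.Lib.NLT.MajLem

/-!
# Module Ker: moments of the kernels

PROOF of `ker_count`. Let `κ (ξ) = kap (Ω A) A' (c a) ξ ≥ 1 / K`, `K ≥ R`, `K ^ C ≤ A'`. At least `|Ω| / (2 K)` of the `h` have
`‖tv A' (fun i => chi ξ (c h i))‖ ^ 2 ≥ 1 / (2 K)`; since this norm is `≤ 1 / (2 A' nrm (c h ξ / M))` (geometric sum; NLT/Geo),
`nrm (c h ξ / M) ≤ K / A'`. `Exq` with `2 K`, `δ = K / A'`: `q ≤ (2 K) ^ C`, `nrm (q ξ / M) ≤ β = (2 K) ^ C K / (A' A ^ (D - 1))`. For each `q < M` the map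
`ξ ↦ q ξ` is injective on `ZMod M` and at most `2 β M + 1` residues `ρ` have `nrm (ρ / M) ≤ β`;
`β M ≤ (2 K) ^ C K R H ^ D / (A' A ^ (D - 1)) ≤ (2 K) ^ C K R ^ (D + 1) (A / A')` (`H ≤ R A`). Sum over `q ≤ (2 K) ^ C`: at most `K ^ C1 (A / A')` such `ξ`
(compare `card_Maj` in NLT/MajLem). `nrm` is invariant under integer translations: `c h ξ.val / M` and `(c h ξ).val / M`.
PROOF of `ker_sum`. `κ ≤ 1`. For `ξ` with `κ (ξ) > 0` let `K_ξ = ⌈1 / κ (ξ)⌉`, so `κ (ξ) ≥ 1 / K_ξ` and `κ (ξ) ≤ 2 / K_ξ`. (i) `K_ξ ≤ R`: at most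
`R ^ C1 (A / A')` such `ξ`, each contributes at most `1`. (ii) `K_ξ = K` with `R < K`, `K ^ C ≤ A'`: at most `K ^ C1 (A / A')` such `ξ`, contribution
`≤ K ^ C1 (2 / K) ^ (2 ^ r) (A / A') ≤ 2 ^ (2 ^ r) / K ^ 2 (A / A')` if `2 ^ r ≥ C1 + 2`; sum over `K` at most `2 ^ (2 ^ r) * 2 (A / A')`. (iii) the others:
`κ ≤ 2 / K0` where `K0` is maximal with `K0 ^ C ≤ A'`, so `A' ≤ (2 K0) ^ C`; in all `≤ M (2 / K0) ^ (2 ^ r) ≤ R ^ (D + 1) A ^ D (2 / K0) ^ (2 ^ r) ≤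
R ^ (D + 1) (A / A') ^ D (2 K0) ^ (C D) (2 / K0) ^ (2 ^ r) ≤ R ^ (D + 1) 2 ^ (C D + 2 ^ r) (A / A') ^ D` if `2 ^ r ≥ C D`. The sum is `≤ R ^ C' (A / A') ^ D`.
(The bound holds for every `r ≥ r0`; the constant `C` depends on `r`.)
-/

set_option autoImplicit false

open Finset

namespace Pool.Agent.NLG

open Pool.Agent.HLT Pool.Agent.NLT

namespace KerAux

lemma kap_nn {M : ℕ} [NeZero M] {τ : Type} (Ω : Finset τ) (A : ℕ) (c : τ → ZMod M) (ξ : ZMod M) :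
    0 ≤ kap Ω A c ξ := evr_nonneg Ω fun _ _ => by positivity

lemma kap_le {M : ℕ} [NeZero M] {τ : Type} (Ω : Finset τ) (A : ℕ) (c : τ → ZMod M) (ξ : ZMod M) :
    kap Ω A c ξ ≤ 1 := by
  unfold kap
  refine evr_le Ω zero_le_one fun h _ => ?_
  exact pow_le_one₀ (norm_nonneg _) (norm_tv_le_one A _ fun _ => (norm_chi _ _).le)

/-- Number of `ξ` such that `q ξ / M` is close to an integer for some small `q ≥ 1`. -/
lemma count_close (M Q B : ℕ) [Fact M.Prime] (hQM : Q < M) (hB : 1 ≤ B) (β : ℝ) (hβ : β * M ≤ B)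
    (S : Finset (ZMod M))
    (hS : ∀ ξ ∈ S, ∃ q : ℕ, 1 ≤ q ∧ q ≤ Q ∧ nrm ((q : ℝ) * ((ξ.val : ℝ) / M)) ≤ β) :
    S.card ≤ Q * (3 * B) := by
  classical
  have hMp : 0 < M := (Fact.out : M.Prime).pos
  have hMr : (0 : ℝ) < M := by exact_mod_cast hMp
  obtain ⟨J, hJ⟩ : ∃ J : Finset (ZMod M), J = (Finset.Icc (-(B : ℤ)) (B : ℤ)).image
      (fun j : ℤ => (j : ZMod M)) := ⟨_, rfl⟩
  have hJc : J.card ≤ 3 * B := by
    have h1 : J.card ≤ (Finset.Icc (-(B : ℤ)) (B : ℤ)).card := by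
      rw [hJ]
      exact Finset.card_image_le
    rw [Int.card_Icc] at h1
    omega
  have hsub : S ⊆ (Finset.Icc 1 Q).biUnion
      (fun q => univ.filter (fun ξ : ZMod M => ((q : ℕ) : ZMod M) * ξ ∈ J)) := by
    intro ξ hξ
    obtain ⟨q, hq1, hq2, hn⟩ := hS ξ hξ
    rw [Finset.mem_biUnion]
    refine ⟨q, Finset.mem_Icc.2 ⟨hq1, hq2⟩, ?_⟩
    rw [Finset.mem_filter]
    refine ⟨Finset.mem_univ _, ?_⟩
    rw [hJ, Finset.mem_image]
    refine ⟨((q * ξ.val : ℕ) : ℤ) - round ((q : ℝ) * ((ξ.val : ℝ) / (M : ℝ))) * (M : ℤ), ?_, ?_⟩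
    · rw [Finset.mem_Icc, ← abs_le]
      have h3 : |(((q * ξ.val : ℕ) : ℝ)) - (round ((q : ℝ) * ((ξ.val : ℝ) / (M : ℝ))) : ℝ) * (M : ℝ)| ≤
          (B : ℝ) := by
        have e : (((q * ξ.val : ℕ) : ℝ)) - (round ((q : ℝ) * ((ξ.val : ℝ) / (M : ℝ))) : ℝ) * (M : ℝ) =
            ((q : ℝ) * ((ξ.val : ℝ) / (M : ℝ)) - (round ((q : ℝ) * ((ξ.val : ℝ) / (M : ℝ))) : ℝ)) * (M : ℝ) := by
          push_cast
          field_simp
        rw [e, abs_mul, abs_of_pos hMr]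
        have hn' : |(q : ℝ) * ((ξ.val : ℝ) / (M : ℝ)) - (round ((q : ℝ) * ((ξ.val : ℝ) / (M : ℝ))) : ℝ)| ≤
            β := hn
        exact (mul_le_mul_of_nonneg_right hn' hMr.le).trans hβ
      exact_mod_cast h3
    · push_cast
      rw [ZMod.natCast_self, mul_zero, sub_zero, ZMod.natCast_zmod_val]
  have hcard : S.card ≤ ∑ q ∈ Finset.Icc 1 Q, J.card := by
    refine (Finset.card_le_card hsub).trans (Finset.card_biUnion_le.trans ?_)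
    refine Finset.sum_le_sum (fun q hq => ?_)
    rw [Finset.mem_Icc] at hq
    have hq0 : ((q : ℕ) : ZMod M) ≠ 0 := by
      intro h
      rw [ZMod.natCast_eq_zero_iff] at h
      have := Nat.le_of_dvd (by omega) h
      omega
    refine Finset.card_le_card_of_injOn (fun ξ => ((q : ℕ) : ZMod M) * ξ) ?_ ?_
    · intro ξ hξ
      exact (Finset.mem_filter.1 hξ).2
    · intro a _ b _ hab
      exact mul_left_cancel₀ hq0 hab
  rw [Finset.sum_const, Nat.card_Icc, smul_eq_mul, Nat.add_sub_cancel] at hcard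
  exact hcard.trans (Nat.mul_le_mul_left _ hJc)

/-- Number of large values of the kernel. -/
lemma ker_count {α τ : Type} (D : ℕ) (hD : 1 ≤ D) (sz : α → ℕ) (Ω : ℕ → Finset τ)
    (hΩ : ∀ A, 1 ≤ A → (Ω A).Nonempty)
    (c : α → τ → ℤ) (C0 : ℕ)
    (hc : ∀ (a : α) (A K : ℕ) (δ θ : ℝ), sz a ≤ K → 2 ≤ K → K ^ C0 ≤ A → 0 ≤ δ → δ * (K : ℝ) ^ C0 ≤ 1 →
      (Ω A).Nonempty →
      ((Ω A).card : ℝ) ≤ K * (((Ω A).filter (fun h => nrm (θ * (c a h : ℝ)) ≤ δ)).card : ℝ) →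
      ∃ q : ℕ, 1 ≤ q ∧ q ≤ K ^ C0 ∧ nrm ((q : ℝ) * θ) ≤ (K : ℝ) ^ C0 * δ / (A : ℝ) ^ (D - 1))
    (M : ℕ) [Fact M.Prime] (a : α) (R A A' H K : ℕ) (hsz : sz a ≤ R) (hR : 2 ≤ R) (hRK : R ≤ K)
    (hKA : K ^ (2 * C0 + 1) ≤ A') (hAA : A' ≤ A) (hAH : A ≤ H) (hHA : H ≤ R * A) (hM : H ^ D ≤ M)
    (hMH : M ≤ R * H ^ D) :
    ((univ.filter (fun ξ : ZMod M => 1 / (K : ℝ) ≤
      kap (Ω A) A' (fun h => ((c a h : ℤ) : ZMod M)) ξ)).card : ℝ) ≤ (K : ℝ) ^ (4 * C0 + D + 5) * ((A : ℝ) / A') := by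
  classical
  have hK2 : 2 ≤ K := hR.trans hRK
  have hK0 : 0 < K := by omega
  have hKr : (2 : ℝ) ≤ K := by exact_mod_cast hK2
  have hKr0 : (0 : ℝ) < K := by linarith
  have hA'0 : 0 < A' := lt_of_lt_of_le (pow_pos hK0 _) hKA
  have hA0 : 0 < A := by omega
  have hA'r : (0 : ℝ) < A' := by exact_mod_cast hA'0
  have hAr : (0 : ℝ) < A := by exact_mod_cast hA0
  have hMp : 0 < M := (Fact.out : M.Prime).pos
  have hMr : (0 : ℝ) < M := by exact_mod_cast hMp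
  have h2K : (2 * K) ^ C0 ≤ K ^ (2 * C0) := by
    rw [pow_mul]
    refine Nat.pow_le_pow_left ?_ _
    rw [sq]
    exact Nat.mul_le_mul_right _ hK2
  have hKA2 : K * (2 * K) ^ C0 ≤ A' := by
    calc K * (2 * K) ^ C0 ≤ K * K ^ (2 * C0) := Nat.mul_le_mul_left _ h2K
      _ = K ^ (2 * C0 + 1) := by ring
      _ ≤ A' := hKA
  have h2KA' : (2 * K) ^ C0 ≤ A' := (Nat.le_mul_of_pos_left _ hK0).trans hKA2
  have hQM : (2 * K) ^ C0 < M := by
    have h1 : (2 * K) ^ C0 < K * (2 * K) ^ C0 := by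
      have : 0 < (2 * K) ^ C0 := by positivity
      nlinarith
    have h2 : H ≤ H ^ D := Nat.le_self_pow (by omega) H
    omega
  -- the bound for the distance
  obtain ⟨T, hT⟩ : ∃ T, T = A / A' + 1 := ⟨_, rfl⟩
  have hT1 : (A : ℝ) / A' ≤ T := by
    rw [div_le_iff₀ hA'r]
    have h1 : A < A' * (A / A' + 1) := Nat.lt_mul_div_succ A hA'0
    have h2 : A ≤ T * A' := by
      rw [hT, mul_comm]
      exact h1.le
    exact_mod_cast h2
  have hT2 : (T : ℝ) ≤ 2 * ((A : ℝ) / A') := by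
    have h1 : ((A / A' : ℕ) : ℝ) ≤ (A : ℝ) / A' := Nat.cast_div_le
    have h2 : (1 : ℝ) ≤ (A : ℝ) / A' := by
      rw [one_le_div hA'r]
      exact_mod_cast hAA
    rw [hT]
    push_cast
    linarith
  have hT0 : 1 ≤ T := by
    rw [hT]
    exact Nat.le_add_left 1 _
  have hB : ((2 * K : ℕ) : ℝ) ^ C0 * ((K : ℝ) / A') / (A : ℝ) ^ (D - 1) * M ≤
      (((2 * K) ^ C0 * K ^ (D + 2) * T : ℕ) : ℝ) := by
    have hHD : (H : ℝ) ^ D ≤ (R : ℝ) ^ D * (A * (A : ℝ) ^ (D - 1)) := by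
      have h2 : (H : ℝ) ≤ R * A := by exact_mod_cast hHA
      obtain ⟨d, rfl⟩ : ∃ d, D = d + 1 := ⟨D - 1, by omega⟩
      rw [Nat.add_sub_cancel]
      calc (H : ℝ) ^ (d + 1) ≤ (R * A) ^ (d + 1) := pow_le_pow_left₀ (Nat.cast_nonneg _) h2 _
        _ = (R : ℝ) ^ (d + 1) * (A * (A : ℝ) ^ d) := by ring
    have hAT : (A : ℝ) ≤ A' * T := by
      rw [div_le_iff₀ hA'r] at hT1
      linarith
    have hMR : (M : ℝ) ≤ R * (H : ℝ) ^ D := by exact_mod_cast hMH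
    have hRKr : (R : ℝ) ≤ K := by exact_mod_cast hRK
    have hR0 : (0 : ℝ) ≤ R := Nat.cast_nonneg _
    have e1 : ((2 * K : ℕ) : ℝ) ^ C0 * ((K : ℝ) / A') / (A : ℝ) ^ (D - 1) * M =
        ((2 * K : ℕ) : ℝ) ^ C0 * K * M / (A' * (A : ℝ) ^ (D - 1)) := by
      field_simp
    rw [e1, div_le_iff₀ (by positivity)]
    calc ((2 * K : ℕ) : ℝ) ^ C0 * K * M ≤ ((2 * K : ℕ) : ℝ) ^ C0 * K * (R * (H : ℝ) ^ D) :=
          mul_le_mul_of_nonneg_left hMR (by positivity)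
      _ ≤ ((2 * K : ℕ) : ℝ) ^ C0 * K * (R * ((R : ℝ) ^ D * (A * (A : ℝ) ^ (D - 1)))) := by
          refine mul_le_mul_of_nonneg_left (mul_le_mul_of_nonneg_left hHD hR0) (by positivity)
      _ = ((2 * K : ℕ) : ℝ) ^ C0 * K * (R : ℝ) ^ (D + 1) * (A * (A : ℝ) ^ (D - 1)) := by ring
      _ ≤ ((2 * K : ℕ) : ℝ) ^ C0 * K * (K : ℝ) ^ (D + 1) * (A * (A : ℝ) ^ (D - 1)) := by
          refine mul_le_mul_of_nonneg_right ?_ (by positivity)
          exact mul_le_mul_of_nonneg_left (pow_le_pow_left₀ hR0 hRKr _) (by positivity)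
      _ ≤ ((2 * K : ℕ) : ℝ) ^ C0 * K * (K : ℝ) ^ (D + 1) * (A' * T * (A : ℝ) ^ (D - 1)) := by
          refine mul_le_mul_of_nonneg_left ?_ (by positivity)
          exact mul_le_mul_of_nonneg_right hAT (by positivity)
      _ = (((2 * K) ^ C0 * K ^ (D + 2) * T : ℕ) : ℝ) * (A' * (A : ℝ) ^ (D - 1)) := by
          push_cast
          ring
  have hmain := count_close M ((2 * K) ^ C0) ((2 * K) ^ C0 * K ^ (D + 2) * T) hQM
    (Nat.mul_pos (Nat.mul_pos (by positivity) (by positivity)) hT0) _ hB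
    (univ.filter (fun ξ : ZMod M => 1 / (K : ℝ) ≤
      kap (Ω A) A' (fun h => ((c a h : ℤ) : ZMod M)) ξ)) (by
    intro ξ hξ
    rw [Finset.mem_filter] at hξ
    have hk := hξ.2
    have hpop := evr_popular (Ω A) (fun h => ‖tv A' (fun i => chi ξ (((c a h : ℤ) : ZMod M) * (i : ZMod M)))‖ ^ 2)
      (fun h _ => pow_le_one₀ (norm_nonneg _) (norm_tv_le_one A' _ fun _ => (norm_chi _ _).le)) (1 / (K : ℝ)) hk
    have hne := hΩ A hA0
    rcases hpop with hpop | hpop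
    swap
    · exact absurd hpop hne.ne_empty
    have hcard : ((Ω A).card : ℝ) ≤ ((2 * K : ℕ) : ℝ) *
        (((Ω A).filter (fun h => nrm ((ξ.val : ℝ) / M * (c a h : ℝ)) ≤ (K : ℝ) / A')).card : ℝ) := by
      have hsubset : ((Ω A).filter (fun h => 1 / (K : ℝ) / 2 ≤
          ‖tv A' (fun i => chi ξ (((c a h : ℤ) : ZMod M) * (i : ZMod M)))‖ ^ 2)).card ≤
          ((Ω A).filter (fun h => nrm ((ξ.val : ℝ) / M * (c a h : ℝ)) ≤ (K : ℝ) / A')).card := by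
        refine Finset.card_le_card fun h hh => ?_
        rw [Finset.mem_filter] at hh ⊢
        refine ⟨hh.1, ?_⟩
        have h1 := chi_tv A' ξ (c a h) 0
        have h2 : (fun t : ℕ => chi ξ ((c a h * (t : ℤ) + 0 : ℤ) : ZMod M)) =
            (fun i : ℕ => chi ξ (((c a h : ℤ) : ZMod M) * (i : ZMod M))) := by
          funext t
          congr 1
          push_cast
          ring
        rw [h2] at h1
        have h3 := hh.2
        have h4 : ‖tv A' (fun i => chi ξ (((c a h : ℤ) : ZMod M) * (i : ZMod M)))‖ ≤ 1 :=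
          norm_tv_le_one A' _ fun _ => (norm_chi _ _).le
        have h5 : 1 / (K : ℝ) / 2 ≤ ‖tv A' (fun i => chi ξ (((c a h : ℤ) : ZMod M) * (i : ZMod M)))‖ := by
          refine h3.trans ?_
          rw [sq]
          exact mul_le_of_le_one_left (norm_nonneg _) h4
        have h6 : nrm ((ξ.val : ℝ) / M * (c a h : ℝ)) = nrm ((c a h : ℝ) * ((ξ.val : ℝ) / M)) := by
          rw [mul_comm]
        rw [h6, le_div_iff₀ hA'r]
        have h7 := nrm_nonneg ((c a h : ℝ) * ((ξ.val : ℝ) / M))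
        have h8 : 2 * (A' : ℝ) * nrm ((c a h : ℝ) * ((ξ.val : ℝ) / M)) * (1 / (K : ℝ) / 2) ≤ 1 :=
          (mul_le_mul_of_nonneg_left h5 (by positivity)).trans h1
        have h9 : 2 * (A' : ℝ) * nrm ((c a h : ℝ) * ((ξ.val : ℝ) / M)) * (1 / (K : ℝ) / 2) =
            nrm ((c a h : ℝ) * ((ξ.val : ℝ) / M)) * A' / K := by
          field_simp
        rw [h9, div_le_one hKr0] at h8
        exact h8
      have hs' : (((Ω A).filter (fun h => 1 / (K : ℝ) / 2 ≤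
          ‖tv A' (fun i => chi ξ (((c a h : ℤ) : ZMod M) * (i : ZMod M)))‖ ^ 2)).card : ℝ) ≤
          (((Ω A).filter (fun h => nrm ((ξ.val : ℝ) / M * (c a h : ℝ)) ≤ (K : ℝ) / A')).card : ℝ) := by
        exact_mod_cast hsubset
      have h10 : 1 / (K : ℝ) / 2 * ((Ω A).card : ℝ) ≤
          (((Ω A).filter (fun h => nrm ((ξ.val : ℝ) / M * (c a h : ℝ)) ≤ (K : ℝ) / A')).card : ℝ) :=
        hpop.trans hs'
      have h11 : 1 / (K : ℝ) / 2 * ((Ω A).card : ℝ) = ((Ω A).card : ℝ) / (2 * K) := by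
        field_simp
      rw [h11, div_le_iff₀ (by positivity)] at h10
      push_cast
      linarith
    refine hc a A (2 * K) ((K : ℝ) / A') ((ξ.val : ℝ) / M) (by omega) (by omega) (h2KA'.trans hAA) (by positivity)
      ?_ hne hcard
    rw [div_mul_eq_mul_div, div_le_one hA'r]
    exact_mod_cast hKA2)
  have h3 : 3 ≤ K ^ 2 := by nlinarith
  have h4 : (2 * K) ^ C0 * (3 * ((2 * K) ^ C0 * K ^ (D + 2) * T)) ≤ K ^ (4 * C0 + D + 4) * T := by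
    calc (2 * K) ^ C0 * (3 * ((2 * K) ^ C0 * K ^ (D + 2) * T))
        ≤ K ^ (2 * C0) * (K ^ 2 * (K ^ (2 * C0) * K ^ (D + 2) * T)) := by gcongr
      _ = K ^ (4 * C0 + D + 4) * T := by ring
  have h5 := hmain.trans h4
  have h6 : ((univ.filter (fun ξ : ZMod M => 1 / (K : ℝ) ≤
      kap (Ω A) A' (fun h => ((c a h : ℤ) : ZMod M)) ξ)).card : ℝ) ≤ (K : ℝ) ^ (4 * C0 + D + 4) * T := by
    exact_mod_cast h5
  refine h6.trans ?_
  have h7 : (0 : ℝ) ≤ (A : ℝ) / A' := by positivity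
  calc (K : ℝ) ^ (4 * C0 + D + 4) * T ≤ (K : ℝ) ^ (4 * C0 + D + 4) * (2 * ((A : ℝ) / A')) :=
        mul_le_mul_of_nonneg_left hT2 (by positivity)
    _ ≤ (K : ℝ) ^ (4 * C0 + D + 4) * (K * ((A : ℝ) / A')) :=
        mul_le_mul_of_nonneg_left (mul_le_mul_of_nonneg_right hKr h7) (by positivity)
    _ = (K : ℝ) ^ (4 * C0 + D + 5) * ((A : ℝ) / A') := by ring

/-- The pointwise decomposition. -/
lemma pointwise (x : ℝ) (hx0 : 0 ≤ x) (hx1 : x ≤ 1) (R K0 n : ℕ) (hR : 2 ≤ R) (hRK : R ≤ K0) :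
    x ^ n ≤ (if 1 / (R : ℝ) ≤ x then 1 else 0) +
      ∑ K ∈ Ioc R K0, (if 1 / (K : ℝ) ≤ x then (2 / (K : ℝ)) ^ n else 0) + (1 / (K0 : ℝ)) ^ n := by
  have hRr : (2 : ℝ) ≤ R := by exact_mod_cast hR
  have hK0r : (R : ℝ) ≤ K0 := by exact_mod_cast hRK
  have hsum : 0 ≤ ∑ K ∈ Ioc R K0, (if 1 / (K : ℝ) ≤ x then (2 / (K : ℝ)) ^ n else 0) := by
    refine Finset.sum_nonneg fun K _ => ?_
    split_ifs
    · positivity
    · exact le_refl _
  have h3 : 0 ≤ (1 / (K0 : ℝ)) ^ n := by positivity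
  rcases le_or_gt (1 / (R : ℝ)) x with h | h
  · rw [if_pos h]
    have : x ^ n ≤ 1 := pow_le_one₀ hx0 hx1
    linarith
  · rw [if_neg (not_le.2 h), zero_add]
    rcases le_or_gt (1 / (K0 : ℝ)) x with h' | h'
    · have hK0pos : (0 : ℝ) < K0 := by linarith
      have hxpos : 0 < x := lt_of_lt_of_le (by positivity) h'
      obtain ⟨K, hK⟩ : ∃ K : ℕ, K = ⌈1 / x⌉₊ := ⟨_, rfl⟩
      have hK1 : 1 / x ≤ (K : ℝ) := by rw [hK]; exact Nat.le_ceil _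
      have hK2 : (K : ℝ) < 1 / x + 1 := by rw [hK]; exact Nat.ceil_lt_add_one (by positivity)
      have hRK' : R < K := by
        have h5 : (R : ℝ) < 1 / x := by
          rw [lt_div_iff₀ hxpos]
          rw [lt_div_iff₀ (by linarith)] at h
          linarith
        have : (R : ℝ) < K := lt_of_lt_of_le h5 hK1
        exact_mod_cast this
      have hKK0 : K ≤ K0 := by
        rw [hK]
        refine Nat.ceil_le.2 ?_
        rw [div_le_iff₀ hxpos]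
        rw [div_le_iff₀ (by linarith)] at h'
        linarith
      have hKpos : (0 : ℝ) < K := by
        have : (R : ℝ) < K := by exact_mod_cast hRK'
        linarith
      have hxK : 1 / (K : ℝ) ≤ x := by
        rw [div_le_iff₀ hKpos]
        rw [div_le_iff₀ hxpos] at hK1
        linarith
      have hx2 : x ≤ 2 / (K : ℝ) := by
        rw [le_div_iff₀ hKpos]
        have h6 : x * K ≤ x * (1 / x + 1) := mul_le_mul_of_nonneg_left hK2.le hx0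
        have h7 : x * (1 / x + 1) = 1 + x := by field_simp
        linarith
      have hterm : (if 1 / (K : ℝ) ≤ x then (2 / (K : ℝ)) ^ n else 0) ≤
          ∑ K ∈ Ioc R K0, (if 1 / (K : ℝ) ≤ x then (2 / (K : ℝ)) ^ n else 0) := by
        refine Finset.single_le_sum (f := fun K : ℕ => (if 1 / (K : ℝ) ≤ x then (2 / (K : ℝ)) ^ n else 0))
          (fun K _ => ?_) (Finset.mem_Ioc.2 ⟨hRK', hKK0⟩)
        show (0 : ℝ) ≤ (if 1 / (K : ℝ) ≤ x then (2 / (K : ℝ)) ^ n else 0)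
        split_ifs
        · positivity
        · exact le_refl _
      rw [if_pos hxK] at hterm
      have : x ^ n ≤ (2 / (K : ℝ)) ^ n := pow_le_pow_left₀ hx0 hx2 n
      linarith
    · have : x ^ n ≤ (1 / (K0 : ℝ)) ^ n := pow_le_pow_left₀ hx0 h'.le n
      linarith

end KerAux

open KerAux

theorem kap_nonneg {M : ℕ} [NeZero M] {τ : Type} (Ω : Finset τ) (A : ℕ) (c : τ → ZMod M) (ξ : ZMod M) :
    0 ≤ kap Ω A c ξ := kap_nn Ω A c ξ

theorem kap_le_one {M : ℕ} [NeZero M] {τ : Type} (Ω : Finset τ) (A : ℕ) (c : τ → ZMod M) (ξ : ZMod M) :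
    kap Ω A c ξ ≤ 1 := kap_le Ω A c ξ

theorem ker_sum {α τ : Type} (D : ℕ) (hD : 1 ≤ D) (sz : α → ℕ) (Ω : ℕ → Finset τ) (hΩ : ∀ A, 1 ≤ A → (Ω A).Nonempty)
    (c : α → τ → ℤ) (hc : Exq sz Ω (D - 1) c) :
    ∃ r0 : ℕ, ∀ r, r0 ≤ r → ∃ C : ℕ, ∀ (M : ℕ) [Fact M.Prime] (a : α) (R A A' H : ℕ), sz a ≤ R → 2 ≤ R → R ^ C ≤ A' → A' ≤ A →
      A ≤ H → H ≤ R * A → H ^ D ≤ M → M ≤ R * H ^ D →
      ∑ ξ : ZMod M, kap (Ω A) A' (fun h => ((c a h : ℤ) : ZMod M)) ξ ^ (2 ^ r) ≤ (R : ℝ) ^ C * ((A : ℝ) / A') ^ D := by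
  classical
  obtain ⟨C0, hC0⟩ := hc
  obtain ⟨C1, hC1⟩ : ∃ C1, C1 = 4 * C0 + D + 5 := ⟨_, rfl⟩
  obtain ⟨C2, hC2⟩ : ∃ C2, C2 = 2 * C0 + 1 := ⟨_, rfl⟩
  refine ⟨C1 + 2 + 2 * C2 * D, fun r hr => ?_⟩
  obtain ⟨n, hn⟩ : ∃ n, n = 2 ^ r := ⟨_, rfl⟩
  have hrn : r < n := by rw [hn]; exact Nat.lt_two_pow_self
  have hn1 : C1 + 2 ≤ n := by
    have : C1 + 2 ≤ C1 + 2 + 2 * C2 * D := Nat.le_add_right _ _
    omega
  have hn2 : 2 * C2 * D ≤ n := by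
    have : 2 * C2 * D ≤ C1 + 2 + 2 * C2 * D := Nat.le_add_left _ _
    omega
  have hn0 : 1 ≤ n := by omega
  refine ⟨C1 + n + D + 3 + C2, ?_⟩
  intro M _ a R A A' H hsz hR hRA hAA hAH hHA hM hMH
  rw [← hn]
  have hR0 : 0 < R := by omega
  have hRr : (2 : ℝ) ≤ R := by exact_mod_cast hR
  have hRr1 : (1 : ℝ) ≤ R := by linarith
  have hMp : 0 < M := (Fact.out : M.Prime).pos
  -- the threshold
  obtain ⟨K0, hK0R, hK0A, hK0n⟩ : ∃ K0 : ℕ, R ≤ K0 ∧ K0 ^ C2 ≤ A' ∧ A' < (K0 + 1) ^ C2 := by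
    have hex : ∃ k, A' < (k + 1) ^ C2 := ⟨A', by
      calc A' < A' + 1 := Nat.lt_succ_self _
        _ ≤ (A' + 1) ^ C2 := Nat.le_self_pow (by omega) _⟩
    have hRC : R ^ C2 ≤ A' := (Nat.pow_le_pow_right hR0 (by omega)).trans hRA
    have hfind := Nat.find_spec hex
    have hRfind : R ≤ Nat.find hex := by
      by_contra hlt
      have h1 : Nat.find hex + 1 ≤ R := by omega
      have h2 : (Nat.find hex + 1) ^ C2 ≤ R ^ C2 := Nat.pow_le_pow_left h1 _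
      omega
    refine ⟨Nat.find hex, hRfind, ?_, hfind⟩
    have hpos : 0 < Nat.find hex := by omega
    have hmin := Nat.find_min hex (m := Nat.find hex - 1) (by omega)
    rw [not_lt, Nat.sub_add_cancel hpos] at hmin
    exact hmin
  have hK02 : 2 ≤ K0 := hR.trans hK0R
  have hK0r : (2 : ℝ) ≤ K0 := by exact_mod_cast hK02
  obtain ⟨κ, hκ⟩ : ∃ κ : ZMod M → ℝ, κ = kap (Ω A) A' (fun h => ((c a h : ℤ) : ZMod M)) := ⟨_, rfl⟩
  rw [← hκ]
  have hκ0 : ∀ ξ, 0 ≤ κ ξ := fun ξ => by rw [hκ]; exact kap_nn _ _ _ _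
  have hκ1 : ∀ ξ, κ ξ ≤ 1 := fun ξ => by rw [hκ]; exact kap_le _ _ _ _
  have hA'0 : 0 < A' := lt_of_lt_of_le (pow_pos (by omega : 0 < K0) C2) hK0A
  have hA'r : (0 : ℝ) < A' := by exact_mod_cast hA'0
  obtain ⟨lam, hlam⟩ : ∃ lam : ℝ, lam = (A : ℝ) / A' := ⟨_, rfl⟩
  have hlam1 : 1 ≤ lam := by
    rw [hlam, one_le_div hA'r]
    exact_mod_cast hAA
  have hlamD : lam ≤ lam ^ D := le_self_pow₀ hlam1 (by omega)
  rw [← hlam]
  have hcount : ∀ K, R ≤ K → K ≤ K0 → ((univ.filter (fun ξ : ZMod M => 1 / (K : ℝ) ≤ κ ξ)).card : ℝ) ≤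
      (K : ℝ) ^ C1 * lam := by
    intro K h1 h2
    have h3 : K ^ (2 * C0 + 1) ≤ A' := by
      rw [← hC2]
      exact (Nat.pow_le_pow_left h2 _).trans hK0A
    have h4 := ker_count D hD sz Ω hΩ c C0 hC0 M a R A A' H K hsz hR h1 h3 hAA hAH hHA hM hMH
    rw [← hκ, ← hC1, ← hlam] at h4
    exact h4
  have hstep : ∑ ξ : ZMod M, κ ξ ^ n ≤ (R : ℝ) ^ C1 * lam +
      ∑ K ∈ Ioc R K0, (2 / (K : ℝ)) ^ n * ((K : ℝ) ^ C1 * lam) + M * (1 / (K0 : ℝ)) ^ n := by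
    calc ∑ ξ : ZMod M, κ ξ ^ n ≤ ∑ ξ : ZMod M, ((if 1 / (R : ℝ) ≤ κ ξ then 1 else 0) +
          ∑ K ∈ Ioc R K0, (if 1 / (K : ℝ) ≤ κ ξ then (2 / (K : ℝ)) ^ n else 0) + (1 / (K0 : ℝ)) ^ n) :=
          Finset.sum_le_sum fun ξ _ => pointwise (κ ξ) (hκ0 ξ) (hκ1 ξ) R K0 n hR hK0R
      _ = ((univ.filter (fun ξ : ZMod M => 1 / (R : ℝ) ≤ κ ξ)).card : ℝ) +
          ∑ K ∈ Ioc R K0, (2 / (K : ℝ)) ^ n * ((univ.filter (fun ξ : ZMod M => 1 / (K : ℝ) ≤ κ ξ)).card : ℝ) +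
          M * (1 / (K0 : ℝ)) ^ n := by
          rw [Finset.sum_add_distrib, Finset.sum_add_distrib, Finset.sum_comm]
          congr 1
          · congr 1
            · rw [Finset.sum_ite, Finset.sum_const, Finset.sum_const_zero, add_zero, nsmul_eq_mul, mul_one]
            · refine Finset.sum_congr rfl fun K _ => ?_
              rw [Finset.sum_ite, Finset.sum_const, Finset.sum_const_zero, add_zero, nsmul_eq_mul, mul_comm]
          · rw [Finset.sum_const, Finset.card_univ, ZMod.card, nsmul_eq_mul]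
      _ ≤ _ := by
          refine add_le_add (add_le_add (hcount R le_rfl hK0R) (Finset.sum_le_sum fun K hK => ?_)) le_rfl
          rw [Finset.mem_Ioc] at hK
          exact mul_le_mul_of_nonneg_left (hcount K hK.1.le hK.2) (by positivity)
  have hmid : ∑ K ∈ Ioc R K0, (2 / (K : ℝ)) ^ n * (K : ℝ) ^ C1 ≤ (R : ℝ) ^ n := by
    have h1 : ∀ K ∈ Ioc R K0, (2 / (K : ℝ)) ^ n * (K : ℝ) ^ C1 ≤ 2 ^ n * ((K : ℝ) ^ 2)⁻¹ := by
      intro K hK
      rw [Finset.mem_Ioc] at hK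
      have hKr : (1 : ℝ) ≤ K := by
        have : 1 ≤ K := by omega
        exact_mod_cast this
      have hKpos : (0 : ℝ) < K := by linarith
      rw [div_pow, div_mul_eq_mul_div, ← div_eq_mul_inv, div_le_div_iff₀ (by positivity) (by positivity)]
      rw [mul_assoc, ← pow_add]
      exact mul_le_mul_of_nonneg_left (pow_le_pow_right₀ hKr hn1) (by positivity)
    refine (Finset.sum_le_sum h1).trans ?_
    rw [← Finset.mul_sum]
    have h2 := sum_Ioc_inv_sq_le_sub (α := ℝ) (k := R) (n := K0) (by omega) hK0R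
    have h3 : ∑ i ∈ Ioc R K0, ((i : ℝ) ^ 2)⁻¹ ≤ 1 := by
      refine h2.trans ?_
      have h4 : (R : ℝ)⁻¹ ≤ 1 := inv_le_one_of_one_le₀ hRr1
      have h5 : (0 : ℝ) ≤ (K0 : ℝ)⁻¹ := by positivity
      linarith
    calc 2 ^ n * ∑ i ∈ Ioc R K0, ((i : ℝ) ^ 2)⁻¹ ≤ 2 ^ n * 1 := mul_le_mul_of_nonneg_left h3 (by positivity)
      _ = 2 ^ n := mul_one _
      _ ≤ (R : ℝ) ^ n := pow_le_pow_left₀ (by norm_num) hRr n
  have hmid' : ∑ K ∈ Ioc R K0, (2 / (K : ℝ)) ^ n * ((K : ℝ) ^ C1 * lam) ≤ (R : ℝ) ^ n * lam := by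
    have e : ∑ K ∈ Ioc R K0, (2 / (K : ℝ)) ^ n * ((K : ℝ) ^ C1 * lam) =
        (∑ K ∈ Ioc R K0, (2 / (K : ℝ)) ^ n * (K : ℝ) ^ C1) * lam := by
      rw [Finset.sum_mul]
      exact Finset.sum_congr rfl fun K _ => by ring
    rw [e]
    exact mul_le_mul_of_nonneg_right hmid (by linarith)
  have hlast : (M : ℝ) * (1 / (K0 : ℝ)) ^ n ≤ (R : ℝ) ^ (D + 1) * lam ^ D := by
    have h1 : (A' : ℝ) ≤ (K0 : ℝ) ^ (2 * C2) := by
      have h2 : A' ≤ K0 ^ (2 * C2) := by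
        rw [pow_mul]
        refine hK0n.le.trans (Nat.pow_le_pow_left ?_ _)
        nlinarith
      exact_mod_cast h2
    have hMR : (M : ℝ) ≤ R * (H : ℝ) ^ D := by exact_mod_cast hMH
    have hHR : (H : ℝ) ≤ R * A := by exact_mod_cast hHA
    have hAl : (A : ℝ) = lam * A' := by
      rw [hlam]
      field_simp
    rw [one_div, inv_pow, ← div_eq_mul_inv, div_le_iff₀ (by positivity)]
    calc (M : ℝ) ≤ R * (H : ℝ) ^ D := hMR
      _ ≤ R * (R * A) ^ D := mul_le_mul_of_nonneg_left (pow_le_pow_left₀ (Nat.cast_nonneg _) hHR _) (by linarith)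
      _ = (R : ℝ) ^ (D + 1) * lam ^ D * (A' : ℝ) ^ D := by
          rw [hAl]
          ring
      _ ≤ (R : ℝ) ^ (D + 1) * lam ^ D * ((K0 : ℝ) ^ (2 * C2)) ^ D :=
          mul_le_mul_of_nonneg_left (pow_le_pow_left₀ (Nat.cast_nonneg _) h1 _) (by positivity)
      _ = (R : ℝ) ^ (D + 1) * lam ^ D * (K0 : ℝ) ^ (2 * C2 * D) := by rw [← pow_mul]
      _ ≤ (R : ℝ) ^ (D + 1) * lam ^ D * (K0 : ℝ) ^ n :=
          mul_le_mul_of_nonneg_left (pow_le_pow_right₀ (by linarith) hn2) (by positivity)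
  have hfin : (R : ℝ) ^ C1 + (R : ℝ) ^ n + (R : ℝ) ^ (D + 1) ≤ (R : ℝ) ^ (C1 + n + D + 3 + C2) := by
    obtain ⟨E, hE⟩ : ∃ E, E = C1 + n + D + 1 := ⟨_, rfl⟩
    have e1 : (R : ℝ) ^ C1 ≤ (R : ℝ) ^ E := pow_le_pow_right₀ hRr1 (by omega)
    have e2 : (R : ℝ) ^ n ≤ (R : ℝ) ^ E := pow_le_pow_right₀ hRr1 (by omega)
    have e3 : (R : ℝ) ^ (D + 1) ≤ (R : ℝ) ^ E := pow_le_pow_right₀ hRr1 (by omega)
    have e4 : 3 * (R : ℝ) ^ E ≤ (R : ℝ) ^ 2 * (R : ℝ) ^ E :=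
      mul_le_mul_of_nonneg_right (by nlinarith) (by positivity)
    have e5 : (R : ℝ) ^ 2 * (R : ℝ) ^ E ≤ (R : ℝ) ^ (C1 + n + D + 3 + C2) := by
      rw [← pow_add]
      exact pow_le_pow_right₀ hRr1 (by omega)
    linarith
  have hR1 : (R : ℝ) ^ C1 * lam ≤ (R : ℝ) ^ C1 * lam ^ D := mul_le_mul_of_nonneg_left hlamD (by positivity)
  have hR2 : (R : ℝ) ^ n * lam ≤ (R : ℝ) ^ n * lam ^ D := mul_le_mul_of_nonneg_left hlamD (by positivity)
  have hR3 : ((R : ℝ) ^ C1 + (R : ℝ) ^ n + (R : ℝ) ^ (D + 1)) * lam ^ D ≤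
      (R : ℝ) ^ (C1 + n + D + 3 + C2) * lam ^ D := mul_le_mul_of_nonneg_right hfin (by positivity)
  calc ∑ ξ : ZMod M, κ ξ ^ n ≤ _ := hstep
    _ ≤ (R : ℝ) ^ C1 * lam ^ D + (R : ℝ) ^ n * lam ^ D + (R : ℝ) ^ (D + 1) * lam ^ D := by
        refine add_le_add (add_le_add hR1 (hmid'.trans hR2)) hlast
    _ = ((R : ℝ) ^ C1 + (R : ℝ) ^ n + (R : ℝ) ^ (D + 1)) * lam ^ D := by ring
    _ ≤ _ := hR3

end Pool.Agent.NLG
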