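import Pool.Agent.Lib.NLG.PetB
import Mathlib.Data.Multiset.DershowitzManna

/-!
# Module PetI: PET induction

`pet`: every family which satisfies `StageStart` (`1 ≤ e ≤ D`) is controlled. PROOF by induction on `e`. `e = 1`: `good_lin`. Let `e ≥ 2` and
assume the claim for `e - 1` (all `τ`, `Ω`, `Qs`, `L`).

INNER STATE `Inner e Qs cls Cl`: `cls : List (ℕ × List leaf)` (classes with their levels), `Cl : List leaf` (the class of `Qs`):
(v0) `natDegree Qs ≤ e`, `Exq (D - e) (Qs.coeff e)`;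
(v1) for `(r, B) ∈ cls`: `1 ≤ r ≤ e`, `B ≠ []`; for `Q ∈ B`: `natDegree Q ≤ r`, `Exq (D - e) (Qs.coeff e - Q.coeff e)`; for `Q, Q' ∈ B`:
     `natDegree (Q - Q') ≤ r - 1`;
(v2) for `Q ∈ Cl`: `natDegree (Qs - Q) ≤ e - 1`, `Exq (D - (e - 1)) ((Qs - Q).coeff (e - 1))`.
CLAIM: `Inner e Qs cls Cl → GoodF sz D Ω Qs (cls.flatMap Prod.snd ++ Cl)`, for all `τ`, `Ω`, by well-founded induction on the multiset of the levels
`cls.map Prod.fst` (Dershowitz-Manna order, `Multiset.wellFounded_isDershowitzMannaLT`). `StageStart e` is the case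
`cls = L.map (fun Q => (e, [Q]))`, `Cl = []`.
(A) `cls = []`: `good_s2` with `L = Cl`; the new family satisfies `StageStart` for `e - 1`: `Qs' = lt0 Qs - lt1 Qs` has degree `≤ e - 1`
(`natDegree_cross` with `Q = Q' = Qs`) and exact coefficient of index `e - 1` (`x2` with `Q = Qs`); a leaf `lt0 Q - lt1 Qs` has degree `≤ e - 1`
(`natDegree_cross`; `natDegree (Q - Qs) ≤ e - 1`) and `Qs' - leaf = lt0 Qs - lt0 Q` (`x3`); a leaf `lt1 Q - lt1 Qs = lt1 (Q - Qs)` has degree `≤ e - 1` and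
`Qs' - leaf = lt0 Qs - lt1 Q` (`x2`).
(B) `cls ≠ []`: choose `(r, B)` with minimal `r` and permute (`good_perm`): `cls = (r, Q1 :: B') :: cls'`. Apply `good_s1` with the pivot `Q1`, the
rest `B' ++ cls'.flatMap snd ++ Cl`. Put `Qs' = lt0 Qs - lt0 Q1` and for a leaf `Q`: `Q^0 = lt0 Q - lt0 Q1`, `Q^1 = lt1 Q - lt0 Q1`. The new list is, up to
a permutation: `[Qs^1] ++ Cl^0 ++ Cl^1` (new `Cl'`), `[Q1^1] ++ B'^0 ++ B'^1` (new single leaves), and `(B'')^0 ++ (B'')^1` for every class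
`(r', B'') ∈ cls'` (new class of level `r'`). If `r ≥ 2`, the new single leaves are classes `(r - 1, [leaf])`; if `r = 1` they have degree `0` and are
absorbed (`good_absorb`). The new multiset of levels: one `r` is replaced by copies of `r - 1` (or by nothing): smaller.
New (v0): `natDegree Qs' ≤ e`, coefficient of index `e` of `Qs'` is that of `Qs - Q1` (`x1`). Differences: `Qs' - Q^0 = lt0 Qs - lt0 Q`,
`Qs' - Q^1 = lt0 Qs - lt1 Q`: coefficient of index `e` by `x1` (all leaves of classes), coefficient of index `e - 1` by `x3`, `x2` (leaves of `Cl` and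
`Qs^1`; degree `≤ e - 1` by `natDegree_cross`, using `Qs` in the role of `Q'` after a change of sign). Degrees: for `Q ∈ B''`: `natDegree Q^i ≤ max r' r = r'`;
for `Q, Q' ∈ B''`: `Q^i - Q'^j = lt_i Q - lt_j Q'` has degree `≤ r' - 1` (`natDegree_cross`, `natDegree Q' ≤ r'`); for `Q ∈ B'` or `Q = Q1`:
`natDegree Q^i ≤ r - 1` (same, `Q' = Q1`).
-/

set_option autoImplicit false

open Finset Polynomial

namespace Pool.Agent.NLG

open Pool.Agent.HLT Pool.Agent.NLT

namespace PetIAux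

variable {α τ : Type}

/-- Inner state of the induction. -/
structure Inner (sz : α → ℕ) (D e : ℕ) (Ω : ℕ → Finset τ) (Qs : α → τ → ℤ[X])
    (cls : List (ℕ × List (α → τ → ℤ[X]))) (Cl : List (α → τ → ℤ[X])) : Prop where
  d0 : ∀ a h, (Qs a h).natDegree ≤ e
  x0 : Exq sz Ω (D - e) (fun a h => (Qs a h).coeff e)
  r1 : ∀ c ∈ cls, 1 ≤ c.1
  r2 : ∀ c ∈ cls, c.1 ≤ e
  ne : ∀ c ∈ cls, c.2 ≠ []
  d1 : ∀ c ∈ cls, ∀ Q ∈ c.2, ∀ a h, (Q a h).natDegree ≤ c.1
  x1 : ∀ c ∈ cls, ∀ Q ∈ c.2, Exq sz Ω (D - e) (fun a h => (Qs a h).coeff e - (Q a h).coeff e)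
  dd : ∀ c ∈ cls, ∀ Q ∈ c.2, ∀ Q' ∈ c.2, ∀ a h, (Q a h - Q' a h).natDegree ≤ c.1 - 1
  d2 : ∀ Q ∈ Cl, ∀ a h, (Qs a h - Q a h).natDegree ≤ e - 1
  x2 : ∀ Q ∈ Cl, Exq sz Ω (D - (e - 1)) (fun a h => (Qs a h - Q a h).coeff (e - 1))

theorem Inner.perm {sz : α → ℕ} {D e : ℕ} {Ω : ℕ → Finset τ} {Qs : α → τ → ℤ[X]}
    {cls cls' : List (ℕ × List (α → τ → ℤ[X]))} {Cl : List (α → τ → ℤ[X])} (h : Inner sz D e Ω Qs cls Cl)
    (hp : ∀ c ∈ cls', c ∈ cls) : Inner sz D e Ω Qs cls' Cl :=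
  ⟨h.d0, h.x0, fun c hc => h.r1 c (hp c hc), fun c hc => h.r2 c (hp c hc), fun c hc => h.ne c (hp c hc),
    fun c hc => h.d1 c (hp c hc), fun c hc => h.x1 c (hp c hc), fun c hc => h.dd c (hp c hc), h.d2, h.x2⟩

theorem flat_single {β : Type} (n : ℕ) : ∀ L : List β, (L.map (fun Q => (n, [Q]))).flatMap Prod.snd = L
  | [] => rfl
  | Q :: L => by
    rw [List.map_cons, List.flatMap_cons, flat_single n L]
    rfl

theorem exists_min : ∀ (cls : List (ℕ × List (α → τ → ℤ[X]))), cls ≠ [] → ∃ c ∈ cls, ∀ c' ∈ cls, c.1 ≤ c'.1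
  | [], h => absurd rfl h
  | c :: l, _ => by
    by_cases hl : l = []
    · subst hl
      exact ⟨c, by simp, by simp⟩
    · obtain ⟨c1, h1, h2⟩ := exists_min l hl
      rcases Nat.le_total c.1 c1.1 with h | h
      · refine ⟨c, by simp, ?_⟩
        intro c' hc'
        rcases List.mem_cons.mp hc' with h3 | h3
        · rw [h3]
        · exact h.trans (h2 c' h3)
      · refine ⟨c1, by simp [h1], ?_⟩
        intro c' hc'
        rcases List.mem_cons.mp hc' with h3 | h3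
        · rw [h3]
          exact h
        · exact h2 c' h3

theorem absorb (sz : α → ℕ) (D : ℕ) (Ω : ℕ → Finset τ) (Qs : α → τ → ℤ[X]) (L : List (α → τ → ℤ[X]))
    (hL : GoodF sz D Ω Qs L) : ∀ S : List (α → τ → ℤ[X]), (∀ Q ∈ S, ∀ a h, (Q a h).natDegree = 0) →
      GoodF sz D Ω Qs (S ++ L)
  | [], _ => hL
  | Q :: S, h => good_absorb sz D Ω Qs Q (S ++ L) (h Q (by simp))
      (absorb sz D Ω Qs L hL S (fun Q' hQ' => h Q' (by simp [hQ'])))

/-- The shifted leaves. -/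
noncomputable def s0 (Q1 Q : α → τ → ℤ[X]) : α → τ × (ℕ × ℕ) → ℤ[X] := fun a p => lt0 Q a p - lt0 Q1 a p

/-- The shifted leaves. -/
noncomputable def s1 (Q1 Q : α → τ → ℤ[X]) : α → τ × (ℕ × ℕ) → ℤ[X] := fun a p => lt1 Q a p - lt0 Q1 a p

/-- The single leaves of the new family. -/
noncomputable def sing (Q1 : α → τ → ℤ[X]) (B : List (α → τ → ℤ[X])) : List (α → τ × (ℕ × ℕ) → ℤ[X]) :=
  s1 Q1 Q1 :: (B.map (s0 Q1) ++ B.map (s1 Q1))

/-- A new class. -/
noncomputable def ncl (Q1 : α → τ → ℤ[X]) (c : ℕ × List (α → τ → ℤ[X])) : ℕ × List (α → τ × (ℕ × ℕ) → ℤ[X]) :=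
  (c.1, c.2.map (s0 Q1) ++ c.2.map (s1 Q1))

/-- The new class of the root. -/
noncomputable def nCl (Qs Q1 : α → τ → ℤ[X]) (Cl : List (α → τ → ℤ[X])) : List (α → τ × (ℕ × ℕ) → ℤ[X]) :=
  s1 Q1 Qs :: (Cl.map (s0 Q1) ++ Cl.map (s1 Q1))

theorem perm_new (Qs Q1 : α → τ → ℤ[X]) (B : List (α → τ → ℤ[X])) (cls : List (ℕ × List (α → τ → ℤ[X])))
    (Cl : List (α → τ → ℤ[X])) :
    (sing Q1 B ++ ((cls.map (ncl Q1)).flatMap Prod.snd ++ nCl Qs Q1 Cl)).Perm
      (s1 Q1 Qs :: s1 Q1 Q1 :: ((B ++ cls.flatMap Prod.snd ++ Cl).map (s0 Q1) ++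
        (B ++ cls.flatMap Prod.snd ++ Cl).map (s1 Q1))) := by
  have e1 : ((cls.map (ncl Q1)).flatMap Prod.snd).Perm
      ((cls.flatMap Prod.snd).map (s0 Q1) ++ (cls.flatMap Prod.snd).map (s1 Q1)) := by
    rw [List.flatMap_map, List.map_flatMap, List.map_flatMap]
    exact (List.flatMap_append_perm cls _ _).symm
  have e2 : (((cls.map (ncl Q1)).flatMap Prod.snd : List (α → τ × (ℕ × ℕ) → ℤ[X])) : Multiset (α → τ × (ℕ × ℕ) → ℤ[X])) =
      ((cls.flatMap Prod.snd).map (s0 Q1) : List (α → τ × (ℕ × ℕ) → ℤ[X])) +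
        (((cls.flatMap Prod.snd).map (s1 Q1) : List (α → τ × (ℕ × ℕ) → ℤ[X])) : Multiset (α → τ × (ℕ × ℕ) → ℤ[X])) := by
    rw [Multiset.coe_add]
    exact Multiset.coe_eq_coe.mpr e1
  rw [← Multiset.coe_eq_coe]
  unfold sing nCl
  simp only [List.map_append, ← Multiset.coe_add, ← Multiset.cons_coe, ← Multiset.singleton_add, e2]
  abel

theorem inner_new {sz : α → ℕ} {D e r : ℕ} {Ω : ℕ → Finset τ} {Qs Q1 : α → τ → ℤ[X]} {B : List (α → τ → ℤ[X])}
    {cls : List (ℕ × List (α → τ → ℤ[X]))} {Cl : List (α → τ → ℤ[X])} (he : 1 ≤ e) (heD : e ≤ D)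
    (h : Inner sz D e Ω Qs ((r, Q1 :: B) :: cls) Cl) (hr : ∀ c ∈ cls, r ≤ c.1) :
    Inner sz D e (Om2 Ω) (s0 Q1 Qs) (cls.map (ncl Q1)) (nCl Qs Q1 Cl) := by
  have hc0 : ((r, Q1 :: B) : ℕ × List (α → τ → ℤ[X])) ∈ ((r, Q1 :: B) :: cls) := by simp
  have hQ1 : Q1 ∈ ((r, Q1 :: B) : ℕ × List (α → τ → ℤ[X])).2 := by simp
  have hre : r ≤ e := h.r2 _ hc0
  have dQ1 : ∀ a h, (Q1 a h).natDegree ≤ r := h.d1 _ hc0 Q1 hQ1
  have xQ1 := h.x1 _ hc0 Q1 hQ1
  have dl0 : ∀ (Q : α → τ → ℤ[X]) (a : α) (p : τ × (ℕ × ℕ)), (lt0 Q a p).natDegree = (Q a p.1).natDegree := by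
    intro Q a p
    exact natDegree_taylor _ _
  have dl1 : ∀ (Q : α → τ → ℤ[X]) (a : α) (p : τ × (ℕ × ℕ)), (lt1 Q a p).natDegree = (Q a p.1).natDegree := by
    intro Q a p
    exact natDegree_taylor _ _
  have hmem : ∀ c ∈ cls, c ∈ ((r, Q1 :: B) :: cls) := fun c hc => List.mem_cons_of_mem _ hc
  have hsub : ∀ (c : ℕ × List (α → τ → ℤ[X])), ∀ Q ∈ (ncl Q1 c).2,
      ∃ Q' ∈ c.2, Q = s0 Q1 Q' ∨ Q = s1 Q1 Q' := by
    intro c Q hQ
    unfold ncl at hQ
    simp only [List.mem_append, List.mem_map] at hQ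
    rcases hQ with ⟨Q', h1, h2⟩ | ⟨Q', h1, h2⟩
    · exact ⟨Q', h1, Or.inl h2.symm⟩
    · exact ⟨Q', h1, Or.inr h2.symm⟩
  refine ⟨?_, ?_, ?_, ?_, ?_, ?_, ?_, ?_, ?_, ?_⟩
  · intro a p
    refine (natDegree_sub_le _ _).trans (max_le ?_ ?_)
    · rw [dl0]
      exact h.d0 a p.1
    · rw [dl0]
      exact (dQ1 a p.1).trans hre
  · have := (NLG.x1 sz Ω (D - e) e Qs Q1 h.d0 (fun a h' => (dQ1 a h').trans hre) xQ1).1
    simpa only [s0, coeff_sub] using this
  · intro c hc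
    obtain ⟨c', h1, rfl⟩ := List.mem_map.mp hc
    exact h.r1 c' (hmem c' h1)
  · intro c hc
    obtain ⟨c', h1, rfl⟩ := List.mem_map.mp hc
    exact h.r2 c' (hmem c' h1)
  · intro c hc
    obtain ⟨c', h1, rfl⟩ := List.mem_map.mp hc
    have := h.ne c' (hmem c' h1)
    unfold ncl
    simp [this]
  · intro c hc Q hQ a p
    obtain ⟨c', h1, rfl⟩ := List.mem_map.mp hc
    obtain ⟨Q', h2, h3⟩ := hsub c' Q hQ
    have h4 := h.d1 c' (hmem c' h1) Q' h2 a p.1
    have h5 : (Q1 a p.1).natDegree ≤ c'.1 := (dQ1 a p.1).trans (hr c' h1)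
    rcases h3 with rfl | rfl
    · refine (natDegree_sub_le _ _).trans (max_le ?_ ?_)
      · rw [dl0]
        exact h4
      · rw [dl0]
        exact h5
    · refine (natDegree_sub_le _ _).trans (max_le ?_ ?_)
      · rw [dl1]
        exact h4
      · rw [dl0]
        exact h5
  · intro c hc Q hQ
    obtain ⟨c', h1, rfl⟩ := List.mem_map.mp hc
    obtain ⟨Q', h2, h3⟩ := hsub c' Q hQ
    have h4 := NLG.x1 sz Ω (D - e) e Qs Q' h.d0
      (fun a h' => (h.d1 c' (hmem c' h1) Q' h2 a h').trans (h.r2 c' (hmem c' h1)))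
      (h.x1 c' (hmem c' h1) Q' h2)
    rcases h3 with rfl | rfl
    · have h5 := h4.1
      simpa only [s0, coeff_sub, sub_sub_sub_cancel_right] using h5
    · have h5 := h4.2
      simpa only [s0, s1, coeff_sub, sub_sub_sub_cancel_right] using h5
  · intro c hc Q hQ Q' hQ' a p
    obtain ⟨c', h1, rfl⟩ := List.mem_map.mp hc
    obtain ⟨Q2, h2, h3⟩ := hsub c' Q hQ
    obtain ⟨Q3, h4, h5⟩ := hsub c' Q' hQ'
    have k1 := h.dd c' (hmem c' h1) Q2 h2 Q3 h4 a p.1
    have k2 := h.d1 c' (hmem c' h1) Q3 h4 a p.1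
    have k3 : ∀ k k' : ℤ, (taylor k (Q2 a p.1) - taylor k' (Q3 a p.1)).natDegree ≤ c'.1 - 1 :=
      fun k k' => natDegree_cross _ _ _ k1 k2 k k'
    have k4 : (ncl Q1 c').1 = c'.1 := rfl
    rw [k4]
    rcases h3 with rfl | rfl <;> rcases h5 with rfl | rfl <;>
      simpa only [s0, s1, lt0, lt1, sub_sub_sub_cancel_right] using k3 _ _
  · intro Q hQ a p
    unfold nCl at hQ
    simp only [List.mem_cons, List.mem_append, List.mem_map] at hQ
    rcases hQ with rfl | ⟨Q', h1, rfl⟩ | ⟨Q', h1, rfl⟩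
    · have := natDegree_cross (Qs a p.1) (Qs a p.1) e (by simp) (h.d0 a p.1) (p.2.1 : ℤ) (p.2.2 : ℤ)
      simpa only [s0, s1, lt0, lt1, sub_sub_sub_cancel_right] using this
    · have k1 := h.d2 Q' h1 a p.1
      have k2 : (Q' a p.1 - Qs a p.1).natDegree ≤ e - 1 := by
        rw [← natDegree_neg, neg_sub]
        exact k1
      have := natDegree_cross (Q' a p.1) (Qs a p.1) e k2 (h.d0 a p.1) (p.2.1 : ℤ) (p.2.1 : ℤ)
      rw [← natDegree_neg, neg_sub] at this
      simpa only [s0, s1, lt0, lt1, sub_sub_sub_cancel_right] using this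
    · have k1 := h.d2 Q' h1 a p.1
      have k2 : (Q' a p.1 - Qs a p.1).natDegree ≤ e - 1 := by
        rw [← natDegree_neg, neg_sub]
        exact k1
      have := natDegree_cross (Q' a p.1) (Qs a p.1) e k2 (h.d0 a p.1) (p.2.2 : ℤ) (p.2.1 : ℤ)
      rw [← natDegree_neg, neg_sub] at this
      simpa only [s0, s1, lt0, lt1, sub_sub_sub_cancel_right] using this
  · intro Q hQ
    unfold nCl at hQ
    simp only [List.mem_cons, List.mem_append, List.mem_map] at hQ
    rcases hQ with rfl | ⟨Q', h1, rfl⟩ | ⟨Q', h1, rfl⟩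
    · have := NLG.x2 sz Ω D e he heD Qs Qs h.d0 (by simp) h.x0
      simpa only [s0, s1, lt0, lt1, sub_sub_sub_cancel_right] using this
    · have := NLG.x3 sz Ω (D - (e - 1)) e Qs Q' (h.d2 Q' h1) (h.x2 Q' h1)
      simpa only [s0, s1, lt0, lt1, sub_sub_sub_cancel_right] using this
    · have := NLG.x2 sz Ω D e he heD Qs Q' h.d0 (h.d2 Q' h1) h.x0
      simpa only [s0, s1, lt0, lt1, sub_sub_sub_cancel_right] using this

theorem sing_deg {sz : α → ℕ} {D e r : ℕ} {Ω : ℕ → Finset τ} {Qs Q1 : α → τ → ℤ[X]} {B : List (α → τ → ℤ[X])}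
    {cls : List (ℕ × List (α → τ → ℤ[X]))} {Cl : List (α → τ → ℤ[X])}
    (h : Inner sz D e Ω Qs ((r, Q1 :: B) :: cls) Cl) : ∀ Q ∈ sing Q1 B,
      (∀ a p, (Q a p).natDegree ≤ r - 1) ∧
        Exq sz (Om2 Ω) (D - e) (fun a p => (s0 Q1 Qs a p).coeff e - (Q a p).coeff e) := by
  have hc0 : ((r, Q1 :: B) : ℕ × List (α → τ → ℤ[X])) ∈ ((r, Q1 :: B) :: cls) := by simp
  have hQ1 : Q1 ∈ ((r, Q1 :: B) : ℕ × List (α → τ → ℤ[X])).2 := by simp
  have hre : r ≤ e := h.r2 _ hc0
  have dQ1 : ∀ a h, (Q1 a h).natDegree ≤ r := h.d1 _ hc0 Q1 hQ1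
  intro Q hQ
  have key : ∃ Q' ∈ Q1 :: B, Q = s0 Q1 Q' ∨ Q = s1 Q1 Q' := by
    unfold sing at hQ
    simp only [List.mem_cons, List.mem_append, List.mem_map] at hQ
    rcases hQ with rfl | ⟨Q', h1, rfl⟩ | ⟨Q', h1, rfl⟩
    · exact ⟨Q1, by simp, Or.inr rfl⟩
    · exact ⟨Q', by simp [h1], Or.inl rfl⟩
    · exact ⟨Q', by simp [h1], Or.inr rfl⟩
  obtain ⟨Q', h2, h3⟩ := key
  have h4 := NLG.x1 sz Ω (D - e) e Qs Q' h.d0 (fun a h' => (h.d1 _ hc0 Q' h2 a h').trans hre) (h.x1 _ hc0 Q' h2)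
  have k3 : ∀ a (p : τ × (ℕ × ℕ)) (k k' : ℤ), (taylor k (Q' a p.1) - taylor k' (Q1 a p.1)).natDegree ≤ r - 1 :=
    fun a p k k' => natDegree_cross _ _ _ (h.dd _ hc0 Q' h2 Q1 hQ1 a p.1) (dQ1 a p.1) k k'
  rcases h3 with rfl | rfl
  · refine ⟨fun a p => k3 a p _ _, ?_⟩
    have h5 := h4.1
    simpa only [s0, coeff_sub, sub_sub_sub_cancel_right] using h5
  · refine ⟨fun a p => k3 a p _ _, ?_⟩
    have h5 := h4.2
    simpa only [s0, s1, coeff_sub, sub_sub_sub_cancel_right] using h5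

theorem om2_ne {Ω : ℕ → Finset τ} (hΩ : ∀ A, 1 ≤ A → (Ω A).Nonempty) : ∀ A, 1 ≤ A → (Om2 Ω A).Nonempty := by
  intro A hA
  unfold Om2
  have h1 : (range A).Nonempty := ⟨0, Finset.mem_range.mpr (by omega)⟩
  exact (hΩ A hA).product (h1.product h1)

theorem base {sz : α → ℕ} {D e : ℕ} (he : 1 ≤ e) (heD : e ≤ D)
    (IH : ∀ (τ : Type) (Ω : ℕ → Finset τ), (∀ A, 1 ≤ A → (Ω A).Nonempty) → ∀ (Qs : α → τ → ℤ[X])
      (L : List (α → τ → ℤ[X])), StageStart sz D (e - 1) Ω Qs L → GoodF sz D Ω Qs L)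
    {Ω : ℕ → Finset τ} (hΩ : ∀ A, 1 ≤ A → (Ω A).Nonempty) {Qs : α → τ → ℤ[X]} {Cl : List (α → τ → ℤ[X])}
    (h : Inner sz D e Ω Qs [] Cl) : GoodF sz D Ω Qs Cl := by
  apply good_s2
  apply IH _ _ (om2_ne hΩ)
  refine ⟨?_, ?_, ?_⟩
  · intro a p
    exact natDegree_cross (Qs a p.1) (Qs a p.1) e (by simp) (h.d0 a p.1) (p.2.1 : ℤ) (p.2.2 : ℤ)
  · exact NLG.x2 sz Ω D e he heD Qs Qs h.d0 (by simp) h.x0
  · intro Q hQ
    have kd : ∀ Q' ∈ Cl, ∀ a h', (Q' a h' - Qs a h').natDegree ≤ e - 1 := by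
      intro Q' h1 a h'
      rw [← natDegree_neg, neg_sub]
      exact h.d2 Q' h1 a h'
    simp only [List.mem_append, List.mem_map] at hQ
    rcases hQ with ⟨Q', h1, rfl⟩ | ⟨Q', h1, rfl⟩
    · refine ⟨?_, ?_⟩
      · intro a p
        exact natDegree_cross (Q' a p.1) (Qs a p.1) e (kd Q' h1 a p.1) (h.d0 a p.1) (p.2.1 : ℤ) (p.2.2 : ℤ)
      · have := NLG.x3 sz Ω (D - (e - 1)) e Qs Q' (h.d2 Q' h1) (h.x2 Q' h1)
        simpa only [coeff_sub, sub_sub_sub_cancel_right] using this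
    · refine ⟨?_, ?_⟩
      · intro a p
        exact natDegree_cross (Q' a p.1) (Qs a p.1) e (kd Q' h1 a p.1) (h.d0 a p.1) (p.2.2 : ℤ) (p.2.2 : ℤ)
      · have := NLG.x2 sz Ω D e he heD Qs Q' h.d0 (h.d2 Q' h1) h.x0
        simpa only [coeff_sub, sub_sub_sub_cancel_right] using this

theorem main {sz : α → ℕ} {D e : ℕ} (he : 1 ≤ e) (heD : e ≤ D)
    (IH : ∀ (τ : Type) (Ω : ℕ → Finset τ), (∀ A, 1 ≤ A → (Ω A).Nonempty) → ∀ (Qs : α → τ → ℤ[X])
      (L : List (α → τ → ℤ[X])), StageStart sz D (e - 1) Ω Qs L → GoodF sz D Ω Qs L) :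
    ∀ (m : Multiset ℕ) (τ : Type) (Ω : ℕ → Finset τ), (∀ A, 1 ≤ A → (Ω A).Nonempty) → ∀ (Qs : α → τ → ℤ[X])
      (cls : List (ℕ × List (α → τ → ℤ[X]))) (Cl : List (α → τ → ℤ[X])),
      ((cls.map Prod.fst : List ℕ) : Multiset ℕ) = m → Inner sz D e Ω Qs cls Cl →
      GoodF sz D Ω Qs (cls.flatMap Prod.snd ++ Cl) := by
  intro m
  induction m using (Multiset.wellFounded_isDershowitzMannaLT (α := ℕ)).induction with
  | _ m ih =>
    intro τ Ω hΩ Qs cls Cl hm hI
    by_cases hcls : cls = []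
    · subst hcls
      simpa using base he heD IH hΩ hI
    · obtain ⟨⟨r, B⟩, hc, hmin⟩ := exists_min cls hcls
      obtain ⟨l1, l2, hl⟩ := List.append_of_mem hc
      have hperm : (((r, B) : ℕ × List (α → τ → ℤ[X])) :: (l1 ++ l2)).Perm cls := by
        rw [hl]
        exact List.perm_middle.symm
      have hBne : B ≠ [] := hI.ne _ hc
      obtain ⟨Q1, B', rfl⟩ := List.exists_cons_of_ne_nil hBne
      have hI' : Inner sz D e Ω Qs ((r, Q1 :: B') :: (l1 ++ l2)) Cl := hI.perm (fun c hc' => hperm.mem_iff.mp hc')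
      have hr : ∀ c ∈ l1 ++ l2, r ≤ c.1 := fun c hc' => hmin c (hperm.mem_iff.mp (List.mem_cons_of_mem _ hc'))
      have hr1 : 1 ≤ r := hI.r1 _ hc
      have hm' : m = r ::ₘ (((l1 ++ l2).map Prod.fst : List ℕ) : Multiset ℕ) := by
        rw [← hm]
        have := Multiset.coe_eq_coe.mpr (hperm.map Prod.fst)
        rw [← this]
        rfl
      refine good_perm sz D Ω Qs (L := Q1 :: (B' ++ (l1 ++ l2).flatMap Prod.snd ++ Cl)) ?_ ?_
      · have h1 := (hperm.flatMap_right Prod.snd).append_right Cl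
        refine List.Perm.trans (List.Perm.of_eq ?_) h1
        simp
      · apply good_s1
        have hN := inner_new he heD hI' hr
        have hS := sing_deg hI'
        refine good_perm sz D (Om2 Ω) _ (perm_new Qs Q1 B' (l1 ++ l2) Cl) ?_
        by_cases hr2 : r = 1
        · refine absorb _ _ _ _ _ ?_ _ ?_
          · refine ih _ ?_ _ _ (om2_ne hΩ) _ _ _ rfl hN
            refine ⟨(((l1 ++ l2).map Prod.fst : List ℕ) : Multiset ℕ), 0, {r}, by simp, ?_, ?_, by simp⟩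
            · simp [ncl, Function.comp_def]
            · rw [hm', ← Multiset.singleton_add, add_comm]
          · intro Q hQ a p
            have := (hS Q hQ).1 a p
            omega
        · have hfl : sing Q1 B' ++ (((l1 ++ l2).map (ncl Q1)).flatMap Prod.snd ++ nCl Qs Q1 Cl) =
              ((sing Q1 B').map (fun Q => (r - 1, [Q])) ++ (l1 ++ l2).map (ncl Q1)).flatMap Prod.snd ++
                nCl Qs Q1 Cl := by
            rw [List.flatMap_append, flat_single, List.append_assoc]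
          rw [hfl]
          refine ih _ ?_ _ _ (om2_ne hΩ) _ _ _ rfl ?_
          · refine ⟨(((l1 ++ l2).map Prod.fst : List ℕ) : Multiset ℕ),
              Multiset.replicate (sing Q1 B').length (r - 1), {r}, by simp, ?_, ?_, ?_⟩
            · rw [List.map_append, List.map_map, List.map_map, ← Multiset.coe_add, add_comm]
              congr 1
              rw [← Multiset.coe_replicate]
              congr 1
              simp [Function.comp_def, List.map_const']
            · rw [hm', ← Multiset.singleton_add, add_comm]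
            · intro y hy
              refine ⟨r, by simp, ?_⟩
              rw [Multiset.eq_of_mem_replicate hy]
              omega
          · refine ⟨hN.d0, hN.x0, ?_, ?_, ?_, ?_, ?_, ?_, hN.d2, hN.x2⟩
            · intro c hc'
              rcases List.mem_append.mp hc' with h1 | h1
              · obtain ⟨Q, h2, rfl⟩ := List.mem_map.mp h1
                show 1 ≤ r - 1
                omega
              · exact hN.r1 c h1
            · intro c hc'
              rcases List.mem_append.mp hc' with h1 | h1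
              · obtain ⟨Q, h2, rfl⟩ := List.mem_map.mp h1
                have := hI.r2 _ hc
                show r - 1 ≤ e
                omega
              · exact hN.r2 c h1
            · intro c hc'
              rcases List.mem_append.mp hc' with h1 | h1
              · obtain ⟨Q, h2, rfl⟩ := List.mem_map.mp h1
                simp
              · exact hN.ne c h1
            · intro c hc'
              rcases List.mem_append.mp hc' with h1 | h1
              · obtain ⟨Q, h2, rfl⟩ := List.mem_map.mp h1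
                intro Q' hQ'
                rw [List.mem_singleton.mp hQ']
                exact (hS Q h2).1
              · exact hN.d1 c h1
            · intro c hc'
              rcases List.mem_append.mp hc' with h1 | h1
              · obtain ⟨Q, h2, rfl⟩ := List.mem_map.mp h1
                intro Q' hQ'
                rw [List.mem_singleton.mp hQ']
                exact (hS Q h2).2
              · exact hN.x1 c h1
            · intro c hc'
              rcases List.mem_append.mp hc' with h1 | h1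
              · obtain ⟨Q, h2, rfl⟩ := List.mem_map.mp h1
                intro Q' hQ' Q'' hQ''
                rw [List.mem_singleton.mp hQ', List.mem_singleton.mp hQ'']
                intro a p
                simp
              · exact hN.dd c h1

end PetIAux

theorem pet {α : Type} (sz : α → ℕ) (D e : ℕ) (he : 1 ≤ e) (heD : e ≤ D) : ∀ (τ : Type) (Ω : ℕ → Finset τ),
    (∀ A, 1 ≤ A → (Ω A).Nonempty) → ∀ (Qs : α → τ → ℤ[X]) (L : List (α → τ → ℤ[X])),
    StageStart sz D e Ω Qs L → GoodF sz D Ω Qs L := by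
  induction e, he using Nat.le_induction with
  | base =>
    intro τ Ω hΩ Qs L h
    exact good_lin sz D Ω hΩ Qs L h
  | succ e he ih =>
    intro τ Ω hΩ Qs L h
    have IH := ih (by omega)
    have h1 : GoodF sz D Ω Qs ((L.map (fun Q => (e + 1, [Q]))).flatMap Prod.snd ++ []) := by
      refine PetIAux.main (by omega) heD (by simpa using IH) _ τ Ω hΩ Qs _ [] rfl ?_
      obtain ⟨h2, h3, h4⟩ := h
      refine ⟨h2, h3, ?_, ?_, ?_, ?_, ?_, ?_, by simp, by simp⟩
      · intro c hc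
        obtain ⟨Q, h5, rfl⟩ := List.mem_map.mp hc
        show 1 ≤ e + 1
        omega
      · intro c hc
        obtain ⟨Q, h5, rfl⟩ := List.mem_map.mp hc
        exact le_refl _
      · intro c hc
        obtain ⟨Q, h5, rfl⟩ := List.mem_map.mp hc
        simp
      · intro c hc
        obtain ⟨Q, h5, rfl⟩ := List.mem_map.mp hc
        intro Q' hQ'
        rw [List.mem_singleton.mp hQ']
        exact (h4 Q h5).1
      · intro c hc
        obtain ⟨Q, h5, rfl⟩ := List.mem_map.mp hc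
        intro Q' hQ'
        rw [List.mem_singleton.mp hQ']
        exact (h4 Q h5).2
      · intro c hc
        obtain ⟨Q, h5, rfl⟩ := List.mem_map.mp hc
        intro Q' hQ' Q'' hQ''
        rw [List.mem_singleton.mp hQ', List.mem_singleton.mp hQ'']
        intro a p
        simp
    have h2 : (L.map (fun Q => (e + 1, [Q]))).flatMap Prod.snd ++ [] = L := by
      rw [List.append_nil, PetIAux.flat_single]
    rwa [h2] at h1

end Pool.Agent.NLG
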