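import Pool.Agent.Lib.NLG.DefsC
import Pool.Agent.Lib.NLG.PetI
import Pool.Agent.Lib.NLG.ConcG
import Pool.Agent.Lib.NLG.Ker

/-!
# Module UsG: control of the top function by a Gowers norm

PROOF of `us_g`. Let `α` be the type of the families `P : Fin (m + 1) → ℤ[X]` with `(P (last m)).natDegree = D` and `(P j.castSucc).natDegree < D`
for all `j`; `sz P = |leading coefficient of P (last m)|`; `τ = Unit`, `Ω A = {()}`; `Qs = P (last m)`, `L` = the list of the `P j.castSucc`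
(`List.ofFn`). `StageStart sz D D` holds: `D - D = 0`, the coefficients `(P (last m)).coeff D` and `(P (last m)).coeff D - (P j.castSucc).coeff D =
(P (last m)).coeff D` are constant in `h`, nonzero and bounded by `sz` (`Exq_const`; `(P j).coeff D = 0` since the degree is `< D`). `pet` with `e = D`
gives `τ'`, `Ω'`, `cs`, `s`, `B`. `ker_sum` for every `c ∈ cs` gives an `r` (maximum of the `r0`) and then a `C1` for all of them. `conc` with
`n + 1 = cs.length`, `r`, `C0 = C1`, `E = D` gives `K`, `C2`. Let `|TP| ≥ 1 / R`. `TP H θ P f0 f = TG H θ f0 (f (last m)) (P (last m)) [(f j, P j)]`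
(`Fin.prod_univ_castSucc`, `List.prod_ofFn`, move `θ t` into the average). Let `C3` be such that `B A / H ≤ R ^ (-s) / 2` for `A` = the integer part of
`H / R ^ C3` (`R ≥ 2`), so `R ^ (-s) / (2 B) ≤ evr (Ω' A) ‖BB (cs.map (fe A ..)) f‖` (`f = f (last m)`), and `1 / R1 ≤` this average for
`R1 = R ^ C4`, `C4` large; also `H ≤ R1 A`. Apply `conc` with `R1` in place of `R`: for `A' ≤ A ≤ R1 ^ C2 A'` the kernel bound is `ker_sum` with `R1` in place of `R`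
(`sz ≤ R ≤ R1`, `R1 ^ C1 ≤ A'` because `H ≥ R ^ C` with `C` large). So `UU K f ≥ R1 ^ (-C2) ≥ R ^ (-C)`.
-/

set_option autoImplicit false

open Finset Polynomial

namespace Pool.Agent.NLG

open Pool.Agent.HLT Pool.Agent.NLT

namespace UsGAux

/-- The conclusion of `ker_sum`. -/
def KS {α τ : Type} (D : ℕ) (sz : α → ℕ) (Ω : ℕ → Finset τ) (r C : ℕ) (c : α → τ → ℤ) : Prop :=
  ∀ (M : ℕ) [Fact M.Prime] (a : α) (R A A' H : ℕ), sz a ≤ R → 2 ≤ R → R ^ C ≤ A' → A' ≤ A →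
      A ≤ H → H ≤ R * A → H ^ D ≤ M → M ≤ R * H ^ D →
      ∑ ξ : ZMod M, kap (Ω A) A' (fun h => ((c a h : ℤ) : ZMod M)) ξ ^ (2 ^ r) ≤ (R : ℝ) ^ C * ((A : ℝ) / A') ^ D

lemma KS_mono {α τ : Type} {D : ℕ} {sz : α → ℕ} {Ω : ℕ → Finset τ} {r C C1 : ℕ} {c : α → τ → ℤ}
    (h : KS D sz Ω r C c) (hC : C ≤ C1) : KS D sz Ω r C1 c := by
  intro M _ a R A A' H hsz hR hRA hA'A hAH hHR hHM hMH
  refine (h M a R A A' H hsz hR ((Nat.pow_le_pow_right (by omega) hC).trans hRA) hA'A hAH hHR hHM hMH).trans ?_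
  have hR1 : (1 : ℝ) ≤ R := by exact_mod_cast (by omega : 1 ≤ R)
  exact mul_le_mul_of_nonneg_right (pow_le_pow_right₀ hR1 hC) (by positivity)

lemma KS_all {α τ : Type} (D : ℕ) (hD : 1 ≤ D) (sz : α → ℕ) (Ω : ℕ → Finset τ) (hΩ : ∀ A, 1 ≤ A → (Ω A).Nonempty)
    (cs : List (α → τ → ℤ)) (hc : ∀ c ∈ cs, Exq sz Ω (D - 1) c) :
    ∃ r0 : ℕ, ∀ r, r0 ≤ r → ∃ C : ℕ, ∀ c ∈ cs, KS D sz Ω r C c := by
  induction cs with
  | nil => exact ⟨0, fun r _ => ⟨0, fun c hc => absurd hc List.not_mem_nil⟩⟩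
  | cons c cs ih =>
    obtain ⟨r1, h1⟩ := ih fun c' hc' => hc c' (List.mem_cons_of_mem _ hc')
    obtain ⟨r2, h2⟩ := ker_sum D hD sz Ω hΩ c (hc c List.mem_cons_self)
    refine ⟨max r1 r2, fun r hr => ?_⟩
    obtain ⟨C1, hC1⟩ := h1 r ((le_max_left _ _).trans hr)
    obtain ⟨C2, hC2⟩ := h2 r ((le_max_right _ _).trans hr)
    refine ⟨max C1 C2, fun c' hc' => ?_⟩
    rcases List.mem_cons.mp hc' with rfl | hc'
    · exact KS_mono (C := C2) hC2 (le_max_right _ _)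
    · exact KS_mono (hC1 c' hc') (le_max_left _ _)

/-- The families of the theorem. -/
def Fm (m D : ℕ) : Type :=
  {P : Fin (m + 1) → ℤ[X] // (P (Fin.last m)).natDegree = D ∧ ∀ j : Fin m, (P j.castSucc).natDegree < D}

def szf (m D : ℕ) (P : Fm m D) : ℕ := (P.1 (Fin.last m)).leadingCoeff.natAbs

def Lf (m D : ℕ) : List (Fm m D → Unit → ℤ[X]) := List.ofFn (fun (j : Fin m) (P : Fm m D) (_ : Unit) => P.1 j.castSucc)

lemma start (m D : ℕ) (hD : 1 ≤ D) :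
    StageStart (szf m D) D D (fun _ => {()}) (fun (P : Fm m D) (_ : Unit) => P.1 (Fin.last m)) (Lf m D) := by
  have hne : ∀ P : Fm m D, (P.1 (Fin.last m)).coeff D ≠ 0 := by
    intro P h
    have h1 : (P.1 (Fin.last m)).leadingCoeff = 0 := by
      unfold Polynomial.leadingCoeff
      rw [P.2.1, h]
    rw [Polynomial.leadingCoeff_eq_zero] at h1
    have h2 := P.2.1
    rw [h1, Polynomial.natDegree_zero] at h2
    omega
  have hsz : ∀ P : Fm m D, ((P.1 (Fin.last m)).coeff D).natAbs ≤ szf m D P := by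
    intro P
    unfold szf Polynomial.leadingCoeff
    rw [P.2.1]
  have hex : Exq (szf m D) (fun _ => ({()} : Finset Unit)) (D - D)
      (fun (P : Fm m D) (_ : Unit) => (P.1 (Fin.last m)).coeff D) := by
    rw [Nat.sub_self]
    exact Exq_const (szf m D) (fun _ => ({()} : Finset Unit)) (fun P : Fm m D => (P.1 (Fin.last m)).coeff D) hne hsz
  refine ⟨fun P _ => P.2.1.le, hex, ?_⟩
  intro Q hQ
  obtain ⟨j, rfl⟩ := List.mem_ofFn.mp hQ
  refine ⟨fun P _ => (P.2.2 j).le, ?_⟩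
  have e : (fun (P : Fm m D) (_ : Unit) => (P.1 (Fin.last m)).coeff D - (P.1 j.castSucc).coeff D) =
      (fun (P : Fm m D) (_ : Unit) => (P.1 (Fin.last m)).coeff D) := by
    funext P _
    rw [Polynomial.coeff_eq_zero_of_natDegree_lt (P.2.2 j), sub_zero]
  rw [e]
  exact hex

lemma TP_eq_TG {M m : ℕ} [NeZero M] (H : ℕ) (θ : ℕ → ℂ) (P : Fin (m + 1) → ℤ[X]) (f0 : ZMod M → ℂ)
    (f : Fin (m + 1) → ZMod M → ℂ) :
    TP H θ P f0 f = TG H θ f0 (f (Fin.last m)) (P (Fin.last m))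
      (List.ofFn (fun j : Fin m => (f j.castSucc, P j.castSucc))) := by
  unfold TP TG
  congr 1
  funext t
  rw [← av_mul_left]
  congr 1
  funext x
  rw [List.map_ofFn, List.prod_ofFn, Fin.prod_univ_castSucc]
  simp only [Function.comp_apply]
  ring

end UsGAux

open UsGAux in
theorem us_g (m D : ℕ) (hD : 1 ≤ D) : ∃ K C : ℕ, 2 ≤ K ∧ ∀ (M : ℕ) [Fact M.Prime] (H R : ℕ), 2 ≤ R → R ^ C ≤ H → H ^ D ≤ M →
    M ≤ R * H ^ D → ∀ P : Fin (m + 1) → ℤ[X], (P (Fin.last m)).natDegree = D → (P (Fin.last m)).leadingCoeff.natAbs ≤ R →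
    (∀ j : Fin m, (P j.castSucc).natDegree < D) → ∀ θ : ℕ → ℂ, (∀ t, ‖θ t‖ ≤ 1) → ∀ f0 : ZMod M → ℂ, Bd f0 →
    ∀ f : Fin (m + 1) → ZMod M → ℂ, (∀ j, Bd (f j)) → 1 / (R : ℝ) ≤ ‖TP H θ P f0 f‖ →
    1 / (R : ℝ) ^ C ≤ UU K (f (Fin.last m)) := by
  obtain ⟨τ', Ω', cs, s, B, hs, hcs, hΩ', hex, hmain⟩ := pet (szf m D) D D hD le_rfl Unit (fun _ => {()})
    (fun _ _ => Finset.singleton_nonempty _) (fun (P : Fm m D) (_ : Unit) => P.1 (Fin.last m)) (Lf m D) (start m D hD)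
  obtain ⟨r, hr⟩ := KS_all D hD (szf m D) Ω' hΩ' cs hex
  obtain ⟨C1, hC1⟩ := hr r le_rfl
  have hlen : cs.length = (cs.length - 1) + 1 := by
    have := List.length_pos_iff.mpr hcs
    omega
  obtain ⟨K, C2, hK, hconc⟩ := conc (cs.length - 1) r C1 D
  obtain ⟨C3, hC3⟩ : ∃ C3, C3 = s + B + 1 := ⟨_, rfl⟩
  refine ⟨K, C3 + (C3 + 1) * (C1 + C2), hK, ?_⟩
  intro M _ H R hR hRH hHM hMH P hP1 hP2 hP3 θ hθ f0 hf0 f hf hTP
  obtain ⟨a, ha⟩ : ∃ a : Fm m D, a = ⟨P, hP1, hP3⟩ := ⟨_, rfl⟩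
  obtain ⟨R1, hR1⟩ : ∃ R1 : ℕ, R1 = R ^ (C3 + 1) := ⟨_, rfl⟩
  obtain ⟨A, hA⟩ : ∃ A : ℕ, A = H / R ^ C3 := ⟨_, rfl⟩
  have hRpos : 0 < R := by omega
  have hR0 : (0 : ℝ) < R := by exact_mod_cast hRpos
  have hR2 : (2 : ℝ) ≤ R := by exact_mod_cast hR
  have hR1R : (1 : ℝ) ≤ R := by linarith
  have hRR1 : R ≤ R1 := by
    rw [hR1]
    exact Nat.le_self_pow (by omega) R
  -- size of `A`
  have hAbig : R1 ^ (C1 + C2) ≤ A := by
    rw [hA, Nat.le_div_iff_mul_le (pow_pos hRpos _)]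
    refine le_trans (le_of_eq ?_) hRH
    rw [hR1, ← pow_mul, ← pow_add]
    congr 1
    ring
  have hA1 : 1 ≤ A := le_trans (Nat.one_le_pow _ _ (by omega)) hAbig
  have hAmul : A * R ^ C3 ≤ H := by
    rw [hA]
    exact Nat.div_mul_le_self _ _
  have hAH : A ≤ H := le_trans (Nat.le_mul_of_pos_right _ (pow_pos hRpos _)) hAmul
  have hH1 : 1 ≤ H := hA1.trans hAH
  have hHA : H ≤ R1 * A := by
    have h1 : H < R ^ C3 * (A + 1) := by
      rw [hA]
      exact Nat.lt_mul_div_succ H (pow_pos hRpos _)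
    calc H ≤ R ^ C3 * (A + 1) := h1.le
      _ ≤ R ^ C3 * (R * A) := Nat.mul_le_mul_left _ (by nlinarith)
      _ = R1 * A := by
          rw [hR1]
          ring
  have hA0 : (0 : ℝ) < A := by exact_mod_cast hA1
  have hH0 : (0 : ℝ) < H := by exact_mod_cast hH1
  have hAHr : (A : ℝ) / H ≤ 1 / (R : ℝ) ^ C3 := by
    rw [div_le_div_iff₀ hH0 (by positivity)]
    have : ((A * R ^ C3 : ℕ) : ℝ) ≤ H := by exact_mod_cast hAmul
    push_cast at this
    linarith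
  -- the averages
  have hT := hmain M a H A hA1 hH1 (f (Fin.last m)) (hf _) (fun _ => θ) (fun _ => hθ) (fun _ => f0) (fun _ => hf0)
    (List.ofFn (fun j : Fin m => ((fun _ : Unit => f j.castSucc), (fun (P : Fm m D) (_ : Unit) => P.1 j.castSucc))))
    (by
      rw [List.map_ofFn]
      rfl)
    (by
      intro p hp _
      obtain ⟨j, rfl⟩ := List.mem_ofFn.mp hp
      exact hf _)
  have hev : evr ({()} : Finset Unit) (fun h => ‖TG H θ f0 (f (Fin.last m)) (a.1 (Fin.last m))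
      ((List.ofFn (fun j : Fin m => ((fun _ : Unit => f j.castSucc), (fun (P : Fm m D) (_ : Unit) => P.1 j.castSucc)))).map
        (fun p => (p.1 h, p.2 a h)))‖) = ‖TP H θ P f0 f‖ := by
    unfold evr
    rw [Finset.sum_singleton, Finset.card_singleton, Nat.cast_one, div_one, TP_eq_TG, ha, List.map_ofFn]
    rfl
  have hT2 : (1 / (R : ℝ)) ^ s ≤ B * (evr (Ω' A) (fun h => ‖BB (cs.map (fun c => fe A ((c a h : ℤ) : ZMod M)))
      (f (Fin.last m))‖) + (A : ℝ) / H) := by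
    refine le_trans (pow_le_pow_left₀ (by positivity) hTP s) ?_
    rw [← hev]
    exact hT
  obtain ⟨E, hE⟩ : ∃ E : ℝ, E = evr (Ω' A) (fun h => ‖BB (cs.map (fun c => fe A ((c a h : ℤ) : ZMod M)))
      (f (Fin.last m))‖) := ⟨_, rfl⟩
  rw [← hE] at hT2
  have hB2 : 2 * (B : ℝ) ≤ (R : ℝ) ^ (B + 1) := by
    have h1 : (B : ℝ) ≤ (R : ℝ) ^ B := by
      have : B ≤ R ^ B := (Nat.lt_two_pow_self).le.trans (Nat.pow_le_pow_left hR B)
      exact_mod_cast this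
    calc 2 * (B : ℝ) ≤ R * (R : ℝ) ^ B := mul_le_mul hR2 h1 (Nat.cast_nonneg _) hR0.le
      _ = (R : ℝ) ^ (B + 1) := by ring
  have hEbig : 1 / (R : ℝ) ^ C3 ≤ E := by
    have hB0 : (0 : ℝ) ≤ B := Nat.cast_nonneg _
    have h1 : (B : ℝ) * ((A : ℝ) / H) ≤ (1 / (R : ℝ)) ^ s / 2 := by
      have h2 : (B : ℝ) * ((A : ℝ) / H) ≤ B * (1 / (R : ℝ) ^ C3) := mul_le_mul_of_nonneg_left hAHr hB0
      refine h2.trans ?_
      have h3 : (B : ℝ) * (1 / (R : ℝ) ^ C3) = (2 * B) * (1 / (R : ℝ) ^ C3) / 2 := by ring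
      have h4 : (2 * B : ℝ) * (1 / (R : ℝ) ^ C3) ≤ (1 / (R : ℝ)) ^ s := by
        have h5 : (R : ℝ) ^ C3 = (R : ℝ) ^ (B + 1) * (R : ℝ) ^ s := by
          rw [hC3, ← pow_add]
          congr 1
          ring
        rw [h5, one_div_pow]
        calc (2 * B : ℝ) * (1 / ((R : ℝ) ^ (B + 1) * (R : ℝ) ^ s))
            ≤ (R : ℝ) ^ (B + 1) * (1 / ((R : ℝ) ^ (B + 1) * (R : ℝ) ^ s)) :=
              mul_le_mul_of_nonneg_right hB2 (by positivity)
          _ = 1 / (R : ℝ) ^ s := by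
              field_simp
      rw [h3]
      linarith
    have h6 : (1 / (R : ℝ)) ^ s / 2 ≤ B * E := by
      rw [mul_add] at hT2
      linarith
    have hs0 : 0 < (1 / (R : ℝ)) ^ s / 2 := by positivity
    have hE0 : 0 < E := by
      by_contra hcon
      have : B * E ≤ 0 := mul_nonpos_of_nonneg_of_nonpos hB0 (not_lt.mp hcon)
      linarith
    have h7 : (1 / (R : ℝ)) ^ s ≤ (R : ℝ) ^ (B + 1) * E := by
      calc (1 / (R : ℝ)) ^ s ≤ 2 * B * E := by linarith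
        _ ≤ (R : ℝ) ^ (B + 1) * E := mul_le_mul_of_nonneg_right hB2 hE0.le
    have h8 : 1 / (R : ℝ) ^ C3 = (1 / (R : ℝ)) ^ s / (R : ℝ) ^ (B + 1) := by
      rw [hC3, one_div_pow, div_div, ← pow_add]
      congr 2
    rw [h8, div_le_iff₀ (by positivity), mul_comm]
    exact h7
  -- concatenation
  have hfin := hconc M τ' (Ω' A) (cs.map (fun c h => ((c a h : ℤ) : ZMod M))) R1 A (by rw [List.length_map]; exact hlen)
    (hΩ' A hA1) (hR.trans hRR1) ((Nat.pow_le_pow_right (by omega) (by omega)).trans hAbig) ?_ (f (Fin.last m)) (hf _) ?_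
  · refine le_trans ?_ hfin
    refine one_div_le_one_div_of_le (by rw [hR1]; push_cast; positivity) ?_
    rw [hR1]
    push_cast
    rw [← pow_mul]
    refine pow_le_pow_right₀ hR1R ?_
    nlinarith
  · intro c' hc' A' hA'A hAA'
    obtain ⟨c, hc, rfl⟩ := List.mem_map.mp hc'
    have hA'big : R1 ^ C1 ≤ A' := by
      have h1 : R1 ^ C2 * R1 ^ C1 ≤ R1 ^ C2 * A' := by
        calc R1 ^ C2 * R1 ^ C1 = R1 ^ (C1 + C2) := by ring
          _ ≤ A := hAbig
          _ ≤ R1 ^ C2 * A' := hAA'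
      exact Nat.le_of_mul_le_mul_left h1 (pow_pos (by omega) _)
    refine hC1 c hc M a R1 A A' H ?_ (hR.trans hRR1) hA'big hA'A hAH hHA hHM
      (hMH.trans (Nat.mul_le_mul_right _ hRR1))
    rw [ha]
    exact hP2.trans hRR1
  · have e1 : evr (Ω' A) (fun h => ‖BB ((cs.map (fun c h => ((c a h : ℤ) : ZMod M))).map (fun c => fe A (c h)))
        (f (Fin.last m))‖) = E := by
      rw [hE]
      refine evr_congr fun h _ => ?_
      rw [List.map_map]
      rfl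
    rw [e1]
    refine le_trans ?_ hEbig
    refine one_div_le_one_div_of_le (by positivity) ?_
    rw [hR1]
    push_cast
    exact pow_le_pow_right₀ hR1R (by omega)

end Pool.Agent.NLG
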