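import Pool.Agent.Lib.NLG.DlD
import Pool.Agent.Lib.NLG.UsG

/-!
# Module RedM: the top function may be replaced by a character

PROOF of `red` (`D = d (last m)`, `Pm = P (last m)`). Let `1 / R ≤ ‖TP H θ P f0 f‖`. Put `φ t x = conj (θ t f0 (x - Pm t) ∏_(j < m) f j (x + P j t - Pm t))`, `F x = ev (range H) φ`. Shift
`x` by `- Pm t` for each `t`: `TP H θ P f0 f = av (f (last m) · conj F)`, so `R ^ (-2) ≤ avr ‖F‖ ^ 2 = |av (F conj F)| = ‖TP H θ P f0 (f with F at last m)‖`. `us_g` (with `R ^ 2`; leading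
coefficient `≤ R` by `Fam`, `i = D`; degrees by `StrictMono`): `UU K F ≥ R ^ (-C0)`. Apply `dl` with `T = range H`, `φ`, `R0 = R ^ (C0 + 1)` in place of `R` and
`S R' = {ξ : ∃ q ∈ [1, R' ^ c], nrm (q ξ.val / M) ≤ R' ^ c / H ^ D}`. (i) `|S R'| ≤ R' ^ C1`: for each `q < M` (`M ≥ H ^ D ≥ R ^ C`) the map `ξ ↦ q ξ` is injective
(`M` prime), and `nrm (ρ / M) ≤ R' ^ c / H ^ D` has at most `2 R' ^ c M / H ^ D + 1 ≤ 3 R R' ^ c` solutions `ρ` (as `card_Maj` in NLT/MajLem). (ii) if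
`1 / R' ≤ ‖ev_t av_x chi (-ξ) x ∏_i φ t (x + y i) conj φ t (x + y' i)‖`, shift `x` by `Pm t`: this is `‖TP H (fun t => ex (Θ t)) (P castSucc) g0 g‖` with
`Θ = - (ξ.val / M) Pm`, `g0 x = chi (-ξ) x ∏_i conj (f0 (x + y i)) f0 (x + y' i)`, `g j x = ∏_i conj (f j (x + y i)) f j (x + y' i)` (`|θ t| = 1`: the weights cancel;
`chi_int`). `GenB m` with `R'` (the family `P castSucc` has degrees `d castSucc < D` and is `Fam` for `R ≤ R'`): `nrm (q (ξ.val / M) Pm.coeff D) ≤ R' ^ C / H ^ D`; multiply `q` by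
`|Pm.coeff D| ≤ R ≤ R'` (nonzero). So `ξ ∈ S R'`. Result: `‖ft F η0‖ ≥ R ^ (-C)`; `ft F η0 = av (F · chi (-η0))`, its conjugate is `E_t E_x θ t f0 (x - Pm t) ∏ f j (..) chi η0 x`; shift `x`
by `Pm t`: `η = η0` (`chi_add_right`). (`GenB m` needs `1 ≤ D`, and `R' ^ C ≤ H`: `R' ≤ R ^ C2`, `H ≥ R ^ C` large.)
-/

set_option autoImplicit false

open Finset Polynomial

namespace Pool.Agent.NLG

open Pool.Agent.HLT Pool.Agent.NLT

namespace RedMAux

section

variable {M m : ℕ} [NeZero M]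

/-- the lower part of the average -/
noncomputable def psi (θ : ℕ → ℂ) (P : Fin (m + 1) → ℤ[X]) (f0 : ZMod M → ℂ)
    (f : Fin (m + 1) → ZMod M → ℂ) (t : ℕ) (x : ZMod M) : ℂ :=
  θ t * (f0 x * ∏ j : Fin m, f j.castSucc (x + (((P j.castSucc).eval (t : ℤ) : ℤ) : ZMod M)))

/-- the top polynomial -/
noncomputable def pm (M : ℕ) (P : Fin (m + 1) → ℤ[X]) (t : ℕ) : ZMod M :=
  (((P (Fin.last m)).eval (t : ℤ) : ℤ) : ZMod M)

/-- the shifted conjugate -/
noncomputable def phi (θ : ℕ → ℂ) (P : Fin (m + 1) → ℤ[X]) (f0 : ZMod M → ℂ)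
    (f : Fin (m + 1) → ZMod M → ℂ) (t : ℕ) (x : ZMod M) : ℂ :=
  (starRingEnd ℂ) (psi θ P f0 f t (x - pm M P t))

theorem psi_le {θ : ℕ → ℂ} {P : Fin (m + 1) → ℤ[X]} {f0 : ZMod M → ℂ}
    {f : Fin (m + 1) → ZMod M → ℂ} (hθ : ∀ t, ‖θ t‖ = 1) (hf0 : Bd f0) (hf : ∀ j, Bd (f j))
    (t : ℕ) (x : ZMod M) : ‖psi θ P f0 f t x‖ ≤ 1 := by
  unfold psi
  rw [norm_mul, norm_mul, hθ, one_mul, norm_prod]
  refine mul_le_one₀ (hf0 x) (Finset.prod_nonneg fun _ _ => norm_nonneg _) ?_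
  exact Finset.prod_le_one (fun _ _ => norm_nonneg _) fun j _ => hf _ _

theorem phi_Bd {θ : ℕ → ℂ} {P : Fin (m + 1) → ℤ[X]} {f0 : ZMod M → ℂ}
    {f : Fin (m + 1) → ZMod M → ℂ} (hθ : ∀ t, ‖θ t‖ = 1) (hf0 : Bd f0) (hf : ∀ j, Bd (f j))
    (t : ℕ) : Bd (phi θ P f0 f t) := by
  intro x
  unfold phi
  rw [Complex.norm_conj]
  exact psi_le hθ hf0 hf t _

theorem pair (H : ℕ) (θ : ℕ → ℂ) (P : Fin (m + 1) → ℤ[X]) (f0 : ZMod M → ℂ)
    (f : Fin (m + 1) → ZMod M → ℂ) (g : ZMod M → ℂ) :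
    ev (range H) (fun t => av (fun x => psi θ P f0 f t x * g (x + pm M P t))) =
      av (fun x => g x * (starRingEnd ℂ) (ev (range H) (fun t => phi θ P f0 f t x))) := by
  have h1 : ∀ x : ZMod M, g x * (starRingEnd ℂ) (ev (range H) (fun t => phi θ P f0 f t x)) =
      ev (range H) (fun t => g x * psi θ P f0 f t (x - pm M P t)) := by
    intro x
    rw [← ev_conj, ← ev_mul_left]
    refine ev_congr fun t _ => ?_
    unfold phi
    rw [Complex.conj_conj]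
  simp only [h1]
  rw [← ev_av_comm]
  refine ev_congr fun t _ => ?_
  rw [← av_shift_sub _ (pm M P t)]
  congr 1
  funext x
  rw [sub_add_cancel, mul_comm]

theorem TP_eq (H : ℕ) (θ : ℕ → ℂ) (P : Fin (m + 1) → ℤ[X]) (f0 : ZMod M → ℂ)
    (f : Fin (m + 1) → ZMod M → ℂ) :
    TP H θ P f0 f = ev (range H) (fun t => av (fun x => psi θ P f0 f t x *
      f (Fin.last m) (x + pm M P t))) := by
  unfold TP
  rw [tv_eq_ev]
  refine ev_congr fun t _ => ?_
  rw [← av_mul_left]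
  congr 1
  funext x
  rw [Fin.prod_univ_castSucc]
  unfold psi pm
  ring

theorem TP_chi (H : ℕ) (θ : ℕ → ℂ) (P : Fin (m + 1) → ℤ[X]) (f0 : ZMod M → ℂ)
    (f : Fin (m + 1) → ZMod M → ℂ) (η : ZMod M) :
    TP H (fun t => θ t * chi η ((((P (Fin.last m)).eval (t : ℤ) : ℤ)) : ZMod M))
      (fun j => P j.castSucc) (fun x => f0 x * chi η x) (fun j => f j.castSucc) =
      ev (range H) (fun t => av (fun x => psi θ P f0 f t x * chi η (x + pm M P t))) := by
  unfold TP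
  rw [tv_eq_ev]
  refine ev_congr fun t _ => ?_
  rw [← av_mul_left]
  congr 1
  funext x
  rw [chi_add_right]
  unfold psi pm
  ring

theorem psi_update (θ : ℕ → ℂ) (P : Fin (m + 1) → ℤ[X]) (f0 : ZMod M → ℂ)
    (f : Fin (m + 1) → ZMod M → ℂ) (g : ZMod M → ℂ) (t : ℕ) (x : ZMod M) :
    psi θ P f0 (Function.update f (Fin.last m) g) t x = psi θ P f0 f t x := by
  unfold psi
  congr 2
  refine Finset.prod_congr rfl fun j _ => ?_
  rw [Function.update_of_ne (Fin.castSucc_lt_last j).ne]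

/-- the lower functions of the family in degree lowering -/
noncomputable def gg {I : Type} [Fintype I] (y y' : I → ZMod M) (f : ZMod M → ℂ) (x : ZMod M) : ℂ :=
  ∏ i, ((starRingEnd ℂ) (f (x + y i)) * f (x + y' i))

theorem gg_Bd {I : Type} [Fintype I] (y y' : I → ZMod M) {f : ZMod M → ℂ} (hf : Bd f) :
    Bd (gg y y' f) := by
  intro x
  unfold gg
  rw [norm_prod]
  refine Finset.prod_le_one (fun _ _ => norm_nonneg _) fun i _ => ?_
  rw [norm_mul, Complex.norm_conj]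
  exact mul_le_one₀ (hf _) (norm_nonneg _) (hf _)

theorem low (H : ℕ) {θ : ℕ → ℂ} (hθ : ∀ t, ‖θ t‖ = 1) (P : Fin (m + 1) → ℤ[X]) (f0 : ZMod M → ℂ)
    (f : Fin (m + 1) → ZMod M → ℂ) {I : Type} [Fintype I] (y y' : I → ZMod M) (ξ : ZMod M) :
    ev (range H) (fun t => av (fun x => chi (-ξ) x *
        ∏ i, (phi θ P f0 f t (x + y i) * (starRingEnd ℂ) (phi θ P f0 f t (x + y' i))))) =
      TP H (fun t => chi (-ξ) (pm M P t)) (fun j => P j.castSucc)
        (fun x => chi (-ξ) x * gg y y' f0 x) (fun j => gg y y' (f j.castSucc)) := by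
  unfold TP
  rw [tv_eq_ev]
  refine ev_congr fun t _ => ?_
  rw [← av_mul_left, ← av_shift _ (pm M P t)]
  congr 1
  funext x
  have hθt : (starRingEnd ℂ) (θ t) * θ t = 1 := by
    rw [mul_comm, Complex.mul_conj, Complex.normSq_eq_norm_sq, hθ]
    norm_num
  have h1 : ∀ i : I, phi θ P f0 f t (x + pm M P t + y i) *
      (starRingEnd ℂ) (phi θ P f0 f t (x + pm M P t + y' i)) =
      ((starRingEnd ℂ) (f0 (x + y i)) * f0 (x + y' i)) * ∏ j : Fin m,
        ((starRingEnd ℂ) (f j.castSucc (x + (((P j.castSucc).eval (t : ℤ) : ℤ) : ZMod M) + y i)) *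
          f j.castSucc (x + (((P j.castSucc).eval (t : ℤ) : ℤ) : ZMod M) + y' i)) := by
    intro i
    unfold phi
    rw [Complex.conj_conj, show x + pm M P t + y i - pm M P t = x + y i by ring,
      show x + pm M P t + y' i - pm M P t = x + y' i by ring]
    unfold psi
    rw [map_mul, map_mul, map_prod, Finset.prod_mul_distrib]
    have e1 : ∀ j : Fin m, x + y i + (((P j.castSucc).eval (t : ℤ) : ℤ) : ZMod M) =
        x + (((P j.castSucc).eval (t : ℤ) : ℤ) : ZMod M) + y i := fun j => by ring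
    have e2 : ∀ j : Fin m, x + y' i + (((P j.castSucc).eval (t : ℤ) : ℤ) : ZMod M) =
        x + (((P j.castSucc).eval (t : ℤ) : ℤ) : ZMod M) + y' i := fun j => by ring
    simp only [e1, e2]
    linear_combination ((starRingEnd ℂ) (f0 (x + y i)) * f0 (x + y' i) *
      (∏ j : Fin m, (starRingEnd ℂ) (f j.castSucc (x + (((P j.castSucc).eval (t : ℤ) : ℤ) : ZMod M) + y i))) *
      ∏ j : Fin m, f j.castSucc (x + (((P j.castSucc).eval (t : ℤ) : ℤ) : ZMod M) + y' i)) * hθt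
  rw [Finset.prod_congr rfl fun i _ => h1 i, Finset.prod_mul_distrib, Finset.prod_comm,
    chi_add_right]
  unfold gg
  ring

theorem chi_ex (ξ : ZMod M) (P : Fin (m + 1) → ℤ[X]) (t : ℕ) :
    chi (-ξ) (pm M P t) =
      ex ((Polynomial.C (-((ξ.val : ℝ) / (M : ℝ))) * (P (Fin.last m)).map (Int.castRingHom ℝ)).eval
        (t : ℝ)) := by
  have h1 : chi (-ξ) (pm M P t) = chi ξ (((-(P (Fin.last m)).eval (t : ℤ) : ℤ)) : ZMod M) := by
    unfold pm
    rw [Int.cast_neg, chi_neg_right, chi_neg_left]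
  rw [h1, chi_int, Polynomial.eval_mul, Polynomial.eval_C]
  have h2 : ((P (Fin.last m)).map (Int.castRingHom ℝ)).eval (t : ℝ) =
      (((P (Fin.last m)).eval (t : ℤ) : ℤ) : ℝ) := by
    have h3 := Polynomial.eval_intCast_map (Int.castRingHom ℝ) (P (Fin.last m)) (t : ℤ)
    rw [Int.cast_natCast] at h3
    exact h3
  rw [h2]
  push_cast
  congr 1
  ring

end

end RedMAux

theorem card_major (M q B H D : ℕ) [Fact M.Prime] (hq : 1 ≤ q) (hqM : q < M) (R : ℕ) (hM : M ≤ R * H ^ D) (hH : 1 ≤ H)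
    (hR : 1 ≤ R) (hB : 1 ≤ B) :
    (((univ : Finset (ZMod M)).filter (fun ξ => nrm ((q : ℝ) * ((ξ.val : ℝ) / M)) ≤ (B : ℝ) / (H : ℝ) ^ D)).card : ℝ) ≤
      3 * B * R := by
  classical
  have hMp : 0 < M := (Fact.out : M.Prime).pos
  have hMr : (0 : ℝ) < M := by exact_mod_cast hMp
  have hHr : (0 : ℝ) < H := by exact_mod_cast hH
  have hMR : (M : ℝ) ≤ R * (H : ℝ) ^ D := by exact_mod_cast hM
  obtain ⟨J, hJ⟩ : ∃ J : Finset (ZMod M), J = (Finset.Icc (-((B * R : ℕ) : ℤ)) ((B * R : ℕ) : ℤ)).image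
      (fun j : ℤ => (j : ZMod M)) := ⟨_, rfl⟩
  have hJc : J.card ≤ 3 * (B * R) := by
    have h1 : J.card ≤ (Finset.Icc (-((B * R : ℕ) : ℤ)) ((B * R : ℕ) : ℤ)).card := by
      rw [hJ]
      exact Finset.card_image_le
    rw [Int.card_Icc] at h1
    have h2 : 1 ≤ B * R := Nat.mul_pos hB hR
    omega
  have hq0 : ((q : ℕ) : ZMod M) ≠ 0 := by
    intro h
    rw [ZMod.natCast_eq_zero_iff] at h
    have := Nat.le_of_dvd (by omega) h
    omega
  have hcard : ((univ : Finset (ZMod M)).filter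
      (fun ξ => nrm ((q : ℝ) * ((ξ.val : ℝ) / M)) ≤ (B : ℝ) / (H : ℝ) ^ D)).card ≤ J.card := by
    refine Finset.card_le_card_of_injOn (fun ξ => ((q : ℕ) : ZMod M) * ξ) ?_ ?_
    · intro ξ hξ
      have hn := (Finset.mem_filter.1 hξ).2
      show ((q : ℕ) : ZMod M) * ξ ∈ J
      rw [hJ, Finset.mem_image]
      refine ⟨((q * ξ.val : ℕ) : ℤ) - round ((q : ℝ) * ((ξ.val : ℝ) / M)) * (M : ℤ), ?_, ?_⟩
      · rw [Finset.mem_Icc, ← abs_le]
        have h3 : |(((q * ξ.val : ℕ) : ℝ)) - (round ((q : ℝ) * ((ξ.val : ℝ) / M)) : ℝ) * (M : ℝ)| ≤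
            ((B * R : ℕ) : ℝ) := by
          have e : (((q * ξ.val : ℕ) : ℝ)) - (round ((q : ℝ) * ((ξ.val : ℝ) / M)) : ℝ) * (M : ℝ) =
              ((q : ℝ) * ((ξ.val : ℝ) / M) - (round ((q : ℝ) * ((ξ.val : ℝ) / M)) : ℝ)) * (M : ℝ) := by
            push_cast
            field_simp
          rw [e, abs_mul, abs_of_pos hMr]
          have hn' : |(q : ℝ) * ((ξ.val : ℝ) / M) - (round ((q : ℝ) * ((ξ.val : ℝ) / M)) : ℝ)| ≤
              (B : ℝ) / (H : ℝ) ^ D := hn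
          calc _ ≤ (B : ℝ) / (H : ℝ) ^ D * M := mul_le_mul_of_nonneg_right hn' hMr.le
            _ ≤ (B : ℝ) / (H : ℝ) ^ D * (R * (H : ℝ) ^ D) := mul_le_mul_of_nonneg_left hMR (by positivity)
            _ = ((B * R : ℕ) : ℝ) := by
              push_cast
              field_simp
        exact_mod_cast h3
      · push_cast
        rw [ZMod.natCast_self, mul_zero, sub_zero, ZMod.natCast_zmod_val]
    · intro a _ b _ hab
      exact mul_left_cancel₀ hq0 hab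
  have h4 : (((univ : Finset (ZMod M)).filter
      (fun ξ => nrm ((q : ℝ) * ((ξ.val : ℝ) / M)) ≤ (B : ℝ) / (H : ℝ) ^ D)).card : ℝ) ≤
      ((3 * (B * R) : ℕ) : ℝ) := by exact_mod_cast hcard.trans hJc
  refine h4.trans (le_of_eq ?_)
  push_cast
  ring

theorem red (m : ℕ) (hB : GenB m) : RedG m := by
  classical
  intro d hd hd1
  obtain ⟨D, hD⟩ : ∃ D, D = d (Fin.last m) := ⟨_, rfl⟩
  have hD1 : 1 ≤ D := by rw [hD]; exact hd1 _
  have hdl : ∀ j : Fin m, d j.castSucc < D := fun j => by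
    rw [hD]
    exact hd (Fin.castSucc_lt_last j)
  obtain ⟨cB, hcB⟩ := hB (fun j => d j.castSucc) D
    (fun i j hij => hd (Fin.castSucc_lt_castSucc_iff.mpr hij)) (fun j => hd1 _) hdl hD1
  obtain ⟨K, C0, hK, hus⟩ := us_g m D hD1
  obtain ⟨C2, C3, hdlow⟩ := dl K hK (2 * (cB + 1) + 3)
  obtain ⟨e0, he0⟩ : ∃ e0, e0 = 2 * C0 + 1 := ⟨_, rfl⟩
  obtain ⟨CC, hCC⟩ : ∃ CC, CC = e0 * C2 * (cB + 1) + e0 * C3 + 2 * C0 + 2 := ⟨_, rfl⟩
  refine ⟨CC, ?_⟩
  intro M _ H R hR hRH hHM hMR P hP θ hθ f0 hf0 f hf hTP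
  rw [← hD] at hHM hMR
  have hR1 : 1 ≤ R := by omega
  have hpow : ∀ a, a ≤ CC → R ^ a ≤ H := fun a ha => (Nat.pow_le_pow_right hR1 ha).trans hRH
  have hH1 : 1 ≤ H := (Nat.one_le_pow _ _ (by omega)).trans hRH
  have hHD : 0 < H ^ D := Nat.pow_pos (by omega)
  have hRr : (1 : ℝ) ≤ R := by exact_mod_cast hR1
  have hHr : (0 : ℝ) < H := by exact_mod_cast hH1
  -- the leading coefficient
  have hdeg : (P (Fin.last m)).natDegree = D := by rw [hP.1, hD]
  have hlead : ((P (Fin.last m)).coeff D).natAbs ≤ R := by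
    have h := hP.2 (Fin.last m) D hD1
    rw [← hD] at h
    exact Nat.le_of_mul_le_mul_right h hHD
  have hlead0 : (P (Fin.last m)).coeff D ≠ 0 := by
    have h1 : P (Fin.last m) ≠ 0 := by
      intro h
      rw [h, Polynomial.natDegree_zero] at hdeg
      omega
    have h2 := Polynomial.leadingCoeff_ne_zero.mpr h1
    unfold Polynomial.leadingCoeff at h2
    rwa [hdeg] at h2
  -- the dual function
  obtain ⟨F, hF⟩ : ∃ F : ZMod M → ℂ, F = fun x => ev (range H) (fun t => RedMAux.phi θ P f0 f t x) :=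
    ⟨_, rfl⟩
  have hFB : Bd F := by
    intro x
    rw [hF]
    exact norm_ev_le_one _ fun t _ => RedMAux.phi_Bd hθ hf0 hf t x
  have h1 : TP H θ P f0 f = av (fun x => f (Fin.last m) x * (starRingEnd ℂ) (F x)) := by
    rw [RedMAux.TP_eq, RedMAux.pair H θ P f0 f (f (Fin.last m)), hF]
  have h2 : 1 / (R : ℝ) ^ 2 ≤ avr (fun x => ‖F x‖ ^ 2) := by
    have h3 := norm_av_mul_sq_le (f (Fin.last m)) (fun x => (starRingEnd ℂ) (F x)) (hf _)
    simp only [Complex.norm_conj] at h3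
    rw [← h1] at h3
    refine le_trans ?_ h3
    have h4 := pow_le_pow_left₀ (by positivity) hTP 2
    rwa [div_pow, one_pow] at h4
  have h3 : TP H θ P f0 (Function.update f (Fin.last m) F) =
      ((avr (fun x => ‖F x‖ ^ 2) : ℝ) : ℂ) := by
    rw [RedMAux.TP_eq]
    simp only [RedMAux.psi_update, Function.update_self]
    rw [RedMAux.pair H θ P f0 f F, ← av_ofReal]
    congr 1
    funext x
    have h5 : ev (range H) (fun t => RedMAux.phi θ P f0 f t x) = F x := by rw [hF]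
    rw [h5, Complex.mul_conj, Complex.normSq_eq_norm_sq]
  have h4 : 1 / ((R ^ 2 : ℕ) : ℝ) ≤ ‖TP H θ P f0 (Function.update f (Fin.last m) F)‖ := by
    rw [h3, Complex.norm_real, Real.norm_eq_abs]
    refine le_trans ?_ (le_abs_self _)
    push_cast
    exact h2
  have h5 := hus M H (R ^ 2) (by nlinarith) (by
      rw [← pow_mul]
      exact hpow _ (by rw [hCC]; omega)) hHM
    (hMR.trans (Nat.mul_le_mul_right _ (by nlinarith))) P hdeg (by
      unfold Polynomial.leadingCoeff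
      rw [hdeg]
      exact hlead.trans (by nlinarith)) (fun j => by
      rw [hP.1]
      exact hdl j) θ (fun t => (hθ t).le) f0 hf0 (Function.update f (Fin.last m) F) (fun j => by
      rcases eq_or_ne j (Fin.last m) with h | h
      · rw [h, Function.update_self]
        exact hFB
      · rw [Function.update_of_ne h]
        exact hf j) h4
  rw [Function.update_self] at h5
  -- degree lowering
  have hR0 : 2 ≤ R ^ e0 := by
    calc 2 ≤ R := hR
      _ = R ^ 1 := (pow_one R).symm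
      _ ≤ R ^ e0 := Nat.pow_le_pow_right hR1 (by omega)
  have hRR0 : R ≤ R ^ e0 := by
    calc R = R ^ 1 := (pow_one R).symm
      _ ≤ R ^ e0 := Nat.pow_le_pow_right hR1 (by omega)
  obtain ⟨S, hS⟩ : ∃ S : ℕ → Finset (ZMod M), S = fun R' => univ.filter (fun ξ : ZMod M =>
      ∃ q : ℕ, 1 ≤ q ∧ q ≤ R' ^ (cB + 1) ∧
        nrm ((q : ℝ) * ((ξ.val : ℝ) / M)) ≤ ((R' ^ (cB + 1) : ℕ) : ℝ) / (H : ℝ) ^ D) := ⟨_, rfl⟩
  have hle : ∀ R' : ℕ, R' ≤ (R ^ e0) ^ C2 → ∀ a, a ≤ cB + 1 → R' ^ a ≤ R ^ (e0 * C2 * (cB + 1)) := by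
    intro R' hR' a ha
    calc R' ^ a ≤ ((R ^ e0) ^ C2) ^ a := Nat.pow_le_pow_left hR' a
      _ = R ^ (e0 * C2 * a) := by rw [← pow_mul, ← pow_mul, mul_assoc]
      _ ≤ _ := Nat.pow_le_pow_right hR1 (Nat.mul_le_mul_left _ ha)
  have hdl1 : ∀ R' : ℕ, R ^ e0 ≤ R' → R' ≤ (R ^ e0) ^ C2 →
      ((S R').card : ℝ) ≤ (R' : ℝ) ^ (2 * (cB + 1) + 3) := by
    intro R' hR'1 hR'2
    have hR'0 : 2 ≤ R' := hR0.trans hR'1
    have hRR' : R ≤ R' := hRR0.trans hR'1
    have hR'p : 1 ≤ R' ^ (cB + 1) := Nat.one_le_pow _ _ (by omega)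
    have hM : R' ^ (cB + 1) < M := by
      calc R' ^ (cB + 1) ≤ R ^ (e0 * C2 * (cB + 1)) := hle R' hR'2 _ le_rfl
        _ < R ^ (e0 * C2 * (cB + 1) + 1) := Nat.pow_lt_pow_right (by omega) (by omega)
        _ ≤ H := hpow _ (by rw [hCC]; omega)
        _ = H ^ 1 := (pow_one H).symm
        _ ≤ H ^ D := Nat.pow_le_pow_right hH1 hD1
        _ ≤ M := hHM
    have hsub : S R' ⊆ (Finset.Icc 1 (R' ^ (cB + 1))).biUnion (fun q =>
        (univ : Finset (ZMod M)).filter (fun ξ => nrm ((q : ℝ) * ((ξ.val : ℝ) / M)) ≤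
          ((R' ^ (cB + 1) : ℕ) : ℝ) / (H : ℝ) ^ D)) := by
      intro ξ hξ
      rw [hS, Finset.mem_filter] at hξ
      obtain ⟨-, q, hq1, hq2, hq3⟩ := hξ
      exact Finset.mem_biUnion.mpr ⟨q, Finset.mem_Icc.mpr ⟨hq1, hq2⟩,
        Finset.mem_filter.mpr ⟨Finset.mem_univ _, hq3⟩⟩
    have hc1 : ((S R').card : ℝ) ≤ ∑ q ∈ Finset.Icc 1 (R' ^ (cB + 1)),
        (((univ : Finset (ZMod M)).filter (fun ξ => nrm ((q : ℝ) * ((ξ.val : ℝ) / M)) ≤
          ((R' ^ (cB + 1) : ℕ) : ℝ) / (H : ℝ) ^ D)).card : ℝ) := by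
      exact_mod_cast (Finset.card_le_card hsub).trans Finset.card_biUnion_le
    have hc2 : ∑ q ∈ Finset.Icc 1 (R' ^ (cB + 1)),
        (((univ : Finset (ZMod M)).filter (fun ξ => nrm ((q : ℝ) * ((ξ.val : ℝ) / M)) ≤
          ((R' ^ (cB + 1) : ℕ) : ℝ) / (H : ℝ) ^ D)).card : ℝ) ≤
        ∑ _q ∈ Finset.Icc 1 (R' ^ (cB + 1)), 3 * ((R' ^ (cB + 1) : ℕ) : ℝ) * R := by
      refine Finset.sum_le_sum fun q hq => ?_
      rw [Finset.mem_Icc] at hq
      exact card_major M q (R' ^ (cB + 1)) H D hq.1 (by omega) R hMR hH1 hR1 hR'p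
    rw [Finset.sum_const, Nat.card_Icc, Nat.add_sub_cancel, nsmul_eq_mul] at hc2
    refine (hc1.trans hc2).trans ?_
    push_cast
    have hR'r : (2 : ℝ) ≤ R' := by exact_mod_cast hR'0
    have hRR'r : (R : ℝ) ≤ R' := by exact_mod_cast hRR'
    have e1 : (R' : ℝ) ^ (2 * (cB + 1) + 3) = (R' : ℝ) ^ (cB + 1) * ((R' : ℝ) ^ (cB + 1) * R' ^ 3) := by
      rw [← pow_add, ← pow_add]
      congr 1
      ring
    rw [e1]
    have hp0 : (0 : ℝ) ≤ (R' : ℝ) ^ (cB + 1) := by positivity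
    refine mul_le_mul_of_nonneg_left ?_ hp0
    have e2 : 3 * (R' : ℝ) ^ (cB + 1) * R = (R' : ℝ) ^ (cB + 1) * (3 * R) := by ring
    rw [e2]
    refine mul_le_mul_of_nonneg_left ?_ hp0
    have e3 : (4 : ℝ) ≤ (R' : ℝ) ^ 2 := by nlinarith
    calc 3 * (R : ℝ) ≤ 4 * R' := by linarith
      _ ≤ R' ^ 2 * R' := mul_le_mul_of_nonneg_right e3 (by linarith)
      _ = (R' : ℝ) ^ 3 := by ring
  have hdl2 : ∀ R' : ℕ, R ^ e0 ≤ R' → R' ≤ (R ^ e0) ^ C2 → ∀ (I : Type) [Fintype I]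
      (y y' : I → ZMod M) (ξ : ZMod M),
      1 / (R' : ℝ) ≤ ‖ev (range H) (fun t => av (fun x => chi (-ξ) x *
        ∏ i, (RedMAux.phi θ P f0 f t (x + y i) *
          (starRingEnd ℂ) (RedMAux.phi θ P f0 f t (x + y' i)))))‖ → ξ ∈ S R' := by
    intro R' hR'1 hR'2 I _ y y' ξ hξ
    have hR'0 : 2 ≤ R' := hR0.trans hR'1
    have hRR' : R ≤ R' := hRR0.trans hR'1
    rw [RedMAux.low H hθ P f0 f y y' ξ] at hξ
    simp only [RedMAux.chi_ex] at hξ
    obtain ⟨q, hq1, hq2, hq3⟩ := hcB M H R' hR'0 ((hle R' hR'2 cB (by omega)).trans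
      (hpow _ (by rw [hCC]; omega))) (fun j => P j.castSucc)
      ⟨fun j => hP.1 _, fun j i hi => (hP.2 _ i hi).trans (Nat.mul_le_mul_right _ hRR')⟩
      (Polynomial.C (-((ξ.val : ℝ) / (M : ℝ))) * (P (Fin.last m)).map (Int.castRingHom ℝ))
      ((Polynomial.natDegree_C_mul_le _ _).trans (Polynomial.natDegree_map_le.trans hdeg.le))
      (fun x => chi (-ξ) x * RedMAux.gg y y' f0 x) (fun x => by
        rw [norm_mul, norm_chi, one_mul]
        exact RedMAux.gg_Bd y y' hf0 x) (fun j => RedMAux.gg y y' (f j.castSucc))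
      (fun j => RedMAux.gg_Bd y y' (hf _)) hξ
    rw [hS, Finset.mem_filter]
    refine ⟨Finset.mem_univ _, q * ((P (Fin.last m)).coeff D).natAbs, ?_, ?_, ?_⟩
    · exact Nat.mul_pos hq1 (Int.natAbs_pos.mpr hlead0)
    · rw [pow_succ]
      exact Nat.mul_le_mul hq2 (hlead.trans hRR')
    · rw [Polynomial.coeff_C_mul, Polynomial.coeff_map] at hq3
      have hz : ((((P (Fin.last m)).coeff D).natAbs : ℕ) : ℝ) = |(((P (Fin.last m)).coeff D : ℤ) : ℝ)| := by
        rw [Nat.cast_natAbs, Int.cast_abs]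
      have e : nrm (((q * ((P (Fin.last m)).coeff D).natAbs : ℕ) : ℝ) * ((ξ.val : ℝ) / M)) =
          nrm ((q : ℝ) * (-((ξ.val : ℝ) / (M : ℝ)) * (Int.castRingHom ℝ) ((P (Fin.last m)).coeff D))) := by
        rw [eq_intCast]
        rcases abs_choice (((P (Fin.last m)).coeff D : ℤ) : ℝ) with h | h
        · rw [← nrm_ng ((q : ℝ) * (-((ξ.val : ℝ) / (M : ℝ)) * (((P (Fin.last m)).coeff D : ℤ) : ℝ)))]
          congr 1
          push_cast
          rw [hz, h]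
          ring
        · congr 1
          push_cast
          rw [hz, h]
          ring
      rw [e]
      refine hq3.trans ?_
      refine div_le_div_of_nonneg_right ?_ (by positivity)
      push_cast
      exact pow_le_pow_right₀ (by exact_mod_cast (by omega : 1 ≤ R')) (by omega)
  have hUU : 1 / ((R ^ e0 : ℕ) : ℝ) ≤ UU K (fun x => ev (range H) (fun t => RedMAux.phi θ P f0 f t x)) := by
    rw [hF] at h5
    refine le_trans ?_ h5
    push_cast
    rw [← pow_mul]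
    exact one_div_le_one_div_of_le (by positivity) (pow_le_pow_right₀ hRr (by omega))
  obtain ⟨η, hη⟩ := hdlow M (R ^ e0) hR0 ℕ (range H) (RedMAux.phi θ P f0 f)
    (Finset.nonempty_range_iff.mpr (by omega)) (fun t => RedMAux.phi_Bd hθ hf0 hf t) S hdl1 hdl2 hUU
  refine ⟨η, ?_⟩
  rw [RedMAux.TP_chi, RedMAux.pair H θ P f0 f (chi η)]
  have h6 : ‖av (fun x => chi η x * (starRingEnd ℂ) (ev (range H) (fun t => RedMAux.phi θ P f0 f t x)))‖ =
      ‖ft (fun x => ev (range H) (fun t => RedMAux.phi θ P f0 f t x)) η‖ := by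
    unfold ft
    rw [← Complex.norm_conj (av _), ← av_conj]
    congr 2
    funext x
    rw [map_mul, Complex.conj_conj, chi_neg_left, mul_comm]
  rw [h6]
  refine le_trans ?_ hη
  push_cast
  rw [← pow_mul]
  exact one_div_le_one_div_of_le (by positivity) (pow_le_pow_right₀ hRr (by rw [hCC]; omega))

end Pool.Agent.NLG
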