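import Pool.Agent.Lib.NLG.CoreAm
import Pool.Agent.Lib.NLG.CoreBm
import Pool.Agent.Lib.NLG.RedM
import Pool.Agent.Lib.NLG.BlkB
import Pool.Agent.Lib.NLG.BlkC

/-!
# The inverse theorem for polynomials of distinct degrees
-/

set_option autoImplicit false

namespace Pool.Agent.NLG

theorem gen_all (m : ℕ) : GenA m ∧ GenB m := by
  induction m with
  | zero =>
    refine ⟨?_, genB_zero⟩
    intro d _ _
    exact ⟨0, fun M _ H R _ _ P _ f0 _ f _ _ j => j.elim0⟩
  | succ m ih =>
    have h := red m ih.2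
    exact ⟨genA_succ m (coreA m h ih.2 ih.1), genB_succ m (coreB m h ih.2)⟩

theorem genA (m : ℕ) : GenA m := (gen_all m).1

end Pool.Agent.NLG
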