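import Pool.Agent.Lib.NLG.Ev

/-!
# Module BXA: box averages, first facts

PROOFS. `PD_fe`: `fe A v` is nonnegative with sum `A ^ 2 / A ^ 2` (every pair lies over one `y`), and
`∑ y, fe A v y * chi ξ y = (1 / A ^ 2) ∑_(i, j < A) chi ξ (v (j - i)) = ‖tv A (chi ξ (v i))‖ ^ 2 ≥ 0`.
`PD_un`: `∑ y, (1 / M) chi ξ y` is `1` or `0` (`sum_chi`).
`BB_perm`: `List.Perm` induction; the swap of the first two measures is `Dl_comm` and `Finset.sum_comm`.
`norm_BB_le`: induction (`Dl_Bd`). `BB_shift`, `BB_conj`: induction (`Dl_shift`, `Dl_conj`, `av_shift`, `av_conj`).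
`BB_pos`: induction on the list. One measure: `∑ y, μ y av (Dl y F) = ∑ ξ ‖ft F ξ‖ ^ 2 * (∑ y, μ y chi (-ξ) y)` by `av_Dl`, a sum
of products of nonnegative numbers. More measures `μ :: L`: each `BB L (Dl y F)` is a nonnegative real number.
-/

set_option autoImplicit false

open Finset

namespace Pool.Agent.NLG

open Pool.Agent.HLT Pool.Agent.NLT

variable {M : ℕ} [NeZero M]

theorem fe_char (A : ℕ) (hA : 1 ≤ A) (v ξ : ZMod M) :
    ∑ y, (fe A v y : ℂ) * chi ξ y = ((‖tv A (fun i => chi ξ (v * (i : ZMod M)))‖ ^ 2 : ℝ) : ℂ) := by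
  classical
  have hA0 : (A : ℂ) ≠ 0 := by exact_mod_cast (by omega : A ≠ 0)
  have h1 : ∀ y : ZMod M, (fe A v y : ℂ) * chi ξ y =
      (∑ p ∈ (range A ×ˢ range A).filter (fun p => v * ((p.2 : ZMod M) - (p.1 : ZMod M)) = y),
        chi ξ (v * ((p.2 : ZMod M) - (p.1 : ZMod M)))) / (A : ℂ) ^ 2 := by
    intro y
    have h2 : ∑ p ∈ (range A ×ˢ range A).filter (fun p => v * ((p.2 : ZMod M) - (p.1 : ZMod M)) = y),
        chi ξ (v * ((p.2 : ZMod M) - (p.1 : ZMod M))) =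
        ∑ _p ∈ (range A ×ˢ range A).filter (fun p => v * ((p.2 : ZMod M) - (p.1 : ZMod M)) = y), chi ξ y := by
      refine Finset.sum_congr rfl (fun p hp => ?_)
      rw [(Finset.mem_filter.mp hp).2]
    rw [h2, Finset.sum_const, nsmul_eq_mul]
    unfold fe
    push_cast
    ring
  rw [Finset.sum_congr rfl (fun y _ => h1 y), ← Finset.sum_div]
  have h3 : ∑ y : ZMod M, ∑ p ∈ (range A ×ˢ range A).filter (fun p => v * ((p.2 : ZMod M) - (p.1 : ZMod M)) = y),
        chi ξ (v * ((p.2 : ZMod M) - (p.1 : ZMod M))) =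
      ∑ p ∈ range A ×ˢ range A, chi ξ (v * ((p.2 : ZMod M) - (p.1 : ZMod M))) :=
    Finset.sum_fiberwise_of_maps_to (fun _ _ => Finset.mem_univ _) _
  rw [h3]
  have h4 : ((‖tv A (fun i => chi ξ (v * (i : ZMod M)))‖ ^ 2 : ℝ) : ℂ) =
      tv A (fun i => chi ξ (v * (i : ZMod M))) * (starRingEnd ℂ) (tv A (fun i => chi ξ (v * (i : ZMod M)))) := by
    rw [Complex.mul_conj, Complex.normSq_eq_norm_sq]
  rw [h4]
  unfold tv
  rw [map_div₀, map_sum, Complex.conj_natCast, div_mul_div_comm, Finset.sum_mul_sum, ← sq, Finset.sum_product_right]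
  congr 1
  refine Finset.sum_congr rfl (fun j _ => Finset.sum_congr rfl (fun i _ => ?_))
  rw [mul_sub, chi_sub_right]

theorem PD_fe (A : ℕ) (hA : 1 ≤ A) (v : ZMod M) : PD (fe A v) := by
  classical
  refine ⟨fun y => ?_, ?_, fun ξ => ⟨_, by positivity, fe_char A hA v ξ⟩⟩
  · unfold fe
    positivity
  · have h := fe_char A hA v 0
    have h1 : ∀ y : ZMod M, (fe A v y : ℂ) * chi 0 y = ((fe A v y : ℝ) : ℂ) := by
      intro y
      rw [chi_zero_left, mul_one]
    rw [Finset.sum_congr rfl (fun y _ => h1 y)] at h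
    have h2 : tv A (fun i => chi (0 : ZMod M) (v * (i : ZMod M))) = 1 := by
      have hA0 : (A : ℂ) ≠ 0 := by exact_mod_cast (by omega : A ≠ 0)
      unfold tv
      simp only [chi_zero_left, Finset.sum_const, Finset.card_range, nsmul_eq_mul, mul_one]
      exact div_self hA0
    rw [h2] at h
    have h3 : ((∑ y, fe A v y : ℝ) : ℂ) = ((1 : ℝ) : ℂ) := by
      push_cast
      rw [h]
      simp
    exact_mod_cast h3

theorem PD_un : PD (un : ZMod M → ℝ) := by
  have hM : (M : ℝ) ≠ 0 := by exact_mod_cast NeZero.ne M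
  have hMC : (M : ℂ) ≠ 0 := by exact_mod_cast NeZero.ne M
  refine ⟨fun y => ?_, ?_, fun ξ => ?_⟩
  · unfold un
    positivity
  · unfold un
    rw [Finset.sum_const, Finset.card_univ, ZMod.card, nsmul_eq_mul]
    field_simp
  · refine ⟨if ξ = 0 then 1 else 0, by split_ifs <;> norm_num, ?_⟩
    unfold un
    rw [← Finset.mul_sum, sum_chi]
    split_ifs
    · push_cast
      field_simp
    · simp

theorem BB_pos (L : List (ZMod M → ℝ)) (hL : L ≠ []) (h : ∀ μ ∈ L, PD μ) (F : ZMod M → ℂ) :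
    ∃ r : ℝ, 0 ≤ r ∧ BB L F = r := by
  induction L generalizing F with
  | nil => exact absurd rfl hL
  | cons μ L ih =>
    have hμ := h μ (by simp)
    have hL' : ∀ ν ∈ L, PD ν := fun ν hν => h ν (by simp [hν])
    rcases eq_or_ne L [] with hN | hN
    · subst hN
      choose r hr0 hr using hμ.2.2
      refine ⟨∑ ξ, ‖ft F ξ‖ ^ 2 * r (-ξ), Finset.sum_nonneg fun ξ _ => mul_nonneg (by positivity) (hr0 _), ?_⟩
      show ∑ y, (μ y : ℂ) * av (Dl y F) = _
      have h1 : ∀ y, (μ y : ℂ) * av (Dl y F) = ∑ ξ, ((‖ft F ξ‖ ^ 2 : ℝ) : ℂ) * ((μ y : ℂ) * chi (-ξ) y) := by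
        intro y
        rw [av_Dl, Finset.mul_sum]
        refine Finset.sum_congr rfl fun ξ _ => ?_
        ring
      rw [Finset.sum_congr rfl (fun y _ => h1 y), Finset.sum_comm]
      push_cast
      refine Finset.sum_congr rfl fun ξ _ => ?_
      rw [← Finset.mul_sum, hr (-ξ)]
    · choose r hr0 hr using fun y => ih hN hL' (Dl y F)
      refine ⟨∑ y, μ y * r y, Finset.sum_nonneg fun y _ => mul_nonneg (hμ.1 y) (hr0 y), ?_⟩
      show ∑ y, (μ y : ℂ) * BB L (Dl y F) = _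
      push_cast
      refine Finset.sum_congr rfl fun y _ => ?_
      rw [hr y]

theorem BB_perm {L L' : List (ZMod M → ℝ)} (h : L.Perm L') (F : ZMod M → ℂ) : BB L F = BB L' F := by
  induction h generalizing F with
  | nil => rfl
  | cons μ _ ih =>
    show ∑ y, (μ y : ℂ) * BB _ (Dl y F) = ∑ y, (μ y : ℂ) * BB _ (Dl y F)
    exact Finset.sum_congr rfl fun y _ => by rw [ih]
  | swap μ ν L =>
    show ∑ y, (ν y : ℂ) * ∑ z, (μ z : ℂ) * BB L (Dl z (Dl y F)) = ∑ z, (μ z : ℂ) * ∑ y, (ν y : ℂ) * BB L (Dl y (Dl z F))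
    simp_rw [Finset.mul_sum]
    rw [Finset.sum_comm]
    refine Finset.sum_congr rfl fun z _ => Finset.sum_congr rfl fun y _ => ?_
    rw [Dl_comm]
    ring
  | trans _ _ ih1 ih2 => rw [ih1, ih2]

theorem norm_BB_le (L : List (ZMod M → ℝ)) (h : ∀ μ ∈ L, PD μ) (F : ZMod M → ℂ) (hF : Bd F) : ‖BB L F‖ ≤ 1 := by
  induction L generalizing F with
  | nil => exact norm_av_le_one hF
  | cons μ L ih =>
    have hμ := h μ (by simp)
    have hL' : ∀ ν ∈ L, PD ν := fun ν hν => h ν (by simp [hν])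
    show ‖∑ y, (μ y : ℂ) * BB L (Dl y F)‖ ≤ 1
    calc ‖∑ y, (μ y : ℂ) * BB L (Dl y F)‖ ≤ ∑ y, ‖(μ y : ℂ) * BB L (Dl y F)‖ := norm_sum_le _ _
      _ ≤ ∑ y, μ y := by
          refine Finset.sum_le_sum fun y _ => ?_
          rw [norm_mul, Complex.norm_real, Real.norm_eq_abs, abs_of_nonneg (hμ.1 y)]
          exact mul_le_of_le_one_right (hμ.1 y) (ih hL' _ (Dl_Bd y hF))
      _ = 1 := hμ.2.1

theorem BB_shift (L : List (ZMod M → ℝ)) (F : ZMod M → ℂ) (h : ZMod M) : BB L (fun x => F (x + h)) = BB L F := by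
  induction L generalizing F with
  | nil => exact av_shift F h
  | cons μ L ih =>
    show ∑ y, (μ y : ℂ) * BB L (Dl y (fun x => F (x + h))) = ∑ y, (μ y : ℂ) * BB L (Dl y F)
    refine Finset.sum_congr rfl fun y _ => ?_
    rw [Dl_shift, ih]

theorem BB_conj (L : List (ZMod M → ℝ)) (F : ZMod M → ℂ) :
    BB L (fun x => (starRingEnd ℂ) (F x)) = (starRingEnd ℂ) (BB L F) := by
  induction L generalizing F with
  | nil => exact av_conj F
  | cons μ L ih =>
    show ∑ y, (μ y : ℂ) * BB L (Dl y (fun x => (starRingEnd ℂ) (F x))) =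
      (starRingEnd ℂ) (∑ y, (μ y : ℂ) * BB L (Dl y F))
    rw [map_sum]
    refine Finset.sum_congr rfl fun y _ => ?_
    rw [Dl_conj, ih, map_mul, Complex.conj_ofReal]

end Pool.Agent.NLG
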