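import Pool.Agent.Lib.NLG.BXA

/-!
# Module BXB: box averages, recursion formulas, Gowers norms

PROOFS. `BB_fe`: `∑ y, fe A v y * G y = (1 / A ^ 2) ∑_(i, j < A) G (v (j - i))` (sum over the fibres). `BB_un`: definition.
`BB_fe_one`: `Q2 A F v = avr_x ‖tv A (fun i => F (x + v i))‖ ^ 2`, expand the square, shift `x` by `v i`.
`BB_un_one`: `av_u av_x F x * conj (F (x + u)) = av F * conj (av F)`.
`BB_split`: induction on `L`; `ι = Unit` for `[]`; for `μ :: L` take `ι' = (y : ZMod M) × ι_y` (or `ZMod M` times the index type of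
`Dl y F`, chosen by `Classical.choice`), weights `μ y * w`, functions those of `Dl y F`.
`UU_two`: `∑ ξ ‖ft F ξ‖ ^ 4` by two `un`'s: `avr_h ‖av (Dl h F)‖ ^ 2`, `av_Dl` and Parseval (`parseval_series`).
`UU_succ`: `List.replicate_succ`, `BB_un`, real parts. `UU_nonneg`, `UU_le_one`: `BB_pos`, `norm_BB_le` (for `K = 0` the
value is `(av F).re`, so `UU_nonneg` needs `1 ≤ K`). `UU_add`: `BB_split`/induction: `U^(K + K')` is the average over
`K` uniform differences of `U^K'`.
-/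

set_option autoImplicit false

open Finset

namespace Pool.Agent.NLG

open Pool.Agent.HLT Pool.Agent.NLT

variable {M : ℕ} [NeZero M]

theorem BB_fe (A : ℕ) (v : ZMod M) (L : List (ZMod M → ℝ)) (F : ZMod M → ℂ) :
    BB (fe A v :: L) F =
      tv A (fun i => tv A (fun j => BB L (Dl (v * ((j : ZMod M) - (i : ZMod M))) F))) := by
  change ∑ y, (fe A v y : ℂ) * BB L (Dl y F) = _
  set G : ZMod M → ℂ := fun y => BB L (Dl y F) with hG
  have h1 : ∀ y, (fe A v y : ℂ) * G y =
      (∑ p ∈ (range A ×ˢ range A).filter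
        (fun p => v * ((p.2 : ZMod M) - (p.1 : ZMod M)) = y),
        G (v * ((p.2 : ZMod M) - (p.1 : ZMod M)))) / (A : ℂ) ^ 2 := by
    intro y
    have h2 : ∑ p ∈ (range A ×ˢ range A).filter
        (fun p => v * ((p.2 : ZMod M) - (p.1 : ZMod M)) = y),
        G (v * ((p.2 : ZMod M) - (p.1 : ZMod M))) =
        (((range A ×ˢ range A).filter
          (fun p => v * ((p.2 : ZMod M) - (p.1 : ZMod M)) = y)).card : ℂ) * G y := by
      rw [← nsmul_eq_mul, ← sum_const]
      refine sum_congr rfl fun p hp => ?_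
      rw [(mem_filter.1 hp).2]
    rw [h2]
    unfold fe
    push_cast
    ring
  rw [sum_congr rfl fun y _ => h1 y, ← sum_div]
  rw [sum_fiberwise (range A ×ˢ range A) (fun p => v * ((p.2 : ZMod M) - (p.1 : ZMod M)))
    (fun p => G (v * ((p.2 : ZMod M) - (p.1 : ZMod M)))), sum_product]
  unfold tv
  rw [← sum_div, div_div, sq]

theorem BB_un (L : List (ZMod M → ℝ)) (F : ZMod M → ℂ) :
    BB (un :: L) F = av (fun u => BB L (Dl u F)) := by
  change ∑ y, ((un y : ℝ) : ℂ) * BB L (Dl y F) = _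
  unfold un av
  rw [sum_div]
  refine sum_congr rfl fun y _ => ?_
  push_cast
  ring

theorem BB_fe_one (A : ℕ) (v : ZMod M) (F : ZMod M → ℂ) :
    BB [fe A v] F = ((Q2 A F v : ℝ) : ℂ) := by
  rw [BB_fe, Q2_dvc, dvc_eq_tv]
  congr 1
  funext i
  congr 1
  funext j
  change av (Dl (v * ((j : ZMod M) - (i : ZMod M))) F) = _
  push_cast
  rfl

theorem BB_un_one (F : ZMod M → ℂ) : BB [un] F = ((‖av F‖ ^ 2 : ℝ) : ℂ) := by
  rw [BB_un, norm_av_sq]
  rfl

/-- The average over the differences with laws in `L`, as a weighted average over a finite set. -/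
theorem BB_split (L : List (ZMod M → ℝ)) (hL : ∀ μ ∈ L, PD μ) (F : ZMod M → ℂ) (hF : Bd F) :
    ∃ (ι : Type) (s : Finset ι) (w : ι → ℝ) (G : ι → ZMod M → ℂ), (∀ j, 0 ≤ w j) ∧ ∑ j ∈ s, w j = 1 ∧
      (∀ j, Bd (G j)) ∧ ∀ L' : List (ZMod M → ℝ), BB (L ++ L') F = ∑ j ∈ s, (w j : ℂ) * BB L' (G j) := by
  induction L generalizing F with
  | nil =>
    refine ⟨Unit, {()}, fun _ => 1, fun _ => F, fun _ => zero_le_one, by simp, fun _ => hF, ?_⟩
    intro L'
    simp
  | cons μ L ih =>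
    have hμ := hL μ List.mem_cons_self
    have hex := fun y : ZMod M => ih (fun ν hν => hL ν (List.mem_cons_of_mem _ hν)) (Dl y F) (Dl_Bd y hF)
    choose ι s w G h1 h2 h3 h4 using hex
    refine ⟨(y : ZMod M) × ι y, univ.sigma s, fun p => μ p.1 * w p.1 p.2, fun p => G p.1 p.2,
      fun p => mul_nonneg (hμ.1 _) (h1 _ _), ?_, fun p => h3 _ _, ?_⟩
    · rw [sum_sigma]
      simp only
      rw [← hμ.2.1]
      refine sum_congr rfl fun y _ => ?_
      rw [← mul_sum, h2, mul_one]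
    · intro L'
      rw [sum_sigma]
      change ∑ y, (μ y : ℂ) * BB (L ++ L') (Dl y F) = _
      refine sum_congr rfl fun y _ => ?_
      rw [h4, mul_sum]
      refine sum_congr rfl fun j _ => ?_
      push_cast
      ring

theorem UU_two (F : ZMod M → ℂ) : UU 2 F = ∑ ξ, ‖ft F ξ‖ ^ 4 := by
  have h1 : BB (List.replicate 2 (un : ZMod M → ℝ)) F =
      ((avr (fun u => ‖av (Dl u F)‖ ^ 2) : ℝ) : ℂ) := by
    change BB (un :: [un]) F = _
    rw [BB_un, ← av_ofReal]
    congr 1
    funext u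
    rw [BB_un_one]
  unfold UU
  rw [h1, Complex.ofReal_re, ← U2_eq]
  rfl

theorem UU_succ (K : ℕ) (F : ZMod M → ℂ) : UU (K + 1) F = avr (fun u => UU K (Dl u F)) := by
  unfold UU
  rw [List.replicate_succ, BB_un]
  unfold av avr
  rw [Complex.div_natCast_re, Complex.re_sum]

theorem UU_nonneg (K : ℕ) (hK : 1 ≤ K) (F : ZMod M → ℂ) : 0 ≤ UU K F := by
  obtain ⟨r, hr, h⟩ := BB_pos (List.replicate K (un : ZMod M → ℝ))
    (by
      intro h
      rw [List.replicate_eq_nil_iff] at h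
      omega)
    (fun μ hμ => by
      rw [List.eq_of_mem_replicate hμ]
      exact PD_un) F
  unfold UU
  rw [h, Complex.ofReal_re]
  exact hr

theorem UU_le_one (K : ℕ) (F : ZMod M → ℂ) (hF : Bd F) : UU K F ≤ 1 := by
  unfold UU
  refine (Complex.re_le_norm _).trans (norm_BB_le _ (fun μ hμ => ?_) F hF)
  rw [List.eq_of_mem_replicate hμ]
  exact PD_un

/-- `BB` of a nonempty list of positive definite measures is the number `‖BB‖`. -/
theorem BB_eq_norm (L : List (ZMod M → ℝ)) (hL : L ≠ []) (h : ∀ μ ∈ L, PD μ) (F : ZMod M → ℂ) :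
    BB L F = ((‖BB L F‖ : ℝ) : ℂ) := by
  obtain ⟨r, hr, h1⟩ := BB_pos L hL h F
  rw [h1, Complex.norm_real, Real.norm_of_nonneg hr]

end Pool.Agent.NLG
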