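import Pool.Agent.Lib.NLG.Ev

/-!
# Module Bcs: the box Cauchy-Schwarz inequality for `k` variables

PROOF of `bcs` by induction on `k`, for all `α`, `P`, `Φ`, `b`. `k = 0`: both sides are `‖ev P (Φ p _)‖`. `k + 1`: write `m = a :: m'`.
The factor `b 0 p m` does not depend on `a`: it is `b 0 p (a0 :: m')` for a fixed `a0 ∈ S` (`S` empty: the left side is `0`). By
Cauchy-Schwarz in `(p, m')` (`norm_ev_mul_sq_le`, after writing `ev P (mv S k ..)` as a nested average; a lemma
`‖mv S k (b * F)‖ ^ 2 ≤ mv-average of ‖F‖ ^ 2` by induction, or rewrite `mv S k` as `ev (Fintype.piFinset fun _ => S)`)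
  `‖..‖ ^ 2 ≤ ev P (mv S k (fun m' => ‖ev S (fun a => Φ p (a :: m') ∏_(i ≥ 1) b i p (a :: m'))‖ ^ 2))`
  `= ev_(p, a, a') mv S k (fun m' => Φ' (p, a, a') m' ∏_i b' i (p, a, a') m')`, `Φ' (p, a, a') m' = Φ p (a :: m') conj (Φ p (a' :: m'))`,
  `b' i (p, a, a') m' = b (i + 1) p (a :: m') conj (b (i + 1) p (a' :: m'))`.
Apply the induction hypothesis with `P' = P ×ˢ S ×ˢ S` and raise: `‖..‖ ^ (2 ^ (k + 1)) ≤ ‖ev P' (bx S k Φ')‖ = ‖ev P (bx S (k + 1) Φ)‖`.
`mv_eq`: induction with `Fin.consEquiv` / `Fintype.piFinset` (cardinality `S.card ^ k`).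
-/

set_option autoImplicit false

open Finset

namespace Pool.Agent.NLG

theorem sum_piFin_succ {Y : Type} (S : Finset Y) (k : ℕ) (Φ : (Fin (k + 1) → Y) → ℂ) :
    ∑ f ∈ Fintype.piFinset (fun _ : Fin (k + 1) => S), Φ f =
      ∑ a ∈ S, ∑ m ∈ Fintype.piFinset (fun _ : Fin k => S), Φ (Fin.cons a m : Fin (k + 1) → Y) := by
  rw [← Finset.sum_product']
  refine Finset.sum_nbij' (fun f => (f 0, Fin.tail f)) (fun x => (Fin.cons x.1 x.2 : Fin (k + 1) → Y))
    (fun f hf => ?_) (fun x hx => ?_) (fun f _ => ?_) (fun x _ => ?_) (fun f _ => ?_)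
  · rw [Fintype.mem_piFinset] at hf
    rw [Finset.mem_product, Fintype.mem_piFinset]
    exact ⟨hf 0, fun i => hf i.succ⟩
  · rw [Finset.mem_product, Fintype.mem_piFinset] at hx
    rw [Fintype.mem_piFinset]
    intro i
    refine Fin.cases ?_ (fun j => ?_) i
    · simpa using hx.1
    · simpa using hx.2 j
  · exact Fin.cons_self_tail f
  · simp
  · rw [Fin.cons_self_tail]

theorem mv_eq {Y : Type} (S : Finset Y) (k : ℕ) (Φ : (Fin k → Y) → ℂ) :
    mv S k Φ = ev (Fintype.piFinset (fun _ : Fin k => S)) Φ := by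
  induction k with
  | zero =>
    unfold ev
    rw [mv]
    have h : Fintype.piFinset (fun _ : Fin 0 => S) = {fun i => i.elim0} := by
      ext f
      simp only [Fintype.mem_piFinset, Finset.mem_singleton]
      exact ⟨fun _ => funext fun i => i.elim0, fun _ i => i.elim0⟩
    rw [h]
    simp
  | succ k ih =>
    rw [mv]
    have h1 : (fun a => mv S k (fun m => Φ (Fin.cons a m : Fin (k + 1) → Y))) =
        fun a => ev (Fintype.piFinset (fun _ : Fin k => S)) (fun m => Φ (Fin.cons a m : Fin (k + 1) → Y)) := by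
      funext a
      exact ih _
    rw [h1]
    unfold ev
    rw [sum_piFin_succ, ← Finset.sum_div, div_div, Fintype.card_piFinset_const, Fintype.card_piFinset_const,
      Nat.pow_succ]
    push_cast
    rfl

theorem bcs {α Y : Type} (P : Finset α) (S : Finset Y) (k : ℕ) (Φ : α → (Fin k → Y) → ℂ)
    (b : Fin k → α → (Fin k → Y) → ℂ) (hb : ∀ i p m, ‖b i p m‖ ≤ 1)
    (hi : ∀ i p (m m' : Fin k → Y), (∀ j, j ≠ i → m j = m' j) → b i p m = b i p m') :
    ‖ev P (fun p => mv S k (fun m => Φ p m * ∏ i, b i p m))‖ ^ (2 ^ k) ≤ ‖ev P (fun p => bx S k (Φ p))‖ := by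
  classical
  induction k generalizing α with
  | zero =>
    rw [pow_zero, pow_one]
    refine le_of_eq ?_
    congr 1
    refine ev_congr fun p _ => ?_
    rw [mv, bx]
    simp
  | succ k ih =>
    rcases S.eq_empty_or_nonempty with hS | ⟨a0, ha0⟩
    · have h0 : (fun p => mv S (k + 1) (fun m => Φ p m * ∏ i, b i p m)) = fun _ => (0 : ℂ) := by
        funext p
        rw [mv, hS]
        unfold ev
        simp
      rw [h0]
      have h1 : ev P (fun _ => (0 : ℂ)) = 0 := by
        unfold ev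
        simp
      rw [h1, norm_zero, zero_pow (by positivity)]
      exact norm_nonneg _
    set T := Fintype.piFinset (fun _ : Fin k => S) with hT
    set H : α → Y → (Fin k → Y) → ℂ := fun p a m => Φ p (Fin.cons a m : Fin (k + 1) → Y) *
      ∏ i : Fin k, b i.succ p (Fin.cons a m : Fin (k + 1) → Y) with hH
    set B : α → (Fin k → Y) → ℂ := fun p m => b 0 p (Fin.cons a0 m : Fin (k + 1) → Y) with hB
    set Φ' : α × Y × Y → (Fin k → Y) → ℂ := fun q m => Φ q.1 (Fin.cons q.2.1 m : Fin (k + 1) → Y) *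
      (starRingEnd ℂ) (Φ q.1 (Fin.cons q.2.2 m : Fin (k + 1) → Y)) with hΦ'
    set b' : Fin k → α × Y × Y → (Fin k → Y) → ℂ := fun i q m =>
      b i.succ q.1 (Fin.cons q.2.1 m : Fin (k + 1) → Y) *
      (starRingEnd ℂ) (b i.succ q.1 (Fin.cons q.2.2 m : Fin (k + 1) → Y)) with hb'
    -- the left side
    have e1 : ev P (fun p => mv S (k + 1) (fun m => Φ p m * ∏ i, b i p m)) =
        ev (P ×ˢ T) (fun x => B x.1 x.2 * ev S (fun a => H x.1 a x.2)) := by
      rw [ev_prod]
      refine ev_congr fun p _ => ?_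
      rw [mv]
      have h1 : ev S (fun a => mv S k (fun m => Φ p (Fin.cons a m : Fin (k + 1) → Y) *
          ∏ i, b i p (Fin.cons a m : Fin (k + 1) → Y))) = ev S (fun a => ev T (fun m => B p m * H p a m)) := by
        refine ev_congr fun a _ => ?_
        rw [mv_eq]
        refine ev_congr fun m _ => ?_
        rw [Fin.prod_univ_succ]
        have h2 : b 0 p (Fin.cons a m : Fin (k + 1) → Y) = b 0 p (Fin.cons a0 m : Fin (k + 1) → Y) := by
          apply hi
          intro j hj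
          obtain ⟨i, rfl⟩ := Fin.exists_succ_eq.mpr hj
          rw [Fin.cons_succ, Fin.cons_succ]
        rw [h2, hB, hH]
        ring
      rw [h1, ev_comm]
      exact ev_congr fun m _ => ev_mul_left S (B p m) _
    have hB1 : ∀ x ∈ P ×ˢ T, ‖B x.1 x.2‖ ≤ 1 := fun x _ => hb _ _ _
    have e2 := norm_ev_mul_sq_le (P ×ˢ T) (fun x => ev S (fun a => H x.1 a x.2)) (fun x => B x.1 x.2) hB1
    rw [← e1] at e2
    -- the right side of Cauchy-Schwarz
    have e3 : ((evr (P ×ˢ T) (fun x => ‖ev S (fun a => H x.1 a x.2)‖ ^ 2) : ℝ) : ℂ) =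
        ev (P ×ˢ (S ×ˢ S)) (fun q => mv S k (fun m => Φ' q m * ∏ i, b' i q m)) := by
      rw [← ev_ofReal, ev_prod, ev_prod]
      refine ev_congr fun p _ => ?_
      have h1 : ev T (fun m => ((‖ev S (fun a => H p a m)‖ ^ 2 : ℝ) : ℂ)) =
          ev T (fun m => ev S (fun a => ev S (fun a' => H p a m * (starRingEnd ℂ) (H p a' m)))) :=
        ev_congr fun m _ => norm_ev_sq S (fun a => H p a m)
      rw [h1, ev_comm, ev_prod]
      refine ev_congr fun a _ => ?_
      rw [ev_comm]
      refine ev_congr fun a' _ => ?_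
      rw [mv_eq]
      refine ev_congr fun m _ => ?_
      simp only [hH, hΦ', hb']
      rw [map_mul, map_prod, Finset.prod_mul_distrib]
      ring
    have e4 : evr (P ×ˢ T) (fun x => ‖ev S (fun a => H x.1 a x.2)‖ ^ 2) =
        ‖ev (P ×ˢ (S ×ˢ S)) (fun q => mv S k (fun m => Φ' q m * ∏ i, b' i q m))‖ := by
      rw [← e3, Complex.norm_real, Real.norm_of_nonneg]
      exact evr_nonneg _ fun _ _ => by positivity
    rw [e4] at e2
    have e5 := ih (P ×ˢ (S ×ˢ S)) Φ' b' (fun i q m => by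
        simp only [hb']
        rw [norm_mul, RCLike.norm_conj]
        exact mul_le_one₀ (hb _ _ _) (norm_nonneg _) (hb _ _ _))
      (fun i q m m' hmm => by
        simp only [hb']
        have h1 : ∀ a : Y, b i.succ q.1 (Fin.cons a m : Fin (k + 1) → Y) =
            b i.succ q.1 (Fin.cons a m' : Fin (k + 1) → Y) := by
          intro a
          apply hi
          intro j hj
          refine Fin.cases (fun _ => ?_) (fun l hl => ?_) j hj
          · rw [Fin.cons_zero, Fin.cons_zero]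
          · rw [Fin.cons_succ, Fin.cons_succ]
            exact hmm l fun h => hl (by rw [h])
        rw [h1, h1])
    have e6 : ev (P ×ˢ (S ×ˢ S)) (fun q => bx S k (Φ' q)) = ev P (fun p => bx S (k + 1) (Φ p)) := by
      rw [ev_prod]
      refine ev_congr fun p _ => ?_
      rw [ev_prod, bx]
    calc ‖ev P (fun p => mv S (k + 1) (fun m => Φ p m * ∏ i, b i p m))‖ ^ (2 ^ (k + 1))
        = (‖ev P (fun p => mv S (k + 1) (fun m => Φ p m * ∏ i, b i p m))‖ ^ 2) ^ (2 ^ k) := by
          rw [← pow_mul, pow_succ, mul_comm (2 ^ k) 2]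
      _ ≤ ‖ev (P ×ˢ (S ×ˢ S)) (fun q => mv S k (fun m => Φ' q m * ∏ i, b' i q m))‖ ^ (2 ^ k) :=
          pow_le_pow_left₀ (by positivity) e2 _
      _ ≤ ‖ev (P ×ˢ (S ×ˢ S)) (fun q => bx S k (Φ' q))‖ := e5
      _ = ‖ev P (fun p => bx S (k + 1) (Φ p))‖ := by rw [e6]

end Pool.Agent.NLG
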