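import Pool.Agent.Lib.NLG.DefsC

/-!
# Module BlkA: localisation to blocks

For `y : ZMod M` and `f : ZMod M → ℂ` let `lift M' y f z = f (y + z')`, `z'` the representative of `z : ZMod M'` in `(-M'/2, M'/2]`; `lift0 M' N y f` is the same
function restricted to `0 ≤ z' < N`.
PROOF of `TP_block`. Left side: `(1/M') ∑_z E_t θ t E_y ..`; only `z` with `z' = k`, `0 ≤ k < N` contribute (the `N` values `k < N < M' / 2` are each taken once). For such a `z`,
`t < H`, `b = P j t - P j 0`, `|b| ≤ B`: `(z + b)' = k + b` because `|k + b| ≤ N + B < M' / 2` (`ZMod.valMinAbs` characterisation: `ZMod.valMinAbs_spec` or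
`ZMod.valMinAbs_mem_Ioc`), so the factor is `f j (y + k + b + P j 0) = f j (y + k + P j t)`. Average over `y` (shift by `k`): the inner average is that of `TP` for all
`k`, so the sum over `k` gives `N / M'` times `TP H θ P f0 f`.
`poly_bound`, `poly_diff`: `P t - P 0 = ∑_(i = 1..d) c_i t^i`, `|c_i| t^i ≤ |c_i| H^i ≤ R H^d`; `|t^i - s^i| ≤ i (2 H)^(i - 1) |t - s|` for `0 ≤ s, t ≤ 2 H`.
`Fam_sub`: the coefficients of index `≥ 1` do not change. `Fam_mono`. `Fam_castSucc`.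
-/

set_option autoImplicit false

open Finset Polynomial

namespace Pool.Agent.NLG

open Pool.Agent.HLT Pool.Agent.NLT

/-- The function `f` near `y`, as a function on `ZMod M'`. -/
noncomputable def lift {M : ℕ} (M' : ℕ) (y : ZMod M) (f : ZMod M → ℂ) : ZMod M' → ℂ :=
  fun z => f (y + ((z.valMinAbs : ℤ) : ZMod M))

/-- The same, restricted to a block of length `N`. -/
noncomputable def lift0 {M : ℕ} (M' N : ℕ) (y : ZMod M) (f : ZMod M → ℂ) : ZMod M' → ℂ :=
  fun z => if 0 ≤ z.valMinAbs ∧ z.valMinAbs < (N : ℤ) then f (y + ((z.valMinAbs : ℤ) : ZMod M)) else 0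

namespace BlkAAux

lemma vma_nat {M' k : ℕ} [NeZero M'] (h : 2 * k < M') : ((k : ZMod M')).valMinAbs = (k : ℤ) := by
  rw [ZMod.valMinAbs_spec]
  refine ⟨by push_cast; rfl, ?_, ?_⟩
  · have : (0 : ℤ) ≤ k := Int.natCast_nonneg k
    have h2 : (0 : ℤ) < M' := by exact_mod_cast Nat.pos_of_ne_zero (NeZero.ne M')
    linarith
  · exact_mod_cast (by omega : k * 2 ≤ M')

lemma vma_add {M' : ℕ} [NeZero M'] (k b : ℤ) (h1 : -(M' : ℤ) < 2 * (k + b)) (h2 : 2 * (k + b) < M') (z : ZMod M')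
    (hz : z = (k : ZMod M')) : (z + ((b : ℤ) : ZMod M')).valMinAbs = k + b := by
  rw [ZMod.valMinAbs_spec]
  refine ⟨by rw [hz]; push_cast; rfl, ?_, ?_⟩
  · linarith
  · linarith

lemma sum_block {M' N : ℕ} [NeZero M'] (h : 2 * N < M') (g : ℤ → ℂ) :
    ∑ z : ZMod M', (if 0 ≤ z.valMinAbs ∧ z.valMinAbs < (N : ℤ) then g z.valMinAbs else 0) =
      ∑ k ∈ range N, g (k : ℤ) := by
  rw [← Finset.sum_filter]
  refine Finset.sum_nbij' (fun z => z.valMinAbs.toNat) (fun k => (k : ZMod M')) ?_ ?_ ?_ ?_ ?_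
  · intro z hz
    obtain ⟨h1, h2⟩ := (Finset.mem_filter.1 hz).2
    rw [Finset.mem_range]
    omega
  · intro k hk
    rw [Finset.mem_range] at hk
    rw [Finset.mem_filter, vma_nat (by omega)]
    refine ⟨Finset.mem_univ _, Int.natCast_nonneg k, by exact_mod_cast hk⟩
  · intro z hz
    obtain ⟨h1, h2⟩ := (Finset.mem_filter.1 hz).2
    show ((z.valMinAbs.toNat : ℕ) : ZMod M') = z
    have e : (((z.valMinAbs.toNat : ℕ) : ℤ) : ZMod M') = z := by
      rw [Int.toNat_of_nonneg h1, ZMod.coe_valMinAbs]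
    rw [Int.cast_natCast] at e
    exact e
  · intro k hk
    rw [Finset.mem_range] at hk
    show (((k : ZMod M')).valMinAbs).toNat = k
    rw [vma_nat (by omega)]
    simp
  · intro z hz
    obtain ⟨h1, h2⟩ := (Finset.mem_filter.1 hz).2
    show g z.valMinAbs = g ((z.valMinAbs.toNat : ℕ) : ℤ)
    rw [Int.toNat_of_nonneg h1]

lemma tv_mul_left (H : ℕ) (c : ℂ) (F : ℕ → ℂ) : tv H (fun t => c * F t) = c * tv H F := by
  unfold tv
  rw [← Finset.mul_sum, mul_div_assoc]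

lemma av_tv {M : ℕ} [NeZero M] (H : ℕ) (F : ZMod M → ℕ → ℂ) :
    av (fun y => tv H (fun t => F y t)) = tv H (fun t => av (fun y => F y t)) := by
  unfold av tv
  simp only [Finset.sum_div]
  rw [Finset.sum_comm]
  refine Finset.sum_congr rfl fun t _ => ?_
  refine Finset.sum_congr rfl fun y _ => ?_
  rw [div_right_comm]

end BlkAAux

theorem TP_block {M M' m : ℕ} [NeZero M] [NeZero M'] (H N B : ℕ) (θ : ℕ → ℂ) (P : Fin m → ℤ[X])
    (f0 : ZMod M → ℂ) (f : Fin m → ZMod M → ℂ) (hB : ∀ j, ∀ t < H, |(P j).eval (t : ℤ) - (P j).eval 0| ≤ B)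
    (hM' : 2 * (N + B) < M') :
    av (fun y => TP H θ (fun j => P j - C ((P j).eval 0)) (lift0 M' N y f0)
      (fun j => lift M' y (fun x => f j (x + (((P j).eval 0 : ℤ) : ZMod M))))) =
      ((N : ℂ) / (M' : ℂ)) * TP H θ P f0 f := by
  unfold TP
  rw [BlkAAux.av_tv, ← BlkAAux.tv_mul_left]
  unfold tv
  congr 1
  refine Finset.sum_congr rfl fun t ht => ?_
  rw [Finset.mem_range] at ht
  beta_reduce
  rw [av_mul_left, mul_left_comm]
  congr 1
  -- inner average over the block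
  have inner : ∀ y : ZMod M, av (fun x : ZMod M' => lift0 M' N y f0 x *
      ∏ j, lift M' y (fun x => f j (x + (((P j).eval 0 : ℤ) : ZMod M)))
        (x + (((P j - C ((P j).eval 0)).eval (t : ℤ) : ℤ) : ZMod M'))) =
      (1 / (M' : ℂ)) * ∑ k ∈ range N, (fun x : ZMod M => f0 x * ∏ j, f j (x + (((P j).eval (t : ℤ) : ℤ) : ZMod M)))
        (y + (k : ZMod M)) := by
    intro y
    have h1 := BlkAAux.sum_block (M' := M') (N := N) (by omega)
      (fun k : ℤ => f0 (y + (k : ZMod M)) * ∏ j, f j (y + (k : ZMod M) + (((P j).eval (t : ℤ) : ℤ) : ZMod M)))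
    unfold av
    rw [div_eq_mul_one_div, mul_comm]
    congr 1
    have h2 : ∑ k ∈ range N, (fun x : ZMod M => f0 x * ∏ j, f j (x + (((P j).eval (t : ℤ) : ℤ) : ZMod M)))
        (y + (k : ZMod M)) = ∑ k ∈ range N, (fun k : ℤ => f0 (y + (k : ZMod M)) *
          ∏ j, f j (y + (k : ZMod M) + (((P j).eval (t : ℤ) : ℤ) : ZMod M))) (k : ℤ) := by
      refine Finset.sum_congr rfl fun k _ => ?_
      simp only [Int.cast_natCast]
    rw [h2, ← h1]
    refine Finset.sum_congr rfl fun z _ => ?_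
    beta_reduce
    by_cases hz : 0 ≤ z.valMinAbs ∧ z.valMinAbs < (N : ℤ)
    · rw [if_pos hz]
      unfold lift0
      rw [if_pos hz]
      congr 1
      refine Finset.prod_congr rfl fun j _ => ?_
      unfold lift
      have hb := hB j t ht
      have e1 : (P j - C ((P j).eval 0)).eval (t : ℤ) = (P j).eval (t : ℤ) - (P j).eval 0 := by simp
      rw [e1]
      obtain ⟨hb1, hb2⟩ := abs_le.1 hb
      rw [BlkAAux.vma_add z.valMinAbs ((P j).eval (t : ℤ) - (P j).eval 0) (by omega) (by omega) z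
        (ZMod.coe_valMinAbs z).symm]
      show f j (y + ((z.valMinAbs + ((P j).eval (t : ℤ) - (P j).eval 0) : ℤ) : ZMod M) +
        (((P j).eval 0 : ℤ) : ZMod M)) = _
      congr 1
      push_cast
      ring
    · rw [if_neg hz]
      unfold lift0
      rw [if_neg hz, zero_mul]
  simp_rw [inner]
  rw [av_mul_left, av_sum]
  have e : ∀ k ∈ range N, av (fun y : ZMod M => (fun x : ZMod M => f0 x * ∏ j, f j (x + (((P j).eval (t : ℤ) : ℤ) : ZMod M)))
      (y + (k : ZMod M))) = av (fun x : ZMod M => f0 x * ∏ j, f j (x + (((P j).eval (t : ℤ) : ℤ) : ZMod M))) := by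
    intro k _
    exact av_shift (fun x : ZMod M => f0 x * ∏ j, f j (x + (((P j).eval (t : ℤ) : ℤ) : ZMod M))) _
  rw [Finset.sum_congr rfl e, Finset.sum_const, Finset.card_range, nsmul_eq_mul]
  ring

theorem poly_bound (P : ℤ[X]) (d R H : ℕ) (hd : P.natDegree = d) (h : ∀ i, 1 ≤ i → (P.coeff i).natAbs * H ^ i ≤ R * H ^ d)
    (t : ℕ) (ht : t ≤ H) : |P.eval (t : ℤ) - P.eval 0| ≤ ((d * R * H ^ d : ℕ) : ℤ) := by
  have e1 : P.eval (t : ℤ) - P.eval 0 = ∑ i ∈ range d, P.coeff (i + 1) * (t : ℤ) ^ (i + 1) := by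
    rw [Polynomial.eval_eq_sum_range, hd, Finset.sum_range_succ', ← Polynomial.coeff_zero_eq_eval_zero]
    simp
  rw [e1]
  refine (Finset.abs_sum_le_sum_abs _ _).trans ?_
  have h1 : ∀ i ∈ range d, |P.coeff (i + 1) * (t : ℤ) ^ (i + 1)| ≤ ((R * H ^ d : ℕ) : ℤ) := by
    intro i _
    have h2 := h (i + 1) (by omega)
    have h3 : (P.coeff (i + 1)).natAbs * t ^ (i + 1) ≤ R * H ^ d :=
      (Nat.mul_le_mul_left _ (Nat.pow_le_pow_left ht _)).trans h2
    have h4 : |P.coeff (i + 1) * (t : ℤ) ^ (i + 1)| = (((P.coeff (i + 1)).natAbs * t ^ (i + 1) : ℕ) : ℤ) := by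
      rw [abs_mul, abs_pow, Nat.abs_cast]
      push_cast
      rfl
    rw [h4]
    exact_mod_cast h3
  refine (Finset.sum_le_sum h1).trans (le_of_eq ?_)
  rw [Finset.sum_const, Finset.card_range, nsmul_eq_mul]
  push_cast
  ring

namespace BlkAAux

/-- `|a ^ (i + 1) - b ^ (i + 1)| ≤ (i + 1) c ^ i |a - b|` for `0 ≤ a, b ≤ c`. -/
lemma pow_diff (a b c : ℤ) (ha : 0 ≤ a) (hb : 0 ≤ b) (hac : a ≤ c) (hbc : b ≤ c) (i : ℕ) :
    |a ^ (i + 1) - b ^ (i + 1)| ≤ ((i : ℤ) + 1) * c ^ i * |a - b| := by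
  induction i with
  | zero => simp
  | succ i ih =>
    have e : a ^ (i + 1 + 1) - b ^ (i + 1 + 1) = a * (a ^ (i + 1) - b ^ (i + 1)) + b ^ (i + 1) * (a - b) := by ring
    rw [e]
    have hc : 0 ≤ c := ha.trans hac
    calc |a * (a ^ (i + 1) - b ^ (i + 1)) + b ^ (i + 1) * (a - b)|
        ≤ |a * (a ^ (i + 1) - b ^ (i + 1))| + |b ^ (i + 1) * (a - b)| := abs_add_le _ _
      _ = a * |a ^ (i + 1) - b ^ (i + 1)| + b ^ (i + 1) * |a - b| := by
          rw [abs_mul, abs_mul, abs_of_nonneg ha, abs_of_nonneg (pow_nonneg hb _)]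
      _ ≤ c * (((i : ℤ) + 1) * c ^ i * |a - b|) + c ^ (i + 1) * |a - b| := by
          apply add_le_add
          · exact mul_le_mul hac ih (abs_nonneg _) hc
          · exact mul_le_mul_of_nonneg_right (pow_le_pow_left₀ hb hbc _) (abs_nonneg _)
      _ = (((i + 1 : ℕ) : ℤ) + 1) * c ^ (i + 1) * |a - b| := by
          push_cast
          ring

end BlkAAux

theorem poly_diff (P : ℤ[X]) (d R H : ℕ) (hd : P.natDegree = d) (hd1 : 1 ≤ d) (hH : 1 ≤ H)
    (h : ∀ i, 1 ≤ i → (P.coeff i).natAbs * H ^ i ≤ R * H ^ d)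
    (t s : ℕ) (ht : t ≤ 2 * H) (hs : s ≤ 2 * H) :
    |P.eval (t : ℤ) - P.eval (s : ℤ)| ≤ ((d ^ 2 * 2 ^ d * R * H ^ (d - 1) : ℕ) : ℤ) * |(t : ℤ) - s| := by
  have e1 : P.eval (t : ℤ) - P.eval (s : ℤ) = ∑ i ∈ range d, P.coeff (i + 1) * ((t : ℤ) ^ (i + 1) - (s : ℤ) ^ (i + 1)) := by
    rw [Polynomial.eval_eq_sum_range, Polynomial.eval_eq_sum_range, hd, Finset.sum_range_succ', Finset.sum_range_succ',
      ← sub_eq_zero]
    simp only [mul_sub, Finset.sum_sub_distrib]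
    ring
  rw [e1]
  refine (Finset.abs_sum_le_sum_abs _ _).trans ?_
  have h1 : ∀ i ∈ range d, |P.coeff (i + 1) * ((t : ℤ) ^ (i + 1) - (s : ℤ) ^ (i + 1))| ≤
      ((d * 2 ^ d * R * H ^ (d - 1) : ℕ) : ℤ) * |(t : ℤ) - s| := by
    intro i hi
    rw [Finset.mem_range] at hi
    have h2 := h (i + 1) (by omega)
    -- `|c_(i+1)| H ^ i ≤ R H ^ (d - 1)`
    have h3 : (P.coeff (i + 1)).natAbs * H ^ i ≤ R * H ^ (d - 1) := by
      have h4 : ((P.coeff (i + 1)).natAbs * H ^ i) * H ≤ (R * H ^ (d - 1)) * H := by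
        calc ((P.coeff (i + 1)).natAbs * H ^ i) * H = (P.coeff (i + 1)).natAbs * H ^ (i + 1) := by ring
          _ ≤ R * H ^ d := h2
          _ = (R * H ^ (d - 1)) * H := by
            obtain ⟨e, rfl⟩ : ∃ e, d = e + 1 := ⟨d - 1, by omega⟩
            rw [Nat.add_sub_cancel]
            ring
      exact Nat.le_of_mul_le_mul_right h4 hH
    have h5 := BlkAAux.pow_diff (t : ℤ) (s : ℤ) ((2 * H : ℕ) : ℤ) (Int.natCast_nonneg _) (Int.natCast_nonneg _)
      (by exact_mod_cast ht) (by exact_mod_cast hs) i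
    rw [abs_mul]
    calc |P.coeff (i + 1)| * |(t : ℤ) ^ (i + 1) - (s : ℤ) ^ (i + 1)|
        ≤ |P.coeff (i + 1)| * (((i : ℤ) + 1) * ((2 * H : ℕ) : ℤ) ^ i * |(t : ℤ) - s|) :=
          mul_le_mul_of_nonneg_left h5 (abs_nonneg _)
      _ = ((((i + 1) * 2 ^ i) * ((P.coeff (i + 1)).natAbs * H ^ i) : ℕ) : ℤ) * |(t : ℤ) - s| := by
          push_cast
          ring
      _ ≤ ((d * 2 ^ d * R * H ^ (d - 1) : ℕ) : ℤ) * |(t : ℤ) - s| := by
          apply mul_le_mul_of_nonneg_right _ (abs_nonneg _)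
          have h6 : ((i + 1) * 2 ^ i) * ((P.coeff (i + 1)).natAbs * H ^ i) ≤ (d * 2 ^ d) * (R * H ^ (d - 1)) :=
            Nat.mul_le_mul (Nat.mul_le_mul (by omega) (Nat.pow_le_pow_right (by norm_num) (by omega))) h3
          have h7 : ((i + 1) * 2 ^ i) * ((P.coeff (i + 1)).natAbs * H ^ i) ≤ d * 2 ^ d * R * H ^ (d - 1) := by
            calc _ ≤ (d * 2 ^ d) * (R * H ^ (d - 1)) := h6
              _ = _ := by ring
          exact_mod_cast h7
  refine (Finset.sum_le_sum h1).trans (le_of_eq ?_)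
  rw [Finset.sum_const, Finset.card_range, nsmul_eq_mul]
  push_cast
  ring

theorem Fam_sub {m : ℕ} {d : Fin m → ℕ} {R H : ℕ} {P : Fin m → ℤ[X]} (h : Fam m d R H P) (h1 : ∀ j, 1 ≤ d j) :
    Fam m d R H (fun j => P j - C ((P j).eval 0)) := by
  refine ⟨fun j => ?_, fun j i hi => ?_⟩
  · show (P j - C ((P j).eval 0)).natDegree = d j
    rw [Polynomial.natDegree_sub_C]
    exact h.1 j
  · show ((P j - C ((P j).eval 0)).coeff i).natAbs * H ^ i ≤ R * H ^ d j
    rw [Polynomial.coeff_sub, Polynomial.coeff_C_of_ne_zero (by omega), sub_zero]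
    exact h.2 j i hi

theorem Fam_mono {m : ℕ} {d : Fin m → ℕ} {R R' H : ℕ} {P : Fin m → ℤ[X]} (h : Fam m d R H P) (hR : R ≤ R') :
    Fam m d R' H P :=
  ⟨h.1, fun j i hi => (h.2 j i hi).trans (Nat.mul_le_mul_right _ hR)⟩

namespace BlkAAux

/-- The coefficients of `P (b + q X)`. -/
lemma coeff_comp_lin (P : ℤ[X]) (b q : ℤ) (i : ℕ) :
    (P.comp (C b + C q * X)).coeff i =
      ∑ k ∈ range (P.natDegree + 1), P.coeff k * ((k.choose i : ℤ) * b ^ (k - i) * q ^ i) := by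
  rw [Polynomial.comp_eq_sum_left, Polynomial.sum_def, Polynomial.finsetSum_coeff]
  have h1 : ∀ k, (C (P.coeff k) * (C b + C q * X) ^ k).coeff i = P.coeff k * ((k.choose i : ℤ) * b ^ (k - i) * q ^ i) := by
    intro k
    rw [Polynomial.coeff_C_mul]
    congr 1
    rw [add_comm (C b), add_pow, Polynomial.finsetSum_coeff]
    have h2 : ∀ j ∈ range (k + 1), ((C q * X) ^ j * (C b) ^ (k - j) * ((k.choose j : ℕ) : ℤ[X])).coeff i =
        if j = i then ((k.choose i : ℤ) * b ^ (k - i) * q ^ i) else 0 := by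
      intro j _
      have e : (C q * X) ^ j * (C b) ^ (k - j) * ((k.choose j : ℕ) : ℤ[X]) = C (q ^ j * b ^ (k - j) * (k.choose j : ℤ)) * X ^ j := by
        rw [mul_pow]
        simp only [map_mul, map_pow, map_natCast]
        ring
      rw [e, Polynomial.coeff_C_mul, Polynomial.coeff_X_pow]
      by_cases hj : j = i
      · subst hj
        simp
        ring
      · rw [if_neg hj, if_neg (fun h => hj h.symm), mul_zero]
    rw [Finset.sum_congr rfl h2, Finset.sum_ite_eq']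
    by_cases hi : i ∈ range (k + 1)
    · rw [if_pos hi]
    · rw [if_neg hi, Nat.choose_eq_zero_of_lt (by simpa using hi)]
      simp
  simp_rw [h1]
  apply Finset.sum_subset
  · intro k hk
    rw [Finset.mem_range]
    exact Nat.lt_succ_of_le (Polynomial.le_natDegree_of_mem_supp k hk)
  · intro k _ hk
    rw [Polynomial.notMem_support_iff.1 hk, zero_mul]

end BlkAAux

/-- Restriction to a progression `t = b + q t'`. -/
theorem Fam_comp {m : ℕ} {d : Fin m → ℕ} {R H H' b q Z : ℕ} {P : Fin m → ℤ[X]} (h : Fam m d R H P) (h1 : ∀ j, 1 ≤ d j)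
    (hq : 1 ≤ q) (hb : b ≤ H) (hH' : 1 ≤ H') (hH : H' ≤ H) (hZ : H ≤ Z * H') (D : ℕ) (hD : ∀ j, d j ≤ D) :
    Fam m d (R * (D + 1) * 2 ^ D * q ^ D * Z ^ D) H' (fun j => (P j).comp (C (b : ℤ) + C (q : ℤ) * X)) := by
  have hZ1 : 1 ≤ Z := by
    rcases Nat.eq_zero_or_pos Z with h0 | h0
    · rw [h0, zero_mul] at hZ
      omega
    · exact h0
  refine ⟨fun j => ?_, fun j i hi => ?_⟩
  · show ((P j).comp (C (b : ℤ) + C (q : ℤ) * X)).natDegree = d j
    rw [Polynomial.natDegree_comp, h.1 j]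
    have e : (C (b : ℤ) + C (q : ℤ) * X : ℤ[X]).natDegree = 1 := by
      rw [add_comm]
      exact Polynomial.natDegree_linear (by exact_mod_cast (by omega : q ≠ 0))
    rw [e, mul_one]
  · show (((P j).comp (C (b : ℤ) + C (q : ℤ) * X)).coeff i).natAbs * H' ^ i ≤
      R * (D + 1) * 2 ^ D * q ^ D * Z ^ D * H' ^ d j
    rw [BlkAAux.coeff_comp_lin, h.1 j]
    have h2 : (∑ k ∈ range (d j + 1), (P j).coeff k * ((k.choose i : ℤ) * (b : ℤ) ^ (k - i) * (q : ℤ) ^ i)).natAbs ≤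
        ∑ k ∈ range (d j + 1), ((P j).coeff k * ((k.choose i : ℤ) * (b : ℤ) ^ (k - i) * (q : ℤ) ^ i)).natAbs :=
      Int.natAbs_sum_le _ _
    refine (Nat.mul_le_mul_right _ h2).trans ?_
    rw [Finset.sum_mul]
    have h3 : ∀ k ∈ range (d j + 1),
        ((P j).coeff k * ((k.choose i : ℤ) * (b : ℤ) ^ (k - i) * (q : ℤ) ^ i)).natAbs * H' ^ i ≤
          R * 2 ^ D * q ^ D * Z ^ D * H' ^ d j := by
      intro k hk
      rw [Finset.mem_range] at hk
      have hDj := hD j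
      rw [Int.natAbs_mul, Int.natAbs_mul, Int.natAbs_mul, Int.natAbs_pow, Int.natAbs_pow, Int.natAbs_natCast,
        Int.natAbs_natCast, Int.natAbs_natCast]
      by_cases hki : k < i
      · rw [Nat.choose_eq_zero_of_lt hki]
        simp
      · have hki' : i ≤ k := by omega
        have g1 : ((P j).coeff k).natAbs * (b ^ (k - i) * H' ^ i) ≤ R * Z ^ D * H' ^ d j := by
          have g2 : b ^ (k - i) * H' ^ i ≤ H ^ k := by
            calc b ^ (k - i) * H' ^ i ≤ H ^ (k - i) * H ^ i :=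
                  Nat.mul_le_mul (Nat.pow_le_pow_left hb _) (Nat.pow_le_pow_left hH _)
              _ = H ^ k := by rw [← pow_add]; congr 1; omega
          have g3 : H ^ d j ≤ Z ^ D * H' ^ d j := by
            calc H ^ d j ≤ (Z * H') ^ d j := Nat.pow_le_pow_left hZ _
              _ = Z ^ d j * H' ^ d j := mul_pow _ _ _
              _ ≤ Z ^ D * H' ^ d j := Nat.mul_le_mul_right _ (Nat.pow_le_pow_right hZ1 hDj)
          calc ((P j).coeff k).natAbs * (b ^ (k - i) * H' ^ i) ≤ ((P j).coeff k).natAbs * H ^ k :=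
                Nat.mul_le_mul_left _ g2
            _ ≤ R * H ^ d j := h.2 j k (by omega)
            _ ≤ R * (Z ^ D * H' ^ d j) := Nat.mul_le_mul_left _ g3
            _ = R * Z ^ D * H' ^ d j := by ring
        have g4 : k.choose i * q ^ i ≤ 2 ^ D * q ^ D := by
          refine Nat.mul_le_mul ?_ (Nat.pow_le_pow_right hq (by omega))
          exact (Nat.choose_le_two_pow k i).trans (Nat.pow_le_pow_right (by norm_num) (by omega))
        calc ((P j).coeff k).natAbs * (k.choose i * b ^ (k - i) * q ^ i) * H' ^ i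
            = (k.choose i * q ^ i) * (((P j).coeff k).natAbs * (b ^ (k - i) * H' ^ i)) := by ring
          _ ≤ (2 ^ D * q ^ D) * (R * Z ^ D * H' ^ d j) := Nat.mul_le_mul g4 g1
          _ = R * 2 ^ D * q ^ D * Z ^ D * H' ^ d j := by ring
    refine (Finset.sum_le_sum h3).trans ?_
    rw [Finset.sum_const, Finset.card_range, smul_eq_mul]
    have hDj := hD j
    calc (d j + 1) * (R * 2 ^ D * q ^ D * Z ^ D * H' ^ d j) ≤ (D + 1) * (R * 2 ^ D * q ^ D * Z ^ D * H' ^ d j) :=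
          Nat.mul_le_mul_right _ (by omega)
      _ = R * (D + 1) * 2 ^ D * q ^ D * Z ^ D * H' ^ d j := by ring

end Pool.Agent.NLG
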