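import Pool.Agent.Lib.NLG.BXB
import Pool.Agent.Lib.NLG.Bcs

/-!
# Module BxBB: box averages along progressions

PROOFS. `bx_lin` by induction on `n`, for all `v`, `F`: `Fin.sum_univ_succ` turns `F (x + ∑ v_i (a :: m)_i)` into
`F (x + v_0 a + ∑_(i ≥ 1) v_i m_i)`; for fixed `a, a'` shift `x` by `- v_0 a` (`av_shift_sub`): the function becomes
`Dl (v_0 (a' - a)) F (x + ∑_(i ≥ 1) v_i m_i)`; induction and `BB_fe`, `List.ofFn_succ`.
`mv_shift`: induction, `av_shift`, `ev_const`.
-/

set_option autoImplicit false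

open Finset

namespace Pool.Agent.NLG

open Pool.Agent.HLT Pool.Agent.NLT

variable {M : ℕ} [NeZero M]

namespace BxBBAux

omit [NeZero M] in
theorem pt_cons {n : ℕ} (v : Fin (n + 1) → ZMod M) (x : ZMod M) (a : ℕ) (m : Fin n → ℕ) :
    x + ∑ i, v i * (((Fin.cons a m : Fin (n + 1) → ℕ) i : ℕ) : ZMod M) =
      x + v 0 * (a : ZMod M) + ∑ i : Fin n, v i.succ * (m i : ZMod M) := by
  rw [Fin.sum_univ_succ, Fin.cons_zero]
  simp only [Fin.cons_succ]
  rw [add_assoc]

end BxBBAux

open BxBBAux

theorem bx_lin (A n : ℕ) (v : Fin n → ZMod M) (F : ZMod M → ℂ) :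
    av (fun x => bx (range A) n (fun m => F (x + ∑ i, v i * (m i : ZMod M)))) =
      BB ((List.ofFn v).map (fe A)) F := by
  induction n generalizing F with
  | zero =>
    rw [List.ofFn_zero, List.map_nil]
    show av (fun x => F (x + ∑ i : Fin 0, _)) = av F
    simp only [Finset.univ_eq_empty, Finset.sum_empty, add_zero]
  | succ n ih =>
    rw [List.ofFn_succ, List.map_cons, BB_fe]
    show av (fun x => ev (range A) (fun a => ev (range A) (fun a' => bx (range A) n (fun m =>
      F (x + ∑ i, v i * (((Fin.cons a m : Fin (n + 1) → ℕ) i : ℕ) : ZMod M)) *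
        (starRingEnd ℂ) (F (x + ∑ i, v i * (((Fin.cons a' m : Fin (n + 1) → ℕ) i : ℕ) : ZMod M))))))) = _
    rw [← ev_av_comm, tv_eq_ev]
    refine ev_congr fun a _ => ?_
    rw [← ev_av_comm, tv_eq_ev]
    refine ev_congr fun a' _ => ?_
    rw [← ih (fun i => v i.succ) (Dl (v 0 * ((a' : ZMod M) - (a : ZMod M))) F)]
    rw [← av_shift (fun x => bx (range A) n (fun m => Dl (v 0 * ((a' : ZMod M) - (a : ZMod M))) F
      (x + ∑ i : Fin n, v i.succ * (m i : ZMod M)))) (v 0 * (a : ZMod M))]
    congr 1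
    funext x
    congr 1
    funext m
    rw [pt_cons, pt_cons]
    show _ = F (x + v 0 * (a : ZMod M) + ∑ i : Fin n, v i.succ * (m i : ZMod M)) *
      (starRingEnd ℂ) (F (x + v 0 * (a : ZMod M) + ∑ i : Fin n, v i.succ * (m i : ZMod M) +
        v 0 * ((a' : ZMod M) - (a : ZMod M))))
    congr 3
    ring

theorem mv_shift (A n : ℕ) (hA : 1 ≤ A) (v : Fin n → ZMod M) (G : ZMod M → ℂ) :
    av (fun x => mv (range A) n (fun m => G (x + ∑ i, v i * (m i : ZMod M)))) = av G := by
  induction n generalizing G with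
  | zero =>
    show av (fun x => G (x + ∑ i : Fin 0, _)) = av G
    simp only [Finset.univ_eq_empty, Finset.sum_empty, add_zero]
  | succ n ih =>
    show av (fun x => ev (range A) (fun a => mv (range A) n (fun m =>
      G (x + ∑ i, v i * (((Fin.cons a m : Fin (n + 1) → ℕ) i : ℕ) : ZMod M))))) = _
    rw [← ev_av_comm]
    have h : ∀ a ∈ range A, av (fun x => mv (range A) n (fun m =>
        G (x + ∑ i, v i * (((Fin.cons a m : Fin (n + 1) → ℕ) i : ℕ) : ZMod M)))) = av G := by
      intro a _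
      simp only [pt_cons]
      rw [av_shift (fun x => mv (range A) n (fun m =>
        G (x + ∑ i : Fin n, v i.succ * (m i : ZMod M)))) (v 0 * (a : ZMod M))]
      exact ih (fun i => v i.succ) G
    rw [ev_congr h]
    exact ev_const (Finset.nonempty_range_iff.2 (by omega)) _

end Pool.Agent.NLG
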