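import Pool.Agent.Lib.NLG.DefsC
import Pool.Agent.Lib.NLG.Bcs

/-!
# Module BxE: the box average as a product over vertices

PROOF of `bx_eq` by induction on `k`: `bx S (k + 1) Φ = ev_a ev_a' bx S k (m ↦ Φ (a :: m) conj Φ (a' :: m))`; by induction the inner term is
`ev_h ev_h' ∏_ω cj (wt ω) (Φ (a :: mix ω h h') conj Φ (a' :: mix ω h h'))`; `∏ over ω : Fin (k + 1) → Bool` = product over `ω 0 ∈ {false, true}` and the
rest (`Fin.consEquiv`, `Fintype.prod_equiv`, `Fintype.prod_prod_type`, `Fintype.prod_bool`), `mixw (Fin.cons b ω) (Fin.cons a h) (Fin.cons a' h') =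
Fin.cons (if b then a' else a) (mixw ω h h')`, `wt (Fin.cons b ω) = wt ω + (if b then 1 else 0)`, `cj (n + 1) z = conj (cj n z)`, `cj n (z w) = cj n z cj n w`. Average over
`piFinset`: `Fin.consEquiv` (compare `mv_eq` in Bcs).
`card_even_odd`: the map which flips the coordinate `0` is a bijection of `{ω // Even (wt ω)}` and `{ω // ¬ Even (wt ω)}`.
-/

set_option autoImplicit false

open Finset

namespace Pool.Agent.NLG

theorem cj_mul (k : ℕ) (z w : ℂ) : cj k (z * w) = cj k z * cj k w := by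
  unfold cj
  split_ifs
  · rfl
  · exact map_mul _ _ _

theorem cj_succ (k : ℕ) (z : ℂ) : cj (k + 1) z = (starRingEnd ℂ) (cj k z) := by
  unfold cj
  by_cases h : Even k
  · rw [if_pos h, if_neg (by rw [Nat.even_add_one]; simpa using h)]
  · rw [if_neg h, if_pos (by rw [Nat.even_add_one]; exact h), Complex.conj_conj]

namespace BxEAux

theorem mixw_cons {Y : Type} {k : ℕ} (b : Bool) (ω : Fin k → Bool) (a a' : Y) (h h' : Fin k → Y) :
    mixw (Fin.cons b ω : Fin (k + 1) → Bool) (Fin.cons a h : Fin (k + 1) → Y) (Fin.cons a' h' : Fin (k + 1) → Y) =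
      (Fin.cons (if b then a' else a) (mixw ω h h') : Fin (k + 1) → Y) := by
  funext i
  refine Fin.cases ?_ (fun j => ?_) i
  · unfold mixw
    simp
  · unfold mixw
    simp

theorem wt_cons {k : ℕ} (b : Bool) (ω : Fin k → Bool) :
    wt (Fin.cons b ω : Fin (k + 1) → Bool) = wt ω + (if b then 1 else 0) := by
  unfold wt
  rw [Finset.card_filter, Finset.card_filter, Fin.sum_univ_succ]
  simp only [Fin.cons_zero, Fin.cons_succ]
  rw [add_comm]

theorem prod_cons {k : ℕ} (f : (Fin (k + 1) → Bool) → ℂ) :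
    ∏ ω : Fin (k + 1) → Bool, f ω =
      ∏ ω : Fin k → Bool, f (Fin.cons false ω : Fin (k + 1) → Bool) * f (Fin.cons true ω : Fin (k + 1) → Bool) := by
  rw [← Fintype.prod_equiv (Fin.consEquiv (fun _ : Fin (k + 1) => Bool)) (fun p => f (Fin.cons p.1 p.2 : Fin (k + 1) → Bool)) f
    (fun p => rfl), Fintype.prod_prod_type, Fintype.prod_bool, ← Finset.prod_mul_distrib]
  exact Finset.prod_congr rfl fun ω _ => mul_comm _ _

end BxEAux

open BxEAux

theorem bx_eq {Y : Type} (S : Finset Y) (k : ℕ) (Φ : (Fin k → Y) → ℂ) :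
    bx S k Φ = ev (Fintype.piFinset (fun _ : Fin k => S)) (fun h => ev (Fintype.piFinset (fun _ : Fin k => S)) (fun h' =>
      ∏ ω : Fin k → Bool, cj (wt ω) (Φ (mixw ω h h')))) := by
  induction k with
  | zero =>
    simp only [← mv_eq]
    rw [bx, mv, mv, Finset.univ_unique, Finset.prod_singleton]
    have h1 : ∀ ω : Fin 0 → Bool, wt ω = 0 := by
      intro ω
      unfold wt
      simp
    rw [h1]
    unfold cj
    rw [if_pos (by simp)]
    congr 1
    funext i
    exact i.elim0
  | succ k ih =>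
    have hR : ev (Fintype.piFinset (fun _ : Fin (k + 1) => S)) (fun h =>
        ev (Fintype.piFinset (fun _ : Fin (k + 1) => S)) (fun h' =>
          ∏ ω : Fin (k + 1) → Bool, cj (wt ω) (Φ (mixw ω h h')))) =
        ev S (fun a => ev S (fun a' => ev (Fintype.piFinset (fun _ : Fin k => S)) (fun h =>
          ev (Fintype.piFinset (fun _ : Fin k => S)) (fun h' =>
            ∏ ω : Fin (k + 1) → Bool, cj (wt ω) (Φ (mixw ω (Fin.cons a h : Fin (k + 1) → Y)
              (Fin.cons a' h' : Fin (k + 1) → Y))))))) := by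
      rw [← mv_eq, mv]
      refine ev_congr fun a _ => ?_
      rw [mv_eq, ev_comm S]
      refine ev_congr fun h _ => ?_
      rw [← mv_eq, mv]
      refine ev_congr fun a' _ => ?_
      rw [mv_eq]
    rw [hR, bx]
    refine ev_congr fun a _ => ev_congr fun a' _ => ?_
    rw [ih]
    refine ev_congr fun h _ => ev_congr fun h' _ => ?_
    rw [BxEAux.prod_cons]
    refine Finset.prod_congr rfl fun ω _ => ?_
    rw [mixw_cons, mixw_cons, wt_cons, wt_cons, cj_mul]
    simp only [Bool.false_eq_true, if_false, if_true, add_zero]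
    rw [cj_succ]
    congr 1
    unfold cj
    split_ifs
    · rfl
    · rfl

/-- Flip the coordinate `0`. -/
def flip0 {k : ℕ} (ω : Fin (k + 1) → Bool) : Fin (k + 1) → Bool := fun i => if i = 0 then !(ω 0) else ω i

namespace BxEAux

theorem flip0_cons {k : ℕ} (b : Bool) (ω : Fin k → Bool) :
    flip0 (Fin.cons b ω : Fin (k + 1) → Bool) = (Fin.cons (!b) ω : Fin (k + 1) → Bool) := by
  funext i
  refine Fin.cases ?_ (fun j => ?_) i
  · unfold flip0
    simp
  · unfold flip0
    simp [Fin.succ_ne_zero]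

theorem flip0_flip0 {k : ℕ} (ω : Fin (k + 1) → Bool) : flip0 (flip0 ω) = ω := by
  rw [← Fin.cons_self_tail ω, flip0_cons, flip0_cons, Bool.not_not]

theorem wt_flip {k : ℕ} (ω : Fin (k + 1) → Bool) : Even (wt (flip0 ω)) ↔ ¬ Even (wt ω) := by
  rw [← Fin.cons_self_tail ω, flip0_cons, wt_cons, wt_cons]
  cases ω 0
  · simp [Nat.even_add_one]
  · simp [Nat.even_add_one]

end BxEAux

theorem prod_even_odd {k : ℕ} (f : (Fin (k + 1) → Bool) → ℂ) :
    ∏ ω : Fin (k + 1) → Bool, f ω =
      ∏ ω : {ω : Fin (k + 1) → Bool // Even (wt ω)}, f ω.1 * f (flip0 ω.1) := by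
  classical
  rw [Finset.prod_mul_distrib, ← Finset.prod_mul_prod_compl (univ.filter (fun ω : Fin (k + 1) → Bool => Even (wt ω))) f]
  congr 1
  · rw [← Finset.prod_subtype (univ.filter (fun ω : Fin (k + 1) → Bool => Even (wt ω))) (fun ω => by simp) f]
  · rw [← Finset.prod_subtype (univ.filter (fun ω : Fin (k + 1) → Bool => Even (wt ω))) (fun ω => by simp)
      (fun ω => f (flip0 ω))]
    symm
    refine Finset.prod_bij' (fun ω _ => flip0 ω) (fun ω _ => flip0 ω) (fun ω hω => ?_) (fun ω hω => ?_)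
      (fun ω _ => flip0_flip0 ω) (fun ω _ => flip0_flip0 ω) (fun ω _ => rfl)
    · rw [Finset.mem_compl, Finset.mem_filter]
      rw [Finset.mem_filter] at hω
      intro h
      exact ((wt_flip ω).mp h.2) hω.2
    · rw [Finset.mem_compl, Finset.mem_filter] at hω
      rw [Finset.mem_filter]
      refine ⟨Finset.mem_univ _, (wt_flip ω).mpr fun h => hω ⟨Finset.mem_univ _, h⟩⟩

theorem wt_flip0 {k : ℕ} (ω : Fin (k + 1) → Bool) (h : Even (wt ω)) : ¬ Even (wt (flip0 ω)) := fun h1 =>
  ((wt_flip ω).mp h1) h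

end Pool.Agent.NLG
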