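import Pool.Agent.Lib.NLG.BlkA
import Pool.Agent.Lib.NLG.Ev
import Pool.Agent.Lib.NLT.Geo

/-!
# Module CaA: removing a phase on a major arc

PROOF. Put `D = d (last m)`, `Pm = P (last m)`, `F t = chi η (Pm t) * av (fun x => f0 x * ∏_(j < m) f j (x + P j t))` (bounded by one), `H'` = the integer part of `H / R ^ C1`. For
`q`, `t' < H'`: `‖tv H F - tv H (fun t => F (t + q t'))‖ ≤ 2 q H' / H` (`norm_tv_shift`); average over `t'`: some `t0 < H` has `‖tv H' (fun t' => F (t0 + q t'))‖ ≥ 1 / (2 R)`. Write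
`η.val / M = a / q + β`, `a` an integer, `|β| ≤ R ^ c / (q H ^ D)`. `Pm (t0 + q t') - Pm t0` is divisible by `q` and at most `D ^ 2 2 ^ D R H ^ (D - 1) q H'` (`poly_diff`), so
`chi η (Pm (t0 + q t')) = chi η (Pm t0) ex (β (Pm (t0 + q t') - Pm t0))` differs from `chi η (Pm t0)` by at most `7 R ^ c D ^ 2 2 ^ D R H' / H ≤ 1 / (4 R)` (`‖ex s - 1‖ ≤ 7 |s|`). So
`‖tv H' (fun t' => av (fun x => f0 x * ∏ f j (x + P j (t0 + q t'))))‖ ≥ 1 / (4 R)`: this is `TP H' 1 P~ f0 f` with `P~ j = (P j.castSucc).comp (C t0 + C q * X)`, a family with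
`R' = R ^ C2` and `H'` (`Fam_comp` with `Z = 2 R ^ C1`, `Fam_mono`). `GenA m` with `R'` (`≥ 4 R`), `H'` gives `Star C R' H' (d j) (f j)`: `q_j ≤ R' ^ C` and all `J ≥ 1` with
`J R' ^ C ≤ H' ^ d j`; with `C'` large this contains all `J` with `J R ^ C' ≤ H ^ d j` (`H ≤ 2 R ^ C1 H'`).
-/

set_option autoImplicit false

open Finset Polynomial

namespace Pool.Agent.NLG

open Pool.Agent.HLT Pool.Agent.NLT

namespace CaAAux

/-- One of the progressions of difference `q` and length `H'` keeps the correlation. -/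
lemma exists_shift (H H' q : ℕ) (F : ℕ → ℂ) (hF : ∀ t, ‖F t‖ ≤ 1) (hH : 1 ≤ H) (hH' : 1 ≤ H')
    (δ : ℝ) (h : δ ≤ ‖tv H F‖) :
    ∃ t0 < H, δ - 2 * ((q : ℝ) * H') / H ≤ ‖tv H' (fun t' => F (t0 + q * t'))‖ := by
  by_contra hcon
  push Not at hcon
  have hH0 : (0 : ℝ) < H := by exact_mod_cast hH
  have h1 : ‖tv H F - tv H' (fun t' => tv H (fun t => F (t + q * t')))‖ ≤ 2 * ((q : ℝ) * H') / H := by
    have e : tv H F - tv H' (fun t' => tv H (fun t => F (t + q * t'))) =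
        tv H' (fun t' => tv H F - tv H (fun t => F (t + q * t'))) := by
      rw [tv_sub, tv_const H' hH']
    rw [e]
    refine (norm_tv_le H' _).trans (tvr_le H' (by positivity) (fun t' ht' => ?_))
    rw [norm_sub_rev]
    refine (norm_tv_shift H (q * t') F hF).trans ?_
    refine div_le_div_of_nonneg_right ?_ hH0.le
    push_cast
    have h2 : (t' : ℝ) ≤ H' := by exact_mod_cast ht'.le
    have h3 : (q : ℝ) * t' ≤ q * H' := mul_le_mul_of_nonneg_left h2 (Nat.cast_nonneg q)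
    linarith
  have h2 : ‖tv H' (fun t' => tv H (fun t => F (t + q * t')))‖ < δ - 2 * ((q : ℝ) * H') / H := by
    rw [tv_comm H' H (fun t' t => F (t + q * t'))]
    refine (norm_tv_le H _).trans_lt ?_
    unfold tvr
    rw [div_lt_iff₀ hH0]
    have h3 : ∑ t ∈ range H, ‖tv H' (fun t' => F (t + q * t'))‖ <
        ∑ _t ∈ range H, (δ - 2 * ((q : ℝ) * H') / H) := by
      refine Finset.sum_lt_sum_of_nonempty ⟨0, Finset.mem_range.mpr hH⟩ (fun t ht => ?_)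
      exact hcon t (Finset.mem_range.mp ht)
    rw [Finset.sum_const, Finset.card_range, nsmul_eq_mul, mul_comm] at h3
    exact h3
  have h3 := norm_sub_norm_le (tv H F) (tv H' (fun t' => tv H (fun t => F (t + q * t'))))
  linarith

/-- A phase on a major arc is nearly constant on a residue class. -/
lemma phase_le {M : ℕ} [NeZero M] (η : ZMod M) (q : ℕ) (hq : 1 ≤ q) (n0 n1 : ℤ) (hd : (q : ℤ) ∣ n1 - n0) :
    ‖chi η (n1 : ZMod M) - chi η (n0 : ZMod M)‖ ≤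
      7 * (|((n1 - n0 : ℤ) : ℝ)| / q * nrm ((q : ℝ) * ((η.val : ℝ) / (M : ℝ)))) := by
  have hq0 : (0 : ℝ) < q := by exact_mod_cast hq
  obtain ⟨k, hk⟩ := hd
  have h1 : chi η (n1 : ZMod M) - chi η (n0 : ZMod M) =
      chi η (n0 : ZMod M) * (chi η (((n1 - n0 : ℤ)) : ZMod M) - 1) := by
    rw [mul_sub, mul_one, ← chi_add_right]
    congr 2
    push_cast
    ring
  rw [h1, norm_mul, norm_chi, one_mul, chi_int]
  refine (norm_ex_sub_one_le _).trans (mul_le_mul_of_nonneg_left ?_ (by norm_num))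
  have h2 : ((n1 - n0 : ℤ) : ℝ) * ((η.val : ℝ) / (M : ℝ)) = (k : ℝ) * ((q : ℝ) * ((η.val : ℝ) / (M : ℝ))) := by
    rw [hk]
    push_cast
    ring
  have h3 : |((n1 - n0 : ℤ) : ℝ)| / q = |(k : ℝ)| := by
    rw [hk]
    push_cast
    rw [abs_mul, abs_of_pos hq0]
    field_simp
  rw [h2, h3]
  exact nrm_int_mul_le k _

lemma norm_G_le {M m : ℕ} [NeZero M] (f0 : ZMod M → ℂ) (hf0 : Bd f0) (f : Fin m → ZMod M → ℂ) (hf : ∀ j, Bd (f j))
    (y : Fin m → ZMod M) : ‖av (fun x => f0 x * ∏ j, f j (x + y j))‖ ≤ 1 := by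
  refine (norm_av_le _).trans (avr_le (fun x => ?_))
  rw [norm_mul, norm_prod]
  refine mul_le_one₀ (hf0 x) (Finset.prod_nonneg (fun j _ => norm_nonneg _)) ?_
  exact Finset.prod_le_one (fun j _ => norm_nonneg _) (fun j _ => hf j _)

/-- The exponent of the growth of the coefficients. -/
lemma pow_bound (D R q c C1 : ℕ) (hR : 2 ≤ R) (hq : q ≤ R ^ c) :
    R * (D + 1) * 2 ^ D * q ^ D * (2 * R ^ C1) ^ D ≤ R ^ (3 + (D + 1) + D + c * D + (1 + C1) * D) := by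
  have e1 : D + 1 ≤ R ^ (D + 1) := (Nat.lt_two_pow_self).le.trans (Nat.pow_le_pow_left hR _)
  have e2 : 2 ^ D ≤ R ^ D := Nat.pow_le_pow_left hR _
  have e3 : q ^ D ≤ R ^ (c * D) := by
    rw [pow_mul]
    exact Nat.pow_le_pow_left hq _
  have e4 : (2 * R ^ C1) ^ D ≤ R ^ ((1 + C1) * D) := by
    rw [pow_mul]
    refine Nat.pow_le_pow_left ?_ _
    rw [pow_add, pow_one]
    exact Nat.mul_le_mul_right _ hR
  have e0 : R ≤ R ^ 3 := by
    calc R = R ^ 1 := (pow_one R).symm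
      _ ≤ R ^ 3 := Nat.pow_le_pow_right (by omega) (by norm_num)
  calc R * (D + 1) * 2 ^ D * q ^ D * (2 * R ^ C1) ^ D
      ≤ R ^ 3 * R ^ (D + 1) * R ^ D * R ^ (c * D) * R ^ ((1 + C1) * D) :=
        Nat.mul_le_mul (Nat.mul_le_mul (Nat.mul_le_mul (Nat.mul_le_mul e0 e1) e2) e3) e4
    _ = R ^ (3 + (D + 1) + D + c * D + (1 + C1) * D) := by
        rw [← pow_add, ← pow_add, ← pow_add, ← pow_add]

/-- From lengths for `H` to lengths for `H'`. -/
lemma len_bound (D R H H' e C1 A J : ℕ) (hR : 2 ≤ R) (he : e ≤ D) (hH : H ≤ 2 * R ^ C1 * H')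
    (hJ : J * R ^ (C1 + A + (1 + C1) * D) ≤ H ^ e) : J * R ^ A ≤ H' ^ e := by
  have hR0 : 0 < R := by omega
  have e1 : H ^ e ≤ R ^ ((1 + C1) * D) * H' ^ e := by
    calc H ^ e ≤ (2 * R ^ C1 * H') ^ e := Nat.pow_le_pow_left hH _
      _ = (2 * R ^ C1) ^ e * H' ^ e := mul_pow _ _ _
      _ ≤ (R ^ (1 + C1)) ^ e * H' ^ e := by
          refine Nat.mul_le_mul_right _ (Nat.pow_le_pow_left ?_ _)
          rw [pow_add, pow_one]
          exact Nat.mul_le_mul_right _ hR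
      _ ≤ R ^ ((1 + C1) * D) * H' ^ e := by
          refine Nat.mul_le_mul_right _ ?_
          rw [← pow_mul]
          exact Nat.pow_le_pow_right hR0 (Nat.mul_le_mul_left _ he)
  have e2 : R ^ ((1 + C1) * D) * (J * R ^ A) ≤ R ^ ((1 + C1) * D) * H' ^ e := by
    refine le_trans ?_ (hJ.trans e1)
    calc R ^ ((1 + C1) * D) * (J * R ^ A) = J * R ^ (A + (1 + C1) * D) := by
          rw [pow_add]
          ring
      _ ≤ J * R ^ (C1 + A + (1 + C1) * D) := by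
          refine Nat.mul_le_mul_left _ (Nat.pow_le_pow_right hR0 ?_)
          omega
  exact Nat.le_of_mul_le_mul_left e2 (by positivity)

end CaAAux

open CaAAux in
theorem ca1 (m : ℕ) (hA : GenA m) (d : Fin (m + 1) → ℕ) (hd : StrictMono d) (h1 : ∀ j, 1 ≤ d j) (c : ℕ) :
    ∃ C : ℕ, ∀ (M : ℕ) [NeZero M] (H R : ℕ), 2 ≤ R → R ^ C ≤ H → ∀ P : Fin (m + 1) → ℤ[X], Fam (m + 1) d R H P →
    ∀ (η : ZMod M) (q : ℕ), 1 ≤ q → q ≤ R ^ c →
    nrm ((q : ℝ) * ((η.val : ℝ) / (M : ℝ))) ≤ (R : ℝ) ^ c / (H : ℝ) ^ d (Fin.last m) →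
    ∀ f0 : ZMod M → ℂ, Bd f0 → ∀ f : Fin m → ZMod M → ℂ, (∀ j, Bd (f j)) →
    1 / (R : ℝ) ≤ ‖TP H (fun t => chi η ((((P (Fin.last m)).eval (t : ℤ) : ℤ)) : ZMod M)) (fun j => P j.castSucc) f0 f‖ →
    ∀ j : Fin m, Star C R H (d j.castSucc) (f j) := by
  obtain ⟨C3, hC3⟩ := hA (fun j => d j.castSucc) (fun i j hij => hd (Fin.castSucc_lt_castSucc_iff.mpr hij))
    (fun j => h1 _)
  obtain ⟨D, hD⟩ : ∃ D, D = d (Fin.last m) := ⟨_, rfl⟩
  have hDj : ∀ j : Fin m, d j.castSucc ≤ D := fun j => by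
    rw [hD]
    exact (hd (Fin.castSucc_lt_last j)).le
  have hD1 : 1 ≤ D := by
    rw [hD]
    exact h1 _
  obtain ⟨K0, hK0⟩ : ∃ K0, 28 * D ^ 2 * 2 ^ D ≤ 2 ^ K0 := ⟨28 * D ^ 2 * 2 ^ D, (Nat.lt_two_pow_self).le⟩
  obtain ⟨C1, hC1⟩ : ∃ C1, C1 = c + 3 + K0 := ⟨_, rfl⟩
  obtain ⟨C2, hC2⟩ : ∃ C2, C2 = 3 + (D + 1) + D + c * D + (1 + C1) * D := ⟨_, rfl⟩
  refine ⟨C1 + C2 * C3 + (1 + C1) * D, ?_⟩
  intro M _ H R hR hRH P hP η q hq hqR hnrm f0 hf0 f hf hTP j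
  have hR0 : 0 < R := by omega
  have hRr : (2 : ℝ) ≤ R := by exact_mod_cast hR
  have hRr0 : (0 : ℝ) < R := by linarith
  have hRC1 : R ^ C1 ≤ H := (Nat.pow_le_pow_right hR0 (by omega)).trans hRH
  have hH1 : 1 ≤ H := (Nat.one_le_pow _ _ hR0).trans hRC1
  have hHr : (0 : ℝ) < H := by exact_mod_cast hH1
  obtain ⟨H', hH'⟩ : ∃ H', H' = H / R ^ C1 := ⟨_, rfl⟩
  have hH'1 : 1 ≤ H' := by
    rw [hH']
    exact Nat.div_pos hRC1 (by positivity)
  have hH'R : H' * R ^ C1 ≤ H := by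
    rw [hH']
    exact Nat.div_mul_le_self _ _
  have hH'H : H' ≤ H := by
    rw [hH']
    exact Nat.div_le_self _ _
  have hHH' : H ≤ 2 * R ^ C1 * H' := by
    have e1 : H < H' * R ^ C1 + R ^ C1 := by
      rw [hH']
      exact Nat.lt_div_mul_add (by positivity)
    have e2 : R ^ C1 ≤ H' * R ^ C1 := Nat.le_mul_of_pos_left _ hH'1
    calc H ≤ H' * R ^ C1 + H' * R ^ C1 := by omega
      _ = 2 * R ^ C1 * H' := by ring
  have hRH' : (R ^ C2) ^ C3 ≤ H' := by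
    rw [← pow_mul, hH', Nat.le_div_iff_mul_le (by positivity), ← pow_add]
    refine (Nat.pow_le_pow_right hR0 ?_).trans hRH
    omega
  have hratio : (H' : ℝ) / H ≤ 1 / (R : ℝ) ^ C1 := by
    rw [div_le_div_iff₀ hHr (by positivity), one_mul]
    exact_mod_cast hH'R
  have hF1 : ∀ t, ‖chi η ((((P (Fin.last m)).eval (t : ℤ) : ℤ)) : ZMod M) *
      av (fun x => f0 x * ∏ j : Fin m, f j (x + ((((P j.castSucc).eval (t : ℤ) : ℤ)) : ZMod M)))‖ ≤ 1 := by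
    intro t
    rw [norm_mul, norm_chi, one_mul]
    exact norm_G_le f0 hf0 f hf (fun j => ((((P j.castSucc).eval (t : ℤ) : ℤ)) : ZMod M))
  have hF1' : ∀ t : ℕ, ‖chi η ((((P (Fin.last m)).eval (t : ℤ) : ℤ)) : ZMod M) *
      av (fun x => f0 x * ∏ j : Fin m, f j (x + ((((P j.castSucc).eval (t : ℤ) : ℤ)) : ZMod M)))‖ ≤ 1 :=
    fun t => hF1 (t : ℤ)
  obtain ⟨t0, ht0, hst⟩ := exists_shift H H' q _ hF1' hH1 hH'1 (1 / (R : ℝ)) hTP
  have hqH' : q * H' ≤ H := by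
    refine le_trans (Nat.mul_le_mul_right _ hqR) ?_
    refine le_trans ?_ hH'R
    rw [mul_comm]
    exact Nat.mul_le_mul_left _ (Nat.pow_le_pow_right hR0 (by omega))
  -- the first error
  have herr1 : 2 * ((q : ℝ) * H') / H ≤ 1 / (2 * (R : ℝ)) := by
    have e1 : (q : ℝ) ≤ (R : ℝ) ^ c := by exact_mod_cast hqR
    have e2 : 2 * ((q : ℝ) * H') / H = 2 * q * (H' / H) := by ring
    rw [e2]
    have e3 : 2 * (q : ℝ) * (H' / H) ≤ 2 * (R : ℝ) ^ c * (1 / (R : ℝ) ^ C1) := by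
      refine mul_le_mul (by linarith) hratio (by positivity) (by positivity)
    refine e3.trans ?_
    rw [← mul_div_assoc, mul_one, div_le_div_iff₀ (by positivity) (by positivity), one_mul]
    have e4 : 2 * (R : ℝ) ^ c * (2 * R) = 4 * (R : ℝ) ^ (c + 1) := by
      rw [pow_succ]
      ring
    rw [e4]
    calc 4 * (R : ℝ) ^ (c + 1) ≤ (R : ℝ) ^ 2 * (R : ℝ) ^ (c + 1) := by
          refine mul_le_mul_of_nonneg_right ?_ (by positivity)
          nlinarith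
      _ = (R : ℝ) ^ (c + 3) := by
          rw [← pow_add]
          congr 1
          omega
      _ ≤ (R : ℝ) ^ C1 := pow_le_pow_right₀ (by linarith) (by omega)
  -- the second error
  have hnrm0 := nrm_nonneg ((q : ℝ) * ((η.val : ℝ) / (M : ℝ)))
  have herr2 : ∀ t' < H', ‖chi η ((((P (Fin.last m)).eval ((t0 + q * t' : ℕ) : ℤ) : ℤ)) : ZMod M) -
      chi η ((((P (Fin.last m)).eval (t0 : ℤ) : ℤ)) : ZMod M)‖ ≤ 1 / (4 * (R : ℝ)) := by
    intro t' ht'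
    have hdv : (q : ℤ) ∣ (P (Fin.last m)).eval ((t0 + q * t' : ℕ) : ℤ) - (P (Fin.last m)).eval (t0 : ℤ) := by
      refine dvd_trans ?_ (Polynomial.sub_dvd_eval_sub _ _ _)
      push_cast
      exact ⟨(t' : ℤ), by ring⟩
    refine (phase_le η q hq _ _ hdv).trans ?_
    have hqt : q * t' ≤ H := (Nat.mul_le_mul_left _ ht'.le).trans hqH'
    have hpd := poly_diff (P (Fin.last m)) D R H (by rw [hD]; exact hP.1 _) hD1 hH1
      (fun i hi => by rw [hD]; exact hP.2 _ i hi) (t0 + q * t') t0 (by omega) (by omega)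
    have e0 : |((t0 + q * t' : ℕ) : ℤ) - (t0 : ℤ)| = (q : ℤ) * t' := by
      push_cast
      rw [add_sub_cancel_left, abs_of_nonneg (by positivity)]
    rw [e0] at hpd
    have hpr : |(((P (Fin.last m)).eval ((t0 + q * t' : ℕ) : ℤ) - (P (Fin.last m)).eval (t0 : ℤ) : ℤ) : ℝ)| ≤
        ((D ^ 2 * 2 ^ D * R * H ^ (D - 1) : ℕ) : ℝ) * ((q : ℝ) * t') := by
      have := (Int.cast_le (R := ℝ)).mpr hpd
      push_cast at this ⊢
      exact this
    have hq0 : (0 : ℝ) < q := by exact_mod_cast hq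
    have ht'r : (t' : ℝ) ≤ H' := by exact_mod_cast ht'.le
    have e1 : |(((P (Fin.last m)).eval ((t0 + q * t' : ℕ) : ℤ) - (P (Fin.last m)).eval (t0 : ℤ) : ℤ) : ℝ)| / q ≤
        ((D : ℝ) ^ 2 * 2 ^ D * R * (H : ℝ) ^ (D - 1)) * H' := by
      rw [div_le_iff₀ hq0]
      refine hpr.trans ?_
      push_cast
      have : (D : ℝ) ^ 2 * 2 ^ D * R * (H : ℝ) ^ (D - 1) * ((q : ℝ) * t') ≤
          (D : ℝ) ^ 2 * 2 ^ D * R * (H : ℝ) ^ (D - 1) * ((q : ℝ) * H') :=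
        mul_le_mul_of_nonneg_left (mul_le_mul_of_nonneg_left ht'r hq0.le) (by positivity)
      linarith
    have hnrm' : nrm ((q : ℝ) * ((η.val : ℝ) / (M : ℝ))) ≤ (R : ℝ) ^ c / (H : ℝ) ^ D := by
      rw [hD]
      exact hnrm
    have e2 : |(((P (Fin.last m)).eval ((t0 + q * t' : ℕ) : ℤ) - (P (Fin.last m)).eval (t0 : ℤ) : ℤ) : ℝ)| / q *
        nrm ((q : ℝ) * ((η.val : ℝ) / (M : ℝ))) ≤
        ((D : ℝ) ^ 2 * 2 ^ D * R * (H : ℝ) ^ (D - 1)) * H' * ((R : ℝ) ^ c / (H : ℝ) ^ D) :=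
      mul_le_mul e1 hnrm' hnrm0 (by positivity)
    have e3 : ((D : ℝ) ^ 2 * 2 ^ D * R * (H : ℝ) ^ (D - 1)) * H' * ((R : ℝ) ^ c / (H : ℝ) ^ D) =
        (D : ℝ) ^ 2 * 2 ^ D * (R : ℝ) ^ (c + 1) * (H' / H) := by
      obtain ⟨D', rfl⟩ : ∃ D', D = D' + 1 := ⟨D - 1, by omega⟩
      rw [Nat.add_sub_cancel, pow_succ (H : ℝ) D', pow_succ (R : ℝ) c]
      field_simp
    have e4 : (D : ℝ) ^ 2 * 2 ^ D * (R : ℝ) ^ (c + 1) * (H' / H) ≤
        (D : ℝ) ^ 2 * 2 ^ D * (R : ℝ) ^ (c + 1) * (1 / (R : ℝ) ^ C1) :=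
      mul_le_mul_of_nonneg_left hratio (by positivity)
    rw [e3] at e2
    have e5 : 7 * ((D : ℝ) ^ 2 * 2 ^ D * (R : ℝ) ^ (c + 1) * (1 / (R : ℝ) ^ C1)) ≤ 1 / (4 * (R : ℝ)) := by
      rw [mul_one_div, mul_div_assoc', div_le_div_iff₀ (by positivity) (by positivity), one_mul]
      have e6 : (28 : ℝ) * (D : ℝ) ^ 2 * 2 ^ D ≤ (R : ℝ) ^ K0 := by
        have h5 : ((28 * D ^ 2 * 2 ^ D : ℕ) : ℝ) ≤ ((R ^ K0 : ℕ) : ℝ) :=
          Nat.cast_le.mpr (hK0.trans (Nat.pow_le_pow_left hR _))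
        push_cast at h5
        exact h5
      calc 7 * ((D : ℝ) ^ 2 * 2 ^ D * (R : ℝ) ^ (c + 1)) * (4 * R)
          = (28 * (D : ℝ) ^ 2 * 2 ^ D) * (R : ℝ) ^ (c + 2) := by
            rw [pow_succ (R : ℝ) (c + 1)]
            ring
        _ ≤ (R : ℝ) ^ K0 * (R : ℝ) ^ (c + 2) := mul_le_mul_of_nonneg_right e6 (by positivity)
        _ = (R : ℝ) ^ (K0 + (c + 2)) := by rw [← pow_add]
        _ ≤ (R : ℝ) ^ C1 := pow_le_pow_right₀ (by linarith) (by omega)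
    linarith
  -- the average without the phase
  have hG : 1 / (4 * (R : ℝ)) ≤ ‖tv H' (fun t' => av (fun x => f0 x * ∏ j : Fin m,
      f j (x + ((((P j.castSucc).eval ((t0 + q * t' : ℕ) : ℤ) : ℤ)) : ZMod M))))‖ := by
    have e1 : tv H' (fun t' => chi η ((((P (Fin.last m)).eval ((t0 + q * t' : ℕ) : ℤ) : ℤ)) : ZMod M) *
        av (fun x => f0 x * ∏ j : Fin m,
          f j (x + ((((P j.castSucc).eval ((t0 + q * t' : ℕ) : ℤ) : ℤ)) : ZMod M)))) -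
        chi η ((((P (Fin.last m)).eval (t0 : ℤ) : ℤ)) : ZMod M) * tv H' (fun t' => av (fun x => f0 x * ∏ j : Fin m,
          f j (x + ((((P j.castSucc).eval ((t0 + q * t' : ℕ) : ℤ) : ℤ)) : ZMod M)))) =
        tv H' (fun t' => (chi η ((((P (Fin.last m)).eval ((t0 + q * t' : ℕ) : ℤ) : ℤ)) : ZMod M) -
          chi η ((((P (Fin.last m)).eval (t0 : ℤ) : ℤ)) : ZMod M)) *
          av (fun x => f0 x * ∏ j : Fin m,
            f j (x + ((((P j.castSucc).eval ((t0 + q * t' : ℕ) : ℤ) : ℤ)) : ZMod M)))) := by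
      rw [← tv_mul_left, ← tv_sub]
      congr 1
      funext t'
      ring
    have e2 : ‖tv H' (fun t' => (chi η ((((P (Fin.last m)).eval ((t0 + q * t' : ℕ) : ℤ) : ℤ)) : ZMod M) -
          chi η ((((P (Fin.last m)).eval (t0 : ℤ) : ℤ)) : ZMod M)) *
          av (fun x => f0 x * ∏ j : Fin m,
            f j (x + ((((P j.castSucc).eval ((t0 + q * t' : ℕ) : ℤ) : ℤ)) : ZMod M))))‖ ≤ 1 / (4 * (R : ℝ)) := by
      refine (norm_tv_le H' _).trans (tvr_le H' (by positivity) (fun t' ht' => ?_))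
      rw [norm_mul]
      have h5 := norm_G_le f0 hf0 f hf
        (fun j => ((((P j.castSucc).eval ((t0 + q * t' : ℕ) : ℤ) : ℤ)) : ZMod M))
      calc _ ≤ 1 / (4 * (R : ℝ)) * 1 := mul_le_mul (herr2 t' ht') h5 (norm_nonneg _) (by positivity)
        _ = 1 / (4 * (R : ℝ)) := mul_one _
    rw [← e1] at e2
    have e3 := norm_sub_norm_le (tv H' (fun t' => chi η ((((P (Fin.last m)).eval ((t0 + q * t' : ℕ) : ℤ) : ℤ)) :
        ZMod M) * av (fun x => f0 x * ∏ j : Fin m,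
          f j (x + ((((P j.castSucc).eval ((t0 + q * t' : ℕ) : ℤ) : ℤ)) : ZMod M)))))
      (chi η ((((P (Fin.last m)).eval (t0 : ℤ) : ℤ)) : ZMod M) * tv H' (fun t' => av (fun x => f0 x * ∏ j : Fin m,
          f j (x + ((((P j.castSucc).eval ((t0 + q * t' : ℕ) : ℤ) : ℤ)) : ZMod M)))))
    rw [norm_mul, norm_chi, one_mul] at e3
    have e4 : 1 / (R : ℝ) - 1 / (2 * R) - 1 / (4 * R) = 1 / (4 * R) := by
      field_simp
      norm_num
    have hst' : 1 / (R : ℝ) - 2 * ((q : ℝ) * H') / H ≤ ‖tv H' (fun t' =>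
        chi η ((((P (Fin.last m)).eval ((t0 + q * t' : ℕ) : ℤ) : ℤ)) : ZMod M) *
        av (fun x => f0 x * ∏ j : Fin m,
          f j (x + ((((P j.castSucc).eval ((t0 + q * t' : ℕ) : ℤ) : ℤ)) : ZMod M))))‖ := hst
    linarith
  have hTP' : 1 / ((R ^ C2 : ℕ) : ℝ) ≤ ‖TP H' (fun _ => 1)
      (fun j => (P j.castSucc).comp (Polynomial.C (t0 : ℤ) + Polynomial.C (q : ℤ) * X)) f0 f‖ := by
    have e1 : TP H' (fun _ => 1)
        (fun j => (P j.castSucc).comp (Polynomial.C (t0 : ℤ) + Polynomial.C (q : ℤ) * X)) f0 f =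
        tv H' (fun t' => av (fun x => f0 x * ∏ j : Fin m,
          f j (x + ((((P j.castSucc).eval ((t0 + q * t' : ℕ) : ℤ) : ℤ)) : ZMod M)))) := by
      unfold TP
      congr 1
      funext t'
      rw [one_mul]
      congr 1
      funext x
      congr 1
      refine Finset.prod_congr rfl (fun j _ => ?_)
      rw [Polynomial.eval_comp]
      simp
    rw [e1]
    refine le_trans ?_ hG
    push_cast
    refine one_div_le_one_div_of_le (by positivity) ?_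
    calc 4 * (R : ℝ) ≤ (R : ℝ) ^ 2 * R := by
          refine mul_le_mul_of_nonneg_right ?_ hRr0.le
          nlinarith
      _ = (R : ℝ) ^ 3 := by ring
      _ ≤ (R : ℝ) ^ C2 := pow_le_pow_right₀ (by linarith) (by omega)
  have hFam0 : Fam m (fun j => d j.castSucc) R H (fun j => P j.castSucc) :=
    ⟨fun j => hP.1 _, fun j i hi => hP.2 _ i hi⟩
  have hFam : Fam m (fun j => d j.castSucc) (R ^ C2) H'
      (fun j => (P j.castSucc).comp (Polynomial.C (t0 : ℤ) + Polynomial.C (q : ℤ) * X)) := by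
    refine Fam_mono (Fam_comp hFam0 (fun j => h1 _) hq ht0.le hH'1 hH'H hHH' D hDj) ?_
    rw [hC2]
    exact pow_bound D R q c C1 hR hqR
  have h2R : 2 ≤ R ^ C2 := by
    calc 2 ≤ R := hR
      _ = R ^ 1 := (pow_one R).symm
      _ ≤ R ^ C2 := Nat.pow_le_pow_right hR0 (by omega)
  obtain ⟨q', hq'1, hq'2, hq'3⟩ := hC3 M H' (R ^ C2) h2R hRH' _ hFam f0 hf0 f hf hTP' j
  have hexp : C2 * C3 ≤ C1 + C2 * C3 + (1 + C1) * D := by omega
  refine ⟨q', hq'1, hq'2.trans ?_, fun J hJ hJR => ?_⟩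
  · rw [← pow_mul]
    exact Nat.pow_le_pow_right hR0 hexp
  · have e1 : J * (R ^ C2) ^ C3 ≤ H' ^ d j.castSucc := by
      rw [← pow_mul]
      exact len_bound D R H H' _ C1 (C2 * C3) J hR (hDj j) hHH' hJR
    refine le_trans ?_ (hq'3 J hJ e1)
    push_cast
    rw [← pow_mul]
    exact one_div_le_one_div_of_le (by positivity) (pow_le_pow_right₀ (by linarith) hexp)

end Pool.Agent.NLG
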