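import Pool.Agent.Lib.NLG.DefsC
import Pool.Agent.Lib.NLG.Ev

/-!
# Module CaB: replacing a function by an almost periodic one

PROOF. Let `F z = conj (tv H (fun t => f0 (z - P j t) ∏_(i ≠ j) f i (z + P i t - P j t)))` (bounded). Shifting `x` by `- P j t` for each `t`: for every `g`,
`TP H 1 P f0 (update f j g) = av (g · conj F)`. With `g = f j`: `1 / R ≤ |av (f j conj F)|`, so `R ^ (-2) ≤ avr ‖F‖ ^ 2 = ‖TP H 1 P f0 (update f j F)‖`. The hypothesis gives `Star C0 R H e F`: `q`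
and, with `J` = the integer part of `H ^ e / R ^ C0` (`≥ 1`; `H ^ e ≤ 2 J R ^ C0`), `R ^ (-C0) ≤ avr_x ‖tv J (fun i => F (x + q i))‖ = av_x u x * tv J (fun i => F (x + q i))` with `‖u x‖ ≤ 1`
`= av_x F x * tv J (fun i => u (x - q i))`. Let `c x = conj (tv J (fun i => u (x - q i)))`: bounded by one, `‖c (x + q i) - c x‖ ≤ 2 i / J ≤ 4 R ^ C0 i / H ^ e` (`norm_tv_shift`-like: the two sums
differ in at most `2 i` terms), and `‖TP H 1 P f0 (update f j c)‖ = |av (c conj F)| ≥ R ^ (-C0)`. `C = C0 + 2`.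
-/

set_option autoImplicit false

open Finset Polynomial

namespace Pool.Agent.NLG

open Pool.Agent.HLT Pool.Agent.NLT

namespace CaBAux

variable {M : ℕ} [NeZero M]

/-- Average of everything but the slot `j`. -/
noncomputable def kk {m : ℕ} (H : ℕ) (P : Fin m → ℤ[X]) (f0 : ZMod M → ℂ) (f : Fin m → ZMod M → ℂ) (j : Fin m) :
    ZMod M → ℂ := fun x =>
  ev (range H) (fun t => f0 (x - (((P j).eval (t : ℤ) : ℤ) : ZMod M)) *
    ∏ i ∈ univ.erase j, f i (x - (((P j).eval (t : ℤ) : ℤ) : ZMod M) + (((P i).eval (t : ℤ) : ℤ) : ZMod M)))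

lemma kk_Bd {m : ℕ} (H : ℕ) (P : Fin m → ℤ[X]) (f0 : ZMod M → ℂ) (h0 : Bd f0) (f : Fin m → ZMod M → ℂ)
    (hf : ∀ j, Bd (f j)) (j : Fin m) : Bd (kk H P f0 f j) := by
  intro x
  refine norm_ev_le_one _ (fun t _ => ?_)
  rw [norm_mul, norm_prod]
  exact mul_le_one₀ (h0 _) (prod_nonneg fun _ _ => norm_nonneg _)
    (prod_le_one (fun _ _ => norm_nonneg _) (fun i _ => hf i _))

lemma TP_slot {m : ℕ} (H : ℕ) (P : Fin m → ℤ[X]) (f0 : ZMod M → ℂ) (f : Fin m → ZMod M → ℂ) (j : Fin m)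
    (g : ZMod M → ℂ) :
    TP H (fun _ => 1) P f0 (Function.update f j g) = av (fun x => g x * kk H P f0 f j x) := by
  unfold TP kk
  rw [tv_eq_ev]
  have h1 : ∀ x : ZMod M, g x * ev (range H) (fun t => f0 (x - (((P j).eval (t : ℤ) : ℤ) : ZMod M)) *
      ∏ i ∈ univ.erase j, f i (x - (((P j).eval (t : ℤ) : ℤ) : ZMod M) + (((P i).eval (t : ℤ) : ℤ) : ZMod M))) =
      ev (range H) (fun t => g x * (f0 (x - (((P j).eval (t : ℤ) : ℤ) : ZMod M)) *
      ∏ i ∈ univ.erase j, f i (x - (((P j).eval (t : ℤ) : ℤ) : ZMod M) + (((P i).eval (t : ℤ) : ℤ) : ZMod M)))) :=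
    fun x => (ev_mul_left _ _ _).symm
  simp only [h1]
  rw [← ev_av_comm]
  refine ev_congr fun t _ => ?_
  rw [one_mul, ← av_shift_sub _ (((P j).eval (t : ℤ) : ℤ) : ZMod M)]
  congr 1
  funext x
  rw [← mul_prod_erase univ _ (mem_univ j), Function.update_self, sub_add_cancel]
  have h2 : ∏ i ∈ univ.erase j, Function.update f j g i (x - (((P j).eval (t : ℤ) : ℤ) : ZMod M) +
      (((P i).eval (t : ℤ) : ℤ) : ZMod M)) = ∏ i ∈ univ.erase j, f i (x - (((P j).eval (t : ℤ) : ℤ) : ZMod M) +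
      (((P i).eval (t : ℤ) : ℤ) : ZMod M)) := by
    refine prod_congr rfl fun i hi => ?_
    rw [Function.update_of_ne (ne_of_mem_erase hi)]
  rw [h2]
  ring

/-- The phase of a complex number. -/
lemma exists_ph (w : ℂ) : ∃ b : ℂ, ‖b‖ ≤ 1 ∧ b * w = (‖w‖ : ℂ) := by
  by_cases hw : w = 0
  · exact ⟨0, by simp, by simp [hw]⟩
  · refine ⟨(starRingEnd ℂ) w / (‖w‖ : ℂ), ?_, ?_⟩
    · rw [norm_div, RCLike.norm_conj, Complex.norm_real, norm_norm]
      exact (div_self (norm_ne_zero_iff.2 hw)).le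
    · have h0 : (‖w‖ : ℂ) ≠ 0 := by
        rw [Ne, Complex.ofReal_eq_zero, norm_eq_zero]
        exact hw
      rw [div_mul_eq_mul_div, div_eq_iff h0, mul_comm, Complex.mul_conj, Complex.normSq_eq_norm_sq]
      push_cast
      ring

/-- One step of a moving average. -/
lemma step (J : ℕ) (hJ : 1 ≤ J) (u : ZMod M → ℂ) (hu : Bd u) (x : ZMod M) (q : ℕ) :
    ‖ev (range J) (fun l => u (x + (q : ZMod M) - ((q * l : ℕ) : ZMod M))) -
      ev (range J) (fun l => u (x - ((q * l : ℕ) : ZMod M)))‖ ≤ 2 / J := by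
  obtain ⟨K, rfl⟩ : ∃ K, J = K + 1 := ⟨J - 1, by omega⟩
  unfold ev
  rw [card_range, ← sub_div, sum_range_succ', sum_range_succ]
  have h1 : ∀ l ∈ range K, u (x + (q : ZMod M) - ((q * (l + 1) : ℕ) : ZMod M)) =
      u (x - ((q * l : ℕ) : ZMod M)) := by
    intro l _
    congr 1
    push_cast
    ring
  rw [sum_congr rfl h1, add_sub_add_left_eq_sub, norm_div, Complex.norm_natCast]
  refine div_le_div_of_nonneg_right ?_ (Nat.cast_nonneg _)
  calc ‖_ - _‖ ≤ 1 + 1 := (norm_sub_le _ _).trans (add_le_add (hu _) (hu _))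
    _ = 2 := by norm_num

lemma steps (J : ℕ) (hJ : 1 ≤ J) (u : ZMod M → ℂ) (hu : Bd u) (x : ZMod M) (q i : ℕ) :
    ‖ev (range J) (fun l => u (x + ((q * i : ℕ) : ZMod M) - ((q * l : ℕ) : ZMod M))) -
      ev (range J) (fun l => u (x - ((q * l : ℕ) : ZMod M)))‖ ≤ 2 * i / J := by
  induction i with
  | zero => simp
  | succ i ih =>
    have h1 := step J hJ u hu (x + ((q * i : ℕ) : ZMod M)) q
    have h2 : x + ((q * (i + 1) : ℕ) : ZMod M) = x + ((q * i : ℕ) : ZMod M) + (q : ZMod M) := by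
      push_cast
      ring
    rw [h2]
    calc _ ≤ ‖ev (range J) (fun l => u (x + ((q * i : ℕ) : ZMod M) + (q : ZMod M) - ((q * l : ℕ) : ZMod M))) -
          ev (range J) (fun l => u (x + ((q * i : ℕ) : ZMod M) - ((q * l : ℕ) : ZMod M)))‖ +
          ‖ev (range J) (fun l => u (x + ((q * i : ℕ) : ZMod M) - ((q * l : ℕ) : ZMod M))) -
          ev (range J) (fun l => u (x - ((q * l : ℕ) : ZMod M)))‖ := norm_sub_le_norm_sub_add_norm_sub _ _ _
      _ ≤ 2 / J + 2 * i / J := add_le_add h1 ih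
      _ = 2 * ((i + 1 : ℕ) : ℝ) / J := by
          push_cast
          ring

end CaBAux

open CaBAux in
theorem dual_slot (C0 : ℕ) : ∃ C : ℕ, ∀ (M : ℕ) [NeZero M] (m H R e : ℕ), 2 ≤ R → R ^ C ≤ H ^ e → ∀ (P : Fin m → ℤ[X])
    (f0 : ZMod M → ℂ), Bd f0 → ∀ f : Fin m → ZMod M → ℂ, (∀ j, Bd (f j)) → ∀ j : Fin m,
    (∀ g : ZMod M → ℂ, Bd g → 1 / (R : ℝ) ^ 2 ≤ ‖TP H (fun _ => 1) P f0 (Function.update f j g)‖ → Star C0 R H e g) →
    1 / (R : ℝ) ≤ ‖TP H (fun _ => 1) P f0 f‖ →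
    ∃ (g : ZMod M → ℂ) (q : ℕ), Bd g ∧ 1 ≤ q ∧ q ≤ R ^ C ∧
      (∀ (x : ZMod M) (i : ℕ), ‖g (x + ((q * i : ℕ) : ZMod M)) - g x‖ ≤ (R : ℝ) ^ C * i / (H : ℝ) ^ e) ∧
      1 / (R : ℝ) ^ C ≤ ‖TP H (fun _ => 1) P f0 (Function.update f j g)‖ := by
  refine ⟨C0 + 2, ?_⟩
  intro M _ m H R e hR hRH P f0 h0 f hf j hstar hbig
  have hR1 : (1 : ℝ) ≤ R := by exact_mod_cast (by omega : 1 ≤ R)
  have hR2 : (2 : ℝ) ≤ R := by exact_mod_cast hR
  have hR0 : (0 : ℝ) < R := by linarith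
  set K : ZMod M → ℂ := kk H P f0 f j with hK
  have hKB : Bd K := kk_Bd H P f0 h0 f hf j
  have e1 : TP H (fun _ => 1) P f0 f = av (fun x => f j x * K x) := by
    rw [← TP_slot, Function.update_eq_self]
  have hF : Bd (fun x => (starRingEnd ℂ) (K x)) := Bd_conj hKB
  have e2 : ‖TP H (fun _ => 1) P f0 (Function.update f j (fun x => (starRingEnd ℂ) (K x)))‖ =
      avr (fun x => ‖K x‖ ^ 2) := by
    rw [TP_slot]
    have h1 : ∀ x, (starRingEnd ℂ) (K x) * K x = ((‖K x‖ ^ 2 : ℝ) : ℂ) := by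
      intro x
      rw [mul_comm, Complex.mul_conj, Complex.normSq_eq_norm_sq]
    have h2 : (fun x => (starRingEnd ℂ) (K x) * kk H P f0 f j x) = fun x => ((‖K x‖ ^ 2 : ℝ) : ℂ) := by
      funext x
      exact h1 x
    rw [h2, av_ofReal, Complex.norm_real, Real.norm_of_nonneg (avr_nonneg fun x => by positivity)]
  obtain ⟨q, hq1, hq2, hq3⟩ := hstar _ hF (by
    rw [e2]
    calc 1 / (R : ℝ) ^ 2 = (1 / (R : ℝ)) ^ 2 := by rw [div_pow, one_pow]
      _ ≤ ‖av (fun x => f j x * K x)‖ ^ 2 := by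
          rw [← e1]
          exact pow_le_pow_left₀ (by positivity) hbig 2
      _ ≤ avr (fun x => ‖K x‖ ^ 2) := norm_av_mul_sq_le (f j) K (hf j))
  have hRC : 0 < R ^ C0 := pow_pos (by omega) _
  have hle : R ^ C0 ≤ H ^ e := (Nat.pow_le_pow_right (by omega) (by omega)).trans hRH
  set J : ℕ := H ^ e / R ^ C0 with hJ
  have hJ1 : 1 ≤ J := (Nat.one_le_div_iff hRC).mpr hle
  have hJle : J * R ^ C0 ≤ H ^ e := Nat.div_mul_le_self _ _
  have hJge : H ^ e ≤ 2 * J * R ^ C0 := by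
    have h1 : H ^ e < R ^ C0 * (J + 1) := Nat.lt_mul_div_succ _ hRC
    nlinarith [Nat.mul_le_mul_left (R ^ C0) hJ1]
  have hT := hq3 J hJ1 hJle
  set T : ZMod M → ℂ := fun x => tv J (fun i => (starRingEnd ℂ) (K (x + ((q * i : ℕ) : ZMod M)))) with hTd
  choose u hu1 hu2 using fun x : ZMod M => exists_ph (T x)
  have e3 : ((avr (fun x => ‖T x‖) : ℝ) : ℂ) =
      av (fun x => (starRingEnd ℂ) (K x) * ev (range J) (fun l => u (x - ((q * l : ℕ) : ZMod M)))) := by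
    rw [← av_ofReal]
    have h1 : ∀ x, ((‖T x‖ : ℝ) : ℂ) =
        ev (range J) (fun l => u x * (starRingEnd ℂ) (K (x + ((q * l : ℕ) : ZMod M)))) := by
      intro x
      rw [← hu2 x, hTd, ev_mul_left]
      simp only [tv_eq_ev]
    simp only [h1]
    rw [← ev_av_comm]
    simp only [← ev_mul_left]
    rw [← ev_av_comm]
    refine ev_congr fun l _ => ?_
    rw [← av_shift_sub _ ((q * l : ℕ) : ZMod M)]
    congr 1
    funext x
    rw [sub_add_cancel, mul_comm]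
  refine ⟨fun x => (starRingEnd ℂ) (ev (range J) (fun l => u (x - ((q * l : ℕ) : ZMod M)))), q, ?_, hq1, ?_, ?_, ?_⟩
  · exact Bd_conj (fun x => norm_ev_le_one _ (fun l _ => hu1 _))
  · exact hq2.trans (Nat.pow_le_pow_right (by omega) (by omega))
  · intro x i
    show ‖(starRingEnd ℂ) (ev (range J) (fun l => u (x + ((q * i : ℕ) : ZMod M) - ((q * l : ℕ) : ZMod M)))) -
      (starRingEnd ℂ) (ev (range J) (fun l => u (x - ((q * l : ℕ) : ZMod M))))‖ ≤ _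
    rw [← map_sub, RCLike.norm_conj]
    refine (steps J hJ1 u hu1 x q i).trans ?_
    have hJ0 : (0 : ℝ) < J := by exact_mod_cast hJ1
    have hH0 : (0 : ℝ) < (H : ℝ) ^ e := by exact_mod_cast lt_of_lt_of_le hRC hle
    rw [div_le_div_iff₀ hJ0 hH0]
    have h1 : (H : ℝ) ^ e ≤ 2 * J * (R : ℝ) ^ C0 := by exact_mod_cast hJge
    have h4 : (4 : ℝ) ≤ (R : ℝ) ^ 2 := by nlinarith
    calc 2 * (i : ℝ) * (H : ℝ) ^ e ≤ 2 * (i : ℝ) * (2 * J * (R : ℝ) ^ C0) := by gcongr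
      _ = 4 * ((R : ℝ) ^ C0 * i * J) := by ring
      _ ≤ (R : ℝ) ^ 2 * ((R : ℝ) ^ C0 * i * J) := by gcongr
      _ = (R : ℝ) ^ (C0 + 2) * i * J := by ring
  · rw [TP_slot]
    have h1 : av (fun x => (starRingEnd ℂ) (ev (range J) (fun l => u (x - ((q * l : ℕ) : ZMod M)))) *
        kk H P f0 f j x) = (starRingEnd ℂ) ((avr (fun x => ‖T x‖) : ℝ) : ℂ) := by
      rw [e3, ← av_conj]
      congr 1
      funext x
      rw [map_mul, Complex.conj_conj, mul_comm]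
    rw [h1, RCLike.norm_conj, Complex.norm_real, Real.norm_of_nonneg (avr_nonneg fun x => norm_nonneg _)]
    refine le_trans ?_ hT
    exact one_div_le_one_div_of_le (by positivity) (pow_le_pow_right₀ hR1 (by omega))

end Pool.Agent.NLG
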