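import Pool.Agent.Lib.NLG.BlkA
import Pool.Agent.Lib.NLG.WeylG
import Pool.Agent.Lib.NLG.RedM

/-!
# Module CaC: the last function

PROOF. `D = d (last m)`, `Pm = P (last m)`, `fm = f (last m)`. Let `q = ∏_(j < m) q_j ≤ R ^ (c m)`, `H'` = the integer part of `H / R ^ C1`. For `t0 < H`, `s < H'`, `j < m`: `P j (t0 + q s) - P j t0` is a multiple of
`q`, hence `= q_j k` with `|k| ≤ |P j (t0 + q s) - P j t0| ≤ d^2 2^d R H ^ (d j - 1) q H'` (`poly_diff`), so `‖f j (x + P j (t0 + q s)) - f j (x + P j t0)‖ ≤ R ^ c |k| / H ^ d j ≤ 1 / (8 m R)` (for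
`k < 0` use the hypothesis at the other point). Shift-average over `s` (`norm_tv_shift`, `2 q H' / H ≤ 1 / (8 R)`): `1 / (2 R) ≤ ‖tv_(t0 < H) av_x f0 x ∏_(j < m) f j (x + P j t0) tv_(s < H') fm (x + Pm (t0 + q s))‖`, so
some `t0` has `1 / (2 R) ≤ avr_x ‖tv H' (fun s => fm (x + Pm (t0 + q s)))‖`, and by Cauchy-Schwarz and Parseval `1 / (4 R ^ 2) ≤ ∑_ξ ‖ft fm ξ‖ ^ 2 ‖tv H' (fun s => chi ξ (Pm (t0 + q s)))‖ ^ 2`. The `ξ` whose
last factor is `< 1 / (8 R ^ 2)` contribute at most `1 / (8 R ^ 2)`. For the others `weyl_mod D` (polynomial `Pm.comp (C t0 + C q * X)`, coefficient of index `D`: `a q ^ D`, `a = Pm.coeff D ≠ 0`,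
`|a| ≤ R`; `R1 = R ^ C2`): `q' ≤ R1 ^ C`, `nrm (q' |a| q ^ D (ξ / M)) ≤ R1 ^ C / H' ^ D ≤ R ^ C3 / H ^ D`; with `q~ = q' |a| q ^ D ≤ R ^ C3` there are at most `R ^ C3 · 3 R ^ C3 R` such `ξ` (`card_major` for each `q~`;
`q~ < M`). So one `ξ` has `‖ft fm ξ‖ ^ 2 ≥ R ^ (-C4)`, with some `q~`. `Star` with the difference `q~`: for `J R ^ C ≤ H ^ D`: `avr_x ‖tv J (fun i => fm (x + q~ i))‖ ≥ |av_x chi (-ξ) x tv_i fm (x + q~ i)| =
‖ft fm ξ‖ ‖tv J (fun i => chi ξ (q~ i))‖` (`ft_shift`) and `‖chi ξ (q~ i) - 1‖ ≤ 7 J nrm (q~ ξ / M) ≤ 1 / 2`.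
-/

set_option autoImplicit false

open Finset Polynomial

namespace Pool.Agent.NLG

open Pool.Agent.HLT Pool.Agent.NLT

namespace CaCAux

theorem prod_diff {ι : Type} (s : Finset ι) (a b : ι → ℂ) (ha : ∀ i ∈ s, ‖a i‖ ≤ 1)
    (hb : ∀ i ∈ s, ‖b i‖ ≤ 1) : ‖∏ i ∈ s, a i - ∏ i ∈ s, b i‖ ≤ ∑ i ∈ s, ‖a i - b i‖ := by
  classical
  induction s using Finset.induction_on with
  | empty => simp
  | insert i s hi ih =>
    rw [Finset.prod_insert hi, Finset.prod_insert hi, Finset.sum_insert hi]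
    have h1 := ih (fun j hj => ha j (Finset.mem_insert_of_mem hj))
      (fun j hj => hb j (Finset.mem_insert_of_mem hj))
    have h2 : a i * ∏ i ∈ s, a i - b i * ∏ i ∈ s, b i =
        a i * (∏ i ∈ s, a i - ∏ i ∈ s, b i) + (a i - b i) * ∏ i ∈ s, b i := by ring
    rw [h2]
    have h3 : ‖∏ i ∈ s, b i‖ ≤ 1 := by
      rw [norm_prod]
      exact Finset.prod_le_one (fun _ _ => norm_nonneg _)
        fun j hj => hb j (Finset.mem_insert_of_mem hj)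
    calc _ ≤ ‖a i * (∏ i ∈ s, a i - ∏ i ∈ s, b i)‖ + ‖(a i - b i) * ∏ i ∈ s, b i‖ :=
        norm_add_le _ _
      _ ≤ 1 * (∑ i ∈ s, ‖a i - b i‖) + ‖a i - b i‖ * 1 := by
        rw [norm_mul, norm_mul]
        exact add_le_add
          (mul_le_mul (ha i (Finset.mem_insert_self _ _)) h1 (norm_nonneg _) zero_le_one)
          (mul_le_mul_of_nonneg_left h3 (norm_nonneg _))
      _ = _ := by ring

theorem smooth_one {M : ℕ} [NeZero M] (d c R H q0 q : ℕ) (P : ℤ[X]) (f : ZMod M → ℂ)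
    (hd : P.natDegree = d) (hd1 : 1 ≤ d) (hH : 1 ≤ H)
    (hP : ∀ i, 1 ≤ i → (P.coeff i).natAbs * H ^ i ≤ R * H ^ d)
    (hq0 : 1 ≤ q0) (hqq : q0 ∣ q)
    (hf : ∀ (x : ZMod M) (i : ℕ), ‖f (x + ((q0 * i : ℕ) : ZMod M)) - f x‖ ≤
      (R : ℝ) ^ c * i / (H : ℝ) ^ d)
    (t s : ℕ) (ht : t ≤ H) (hs : q * s ≤ H) (x : ZMod M) :
    ‖f (x + ((P.eval ((t + q * s : ℕ) : ℤ) : ℤ) : ZMod M)) -
      f (x + ((P.eval (t : ℤ) : ℤ) : ZMod M))‖ ≤
      (R : ℝ) ^ c * ((d ^ 2 * 2 ^ d * R * (q * s) : ℕ) : ℝ) / H := by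
  have hHr : (0 : ℝ) < H := by exact_mod_cast hH
  have h1 := poly_diff P d R H hd hd1 hH hP (t + q * s) t (by omega) (by omega)
  have h2 : ((t + q * s : ℕ) : ℤ) - (t : ℤ) = ((q * s : ℕ) : ℤ) := by
    push_cast
    ring
  rw [h2] at h1
  have h3 : (q0 : ℤ) ∣ P.eval ((t + q * s : ℕ) : ℤ) - P.eval (t : ℤ) := by
    have h4 := Polynomial.sub_dvd_eval_sub ((t + q * s : ℕ) : ℤ) (t : ℤ) P
    rw [h2] at h4
    refine dvd_trans ?_ h4
    exact_mod_cast (hqq.mul_right s)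
  obtain ⟨k, hk⟩ := h3
  have hkn : (k.natAbs : ℝ) ≤ ((d ^ 2 * 2 ^ d * R * H ^ (d - 1) * (q * s) : ℕ) : ℝ) := by
    have h5 : (k.natAbs : ℤ) ≤ ((d ^ 2 * 2 ^ d * R * H ^ (d - 1) * (q * s) : ℕ) : ℤ) := by
      rw [Int.natCast_natAbs]
      have h6 : |k| ≤ |P.eval ((t + q * s : ℕ) : ℤ) - P.eval (t : ℤ)| := by
        rw [hk, abs_mul]
        have h7 : (1 : ℤ) ≤ |(q0 : ℤ)| := by
          rw [abs_of_nonneg (by positivity)]
          exact_mod_cast hq0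
        nlinarith [abs_nonneg k]
      refine (h6.trans h1).trans (le_of_eq ?_)
      rw [abs_of_nonneg (by positivity : (0 : ℤ) ≤ ((q * s : ℕ) : ℤ))]
      push_cast
      ring
    exact_mod_cast h5
  have hfin : (R : ℝ) ^ c * (k.natAbs : ℝ) / (H : ℝ) ^ d ≤
      (R : ℝ) ^ c * ((d ^ 2 * 2 ^ d * R * (q * s) : ℕ) : ℝ) / H := by
    rw [div_le_div_iff₀ (by positivity) hHr]
    have h8 : (H : ℝ) ^ d = (H : ℝ) ^ (d - 1) * H := by
      rw [← pow_succ, Nat.sub_add_cancel hd1]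
    rw [h8]
    have h9 : ((d ^ 2 * 2 ^ d * R * H ^ (d - 1) * (q * s) : ℕ) : ℝ) =
        ((d ^ 2 * 2 ^ d * R * (q * s) : ℕ) : ℝ) * (H : ℝ) ^ (d - 1) := by
      push_cast
      ring
    rw [h9] at hkn
    have h10 : (0 : ℝ) ≤ (R : ℝ) ^ c * H := by positivity
    calc (R : ℝ) ^ c * (k.natAbs : ℝ) * H = ((R : ℝ) ^ c * H) * (k.natAbs : ℝ) := by ring
      _ ≤ ((R : ℝ) ^ c * H) * (((d ^ 2 * 2 ^ d * R * (q * s) : ℕ) : ℝ) * (H : ℝ) ^ (d - 1)) :=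
        mul_le_mul_of_nonneg_left hkn h10
      _ = _ := by ring
  refine le_trans ?_ hfin
  rcases Int.natAbs_eq k with h | h
  · have e : ((P.eval ((t + q * s : ℕ) : ℤ) : ℤ) : ZMod M) =
        ((P.eval (t : ℤ) : ℤ) : ZMod M) + ((q0 * k.natAbs : ℕ) : ZMod M) := by
      have e1 : P.eval ((t + q * s : ℕ) : ℤ) = P.eval (t : ℤ) + ((q0 * k.natAbs : ℕ) : ℤ) := by
        rw [Nat.cast_mul, ← h]
        linarith
      rw [e1, Int.cast_add, Int.cast_natCast]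
    rw [e, ← add_assoc]
    exact hf _ _
  · have e : ((P.eval (t : ℤ) : ℤ) : ZMod M) =
        ((P.eval ((t + q * s : ℕ) : ℤ) : ℤ) : ZMod M) + ((q0 * k.natAbs : ℕ) : ZMod M) := by
      have e1 : P.eval (t : ℤ) = P.eval ((t + q * s : ℕ) : ℤ) + ((q0 * k.natAbs : ℕ) : ℤ) := by
        have e2 : ((k.natAbs : ℕ) : ℤ) = -k := by omega
        rw [Nat.cast_mul, e2]
        linarith
      rw [e1, Int.cast_add, Int.cast_natCast]
    rw [norm_sub_rev, e, ← add_assoc]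
    exact hf _ _

section

variable {M m : ℕ} [NeZero M]

/-- the lower part -/
noncomputable def lo (P : Fin (m + 1) → ℤ[X]) (f0 : ZMod M → ℂ)
    (f : Fin (m + 1) → ZMod M → ℂ) (t : ℕ) (x : ZMod M) : ℂ :=
  f0 x * ∏ j : Fin m, f j.castSucc (x + (((P j.castSucc).eval (t : ℤ) : ℤ) : ZMod M))

theorem lo_le {P : Fin (m + 1) → ℤ[X]} {f0 : ZMod M → ℂ}
    {f : Fin (m + 1) → ZMod M → ℂ} (hf0 : Bd f0) (hf : ∀ j, Bd (f j))
    (t : ℕ) (x : ZMod M) : ‖lo P f0 f t x‖ ≤ 1 := by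
  unfold lo
  rw [norm_mul, norm_prod]
  refine mul_le_one₀ (hf0 x) (Finset.prod_nonneg fun _ _ => norm_nonneg _) ?_
  exact Finset.prod_le_one (fun _ _ => norm_nonneg _) fun j _ => hf _ _

theorem lo_diff {P : Fin (m + 1) → ℤ[X]} {f0 : ZMod M → ℂ}
    {f : Fin (m + 1) → ZMod M → ℂ} (hf0 : Bd f0) (hf : ∀ j, Bd (f j))
    (t t' : ℕ) (x : ZMod M) (ε : ℝ)
    (h : ∀ j : Fin m, ‖f j.castSucc (x + (((P j.castSucc).eval (t : ℤ) : ℤ) : ZMod M)) -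
      f j.castSucc (x + (((P j.castSucc).eval (t' : ℤ) : ℤ) : ZMod M))‖ ≤ ε) :
    ‖lo P f0 f t x - lo P f0 f t' x‖ ≤ m * ε := by
  unfold lo
  rw [← mul_sub, norm_mul]
  have h1 := prod_diff (univ : Finset (Fin m))
    (fun j => f j.castSucc (x + (((P j.castSucc).eval (t : ℤ) : ℤ) : ZMod M)))
    (fun j => f j.castSucc (x + (((P j.castSucc).eval (t' : ℤ) : ℤ) : ZMod M)))
    (fun j _ => hf _ _) (fun j _ => hf _ _)
  have h2 : ∑ j : Fin m, ‖f j.castSucc (x + (((P j.castSucc).eval (t : ℤ) : ℤ) : ZMod M)) -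
      f j.castSucc (x + (((P j.castSucc).eval (t' : ℤ) : ℤ) : ZMod M))‖ ≤ m * ε := by
    refine (Finset.sum_le_sum fun j _ => h j).trans (le_of_eq ?_)
    rw [Finset.sum_const, Finset.card_univ, Fintype.card_fin, nsmul_eq_mul]
  calc _ ≤ 1 * ‖_‖ := mul_le_mul_of_nonneg_right (hf0 x) (norm_nonneg _)
    _ ≤ _ := by
      rw [one_mul]
      exact h1.trans h2

theorem TP_eq (H : ℕ) (P : Fin (m + 1) → ℤ[X]) (f0 : ZMod M → ℂ)
    (f : Fin (m + 1) → ZMod M → ℂ) :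
    TP H (fun _ => 1) P f0 f = tv H (fun t => av (fun x => lo P f0 f t x *
      f (Fin.last m) (x + (((P (Fin.last m)).eval (t : ℤ) : ℤ) : ZMod M)))) := by
  unfold TP
  congr 1
  funext t
  rw [one_mul]
  congr 1
  funext x
  rw [Fin.prod_univ_castSucc]
  unfold lo
  ring

theorem ft_tv (K : ℕ) (f : ZMod M → ℂ) (v : ℕ → ZMod M) (ξ : ZMod M) :
    ft (fun x => tv K (fun s => f (x + v s))) ξ = ft f ξ * tv K (fun s => chi ξ (v s)) := by
  have h1 : ft (fun x => tv K (fun s => f (x + v s))) ξ =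
      tv K (fun s => ft (fun x => f (x + v s)) ξ) := by
    unfold ft
    rw [tv_av_comm]
    congr 1
    funext x
    rw [mul_comm, ← tv_mul_left]
    congr 1
    funext s
    ring
  rw [h1, ← tv_mul_left]
  congr 1
  funext s
  rw [ft_shift]
  ring

theorem shift_avg (H K q : ℕ) (hH : 1 ≤ H) (hK : 1 ≤ K) (P : Fin (m + 1) → ℤ[X])
    (f0 : ZMod M → ℂ) (hf0 : Bd f0)
    (f : Fin (m + 1) → ZMod M → ℂ) (hf : ∀ j, Bd (f j)) (ε1 ε2 : ℝ) (hε1 : 0 ≤ ε1) (hε2 : 0 ≤ ε2)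
    (h1 : ∀ t < H, ∀ s < K, ∀ x, ‖lo P f0 f (t + q * s) x - lo P f0 f t x‖ ≤ ε1)
    (h2 : 2 * ((q * K : ℕ) : ℝ) / H ≤ ε2) :
    ∃ t0 < H, ‖TP H (fun _ => 1) P f0 f‖ ≤ ε1 + ε2 + avr (fun x => ‖tv K (fun s =>
      f (Fin.last m) (x + (((P (Fin.last m)).eval ((t0 + q * s : ℕ) : ℤ) : ℤ) : ZMod M)))‖) := by
  obtain ⟨Φ, hΦ⟩ : ∃ Φ : ℕ → ℂ, Φ = fun t => av (fun x => lo P f0 f t x *
      f (Fin.last m) (x + (((P (Fin.last m)).eval (t : ℤ) : ℤ) : ZMod M))) := ⟨_, rfl⟩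
  obtain ⟨Ψ, hΨ⟩ : ∃ Ψ : ℕ → ℕ → ℂ, Ψ = fun t s => av (fun x => lo P f0 f t x *
      f (Fin.last m) (x + (((P (Fin.last m)).eval ((t + q * s : ℕ) : ℤ) : ℤ) : ZMod M))) := ⟨_, rfl⟩
  have hΦ1 : ∀ t, ‖Φ t‖ ≤ 1 := by
    intro t
    rw [hΦ]
    refine norm_av_le_one fun x => ?_
    rw [norm_mul]
    exact mul_le_one₀ (lo_le hf0 hf _ _) (norm_nonneg _) (hf _ _)
  have hHr : (0 : ℝ) < H := by exact_mod_cast hH
  have e0 : TP H (fun _ => 1) P f0 f = tv H Φ := by rw [TP_eq, hΦ]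
  -- shift
  have e1 : ‖tv K (fun s => tv H (fun t => Φ (t + q * s))) - tv H Φ‖ ≤ ε2 := by
    have h3 : tv H Φ = tv K (fun _ => tv H Φ) := (tv_const K hK _).symm
    rw [h3, ← tv_sub]
    refine (norm_tv_le K _).trans (tvr_le K hε2 fun s hs => ?_)
    refine (norm_tv_shift H (q * s) Φ hΦ1).trans (le_trans ?_ h2)
    refine div_le_div_of_nonneg_right ?_ hHr.le
    refine mul_le_mul_of_nonneg_left ?_ (by norm_num)
    have h4 : q * s ≤ q * K := Nat.mul_le_mul_left q hs.le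
    exact_mod_cast h4
  have e2 : ‖tv K (fun s => tv H (fun t => Φ (t + q * s))) -
      tv K (fun s => tv H (fun t => Ψ t s))‖ ≤ ε1 := by
    rw [← tv_sub]
    refine (norm_tv_le K _).trans (tvr_le K hε1 fun s hs => ?_)
    rw [← tv_sub]
    refine (norm_tv_le H _).trans (tvr_le H hε1 fun t ht => ?_)
    rw [hΦ, hΨ]
    dsimp only
    rw [← av_sub]
    refine (norm_av_le _).trans (avr_le fun x => ?_)
    rw [← sub_mul, norm_mul]
    calc _ ≤ ε1 * 1 := mul_le_mul (h1 t ht s hs x) (hf _ _) (norm_nonneg _) hε1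
      _ = ε1 := mul_one _
  have e3 : tv K (fun s => tv H (fun t => Ψ t s)) = tv H (fun t => tv K (fun s => Ψ t s)) :=
    tv_comm K H (fun s t => Ψ t s)
  obtain ⟨t0, ht0, hmax⟩ := Finset.exists_max_image (range H)
    (fun t => ‖tv K (fun s => Ψ t s)‖) ⟨0, Finset.mem_range.mpr (by omega)⟩
  refine ⟨t0, Finset.mem_range.mp ht0, ?_⟩
  have e4 : ‖tv K (fun s => tv H (fun t => Ψ t s))‖ ≤ ‖tv K (fun s => Ψ t0 s)‖ := by
    rw [e3]
    exact (norm_tv_le H _).trans (tvr_le H (norm_nonneg _) fun t ht =>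
      hmax t (Finset.mem_range.mpr ht))
  have e5 : ‖tv K (fun s => Ψ t0 s)‖ ≤ avr (fun x => ‖tv K (fun s =>
      f (Fin.last m) (x + (((P (Fin.last m)).eval ((t0 + q * s : ℕ) : ℤ) : ℤ) : ZMod M)))‖) := by
    rw [hΨ]
    dsimp only
    rw [tv_av_comm]
    refine (norm_av_le _).trans (avr_mono fun x => ?_)
    rw [tv_mul_left, norm_mul]
    calc _ ≤ 1 * ‖_‖ := mul_le_mul_of_nonneg_right (lo_le hf0 hf t0 x) (norm_nonneg _)
      _ = _ := one_mul _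
  rw [e0]
  have e6 : tv H Φ = (tv K (fun s => tv H (fun t => Φ (t + q * s))) -
      tv K (fun s => tv H (fun t => Ψ t s))) -
      (tv K (fun s => tv H (fun t => Φ (t + q * s))) - tv H Φ) +
      tv K (fun s => tv H (fun t => Ψ t s)) := by ring
  rw [e6]
  refine (norm_add_le _ _).trans ?_
  have e7 := norm_sub_le (tv K (fun s => tv H (fun t => Φ (t + q * s))) -
      tv K (fun s => tv H (fun t => Ψ t s))) (tv K (fun s => tv H (fun t => Φ (t + q * s))) - tv H Φ)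
  linarith

theorem four_mass (K : ℕ) (f : ZMod M → ℂ) (hf : Bd f) (v : ℕ → ZMod M) (δ η : ℝ) (hδ : 0 ≤ δ)
    (h : δ ≤ avr (fun x => ‖tv K (fun s => f (x + v s))‖)) (S : Finset (ZMod M))
    (hη : 0 ≤ η)
    (hS : ∀ ξ, η ≤ ‖tv K (fun s => chi ξ (v s))‖ → ξ ∈ S) :
    δ ^ 2 - η ≤ ∑ ξ ∈ S, ‖ft f ξ‖ ^ 2 := by
  classical
  have h1 : δ ^ 2 ≤ avr (fun x => ‖tv K (fun s => f (x + v s))‖ ^ 2) :=
    (pow_le_pow_left₀ hδ h 2).trans (avr_sq_le _)
  rw [← parseval (fun x => tv K (fun s => f (x + v s)))] at h1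
  have h2 : ∀ ξ : ZMod M, ‖ft (fun x => tv K (fun s => f (x + v s))) ξ‖ ^ 2 ≤
      (if ξ ∈ S then ‖ft f ξ‖ ^ 2 else 0) + η * ‖ft f ξ‖ ^ 2 := by
    intro ξ
    rw [ft_tv, norm_mul, mul_pow]
    have hw1 : ‖tv K (fun s => chi ξ (v s))‖ ≤ 1 := norm_tv_le_one K _ fun s => (norm_chi _ _).le
    have hw0 : 0 ≤ ‖tv K (fun s => chi ξ (v s))‖ := norm_nonneg _
    have ha : 0 ≤ ‖ft f ξ‖ ^ 2 := by positivity
    by_cases hξ : ξ ∈ S
    · rw [if_pos hξ]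
      have h3 : ‖tv K (fun s => chi ξ (v s))‖ ^ 2 ≤ 1 := pow_le_one₀ hw0 hw1
      nlinarith [mul_nonneg hη ha]
    · rw [if_neg hξ, zero_add]
      have h4 : ‖tv K (fun s => chi ξ (v s))‖ < η := by
        by_contra hcon
        exact hξ (hS ξ (not_lt.mp hcon))
      have h5 : ‖tv K (fun s => chi ξ (v s))‖ ^ 2 ≤ η := by nlinarith
      nlinarith
  have h3 := h1.trans (Finset.sum_le_sum fun ξ _ => h2 ξ)
  rw [Finset.sum_add_distrib, ← Finset.mul_sum, Finset.sum_ite_mem, Finset.univ_inter] at h3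
  have h4 := sum_ft_sq_le_one hf
  nlinarith

theorem pigeon {α : Type} (S : Finset α) (a : α → ℝ) (δ B : ℝ) (hδ : 0 < δ)
    (hB : (S.card : ℝ) ≤ B) (hB0 : 0 < B) (h : δ ≤ ∑ ξ ∈ S, a ξ) : ∃ ξ ∈ S, δ / B ≤ a ξ := by
  by_contra hcon
  push Not at hcon
  have h1 : ∑ ξ ∈ S, a ξ ≤ ∑ _ξ ∈ S, δ / B := Finset.sum_le_sum fun ξ hξ => (hcon ξ hξ).le
  rcases S.eq_empty_or_nonempty with h2 | h2
  · rw [h2, Finset.sum_empty] at h
    linarith
  · have h3 : ∑ ξ ∈ S, a ξ < ∑ _ξ ∈ S, δ / B := Finset.sum_lt_sum_of_nonempty h2 hcon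
    rw [Finset.sum_const, nsmul_eq_mul] at h3
    have h4 : (S.card : ℝ) * (δ / B) ≤ B * (δ / B) :=
      mul_le_mul_of_nonneg_right hB (by positivity)
    have h5 : B * (δ / B) = δ := by field_simp
    linarith

theorem star_fin (J q : ℕ) (hJ : 1 ≤ J) (f : ZMod M → ℂ) (ξ : ZMod M)
    (h : 7 * (J : ℝ) * nrm ((q : ℝ) * ((ξ.val : ℝ) / M)) ≤ 1 / 2) :
    ‖ft f ξ‖ / 2 ≤ avr (fun x => ‖tv J (fun i => f (x + ((q * i : ℕ) : ZMod M)))‖) := by
  have h1 : ‖ft (fun x => tv J (fun i => f (x + ((q * i : ℕ) : ZMod M)))) ξ‖ ≤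
      avr (fun x => ‖tv J (fun i => f (x + ((q * i : ℕ) : ZMod M)))‖) := by
    unfold ft
    refine (norm_av_le _).trans (avr_mono fun x => ?_)
    rw [norm_mul, norm_chi, mul_one]
  refine le_trans ?_ h1
  rw [ft_tv J f (fun i => ((q * i : ℕ) : ZMod M)) ξ, norm_mul]
  have h2 : ‖tv J (fun i => chi ξ ((q * i : ℕ) : ZMod M)) - 1‖ ≤ 1 / 2 := by
    have h3 : (1 : ℂ) = tv J (fun _ => 1) := (tv_const J hJ 1).symm
    rw [h3, ← tv_sub]
    refine (norm_tv_le J _).trans (tvr_le J (by norm_num) fun i hi => ?_)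
    have h4 := norm_chi_sub_one_le ξ ((q * i : ℕ) : ℤ)
    rw [Int.cast_natCast] at h4
    refine h4.trans (le_trans ?_ h)
    have h5 := nrm_int_mul_le (i : ℤ) ((q : ℝ) * ((ξ.val : ℝ) / M))
    have h6 : ((((q * i : ℕ) : ℤ) : ℝ)) * ((ξ.val : ℝ) / M) =
        ((i : ℤ) : ℝ) * ((q : ℝ) * ((ξ.val : ℝ) / M)) := by
      push_cast
      ring
    rw [h6]
    have h7 : |((i : ℤ) : ℝ)| ≤ J := by
      rw [Int.cast_natCast, abs_of_nonneg (by positivity)]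
      exact_mod_cast hi.le
    have h8 := nrm_nonneg ((q : ℝ) * ((ξ.val : ℝ) / M))
    calc 7 * nrm (((i : ℤ) : ℝ) * ((q : ℝ) * ((ξ.val : ℝ) / M)))
        ≤ 7 * (J * nrm ((q : ℝ) * ((ξ.val : ℝ) / M))) :=
          mul_le_mul_of_nonneg_left (h5.trans (mul_le_mul_of_nonneg_right h7 h8)) (by norm_num)
      _ = _ := by ring
  have h3 : 1 / 2 ≤ ‖tv J (fun i => chi ξ ((q * i : ℕ) : ZMod M))‖ := by
    have h4 := norm_sub_norm_le (1 : ℂ) (1 - tv J (fun i => chi ξ ((q * i : ℕ) : ZMod M)))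
    rw [sub_sub_cancel, norm_one, norm_sub_rev] at h4
    linarith
  have h4 : 0 ≤ ‖ft f ξ‖ := norm_nonneg _
  nlinarith

end

theorem card_major' (M q B H D : ℕ) [Fact M.Prime] (hq : 1 ≤ q) (hqM : q < M) (R : ℕ)
    (hM : M ≤ R * H ^ D) (hH : 1 ≤ H) (hR : 1 ≤ R) (hB : 1 ≤ B) :
    ((univ : Finset (ZMod M)).filter
      (fun ξ => nrm ((q : ℝ) * ((ξ.val : ℝ) / M)) ≤ (B : ℝ) / (H : ℝ) ^ D)).card ≤
      3 * (B * R) := by
  classical
  have hMp : 0 < M := (Fact.out : M.Prime).pos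
  have hMr : (0 : ℝ) < M := by exact_mod_cast hMp
  have hHr : (0 : ℝ) < H := by exact_mod_cast hH
  have hMR : (M : ℝ) ≤ R * (H : ℝ) ^ D := by exact_mod_cast hM
  obtain ⟨J, hJ⟩ : ∃ J : Finset (ZMod M), J = (Finset.Icc (-((B * R : ℕ) : ℤ)) ((B * R : ℕ) : ℤ)).image
      (fun j : ℤ => (j : ZMod M)) := ⟨_, rfl⟩
  have hJc : J.card ≤ 3 * (B * R) := by
    have h1 : J.card ≤ (Finset.Icc (-((B * R : ℕ) : ℤ)) ((B * R : ℕ) : ℤ)).card := by
      rw [hJ]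
      exact Finset.card_image_le
    rw [Int.card_Icc] at h1
    have h2 : 1 ≤ B * R := Nat.mul_pos hB hR
    omega
  have hq0 : ((q : ℕ) : ZMod M) ≠ 0 := by
    intro h
    rw [ZMod.natCast_eq_zero_iff] at h
    have := Nat.le_of_dvd (by omega) h
    omega
  have hcard : ((univ : Finset (ZMod M)).filter
      (fun ξ => nrm ((q : ℝ) * ((ξ.val : ℝ) / M)) ≤ (B : ℝ) / (H : ℝ) ^ D)).card ≤ J.card := by
    refine Finset.card_le_card_of_injOn (fun ξ => ((q : ℕ) : ZMod M) * ξ) ?_ ?_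
    · intro ξ hξ
      have hn := (Finset.mem_filter.1 hξ).2
      show ((q : ℕ) : ZMod M) * ξ ∈ J
      rw [hJ, Finset.mem_image]
      refine ⟨((q * ξ.val : ℕ) : ℤ) - round ((q : ℝ) * ((ξ.val : ℝ) / M)) * (M : ℤ), ?_, ?_⟩
      · rw [Finset.mem_Icc, ← abs_le]
        have h3 : |(((q * ξ.val : ℕ) : ℝ)) - (round ((q : ℝ) * ((ξ.val : ℝ) / M)) : ℝ) * (M : ℝ)| ≤
            ((B * R : ℕ) : ℝ) := by
          have e : (((q * ξ.val : ℕ) : ℝ)) - (round ((q : ℝ) * ((ξ.val : ℝ) / M)) : ℝ) * (M : ℝ) =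
              ((q : ℝ) * ((ξ.val : ℝ) / M) - (round ((q : ℝ) * ((ξ.val : ℝ) / M)) : ℝ)) * (M : ℝ) := by
            push_cast
            field_simp
          rw [e, abs_mul, abs_of_pos hMr]
          have hn' : |(q : ℝ) * ((ξ.val : ℝ) / M) - (round ((q : ℝ) * ((ξ.val : ℝ) / M)) : ℝ)| ≤
              (B : ℝ) / (H : ℝ) ^ D := hn
          calc _ ≤ (B : ℝ) / (H : ℝ) ^ D * M := mul_le_mul_of_nonneg_right hn' hMr.le
            _ ≤ (B : ℝ) / (H : ℝ) ^ D * (R * (H : ℝ) ^ D) := mul_le_mul_of_nonneg_left hMR (by positivity)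
            _ = ((B * R : ℕ) : ℝ) := by
              push_cast
              field_simp
        exact_mod_cast h3
      · push_cast
        rw [ZMod.natCast_self, mul_zero, sub_zero, ZMod.natCast_zmod_val]
    · intro a _ b _ hab
      exact mul_left_cancel₀ hq0 hab
  exact hcard.trans hJc

/-- major arcs -/
noncomputable def MA (M : ℕ) [NeZero M] (B H D : ℕ) : Finset (ZMod M) := by
  classical
  exact univ.filter (fun ξ => ∃ q ∈ Finset.Icc 1 B,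
    nrm ((q : ℝ) * ((ξ.val : ℝ) / M)) ≤ (B : ℝ) / (H : ℝ) ^ D)

theorem mem_MA {M : ℕ} [NeZero M] {B H D : ℕ} {ξ : ZMod M} : ξ ∈ MA M B H D ↔
    ∃ q : ℕ, 1 ≤ q ∧ q ≤ B ∧ nrm ((q : ℝ) * ((ξ.val : ℝ) / M)) ≤ (B : ℝ) / (H : ℝ) ^ D := by
  unfold MA
  simp only [Finset.mem_filter, Finset.mem_univ, true_and, Finset.mem_Icc]
  constructor
  · rintro ⟨q, hq, h⟩
    exact ⟨q, hq.1, hq.2, h⟩
  · rintro ⟨q, h1, h2, h⟩
    exact ⟨q, ⟨h1, h2⟩, h⟩

theorem card_MA (M B H D : ℕ) [Fact M.Prime] (hBM : B < M) (R : ℕ)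
    (hM : M ≤ R * H ^ D) (hH : 1 ≤ H) (hR : 1 ≤ R) (hB : 1 ≤ B) :
    (MA M B H D).card ≤ 3 * (B * (B * R)) := by
  classical
  have h1 : MA M B H D ⊆ (Finset.Icc 1 B).biUnion (fun q => (univ : Finset (ZMod M)).filter
      (fun ξ => nrm ((q : ℝ) * ((ξ.val : ℝ) / M)) ≤ (B : ℝ) / (H : ℝ) ^ D)) := by
    intro ξ hξ
    rw [mem_MA] at hξ
    obtain ⟨q, h1, h2, h⟩ := hξ
    rw [Finset.mem_biUnion]
    exact ⟨q, Finset.mem_Icc.mpr ⟨h1, h2⟩, Finset.mem_filter.mpr ⟨Finset.mem_univ _, h⟩⟩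
  refine (Finset.card_le_card h1).trans (Finset.card_biUnion_le.trans ?_)
  calc _ ≤ ∑ _q ∈ Finset.Icc 1 B, 3 * (B * R) := by
        refine Finset.sum_le_sum fun q hq => ?_
        rw [Finset.mem_Icc] at hq
        exact card_major' M q B H D hq.1 (by omega) R hM hH hR hB
    _ = _ := by
      rw [Finset.sum_const, Nat.card_Icc, smul_eq_mul, Nat.add_sub_cancel]
      ring

theorem coeff_comp_lin (P : ℤ[X]) (D : ℕ) (hP : P.natDegree = D) (b q : ℕ) (hq : 1 ≤ q) :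
    (P.comp (C (q : ℤ) * X + C (b : ℤ))).coeff D = P.coeff D * (q : ℤ) ^ D ∧
    (P.comp (C (q : ℤ) * X + C (b : ℤ))).natDegree ≤ D := by
  have hq0 : (q : ℤ) ≠ 0 := by
    intro h
    have : q = 0 := by exact_mod_cast h
    omega
  have h1 : (C (q : ℤ) * X + C (b : ℤ)).natDegree = 1 := Polynomial.natDegree_linear hq0
  constructor
  · have h2 := Polynomial.coeff_comp_degree_mul_degree (p := P) (q := C (q : ℤ) * X + C (b : ℤ))
      (by rw [h1]; norm_num)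
    rw [h1, mul_one, hP, Polynomial.leadingCoeff_linear hq0] at h2
    rw [h2]
    unfold Polynomial.leadingCoeff
    rw [hP]
  · rw [Polynomial.natDegree_comp, h1, mul_one, hP]

theorem eval_comp_lin (P : ℤ[X]) (b q s : ℕ) :
    (P.comp (C (q : ℤ) * X + C (b : ℤ))).eval (s : ℤ) = P.eval ((b + q * s : ℕ) : ℤ) := by
  rw [Polynomial.eval_comp]
  congr 1
  simp only [Polynomial.eval_add, Polynomial.eval_mul, Polynomial.eval_C, Polynomial.eval_X]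
  push_cast
  ring

theorem two_pow_le {R a : ℕ} (hR : 2 ≤ R) (n : ℕ) (h : n ≤ a) : n ≤ R ^ a :=
  h.trans ((Nat.lt_two_pow_self).le.trans (Nat.pow_le_pow_left hR a))

end CaCAux

theorem ca3 (m : ℕ) (d : Fin (m + 1) → ℕ) (hd : StrictMono d) (h1 : ∀ j, 1 ≤ d j) (c : ℕ) :
    ∃ C : ℕ, ∀ (M : ℕ) [Fact M.Prime] (H R : ℕ), 2 ≤ R → R ^ C ≤ H → H ^ d (Fin.last m) ≤ M → M ≤ R * H ^ d (Fin.last m) →
    ∀ P : Fin (m + 1) → ℤ[X], Fam (m + 1) d R H P → ∀ f0 : ZMod M → ℂ, Bd f0 →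
    ∀ f : Fin (m + 1) → ZMod M → ℂ, (∀ j, Bd (f j)) →
    (∀ j : Fin m, ∃ q : ℕ, 1 ≤ q ∧ q ≤ R ^ c ∧ ∀ (x : ZMod M) (i : ℕ),
      ‖f j.castSucc (x + ((q * i : ℕ) : ZMod M)) - f j.castSucc x‖ ≤ (R : ℝ) ^ c * i / (H : ℝ) ^ d j.castSucc) →
    1 / (R : ℝ) ≤ ‖TP H (fun _ => 1) P f0 f‖ → Star C R H (d (Fin.last m)) (f (Fin.last m)) := by
  classical
  obtain ⟨D, hD⟩ : ∃ D, D = d (Fin.last m) := ⟨_, rfl⟩
  have hD1 : 1 ≤ D := by rw [hD]; exact h1 _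
  have hdl : ∀ j : Fin m, d j.castSucc ≤ D := fun j => by
    rw [hD]
    exact (hd (Fin.castSucc_lt_last j)).le
  obtain ⟨Cw, hCw⟩ := weyl_mod D hD1
  obtain ⟨N, hN⟩ : ∃ N, N = 8 * (m + 1) * (D ^ 2 * 2 ^ D) := ⟨_, rfl⟩
  obtain ⟨E, hE⟩ : ∃ E, E = c * m := ⟨_, rfl⟩
  obtain ⟨C1, hC1⟩ : ∃ C1, C1 = (c + E + 2) + N := ⟨_, rfl⟩
  obtain ⟨C3, hC3⟩ : ∃ C3, C3 = 5 * Cw + 1 + E * D + (C1 + 1) * D := ⟨_, rfl⟩
  obtain ⟨C4, hC4⟩ : ∃ C4, C4 = 2 * C3 + 8 := ⟨_, rfl⟩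
  obtain ⟨CC, hCC⟩ : ∃ CC, CC = C4 + C1 + 5 * Cw + 10 := ⟨_, rfl⟩
  refine ⟨CC, ?_⟩
  intro M _ H R hR hRH hHM hMR P hP f0 hf0 f hf hsm hTP
  rw [← hD] at hHM hMR ⊢
  have hR1 : 1 ≤ R := by omega
  have hpow : ∀ a, a ≤ CC → R ^ a ≤ H := fun a ha => (Nat.pow_le_pow_right hR1 ha).trans hRH
  have hH1 : 1 ≤ H := (Nat.one_le_pow _ _ (by omega)).trans hRH
  have hHD : 0 < H ^ D := Nat.pow_pos (by omega)
  have hRr : (1 : ℝ) ≤ R := by exact_mod_cast hR1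
  have hRr2 : (2 : ℝ) ≤ R := by exact_mod_cast hR
  have hR0 : (0 : ℝ) < R := by linarith
  have hHr : (0 : ℝ) < H := by exact_mod_cast hH1
  -- the leading coefficient
  obtain ⟨Pm, hPm⟩ : ∃ Pm, Pm = P (Fin.last m) := ⟨_, rfl⟩
  have hdeg : Pm.natDegree = D := by rw [hPm, hP.1, hD]
  have hlead : (Pm.coeff D).natAbs ≤ R := by
    have h := hP.2 (Fin.last m) D hD1
    rw [← hD, ← hPm] at h
    exact Nat.le_of_mul_le_mul_right h hHD
  have hlead0 : Pm.coeff D ≠ 0 := by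
    have h1 : Pm ≠ 0 := by
      intro h
      rw [h, Polynomial.natDegree_zero] at hdeg
      omega
    have h2 := Polynomial.leadingCoeff_ne_zero.mpr h1
    unfold Polynomial.leadingCoeff at h2
    rwa [hdeg] at h2
  -- the common difference
  choose qq hqq1 hqqR hqq using hsm
  obtain ⟨q, hq⟩ : ∃ q, q = ∏ j : Fin m, qq j := ⟨_, rfl⟩
  have hq1 : 1 ≤ q := by
    rw [hq]
    have h2 : 0 < ∏ j : Fin m, qq j := Finset.prod_pos fun j _ => (hqq1 j)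
    exact h2
  have hqd : ∀ j : Fin m, qq j ∣ q := fun j => by
    rw [hq]
    exact Finset.dvd_prod_of_mem _ (Finset.mem_univ j)
  have hqE : q ≤ R ^ E := by
    rw [hq, hE, pow_mul]
    calc ∏ j : Fin m, qq j ≤ ∏ _j : Fin m, R ^ c := Finset.prod_le_prod' fun j _ => hqqR j
      _ = (R ^ c) ^ m := by rw [Finset.prod_const, Finset.card_univ, Fintype.card_fin]
  -- the length
  obtain ⟨K, hK⟩ : ∃ K, K = H / R ^ C1 := ⟨_, rfl⟩
  have hRC1 : 0 < R ^ C1 := Nat.pow_pos (by omega)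
  have hK1 : R ^ (5 * Cw) ≤ K := by
    rw [hK, Nat.le_div_iff_mul_le hRC1, ← pow_add]
    exact hpow _ (by rw [hCC]; omega)
  have hK0 : 1 ≤ K := (Nat.one_le_pow _ _ (by omega)).trans hK1
  have hKH : K * R ^ C1 ≤ H := by
    rw [hK]
    exact Nat.div_mul_le_self H (R ^ C1)
  have hHK : H ≤ 2 * R ^ C1 * K := by
    have h2 : H < R ^ C1 * (K + 1) := by
      rw [hK]
      exact Nat.lt_mul_div_succ H hRC1
    nlinarith
  have hNle : N ≤ R ^ N := CaCAux.two_pow_le hR N le_rfl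
  have hN8 : 8 ≤ N := by
    rw [hN]
    have h2 : 1 ≤ D ^ 2 * 2 ^ D := Nat.mul_pos (Nat.pow_pos (by omega)) (Nat.pow_pos (by omega))
    nlinarith
  have hKHr : (K : ℝ) * (R : ℝ) ^ C1 ≤ H := by exact_mod_cast hKH
  have hKr : (0 : ℝ) < K := by exact_mod_cast hK0
  have hqEr : (q : ℝ) ≤ (R : ℝ) ^ E := by exact_mod_cast hqE
  have hC1r : (R : ℝ) ^ C1 = (R : ℝ) ^ (c + E + 2) * (R : ℝ) ^ N := by rw [hC1, pow_add]
  have hNr : (N : ℝ) ≤ (R : ℝ) ^ N := by exact_mod_cast hNle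
  have hqKle : q * K ≤ H := by
    refine le_trans ?_ hKH
    rw [mul_comm]
    exact Nat.mul_le_mul_left K (hqE.trans (Nat.pow_le_pow_right hR1 (by rw [hC1]; omega)))
  -- smoothness
  have hsm1 : ∀ t < H, ∀ s < K, ∀ x, ‖CaCAux.lo P f0 f (t + q * s) x - CaCAux.lo P f0 f t x‖ ≤
      1 / (8 * R) := by
    intro t ht s hs x
    have hqs : q * s ≤ H := (Nat.mul_le_mul_left q hs.le).trans hqKle
    have h3 := CaCAux.lo_diff (P := P) hf0 hf (t + q * s) t x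
      ((R : ℝ) ^ c * ((D ^ 2 * 2 ^ D * R * (q * K) : ℕ) : ℝ) / H) (fun j => by
        refine (CaCAux.smooth_one (d j.castSucc) c R H (qq j) q (P j.castSucc) (f j.castSucc)
          (hP.1 _) (h1 _) hH1 (hP.2 _) (hqq1 j) (hqd j) (hqq j) t s ht.le hqs x).trans ?_
        refine div_le_div_of_nonneg_right ?_ hHr.le
        refine mul_le_mul_of_nonneg_left ?_ (by positivity)
        have h4 : d j.castSucc ^ 2 * 2 ^ d j.castSucc * R * (q * s) ≤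
            D ^ 2 * 2 ^ D * R * (q * K) := by
          have h5 := hdl j
          gcongr
          · norm_num
        exact_mod_cast h4)
    refine h3.trans ?_
    rw [mul_div_assoc', div_le_div_iff₀ hHr (by positivity)]
    have h6 : (8 : ℝ) * (m + 1) * (D ^ 2 * 2 ^ D) = N := by
      rw [hN]
      push_cast
      ring
    have h7 : (m : ℝ) * (8 * (D ^ 2 * 2 ^ D)) ≤ N := by
      rw [← h6]
      have h8 : (0 : ℝ) ≤ (D : ℝ) ^ 2 * 2 ^ D := by positivity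
      nlinarith
    calc (m : ℝ) * ((R : ℝ) ^ c * ((D ^ 2 * 2 ^ D * R * (q * K) : ℕ) : ℝ)) * (8 * R)
        = ((m : ℝ) * (8 * (D ^ 2 * 2 ^ D))) * ((R : ℝ) ^ (c + 2) * q * K) := by
          push_cast
          ring
      _ ≤ (R : ℝ) ^ N * ((R : ℝ) ^ (c + 2) * (R : ℝ) ^ E * K) := by
          refine mul_le_mul (h7.trans hNr) ?_ (by positivity) (by positivity)
          exact mul_le_mul_of_nonneg_right (mul_le_mul_of_nonneg_left hqEr (by positivity)) hKr.le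
      _ = (K : ℝ) * (R : ℝ) ^ C1 := by
          rw [hC1r]
          ring
      _ ≤ 1 * H := by
          rw [one_mul]
          exact hKHr
  have hsh : 2 * ((q * K : ℕ) : ℝ) / H ≤ 1 / (4 * R) := by
    rw [div_le_div_iff₀ hHr (by positivity)]
    have h8 : (8 : ℝ) ≤ N := by exact_mod_cast hN8
    have h9 : (1 : ℝ) ≤ (R : ℝ) ^ (c + 1) := one_le_pow₀ hRr
    calc 2 * ((q * K : ℕ) : ℝ) * (4 * R) = 8 * (R * q * K) := by
          push_cast
          ring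
      _ ≤ (R : ℝ) ^ N * ((R : ℝ) ^ (c + 1) * (R * (R : ℝ) ^ E * K)) := by
          refine mul_le_mul (h8.trans hNr) ?_ (by positivity) (by positivity)
          have h10 : (R : ℝ) * q * K ≤ R * (R : ℝ) ^ E * K :=
            mul_le_mul_of_nonneg_right (mul_le_mul_of_nonneg_left hqEr hR0.le) hKr.le
          have h11 : (0 : ℝ) ≤ R * (R : ℝ) ^ E * K := by positivity
          nlinarith
      _ = (K : ℝ) * (R : ℝ) ^ C1 := by
          rw [hC1r]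
          ring
      _ ≤ 1 * H := by
          rw [one_mul]
          exact hKHr
  obtain ⟨t0, ht0, h3⟩ := CaCAux.shift_avg H K q hH1 hK0 P f0 hf0 f hf (1 / (8 * R)) (1 / (4 * R))
    (by positivity) (by positivity) hsm1 hsh
  have h4 : 1 / (2 * (R : ℝ)) ≤ avr (fun x => ‖tv K (fun s => f (Fin.last m)
      (x + ((Pm.eval ((t0 + q * s : ℕ) : ℤ) : ℤ) : ZMod M)))‖) := by
    rw [← hPm] at h3
    have h5 := hTP.trans h3
    have h6 : 1 / (R : ℝ) - 1 / (8 * R) - 1 / (4 * R) = 5 / (8 * R) := by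
      field_simp
      norm_num
    have h7 : 1 / (2 * (R : ℝ)) ≤ 5 / (8 * R) := by
      rw [div_le_div_iff₀ (by positivity) (by positivity)]
      nlinarith
    linarith
  -- the major arcs
  obtain ⟨B, hB⟩ : ∃ B, B = R ^ C3 := ⟨_, rfl⟩
  have hB1 : 1 ≤ B := by
    rw [hB]
    exact Nat.one_le_pow _ _ (by omega)
  have hHHD : H ≤ H ^ D := by
    calc H = H ^ 1 := (pow_one H).symm
      _ ≤ H ^ D := Nat.pow_le_pow_right hH1 hD1
  have hBM : B < M := by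
    have h5 : R ^ (C3 + 1) ≤ H := hpow _ (by rw [hCC, hC4]; omega)
    have h6 : R ^ C3 < R ^ (C3 + 1) := Nat.pow_lt_pow_right (by omega) (by omega)
    rw [hB]
    omega
  have hmem : ∀ ξ : ZMod M, 1 / (8 * (R : ℝ) ^ 2) ≤ ‖tv K (fun s => chi ξ
      ((Pm.eval ((t0 + q * s : ℕ) : ℤ) : ℤ) : ZMod M))‖ → ξ ∈ CaCAux.MA M B H D := by
    intro ξ hξ
    obtain ⟨hc1, hc2⟩ := CaCAux.coeff_comp_lin Pm D hdeg t0 q hq1
    have h5 := hCw M K (R ^ 5) (Pm.comp (C (q : ℤ) * X + C (t0 : ℤ))) ξ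
      (hR.trans (by
        calc R = R ^ 1 := (pow_one R).symm
          _ ≤ R ^ 5 := Nat.pow_le_pow_right hR1 (by norm_num))) (by
        rw [← pow_mul]
        exact hK1) hc2 (by
        simp only [CaCAux.eval_comp_lin]
        refine le_trans ?_ hξ
        rw [div_le_div_iff₀ (by positivity) (by positivity)]
        push_cast
        have h6 : (8 : ℝ) ≤ (R : ℝ) ^ 3 := by
          calc (8 : ℝ) = 2 ^ 3 := by norm_num
            _ ≤ (R : ℝ) ^ 3 := pow_le_pow_left₀ (by norm_num) hRr2 3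
        calc 1 * (8 * (R : ℝ) ^ 2) = 8 * (R : ℝ) ^ 2 := one_mul _
          _ ≤ (R : ℝ) ^ 3 * (R : ℝ) ^ 2 := mul_le_mul_of_nonneg_right h6 (by positivity)
          _ = 1 * (R : ℝ) ^ 5 := by ring)
    obtain ⟨q', hq'1, hq'R, hn⟩ := h5
    rw [hc1] at hn
    rw [CaCAux.mem_MA]
    refine ⟨q' * ((Pm.coeff D).natAbs * q ^ D), ?_, ?_, ?_⟩
    · have h6 : 1 ≤ (Pm.coeff D).natAbs := Int.natAbs_pos.mpr hlead0
      exact Nat.mul_pos hq'1 (Nat.mul_pos h6 (Nat.pow_pos hq1))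
    · rw [hB]
      calc q' * ((Pm.coeff D).natAbs * q ^ D) ≤ (R ^ 5) ^ Cw * (R * (R ^ E) ^ D) := by
            gcongr
        _ = R ^ (5 * Cw + 1 + E * D) := by
            rw [← pow_mul, ← pow_mul, pow_add, pow_add, pow_one]
            ring
        _ ≤ R ^ C3 := Nat.pow_le_pow_right hR1 (by rw [hC3]; omega)
    · have h6 : nrm (((q' * ((Pm.coeff D).natAbs * q ^ D) : ℕ) : ℝ) * ((ξ.val : ℝ) / M)) =
          nrm ((q' : ℝ) * (((Pm.coeff D * (q : ℤ) ^ D : ℤ)) : ℝ) * ((ξ.val : ℝ) / M)) := by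
        rcases Int.natAbs_eq (Pm.coeff D) with h7 | h7
        · congr 2
          have h8 : ((Pm.coeff D : ℤ) : ℝ) = (((Pm.coeff D).natAbs : ℕ) : ℝ) := by
            conv_lhs => rw [h7]
            rw [Int.cast_natCast]
          rw [Nat.cast_mul, Nat.cast_mul, Nat.cast_pow, Int.cast_mul, Int.cast_pow,
            Int.cast_natCast, h8]
        · rw [← nrm_ng]
          congr 1
          have h8 : ((Pm.coeff D : ℤ) : ℝ) = -(((Pm.coeff D).natAbs : ℕ) : ℝ) := by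
            conv_lhs => rw [h7]
            rw [Int.cast_neg, Int.cast_natCast]
          rw [Nat.cast_mul, Nat.cast_mul, Nat.cast_pow, Int.cast_mul, Int.cast_pow,
            Int.cast_natCast, h8]
          ring
      rw [h6]
      refine hn.trans ?_
      rw [hB, div_le_div_iff₀ (by positivity) (by positivity)]
      have h9 : (H : ℝ) ^ D ≤ ((R : ℝ) ^ (C1 + 1) * K) ^ D := by
        refine pow_le_pow_left₀ hHr.le ?_ D
        have h10 : (H : ℝ) ≤ 2 * (R : ℝ) ^ C1 * K := by exact_mod_cast hHK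
        refine h10.trans ?_
        rw [pow_succ]
        have h11 : (0 : ℝ) ≤ (R : ℝ) ^ C1 * K := by positivity
        nlinarith
      calc (((R ^ 5 : ℕ) : ℝ)) ^ Cw * (H : ℝ) ^ D
          ≤ (((R ^ 5 : ℕ) : ℝ)) ^ Cw * ((R : ℝ) ^ (C1 + 1) * K) ^ D :=
            mul_le_mul_of_nonneg_left h9 (by positivity)
        _ = (R : ℝ) ^ (5 * Cw + (C1 + 1) * D) * (K : ℝ) ^ D := by
            push_cast
            rw [mul_pow, ← pow_mul, ← pow_mul, pow_add]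
            ring
        _ ≤ ((R ^ C3 : ℕ) : ℝ) * (K : ℝ) ^ D := by
            push_cast
            refine mul_le_mul_of_nonneg_right ?_ (by positivity)
            exact pow_le_pow_right₀ hRr (by rw [hC3]; omega)
  have h5 := CaCAux.four_mass K (f (Fin.last m)) (hf _)
    (fun s => ((Pm.eval ((t0 + q * s : ℕ) : ℤ) : ℤ) : ZMod M)) (1 / (2 * (R : ℝ)))
    (1 / (8 * (R : ℝ) ^ 2)) (by positivity) h4 (CaCAux.MA M B H D) (by positivity) hmem
  have h6 : (1 / (2 * (R : ℝ))) ^ 2 - 1 / (8 * (R : ℝ) ^ 2) = 1 / (8 * (R : ℝ) ^ 2) := by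
    field_simp
    norm_num
  rw [h6] at h5
  have hcard : ((CaCAux.MA M B H D).card : ℝ) ≤ 3 * (B * (B * R)) := by
    exact_mod_cast CaCAux.card_MA M B H D hBM R hMR hH1 hR1 hB1
  have hBr : (0 : ℝ) < B := by exact_mod_cast hB1
  obtain ⟨ξ, hξ, h7⟩ := CaCAux.pigeon (CaCAux.MA M B H D) (fun ξ => ‖ft (f (Fin.last m)) ξ‖ ^ 2)
    (1 / (8 * (R : ℝ) ^ 2)) (3 * (B * (B * R))) (by positivity) hcard (by positivity) h5
  have h8 : 1 / (R : ℝ) ^ C4 ≤ ‖ft (f (Fin.last m)) ξ‖ := by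
    have h9 : ‖ft (f (Fin.last m)) ξ‖ ^ 2 ≤ ‖ft (f (Fin.last m)) ξ‖ := by
      have h10 := norm_ft_le_one (hf (Fin.last m)) ξ
      have h11 : 0 ≤ ‖ft (f (Fin.last m)) ξ‖ := norm_nonneg _
      nlinarith
    refine le_trans ?_ (h7.trans h9)
    rw [div_div, div_le_div_iff₀ (by positivity) (by positivity)]
    rw [hB, hC4]
    push_cast
    have h12 : (24 : ℝ) ≤ (R : ℝ) ^ 5 := by
      calc (24 : ℝ) ≤ 2 ^ 5 := by norm_num
        _ ≤ (R : ℝ) ^ 5 := pow_le_pow_left₀ (by norm_num) hRr2 5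
    calc 1 * (8 * (R : ℝ) ^ 2 * (3 * ((R : ℝ) ^ C3 * ((R : ℝ) ^ C3 * R))))
        = 24 * ((R : ℝ) ^ C3 * (R : ℝ) ^ C3 * (R : ℝ) ^ 3) := by ring
      _ ≤ (R : ℝ) ^ 5 * ((R : ℝ) ^ C3 * (R : ℝ) ^ C3 * (R : ℝ) ^ 3) :=
          mul_le_mul_of_nonneg_right h12 (by positivity)
      _ = 1 * (R : ℝ) ^ (2 * C3 + 8) := by
          rw [pow_add, two_mul, pow_add]
          ring
  rw [CaCAux.mem_MA] at hξ
  obtain ⟨qt, hqt1, hqtB, hn⟩ := hξ
  refine ⟨qt, hqt1, ?_, ?_⟩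
  · refine hqtB.trans ?_
    rw [hB]
    exact Nat.pow_le_pow_right hR1 (by rw [hCC, hC4]; omega)
  · intro J hJ hJH
    have hJHr : (J : ℝ) * (R : ℝ) ^ CC ≤ (H : ℝ) ^ D := by exact_mod_cast hJH
    have hJr : (0 : ℝ) < J := by exact_mod_cast hJ
    have h9 := CaCAux.star_fin J qt hJ (f (Fin.last m)) ξ (by
      have h10 : 7 * (J : ℝ) * nrm ((qt : ℝ) * ((ξ.val : ℝ) / M)) ≤
          7 * (J : ℝ) * ((B : ℝ) / (H : ℝ) ^ D) := mul_le_mul_of_nonneg_left hn (by positivity)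
      refine h10.trans ?_
      rw [mul_div_assoc', div_le_div_iff₀ (by positivity) (by norm_num)]
      have h11 : (14 : ℝ) ≤ (R : ℝ) ^ 4 := by
        calc (14 : ℝ) ≤ 2 ^ 4 := by norm_num
          _ ≤ (R : ℝ) ^ 4 := pow_le_pow_left₀ (by norm_num) hRr2 4
      have h12 : (R : ℝ) ^ 4 * (B : ℝ) ≤ (R : ℝ) ^ CC := by
        rw [hB]
        push_cast
        rw [← pow_add]
        exact pow_le_pow_right₀ hRr (by rw [hCC, hC4]; omega)
      calc 7 * (J : ℝ) * (B : ℝ) * 2 = J * (14 * B) := by ring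
        _ ≤ J * ((R : ℝ) ^ 4 * B) :=
            mul_le_mul_of_nonneg_left (mul_le_mul_of_nonneg_right h11 hBr.le) hJr.le
        _ ≤ J * (R : ℝ) ^ CC := mul_le_mul_of_nonneg_left h12 hJr.le
        _ ≤ 1 * (H : ℝ) ^ D := by
            rw [one_mul]
            exact hJHr)
    refine le_trans ?_ h9
    have h13 : 1 / (R : ℝ) ^ CC ≤ (1 / (R : ℝ) ^ C4) / 2 := by
      rw [div_div, div_le_div_iff₀ (by positivity) (by positivity)]
      calc 1 * ((R : ℝ) ^ C4 * 2) ≤ (R : ℝ) ^ C4 * R := by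
            rw [one_mul]
            exact mul_le_mul_of_nonneg_left hRr2 (by positivity)
        _ = (R : ℝ) ^ (C4 + 1) := (pow_succ _ _).symm
        _ ≤ 1 * (R : ℝ) ^ CC := by
            rw [one_mul]
            exact pow_le_pow_right₀ hRr (by rw [hCC]; omega)
    linarith


end Pool.Agent.NLG
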