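import Pool.Agent.Lib.NLG.CaA
import Pool.Agent.Lib.NLG.CaB
import Pool.Agent.Lib.NLG.CaC

/-!
# Module CoreAm: the inverse theorem in `ZMod M`, `M` prime of size about `H ^ (d m)`

PROOF. (I) The slots `j < m`. Claim: there is `C1` such that for every system with `1 / R' ≤ ‖TP H 1 P f0 f‖` (`R' ≥ R`; hypotheses for `R` hold for `R'`) and every `j < m`: `Star C1 R' H (d j) (f j)`. `RedG m` with
`θ = 1`: some `η` with `R' ^ (-C) ≤ ‖TP H (chi η (Pm ·)) (P castSucc) (f0 chi η) (f castSucc)‖`. `GenB m` with `Θ = (η.val / M) Pm`, `D = d (last m)` (`chi_int`): `nrm (q1 Pm.coeff D (η.val / M)) ≤ R' ^ C' / H ^ D`, so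
`q = q1 |Pm.coeff D| ≤ R' ^ (C' + 1)` satisfies the hypothesis of `ca1` (with `R' ^ C''` in place of `R`). (`Star C R1 H e f` for `R1 = R' ^ k` implies `Star (C k) R' H e f`.)
(II) The last slot. Replace successively the functions of the slots `0, .., m - 1` by almost periodic ones: after `k` steps, `R ^ (-C_k) ≤ ‖TP H 1 P f0 f^(k)‖` and for `j < k` the function `f^(k) j` satisfies
`‖g (x + q i) - g x‖ ≤ R ^ (C_k) i / H ^ d j` for some `q ≤ R ^ (C_k)`. Step: `dual_slot` for the slot `k` with `R^(C_k)` in place of `R` (its hypothesis is (I) with `R' = R ^ (2 C_k)`; `d k ≥ 1`). After `m` steps apply `ca3`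
with `R ^ (C_m)` in place of `R`, `c = 1` or so: `Star` for `f^(m) (last m) = f (last m)`.
-/

set_option autoImplicit false

open Finset Polynomial

namespace Pool.Agent.NLG

open Pool.Agent.HLT Pool.Agent.NLT

namespace CoreAmAux

lemma star_mono {M : ℕ} [NeZero M] {C C' R H e : ℕ} {f : ZMod M → ℂ} (hR : 1 ≤ R) (h : C ≤ C')
    (hs : Star C R H e f) : Star C' R H e f := by
  obtain ⟨q, hq1, hq2, hq3⟩ := hs
  have h1 : R ^ C ≤ R ^ C' := Nat.pow_le_pow_right hR h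
  refine ⟨q, hq1, hq2.trans h1, fun J hJ hJ2 => ?_⟩
  refine le_trans ?_ (hq3 J hJ ((Nat.mul_le_mul_left _ h1).trans hJ2))
  have hR1 : (1 : ℝ) ≤ R := by exact_mod_cast hR
  exact one_div_le_one_div_of_le (by positivity) (pow_le_pow_right₀ hR1 h)

lemma star_pow {M : ℕ} [NeZero M] {C k R H e : ℕ} {f : ZMod M → ℂ}
    (hs : Star C (R ^ k) H e f) : Star (k * C) R H e f := by
  obtain ⟨q, hq1, hq2, hq3⟩ := hs
  refine ⟨q, hq1, ?_, fun J hJ hJ2 => ?_⟩
  · rw [pow_mul]; exact hq2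
  · have := hq3 J hJ (by rw [← pow_mul]; exact hJ2)
    rw [Nat.cast_pow, ← pow_mul] at this
    exact this

lemma fam_mono {m : ℕ} {d : Fin m → ℕ} {R R' H : ℕ} {P : Fin m → ℤ[X]} (h : R ≤ R') (hP : Fam m d R H P) :
    Fam m d R' H P :=
  ⟨hP.1, fun j i hi => (hP.2 j i hi).trans (Nat.mul_le_mul_right _ h)⟩

lemma le_pow_self {R k : ℕ} (hR : 1 ≤ R) (hk : 1 ≤ k) : R ≤ R ^ k := by
  calc R = R ^ 1 := (pow_one R).symm
    _ ≤ R ^ k := Nat.pow_le_pow_right hR hk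

/-- (I): the slots below the last one -/
lemma slots (m : ℕ) (hR : RedG m) (hB : GenB m) (hA : GenA m) (d : Fin (m + 1) → ℕ) (hd : StrictMono d)
    (h1 : ∀ j, 1 ≤ d j) :
    ∃ C : ℕ, ∀ (M : ℕ) [Fact M.Prime] (H R : ℕ), 2 ≤ R → R ^ C ≤ H → H ^ d (Fin.last m) ≤ M →
    M ≤ R * H ^ d (Fin.last m) → ∀ P : Fin (m + 1) → ℤ[X], Fam (m + 1) d R H P →
    ∀ f0 : ZMod M → ℂ, Bd f0 → ∀ f : Fin (m + 1) → ZMod M → ℂ, (∀ j, Bd (f j)) →
    1 / (R : ℝ) ≤ ‖TP H (fun _ => 1) P f0 f‖ → ∀ j : Fin m, Star C R H (d j.castSucc) (f j.castSucc) := by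
  obtain ⟨CR, hCR⟩ := hR d hd h1
  have hD1 : 1 ≤ d (Fin.last m) := h1 _
  obtain ⟨CB, hCB⟩ := hB (fun j => d j.castSucc) (d (Fin.last m))
    (fun i j hij => hd (Fin.castSucc_lt_castSucc_iff.2 hij)) (fun j => h1 _)
    (fun j => hd (Fin.castSucc_lt_last j)) hD1
  obtain ⟨CA, hCA⟩ := ca1 m hA d hd h1 1
  obtain ⟨k, hk⟩ : ∃ k, k = (CR + 1) * CB + 1 + CR := ⟨_, rfl⟩
  refine ⟨CR + (CR + 1) * CB + k * CA, fun M _ H R hR2 hRH hM1 hM2 P hP f0 hf0 f hf h j => ?_⟩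
  have hR1 : 1 ≤ R := by omega
  have hRr : (1 : ℝ) ≤ R := by exact_mod_cast hR1
  have hH1 : 1 ≤ H := (Nat.one_le_pow _ _ hR1).trans hRH
  have e1 : R ^ CR ≤ H := (Nat.pow_le_pow_right hR1 (by omega)).trans hRH
  have e2 : (R ^ (CR + 1)) ^ CB ≤ H := by
    rw [← pow_mul]
    exact (Nat.pow_le_pow_right hR1 (by omega)).trans hRH
  have e3 : (R ^ k) ^ CA ≤ H := by
    rw [← pow_mul]
    exact (Nat.pow_le_pow_right hR1 (by omega)).trans hRH
  have e4 : 2 ≤ R ^ (CR + 1) := hR2.trans (le_pow_self hR1 (by omega))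
  have e5 : 2 ≤ R ^ k := hR2.trans (le_pow_self hR1 (by omega))
  obtain ⟨η, hη⟩ := hCR M H R hR2 e1 hM1 hM2 P hP (fun _ => 1) (fun _ => norm_one) f0 hf0 f hf h
  simp only [one_mul] at hη
  obtain ⟨Pm, hPm⟩ : ∃ Pm, Pm = P (Fin.last m) := ⟨_, rfl⟩
  have hdeg : Pm.natDegree = d (Fin.last m) := by rw [hPm]; exact hP.1 _
  obtain ⟨a, ha⟩ : ∃ a : ℤ, a = Pm.coeff (d (Fin.last m)) := ⟨_, rfl⟩
  have ha0 : a ≠ 0 := by
    rw [ha, ← hdeg, coeff_natDegree, Ne, leadingCoeff_eq_zero]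
    intro h0
    rw [h0, natDegree_zero] at hdeg
    omega
  have haR : a.natAbs ≤ R := by
    have := hP.2 (Fin.last m) (d (Fin.last m)) hD1
    rw [← hPm, ← ha] at this
    exact Nat.le_of_mul_le_mul_right this (by positivity)
  obtain ⟨Θ, hΘ⟩ : ∃ Θ : ℝ[X], Θ = Polynomial.C ((η.val : ℝ) / (M : ℝ)) *
      Pm.map (Int.castRingHom ℝ) := ⟨_, rfl⟩
  have h4 : Θ.natDegree ≤ d (Fin.last m) := by
    rw [hΘ]
    exact (natDegree_C_mul_le _ _).trans (natDegree_map_le.trans hdeg.le)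
  have h5 : Θ.coeff (d (Fin.last m)) = (η.val : ℝ) / (M : ℝ) * (a : ℝ) := by
    rw [hΘ, coeff_C_mul, coeff_map, ← ha]
    simp
  have h6 : ∀ t : ℕ, chi η (((Pm.eval (t : ℤ) : ℤ)) : ZMod M) = ex (Θ.eval (t : ℝ)) := by
    intro t
    rw [chi_int, hΘ, eval_mul, eval_C]
    have h3 : (Pm.map (Int.castRingHom ℝ)).eval (t : ℝ) = ((Pm.eval (t : ℤ) : ℤ) : ℝ) := by
      have h4 := Polynomial.eval_intCast_map (Int.castRingHom ℝ) Pm (t : ℤ)
      push_cast at h4
      exact h4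
    rw [h3, mul_comm ((η.val : ℝ) / (M : ℝ))]
  have hbd : Bd (fun x => f0 x * chi η x) := by
    intro x
    rw [norm_mul, norm_chi, mul_one]
    exact hf0 x
  have hη2 := hη
  rw [← hPm] at hη2
  simp only [h6] at hη2
  have hfam : Fam m (fun j => d j.castSucc) (R ^ (CR + 1)) H (fun j => P j.castSucc) :=
    fam_mono (le_pow_self hR1 (by omega)) ⟨fun j => hP.1 _, fun j i hi => hP.2 j.castSucc i hi⟩
  obtain ⟨q, hq1, hq2, hq3⟩ := hCB M H (R ^ (CR + 1)) e4 e2 (fun j => P j.castSucc) hfam Θ h4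
    (fun x => f0 x * chi η x) hbd (fun j => f j.castSucc) (fun j => hf _) (by
      refine le_trans ?_ hη2
      rw [Nat.cast_pow]
      exact one_div_le_one_div_of_le (by positivity) (pow_le_pow_right₀ hRr (by omega)))
  rw [h5] at hq3
  rw [← pow_mul] at hq2
  rw [Nat.cast_pow, ← pow_mul] at hq3
  have hqa : 1 ≤ q * a.natAbs := Nat.mul_pos hq1 (Int.natAbs_pos.2 ha0)
  have hqa2 : q * a.natAbs ≤ (R ^ k) ^ 1 := by
    rw [pow_one]
    calc q * a.natAbs ≤ R ^ ((CR + 1) * CB) * R := Nat.mul_le_mul hq2 haR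
      _ = R ^ ((CR + 1) * CB + 1) := (pow_succ _ _).symm
      _ ≤ R ^ k := Nat.pow_le_pow_right hR1 (by omega)
  have hnrm : nrm (((q * a.natAbs : ℕ) : ℝ) * ((η.val : ℝ) / (M : ℝ))) ≤
      ((R ^ k : ℕ) : ℝ) ^ 1 / (H : ℝ) ^ d (Fin.last m) := by
    have h7 : nrm (((q * a.natAbs : ℕ) : ℝ) * ((η.val : ℝ) / (M : ℝ))) =
        nrm ((q : ℝ) * ((η.val : ℝ) / (M : ℝ) * (a : ℝ))) := by
      have h8 : ((a.natAbs : ℕ) : ℝ) = |(a : ℝ)| := by rw [Nat.cast_natAbs, Int.cast_abs]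
      rw [Nat.cast_mul, h8]
      rcases abs_choice (a : ℝ) with h9 | h9
      · rw [h9]
        congr 1
        ring
      · rw [h9, ← nrm_ng]
        congr 1
        ring
    rw [h7, pow_one, Nat.cast_pow]
    exact hq3.trans (div_le_div_of_nonneg_right (pow_le_pow_right₀ hRr (by omega)) (by positivity))
  have hfin := hCA M H (R ^ k) e5 e3 P (fam_mono (le_pow_self hR1 (by omega)) hP) η (q * a.natAbs) hqa hqa2 hnrm
    (fun x => f0 x * chi η x) hbd (fun j => f j.castSucc) (fun j => hf _) (by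
      refine le_trans ?_ hη
      rw [Nat.cast_pow]
      exact one_div_le_one_div_of_le (by positivity) (pow_le_pow_right₀ hRr (by omega))) j
  exact star_mono hR1 (by omega) (star_pow hfin)

/-- (II): replacing the functions in the slots below the last one -/
lemma replace (m : ℕ) (d : Fin (m + 1) → ℕ) (h1 : ∀ j, 1 ≤ d j) (C1 : ℕ)
    (hI : ∀ (M : ℕ) [Fact M.Prime] (H R : ℕ), 2 ≤ R → R ^ C1 ≤ H → H ^ d (Fin.last m) ≤ M →
    M ≤ R * H ^ d (Fin.last m) → ∀ P : Fin (m + 1) → ℤ[X], Fam (m + 1) d R H P →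
    ∀ f0 : ZMod M → ℂ, Bd f0 → ∀ f : Fin (m + 1) → ZMod M → ℂ, (∀ j, Bd (f j)) →
    1 / (R : ℝ) ≤ ‖TP H (fun _ => 1) P f0 f‖ → ∀ j : Fin m, Star C1 R H (d j.castSucc) (f j.castSucc)) (k : ℕ) :
    k ≤ m → ∃ C : ℕ, ∀ (M : ℕ) [Fact M.Prime] (H R : ℕ), 2 ≤ R → R ^ C ≤ H → H ^ d (Fin.last m) ≤ M →
    M ≤ R * H ^ d (Fin.last m) → ∀ P : Fin (m + 1) → ℤ[X], Fam (m + 1) d R H P →
    ∀ f0 : ZMod M → ℂ, Bd f0 → ∀ f : Fin (m + 1) → ZMod M → ℂ, (∀ j, Bd (f j)) →
    1 / (R : ℝ) ≤ ‖TP H (fun _ => 1) P f0 f‖ →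
    ∃ g : Fin (m + 1) → ZMod M → ℂ, (∀ j, Bd (g j)) ∧ g (Fin.last m) = f (Fin.last m) ∧
      (∀ j : Fin m, (j : ℕ) < k → ∃ q : ℕ, 1 ≤ q ∧ q ≤ R ^ C ∧ ∀ (x : ZMod M) (i : ℕ),
        ‖g j.castSucc (x + ((q * i : ℕ) : ZMod M)) - g j.castSucc x‖ ≤ (R : ℝ) ^ C * i / (H : ℝ) ^ d j.castSucc) ∧
      1 / (R : ℝ) ^ C ≤ ‖TP H (fun _ => 1) P f0 g‖ := by
  induction k with
  | zero =>
    intro _
    refine ⟨1, fun M _ H R hR2 hRH hM1 hM2 P hP f0 hf0 f hf h => ⟨f, hf, rfl, ?_, ?_⟩⟩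
    · intro j hj
      exact absurd hj (Nat.not_lt_zero _)
    · rw [pow_one]; exact h
  | succ k ih =>
    intro hkm
    obtain ⟨C, hC⟩ := ih (by omega)
    obtain ⟨Cd, hCd⟩ := dual_slot (2 * C1)
    refine ⟨(C + 1) * (Cd + 2 * C1 + 1), fun M _ H R hR2 hRH hM1 hM2 P hP f0 hf0 f hf h => ?_⟩
    have hR1 : 1 ≤ R := by omega
    have hRr : (1 : ℝ) ≤ R := by exact_mod_cast hR1
    have hH1 : 1 ≤ H := (Nat.one_le_pow _ _ hR1).trans hRH
    have a1 : C ≤ (C + 1) * (Cd + 2 * C1 + 1) := by nlinarith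
    have a2 : (C + 1) * Cd ≤ (C + 1) * (Cd + 2 * C1 + 1) := Nat.mul_le_mul_left _ (by omega)
    have a3 : (C + 1) * (2 * C1) ≤ (C + 1) * (Cd + 2 * C1 + 1) := Nat.mul_le_mul_left _ (by omega)
    obtain ⟨g, hg1, hg2, hg3, hg4⟩ := hC M H R hR2 ((Nat.pow_le_pow_right hR1 a1).trans hRH) hM1 hM2 P hP f0 hf0
      f hf h
    have e4 : 2 ≤ R ^ (C + 1) := hR2.trans (le_pow_self hR1 (by omega))
    have e5 : R ≤ (R ^ (C + 1)) ^ 2 := by
      rw [← pow_mul]
      exact le_pow_self hR1 (by omega)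
    have e6 : 2 ≤ (R ^ (C + 1)) ^ 2 := hR2.trans e5
    obtain ⟨j, hj⟩ : ∃ j : Fin m, (j : ℕ) = k := ⟨⟨k, by omega⟩, rfl⟩
    have e7 : (R ^ (C + 1)) ^ Cd ≤ H ^ d j.castSucc := by
      rw [← pow_mul]
      exact ((Nat.pow_le_pow_right hR1 a2).trans hRH).trans (le_pow_self hH1 (h1 _))
    obtain ⟨g', q, hg'1, hq1, hq2, hq3, hq4⟩ := hCd M (m + 1) H (R ^ (C + 1)) (d j.castSucc) e4 e7 P f0 hf0 g hg1
      j.castSucc (by
        intro u hu hu2
        have hbd : ∀ i, Bd (Function.update g j.castSucc u i) := by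
          intro i
          by_cases hi : i = j.castSucc
          · subst hi
            rw [Function.update_self]
            exact hu
          · rw [Function.update_of_ne hi]
            exact hg1 i
        have := hI M H ((R ^ (C + 1)) ^ 2) e6 (by
            rw [← pow_mul, ← pow_mul]
            exact (Nat.pow_le_pow_right hR1 a3).trans hRH) hM1
          (hM2.trans (Nat.mul_le_mul_right _ e5)) P (fam_mono e5 hP) f0 hf0
          (Function.update g j.castSucc u) hbd (by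
            rw [Nat.cast_pow (R ^ (C + 1)) 2]
            exact hu2) j
        rw [Function.update_self] at this
        exact star_pow this) (by
        refine le_trans ?_ hg4
        rw [Nat.cast_pow]
        exact one_div_le_one_div_of_le (by positivity) (pow_le_pow_right₀ hRr (by omega)))
    rw [← pow_mul] at hq2
    rw [Nat.cast_pow, ← pow_mul] at hq4
    refine ⟨Function.update g j.castSucc g', ?_, ?_, ?_, ?_⟩
    · intro i
      by_cases hi : i = j.castSucc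
      · subst hi
        rw [Function.update_self]
        exact hg'1
      · rw [Function.update_of_ne hi]
        exact hg1 i
    · rw [Function.update_of_ne (Fin.castSucc_lt_last j).ne', hg2]
    · intro i hi
      by_cases hij : i = j
      · subst hij
        refine ⟨q, hq1, hq2.trans (Nat.pow_le_pow_right hR1 a2), fun x n => ?_⟩
        rw [Function.update_self]
        refine (hq3 x n).trans ?_
        rw [Nat.cast_pow, ← pow_mul]
        have := pow_le_pow_right₀ hRr a2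
        gcongr
      · have hlt : (i : ℕ) < k := by
          have : (i : ℕ) ≠ (j : ℕ) := fun h => hij (Fin.ext h)
          omega
        obtain ⟨p, hp1, hp2, hp3⟩ := hg3 i hlt
        have hne : i.castSucc ≠ j.castSucc := fun h => hij (Fin.castSucc_injective _ h)
        refine ⟨p, hp1, hp2.trans (Nat.pow_le_pow_right hR1 a1), fun x n => ?_⟩
        rw [Function.update_of_ne hne]
        refine (hp3 x n).trans ?_
        have := pow_le_pow_right₀ hRr a1
        gcongr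
    · refine le_trans ?_ hq4
      exact one_div_le_one_div_of_le (by positivity) (pow_le_pow_right₀ hRr a2)

end CoreAmAux

open CoreAmAux in
theorem coreA (m : ℕ) (hR : RedG m) (hB : GenB m) (hA : GenA m) : CoreA m := by
  intro d hd h1
  obtain ⟨C1, hC1⟩ := slots m hR hB hA d hd h1
  obtain ⟨C2, hC2⟩ := replace m d h1 C1 hC1 m le_rfl
  obtain ⟨C3, hC3⟩ := ca3 m d hd h1 1
  refine ⟨C1 + C2 + (C2 + 1) * C3, fun M _ H R hR2 hRH hM1 hM2 P hP f0 hf0 f hf h => ?_⟩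
  have hR1 : 1 ≤ R := by omega
  have hRr : (1 : ℝ) ≤ R := by exact_mod_cast hR1
  intro j
  refine Fin.lastCases ?_ (fun j => ?_) j
  · obtain ⟨g, hg1, hg2, hg3, hg4⟩ := hC2 M H R hR2 ((Nat.pow_le_pow_right hR1 (by omega)).trans hRH) hM1 hM2 P hP
      f0 hf0 f hf h
    have e4 : 2 ≤ R ^ (C2 + 1) := hR2.trans (le_pow_self hR1 (by omega))
    have e5 : R ≤ R ^ (C2 + 1) := le_pow_self hR1 (by omega)
    have e6 : (R ^ (C2 + 1)) ^ C3 ≤ H := by
      rw [← pow_mul]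
      exact (Nat.pow_le_pow_right hR1 (by omega)).trans hRH
    have hs := hC3 M H (R ^ (C2 + 1)) e4 e6 hM1 (hM2.trans (Nat.mul_le_mul_right _ e5)) P (fam_mono e5 hP) f0 hf0
      g hg1 (by
        intro i
        obtain ⟨q, hq1, hq2, hq3⟩ := hg3 i i.2
        refine ⟨q, hq1, ?_, fun x n => ?_⟩
        · rw [pow_one]
          exact hq2.trans (Nat.pow_le_pow_right hR1 (by omega))
        · refine (hq3 x n).trans ?_
          rw [pow_one, Nat.cast_pow]
          have := pow_le_pow_right₀ hRr (Nat.le_succ C2)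
          gcongr) (by
        refine le_trans ?_ hg4
        rw [Nat.cast_pow]
        exact one_div_le_one_div_of_le (by positivity) (pow_le_pow_right₀ hRr (by omega)))
    rw [hg2] at hs
    exact star_mono hR1 (by omega) (star_pow hs)
  · exact star_mono hR1 (by omega) (hC1 M H R hR2 ((Nat.pow_le_pow_right hR1 (by omega)).trans hRH) hM1 hM2 P hP
      f0 hf0 f hf h j)

end Pool.Agent.NLG
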