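import Pool.Agent.Lib.NLT.BasicC

/-!
# Nonlinear families: definitions

Averages `ev`, `evr` over finite sets; the law `fe A v` of `v (j - i)`, `i, j < A`; the uniform law `un`; positive definite
probability measures `PD`; box averages `BB [μ_1, …, μ_n] F` = average of `E_x Dl y_1 … Dl y_n F (x)` over independent `y_i`
with law `μ_i`; `UU K F` = the `2 ^ K`-th power of the Gowers norm `U^K`; iterated averages `mv`, `bx` over `Fin k → Y`.
-/

set_option autoImplicit false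

open Finset

namespace Pool.Agent.NLG

open Pool.Agent.HLT Pool.Agent.NLT

/-- Average over a finite set. -/
noncomputable def ev {α : Type} (s : Finset α) (F : α → ℂ) : ℂ := (∑ a ∈ s, F a) / (s.card : ℂ)

/-- Real average over a finite set. -/
noncomputable def evr {α : Type} (s : Finset α) (F : α → ℝ) : ℝ := (∑ a ∈ s, F a) / (s.card : ℝ)

/-- Average over all `m : Fin k → Y` with values in `S`. -/
noncomputable def mv {Y : Type} (S : Finset Y) : (k : ℕ) → ((Fin k → Y) → ℂ) → ℂ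
  | 0, Φ => Φ (fun i => i.elim0)
  | k + 1, Φ => ev S (fun a => mv S k (fun m => Φ (Fin.cons a m : Fin (k + 1) → Y)))

/-- Box average of `Φ`: average over `a_i, a'_i ∈ S` of the product of the `2 ^ k` values of `Φ` (conjugated according to
the parity). -/
noncomputable def bx {Y : Type} (S : Finset Y) : (k : ℕ) → ((Fin k → Y) → ℂ) → ℂ
  | 0, Φ => Φ (fun i => i.elim0)
  | k + 1, Φ => ev S (fun a => ev S (fun a' => bx S k (fun m => Φ (Fin.cons a m : Fin (k + 1) → Y) *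
      (starRingEnd ℂ) (Φ (Fin.cons a' m : Fin (k + 1) → Y)))))

section group

variable {M : ℕ} [NeZero M]

/-- The law of `v (j - i)`, `i, j < A`. -/
noncomputable def fe (A : ℕ) (v : ZMod M) : ZMod M → ℝ := fun y =>
  (((range A ×ˢ range A).filter (fun p => v * ((p.2 : ZMod M) - (p.1 : ZMod M)) = y)).card : ℝ) / (A : ℝ) ^ 2

/-- The uniform law. -/
noncomputable def un : ZMod M → ℝ := fun _ => 1 / (M : ℝ)

/-- Positive definite probability measures. -/
def PD (μ : ZMod M → ℝ) : Prop :=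
  (∀ y, 0 ≤ μ y) ∧ ∑ y, μ y = 1 ∧ ∀ ξ : ZMod M, ∃ r : ℝ, 0 ≤ r ∧ ∑ y, (μ y : ℂ) * chi ξ y = r

/-- Box average. -/
noncomputable def BB : List (ZMod M → ℝ) → (ZMod M → ℂ) → ℂ
  | [], F => av F
  | μ :: L, F => ∑ y, (μ y : ℂ) * BB L (Dl y F)

/-- The `2 ^ K`-th power of the Gowers norm `U^K`. -/
noncomputable def UU (K : ℕ) (F : ZMod M → ℂ) : ℝ := (BB (List.replicate K un) F).re

/-- `W` is, on boxes of side `A'` in the directions `v`, an average of products of functions each of which does not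
depend on one of the coordinates. -/
def Str (A' : ℕ) (η : ℝ) {n : ℕ} (v : Fin n → ZMod M) (W : ZMod M → ℂ) : Prop :=
  ∃ (N : Type) (T : Finset N) (b : N → Fin n → ZMod M → (Fin n → ℕ) → ℂ), T.Nonempty ∧
    (∀ ν i x m, ‖b ν i x m‖ ≤ 1) ∧
    (∀ ν i x (m m' : Fin n → ℕ), (∀ j, j ≠ i → m j = m' j) → b ν i x m = b ν i x m') ∧
    ∀ x (m : Fin n → ℕ), (∀ i, m i < A') →
      ‖W (x + ∑ i, v i * (m i : ZMod M)) - ev T (fun ν => ∏ i, b ν i x m)‖ ≤ η

/-- The same for a list of directions. -/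
def StL (A' : ℕ) (η : ℝ) (L : List (ZMod M)) (W : ZMod M → ℂ) : Prop :=
  ∃ (n : ℕ) (v : Fin n → ZMod M), L = List.ofFn v ∧ Str A' η v W

/-- The kernel of the direction `c h`, `h ∈ Ω`. -/
noncomputable def kap {τ : Type} (Ω : Finset τ) (A : ℕ) (c : τ → ZMod M) (ξ : ZMod M) : ℝ :=
  evr Ω (fun h => ‖tv A (fun i => chi ξ (c h * (i : ZMod M)))‖ ^ 2)

end group

/-- `c a h`, `h ∈ Ω A` (a box of side `A`), behaves like a polynomial in `h` of exact degree `e`: if `θ c a h` is close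
to an integer for many `h`, then `θ` is close to a rational with small denominator. -/
def Exq {α τ : Type} (sz : α → ℕ) (Ω : ℕ → Finset τ) (e : ℕ) (c : α → τ → ℤ) : Prop :=
  ∃ C : ℕ, ∀ (a : α) (A K : ℕ) (δ θ : ℝ), sz a ≤ K → 2 ≤ K → K ^ C ≤ A → 0 ≤ δ → δ * (K : ℝ) ^ C ≤ 1 →
    (Ω A).Nonempty →
    ((Ω A).card : ℝ) ≤ K * (((Ω A).filter (fun h => nrm (θ * (c a h : ℝ)) ≤ δ)).card : ℝ) →
    ∃ q : ℕ, 1 ≤ q ∧ q ≤ K ^ C ∧ nrm ((q : ℝ) * θ) ≤ (K : ℝ) ^ C * δ / (A : ℝ) ^ e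

end Pool.Agent.NLG
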