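import Pool.Agent.Lib.NLG.Ev

/-!
# Nonlinear families: counting operators and families of polynomials

`TG H θ g0 f Q L` = average over `t < H`, `x` of `θ t * g0 x * f (x + Q t) * ∏_((g, P) ∈ L) g (x + P t)`.
A leaf is an integer polynomial in `t` which depends on `a : α` (data of the problem) and `h : τ` (a box variable).
`GoodF sz D Ω Qs L`: averages of `TG` over `h ∈ Ω A`, for ANY bounded functions at the leaves of `L` and a fixed function `f` at
the leaf `Qs`, are controlled by box averages of `f` in directions of exact degree `D - 1`.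
-/

set_option autoImplicit false

open Finset Polynomial

namespace Pool.Agent.NLG

open Pool.Agent.HLT Pool.Agent.NLT

section group

variable {M : ℕ} [NeZero M]

/-- Counting operator. -/
noncomputable def TG (H : ℕ) (θ : ℕ → ℂ) (g0 f : ZMod M → ℂ) (Q : ℤ[X]) (L : List ((ZMod M → ℂ) × ℤ[X])) : ℂ :=
  tv H (fun t => av (fun x => θ t * g0 x * f (x + ((Q.eval (t : ℤ) : ℤ) : ZMod M)) *
    (L.map (fun g => g.1 (x + ((g.2.eval (t : ℤ) : ℤ) : ZMod M)))).prod))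

end group

/-- Controlled families. -/
def GoodF {α τ : Type} (sz : α → ℕ) (D : ℕ) (Ω : ℕ → Finset τ) (Qs : α → τ → ℤ[X]) (L : List (α → τ → ℤ[X])) : Prop :=
  ∃ (τ' : Type) (Ω' : ℕ → Finset τ') (cs : List (α → τ' → ℤ)) (s B : ℕ), 1 ≤ s ∧ cs ≠ [] ∧
    (∀ A, 1 ≤ A → (Ω' A).Nonempty) ∧ (∀ c ∈ cs, Exq sz Ω' (D - 1) c) ∧
    ∀ (M : ℕ) [NeZero M] (a : α) (H A : ℕ), 1 ≤ A → 1 ≤ H → ∀ f : ZMod M → ℂ, Bd f →
      ∀ (θ : τ → ℕ → ℂ), (∀ h t, ‖θ h t‖ ≤ 1) → ∀ g0 : τ → ZMod M → ℂ, (∀ h, Bd (g0 h)) →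
      ∀ G : List ((τ → ZMod M → ℂ) × (α → τ → ℤ[X])), G.map Prod.snd = L → (∀ p ∈ G, ∀ h, Bd (p.1 h)) →
      (evr (Ω A) (fun h => ‖TG H (θ h) (g0 h) f (Qs a h) (G.map (fun p => (p.1 h, p.2 a h)))‖)) ^ s ≤
        B * (evr (Ω' A) (fun h => ‖BB (cs.map (fun c => fe A ((c a h : ℤ) : ZMod M))) f‖) + (A : ℝ) / H)

/-- All leaves relative to `0`: degree at most `e`; the differences `Qs - Q` and `Qs` have exact degree `e` in `t`, with
a leading coefficient of exact degree `D - e` in the box variables. -/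
def StageStart {α τ : Type} (sz : α → ℕ) (D e : ℕ) (Ω : ℕ → Finset τ) (Qs : α → τ → ℤ[X])
    (L : List (α → τ → ℤ[X])) : Prop :=
  (∀ a h, (Qs a h).natDegree ≤ e) ∧ Exq sz Ω (D - e) (fun a h => (Qs a h).coeff e) ∧
    ∀ Q ∈ L, (∀ a h, (Q a h).natDegree ≤ e) ∧ Exq sz Ω (D - e) (fun a h => (Qs a h).coeff e - (Q a h).coeff e)

end Pool.Agent.NLG
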