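import Pool.Agent.Lib.NLG.DefsB

/-!
# Nonlinear families: definitions for the inverse theorem

`TP H θ P f0 f` = average over `t < H`, `x` of `θ t * f0 x * ∏_j f j (x + P j t)`; `Fam m d R H P`: `P j` has degree `d j` and coefficients of size
`R H ^ (d j - i)`; `Star C R H e f`: `f` has large averages along progressions of a bounded difference `q` and of every length up to
`H ^ e / R ^ C`; `GenA m`, `GenB m`: the inverse theorem for `m` polynomials, without and with a polynomial phase of larger degree;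
`CoreA m`, `CoreB m`: the same for `m + 1` polynomials in `ZMod M`, `M` prime of size about `H ^ (d m)`.
-/

set_option autoImplicit false

open Finset Polynomial

namespace Pool.Agent.NLG

open Pool.Agent.HLT Pool.Agent.NLT

/-- Average over `t < H`, `x` of `θ t * f0 x * ∏_j f j (x + P j t)`. -/
noncomputable def TP {M m : ℕ} [NeZero M] (H : ℕ) (θ : ℕ → ℂ) (P : Fin m → ℤ[X]) (f0 : ZMod M → ℂ)
    (f : Fin m → ZMod M → ℂ) : ℂ :=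
  tv H (fun t => θ t * av (fun x => f0 x * ∏ j, f j (x + (((P j).eval (t : ℤ) : ℤ) : ZMod M))))

/-- Polynomials of degree `d j` whose coefficients of index `i ≥ 1` have size at most `R H ^ (d j - i)`. -/
def Fam (m : ℕ) (d : Fin m → ℕ) (R H : ℕ) (P : Fin m → ℤ[X]) : Prop :=
  (∀ j, (P j).natDegree = d j) ∧ ∀ j i, 1 ≤ i → ((P j).coeff i).natAbs * H ^ i ≤ R * H ^ d j

/-- Large averages along progressions of difference `q` and every length up to `H ^ e / R ^ C`. -/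
def Star {M : ℕ} [NeZero M] (C R H e : ℕ) (f : ZMod M → ℂ) : Prop :=
  ∃ q : ℕ, 1 ≤ q ∧ q ≤ R ^ C ∧ ∀ J : ℕ, 1 ≤ J → J * R ^ C ≤ H ^ e →
    1 / (R : ℝ) ^ C ≤ avr (fun x => ‖tv J (fun i => f (x + ((q * i : ℕ) : ZMod M)))‖)

/-- Top coefficient of a phase on a major arc. -/
def GenB (m : ℕ) : Prop :=
  ∀ (d : Fin m → ℕ) (D : ℕ), StrictMono d → (∀ j, 1 ≤ d j) → (∀ j, d j < D) → 1 ≤ D →
    ∃ C : ℕ, ∀ (M : ℕ) [NeZero M] (H R : ℕ), 2 ≤ R → R ^ C ≤ H → ∀ P : Fin m → ℤ[X], Fam m d R H P →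
    ∀ Θ : ℝ[X], Θ.natDegree ≤ D → ∀ f0 : ZMod M → ℂ, Bd f0 → ∀ f : Fin m → ZMod M → ℂ, (∀ j, Bd (f j)) →
    1 / (R : ℝ) ≤ ‖TP H (fun t => ex (Θ.eval (t : ℝ))) P f0 f‖ →
    ∃ q : ℕ, 1 ≤ q ∧ q ≤ R ^ C ∧ nrm ((q : ℝ) * Θ.coeff D) ≤ (R : ℝ) ^ C / (H : ℝ) ^ D

/-- The inverse theorem. -/
def GenA (m : ℕ) : Prop :=
  ∀ (d : Fin m → ℕ), StrictMono d → (∀ j, 1 ≤ d j) →
    ∃ C : ℕ, ∀ (M : ℕ) [NeZero M] (H R : ℕ), 2 ≤ R → R ^ C ≤ H → ∀ P : Fin m → ℤ[X], Fam m d R H P →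
    ∀ f0 : ZMod M → ℂ, Bd f0 → ∀ f : Fin m → ZMod M → ℂ, (∀ j, Bd (f j)) →
    1 / (R : ℝ) ≤ ‖TP H (fun _ => 1) P f0 f‖ → ∀ j, Star C R H (d j) (f j)

/-- `GenB (m + 1)` in `ZMod M`, `M` prime, `M` of size about `H ^ (d m)`. -/
def CoreB (m : ℕ) : Prop :=
  ∀ (d : Fin (m + 1) → ℕ) (D : ℕ), StrictMono d → (∀ j, 1 ≤ d j) → (∀ j, d j < D) →
    ∃ C : ℕ, ∀ (M : ℕ) [Fact M.Prime] (H R : ℕ), 2 ≤ R → R ^ C ≤ H → H ^ d (Fin.last m) ≤ M →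
    M ≤ R * H ^ d (Fin.last m) → ∀ P : Fin (m + 1) → ℤ[X], Fam (m + 1) d R H P →
    ∀ Θ : ℝ[X], Θ.natDegree ≤ D → ∀ f0 : ZMod M → ℂ, Bd f0 → ∀ f : Fin (m + 1) → ZMod M → ℂ, (∀ j, Bd (f j)) →
    1 / (R : ℝ) ≤ ‖TP H (fun t => ex (Θ.eval (t : ℝ))) P f0 f‖ →
    ∃ q : ℕ, 1 ≤ q ∧ q ≤ R ^ C ∧ nrm ((q : ℝ) * Θ.coeff D) ≤ (R : ℝ) ^ C / (H : ℝ) ^ D

/-- `GenA (m + 1)` in `ZMod M`, `M` prime, `M` of size about `H ^ (d m)`. -/
def CoreA (m : ℕ) : Prop :=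
  ∀ (d : Fin (m + 1) → ℕ), StrictMono d → (∀ j, 1 ≤ d j) →
    ∃ C : ℕ, ∀ (M : ℕ) [Fact M.Prime] (H R : ℕ), 2 ≤ R → R ^ C ≤ H → H ^ d (Fin.last m) ≤ M →
    M ≤ R * H ^ d (Fin.last m) → ∀ P : Fin (m + 1) → ℤ[X], Fam (m + 1) d R H P →
    ∀ f0 : ZMod M → ℂ, Bd f0 → ∀ f : Fin (m + 1) → ZMod M → ℂ, (∀ j, Bd (f j)) →
    1 / (R : ℝ) ≤ ‖TP H (fun _ => 1) P f0 f‖ → ∀ j, Star C R H (d j) (f j)

/-- Reduction from `m + 1` to `m` functions: the top function may be replaced by a character. -/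
def RedG (m : ℕ) : Prop :=
  ∀ (d : Fin (m + 1) → ℕ), StrictMono d → (∀ j, 1 ≤ d j) →
    ∃ C : ℕ, ∀ (M : ℕ) [Fact M.Prime] (H R : ℕ), 2 ≤ R → R ^ C ≤ H → H ^ d (Fin.last m) ≤ M →
    M ≤ R * H ^ d (Fin.last m) → ∀ P : Fin (m + 1) → ℤ[X], Fam (m + 1) d R H P →
    ∀ θ : ℕ → ℂ, (∀ t, ‖θ t‖ = 1) → ∀ f0 : ZMod M → ℂ, Bd f0 → ∀ f : Fin (m + 1) → ZMod M → ℂ, (∀ j, Bd (f j)) →
    1 / (R : ℝ) ≤ ‖TP H θ P f0 f‖ →
    ∃ η : ZMod M, 1 / (R : ℝ) ^ C ≤ ‖TP H (fun t => θ t * chi η ((((P (Fin.last m)).eval (t : ℤ) : ℤ)) : ZMod M))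
      (fun j => P j.castSucc) (fun x => f0 x * chi η x) (fun j => f j.castSucc)‖

section group

variable {M : ℕ} [NeZero M]

/-- Iterated derivative. -/
noncomputable def DlF : (k : ℕ) → (Fin k → ZMod M) → (ZMod M → ℂ) → ZMod M → ℂ
  | 0, _, F => F
  | k + 1, h, F => Dl (h 0) (DlF k (Fin.tail h) F)

end group

/-- Conjugation if `k` is odd. -/
noncomputable def cj (k : ℕ) (z : ℂ) : ℂ := if Even k then z else (starRingEnd ℂ) z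

/-- The vertex `ω` of the box spanned by `h`, `h'`. -/
def mixw {Y : Type} {k : ℕ} (ω : Fin k → Bool) (h h' : Fin k → Y) : Fin k → Y := fun i => if ω i then h' i else h i

/-- The number of coordinates which are `true`. -/
def wt {k : ℕ} (ω : Fin k → Bool) : ℕ := (univ.filter (fun i => ω i = true)).card

end Pool.Agent.NLG
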