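import Pool.Agent.Lib.NLG.DefsC
import Pool.Agent.Lib.NLG.BXB

/-!
# Module DlA: iterated derivatives

PROOFS by induction on `k`. `DlF_Bd`: `Dl_Bd`. `DlF_comm`: `Dl_comm`. `UU_add`: `UU_succ` (average over `h 0 = u` of `UU (k + K) (Dl u F)`), the induction
hypothesis for `Dl u F`, `DlF k h' (Dl u F) = Dl u (DlF k h' F)`; the average over `Fin (k + 1) → ZMod M` is the double average
(`Fin.consEquiv` / `Fin.insertNthEquiv`, `Fintype.sum_equiv`); `UU (k + K)` with `k + K` in the right order of recursion (`Nat.succ_add`).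
`DlF_top` (top vertex): `DlF (k + 1) h F x = G x * conj (G (x + h 0))`, `G = DlF k (Fin.tail h) F`; `G x` does not depend on `h 0`: it is `c 0`; and
`conj (G (x + h 0)) = conj (cj k (F (x + h 0 + ∑ tail))) * ∏ conj (c' i (x + h 0) (tail h))`, so `c (i + 1) x h = conj (c' i (x + h 0) (Fin.tail h))` does
not depend on `h (i + 1)`. The functions `c` depend on `F`. (`Fin.sum_univ_succ`, `Fin.prod_univ_succ`; `cj (k + 1) z = conj (cj k z)`.)
-/

set_option autoImplicit false

open Finset

namespace Pool.Agent.NLG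

open Pool.Agent.HLT Pool.Agent.NLT

variable {M : ℕ} [NeZero M]

theorem DlF_Bd (k : ℕ) (h : Fin k → ZMod M) (F : ZMod M → ℂ) (hF : Bd F) : Bd (DlF k h F) := by
  induction k with
  | zero => exact hF
  | succ k ih => exact Dl_Bd _ (ih (Fin.tail h))

theorem DlF_comm (k : ℕ) (h : Fin k → ZMod M) (u : ZMod M) (F : ZMod M → ℂ) :
    Dl u (DlF k h F) = DlF k h (Dl u F) := by
  induction k with
  | zero => rfl
  | succ k ih =>
    change Dl u (Dl (h 0) (DlF k (Fin.tail h) F)) = Dl (h 0) (DlF k (Fin.tail h) (Dl u F))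
    rw [Dl_comm, ih]

theorem UU_add (k K : ℕ) (F : ZMod M → ℂ) :
    UU (k + K) F = evr (univ : Finset (Fin k → ZMod M)) (fun h => UU K (DlF k h F)) := by
  induction k generalizing F with
  | zero =>
    rw [Nat.zero_add]
    unfold evr
    rw [Finset.card_univ, Fintype.card_unique, Nat.cast_one, div_one, Fintype.sum_unique]
    rfl
  | succ k ih =>
    rw [Nat.succ_add, UU_succ]
    have h1 : ∀ u : ZMod M, UU (k + K) (Dl u F) =
        evr (univ : Finset (Fin k → ZMod M)) (fun h => UU K (Dl u (DlF k h F))) := by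
      intro u
      rw [ih]
      exact evr_congr fun h _ => by rw [DlF_comm]
    simp_rw [h1]
    unfold avr evr
    have h2 : ∑ h : Fin (k + 1) → ZMod M, UU K (DlF (k + 1) h F) =
        ∑ u : ZMod M, ∑ h : Fin k → ZMod M, UU K (Dl u (DlF k h F)) := by
      rw [← Fintype.sum_prod_type' (fun (u : ZMod M) (h : Fin k → ZMod M) => UU K (Dl u (DlF k h F)))]
      symm
      refine Fintype.sum_equiv (Fin.consEquiv (fun _ : Fin (k + 1) => ZMod M)) _ _ fun p => ?_
      change UU K (Dl p.1 (DlF k p.2 F)) = UU K (Dl ((Fin.cons p.1 p.2 : Fin (k + 1) → ZMod M) 0)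
        (DlF k (Fin.tail (Fin.cons p.1 p.2 : Fin (k + 1) → ZMod M)) F))
      rw [Fin.cons_zero, Fin.tail_cons]
    rw [h2, ← Finset.sum_div, div_div]
    congr 1
    rw [Finset.card_univ, Finset.card_univ, Fintype.card_pi, Fintype.card_pi]
    simp only [ZMod.card, Finset.prod_const, Finset.card_univ, Fintype.card_fin]
    push_cast
    ring

theorem DlF_top (k : ℕ) (F : ZMod M → ℂ) (hF : Bd F) : ∃ c : Fin k → ZMod M → (Fin k → ZMod M) → ℂ,
    (∀ i x h, ‖c i x h‖ ≤ 1) ∧ (∀ i x (h h' : Fin k → ZMod M), (∀ j, j ≠ i → h j = h' j) → c i x h = c i x h') ∧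
    ∀ h x, DlF k h F x = cj k (F (x + ∑ i, h i)) * ∏ i, c i x h := by
  induction k with
  | zero =>
    refine ⟨fun i => i.elim0, fun i => i.elim0, fun i => i.elim0, ?_⟩
    intro h x
    rw [Finset.univ_eq_empty, Finset.sum_empty, Finset.prod_empty, mul_one, add_zero]
    unfold cj
    rw [if_pos Even.zero]
    rfl
  | succ k ih =>
    obtain ⟨c', h1, h2, h3⟩ := ih
    refine ⟨fun i x h => Fin.cases (motive := fun _ => ℂ) (DlF k (Fin.tail h) F x)
      (fun i' => (starRingEnd ℂ) (c' i' (x + h 0) (Fin.tail h))) i, ?_, ?_, ?_⟩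
    · intro i x h
      refine Fin.cases ?_ (fun i' => ?_) i
      · exact DlF_Bd k (Fin.tail h) F hF x
      · simp only [Fin.cases_succ]
        rw [RCLike.norm_conj]
        exact h1 _ _ _
    · intro i x h h' hh
      revert hh
      refine Fin.cases ?_ (fun i' => ?_) i
      · intro hh
        simp only [Fin.cases_zero]
        have h5 : Fin.tail h = Fin.tail h' := by
          funext j
          exact hh j.succ (Fin.succ_ne_zero j)
        rw [h5]
      · intro hh
        simp only [Fin.cases_succ]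
        have h0 : h 0 = h' 0 := hh 0 (Fin.succ_ne_zero i').symm
        rw [h0, h2 i' (x + h' 0) (Fin.tail h) (Fin.tail h') (fun j hj => hh j.succ (fun h6 => hj
          (Fin.succ_injective _ h6)))]
    · intro h x
      rw [Fin.prod_univ_succ]
      simp only [Fin.cases_zero, Fin.cases_succ]
      change DlF k (Fin.tail h) F x * (starRingEnd ℂ) (DlF k (Fin.tail h) F (x + h 0)) = _
      rw [h3 (Fin.tail h) (x + h 0), map_mul, map_prod]
      have h4 : (starRingEnd ℂ) (cj k (F (x + h 0 + ∑ i, Fin.tail h i))) = cj (k + 1) (F (x + ∑ i, h i)) := by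
        rw [Fin.sum_univ_succ, ← add_assoc]
        change (starRingEnd ℂ) (cj k (F (x + h 0 + ∑ i : Fin k, h i.succ))) = _
        unfold cj
        by_cases hk : Even k
        · rw [if_pos hk, if_neg (by rw [Nat.even_add_one]; exact not_not.mpr hk)]
        · rw [if_neg hk, if_pos (Nat.even_add_one.mpr hk), Complex.conj_conj]
      rw [h4]
      ring

theorem cj_ev {ι : Type} (s : Finset ι) (k : ℕ) (φ : ι → ℂ) : cj k (ev s φ) = ev s (fun t => cj k (φ t)) := by
  unfold cj
  split_ifs
  · rfl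
  · rw [ev_conj]

theorem norm_cj (k : ℕ) (z : ℂ) : ‖cj k z‖ = ‖z‖ := by
  unfold cj
  split_ifs
  · rfl
  · rw [RCLike.norm_conj]

end Pool.Agent.NLG
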