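import Pool.Agent.Lib.NLG.DlC
import Pool.Agent.Lib.NLG.BxE

/-!
# Module DlB: degree lowering, one step

`F = ev T φ` (average of the functions `φ t`), `k ≥ 1`. HYPOTHESES: for `R ≤ R' ≤ R ^ C2` a set `S R'` of at most `R' ^ C1` frequencies contains every `ξ` with
`|E_t E_x chi (-ξ) x ∏_(i ∈ I) φ t (x + y i) conj φ t (x + y' i)| ≥ 1 / R'` for some finite family of shifts. CLAIM: `UU (k + 2) F ≥ 1 / R` implies
`UU (k + 1) F ≥ R ^ (-C)`.
PROOF. 1. `UU (k + 2) F = E_h UU 2 (DlF k h F)` (`UU_add`), `UU 2 g = ∑ ‖ft g ξ‖ ^ 4 ≤ max_ξ ‖ft g ξ‖ ^ 2` (`UU_two`, `sum_ft_sq_le_one`). Let `ξ (h)` maximise. Let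
`S0 = {h : ‖ft (DlF k h F) (ξ h)‖ ^ 2 ≥ 1 / (2 R)}`; `E_h 1_S0 ‖ft (DlF k h F) (ξ h)‖ ≥ E_h 1_S0 ‖..‖ ^ 2 ≥ 1 / (2 R)`. Choose `β (h)` of modulus `1` on `S0`, `0` outside, with
`E_h β (h) ft (DlF k h F) (ξ h) ≥ 1 / (2 R)`.
2. `ft (DlF k h F) ξ = E_x chi (-ξ) x cj k (F (x + ∑ h)) ∏_i c i x h` (`DlF_top`) `= E_t E_x chi (-ξ) x cj k (φ t (x + ∑ h)) ∏_i c i x h` (`cj_ev`). `bcs` with `P = T ×ˢ univ`
(variables `t`, `x`), `S = univ`, `Φ (t, x) h = β (h) chi (-ξ h) x cj k (φ t (x + ∑ h))`, `b i = c i x`; `mv_eq`: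
`(2 R) ^ (-2 ^ k) ≤ ‖ev_(t, x) bx univ k (Φ (t, x))‖`. By `bx_eq`, exchanging averages, this is at most `E_h E_h' ‖E_t E_x ∏_ω cj (wt ω) Φ (t, x) (mixw ω h h')‖`. The
product is (a number bounded by one, and `0` unless `h ∈ S0`: vertex `ω = 0`) times `chi (-Ξ (h, h')) x`, `Ξ (h, h') = ∑_ω (-1) ^ (wt ω) ξ (mixw ω h h')`, times
`∏_ω cj (wt ω) cj k φ t (x + ∑ mixw ω h h')`, which by `prod_even_odd` is a product over `I = {ω // Even (wt ω)}` of `φ t (x + y) conj φ t (x + y')` (for odd `k` the roles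
of `y`, `y'` are exchanged).
3. With `ρ = (2 R) ^ (-2 ^ k)`: for at least `ρ / 2` of the pairs `(h, h')`: `h ∈ S0` and `‖..‖ ≥ ρ / 2`, so `Ξ (h, h') ∈ S (R')`, `R' = 2 (2 R) ^ (2 ^ k)`. Some `h'` has at least
`ρ / 2` of the `h`, some value `s` of `Ξ` at least `ρ / (2 R' ^ C1)`: set `HH`. For `ω ≠ 0` let `i (ω)` be the first `i` with `ω i`; `mixw ω h h'` does not depend on `h (i (ω))`. So
`ξ (h) = ∑_i ψ i (h)` on `HH ⊆ S0`, `ψ i` independent of `h i` (put `s` into `ψ 0`).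
4. `ρ / (2 R' ^ C1) · 1 / (2 R) ≤ E_h ‖ft (DlF k h F) (∑ ψ i h)‖ ^ 2 = E_u E_h ∏_i chi (ψ i h) u · av (Dl u (DlF k h F))` (`|ft g ξ| ^ 2 = E_u chi ξ u av (Dl u g)`,
`av_Dl`), `Dl u (DlF k h F) = DlF k h (Dl u F)`; `claimk`: `≤ E_u (UU k (Dl u F)) ^ (1 / 2 ^ (k - 1))`. So (Jensen) `UU (k + 1) F = E_u UU k (Dl u F) ≥ (..) ^ (2 ^ (k - 1))`.
-/

set_option autoImplicit false

open Finset

namespace Pool.Agent.NLG

open Pool.Agent.HLT Pool.Agent.NLT

namespace DlBAux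

lemma exists_phase {α : Type} (s : Finset α) (hs : s.Nonempty) (z : α → ℂ) (δ : ℝ) (hδ : 0 < δ)
    (hz : ∀ a, ‖z a‖ ≤ 1) (h : δ ≤ evr s (fun a => ‖z a‖ ^ 2)) :
    ∃ β : α → ℂ, (∀ a, ‖β a‖ ≤ 1) ∧ (∀ a, β a ≠ 0 → δ / 2 ≤ ‖z a‖ ^ 2) ∧
      δ / 2 ≤ ‖ev s (fun a => β a * z a)‖ := by
  classical
  refine ⟨fun a => if δ / 2 ≤ ‖z a‖ ^ 2 then (starRingEnd ℂ) (z a) / ((‖z a‖ : ℝ) : ℂ) else 0, ?_, ?_, ?_⟩
  · intro a
    dsimp only
    split_ifs
    · rw [norm_div, RCLike.norm_conj, Complex.norm_real, norm_norm]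
      exact div_self_le_one _
    · rw [norm_zero]
      exact zero_le_one
  · intro a ha
    by_contra hcon
    exact ha (if_neg hcon)
  · set w : α → ℝ := fun a => if δ / 2 ≤ ‖z a‖ ^ 2 then ‖z a‖ else 0 with hw
    have h1 : ev s (fun a => (if δ / 2 ≤ ‖z a‖ ^ 2 then (starRingEnd ℂ) (z a) / ((‖z a‖ : ℝ) : ℂ) else 0) * z a) =
        ((evr s w : ℝ) : ℂ) := by
      rw [← ev_ofReal]
      refine ev_congr fun a _ => ?_
      rw [hw]
      dsimp only
      split_ifs with h2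
      · have h3 : ‖z a‖ ≠ 0 := by
          intro h4
          rw [h4] at h2
          norm_num at h2
          linarith
        have h3C : ((‖z a‖ : ℝ) : ℂ) ≠ 0 := by exact_mod_cast h3
        rw [div_mul_eq_mul_div, div_eq_iff h3C, mul_comm, Complex.mul_conj, Complex.normSq_eq_norm_sq]
        push_cast
        ring
      · rw [zero_mul, Complex.ofReal_zero]
    have hw0 : ∀ a ∈ s, 0 ≤ w a := by
      intro a _
      rw [hw]
      dsimp only
      split_ifs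
      · exact norm_nonneg _
      · exact le_refl _
    rw [h1, Complex.norm_real, Real.norm_of_nonneg (evr_nonneg s hw0)]
    have h5 : evr s (fun a => ‖z a‖ ^ 2) ≤ evr s (fun a => w a + δ / 2) := by
      refine evr_mono s fun a _ => ?_
      rw [hw]
      dsimp only
      split_ifs with h2
      · have := hz a
        nlinarith [norm_nonneg (z a)]
      · linarith [not_le.mp h2]
    rw [evr_add, evr_const hs] at h5
    linarith

lemma exists_evr_le {β : Type} (B : Finset β) (f : β → ℝ) (c : ℝ) (hc : 0 < c) (h : c ≤ evr B f) :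
    ∃ y ∈ B, c ≤ f y := by
  by_contra hcon
  push Not at hcon
  rcases B.eq_empty_or_nonempty with rfl | hB
  · unfold evr at h
    simp at h
    linarith
  · have h1 : evr B f < c := by
      have h2 : ∑ y ∈ B, f y < ∑ _y ∈ B, c := Finset.sum_lt_sum_of_nonempty hB hcon
      have h3 : (0 : ℝ) < B.card := by exact_mod_cast Finset.card_pos.mpr hB
      unfold evr
      rw [div_lt_iff₀ h3]
      rw [Finset.sum_const, nsmul_eq_mul] at h2
      linarith
    linarith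

open Classical in
lemma popular_fibre {α β γ : Type} (A : Finset α) (B : Finset β) (a : α → β → ℝ) (ρ K : ℝ) (hρ : 0 < ρ)
    (ha : ∀ x y, a x y ≤ 1) (h : ρ ≤ evr A (fun x => evr B (fun y => a x y))) (S0 : α → Prop) (Ξ : α → β → γ)
    (S : Finset γ) (hS : ∀ x y, ρ / 2 ≤ a x y → S0 x ∧ Ξ x y ∈ S) (hK : (S.card : ℝ) ≤ K) :
    ∃ y, ∃ s, ρ / 2 / K ≤ evr A (fun x => if S0 x ∧ Ξ x y = s then (1 : ℝ) else 0) := by
  have h1 : 1 * (ρ / 2) ≤ evr (A ×ˢ B) (fun p => if S0 p.1 ∧ Ξ p.1 p.2 ∈ S then (1 : ℝ) else 0) := by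
    refine evr_pos (A ×ˢ B) (fun p => a p.1 p.2) _ ρ 1 (fun p _ => ha _ _) (fun p _ => ?_) hρ.le zero_le_one ?_ ?_
    · split_ifs
      · exact zero_le_one
      · exact le_refl _
    · rw [evr_prod]
      exact h
    · intro p _ hp
      rw [if_pos (hS _ _ hp)]
  rw [one_mul, evr_prod, evr_comm] at h1
  obtain ⟨y, _, hy⟩ := exists_evr_le B _ (ρ / 2) (by positivity) h1
  refine ⟨y, ?_⟩
  have h2 : evr A (fun x => if S0 x ∧ Ξ x y ∈ S then (1 : ℝ) else 0) =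
      ∑ s ∈ S, evr A (fun x => if S0 x ∧ Ξ x y = s then (1 : ℝ) else 0) := by
    unfold evr
    rw [← Finset.sum_div, Finset.sum_comm]
    congr 1
    refine Finset.sum_congr rfl fun x _ => ?_
    by_cases h3 : S0 x
    · simp [h3]
    · simp [h3]
  dsimp only at hy
  rw [h2] at hy
  by_contra hcon
  push Not at hcon
  rcases S.eq_empty_or_nonempty with rfl | hne
  · simp at hy
    linarith
  · have hK0 : 0 < K := lt_of_lt_of_le (by exact_mod_cast Finset.card_pos.mpr hne) hK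
    have h4 : ∑ s ∈ S, evr A (fun x => if S0 x ∧ Ξ x y = s then (1 : ℝ) else 0) < ∑ _s ∈ S, ρ / 2 / K :=
      Finset.sum_lt_sum_of_nonempty hne (fun s _ => hcon s)
    rw [Finset.sum_const, nsmul_eq_mul] at h4
    have h5 : (S.card : ℝ) * (ρ / 2 / K) ≤ K * (ρ / 2 / K) := mul_le_mul_of_nonneg_right hK (by positivity)
    rw [mul_div_cancel₀ _ hK0.ne'] at h5
    linarith

variable {M : ℕ} [NeZero M]

lemma cj_chi (n : ℕ) (ζ x : ZMod M) : cj n (chi ζ x) = chi ((-1) ^ n * ζ) x := by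
  unfold cj
  split_ifs with h
  · rw [h.neg_one_pow, one_mul]
  · rw [(Nat.not_even_iff_odd.mp h).neg_one_pow, neg_one_mul, chi_neg_left]

lemma chi_sum {ι : Type} (s : Finset ι) (ψ : ι → ZMod M) (x : ZMod M) :
    chi (∑ i ∈ s, ψ i) x = ∏ i ∈ s, chi (ψ i) x := by
  classical
  induction s using Finset.induction_on with
  | empty => rw [sum_empty, prod_empty, chi_zero_left]
  | insert a s ha ih => rw [sum_insert ha, prod_insert ha, chi_add_left, ih]

omit [NeZero M] in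
lemma ev_Bd {ι : Type} (T : Finset ι) (φ : ι → ZMod M → ℂ) (hφ : ∀ t, Bd (φ t)) :
    Bd (fun x => ev T (fun t => φ t x)) := fun x => norm_ev_le_one T fun t _ => hφ t x

/-- Step 1. -/
lemma step1 (k : ℕ) (F : ZMod M → ℂ) (hF : Bd F) (c : ℝ) (h : c ≤ UU (k + 2) F) :
    ∃ ξ : (Fin k → ZMod M) → ZMod M,
      c ≤ evr (univ : Finset (Fin k → ZMod M)) (fun h => ‖ft (DlF k h F) (ξ h)‖ ^ 2) := by
  have h1 : ∀ h : Fin k → ZMod M, ∃ ξ : ZMod M, U2 (DlF k h F) ≤ ‖ft (DlF k h F) ξ‖ ^ 2 :=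
    fun h => exists_U2_le (DlF_Bd k h F hF)
  choose ξ hξ using h1
  refine ⟨ξ, h.trans ?_⟩
  rw [UU_add k 2 F]
  refine evr_mono _ fun h _ => ?_
  rw [UU_two]
  exact hξ h

/-- Step 2. -/
lemma step2 (k : ℕ) {ι : Type} (T : Finset ι) (φ : ι → ZMod M → ℂ) (hφ : ∀ t, Bd (φ t))
    (ξ : (Fin k → ZMod M) → ZMod M) (β : (Fin k → ZMod M) → ℂ) :
    ‖ev (univ : Finset (Fin k → ZMod M)) (fun h => β h * ft (DlF k h (fun x => ev T (fun t => φ t x))) (ξ h))‖ ^ (2 ^ k) ≤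
      evr (univ : Finset (Fin k → ZMod M)) (fun h => evr (univ : Finset (Fin k → ZMod M)) (fun h' =>
        ‖ev T (fun t => av (fun x => ∏ ω : Fin k → Bool, cj (wt ω) (β (mixw ω h h') *
          chi (-(ξ (mixw ω h h'))) x * cj k (φ t (x + ∑ i, mixw ω h h' i)))))‖)) := by
  obtain ⟨c, hc1, hc2, hc3⟩ := DlF_top k (fun x => ev T (fun t => φ t x)) (ev_Bd T φ hφ)
  set Φ : ι × ZMod M → (Fin k → ZMod M) → ℂ := fun p h =>
    β h * chi (-(ξ h)) p.2 * cj k (φ p.1 (p.2 + ∑ i, h i)) with hΦ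
  have h1 : ∀ h : Fin k → ZMod M, β h * ft (DlF k h (fun x => ev T (fun t => φ t x))) (ξ h) =
      ev T (fun t => av (fun x => Φ (t, x) h * ∏ i, c i x h)) := by
    intro h
    rw [ev_av_comm]
    unfold ft
    rw [← av_mul_left]
    congr 1
    funext x
    rw [hc3 h x, cj_ev, hΦ]
    dsimp only
    have e1 : ∀ t, β h * chi (-(ξ h)) x * cj k (φ t (x + ∑ i, h i)) * ∏ i, c i x h =
        cj k (φ t (x + ∑ i, h i)) * (β h * chi (-(ξ h)) x * ∏ i, c i x h) := fun t => by ring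
    simp only [e1]
    rw [ev_mul_right]
    ring
  have h2 : ev (univ : Finset (Fin k → ZMod M)) (fun h => β h * ft (DlF k h (fun x => ev T (fun t => φ t x))) (ξ h)) =
      ev (T ×ˢ (univ : Finset (ZMod M))) (fun p => mv univ k (fun h => Φ p h * ∏ i, c i p.2 h)) := by
    rw [ev_prod]
    simp only [h1, mv_eq, Fintype.piFinset_univ]
    rw [ev_comm]
    refine ev_congr fun t _ => ?_
    rw [ev_av_comm, av_eq_ev]
  rw [h2]
  refine (bcs (T ×ˢ (univ : Finset (ZMod M))) (univ : Finset (ZMod M)) k Φ (fun i p h => c i p.2 h)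
    (fun i p m => hc1 i p.2 m) (fun i p m m' hm => hc2 i p.2 m m' hm)).trans ?_
  have h3 : ev (T ×ˢ (univ : Finset (ZMod M))) (fun p => bx univ k (Φ p)) =
      ev (univ : Finset (Fin k → ZMod M)) (fun h => ev (univ : Finset (Fin k → ZMod M)) (fun h' =>
        ev T (fun t => av (fun x => ∏ ω : Fin k → Bool, cj (wt ω) (Φ (t, x) (mixw ω h h')))))) := by
    simp only [bx_eq, Fintype.piFinset_univ]
    rw [ev_comm]
    refine ev_congr fun h _ => ?_
    rw [ev_comm]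
    refine ev_congr fun h' _ => ?_
    rw [ev_prod]
    refine ev_congr fun t _ => ?_
    rw [av_eq_ev]
  rw [h3]
  exact (norm_ev_le _ _).trans (evr_mono _ fun h _ => norm_ev_le _ _)

omit [NeZero M] in
lemma mixw_false {k : ℕ} (h h' : Fin k → ZMod M) : mixw (fun _ => false) h h' = h := by
  funext i
  exact if_neg Bool.false_ne_true

lemma wt_false {k : ℕ} : wt (fun _ : Fin k => false) = 0 := by
  unfold wt
  rw [Finset.card_eq_zero, Finset.filter_eq_empty_iff]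
  intro i _ h
  exact Bool.false_ne_true h

/-- Product over the vertices. -/
lemma step2b (n : ℕ) {ι : Type} (φ : ι → ZMod M → ℂ) (ξ : (Fin (n + 1) → ZMod M) → ZMod M)
    (β : (Fin (n + 1) → ZMod M) → ℂ) (h h' : Fin (n + 1) → ZMod M) :
    ∃ y y' : {ω : Fin (n + 1) → Bool // Even (wt ω)} → ZMod M, ∀ (t : ι) (x : ZMod M),
      ∏ ω : Fin (n + 1) → Bool, cj (wt ω) (β (mixw ω h h') *
          chi (-(ξ (mixw ω h h'))) x * cj (n + 1) (φ t (x + ∑ i, mixw ω h h' i))) =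
        (∏ ω : Fin (n + 1) → Bool, cj (wt ω) (β (mixw ω h h'))) *
          (chi (-(∑ ω : Fin (n + 1) → Bool, (-1) ^ (wt ω) * ξ (mixw ω h h'))) x *
          ∏ ω, (φ t (x + y ω) * (starRingEnd ℂ) (φ t (x + y' ω)))) := by
  have key : ∀ (t : ι) (x : ZMod M), ∏ ω : Fin (n + 1) → Bool, cj (wt ω) (β (mixw ω h h') *
          chi (-(ξ (mixw ω h h'))) x * cj (n + 1) (φ t (x + ∑ i, mixw ω h h' i))) =
        (∏ ω : Fin (n + 1) → Bool, cj (wt ω) (β (mixw ω h h'))) *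
          (chi (-(∑ ω : Fin (n + 1) → Bool, (-1) ^ (wt ω) * ξ (mixw ω h h'))) x *
          ∏ ω : {ω : Fin (n + 1) → Bool // Even (wt ω)},
            (cj (n + 1) (φ t (x + ∑ i, mixw ω.1 h h' i)) *
              (starRingEnd ℂ) (cj (n + 1) (φ t (x + ∑ i, mixw (flip0 ω.1) h h' i))))) := by
    intro t x
    simp only [cj_mul, Finset.prod_mul_distrib, cj_chi]
    rw [← chi_sum, mul_assoc]
    congr 2
    · congr 1
      rw [← Finset.sum_neg_distrib]
      refine Finset.sum_congr rfl fun ω _ => ?_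
      ring
    · rw [← Finset.prod_mul_distrib, prod_even_odd]
      refine Finset.prod_congr rfl fun ω _ => ?_
      congr 1
      · have h1 : ∀ z : ℂ, cj (wt ω.1) z = z := fun z => by
          unfold cj
          rw [if_pos ω.2]
        rw [h1]
      · have h1 : ∀ z : ℂ, cj (wt (flip0 ω.1)) z = (starRingEnd ℂ) z := fun z => by
          unfold cj
          rw [if_neg (wt_flip0 ω.1 ω.2)]
        rw [h1]
  by_cases hn : Even (n + 1)
  · refine ⟨fun ω => ∑ i, mixw ω.1 h h' i, fun ω => ∑ i, mixw (flip0 ω.1) h h' i, fun t x => ?_⟩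
    rw [key]
    have h1 : ∀ z : ℂ, cj (n + 1) z = z := fun z => by
      unfold cj
      rw [if_pos hn]
    simp only [h1]
  · refine ⟨fun ω => ∑ i, mixw (flip0 ω.1) h h' i, fun ω => ∑ i, mixw ω.1 h h' i, fun t x => ?_⟩
    rw [key]
    have h1 : ∀ z : ℂ, cj (n + 1) z = (starRingEnd ℂ) z := fun z => by
      unfold cj
      rw [if_neg hn]
    simp only [h1, Complex.conj_conj]
    congr 2
    refine Finset.prod_congr rfl fun ω _ => ?_
    rw [mul_comm]

omit [NeZero M] in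
/-- Decomposition of the frequency. -/
lemma exists_psi (n : ℕ) (ξ : (Fin (n + 1) → ZMod M) → ZMod M) (h' : Fin (n + 1) → ZMod M) (s : ZMod M) :
    ∃ ψ : Fin (n + 1) → (Fin (n + 1) → ZMod M) → ZMod M,
      (∀ i (h h1 : Fin (n + 1) → ZMod M), (∀ j, j ≠ i → h j = h1 j) → ψ i h = ψ i h1) ∧
      ∀ h, ∑ ω : Fin (n + 1) → Bool, (-1) ^ (wt ω) * ξ (mixw ω h h') = s → ξ h = ∑ i, ψ i h := by
  classical
  have hex : ∃ fi : (Fin (n + 1) → Bool) → Fin (n + 1), ∀ ω : Fin (n + 1) → Bool, (∃ j, ω j = true) → ω (fi ω) = true := by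
    have h1 : ∀ ω : Fin (n + 1) → Bool, ∃ i, (∃ j, ω j = true) → ω i = true := by
      intro ω
      by_cases h2 : ∃ j, ω j = true
      · obtain ⟨j, hj⟩ := h2
        exact ⟨j, fun _ => hj⟩
      · exact ⟨0, fun h3 => absurd h3 h2⟩
    choose fi hfi using h1
    exact ⟨fi, hfi⟩
  obtain ⟨fi, hfi⟩ := hex
  refine ⟨fun i h => (∑ ω ∈ (univ.filter (fun ω : Fin (n + 1) → Bool => ∃ j, ω j = true)).filter (fun ω => fi ω = i),
    -((-1) ^ (wt ω) * ξ (mixw ω h h'))) + (if i = 0 then s else 0), ?_, ?_⟩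
  · intro i h h1 hh
    dsimp only
    congr 1
    refine Finset.sum_congr rfl fun ω hω => ?_
    rw [Finset.mem_filter, Finset.mem_filter] at hω
    have h2 : ω i = true := by
      have := hfi ω hω.1.2
      rw [hω.2] at this
      exact this
    have h3 : mixw ω h h' = mixw ω h1 h' := by
      funext j
      unfold mixw
      by_cases hj : j = i
      · rw [hj, if_pos h2, if_pos h2]
      · rw [hh j hj]
    rw [h3]
  · intro h hs
    rw [Finset.sum_add_distrib, Finset.sum_ite_eq', if_pos (mem_univ _),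
      Finset.sum_fiberwise (univ.filter (fun ω : Fin (n + 1) → Bool => ∃ j, ω j = true)) fi
        (fun ω => -((-1) ^ (wt ω) * ξ (mixw ω h h')))]
    have h1 : ∑ ω : Fin (n + 1) → Bool, (-1) ^ (wt ω) * ξ (mixw ω h h') =
        ∑ ω ∈ univ.filter (fun ω : Fin (n + 1) → Bool => ∃ j, ω j = true), (-1) ^ (wt ω) * ξ (mixw ω h h') +
        ∑ ω ∈ univ.filter (fun ω : Fin (n + 1) → Bool => ¬ ∃ j, ω j = true), (-1) ^ (wt ω) * ξ (mixw ω h h') :=
      (Finset.sum_filter_add_sum_filter_not univ _ _).symm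
    have h2 : univ.filter (fun ω : Fin (n + 1) → Bool => ¬ ∃ j, ω j = true) = {fun _ => false} := by
      ext ω
      rw [Finset.mem_filter, Finset.mem_singleton]
      constructor
      · rintro ⟨_, h3⟩
        funext j
        by_contra h4
        exact h3 ⟨j, Bool.eq_true_of_not_eq_false h4⟩
      · rintro rfl
        refine ⟨mem_univ _, ?_⟩
        rintro ⟨j, hj⟩
        exact Bool.false_ne_true hj
    rw [h2, Finset.sum_singleton, mixw_false, wt_false, pow_zero, one_mul, hs] at h1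
    rw [Finset.sum_neg_distrib, h1]
    ring

/-- Step 4. -/
lemma step4 (k : ℕ) (hk : 1 ≤ k) (F : ZMod M → ℂ) (hF : Bd F) (ψ : Fin k → (Fin k → ZMod M) → ZMod M)
    (hψ : ∀ i (h h1 : Fin k → ZMod M), (∀ j, j ≠ i → h j = h1 j) → ψ i h = ψ i h1) :
    (evr (univ : Finset (Fin k → ZMod M)) (fun h => ‖ft (DlF k h F) (∑ i, ψ i h)‖ ^ 2)) ^ (2 ^ (k - 1)) ≤
      UU (k + 1) F := by
  have h1 : ((evr (univ : Finset (Fin k → ZMod M)) (fun h => ‖ft (DlF k h F) (∑ i, ψ i h)‖ ^ 2) : ℝ) : ℂ) =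
      av (fun u => ev (univ : Finset (Fin k → ZMod M)) (fun h => (∏ i, chi (ψ i h) u) * av (DlF k h (Dl u F)))) := by
    rw [← ev_ofReal, ← ev_av_comm]
    refine ev_congr fun h _ => ?_
    rw [norm_ft_sq]
    congr 1
    funext u
    rw [chi_sum, DlF_comm]
  have h0 : 0 ≤ evr (univ : Finset (Fin k → ZMod M)) (fun h => ‖ft (DlF k h F) (∑ i, ψ i h)‖ ^ 2) :=
    evr_nonneg _ fun h _ => by positivity
  have h2 : evr (univ : Finset (Fin k → ZMod M)) (fun h => ‖ft (DlF k h F) (∑ i, ψ i h)‖ ^ 2) ≤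
      avr (fun u => ‖ev (univ : Finset (Fin k → ZMod M)) (fun h => (∏ i, chi (ψ i h) u) * av (DlF k h (Dl u F)))‖) := by
    have h3 := congrArg (fun z : ℂ => ‖z‖) h1
    rw [Complex.norm_real, Real.norm_of_nonneg h0] at h3
    rw [h3]
    exact norm_av_le _
  refine (pow_le_pow_left₀ h0 h2 _).trans ?_
  refine (DlCAux.avr_pow_le (fun _ => norm_nonneg _) _ Nat.one_le_two_pow).trans ?_
  rw [UU_succ]
  refine avr_mono fun u => ?_
  exact claimk k hk (Dl u F) (Dl_Bd u hF) (fun i h => chi (ψ i h) u) (fun i h => (norm_chi _ _).le)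
    (fun i h h1 hh => by rw [hψ i h h1 hh])

end DlBAux

open DlBAux in

theorem dl_step (k : ℕ) (hk : 1 ≤ k) (C1 : ℕ) : ∃ C2 C : ℕ, ∀ (M : ℕ) [NeZero M] (R : ℕ), 2 ≤ R →
    ∀ (ι : Type) (T : Finset ι) (φ : ι → ZMod M → ℂ), T.Nonempty → (∀ t, Bd (φ t)) → ∀ S : ℕ → Finset (ZMod M),
    (∀ R' : ℕ, R ≤ R' → R' ≤ R ^ C2 → ((S R').card : ℝ) ≤ (R' : ℝ) ^ C1) →
    (∀ R' : ℕ, R ≤ R' → R' ≤ R ^ C2 → ∀ (I : Type) [Fintype I] (y y' : I → ZMod M) (ξ : ZMod M),
      1 / (R' : ℝ) ≤ ‖ev T (fun t => av (fun x => chi (-ξ) x *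
        ∏ i, (φ t (x + y i) * (starRingEnd ℂ) (φ t (x + y' i)))))‖ → ξ ∈ S R') →
    1 / (R : ℝ) ≤ UU (k + 2) (fun x => ev T (fun t => φ t x)) →
    1 / (R : ℝ) ^ C ≤ UU (k + 1) (fun x => ev T (fun t => φ t x)) := by
  classical
  obtain ⟨n, rfl⟩ : ∃ n, k = n + 1 := ⟨k - 1, by omega⟩
  refine ⟨2 ^ (n + 2) + 1, (2 + (2 ^ (n + 2) + 1) * (C1 + 1)) * 2 ^ n, ?_⟩
  intro M _ R hR ι T φ hT hφ S hcard hS hU
  set F : ZMod M → ℂ := fun x => ev T (fun t => φ t x) with hF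
  have hFB : Bd F := ev_Bd T φ hφ
  have hR0 : (0 : ℝ) < (R : ℝ) := by
    have : (0 : ℕ) < R := by omega
    exact_mod_cast this
  have hR2 : (2 : ℝ) ≤ (R : ℝ) := by exact_mod_cast hR
  -- the size
  set R' : ℕ := 2 * (2 * R) ^ (2 ^ (n + 1)) with hR'
  have hR'1 : R ≤ R' := by
    rw [hR']
    have h1 : 2 * R ≤ (2 * R) ^ (2 ^ (n + 1)) := Nat.le_self_pow (by positivity) _
    omega
  have hR'2 : R' ≤ R ^ (2 ^ (n + 2) + 1) := by
    have h1 : (2 * R) ^ (2 ^ (n + 1)) ≤ R ^ (2 ^ (n + 2)) := by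
      calc (2 * R) ^ (2 ^ (n + 1)) ≤ (R ^ 2) ^ (2 ^ (n + 1)) := by
            refine Nat.pow_le_pow_left ?_ _
            nlinarith
        _ = R ^ (2 ^ (n + 2)) := by
            rw [← pow_mul]
            congr 1
            ring
    calc R' = 2 * (2 * R) ^ (2 ^ (n + 1)) := hR'
      _ ≤ R * R ^ (2 ^ (n + 2)) := Nat.mul_le_mul hR h1
      _ = R ^ (2 ^ (n + 2) + 1) := by rw [pow_succ (R) (2 ^ (n + 2)), mul_comm]
  have hR'0 : (0 : ℝ) < (R' : ℝ) := lt_of_lt_of_le hR0 (by exact_mod_cast hR'1)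
  -- step 1
  obtain ⟨ξ, hξ⟩ := step1 (n + 1) F hFB _ hU
  obtain ⟨β, hβ1, hβ2, hβ3⟩ := exists_phase (univ : Finset (Fin (n + 1) → ZMod M)) ⟨0, mem_univ _⟩
    (fun h => ft (DlF (n + 1) h F) (ξ h)) (1 / (R : ℝ)) (by positivity)
    (fun h => norm_ft_le_one (DlF_Bd (n + 1) h F hFB) (ξ h)) hξ
  -- step 2
  have h2 := (pow_le_pow_left₀ (by positivity) hβ3 (2 ^ (n + 1))).trans (step2 (n + 1) T φ hφ ξ β)
  set ρ : ℝ := (1 / (R : ℝ) / 2) ^ (2 ^ (n + 1)) with hρ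
  have hρ0 : 0 < ρ := by positivity
  have hρR : ρ / 2 = 1 / (R' : ℝ) := by
    rw [hρ, hR']
    push_cast
    rw [div_div, div_pow, one_pow, div_div]
    congr 1
    rw [mul_comm (R : ℝ) 2]
    ring
  -- step 3
  obtain ⟨h', s, hs⟩ := popular_fibre (univ : Finset (Fin (n + 1) → ZMod M)) (univ : Finset (Fin (n + 1) → ZMod M))
    (fun h h' => ‖ev T (fun t => av (fun x => ∏ ω : Fin (n + 1) → Bool, cj (wt ω) (β (mixw ω h h') *
          chi (-(ξ (mixw ω h h'))) x * cj (n + 1) (φ t (x + ∑ i, mixw ω h h' i)))))‖) ρ ((R' : ℝ) ^ C1) hρ0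
    (by
      intro h h'
      refine norm_ev_le_one T fun t _ => norm_av_le_one fun x => ?_
      rw [norm_prod]
      refine Finset.prod_le_one (fun ω _ => norm_nonneg _) fun ω _ => ?_
      rw [norm_cj, norm_mul, norm_mul, norm_cj, norm_chi, mul_one]
      exact mul_le_one₀ (hβ1 _) (norm_nonneg _) (hφ _ _)) h2 (fun h => β h ≠ 0)
    (fun h h' => ∑ ω : Fin (n + 1) → Bool, (-1) ^ (wt ω) * ξ (mixw ω h h')) (S R')
    (by
      intro h h' hh
      obtain ⟨y, y', hy⟩ := step2b n φ ξ β h h'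
      simp only [hy] at hh
      simp only [av_mul_left, ev_mul_left] at hh
      rw [norm_mul] at hh
      have hB1 : ‖∏ ω : Fin (n + 1) → Bool, cj (wt ω) (β (mixw ω h h'))‖ ≤ 1 := by
        rw [norm_prod]
        refine Finset.prod_le_one (fun ω _ => norm_nonneg _) fun ω _ => ?_
        rw [norm_cj]
        exact hβ1 _
      constructor
      · intro h0
        have h3 : ∏ ω : Fin (n + 1) → Bool, cj (wt ω) (β (mixw ω h h')) = 0 := by
          refine Finset.prod_eq_zero (mem_univ (fun _ : Fin (n + 1) => false)) ?_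
          rw [mixw_false, h0, wt_false]
          unfold cj
          rw [if_pos Even.zero]
        rw [h3, norm_zero, zero_mul] at hh
        linarith
      · refine hS R' hR'1 hR'2 _ y y' _ ?_
        rw [← hρR]
        exact hh.trans (mul_le_of_le_one_left (norm_nonneg _) hB1))
    (hcard R' hR'1 hR'2)
  obtain ⟨ψ, hψ1, hψ2⟩ := exists_psi n ξ h' s
  have h4 := step4 (n + 1) (by omega) F hFB ψ hψ1
  rw [Nat.add_sub_cancel] at h4
  refine le_trans ?_ h4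
  have h5 : 1 / (R : ℝ) / 2 * (ρ / 2 / (R' : ℝ) ^ C1) ≤ evr (univ : Finset (Fin (n + 1) → ZMod M))
      (fun h => ‖ft (DlF (n + 1) h F) (∑ i, ψ i h)‖ ^ 2) := by
    refine (mul_le_mul_of_nonneg_left hs (by positivity)).trans ?_
    rw [← evr_mul_left]
    refine evr_mono _ fun h _ => ?_
    split_ifs with h6
    · rw [mul_one, ← hψ2 h h6.2]
      exact hβ2 h h6.1
    · rw [mul_zero]
      positivity
  refine le_trans ?_ (pow_le_pow_left₀ (by positivity) h5 (2 ^ n))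
  rw [pow_mul, ← one_div_pow]
  refine pow_le_pow_left₀ (by positivity) ?_ _
  rw [hρR]
  have h7 : 1 / (R : ℝ) / 2 * (1 / (R' : ℝ) / (R' : ℝ) ^ C1) = 1 / (2 * R * (R' : ℝ) ^ (C1 + 1)) := by
    rw [pow_succ]
    field_simp
  rw [h7]
  refine one_div_le_one_div_of_le (by positivity) ?_
  have h8 : (R' : ℝ) ^ (C1 + 1) ≤ (R : ℝ) ^ ((2 ^ (n + 2) + 1) * (C1 + 1)) := by
    rw [pow_mul]
    refine pow_le_pow_left₀ hR'0.le ?_ _
    exact_mod_cast hR'2
  calc 2 * (R : ℝ) * (R' : ℝ) ^ (C1 + 1) ≤ (R : ℝ) ^ 2 * (R : ℝ) ^ ((2 ^ (n + 2) + 1) * (C1 + 1)) := by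
        refine mul_le_mul ?_ h8 (by positivity) (by positivity)
        nlinarith
    _ = (R : ℝ) ^ (2 + (2 ^ (n + 2) + 1) * (C1 + 1)) := by
        rw [← pow_add]


end Pool.Agent.NLG
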