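import Pool.Agent.Lib.NLG.DlA

/-!
# Module DlC: box averages with lower order weights

CLAIM. `|E_h ∏_i b i h · av (DlF k h F)| ^ (2 ^ (k - 1)) ≤ UU k F`, `h : Fin k → ZMod M`, `b i` bounded and independent of `h i`.
PROOF by induction on `k ≥ 1`. `k = 1`: `b 0` is constant, `|b 0| |E_u av (Dl u F)| ≤ UU 1 F` (`E_u av (Dl u F) = ‖av F‖ ^ 2 = UU 1 F`).
`k → k + 1`: write `h = (a, h')` with `a = h 0`. The factor `b 0 (a, h') = β (h')` does not depend on `a`. `av (DlF (k + 1) (a, h') F) =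
av (G · conj G (· + a))`, `G = DlF k h' F`. So the left side is `E_h' β (h') E_a b~_a (h') E_x G (x) conj G (x + a)`, `b~_a (h') = ∏_(i ≥ 1) b i (a, h')`.
Cauchy-Schwarz in `h'`: `|..| ^ 2 ≤ E_h' |E_a b~_a (h') E_x G (x) conj G (x + a)| ^ 2 = E_(a, a', c) E_h' b~_a (h') conj b~_a' (h')
E_x G (x) conj G (x + a) conj G (x + c) G (x + c + a')` (the second average is over `x' = x + c`). For fixed `(a, a', c)` the function
`G (x) conj G (x + a) conj G (x + c) G (x + c + a')` is `DlF k h' F'` with `F' (x) = F (x) conj F (x + a) conj F (x + c) F (x + c + a')` (`DlF` is multiplicative and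
commutes with translations and conjugation). Induction hypothesis for `F'` and the weights `b i (a, ·) conj b i (a', ·)`, `i ≥ 1` (independent of `h' (i - 1)`), and
Jensen: `|..| ^ (2 ^ k) ≤ E_(a, a', c) UU k F'_(a, a', c) = E_(a, a', c) E_h' av (DlF k h' F')` (real part) `= E_h' E_x G (x) conj (av G) conj (av G) (av G) = E_h' |av G| ^ 4`
(`a`, `c`, `c + a'` are independent and uniform) `≤ E_h' |av (DlF k h' F)| ^ 2 = E_h' UU 1 (DlF k h' F) = UU (k + 1) F` (`UU_add`).
(`UU k F' = E_h' (av (DlF k h' F')).re` is `UU_add` with `K = 0`.)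
-/

set_option autoImplicit false

open Finset

namespace Pool.Agent.NLG

open Pool.Agent.HLT Pool.Agent.NLT

variable {M : ℕ} [NeZero M]

theorem DlF_mul (k : ℕ) (h : Fin k → ZMod M) (F G : ZMod M → ℂ) :
    DlF k h (fun x => F x * G x) = fun x => DlF k h F x * DlF k h G x := by
  induction k with
  | zero => rfl
  | succ k ih =>
    show Dl (h 0) (DlF k (Fin.tail h) (fun x => F x * G x)) = _
    rw [ih]
    funext x
    show _ = Dl (h 0) (DlF k (Fin.tail h) F) x * Dl (h 0) (DlF k (Fin.tail h) G) x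
    unfold Dl
    rw [map_mul]
    ring

theorem DlF_shift (k : ℕ) (h : Fin k → ZMod M) (F : ZMod M → ℂ) (y : ZMod M) :
    DlF k h (fun x => F (x + y)) = fun x => DlF k h F (x + y) := by
  induction k with
  | zero => rfl
  | succ k ih =>
    show Dl (h 0) (DlF k (Fin.tail h) (fun x => F (x + y))) = fun x => Dl (h 0) (DlF k (Fin.tail h) F) (x + y)
    rw [ih, Dl_shift]

theorem DlF_conj (k : ℕ) (h : Fin k → ZMod M) (F : ZMod M → ℂ) :
    DlF k h (fun x => (starRingEnd ℂ) (F x)) = fun x => (starRingEnd ℂ) (DlF k h F x) := by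
  induction k with
  | zero => rfl
  | succ k ih =>
    show Dl (h 0) (DlF k (Fin.tail h) (fun x => (starRingEnd ℂ) (F x))) =
      fun x => (starRingEnd ℂ) (Dl (h 0) (DlF k (Fin.tail h) F) x)
    rw [ih, Dl_conj]

namespace DlCAux

/-- Average over `Fin (k + 1) → ZMod M`. -/
lemma ev_cons (k : ℕ) (G : (Fin (k + 1) → ZMod M) → ℂ) :
    ev univ G = av (fun a => ev univ (fun h' : Fin k → ZMod M => G (Fin.cons a h' : Fin (k + 1) → ZMod M))) := by
  unfold ev av
  have h1 : ∑ h, G h = ∑ a : ZMod M, ∑ h' : Fin k → ZMod M, G (Fin.cons a h' : Fin (k + 1) → ZMod M) := by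
    rw [← Fintype.sum_prod_type']
    exact (Fintype.sum_equiv (Fin.consEquiv (fun _ : Fin (k + 1) => ZMod M)) _ _ (fun _ => rfl)).symm
  rw [h1, ← sum_div, div_div]
  congr 1
  rw [Finset.card_univ, Finset.card_univ, Fintype.card_fun, Fintype.card_fun, ZMod.card, Fintype.card_fin,
    Fintype.card_fin]
  push_cast
  ring

lemma re_av (f : ZMod M → ℂ) : (av f).re = avr (fun x => (f x).re) := by
  unfold av avr
  have h1 : (∑ x, f x) / (M : ℂ) = (∑ x, f x) / ((M : ℝ) : ℂ) := by norm_num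
  rw [h1, Complex.div_ofReal_re, Complex.re_sum]

lemma avr_pow_le {f : ZMod M → ℝ} (hf : ∀ x, 0 ≤ f x) (n : ℕ) (hn : 1 ≤ n) : avr f ^ n ≤ avr (fun x => f x ^ n) := by
  rw [avr_eq_evr, avr_eq_evr]
  exact evr_pow_le univ (fun x _ => hf x) n hn

/-- The product over the vertices. -/
noncomputable def qq (G : ZMod M → ℂ) (a a' c : ZMod M) : ZMod M → ℂ := fun x =>
  G x * (starRingEnd ℂ) (G (x + a)) * ((starRingEnd ℂ) (G (x + c)) * G (x + (c + a')))

lemma DlF_qq (k : ℕ) (h : Fin k → ZMod M) (F : ZMod M → ℂ) (a a' c : ZMod M) :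
    DlF k h (qq F a a' c) = qq (DlF k h F) a a' c := by
  have e1 : qq F a a' c = fun x => (fun x => F x * (starRingEnd ℂ) (F (x + a))) x *
      (fun x => (starRingEnd ℂ) (F (x + c)) * F (x + (c + a'))) x := rfl
  rw [e1, DlF_mul]
  funext x
  have e2 : DlF k h (fun x => F x * (starRingEnd ℂ) (F (x + a))) =
      fun x => DlF k h F x * (starRingEnd ℂ) (DlF k h F (x + a)) := by
    rw [DlF_mul k h F (fun x => (starRingEnd ℂ) (F (x + a))), DlF_shift k h (fun x => (starRingEnd ℂ) (F x)) a,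
      DlF_conj]
  have e3 : DlF k h (fun x => (starRingEnd ℂ) (F (x + c)) * F (x + (c + a'))) =
      fun x => (starRingEnd ℂ) (DlF k h F (x + c)) * DlF k h F (x + (c + a')) := by
    rw [DlF_mul k h (fun x => (starRingEnd ℂ) (F (x + c))) (fun x => F (x + (c + a'))),
      DlF_shift k h (fun x => (starRingEnd ℂ) (F x)) c, DlF_shift k h F (c + a'), DlF_conj]
  rw [e2, e3]
  rfl

lemma qq_Bd {F : ZMod M → ℂ} (hF : Bd F) (a a' c : ZMod M) : Bd (qq F a a' c) := by
  intro x
  unfold qq
  rw [norm_mul, norm_mul, norm_mul, RCLike.norm_conj, RCLike.norm_conj]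
  exact mul_le_one₀ (mul_le_one₀ (hF _) (norm_nonneg _) (hF _)) (by positivity)
    (mul_le_one₀ (hF _) (norm_nonneg _) (hF _))

lemma four (G : ZMod M → ℂ) (a a' : ZMod M) :
    av (Dl a G) * (starRingEnd ℂ) (av (Dl a' G)) = av (fun c => av (qq G a a' c)) := by
  rw [← av_conj, ← av_mul_right]
  have h1 : av (fun c => av (qq G a a' c)) = av (fun x => av (fun c => qq G a a' c x)) :=
    av_comm (fun c x => qq G a a' c x)
  rw [h1]
  congr 1
  funext x
  unfold qq
  rw [av_mul_left]
  have h2 : av (fun y => (starRingEnd ℂ) (Dl a' G y)) =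
      av (fun c => (starRingEnd ℂ) (G (x + c)) * G (x + (c + a'))) := by
    rw [← av_shift (fun y => (starRingEnd ℂ) (Dl a' G y)) x]
    congr 1
    funext c
    unfold Dl
    rw [map_mul, Complex.conj_conj, add_comm c x, add_assoc]
  rw [h2]
  rfl

lemma four_av (G : ZMod M → ℂ) :
    av (fun a => av (fun a' => av (fun c => av (qq G a a' c)))) = ((‖av G‖ ^ 4 : ℝ) : ℂ) := by
  simp only [← four]
  have h1 : ((‖av G‖ ^ 4 : ℝ) : ℂ) = ((‖av G‖ ^ 2 : ℝ) : ℂ) * (starRingEnd ℂ) ((‖av G‖ ^ 2 : ℝ) : ℂ) := by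
    rw [Complex.conj_ofReal]
    push_cast
    ring
  rw [h1, norm_av_sq, ← av_conj, ← av_mul_right]
  congr 1
  funext a
  rw [av_mul_left]

lemma UU_zero (F : ZMod M → ℂ) : UU 0 F = (av F).re := rfl

lemma UU_one (F : ZMod M → ℂ) : UU 1 F = ‖av F‖ ^ 2 := by
  unfold UU
  show (BB [un] F).re = _
  rw [BB_un_one, Complex.ofReal_re]

lemma av_sq (f : ZMod M → ℂ) :
    ((‖av f‖ ^ 2 : ℝ) : ℂ) = av (fun a => av (fun a' => f a * (starRingEnd ℂ) (f a'))) := by
  simp only [av_eq_ev]
  exact norm_ev_sq univ f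

/-- Upper bound by the averages over the cubes. -/
lemma cube_avg (n : ℕ) (F : ZMod M → ℂ) (hF : Bd F) :
    avr (fun a => avr (fun a' => avr (fun c => UU (n + 1) (qq F a a' c)))) ≤ UU (n + 2) F := by
  have h1 : ∀ a a' c, UU (n + 1) (qq F a a' c) =
      evr (univ : Finset (Fin (n + 1) → ZMod M)) (fun h => (av (qq (DlF (n + 1) h F) a a' c)).re) := by
    intro a a' c
    have h2 := UU_add (n + 1) 0 (qq F a a' c)
    rw [Nat.add_zero] at h2
    rw [h2]
    refine evr_congr fun h _ => ?_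
    rw [UU_zero, DlF_qq]
  have h3 : avr (fun a => avr (fun a' => avr (fun c => UU (n + 1) (qq F a a' c)))) =
      evr (univ : Finset (Fin (n + 1) → ZMod M)) (fun h => ‖av (DlF (n + 1) h F)‖ ^ 4) := by
    simp only [h1, ← evr_avr_comm]
    refine evr_congr fun h _ => ?_
    have h4 := congrArg Complex.re (four_av (DlF (n + 1) h F))
    rw [Complex.ofReal_re, re_av] at h4
    simp only [re_av] at h4 ⊢
    exact h4
  rw [h3, show n + 2 = (n + 1) + 1 from rfl, UU_add (n + 1) 1 F]
  refine evr_mono _ fun h _ => ?_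
  rw [UU_one]
  exact pow_le_pow_of_le_one (norm_nonneg _) (norm_av_le_one (DlF_Bd (n + 1) h F hF)) (by norm_num)

lemma norm_av3_le (f : ZMod M → ZMod M → ZMod M → ℂ) :
    ‖av (fun a => av (fun a' => av (fun c => f a a' c)))‖ ≤ avr (fun a => avr (fun a' => avr (fun c => ‖f a a' c‖))) :=
  (norm_av_le _).trans (avr_mono fun _ => (norm_av_le _).trans (avr_mono fun _ => norm_av_le _))

lemma avr3_pow_le (f : ZMod M → ZMod M → ZMod M → ℝ) (hf : ∀ a a' c, 0 ≤ f a a' c) (n : ℕ) (hn : 1 ≤ n) :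
    avr (fun a => avr (fun a' => avr (fun c => f a a' c))) ^ n ≤
      avr (fun a => avr (fun a' => avr (fun c => f a a' c ^ n))) :=
  (avr_pow_le (fun a => avr_nonneg fun a' => avr_nonneg fun c => hf a a' c) n hn).trans
    (avr_mono fun a => (avr_pow_le (fun a' => avr_nonneg fun c => hf a a' c) n hn).trans
      (avr_mono fun a' => avr_pow_le (fun c => hf a a' c) n hn))

end DlCAux

open DlCAux in
theorem claimk (k : ℕ) (hk : 1 ≤ k) (F : ZMod M → ℂ) (hF : Bd F) (b : Fin k → (Fin k → ZMod M) → ℂ)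
    (hb : ∀ i h, ‖b i h‖ ≤ 1) (hi : ∀ i (h h' : Fin k → ZMod M), (∀ j, j ≠ i → h j = h' j) → b i h = b i h') :
    ‖ev (univ : Finset (Fin k → ZMod M)) (fun h => (∏ i, b i h) * av (DlF k h F))‖ ^ (2 ^ (k - 1)) ≤ UU k F := by
  obtain ⟨n, rfl⟩ : ∃ n, k = n + 1 := ⟨k - 1, by omega⟩
  rw [Nat.add_sub_cancel]
  clear hk
  induction n generalizing F with
  | zero =>
    have h1 : ev (univ : Finset (Fin (0 + 1) → ZMod M)) (fun h => (∏ i, b i h) * av (DlF (0 + 1) h F)) =
        b 0 0 * ((‖av F‖ ^ 2 : ℝ) : ℂ) := by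
      have h2 : ∀ h : Fin (0 + 1) → ZMod M, (∏ i, b i h) * av (DlF (0 + 1) h F) = b 0 0 * av (Dl (h 0) F) := by
        intro h
        have h3 : ∏ i, b i h = b 0 0 := by
          rw [Fin.prod_univ_succ, Finset.univ_eq_empty, Finset.prod_empty, mul_one]
          refine hi 0 h 0 (fun j hj => ?_)
          exact absurd (Fin.ext (by have := j.isLt; simp only [Fin.val_zero]; omega)) hj
        rw [h3]
        rfl
      simp only [h2]
      rw [ev_mul_left, ev_cons, norm_av_sq]
      congr 2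
      funext a
      simp only [Fin.cons_zero]
      exact ev_const ⟨0, mem_univ _⟩ _
    rw [h1, Nat.pow_zero, pow_one, UU_one, norm_mul, Complex.norm_real, Real.norm_of_nonneg (by positivity)]
    exact mul_le_of_le_one_left (by positivity) (hb 0 0)
  | succ n ih =>
    set G : (Fin (n + 1) → ZMod M) → ZMod M → ℂ := fun h' => DlF (n + 1) h' F with hG
    set c : ZMod M → (Fin (n + 1) → ZMod M) → ℂ := fun a h' =>
      ∏ i : Fin (n + 1), b i.succ (Fin.cons a h' : Fin (n + 1 + 1) → ZMod M) with hc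
    set β : (Fin (n + 1) → ZMod M) → ℂ := fun h' => b 0 (Fin.cons 0 h' : Fin (n + 1 + 1) → ZMod M) with hβ
    have h1 : ev (univ : Finset (Fin (n + 1 + 1) → ZMod M)) (fun h => (∏ i, b i h) * av (DlF (n + 1 + 1) h F)) =
        ev (univ : Finset (Fin (n + 1) → ZMod M))
          (fun h' => β h' * av (fun a => c a h' * av (Dl a (G h')))) := by
      rw [ev_cons, ← ev_av_comm]
      refine ev_congr fun h' _ => ?_
      rw [← av_mul_left]
      congr 1
      funext a
      have h2 : b 0 (Fin.cons a h' : Fin (n + 1 + 1) → ZMod M) = β h' := by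
        rw [hβ]
        refine hi 0 _ _ (fun j hj => ?_)
        obtain ⟨j', rfl⟩ := Fin.exists_succ_eq.mpr hj
        rw [Fin.cons_succ, Fin.cons_succ]
      have h3 : DlF (n + 1 + 1) (Fin.cons a h' : Fin (n + 1 + 1) → ZMod M) F = Dl a (G h') := by
        show Dl ((Fin.cons a h' : Fin (n + 1 + 1) → ZMod M) 0)
          (DlF (n + 1) (Fin.tail (Fin.cons a h' : Fin (n + 1 + 1) → ZMod M)) F) = _
        rw [Fin.cons_zero, Fin.tail_cons]
      rw [Fin.prod_univ_succ, h2, h3]
      ring
    rw [h1]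
    have h4 : ‖ev (univ : Finset (Fin (n + 1) → ZMod M))
          (fun h' => β h' * av (fun a => c a h' * av (Dl a (G h'))))‖ ^ 2 ≤
        avr (fun a => avr (fun a' => avr (fun d =>
          ‖ev (univ : Finset (Fin (n + 1) → ZMod M)) (fun h' =>
            (∏ i : Fin (n + 1), (b i.succ (Fin.cons a h' : Fin (n + 1 + 1) → ZMod M) *
              (starRingEnd ℂ) (b i.succ (Fin.cons a' h' : Fin (n + 1 + 1) → ZMod M)))) *
              av (DlF (n + 1) h' (qq F a a' d)))‖))) := by
      refine (norm_ev_mul_sq_le univ _ _ (fun h' _ => hb _ _)).trans ?_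
      set E : ℝ := evr (univ : Finset (Fin (n + 1) → ZMod M))
        (fun h' => ‖av (fun a => c a h' * av (Dl a (G h')))‖ ^ 2) with hE
      have hE0 : 0 ≤ E := evr_nonneg _ (fun h' _ => by positivity)
      have h5 : (E : ℂ) = av (fun a => av (fun a' => av (fun d =>
          ev (univ : Finset (Fin (n + 1) → ZMod M)) (fun h' =>
            (∏ i : Fin (n + 1), (b i.succ (Fin.cons a h' : Fin (n + 1 + 1) → ZMod M) *
              (starRingEnd ℂ) (b i.succ (Fin.cons a' h' : Fin (n + 1 + 1) → ZMod M)))) *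
              av (DlF (n + 1) h' (qq F a a' d)))))) := by
        simp only [← ev_av_comm]
        rw [hE, ← ev_ofReal]
        refine ev_congr fun h' _ => ?_
        rw [av_sq]
        congr 1
        funext a
        congr 1
        funext a'
        rw [map_mul, Finset.prod_mul_distrib, av_mul_left]
        have h6 : av (fun d => av (DlF (n + 1) h' (qq F a a' d))) =
            av (Dl a (G h')) * (starRingEnd ℂ) (av (Dl a' (G h'))) := by
          rw [four]
          simp only [DlF_qq]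
          rfl
        rw [h6, ← map_prod]
        ring
      calc E = ‖(E : ℂ)‖ := by rw [Complex.norm_real, Real.norm_of_nonneg hE0]
        _ ≤ _ := by
            rw [h5]
            exact norm_av3_le _
    have h7 : (2 : ℕ) ^ (n + 1) = 2 * 2 ^ n := by ring
    rw [h7, pow_mul]
    refine (pow_le_pow_left₀ (by positivity) h4 _).trans ?_
    refine (avr3_pow_le _ (fun _ _ _ => norm_nonneg _) _ Nat.one_le_two_pow).trans ?_
    refine le_trans ?_ (cube_avg n F hF)
    refine avr_mono fun a => avr_mono fun a' => avr_mono fun d => ?_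
    refine ih (qq F a a' d) (qq_Bd hF a a' d) (fun i h' => b i.succ (Fin.cons a h' : Fin (n + 1 + 1) → ZMod M) *
              (starRingEnd ℂ) (b i.succ (Fin.cons a' h' : Fin (n + 1 + 1) → ZMod M))) ?_ ?_
    · intro i h'
      rw [norm_mul, RCLike.norm_conj]
      exact mul_le_one₀ (hb _ _) (norm_nonneg _) (hb _ _)
    · intro i h h' hh
      have h8 : ∀ u : ZMod M, b i.succ (Fin.cons u h : Fin (n + 1 + 1) → ZMod M) =
          b i.succ (Fin.cons u h' : Fin (n + 1 + 1) → ZMod M) := by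
        intro u
        refine hi _ _ _ (fun j hj => ?_)
        rcases Fin.eq_zero_or_eq_succ j with rfl | ⟨j', rfl⟩
        · rw [Fin.cons_zero, Fin.cons_zero]
        · rw [Fin.cons_succ, Fin.cons_succ]
          exact hh j' (fun hj' => hj (by rw [hj']))
      simp only [h8]

end Pool.Agent.NLG
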