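import Pool.Agent.Lib.NLG.DlB

/-!
# Module DlD: degree lowering

PROOF of `dl` by induction on `K ≥ 2`. `K = 2`: `1 / R ≤ UU 2 F = ∑ ‖ft F ξ‖ ^ 4 ≤ max ‖ft F ξ‖ ^ 2` (`UU_two`, `sum_ft_sq_le_one`). `K = k + 2`, `k ≥ 1`: `dl_step` gives
`UU (k + 1) F ≥ 1 / R ^ C`; apply the induction hypothesis with `R ^ C` (or `R ^ (C + 1)`) in place of `R` (its hypotheses are those for `R'` between
`R ^ (C + 1)` and `R ^ ((C + 1) C2')`: choose `C2` larger than `(C + 1) C2'`).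
-/

set_option autoImplicit false

open Finset

namespace Pool.Agent.NLG

open Pool.Agent.HLT Pool.Agent.NLT

theorem dl (K : ℕ) (hK : 2 ≤ K) (C1 : ℕ) : ∃ C2 C : ℕ, ∀ (M : ℕ) [NeZero M] (R : ℕ), 2 ≤ R →
    ∀ (ι : Type) (T : Finset ι) (φ : ι → ZMod M → ℂ), T.Nonempty → (∀ t, Bd (φ t)) → ∀ S : ℕ → Finset (ZMod M),
    (∀ R' : ℕ, R ≤ R' → R' ≤ R ^ C2 → ((S R').card : ℝ) ≤ (R' : ℝ) ^ C1) →
    (∀ R' : ℕ, R ≤ R' → R' ≤ R ^ C2 → ∀ (I : Type) [Fintype I] (y y' : I → ZMod M) (ξ : ZMod M),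
      1 / (R' : ℝ) ≤ ‖ev T (fun t => av (fun x => chi (-ξ) x *
        ∏ i, (φ t (x + y i) * (starRingEnd ℂ) (φ t (x + y' i)))))‖ → ξ ∈ S R') →
    1 / (R : ℝ) ≤ UU K (fun x => ev T (fun t => φ t x)) →
    ∃ η : ZMod M, 1 / (R : ℝ) ^ C ≤ ‖ft (fun x => ev T (fun t => φ t x)) η‖ := by
  induction K, hK using Nat.le_induction with
  | base =>
    refine ⟨0, 1, ?_⟩
    intro M _ R hR ι T φ hT hφ S _ _ h
    have hF : Bd (fun x => ev T (fun t => φ t x)) := fun x => norm_ev_le_one T (fun t _ => hφ t x)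
    obtain ⟨ξ, hξ⟩ := exists_U2_le hF
    have h2 : UU 2 (fun x => ev T (fun t => φ t x)) = U2 (fun x => ev T (fun t => φ t x)) := by
      rw [UU_two]
      rfl
    rw [h2] at h
    refine ⟨ξ, ?_⟩
    rw [pow_one]
    refine h.trans (hξ.trans ?_)
    exact pow_le_of_le_one (norm_nonneg _) (norm_ft_le_one hF ξ) (by norm_num)
  | succ K hK ih =>
    obtain ⟨C2a, Ca, ha⟩ := dl_step (K - 1) (by omega) C1
    obtain ⟨C2b, Cb, hb⟩ := ih
    refine ⟨C2a + (Ca + 1) * C2b, (Ca + 1) * Cb, ?_⟩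
    intro M _ R hR ι T φ hT hφ S hS1 hS2 h
    have hR1 : 1 ≤ R := by omega
    have e1 : K - 1 + 2 = K + 1 := by omega
    have e2 : K - 1 + 1 = K := by omega
    have hle1 : R ^ C2a ≤ R ^ (C2a + (Ca + 1) * C2b) := Nat.pow_le_pow_right hR1 (Nat.le_add_right _ _)
    have h1 := ha M R hR ι T φ hT hφ S
      (fun R' h1 h2 => hS1 R' h1 (h2.trans hle1))
      (fun R' h1 h2 => hS2 R' h1 (h2.trans hle1)) (by rw [e1]; exact h)
    rw [e2] at h1
    have hR0 : R ≤ R ^ (Ca + 1) := by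
      calc R = R ^ 1 := (pow_one R).symm
        _ ≤ R ^ (Ca + 1) := Nat.pow_le_pow_right hR1 (by omega)
    have hle2 : (R ^ (Ca + 1)) ^ C2b ≤ R ^ (C2a + (Ca + 1) * C2b) := by
      rw [← pow_mul]
      exact Nat.pow_le_pow_right hR1 (Nat.le_add_left _ _)
    have hRr : (1 : ℝ) ≤ (R : ℝ) := by exact_mod_cast hR1
    obtain ⟨η, hη⟩ := hb M (R ^ (Ca + 1)) (hR.trans hR0) ι T φ hT hφ S
      (fun R' h1 h2 => hS1 R' (hR0.trans h1) (h2.trans hle2))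
      (fun R' h1 h2 => hS2 R' (hR0.trans h1) (h2.trans hle2)) (by
        refine le_trans ?_ h1
        push_cast
        refine one_div_le_one_div_of_le (by positivity) ?_
        exact pow_le_pow_right₀ hRr (by omega))
    refine ⟨η, ?_⟩
    rw [pow_mul]
    push_cast at hη
    exact hη

end Pool.Agent.NLG
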