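import Pool.Agent.Lib.NLG.NTg

/-!
# Module ExA: functions of exact degree

PROOFS. `Exq_const`: `C = 1`, `q = |c0 a|`: some `h` has `nrm (θ c0 a) ≤ δ`, and `nrm (|c0| θ) = nrm (c0 θ)`.
`Exq_lift`: the filter of a product set (`Finset.filter` of a condition on the first coordinate) has cardinality
(filter of `Ω A`) * (card of `T A`); divide by the (positive) cardinality of `T A`.
`Exq_step` (`c' a (h, k, k') = c1 a h + m c2 a h (k - k')`, `m ≥ 1`). Let the number of `(h, k, k')` with `nrm (θ c') ≤ δ` be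
`≥ |Ω| A ^ 2 / K`. So at least `|Ω| A / (2 K)` pairs `(h, k')` have at least `A / (2 K)` such `k`, and at least `|Ω| / (2 K)` of the `h` belong
to such a pair. For such an `h`: `ntg_diff` for `θ' = m c2 θ` (`θ c' = β + k θ'`), `2 K` in place of `K`:
`q ≤ 10 K`, `nrm (q m c2 θ) ≤ 320 K ^ 2 δ / A`. Pigeonhole: one `q` serves at least `|Ω| / (20 K ^ 2)` of the `h`. Apply `Exq` for `c2` with
`K' = 20 K ^ 2`, `δ' = 320 K ^ 2 δ / A`, `θ'' = q m θ`: `q'' ≤ K' ^ C2`, `nrm (q'' q m θ) ≤ K' ^ C2 320 K ^ 2 δ / A ^ (e + 1)`. Since `K ≥ 2`,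
`C = 10 C2 + 20 + m` is enough (`20 K ^ 2 ≤ K ^ 7`, `320 K ^ 2 ≤ K ^ 11`, `m ≤ 2 ^ m`).
-/

set_option autoImplicit false

open Finset

namespace Pool.Agent.NLG

open Pool.Agent.HLT Pool.Agent.NLT

variable {α τ : Type}

theorem Exq_const (sz : α → ℕ) (Ω : ℕ → Finset τ) (c0 : α → ℤ) (h0 : ∀ a, c0 a ≠ 0) (h1 : ∀ a, (c0 a).natAbs ≤ sz a) :
    Exq sz Ω 0 (fun a _ => c0 a) := by
  refine ⟨1, ?_⟩
  intro a A K δ θ hsz hK hKA hδ hδK hne hcard
  have hpos : (0 : ℝ) < ((Ω A).card : ℝ) := by exact_mod_cast Finset.card_pos.mpr hne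
  have hne' : ((Ω A).filter (fun _ => nrm (θ * ((c0 a : ℤ) : ℝ)) ≤ δ)).Nonempty := by
    rw [← Finset.card_pos]
    by_contra hcon
    have h2 : ((Ω A).filter (fun _ => nrm (θ * ((c0 a : ℤ) : ℝ)) ≤ δ)).card = 0 := by omega
    rw [h2] at hcard
    simp only [Nat.cast_zero, mul_zero] at hcard
    linarith
  obtain ⟨h, hh⟩ := hne'
  have hθ : nrm (θ * ((c0 a : ℤ) : ℝ)) ≤ δ := (Finset.mem_filter.mp hh).2
  have hq1 : 1 ≤ (c0 a).natAbs := Int.natAbs_pos.mpr (h0 a)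
  refine ⟨(c0 a).natAbs, hq1, ?_, ?_⟩
  · rw [pow_one]
    exact (h1 a).trans hsz
  · have e : nrm ((((c0 a).natAbs : ℕ) : ℝ) * θ) = nrm (θ * ((c0 a : ℤ) : ℝ)) := by
      have e1 : (((c0 a).natAbs : ℕ) : ℝ) = |((c0 a : ℤ) : ℝ)| := by
        rw [Nat.cast_natAbs, Int.cast_abs]
      rw [e1]
      rcases abs_choice ((c0 a : ℤ) : ℝ) with h2 | h2
      · rw [h2, mul_comm]
      · rw [h2, neg_mul, nrm_ng, mul_comm]
    rw [e, pow_zero, div_one, pow_one]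
    have hK1 : (1 : ℝ) ≤ K := by exact_mod_cast (by omega : 1 ≤ K)
    calc nrm (θ * ((c0 a : ℤ) : ℝ)) ≤ δ := hθ
      _ = 1 * δ := (one_mul δ).symm
      _ ≤ K * δ := mul_le_mul_of_nonneg_right hK1 hδ

theorem Exq_lift {σ : Type} (sz : α → ℕ) (Ω : ℕ → Finset τ) (T : ℕ → Finset σ) (e : ℕ) (c : α → τ → ℤ)
    (hc : Exq sz Ω e c) : Exq sz (fun A => Ω A ×ˢ T A) e (fun a p => c a p.1) := by
  obtain ⟨C, hC⟩ := hc
  refine ⟨C, ?_⟩
  intro a A K δ θ hsz hK hKA hδ hδK hne hcard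
  obtain ⟨⟨x, y⟩, hxy⟩ := hne
  have hx := (Finset.mem_product.mp hxy).1
  have hy := (Finset.mem_product.mp hxy).2
  refine hC a A K δ θ hsz hK hKA hδ hδK ⟨x, hx⟩ ?_
  have hT : (0 : ℝ) < ((T A).card : ℝ) := by exact_mod_cast Finset.card_pos.mpr ⟨y, hy⟩
  have e1 : (Ω A ×ˢ T A).filter (fun p => nrm (θ * (c a p.1 : ℝ)) ≤ δ) =
      (Ω A).filter (fun h => nrm (θ * (c a h : ℝ)) ≤ δ) ×ˢ T A := by
    ext ⟨u, v⟩
    simp only [Finset.mem_filter, Finset.mem_product]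
    tauto
  have h2 : ((Ω A ×ˢ T A).card : ℝ) ≤
      K * (((Ω A ×ˢ T A).filter (fun p => nrm (θ * (c a p.1 : ℝ)) ≤ δ)).card : ℝ) := hcard
  rw [e1, Finset.card_product, Finset.card_product, Nat.cast_mul, Nat.cast_mul, ← mul_assoc] at h2
  exact le_of_mul_le_mul_right h2 hT

namespace ExAAux

/-- Popularity: many `h` have some `k'` with many `k`. -/
lemma popular (Om : Finset τ) (A K : ℕ) (hA : 0 < A) (hK : 2 ≤ K) (P : τ → ℕ → ℕ → Prop)
    [DecidablePred fun p : τ × ℕ × ℕ => P p.1 p.2.1 p.2.2]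
    (hcard : ((Om ×ˢ (range A ×ˢ range A)).card : ℝ) ≤
      K * (((Om ×ˢ (range A ×ˢ range A)).filter (fun p => P p.1 p.2.1 p.2.2)).card : ℝ)) :
    ∃ H' : Finset τ, H' ⊆ Om ∧ (Om.card : ℝ) ≤ 2 * K * H'.card ∧
      ∀ h ∈ H', ∃ k' : ℕ, ∃ S : Finset ℕ, (∀ k ∈ S, k < A ∧ P h k k') ∧ (A : ℝ) / ((2 * K : ℕ) : ℝ) ≤ S.card := by
  classical
  set R : τ → ℕ → Finset ℕ := fun h k' => (range A).filter (fun k => P h k k') with hR
  set H' : Finset τ := Om.filter (fun h => ∃ k' ∈ range A, (A : ℝ) / ((2 * K : ℕ) : ℝ) ≤ (R h k').card) with hH'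
  have hA0 : (0 : ℝ) < A := by exact_mod_cast hA
  have hK0 : (0 : ℝ) < K := by exact_mod_cast (by omega : 0 < K)
  refine ⟨H', Finset.filter_subset _ _, ?_, ?_⟩
  · have e1 : ((Om ×ˢ (range A ×ˢ range A)).filter (fun p => P p.1 p.2.1 p.2.2)).card =
        ∑ h ∈ Om, ∑ k' ∈ range A, (R h k').card := by
      rw [Finset.card_filter, Finset.sum_product]
      refine Finset.sum_congr rfl fun h _ => ?_
      rw [Finset.sum_product_right]
      refine Finset.sum_congr rfl fun k' _ => ?_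
      rw [hR]
      simp only
      rw [Finset.card_filter]
      refine Finset.sum_congr rfl fun k _ => ?_
      by_cases hP : P h k k'
      · simp [hP]
      · simp [hP]
    have b1 : ∀ h ∈ H', ∑ k' ∈ range A, ((R h k').card : ℝ) ≤ (A : ℝ) ^ 2 := by
      intro h _
      calc ∑ k' ∈ range A, ((R h k').card : ℝ) ≤ ∑ k' ∈ range A, (A : ℝ) := by
            refine Finset.sum_le_sum fun k' _ => ?_
            have := Finset.card_filter_le (range A) (fun k => P h k k')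
            rw [Finset.card_range] at this
            exact_mod_cast this
        _ = (A : ℝ) ^ 2 := by
            rw [Finset.sum_const, Finset.card_range, nsmul_eq_mul]
            ring
    have b2 : ∀ h ∈ Om.filter (fun h => ¬ ∃ k' ∈ range A, (A : ℝ) / ((2 * K : ℕ) : ℝ) ≤ (R h k').card),
        ∑ k' ∈ range A, ((R h k').card : ℝ) ≤ (A : ℝ) ^ 2 / (2 * K) := by
      intro h hh
      have hh2 := (Finset.mem_filter.mp hh).2
      push Not at hh2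
      calc ∑ k' ∈ range A, ((R h k').card : ℝ) ≤ ∑ k' ∈ range A, (A : ℝ) / (2 * K) := by
            refine Finset.sum_le_sum fun k' hk' => ?_
            have := (hh2 k' hk').le
            push_cast at this
            exact this
        _ = (A : ℝ) ^ 2 / (2 * K) := by
            rw [Finset.sum_const, Finset.card_range, nsmul_eq_mul]
            ring
    have e2 : ((∑ h ∈ Om, ∑ k' ∈ range A, (R h k').card : ℕ) : ℝ) ≤
        H'.card * (A : ℝ) ^ 2 + Om.card * ((A : ℝ) ^ 2 / (2 * K)) := by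
      push_cast
      rw [← Finset.sum_filter_add_sum_filter_not Om
        (fun h => ∃ k' ∈ range A, (A : ℝ) / ((2 * K : ℕ) : ℝ) ≤ (R h k').card)]
      refine add_le_add ?_ ?_
      · refine (Finset.sum_le_sum b1).trans ?_
        rw [Finset.sum_const, nsmul_eq_mul]
      · refine (Finset.sum_le_sum b2).trans ?_
        rw [Finset.sum_const, nsmul_eq_mul]
        refine mul_le_mul_of_nonneg_right ?_ (by positivity)
        exact_mod_cast Finset.card_filter_le _ _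
    rw [e1, Finset.card_product, Finset.card_product, Finset.card_range] at hcard
    have h3 : (Om.card : ℝ) * (A : ℝ) ^ 2 ≤
        K * (H'.card * (A : ℝ) ^ 2 + Om.card * ((A : ℝ) ^ 2 / (2 * K))) := by
      have h4 := hcard.trans (mul_le_mul_of_nonneg_left e2 hK0.le)
      push_cast at h4
      calc (Om.card : ℝ) * (A : ℝ) ^ 2 = (Om.card : ℝ) * ((A : ℝ) * A) := by ring
        _ ≤ _ := h4
    have h5 : (K : ℝ) * (H'.card * (A : ℝ) ^ 2 + Om.card * ((A : ℝ) ^ 2 / (2 * K))) =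
        (K * H'.card + Om.card / 2) * (A : ℝ) ^ 2 := by
      field_simp
    rw [h5] at h3
    have h6 := le_of_mul_le_mul_right h3 (by positivity)
    linarith
  · intro h hh
    obtain ⟨k', _, hk2⟩ := (Finset.mem_filter.mp hh).2
    refine ⟨k', R h k', ?_, hk2⟩
    intro k hk
    rw [hR] at hk
    simp only [Finset.mem_filter, Finset.mem_range] at hk
    exact hk

/-- Numbers: powers of `K ≥ 2` dominate constants. -/
lemma const_le (K c b : ℕ) (hK : 2 ≤ K) (hc : c ≤ 2 ^ b) : c ≤ K ^ b :=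
  hc.trans (Nat.pow_le_pow_left hK b)

end ExAAux

theorem Exq_step (sz : α → ℕ) (Ω : ℕ → Finset τ) (e m : ℕ) (hm : 1 ≤ m) (c1 c2 : α → τ → ℤ) (hc : Exq sz Ω e c2) :
    Exq sz (fun A => Ω A ×ˢ (range A ×ˢ range A)) (e + 1)
      (fun a p => c1 a p.1 + m * c2 a p.1 * ((p.2.1 : ℤ) - p.2.2)) := by
  classical
  obtain ⟨C2, hC2⟩ := hc
  refine ⟨7 * C2 + m + 11, ?_⟩
  intro a A K δ θ hsz hK hKA hδ hδK hne hcard
  have hK0 : (0 : ℝ) < K := by exact_mod_cast (by omega : 0 < K)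
  have hK1 : (1 : ℝ) ≤ K := by exact_mod_cast (by omega : 1 ≤ K)
  have hKn : 1 ≤ K := by omega
  have hApos : 0 < A := lt_of_lt_of_le (pow_pos (by omega) _) hKA
  have hA0 : (0 : ℝ) < A := by exact_mod_cast hApos
  have hA1 : (1 : ℝ) ≤ A := by exact_mod_cast hApos
  obtain ⟨⟨x0, y0⟩, hx0⟩ := hne
  have hΩne : (Ω A).Nonempty := ⟨x0, (Finset.mem_product.mp hx0).1⟩
  have hΩpos : (0 : ℝ) < ((Ω A).card : ℝ) := by exact_mod_cast Finset.card_pos.mpr hΩne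
  obtain ⟨H', hsub, hHcard, hHs⟩ := ExAAux.popular (Ω A) A K hApos hK
    (fun h k k' => nrm (θ * ((c1 a h + m * c2 a h * ((k : ℤ) - k') : ℤ) : ℝ)) ≤ δ) hcard
  -- powers
  have p0 : ∀ b, b ≤ 7 * C2 + m + 11 → K ^ b ≤ A := fun b hb =>
    (Nat.pow_le_pow_right hKn hb).trans hKA
  have pδ : ∀ b, b ≤ 7 * C2 + m + 11 → δ * (K : ℝ) ^ b ≤ 1 := fun b hb =>
    (mul_le_mul_of_nonneg_left (pow_le_pow_right₀ hK1 hb) hδ).trans hδK
  have hcA : 100 * (2 * K) ^ 2 ≤ A := by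
    refine le_trans ?_ (p0 11 (by omega))
    calc 100 * (2 * K) ^ 2 = 400 * K ^ 2 := by ring
      _ ≤ K ^ 9 * K ^ 2 := Nat.mul_le_mul_right _ (ExAAux.const_le K 400 9 hK (by norm_num))
      _ = K ^ 11 := by ring
  have hcδ : 200 * ((2 * K : ℕ) : ℝ) * δ ≤ 1 := by
    have h1 : (400 : ℝ) ≤ (K : ℝ) ^ 9 := by exact_mod_cast ExAAux.const_le K 400 9 hK (by norm_num)
    calc 200 * ((2 * K : ℕ) : ℝ) * δ = 400 * K * δ := by
          push_cast
          ring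
      _ ≤ (K : ℝ) ^ 9 * K * δ := by gcongr
      _ = δ * (K : ℝ) ^ 10 := by ring
      _ ≤ 1 := pδ 10 (by omega)
  set δ' : ℝ := 320 * (K : ℝ) ^ 2 * δ / A with hδ'
  have hδ'0 : 0 ≤ δ' := by positivity
  have key : ∀ h ∈ H', ∃ q : ℕ, 1 ≤ q ∧ q ≤ 10 * K ∧ nrm (((q : ℝ) * m * θ) * (c2 a h : ℝ)) ≤ δ' := by
    intro h hh
    obtain ⟨k', S, hS, hSc⟩ := hHs h hh
    obtain ⟨q, hq1, hq2, hq3⟩ := ntg_diff ((m : ℝ) * (c2 a h : ℝ) * θ) δ A (2 * K) (by omega) hcA hδ hcδ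
      (θ * ((c1 a h : ℝ) - m * c2 a h * k')) S (by
        intro k hk
        refine ⟨(hS k hk).1, ?_⟩
        have h2 := (hS k hk).2
        have e3 : θ * ((c1 a h : ℝ) - m * c2 a h * k') + (k : ℝ) * ((m : ℝ) * (c2 a h : ℝ) * θ) =
            θ * ((c1 a h + m * c2 a h * ((k : ℤ) - k') : ℤ) : ℝ) := by
          push_cast
          ring
        rw [e3]
        exact h2) hSc
    refine ⟨q, hq1, by omega, ?_⟩
    have e4 : ((q : ℝ) * m * θ) * (c2 a h : ℝ) = (q : ℝ) * ((m : ℝ) * (c2 a h : ℝ) * θ) := by ring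
    rw [e4]
    refine hq3.trans (le_of_eq ?_)
    rw [hδ']
    push_cast
    ring
  -- pigeonhole
  have pig : ∃ q : ℕ, 1 ≤ q ∧ q ≤ 10 * K ∧ ((Ω A).card : ℝ) ≤
      ((20 * K ^ 2 : ℕ) : ℝ) * (((Ω A).filter (fun h => nrm (((q : ℝ) * m * θ) * (c2 a h : ℝ)) ≤ δ')).card : ℝ) := by
    by_contra hcon
    push Not at hcon
    have hcov : H' ⊆ (Finset.Icc 1 (10 * K)).biUnion
        (fun q => (Ω A).filter (fun h => nrm (((q : ℝ) * m * θ) * (c2 a h : ℝ)) ≤ δ')) := by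
      intro h hh
      obtain ⟨q, hq1, hq2, hq3⟩ := key h hh
      rw [Finset.mem_biUnion]
      exact ⟨q, Finset.mem_Icc.mpr ⟨hq1, hq2⟩, Finset.mem_filter.mpr ⟨hsub hh, hq3⟩⟩
    have h1 : (H'.card : ℝ) ≤ ∑ q ∈ Finset.Icc 1 (10 * K),
        (((Ω A).filter (fun h => nrm (((q : ℝ) * m * θ) * (c2 a h : ℝ)) ≤ δ')).card : ℝ) := by
      have := (Finset.card_le_card hcov).trans Finset.card_biUnion_le
      exact_mod_cast this
    have h2 : ∑ q ∈ Finset.Icc 1 (10 * K),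
        (((Ω A).filter (fun h => nrm (((q : ℝ) * m * θ) * (c2 a h : ℝ)) ≤ δ')).card : ℝ) <
        ∑ q ∈ Finset.Icc 1 (10 * K), ((Ω A).card : ℝ) / (20 * (K : ℝ) ^ 2) := by
      refine Finset.sum_lt_sum_of_nonempty ⟨1, Finset.mem_Icc.mpr ⟨le_refl _, by omega⟩⟩ ?_
      intro q hq
      have h3 := hcon q (Finset.mem_Icc.mp hq).1 (Finset.mem_Icc.mp hq).2
      rw [lt_div_iff₀ (by positivity)]
      push_cast at h3
      linarith
    rw [Finset.sum_const, Nat.card_Icc, Nat.add_sub_cancel, nsmul_eq_mul] at h2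
    have h4 : ((10 * K : ℕ) : ℝ) * (((Ω A).card : ℝ) / (20 * (K : ℝ) ^ 2)) = ((Ω A).card : ℝ) / (2 * K) := by
      push_cast
      field_simp
      ring
    rw [h4] at h2
    have h5 : (H'.card : ℝ) < ((Ω A).card : ℝ) / (2 * K) := lt_of_le_of_lt h1 h2
    rw [lt_div_iff₀ (by positivity)] at h5
    linarith
  obtain ⟨q, hq1, hq2, hq3⟩ := pig
  have n20 : 20 * K ^ 2 ≤ K ^ 7 := by
    calc 20 * K ^ 2 ≤ K ^ 5 * K ^ 2 := Nat.mul_le_mul_right _ (ExAAux.const_le K 20 5 hK (by norm_num))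
      _ = K ^ 7 := by ring
  have nC : (20 * K ^ 2) ^ C2 ≤ K ^ (7 * C2) := by
    calc (20 * K ^ 2) ^ C2 ≤ (K ^ 7) ^ C2 := Nat.pow_le_pow_left n20 C2
      _ = K ^ (7 * C2) := (pow_mul K 7 C2).symm
  have rC : (((20 * K ^ 2 : ℕ) : ℝ)) ^ C2 ≤ (K : ℝ) ^ (7 * C2) := by exact_mod_cast nC
  have r320 : (320 : ℝ) * (K : ℝ) ^ 2 ≤ (K : ℝ) ^ 11 := by
    have h1 : (320 : ℝ) ≤ (K : ℝ) ^ 9 := by exact_mod_cast ExAAux.const_le K 320 9 hK (by norm_num)
    calc (320 : ℝ) * (K : ℝ) ^ 2 ≤ (K : ℝ) ^ 9 * (K : ℝ) ^ 2 := by gcongr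
      _ = (K : ℝ) ^ 11 := by ring
  have rtot : (((20 * K ^ 2 : ℕ) : ℝ)) ^ C2 * (320 * (K : ℝ) ^ 2) ≤ (K : ℝ) ^ (7 * C2 + 11) := by
    rw [pow_add]
    exact mul_le_mul rC r320 (by positivity) (by positivity)
  obtain ⟨q'', hq''1, hq''2, hq''3⟩ := hC2 a A (20 * K ^ 2) δ' ((q : ℝ) * m * θ)
    (hsz.trans (by nlinarith)) (by nlinarith) (nC.trans (p0 _ (by omega))) hδ'0 (by
      calc δ' * (((20 * K ^ 2 : ℕ) : ℝ)) ^ C2 = δ * ((((20 * K ^ 2 : ℕ) : ℝ)) ^ C2 * (320 * (K : ℝ) ^ 2)) / A := by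
            rw [hδ']
            ring
        _ ≤ δ * (K : ℝ) ^ (7 * C2 + 11) / A := by gcongr
        _ ≤ 1 / A := by
            gcongr
            exact pδ _ (by omega)
        _ ≤ 1 := by
            rw [div_le_one hA0]
            exact hA1) hΩne hq3
  refine ⟨q'' * (q * m), ?_, ?_, ?_⟩
  · exact Nat.one_le_iff_ne_zero.mpr (by positivity)
  · have h1 : q * m ≤ K ^ (m + 5) := by
      calc q * m ≤ (10 * K) * K ^ m := Nat.mul_le_mul hq2
            ((Nat.lt_two_pow_self).le.trans (Nat.pow_le_pow_left hK m))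
        _ ≤ (K ^ 4 * K) * K ^ m := by
            gcongr
            exact ExAAux.const_le K 10 4 hK (by norm_num)
        _ = K ^ (m + 5) := by ring
    calc q'' * (q * m) ≤ K ^ (7 * C2) * K ^ (m + 5) := Nat.mul_le_mul (hq''2.trans nC) h1
      _ = K ^ (7 * C2 + m + 5) := by ring
      _ ≤ K ^ (7 * C2 + m + 11) := Nat.pow_le_pow_right hKn (by omega)
  · have e5 : ((q'' * (q * m) : ℕ) : ℝ) * θ = (q'' : ℝ) * ((q : ℝ) * m * θ) := by
      push_cast
      ring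
    rw [e5]
    refine hq''3.trans ?_
    calc (((20 * K ^ 2 : ℕ) : ℝ)) ^ C2 * δ' / (A : ℝ) ^ e =
          ((((20 * K ^ 2 : ℕ) : ℝ)) ^ C2 * (320 * (K : ℝ) ^ 2)) * δ / (A : ℝ) ^ (e + 1) := by
            rw [hδ']
            field_simp
            ring
      _ ≤ (K : ℝ) ^ (7 * C2 + m + 11) * δ / (A : ℝ) ^ (e + 1) := by
          gcongr
          exact rtot.trans (pow_le_pow_right₀ hK1 (by omega))

theorem Exq_neg (sz : α → ℕ) (Ω : ℕ → Finset τ) (e : ℕ) (c : α → τ → ℤ) (hc : Exq sz Ω e c) :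
    Exq sz Ω e (fun a h => - c a h) := by
  obtain ⟨C, hC⟩ := hc
  refine ⟨C, ?_⟩
  intro a A K δ θ hsz hK hKA hδ hδK hne hcard
  refine hC a A K δ θ hsz hK hKA hδ hδK hne ?_
  have e1 : ∀ h : τ, nrm (θ * ((-c a h : ℤ) : ℝ)) = nrm (θ * (c a h : ℝ)) := by
    intro h
    rw [Int.cast_neg, mul_neg, nrm_ng]
  have h2 : ((Ω A).card : ℝ) ≤ K * (((Ω A).filter (fun h => nrm (θ * ((-c a h : ℤ) : ℝ)) ≤ δ)).card : ℝ) := hcard
  simp only [e1] at h2
  exact h2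

end Pool.Agent.NLG
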