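import Pool.Agent.Lib.NLG.PmsG
import Pool.Agent.Lib.NLT.PairMs

/-!
# Module FamMs: mean squares for a family of shifts `Q j (t) + u j`

PROOF (compare NLT/PairMs, whose auxiliary functions `PairMsAux.cw`, `cg` and lemmas can be used). `L = log x`; `C1` = the constant of `pms_g` for `Q`. `R` a natural number with
`L ^ k ≤ R ≤ 2 L ^ k`, `k` large in terms of `K`, `m`, `B`; `R ^ C1 ≤ H + 1` for large `x` (`H ^ d j ≥ x ^ (1/6)`, so `H ≥ x ^ (1 / (6 d))`, `d` = the maximal degree). Apply `pms_g` with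
`H + 1` in place of `H`, `X = 2 x` (`(H + 1) ^ d ≤ 2 H ^ d ≤ 2 x` for `H ≥ 2 d`), `w' n = w n / L ^ K` for `1 ≤ n ≤ x`, else `0`; for `j ≠ j0`: `g j n = G j (n + u j) / L ^ K` for
`1 ≤ n + u j ≤ 2 x`, else `0`; `g j0 = EZ A x (u j0)`. `EZ` vanishes for `|n| > 3 X` (`u j0 ≤ x`: the value at `t = 0`, `(Q j0).coeff 0 = 0`). Window bounds: for
`(H + 1) ^ d ≤ R ^ C1 W`, `W ≤ (H + 1) ^ d ≤ 2 x` (`d = d j0`) we have `W ≥ x ^ (1/6 + ε/2)`, so `WBA A B' 2 (ε / 2) x` gives `WB e W (x W^2 / L^B')`, and `x / L ^ B' ≤ 2 x / R ^ C1` for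
`B' ≥ (k + 1) C1`. Result: the sum over `t ∈ range (H + 1)` is at most `L ^ (2 K + 2 K m + 4)` times `(H + 1) (2 x) ^ 2 / R ≤ (H + 1) x ^ 2 / L ^ B` for `k` large. (For `1 ≤ n ≤ x`, `t ≤ H` the arguments
`n + (Q j t + u j).toNat` lie in `[1, 2 x]` because the shifts are in `[0, x]`; `n + (Q j t + u j).toNat = (n + Q j t) + u j`.)
-/

set_option autoImplicit false

open Finset Filter Polynomial

namespace Pool.Agent.NLG

open Pool.Agent.HLT Pool.Agent.HLB Pool.Agent.HL Pool.Agent.NLT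

namespace FamMsAux

open Pool.Agent.NLT.PairMsAux Pool.Agent.HLU

lemma sum_idg {m : ℕ} {x : ℕ} {u : Fin m → ℕ} {D : ℝ} {E : Fin m → ℝ} {w : ℕ → ℂ} {G : Fin m → ℕ → ℝ}
    {α : Fin m → ℤ} (hα : ∀ j, 0 ≤ α j + u j ∧ α j + u j ≤ x) :
    ∑ n ∈ Ioc (0 : ℤ) ((2 * x : ℕ) : ℤ), cw x D w n * ∏ j, cg x (u j) (E j) (G j) (n + α j) =
      (∑ n ∈ Icc 1 x, w n * ∏ j, (G j (n + (α j + u j).toNat) : ℂ)) / ((D * ∏ j, E j : ℝ) : ℂ) := by
  rw [Finset.sum_div]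
  symm
  apply Finset.sum_of_injOn (fun n : ℕ => (n : ℤ))
  · intro a _ b _ hab
    exact Nat.cast_injective (R := ℤ) hab
  · intro n hn
    rw [Finset.mem_coe, mem_Icc] at hn
    rw [Finset.mem_coe, mem_Ioc]
    push_cast
    omega
  · intro n _ hn
    have h : cw x D w n = 0 := by
      unfold PairMsAux.cw
      rw [if_neg]
      rintro ⟨h1, h2⟩
      apply hn
      refine ⟨n.toNat, ?_, ?_⟩
      · rw [Finset.mem_coe, mem_Icc]
        omega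
      · show ((n.toNat : ℕ) : ℤ) = n
        omega
    rw [h, zero_mul]
  · intro n hn
    rw [mem_Icc] at hn
    have h1 : cw x D w (n : ℤ) = w n / (D : ℂ) := by
      unfold PairMsAux.cw
      rw [if_pos (by omega), Int.toNat_natCast]
    have h2 : ∀ j, cg x (u j) (E j) (G j) ((n : ℤ) + α j) = (G j (n + (α j + u j).toNat) : ℂ) / ((E j : ℝ) : ℂ) := by
      intro j
      have := hα j
      unfold cg
      rw [if_pos (by omega)]
      have e : ((n : ℤ) + α j + u j).toNat = n + (α j + u j).toNat := by omega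
      rw [e]
      push_cast
      rfl
    rw [h1, prod_congr rfl (fun j _ => h2 j), prod_div_distrib]
    push_cast
    rw [mul_div_mul_comm]

lemma fin_stepg {H x p B R : ℕ} {L D : ℝ} (hL : 2 ≤ L) (hD0 : 0 < D) (hD : D ≤ L ^ p)
    (hR : L ^ (2 * p + B + 6) ≤ R) (S : ℕ → ℂ)
    (h : ∑ t ∈ range (H + 1), ‖S t / (D : ℂ)‖ ^ 2 ≤
      ((H + 1 : ℕ) : ℝ) * ((2 * x : ℕ) : ℝ) ^ 2 / R) :
    ∑ t ∈ range (H + 1), ‖S t‖ ^ 2 ≤ ((H + 1 : ℕ) : ℝ) * ((x : ℝ) ^ 2 / L ^ B) := by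
  have hL0 : 0 < L := by linarith
  have hR0 : (0 : ℝ) < R := lt_of_lt_of_le (by positivity) hR
  have h1 : ∑ t ∈ range (H + 1), ‖S t / (D : ℂ)‖ ^ 2 = (∑ t ∈ range (H + 1), ‖S t‖ ^ 2) / D ^ 2 := by
    rw [Finset.sum_div]
    refine Finset.sum_congr rfl fun t _ => ?_
    rw [norm_div, Complex.norm_real, Real.norm_of_nonneg hD0.le, div_pow]
  rw [h1, div_le_iff₀ (by positivity)] at h
  refine h.trans ?_
  have h2 : ((H + 1 : ℕ) : ℝ) * ((2 * x : ℕ) : ℝ) ^ 2 / R * D ^ 2 ≤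
      ((H + 1 : ℕ) : ℝ) * ((2 * x : ℕ) : ℝ) ^ 2 / L ^ (2 * p + B + 6) * (L ^ p) ^ 2 := by
    apply mul_le_mul _ (pow_le_pow_left₀ hD0.le hD 2) (by positivity) (by positivity)
    exact div_le_div_of_nonneg_left (by positivity) (by positivity) hR
  refine h2.trans ?_
  have h3 : (4 : ℝ) ≤ L ^ 6 := by
    calc (4 : ℝ) ≤ 2 ^ 6 := by norm_num
      _ ≤ L ^ 6 := pow_le_pow_left₀ (by norm_num) hL 6
  have e1 : ((H + 1 : ℕ) : ℝ) * ((2 * x : ℕ) : ℝ) ^ 2 / L ^ (2 * p + B + 6) * (L ^ p) ^ 2 =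
      ((H + 1 : ℕ) : ℝ) * ((x : ℝ) ^ 2 / L ^ B) * (4 / L ^ 6) := by
    have hn : L ≠ 0 := hL0.ne'
    have e2 : L ^ (2 * p + B + 6) = (L ^ p) ^ 2 * L ^ B * L ^ 6 := by
      rw [← pow_mul, ← pow_add, ← pow_add]
      congr 1
      ring
    rw [e2]
    push_cast
    field_simp
    ring
  rw [e1]
  have h4 : 4 / L ^ 6 ≤ 1 := by
    rw [div_le_one (by positivity)]
    exact h3
  calc ((H + 1 : ℕ) : ℝ) * ((x : ℝ) ^ 2 / L ^ B) * (4 / L ^ 6) ≤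
        ((H + 1 : ℕ) : ℝ) * ((x : ℝ) ^ 2 / L ^ B) * 1 :=
        mul_le_mul_of_nonneg_left h4 (by positivity)
    _ = ((H + 1 : ℕ) : ℝ) * ((x : ℝ) ^ 2 / L ^ B) := mul_one _

lemma wing {A B' x v C N R : ℕ} {ε : ℝ} (hWBA : WBA A B' 2 (ε / 2) x)
    (hL : 2 ≤ Real.log x) (hR0 : 0 < R) (hRC : (R : ℝ) ^ C ≤ Real.log x ^ B')
    (hRx : (R : ℝ) ^ C ≤ (x : ℝ) ^ (ε / 2)) (hx : 1 ≤ x)
    (hN : (x : ℝ) ^ (1 / 6 + ε) ≤ N) (hN2 : N ≤ 2 * x) :
    ∀ W : ℕ, N ≤ R ^ C * W → W ≤ N →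
      WB (EZ A x v) W (((2 * x : ℕ) : ℝ) * W ^ 2 / (R : ℝ) ^ C) := by
  intro W h1 h2 α U
  have hx0 : (0 : ℝ) < x := by exact_mod_cast hx
  have hR0' : (0 : ℝ) < R := by exact_mod_cast hR0
  have hL0 : 0 < Real.log x := by linarith
  have h3 : (x : ℝ) ^ (1 / 6 + ε / 2) ≤ W := by
    have h4 : (x : ℝ) ^ (1 / 6 + ε) = (x : ℝ) ^ (1 / 6 + ε / 2) * (x : ℝ) ^ (ε / 2) := by
      rw [← Real.rpow_add hx0]
      congr 1
      ring
    have h5 : (N : ℝ) ≤ (R : ℝ) ^ C * W := by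
      exact_mod_cast h1
    have h6 : (R : ℝ) ^ C * W ≤ (x : ℝ) ^ (ε / 2) * W :=
      mul_le_mul_of_nonneg_right hRx (Nat.cast_nonneg _)
    have h8 : 0 < (x : ℝ) ^ (ε / 2) := Real.rpow_pos_of_pos hx0 _
    have h9 : (x : ℝ) ^ (1 / 6 + ε / 2) * (x : ℝ) ^ (ε / 2) ≤ (W : ℝ) * (x : ℝ) ^ (ε / 2) := by
      rw [← h4]
      linarith
    exact le_of_mul_le_mul_right h9 h8
  refine (hWBA W v h3 (h2.trans hN2) α U).trans ?_
  have h5 : (x : ℝ) * W ^ 2 / Real.log x ^ B' ≤ (x : ℝ) * W ^ 2 / (R : ℝ) ^ C :=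
    div_le_div_of_nonneg_left (by positivity) (by positivity) hRC
  refine h5.trans ?_
  apply div_le_div_of_nonneg_right _ (by positivity)
  apply mul_le_mul_of_nonneg_right _ (by positivity)
  push_cast
  linarith

lemma succ_pow_le (H d : ℕ) (h : 2 * d ≤ H) : (H + 1) ^ d ≤ 2 * H ^ d := by
  have h0 : (0 : ℝ) < (H : ℝ) + 1 := by positivity
  have h1 : (1 : ℝ) + d * (-1 / ((H : ℝ) + 1)) ≤ (1 + -1 / ((H : ℝ) + 1)) ^ d := by
    refine one_add_mul_le_pow ?_ d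
    rw [le_div_iff₀ h0]
    have : (0 : ℝ) ≤ H := Nat.cast_nonneg H
    linarith
  have h2 : (1 : ℝ) / 2 ≤ 1 + d * (-1 / ((H : ℝ) + 1)) := by
    have h3 : (d : ℝ) / ((H : ℝ) + 1) ≤ 1 / 2 := by
      rw [div_le_iff₀ h0]
      have h4 : (2 : ℝ) * d ≤ H := by exact_mod_cast h
      linarith
    have e1 : (1 : ℝ) + d * (-1 / ((H : ℝ) + 1)) = 1 - d / ((H : ℝ) + 1) := by ring
    rw [e1]
    linarith
  have e2 : (1 : ℝ) + -1 / ((H : ℝ) + 1) = H / ((H : ℝ) + 1) := by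
    field_simp
    ring
  rw [e2, div_pow] at h1
  have h5 := h2.trans h1
  rw [le_div_iff₀ (by positivity)] at h5
  have h6 : ((H : ℝ) + 1) ^ d ≤ 2 * (H : ℝ) ^ d := by linarith
  exact_mod_cast h6

end FamMsAux

open FamMsAux Pool.Agent.NLT.PairMsAux Pool.Agent.HLU in
theorem fam_ms (m : ℕ) (hA : GenA m) (Q : Fin m → ℤ[X]) (hd : StrictMono (fun j => (Q j).natDegree))
    (h1 : ∀ j, 1 ≤ (Q j).natDegree) (h0 : ∀ j, (Q j).coeff 0 = 0) (K B : ℕ) (ε : ℝ) (hε : 0 < ε) :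
    ∃ B' C : ℕ, ∀ A : ℕ, ∀ᶠ x : ℕ in atTop, WBA A B' C (ε / 2) x →
    ∀ H : ℕ, (∀ j, (x : ℝ) ^ (1 / 6 + ε) ≤ (H : ℝ) ^ (Q j).natDegree ∧ H ^ (Q j).natDegree ≤ x) → ∀ u : Fin m → ℕ,
    (∀ j, ∀ t : ℕ, t ≤ H → 0 ≤ (Q j).eval (t : ℤ) + u j ∧ (Q j).eval (t : ℤ) + u j ≤ x) →
    ∀ w : ℕ → ℂ, (∀ n ∈ Icc 1 x, ‖w n‖ ≤ Real.log x ^ K) → ∀ G : Fin m → ℕ → ℝ,
    (∀ j, ∀ n ∈ Icc 1 (2 * x), |G j n| ≤ Real.log x ^ K) → ∀ j0 : Fin m, G j0 = ff (zA A x) →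
    ∑ t ∈ range (H + 1), ‖∑ n ∈ Icc 1 x, w n * ∏ j, (G j (n + ((Q j).eval (t : ℤ) + u j).toNat) : ℂ)‖ ^ 2 ≤
      ((H + 1 : ℕ) : ℝ) * ((x : ℝ) ^ 2 / Real.log x ^ B) := by
  classical
  obtain ⟨C1, hC1⟩ := pms_g m hA (fun j => (Q j).natDegree) hd h1 Q (fun _ => rfl) h0
  set p : ℕ := K + (2 + K) * m with hp
  set k : ℕ := 2 * p + B + 6 with hk
  set d : ℕ := 1 + ∑ j, (Q j).natDegree with hdd
  have hdj : ∀ j, (Q j).natDegree ≤ d := by
    intro j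
    have := single_le_sum (f := fun j => (Q j).natDegree) (fun _ _ => Nat.zero_le _) (mem_univ j)
    omega
  have hd1 : 1 ≤ d := by omega
  have hd0 : (0 : ℝ) < d := by exact_mod_cast hd1
  refine ⟨(k + 1) * C1, 2, fun A => ?_⟩
  filter_upwards [DZ_inv_le A, ev_log 2, eventually_ge_atTop 1,
    ev_rpow ((k + 1) * C1) (show (0 : ℝ) < ε / 2 by linarith),
    ev_rpow ((k + 1) * C1) (show (0 : ℝ) < 1 / (6 * (d : ℝ)) by positivity),
    ev_rpow_ge (2 * (d : ℝ)) (show (0 : ℝ) < 1 / (6 * (d : ℝ)) by positivity)] with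
    x hDZ hL hx hpow hpow2 hx3 hWBA H hH u hu w hw G hG j0 hj0
  have hx0 : (0 : ℝ) < x := by exact_mod_cast hx
  have hx1 : (1 : ℝ) ≤ x := by exact_mod_cast hx
  have hL0 : 0 < Real.log x := by linarith
  have hL1 : 1 ≤ Real.log x := by linarith
  set L : ℝ := Real.log x with hLdef
  set R : ℕ := ⌈L ^ k⌉₊ with hRdef
  have hR1 : L ^ k ≤ R := Nat.le_ceil _
  have hLk : (2 : ℝ) ≤ L ^ k := by
    calc (2 : ℝ) ≤ L := hL
      _ = L ^ 1 := (pow_one L).symm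
      _ ≤ L ^ k := pow_le_pow_right₀ hL1 (by omega)
  have hR2 : (R : ℝ) ≤ L ^ (k + 1) := by
    have h1 : (R : ℝ) < L ^ k + 1 := Nat.ceil_lt_add_one (by positivity)
    have h2 : L ^ (k + 1) = L ^ k * L := pow_succ _ _
    rw [h2]
    nlinarith
  have hRge : 2 ≤ R := by
    have h1 : (2 : ℝ) ≤ R := hLk.trans hR1
    exact_mod_cast h1
  have hR0 : 0 < R := by omega
  have hRC : (R : ℝ) ^ C1 ≤ L ^ ((k + 1) * C1) := by
    calc (R : ℝ) ^ C1 ≤ (L ^ (k + 1)) ^ C1 := pow_le_pow_left₀ (by positivity) hR2 _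
      _ = L ^ ((k + 1) * C1) := (pow_mul _ _ _).symm
  have hRx : (R : ℝ) ^ C1 ≤ (x : ℝ) ^ (ε / 2) := hRC.trans hpow
  have hHd : (x : ℝ) ^ (1 / (6 * (d : ℝ))) ≤ H := by
    have hjd : ((Q j0).natDegree : ℝ) ≤ d := by exact_mod_cast hdj j0
    have h2 : ((x : ℝ) ^ (1 / (6 * (d : ℝ)))) ^ (Q j0).natDegree ≤ (H : ℝ) ^ (Q j0).natDegree := by
      refine le_trans ?_ (hH j0).1
      rw [← Real.rpow_natCast, ← Real.rpow_mul hx0.le]
      refine Real.rpow_le_rpow_of_exponent_le hx1 ?_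
      have h3 : 1 / (6 * (d : ℝ)) * (Q j0).natDegree ≤ 1 / 6 := by
        rw [one_div_mul_eq_div, div_le_div_iff₀ (by positivity) (by norm_num)]
        nlinarith
      linarith
    exact le_of_pow_le_pow_left₀ (by have := h1 j0; omega) (Nat.cast_nonneg _) h2
  have hH2d : 2 * d ≤ H := by
    have : (2 : ℝ) * d ≤ H := hx3.trans hHd
    exact_mod_cast this
  have hHX : ∀ j, (H + 1) ^ (Q j).natDegree ≤ 2 * x := by
    intro j
    refine (succ_pow_le H _ (by have := hdj j; omega)).trans ?_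
    exact Nat.mul_le_mul_left 2 (hH j).2
  have hRH : R ^ C1 ≤ H + 1 := by
    have h2 : (R : ℝ) ^ C1 ≤ H := (hRC.trans hpow2).trans hHd
    have h3 : R ^ C1 ≤ H := by exact_mod_cast h2
    omega
  have hux : ∀ j, u j ≤ x := by
    intro j
    have h2 := (hu j 0 (Nat.zero_le _)).2
    rw [Nat.cast_zero, ← coeff_zero_eq_eval_zero, h0 j] at h2
    omega
  have hff : ∀ n ∈ Icc 1 (2 * x), |ff (zA A x) n| ≤ L ^ 2 := by
    intro n hn
    rw [mem_Icc] at hn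
    unfold ff
    have hLL : L ≤ L ^ 2 := by nlinarith
    have e1 := lp_le_sq hL hn.2
    have e2 := (nuz_le (zA A x) n).trans (hDZ.trans hLL)
    have e3 := lp_nonneg n
    have e4 := nuz_nonneg (zA A x) n
    rw [abs_le]
    constructor <;> linarith
  have hK0 : 0 < L ^ K := by positivity
  set E : Fin m → ℝ := fun j => if j = j0 then L ^ 2 else L ^ K with hE
  have hE0 : ∀ j, 0 < E j := by
    intro j
    rw [hE]
    simp only
    split_ifs <;> positivity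
  have hEle : ∀ j, E j ≤ L ^ (2 + K) := by
    intro j
    rw [hE]
    simp only
    split_ifs
    · exact pow_le_pow_right₀ hL1 (by omega)
    · exact pow_le_pow_right₀ hL1 (by omega)
  have hGB : ∀ j, Bd (cg x (u j) (E j) (G j)) := by
    intro j
    refine bd_cg (hE0 j) (fun n hn => ?_)
    rw [hE]
    simp only
    split_ifs with h
    · rw [h, hj0]
      exact hff n hn
    · exact hG j n hn
  have hEZ : cg x (u j0) (E j0) (G j0) = EZ A x (u j0) := by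
    rw [EZ_eq, hE, hj0]
    simp only [if_true]
    rfl
  have hmain := hC1 R (H + 1) (2 * x) hRge hRH hHX (cw x (L ^ K) w) (bd_cw hK0 hw)
    (fun j => cg x (u j) (E j) (G j)) hGB (fun n hn => cw_zero n hn) j0
    (fun n hn => cg_zero (hux j0) n hn) (by
      simp only [hEZ]
      refine wing hWBA hL hR0 hRC hRx hx ?_ (hHX j0)
      refine (hH j0).1.trans ?_
      push_cast
      exact pow_le_pow_left₀ (Nat.cast_nonneg _) (by linarith) _)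
  refine fin_stepg (p := p) (D := L ^ K * ∏ j, E j) hL (mul_pos hK0 (prod_pos fun j _ => hE0 j)) ?_ hR1 _ ?_
  · have h2 : ∏ j, E j ≤ L ^ ((2 + K) * m) := by
      calc ∏ j, E j ≤ ∏ _j : Fin m, L ^ (2 + K) := prod_le_prod (fun j _ => (hE0 j).le) (fun j _ => hEle j)
        _ = L ^ ((2 + K) * m) := by
            rw [prod_const, Finset.card_univ, Fintype.card_fin, ← pow_mul]
    rw [hp, pow_add]
    exact mul_le_mul_of_nonneg_left h2 hK0.le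
  · refine le_trans (le_of_eq ?_) hmain
    refine Finset.sum_congr rfl fun t ht => ?_
    rw [mem_range] at ht
    rw [sum_idg (fun j => hu j t (by omega))]

end Pool.Agent.NLG
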