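import Pool.Agent.Lib.NLG.LinG

/-!
# Module GoodA: steps for controlled families

`lt0 Q a (h, k, k') = taylor k (Q a h)`, `lt1 Q a (h, k, k') = taylor k' (Q a h)`; new box variables `τ × (ℕ × ℕ)`, `Ω2 Ω A = Ω A × [0, A)^2`.

`good_perm`, `good_absorb`: permute the list of leaves, absorb a leaf of degree zero into the root. `good_s1`, `good_s2`: van der
Corput (`TG_vdc`, `V ^ 2 ≤ V' + 8 A / H`), then shift by the leaf `(g1, taylor k Q1)` or `(conj f, taylor k' Qs)` (`TG_shift`).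
`good_lin`: `lin_g` and Jensen.
-/

set_option autoImplicit false

open Finset Polynomial

namespace Pool.Agent.NLG

open Pool.Agent.HLT Pool.Agent.NLT

variable {α τ : Type}

/-- New box. -/
def Om2 (Ω : ℕ → Finset τ) (A : ℕ) : Finset (τ × (ℕ × ℕ)) := Ω A ×ˢ (range A ×ˢ range A)

/-- Leaf shifted by `k`. -/
noncomputable def lt0 (Q : α → τ → ℤ[X]) : α → τ × (ℕ × ℕ) → ℤ[X] := fun a p => taylor (p.2.1 : ℤ) (Q a p.1)

/-- Leaf shifted by `k'`. -/
noncomputable def lt1 (Q : α → τ → ℤ[X]) : α → τ × (ℕ × ℕ) → ℤ[X] := fun a p => taylor (p.2.2 : ℤ) (Q a p.1)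

namespace GoodAAux

/-- Lift a permutation along a map. -/
lemma perm_lift {β γ : Type} (φ : β → γ) {l l' : List γ} (h : l.Perm l') :
    ∀ G : List β, G.map φ = l' → ∃ G' : List β, G'.Perm G ∧ G'.map φ = l := by
  induction h with
  | nil =>
    intro G hG
    exact ⟨G, List.Perm.refl _, hG⟩
  | cons x _ ih =>
    intro G hG
    cases G with
    | nil => simp at hG
    | cons g G =>
      rw [List.map_cons, List.cons.injEq] at hG
      obtain ⟨G', h1, h2⟩ := ih G hG.2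
      exact ⟨g :: G', h1.cons g, by rw [List.map_cons, h2, hG.1]⟩
  | swap x y l =>
    intro G hG
    cases G with
    | nil => simp at hG
    | cons g G =>
      cases G with
      | nil => simp at hG
      | cons g' G =>
        rw [List.map_cons, List.map_cons, List.cons.injEq, List.cons.injEq] at hG
        exact ⟨g' :: g :: G, List.Perm.swap _ _ _, by
          rw [List.map_cons, List.map_cons, hG.1, hG.2.1, hG.2.2]⟩
  | trans _ _ ih1 ih2 =>
    intro G hG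
    obtain ⟨G2, h1, h2⟩ := ih2 G hG
    obtain ⟨G1, h3, h4⟩ := ih1 G2 h2
    exact ⟨G1, h3.trans h1, h4⟩

/-- The van der Corput step for averages. -/
lemma vstep (Ω : ℕ → Finset τ) (A : ℕ) (F : τ → ℝ) (F' : τ × (ℕ × ℕ) → ℝ) (c : ℝ) (hc : 0 ≤ c)
    (hF : ∀ h, 0 ≤ F h)
    (h : ∀ h, F h ^ 2 ≤ tvr A (fun k => tvr A (fun k' => F' (h, (k, k')))) + c) :
    evr (Ω A) F ^ 2 ≤ evr (Om2 Ω A) F' + c := by
  have h1 : evr (Om2 Ω A) F' =
      evr (Ω A) (fun h => tvr A (fun k => tvr A (fun k' => F' (h, (k, k'))))) := by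
    unfold Om2
    rw [evr_prod]
    refine evr_congr fun a _ => ?_
    rw [evr_prod, tvr_eq_evr]
    refine evr_congr fun k _ => ?_
    rw [tvr_eq_evr]
  rw [h1]
  refine (evr_pow_le _ (fun a _ => hF a) 2 (by norm_num)).trans ?_
  refine (evr_mono _ (fun a _ => h a)).trans ?_
  rw [evr_add]
  exact add_le_add le_rfl (evr_le _ hc fun _ _ => le_rfl)

/-- Arithmetic of the step. -/
lemma comb (V V' X u : ℝ) (s B : ℕ) (hs : 1 ≤ s) (hV0 : 0 ≤ V) (hV1 : V ≤ 1) (hV'0 : 0 ≤ V') (hX : 0 ≤ X)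
    (hu : 0 ≤ u) (h : V ^ 2 ≤ V' + 8 * u) (h' : V' ^ s ≤ B * (X + u)) :
    V ^ (2 * s) ≤ ((2 ^ s * (B + 8) : ℕ) : ℝ) * (X + u) := by
  have hB : (0 : ℝ) ≤ B := Nat.cast_nonneg _
  have h2s : (1 : ℝ) ≤ 2 ^ s := one_le_pow₀ (by norm_num)
  push_cast
  rcases le_or_gt (8 * u) 1 with h8 | h8
  · have h1 : (8 * u) ^ s ≤ 8 * u := by
      calc (8 * u) ^ s ≤ (8 * u) ^ 1 := pow_le_pow_of_le_one (by positivity) h8 hs
        _ = 8 * u := pow_one _
    have h3 : (2 : ℝ) ^ (s - 1) ≤ 2 ^ s := pow_le_pow_right₀ (by norm_num) (Nat.sub_le _ _)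
    calc V ^ (2 * s) = (V ^ 2) ^ s := pow_mul _ _ _
      _ ≤ (V' + 8 * u) ^ s := pow_le_pow_left₀ (by positivity) h s
      _ ≤ 2 ^ (s - 1) * (V' ^ s + (8 * u) ^ s) := add_pow_le hV'0 (by positivity) s
      _ ≤ 2 ^ s * (V' ^ s + (8 * u) ^ s) := mul_le_mul_of_nonneg_right h3 (by positivity)
      _ ≤ 2 ^ s * (B * (X + u) + 8 * u) := by
          refine mul_le_mul_of_nonneg_left ?_ (by positivity)
          linarith
      _ ≤ 2 ^ s * (B + 8) * (X + u) := by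
          rw [mul_assoc]
          refine mul_le_mul_of_nonneg_left ?_ (by positivity)
          nlinarith
  · have h1 : V ^ (2 * s) ≤ 1 := pow_le_one₀ hV0 hV1
    have h2 : (1 : ℝ) ≤ (B + 8) * (X + u) := by
      nlinarith [mul_nonneg hB hX, mul_nonneg hB hu]
    calc V ^ (2 * s) ≤ 1 := h1
      _ ≤ (B + 8) * (X + u) := h2
      _ ≤ 2 ^ s * ((B + 8) * (X + u)) := le_mul_of_one_le_left (by linarith) h2s
      _ = 2 ^ s * (B + 8) * (X + u) := by ring

lemma tvr_congr2 {A : ℕ} {X Y : ℕ → ℕ → ℝ} (h : ∀ k k', X k k' = Y k k') :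
    tvr A (fun k => tvr A (fun k' => X k k')) = tvr A (fun k => tvr A (fun k' => Y k k')) := by
  have h1 : X = Y := by
    funext k k'
    exact h k k'
  rw [h1]

/-- Shift by the leaf `(g1, taylor k Q1)`. -/
lemma s1_eq {M : ℕ} [NeZero M] (H : ℕ) (θ : ℕ → ℂ) (g1 f : ZMod M → ℂ) (Q Q1 : ℤ[X]) (k k' : ℤ)
    (L : List ((ZMod M → ℂ) × ℤ[X])) :
    TG H θ (fun _ => 1) f (taylor k Q)
      (((fun x => (starRingEnd ℂ) (f x)), taylor k' Q) ::
        (((g1, Q1) :: L).map (fun p => (p.1, taylor k p.2)) ++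
          ((g1, Q1) :: L).map (fun p => ((fun x => (starRingEnd ℂ) (p.1 x)), taylor k' p.2)))) =
    TG H θ g1 f (taylor k Q - taylor k Q1)
      (((fun x => (starRingEnd ℂ) (f x)), taylor k' Q - taylor k Q1) ::
        ((fun x => (starRingEnd ℂ) (g1 x)), taylor k' Q1 - taylor k Q1) ::
        (L.map (fun p => (p.1, taylor k p.2 - taylor k Q1)) ++
          L.map (fun p => ((fun x => (starRingEnd ℂ) (p.1 x)), taylor k' p.2 - taylor k Q1)))) := by
  have hperm : ((fun x => (starRingEnd ℂ) (f x), taylor k' Q) ::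
      (((g1, Q1) :: L).map (fun p => (p.1, taylor k p.2)) ++
        ((g1, Q1) :: L).map (fun p => (fun x => (starRingEnd ℂ) (p.1 x), taylor k' p.2)))).Perm
      ((g1, taylor k Q1) :: ((fun x => (starRingEnd ℂ) (f x), taylor k' Q) ::
        (fun x => (starRingEnd ℂ) (g1 x), taylor k' Q1) ::
      (L.map (fun p => (p.1, taylor k p.2)) ++
        L.map (fun p => (fun x => (starRingEnd ℂ) (p.1 x), taylor k' p.2))))) := by
    rw [List.map_cons, List.map_cons, List.cons_append]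
    refine (List.Perm.swap _ _ _).trans (List.Perm.cons _ (List.Perm.cons _ ?_))
    exact List.perm_middle
  rw [TG_perm _ _ _ _ _ hperm, TG_shift]
  simp only [List.map_cons, List.map_append, List.map_map, Function.comp_def]

/-- Shift by the leaf `(conj f, taylor k' Q)`. -/
lemma s2_eq {M : ℕ} [NeZero M] (H : ℕ) (θ : ℕ → ℂ) (f : ZMod M → ℂ) (Q : ℤ[X]) (k k' : ℤ)
    (L : List ((ZMod M → ℂ) × ℤ[X])) :
    TG H θ (fun _ => 1) f (taylor k Q)
      (((fun x => (starRingEnd ℂ) (f x)), taylor k' Q) ::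
        (L.map (fun p => (p.1, taylor k p.2)) ++
          L.map (fun p => ((fun x => (starRingEnd ℂ) (p.1 x)), taylor k' p.2)))) =
    TG H θ (fun x => (starRingEnd ℂ) (f x)) f (taylor k Q - taylor k' Q)
      (L.map (fun p => (p.1, taylor k p.2 - taylor k' Q)) ++
        L.map (fun p => ((fun x => (starRingEnd ℂ) (p.1 x)), taylor k' p.2 - taylor k' Q))) := by
  rw [TG_shift]
  simp only [List.map_append, List.map_map, Function.comp_def]

/-- Van der Corput and the shift by the first leaf. -/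
lemma vdc1 {M : ℕ} [NeZero M] (H A : ℕ) (hA : 1 ≤ A) (hH : 1 ≤ H) (θ : ℕ → ℂ) (hθ : ∀ t, ‖θ t‖ ≤ 1)
    (g0 g1 f : ZMod M → ℂ) (h0 : Bd g0) (hf : Bd f) (Q Q1 : ℤ[X]) (L : List ((ZMod M → ℂ) × ℤ[X]))
    (hL : ∀ p ∈ (g1, Q1) :: L, Bd p.1) :
    ‖TG H θ g0 f Q ((g1, Q1) :: L)‖ ^ 2 ≤ tvr A (fun k => tvr A (fun k' =>
      ‖TG H (fun t => θ (t + k) * (starRingEnd ℂ) (θ (t + k'))) g1 f (taylor (k : ℤ) Q - taylor (k : ℤ) Q1)
        (((fun x => (starRingEnd ℂ) (f x)), taylor (k' : ℤ) Q - taylor (k : ℤ) Q1) ::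
        ((fun x => (starRingEnd ℂ) (g1 x)), taylor (k' : ℤ) Q1 - taylor (k : ℤ) Q1) ::
        (L.map (fun p => (p.1, taylor (k : ℤ) p.2 - taylor (k : ℤ) Q1)) ++
          L.map (fun p => ((fun x => (starRingEnd ℂ) (p.1 x)), taylor (k' : ℤ) p.2 - taylor (k : ℤ) Q1))))‖)) +
      8 * ((A : ℝ) / H) := by
  have hv := TG_vdc H A hA hH θ hθ g0 f h0 hf Q _ hL
  rw [mul_div_assoc] at hv
  refine hv.trans (add_le_add (le_of_eq (tvr_congr2 fun k k' => ?_)) le_rfl)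
  rw [s1_eq]

/-- Van der Corput and the shift by `conj f`. -/
lemma vdc2 {M : ℕ} [NeZero M] (H A : ℕ) (hA : 1 ≤ A) (hH : 1 ≤ H) (θ : ℕ → ℂ) (hθ : ∀ t, ‖θ t‖ ≤ 1)
    (g0 f : ZMod M → ℂ) (h0 : Bd g0) (hf : Bd f) (Q : ℤ[X]) (L : List ((ZMod M → ℂ) × ℤ[X]))
    (hL : ∀ p ∈ L, Bd p.1) :
    ‖TG H θ g0 f Q L‖ ^ 2 ≤ tvr A (fun k => tvr A (fun k' =>
      ‖TG H (fun t => θ (t + k) * (starRingEnd ℂ) (θ (t + k'))) (fun x => (starRingEnd ℂ) (f x)) f
        (taylor (k : ℤ) Q - taylor (k' : ℤ) Q)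
        (L.map (fun p => (p.1, taylor (k : ℤ) p.2 - taylor (k' : ℤ) Q)) ++
        L.map (fun p => ((fun x => (starRingEnd ℂ) (p.1 x)), taylor (k' : ℤ) p.2 - taylor (k' : ℤ) Q)))‖)) +
      8 * ((A : ℝ) / H) := by
  have hv := TG_vdc H A hA hH θ hθ g0 f h0 hf Q _ hL
  rw [mul_div_assoc] at hv
  refine hv.trans (add_le_add (le_of_eq (tvr_congr2 fun k k' => ?_)) le_rfl)
  rw [s2_eq]

end GoodAAux

open GoodAAux

theorem good_perm (sz : α → ℕ) (D : ℕ) (Ω : ℕ → Finset τ) (Qs : α → τ → ℤ[X]) {L L' : List (α → τ → ℤ[X])}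
    (h : L.Perm L') (hG : GoodF sz D Ω Qs L) : GoodF sz D Ω Qs L' := by
  obtain ⟨τ', Ω', cs, s, B, h1, h2, h3, h4, h5⟩ := hG
  refine ⟨τ', Ω', cs, s, B, h1, h2, h3, h4, ?_⟩
  intro M _ a H A hA hH f hf θ hθ g0 hg0 G hGL hGB
  obtain ⟨G', hp, hm⟩ := perm_lift Prod.snd h G hGL
  have h6 := h5 M a H A hA hH f hf θ hθ g0 hg0 G' hm (fun p hpG => hGB p (hp.mem_iff.1 hpG))
  have h7 : (fun h => ‖TG H (θ h) (g0 h) f (Qs a h) (G.map (fun p => (p.1 h, p.2 a h)))‖) =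
      (fun h => ‖TG H (θ h) (g0 h) f (Qs a h) (G'.map (fun p => (p.1 h, p.2 a h)))‖) := by
    funext h
    rw [TG_perm H (θ h) (g0 h) f (Qs a h) (hp.map (fun p => (p.1 h, p.2 a h)))]
  rw [h7]
  exact h6

theorem good_absorb (sz : α → ℕ) (D : ℕ) (Ω : ℕ → Finset τ) (Qs Q1 : α → τ → ℤ[X]) (L : List (α → τ → ℤ[X]))
    (h : ∀ a h, (Q1 a h).natDegree = 0) (hG : GoodF sz D Ω Qs L) : GoodF sz D Ω Qs (Q1 :: L) := by
  obtain ⟨τ', Ω', cs, s, B, h1, h2, h3, h4, h5⟩ := hG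
  refine ⟨τ', Ω', cs, s, B, h1, h2, h3, h4, ?_⟩
  intro M _ a H A hA hH f hf θ hθ g0 hg0 G hGL hGB
  cases G with
  | nil => simp at hGL
  | cons g G =>
    rw [List.map_cons, List.cons.injEq] at hGL
    have hg1 : ∀ h, Bd (g.1 h) := hGB g List.mem_cons_self
    have h6 := h5 M a H A hA hH f hf θ hθ
      (fun h x => g0 h x * g.1 h (x + (((Q1 a h).coeff 0 : ℤ) : ZMod M)))
      (fun h => Bd_mul (hg0 h) (Bd_shift _ (hg1 h))) G hGL.2 (fun p hpG => hGB p (List.mem_cons_of_mem _ hpG))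
    have h7 : (fun h => ‖TG H (θ h) (g0 h) f (Qs a h) ((g :: G).map (fun p => (p.1 h, p.2 a h)))‖) =
        (fun h' => ‖TG H (θ h') ((fun h x => g0 h x * g.1 h (x + (((Q1 a h).coeff 0 : ℤ) : ZMod M))) h') f
          (Qs a h') (G.map (fun p => (p.1 h', p.2 a h')))‖) := by
      funext h'
      rw [List.map_cons, hGL.1]
      have h8 : Q1 a h' = C ((Q1 a h').coeff 0) := eq_C_of_natDegree_eq_zero (h a h')
      rw [h8, TG_absorb]
    rw [h7]
    exact h6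

theorem good_s1 (sz : α → ℕ) (D : ℕ) (Ω : ℕ → Finset τ) (Qs Q1 : α → τ → ℤ[X]) (L : List (α → τ → ℤ[X]))
    (hG : GoodF sz D (Om2 Ω) (fun a p => lt0 Qs a p - lt0 Q1 a p)
      ((fun a p => lt1 Qs a p - lt0 Q1 a p) :: (fun a p => lt1 Q1 a p - lt0 Q1 a p) ::
        (L.map (fun Q a p => lt0 Q a p - lt0 Q1 a p) ++ L.map (fun Q a p => lt1 Q a p - lt0 Q1 a p)))) :
    GoodF sz D Ω Qs (Q1 :: L) := by
  obtain ⟨τ', Ω', cs, s, B, h1, h2, h3, h4, h5⟩ := hG
  refine ⟨τ', Ω', cs, 2 * s, 2 ^ s * (B + 8), by omega, h2, h3, h4, ?_⟩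
  intro M _ a H A hA hH f hf θ hθ g0 hg0 G hGL hGB
  cases G with
  | nil => simp at hGL
  | cons g G =>
    rw [List.map_cons, List.cons.injEq] at hGL
    obtain ⟨hgQ, hGL⟩ := hGL
    have hg1 : ∀ h, Bd (g.1 h) := hGB g List.mem_cons_self
    have hGB' : ∀ p ∈ G, ∀ h, Bd (p.1 h) := fun p hp => hGB p (List.mem_cons_of_mem _ hp)
    set θ' : τ × (ℕ × ℕ) → ℕ → ℂ := fun p t => θ p.1 (t + p.2.1) * (starRingEnd ℂ) (θ p.1 (t + p.2.2)) with hθ'
    set G' : List ((τ × (ℕ × ℕ) → ZMod M → ℂ) × (α → τ × (ℕ × ℕ) → ℤ[X])) :=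
      (fun _ x => (starRingEnd ℂ) (f x), fun a p => lt1 Qs a p - lt0 Q1 a p) ::
      (fun p x => (starRingEnd ℂ) (g.1 p.1 x), fun a p => lt1 Q1 a p - lt0 Q1 a p) ::
      (G.map (fun q => (fun (p : τ × (ℕ × ℕ)) => q.1 p.1, fun a p => lt0 q.2 a p - lt0 Q1 a p)) ++
        G.map (fun q => (fun (p : τ × (ℕ × ℕ)) x => (starRingEnd ℂ) (q.1 p.1 x),
          fun a p => lt1 q.2 a p - lt0 Q1 a p))) with hG'
    have h6 := h5 M a H A hA hH f hf θ' (by
        intro p t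
        rw [hθ']
        change ‖θ p.1 (t + p.2.1) * (starRingEnd ℂ) (θ p.1 (t + p.2.2))‖ ≤ 1
        rw [norm_mul, RCLike.norm_conj]
        exact mul_le_one₀ (hθ _ _) (norm_nonneg _) (hθ _ _))
      (fun p => g.1 p.1) (fun p => hg1 p.1) G' (by
        rw [hG', ← hGL]
        simp only [List.map_cons, List.map_append, List.map_map]
        rfl) (by
        intro p hp q
        rw [hG'] at hp
        simp only [List.mem_cons, List.mem_append, List.mem_map] at hp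
        rcases hp with rfl | rfl | ⟨r, hr, rfl⟩ | ⟨r, hr, rfl⟩
        · exact Bd_conj hf
        · exact Bd_conj (hg1 q.1)
        · exact hGB' r hr q.1
        · exact Bd_conj (hGB' r hr q.1))
    have hGl : ∀ h, ∀ p ∈ (g :: G).map (fun p => (p.1 h, p.2 a h)), Bd p.1 := by
      intro h p hp
      rw [List.mem_map] at hp
      obtain ⟨r, hr, rfl⟩ := hp
      exact hGB r hr h
    obtain ⟨F, hF⟩ : ∃ F : τ → ℝ, F = fun h => ‖TG H (θ h) (g0 h) f (Qs a h)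
      ((g :: G).map (fun p => (p.1 h, p.2 a h)))‖ := ⟨_, rfl⟩
    obtain ⟨F', hF'⟩ : ∃ F' : τ × (ℕ × ℕ) → ℝ, F' = fun h => ‖TG H (θ' h) (g.1 h.1) f (lt0 Qs a h - lt0 Q1 a h)
      (G'.map (fun p => (p.1 h, p.2 a h)))‖ := ⟨_, rfl⟩
    have h7 : evr (Om2 Ω A) F' ^ s ≤ B * (evr (Ω' A) (fun h => ‖BB (cs.map (fun c => fe A ((c a h : ℤ) : ZMod M))) f‖) +
        (A : ℝ) / H) := by
      rw [hF']
      exact h6
    rw [← hF]
    have hF0 : ∀ h, 0 ≤ F h := by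
      intro h
      rw [hF]
      exact norm_nonneg _
    have hF'0 : ∀ h, 0 ≤ F' h := by
      intro h
      rw [hF']
      exact norm_nonneg _
    have hF1 : ∀ h, F h ≤ 1 := by
      intro h
      rw [hF]
      exact TG_le_one H (θ h) (hθ h) (g0 h) f (hg0 h) hf _ _ (hGl h)
    have key : ∀ h, F h ^ 2 ≤ tvr A (fun k => tvr A (fun k' => F' (h, (k, k')))) + 8 * ((A : ℝ) / H) := by
      intro h
      have hc : (g :: G).map (fun p => (p.1 h, p.2 a h)) = (g.1 h, Q1 a h) :: G.map (fun p => (p.1 h, p.2 a h)) := by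
        rw [List.map_cons, hgQ]
      have hGl' := hGl h
      have hFh : F h = ‖TG H (θ h) (g0 h) f (Qs a h) ((g.1 h, Q1 a h) :: G.map (fun p => (p.1 h, p.2 a h)))‖ := by
        rw [hF, ← hc]
      rw [hc] at hGl'
      rw [hFh]
      refine (vdc1 H A hA hH (θ h) (hθ h) (g0 h) (g.1 h) f (hg0 h) hf (Qs a h) (Q1 a h) _ hGl').trans
        (add_le_add (le_of_eq (tvr_congr2 fun k k' => ?_)) le_rfl)
      rw [hF', hG', hθ']
      simp only [List.map_cons, List.map_append, List.map_map, Function.comp_def, lt0, lt1]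
    exact comb _ _ _ _ s B h1 (evr_nonneg _ fun h _ => hF0 h) (evr_le _ zero_le_one fun h _ => hF1 h)
      (evr_nonneg _ fun h _ => hF'0 h) (evr_nonneg _ fun _ _ => norm_nonneg _) (by positivity)
      (vstep Ω A F F' _ (by positivity) hF0 key) h7

theorem good_s2 (sz : α → ℕ) (D : ℕ) (Ω : ℕ → Finset τ) (Qs : α → τ → ℤ[X]) (L : List (α → τ → ℤ[X]))
    (hG : GoodF sz D (Om2 Ω) (fun a p => lt0 Qs a p - lt1 Qs a p)
      (L.map (fun Q a p => lt0 Q a p - lt1 Qs a p) ++ L.map (fun Q a p => lt1 Q a p - lt1 Qs a p))) :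
    GoodF sz D Ω Qs L := by
  obtain ⟨τ', Ω', cs, s, B, h1, h2, h3, h4, h5⟩ := hG
  refine ⟨τ', Ω', cs, 2 * s, 2 ^ s * (B + 8), by omega, h2, h3, h4, ?_⟩
  intro M _ a H A hA hH f hf θ hθ g0 hg0 G hGL hGB
  set θ' : τ × (ℕ × ℕ) → ℕ → ℂ := fun p t => θ p.1 (t + p.2.1) * (starRingEnd ℂ) (θ p.1 (t + p.2.2)) with hθ'
  set G' : List ((τ × (ℕ × ℕ) → ZMod M → ℂ) × (α → τ × (ℕ × ℕ) → ℤ[X])) :=
    (G.map (fun q => (fun (p : τ × (ℕ × ℕ)) => q.1 p.1, fun a p => lt0 q.2 a p - lt1 Qs a p)) ++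
      G.map (fun q => (fun (p : τ × (ℕ × ℕ)) x => (starRingEnd ℂ) (q.1 p.1 x),
        fun a p => lt1 q.2 a p - lt1 Qs a p))) with hG'
  have h6 := h5 M a H A hA hH f hf θ' (by
      intro p t
      rw [hθ']
      change ‖θ p.1 (t + p.2.1) * (starRingEnd ℂ) (θ p.1 (t + p.2.2))‖ ≤ 1
      rw [norm_mul, RCLike.norm_conj]
      exact mul_le_one₀ (hθ _ _) (norm_nonneg _) (hθ _ _))
    (fun _ x => (starRingEnd ℂ) (f x)) (fun _ => Bd_conj hf) G' (by
      rw [hG', ← hGL]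
      simp only [List.map_append, List.map_map]
      rfl) (by
      intro p hp q
      rw [hG'] at hp
      simp only [List.mem_append, List.mem_map] at hp
      rcases hp with ⟨r, hr, rfl⟩ | ⟨r, hr, rfl⟩
      · exact hGB r hr q.1
      · exact Bd_conj (hGB r hr q.1))
  have hGl : ∀ h, ∀ p ∈ G.map (fun p => (p.1 h, p.2 a h)), Bd p.1 := by
    intro h p hp
    rw [List.mem_map] at hp
    obtain ⟨r, hr, rfl⟩ := hp
    exact hGB r hr h
  obtain ⟨F, hF⟩ : ∃ F : τ → ℝ, F = fun h => ‖TG H (θ h) (g0 h) f (Qs a h)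
    (G.map (fun p => (p.1 h, p.2 a h)))‖ := ⟨_, rfl⟩
  obtain ⟨F', hF'⟩ : ∃ F' : τ × (ℕ × ℕ) → ℝ, F' = fun h => ‖TG H (θ' h) (fun x => (starRingEnd ℂ) (f x)) f
    (lt0 Qs a h - lt1 Qs a h) (G'.map (fun p => (p.1 h, p.2 a h)))‖ := ⟨_, rfl⟩
  have h7 : evr (Om2 Ω A) F' ^ s ≤ B * (evr (Ω' A) (fun h => ‖BB (cs.map (fun c => fe A ((c a h : ℤ) : ZMod M))) f‖) +
      (A : ℝ) / H) := by
    rw [hF']
    exact h6
  rw [← hF]
  have hF0 : ∀ h, 0 ≤ F h := by
    intro h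
    rw [hF]
    exact norm_nonneg _
  have hF'0 : ∀ h, 0 ≤ F' h := by
    intro h
    rw [hF']
    exact norm_nonneg _
  have hF1 : ∀ h, F h ≤ 1 := by
    intro h
    rw [hF]
    exact TG_le_one H (θ h) (hθ h) (g0 h) f (hg0 h) hf _ _ (hGl h)
  have key : ∀ h, F h ^ 2 ≤ tvr A (fun k => tvr A (fun k' => F' (h, (k, k')))) + 8 * ((A : ℝ) / H) := by
    intro h
    rw [hF]
    refine (vdc2 H A hA hH (θ h) (hθ h) (g0 h) f (hg0 h) hf (Qs a h) _ (hGl h)).trans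
      (add_le_add (le_of_eq (tvr_congr2 fun k k' => ?_)) le_rfl)
    rw [hF', hG', hθ']
    simp only [List.map_append, List.map_map, Function.comp_def, lt0, lt1]
  exact comb _ _ _ _ s B h1 (evr_nonneg _ fun h _ => hF0 h) (evr_le _ zero_le_one fun h _ => hF1 h)
    (evr_nonneg _ fun h _ => hF'0 h) (evr_nonneg _ fun _ _ => norm_nonneg _) (by positivity)
    (vstep Ω A F F' _ (by positivity) hF0 key) h7

theorem good_lin (sz : α → ℕ) (D : ℕ) (Ω : ℕ → Finset τ) (hΩ : ∀ A, 1 ≤ A → (Ω A).Nonempty)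
    (Qs : α → τ → ℤ[X]) (L : List (α → τ → ℤ[X])) (h : StageStart sz D 1 Ω Qs L) : GoodF sz D Ω Qs L := by
  obtain ⟨hd, hE, hL⟩ := h
  obtain ⟨B, hB⟩ := lin_g L.length
  refine ⟨τ, Ω, (fun a h => (Qs a h).coeff 1) ::
    (L.map (fun Q a h => (Qs a h).coeff 1 - (Q a h).coeff 1) ++ [fun a h => (Qs a h).coeff 1]),
    2 ^ (L.length + 2), B, Nat.one_le_two_pow, List.cons_ne_nil _ _, hΩ, ?_, ?_⟩
  · intro c hc
    simp only [List.mem_cons, List.mem_append, List.mem_map, List.not_mem_nil, or_false] at hc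
    rcases hc with rfl | ⟨Q, hQ, rfl⟩ | rfl
    · exact hE
    · exact (hL Q hQ).2
    · exact hE
  · intro M _ a H A hA hH f hf θ hθ g0 hg0 G hGL hGB
    refine (evr_pow_le _ (fun _ _ => norm_nonneg _) _ Nat.one_le_two_pow).trans ?_
    have hlen : (G.map Prod.snd).length = L.length := by rw [hGL]
    rw [List.length_map] at hlen
    have key : ∀ h ∈ Ω A, ‖TG H (θ h) (g0 h) f (Qs a h) (G.map (fun p => (p.1 h, p.2 a h)))‖ ^ (2 ^ (L.length + 2)) ≤
        B * (‖BB (((fun a h => (Qs a h).coeff 1) ::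
          (L.map (fun Q a h => (Qs a h).coeff 1 - (Q a h).coeff 1) ++ [fun a h => (Qs a h).coeff 1])).map
            (fun c => fe A ((c a h : ℤ) : ZMod M))) f‖ + (A : ℝ) / H) := by
      intro h _
      have h1 := hB M H A hA hH (θ h) (hθ h) (g0 h) f (hg0 h) hf (Qs a h) (hd a h)
        (G.map (fun p => (p.1 h, p.2 a h))) (by rw [List.length_map, hlen]) (by
          intro p hp
          rw [List.mem_map] at hp
          obtain ⟨r, hr, rfl⟩ := hp
          refine ⟨hGB r hr h, (hL r.2 ?_).1 a h⟩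
          rw [← hGL]
          exact List.mem_map_of_mem hr) (((Qs a h).coeff 1 : ℤ) : ZMod M)
      refine h1.trans (le_of_eq ?_)
      congr 3
      congr 1
      rw [← hGL]
      simp only [List.map_cons, List.map_append, List.map_map, List.map_nil]
      rfl
    refine (evr_mono _ key).trans ?_
    rw [evr_mul_left, evr_add]
    refine mul_le_mul_of_nonneg_left ?_ (Nat.cast_nonneg _)
    exact add_le_add le_rfl (evr_le _ (by positivity) fun _ _ => le_rfl)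

end Pool.Agent.NLG
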