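import Pool.Agent.Lib.NLG.TGA
import Pool.Agent.Lib.NLG.BXB

/-!
# Module LinG: families of linear polynomials

PROOF by induction on `l = L.length`, for all `θ`, `g0`, `f`, `Q`, `L`. Write `a` for the linear coefficient of `Q`, `a_j` for those of the leaves.
By van der Corput (`vdc_norm` as in `TG_vdc`; trivial if `A > H`), `‖TG‖ ^ 2 ≤ tvr A tvr A ‖T_(k, k')‖ + 8 A / H` with
`T_(k, k') = E_t θ' (t) E_x f' (x + a t) ∏_j g'_j (x + a_j t)`, `θ' (t) = θ (t + k) conj θ (t + k')`, `f' (x) = f (x + a k + b) conj f (x + a k' + b)` (a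
translate of `Dl (a (k' - k)) f`), `g'_j (x) = g_j (x + a_j k + b_j) conj g_j (x + a_j k' + b_j)`.
`l = 0`: `T_(k, k') = (E_t θ') E_x f'`, so `‖T_(k, k')‖ ^ 2 ≤ ‖av (Dl (a (k' - k)) f)‖ ^ 2 ≤ Q2 A (Dl (a (k' - k)) f) w = BB [fe A w] (..)` (Cauchy-Schwarz:
`av F = av_x tv_i F (x + w i)`). `l + 1`: shift `x` by `- a_1 t`: root `g'_1`, function `f'` at `(a - a_1) t`, leaves `(a_j - a_1) t`; induction for
`T_(k, k')` with the list of length `l`: directions `a - a_1`, `(a - a_1) - (a_j - a_1) = a - a_j`, `w`, function `Dl (a (k' - k)) f` (`BB_shift`).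
In both cases, with `V = tvr A tvr A ‖T‖`, `V ^ (2 ^ m) ≤ tvr A tvr A ‖T‖ ^ (2 ^ m) ≤ B' (tvr A tvr A ‖BB L' (Dl (a (k' - k)) f)‖ + A / H) =
B' (‖BB (fe A a :: L') f‖ + A / H)` (`BB_fe`, `BB_eq_norm`), and `‖TG‖ ^ (2 ^ (m + 1)) ≤ (V + 8 A / H) ^ (2 ^ m) ≤ 2 ^ (2 ^ m) (V ^ (2 ^ m) + 8 A / H)`
if `8 A / H ≤ 1`; otherwise `‖TG‖ ≤ 1 ≤ 8 A / H`. (`BB_perm` is not needed: the direction `a` is in front.)
-/

set_option autoImplicit false

open Finset Polynomial

namespace Pool.Agent.NLG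

open Pool.Agent.HLT Pool.Agent.NLT

namespace LinGAux

section

variable {M : ℕ} [NeZero M]

/-- Linear counting operator. -/
noncomputable def LinT (H : ℕ) (θ : ℕ → ℂ) (g0 f : ZMod M → ℂ) (a : ZMod M) (L : List ((ZMod M → ℂ) × ZMod M)) : ℂ :=
  tv H (fun t => av (fun x => θ t * g0 x * f (x + a * (t : ZMod M)) *
    (L.map (fun g => g.1 (x + g.2 * (t : ZMod M)))).prod))

theorem prod_le (L : List ((ZMod M → ℂ) × ZMod M)) (hL : ∀ p ∈ L, Bd p.1) (y : ZMod M → ZMod M) :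
    ‖(L.map (fun g => g.1 (y g.2))).prod‖ ≤ 1 := by
  induction L with
  | nil => simp
  | cons g L ih =>
    rw [List.map_cons, List.prod_cons, norm_mul]
    exact mul_le_one₀ (hL g (List.mem_cons_self) (y g.2)) (norm_nonneg _)
      (ih (fun p hp => hL p (List.mem_cons_of_mem _ hp)))

theorem LinT_le_one (H : ℕ) (θ : ℕ → ℂ) (hθ : ∀ t, ‖θ t‖ ≤ 1) (g0 f : ZMod M → ℂ) (h0 : Bd g0) (hf : Bd f)
    (a : ZMod M) (L : List ((ZMod M → ℂ) × ZMod M)) (hL : ∀ p ∈ L, Bd p.1) : ‖LinT H θ g0 f a L‖ ≤ 1 := by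
  unfold LinT
  refine norm_tv_le_one H _ (fun t => norm_av_le_one (fun x => ?_))
  exact TGAAux.norm4 (hθ t) (h0 x) (hf _) (prod_le L hL (fun c => x + c * (t : ZMod M)))

/-- The differenced leaves. -/
noncomputable def dL (k k' : ℕ) (L : List ((ZMod M → ℂ) × ZMod M)) : List ((ZMod M → ℂ) × ZMod M) :=
  L.map (fun p => ((fun x => p.1 (x + p.2 * (k : ZMod M)) * (starRingEnd ℂ) (p.1 (x + p.2 * (k' : ZMod M)))), p.2))

theorem dL_Bd (k k' : ℕ) (L : List ((ZMod M → ℂ) × ZMod M)) (hL : ∀ p ∈ L, Bd p.1) : ∀ p ∈ dL k k' L, Bd p.1 := by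
  intro p hp
  unfold dL at hp
  rw [List.mem_map] at hp
  obtain ⟨q, hq, rfl⟩ := hp
  intro x
  rw [norm_mul, RCLike.norm_conj]
  exact mul_le_one₀ (hL q hq _) (norm_nonneg _) (hL q hq _)

theorem prod_dL (k k' t : ℕ) (x : ZMod M) (L : List ((ZMod M → ℂ) × ZMod M)) :
    (L.map (fun g => g.1 (x + g.2 * ((t + k : ℕ) : ZMod M)))).prod *
      (starRingEnd ℂ) (L.map (fun g => g.1 (x + g.2 * ((t + k' : ℕ) : ZMod M)))).prod =
    ((dL k k' L).map (fun g => g.1 (x + g.2 * (t : ZMod M)))).prod := by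
  induction L with
  | nil => simp [dL]
  | cons g L ih =>
    unfold dL at ih ⊢
    simp only [List.map_cons, List.prod_cons, map_mul]
    rw [← ih]
    have e1 : x + g.2 * ((t + k : ℕ) : ZMod M) = x + g.2 * (t : ZMod M) + g.2 * (k : ZMod M) := by
      push_cast
      ring
    have e2 : x + g.2 * ((t + k' : ℕ) : ZMod M) = x + g.2 * (t : ZMod M) + g.2 * (k' : ZMod M) := by
      push_cast
      ring
    rw [e1, e2]
    ring

/-- The differenced function. -/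
noncomputable def df (a : ZMod M) (k k' : ℕ) (f : ZMod M → ℂ) : ZMod M → ℂ :=
  fun x => Dl (a * ((k' : ZMod M) - (k : ZMod M))) f (x + a * (k : ZMod M))

theorem df_Bd (a : ZMod M) (k k' : ℕ) (f : ZMod M → ℂ) (hf : Bd f) : Bd (df a k k' f) :=
  Bd_shift _ (Dl_Bd _ hf)

theorem LinT_vdc (H A : ℕ) (hA : 1 ≤ A) (hAH : A ≤ H) (θ : ℕ → ℂ) (hθ : ∀ t, ‖θ t‖ ≤ 1) (g0 f : ZMod M → ℂ)
    (h0 : Bd g0) (hf : Bd f) (a : ZMod M) (L : List ((ZMod M → ℂ) × ZMod M)) (hL : ∀ p ∈ L, Bd p.1) :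
    ‖LinT H θ g0 f a L‖ ^ 2 ≤ tvr A (fun k => tvr A (fun k' =>
      ‖LinT H (fun t => θ (t + k) * (starRingEnd ℂ) (θ (t + k'))) (fun _ => 1) (df a k k' f) a (dL k k' L)‖))
        + 8 * A / H := by
  have hφ : ∀ (x : ZMod M) (t : ℕ), ‖θ t * f (x + a * (t : ZMod M)) *
      (L.map (fun g => g.1 (x + g.2 * (t : ZMod M)))).prod‖ ≤ 1 := by
    intro x t
    have h1 := TGAAux.norm4 (hθ t) (b := 1) (by simp) (hf (x + a * (t : ZMod M)))
      (prod_le L hL (fun c => x + c * (t : ZMod M)))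
    rwa [mul_one] at h1
  have h1 := vdc_norm H A hA hAH g0 h0 (fun x t => θ t * f (x + a * (t : ZMod M)) *
      (L.map (fun g => g.1 (x + g.2 * (t : ZMod M)))).prod) hφ
  have h2 : LinT H θ g0 f a L = tv H (fun t => av (fun x => g0 x * (θ t *
      f (x + a * (t : ZMod M)) * (L.map (fun g => g.1 (x + g.2 * (t : ZMod M)))).prod))) := by
    unfold LinT
    refine TGAAux.TG_congr H (fun t x => ?_)
    ring
  rw [← h2] at h1
  refine h1.trans (le_of_eq ?_)
  congr 1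
  congr 1
  funext k
  congr 1
  funext k'
  congr 1
  unfold LinT
  refine TGAAux.TG_congr H (fun t x => ?_)
  rw [← prod_dL]
  unfold df Dl
  rw [map_mul, map_mul]
  have e1 : x + a * ((t + k : ℕ) : ZMod M) = x + a * (t : ZMod M) + a * (k : ZMod M) := by
    push_cast
    ring
  have e2 : x + a * ((t + k' : ℕ) : ZMod M) =
      x + a * (t : ZMod M) + a * (k : ZMod M) + a * ((k' : ZMod M) - (k : ZMod M)) := by
    push_cast
    ring
  rw [e1, e2]
  ring

theorem LinT_cons (H : ℕ) (θ : ℕ → ℂ) (f : ZMod M → ℂ) (a : ZMod M) (g : (ZMod M → ℂ) × ZMod M)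
    (L : List ((ZMod M → ℂ) × ZMod M)) :
    LinT H θ (fun _ => 1) f a (g :: L) = LinT H θ g.1 f (a - g.2) (L.map (fun p => (p.1, p.2 - g.2))) := by
  unfold LinT
  congr 1
  funext t
  rw [← av_shift (fun x => θ t * g.1 x * f (x + (a - g.2) * (t : ZMod M)) *
    ((L.map (fun p => (p.1, p.2 - g.2))).map (fun g => g.1 (x + g.2 * (t : ZMod M)))).prod)
    (g.2 * (t : ZMod M))]
  congr 1
  funext x
  rw [List.map_cons, List.prod_cons, List.map_map]
  have h1 : ∀ c : ZMod M, x + g.2 * (t : ZMod M) + (c - g.2) * (t : ZMod M) = x + c * (t : ZMod M) := by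
    intro c
    ring
  have h2 : L.map ((fun p : (ZMod M → ℂ) × ZMod M => p.1 (x + g.2 * (t : ZMod M) + p.2 * (t : ZMod M))) ∘
      (fun p => (p.1, p.2 - g.2))) = L.map (fun p => p.1 (x + p.2 * (t : ZMod M))) := by
    refine List.map_congr_left (fun p _ => ?_)
    change p.1 (x + g.2 * (t : ZMod M) + (p.2 - g.2) * (t : ZMod M)) = _
    rw [h1]
  rw [h2, h1]
  ring

theorem tvr_pow_le (A n : ℕ) (hn : 1 ≤ n) (F : ℕ → ℝ) (hF : ∀ i, 0 ≤ F i) :
    tvr A F ^ n ≤ tvr A (fun i => F i ^ n) := by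
  rw [tvr_eq_evr, tvr_eq_evr]
  exact evr_pow_le _ (fun i _ => hF i) n hn

theorem tvr2_pow_le (A n : ℕ) (hn : 1 ≤ n) (F : ℕ → ℕ → ℝ) (hF : ∀ i j, 0 ≤ F i j) :
    tvr A (fun i => tvr A (fun j => F i j)) ^ n ≤ tvr A (fun i => tvr A (fun j => F i j ^ n)) := by
  refine (tvr_pow_le A n hn _ (fun i => tvr_nonneg A (fun j => hF i j))).trans ?_
  exact tvr_mono A (fun i _ => tvr_pow_le A n hn _ (fun j => hF i j))

theorem tvr_aff (A : ℕ) (hA : 1 ≤ A) (B c : ℝ) (F : ℕ → ℝ) :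
    tvr A (fun i => B * (F i + c)) = B * (tvr A F + c) := by
  have hA' : (A : ℝ) ≠ 0 := by exact_mod_cast (by omega : A ≠ 0)
  unfold tvr
  rw [← Finset.mul_sum, Finset.sum_add_distrib, Finset.sum_const, Finset.card_range, nsmul_eq_mul]
  field_simp

theorem tvR (H : ℕ) (F : ℕ → ℝ) : tv H (fun t => (F t : ℂ)) = (tvr H F : ℂ) := by
  unfold tv tvr
  push_cast
  rfl

theorem BB_avg (A : ℕ) (hA : 1 ≤ A) (a : ZMod M) (L : List (ZMod M → ℝ)) (hL : L ≠ []) (h : ∀ μ ∈ L, PD μ)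
    (f : ZMod M → ℂ) :
    tvr A (fun i => tvr A (fun j => ‖BB L (Dl (a * ((j : ZMod M) - (i : ZMod M))) f)‖)) =
      ‖BB (fe A a :: L) f‖ := by
  have h1 : BB (fe A a :: L) f =
      ((tvr A (fun i => tvr A (fun j => ‖BB L (Dl (a * ((j : ZMod M) - (i : ZMod M))) f)‖)) : ℝ) : ℂ) := by
    rw [BB_fe, ← tvR]
    congr 1
    funext i
    rw [← tvR]
    congr 1
    funext j
    exact BB_eq_norm L hL h _
  rw [h1, Complex.norm_real, Real.norm_of_nonneg]
  exact tvr_nonneg A (fun i => tvr_nonneg A (fun j => norm_nonneg _))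

theorem stp (H A n : ℕ) (hA : 1 ≤ A) (hH : 1 ≤ H) (hn : 1 ≤ n) (B : ℝ) (hB : 0 ≤ B) (a : ZMod M)
    (L : List (ZMod M → ℝ)) (hL : L ≠ []) (h : ∀ μ ∈ L, PD μ) (f : ZMod M → ℂ) (S : ℂ) (hS : ‖S‖ ≤ 1)
    (T : ℕ → ℕ → ℂ)
    (h1 : A ≤ H → ‖S‖ ^ 2 ≤ tvr A (fun k => tvr A (fun k' => ‖T k k'‖)) + 8 * A / H)
    (h2 : ∀ k k', ‖T k k'‖ ^ n ≤ B * (‖BB L (Dl (a * ((k' : ZMod M) - (k : ZMod M))) f)‖ + (A : ℝ) / H)) :
    ‖S‖ ^ (2 * n) ≤ 2 ^ n * (B + 8) * (‖BB (fe A a :: L) f‖ + (A : ℝ) / H) := by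
  have hH' : (0 : ℝ) < H := by exact_mod_cast hH
  have hA' : (1 : ℝ) ≤ A := by exact_mod_cast hA
  have hS2 : ‖S‖ ^ (2 * n) ≤ 1 := pow_le_one₀ (norm_nonneg _) hS
  have hX : 0 ≤ ‖BB (fe A a :: L) f‖ := norm_nonneg _
  have hr : 0 ≤ (A : ℝ) / H := by positivity
  have h2n : (1 : ℝ) ≤ 2 ^ n := one_le_pow₀ (by norm_num)
  by_cases h8 : 8 * (A : ℝ) / H ≤ 1
  · have hAH : A ≤ H := by
      rw [div_le_one hH'] at h8
      have : (A : ℝ) ≤ H := by linarith
      exact_mod_cast this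
    set V := tvr A (fun k => tvr A (fun k' => ‖T k k'‖)) with hV
    have hV0 : 0 ≤ V := tvr_nonneg A (fun i => tvr_nonneg A (fun j => norm_nonneg _))
    have h3 : V ^ n ≤ B * (‖BB (fe A a :: L) f‖ + (A : ℝ) / H) := by
      refine (tvr2_pow_le A n hn _ (fun i j => norm_nonneg _)).trans ?_
      have h4 : tvr A (fun i => tvr A (fun j => ‖T i j‖ ^ n)) ≤
          tvr A (fun i => tvr A (fun j => B * (‖BB L (Dl (a * ((j : ZMod M) - (i : ZMod M))) f)‖ + (A : ℝ) / H))) :=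
        tvr_mono A (fun i _ => tvr_mono A (fun j _ => h2 i j))
      refine h4.trans (le_of_eq ?_)
      rw [← BB_avg A hA a L hL h f]
      have h5 : (fun i : ℕ => tvr A (fun j => B * (‖BB L (Dl (a * ((j : ZMod M) - (i : ZMod M))) f)‖ + (A : ℝ) / H))) =
          (fun i : ℕ => B * (tvr A (fun j => ‖BB L (Dl (a * ((j : ZMod M) - (i : ZMod M))) f)‖) + (A : ℝ) / H)) := by
        funext i
        exact tvr_aff A hA B _ _
      rw [h5]
      exact tvr_aff A hA B _ _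
    have h6 : ‖S‖ ^ (2 * n) ≤ (V + 8 * A / H) ^ n := by
      rw [pow_mul]
      exact pow_le_pow_left₀ (by positivity) (h1 hAH) n
    have hy : 0 ≤ 8 * (A : ℝ) / H := by positivity
    have h7 : (V + 8 * A / H) ^ n ≤ 2 ^ n * (V ^ n + (8 * A / H) ^ n) := by
      have h8' : V + 8 * A / H ≤ 2 * max V (8 * A / H) := by
        have := le_max_left V (8 * (A : ℝ) / H)
        have := le_max_right V (8 * (A : ℝ) / H)
        linarith
      refine (pow_le_pow_left₀ (by positivity) h8' n).trans ?_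
      rw [mul_pow]
      refine mul_le_mul_of_nonneg_left ?_ (by positivity)
      rcases le_total V (8 * (A : ℝ) / H) with h9 | h9
      · rw [max_eq_right h9]
        have : 0 ≤ V ^ n := by positivity
        linarith
      · rw [max_eq_left h9]
        have : 0 ≤ (8 * (A : ℝ) / H) ^ n := by positivity
        linarith
    have h10 : (8 * (A : ℝ) / H) ^ n ≤ 8 * ((A : ℝ) / H) := by
      refine (pow_le_of_le_one hy h8 (by omega)).trans (le_of_eq ?_)
      ring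
    calc ‖S‖ ^ (2 * n) ≤ 2 ^ n * (V ^ n + (8 * A / H) ^ n) := h6.trans h7
      _ ≤ 2 ^ n * (B * (‖BB (fe A a :: L) f‖ + (A : ℝ) / H) + 8 * ((A : ℝ) / H)) := by
          refine mul_le_mul_of_nonneg_left (add_le_add h3 h10) (by positivity)
      _ ≤ 2 ^ n * ((B + 8) * (‖BB (fe A a :: L) f‖ + (A : ℝ) / H)) := by
          refine mul_le_mul_of_nonneg_left ?_ (by positivity)
          nlinarith
      _ = _ := by ring
  · push Not at h8
    refine hS2.trans ?_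
    have h11 : (1 : ℝ) ≤ 8 * (‖BB (fe A a :: L) f‖ + (A : ℝ) / H) := by
      have : 8 * (A : ℝ) / H = 8 * ((A : ℝ) / H) := by ring
      linarith
    have h12 : 8 * (‖BB (fe A a :: L) f‖ + (A : ℝ) / H) ≤
        2 ^ n * (B + 8) * (‖BB (fe A a :: L) f‖ + (A : ℝ) / H) := by
      refine mul_le_mul_of_nonneg_right ?_ (by positivity)
      nlinarith
    exact h11.trans h12

theorem av_sq_le_Q2 (A : ℕ) (hA : 1 ≤ A) (F : ZMod M → ℂ) (w : ZMod M) : ‖av F‖ ^ 2 ≤ Q2 A F w := by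
  have h1 : av F = av (fun x => tv A (fun i => F (x + w * (i : ZMod M)))) := by
    rw [← tv_av_comm A (fun i x => F (x + w * (i : ZMod M)))]
    have h2 : (fun i : ℕ => av (fun x => F (x + w * (i : ZMod M)))) = fun _ => av F := by
      funext i
      exact av_shift F _
    rw [h2, tv_const A hA]
  rw [h1]
  unfold Q2
  have h3 := norm_ev_pow_le (univ : Finset (ZMod M)) (fun x => tv A (fun i => F (x + w * (i : ZMod M)))) 2 (by norm_num)
  rwa [← av_eq_ev, ← avr_eq_evr] at h3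

theorem fe_list_PD (A : ℕ) (hA : 1 ≤ A) (l : List (ZMod M)) (w : ZMod M) :
    ∀ μ ∈ l.map (fun c => fe A c) ++ [fe A w], PD μ := by
  intro μ hμ
  rw [List.mem_append, List.mem_map] at hμ
  rcases hμ with ⟨c, _, rfl⟩ | h
  · exact PD_fe A hA c
  · rw [List.mem_singleton] at h
    subst h
    exact PD_fe A hA w

theorem base (H A : ℕ) (hA : 1 ≤ A) (hH : 1 ≤ H) (θ : ℕ → ℂ) (hθ : ∀ t, ‖θ t‖ ≤ 1) (f F : ZMod M → ℂ)
    (a b w : ZMod M) (hF : F = fun x => f (x + b)) :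
    ‖LinT H θ (fun _ => 1) F a []‖ ^ 2 ≤ 1 * (‖BB [fe A w] f‖ + (A : ℝ) / H) := by
  have h1 : LinT H θ (fun _ => 1) F a [] = tv H θ * av F := by
    unfold LinT
    have h2 : (fun t => av (fun x => θ t * (fun _ : ZMod M => (1 : ℂ)) x * F (x + a * (t : ZMod M)) *
        (([] : List ((ZMod M → ℂ) × ZMod M)).map (fun g => g.1 (x + g.2 * (t : ZMod M)))).prod)) =
        fun t => av F * θ t := by
      funext t
      have h3 : (fun x : ZMod M => θ t * (fun _ : ZMod M => (1 : ℂ)) x * F (x + a * (t : ZMod M)) *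
        (([] : List ((ZMod M → ℂ) × ZMod M)).map (fun g => g.1 (x + g.2 * (t : ZMod M)))).prod) =
          fun x => θ t * F (x + a * (t : ZMod M)) := by
        funext x
        simp
      rw [h3, av_mul_left, av_shift, mul_comm]
    rw [h2, tv_mul_left, mul_comm]
  have h4 : ‖tv H θ‖ ≤ 1 := norm_tv_le_one H θ hθ
  have h5 : av F = av f := by
    rw [hF, av_shift]
  rw [h1, norm_mul, mul_pow, h5, BB_fe_one, Complex.norm_real, Real.norm_of_nonneg (Q2_nonneg A f w), one_mul]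
  have h6 := av_sq_le_Q2 A hA f w
  have h7 : ‖tv H θ‖ ^ 2 ≤ 1 := pow_le_one₀ (norm_nonneg _) h4
  have h8 : 0 ≤ (A : ℝ) / H := by positivity
  have h9 : 0 ≤ ‖av f‖ ^ 2 := by positivity
  nlinarith

end

theorem lt_main (l : ℕ) : ∃ B : ℕ, ∀ (M : ℕ) [NeZero M] (H A : ℕ), 1 ≤ A → 1 ≤ H → ∀ (θ : ℕ → ℂ), (∀ t, ‖θ t‖ ≤ 1) →
    ∀ g0 f : ZMod M → ℂ, Bd g0 → Bd f → ∀ a : ZMod M, ∀ L : List ((ZMod M → ℂ) × ZMod M), L.length = l →
    (∀ p ∈ L, Bd p.1) → ∀ w : ZMod M,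
    ‖LinT H θ g0 f a L‖ ^ (2 ^ (l + 2)) ≤
      B * (‖BB ((fe A a) :: (L.map (fun p => fe A (a - p.2)) ++ [fe A w])) f‖ + (A : ℝ) / H) := by
  induction l with
  | zero =>
    refine ⟨36, ?_⟩
    intro M _ H A hA hH θ hθ g0 f h0 hf a L hL hB w
    rw [List.length_eq_zero_iff] at hL
    subst hL
    have h := stp H A 2 hA hH (by norm_num) 1 (by norm_num) a [fe A w] (by simp)
      (by intro μ hμ; rw [List.mem_singleton] at hμ; subst hμ; exact PD_fe A hA w) f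
      (LinT H θ g0 f a []) (LinT_le_one H θ hθ g0 f h0 hf a [] hB)
      (fun k k' => LinT H (fun t => θ (t + k) * (starRingEnd ℂ) (θ (t + k'))) (fun _ => 1) (df a k k' f) a (dL k k' []))
      (fun hAH => LinT_vdc H A hA hAH θ hθ g0 f h0 hf a [] hB)
      (fun k k' => by
        refine base H A hA hH _ (fun t => ?_) (Dl (a * ((k' : ZMod M) - (k : ZMod M))) f) _ a
          (a * (k : ZMod M)) w rfl
        rw [norm_mul, RCLike.norm_conj]
        exact mul_le_one₀ (hθ _) (norm_nonneg _) (hθ _))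
    have e : 2 ^ (0 + 2) = 2 * 2 := by norm_num
    rw [e]
    refine h.trans (le_of_eq ?_)
    push_cast
    simp only [List.map_nil, List.nil_append]
    norm_num
  | succ l ih =>
    obtain ⟨B, hB⟩ := ih
    refine ⟨2 ^ (2 ^ (l + 2)) * (B + 8), ?_⟩
    intro M _ H A hA hH θ hθ g0 f h0 hf a L hL hBd w
    obtain ⟨g, L0, rfl⟩ : ∃ g L0, L = g :: L0 := by
      cases L with
      | nil => simp at hL
      | cons g L0 => exact ⟨g, L0, rfl⟩
    have hL0 : L0.length = l := by simpa using hL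
    have hg : Bd g.1 := hBd g List.mem_cons_self
    have hLB : ∀ p ∈ L0, Bd p.1 := fun p hp => hBd p (List.mem_cons_of_mem _ hp)
    have hne : ((g :: L0).map (fun p => fe A (a - p.2)) ++ [fe A w]) ≠ [] := by simp
    have hPD : ∀ μ ∈ ((g :: L0).map (fun p => fe A (a - p.2)) ++ [fe A w]), PD μ := by
      have := fe_list_PD A hA ((g :: L0).map (fun p => a - p.2)) w
      rw [List.map_map] at this
      exact this
    have h := stp H A (2 ^ (l + 2)) hA hH Nat.one_le_two_pow B (Nat.cast_nonneg B) a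
      ((g :: L0).map (fun p => fe A (a - p.2)) ++ [fe A w]) hne hPD f
      (LinT H θ g0 f a (g :: L0)) (LinT_le_one H θ hθ g0 f h0 hf a _ hBd)
      (fun k k' => LinT H (fun t => θ (t + k) * (starRingEnd ℂ) (θ (t + k'))) (fun _ => 1) (df a k k' f) a
        (dL k k' (g :: L0)))
      (fun hAH => LinT_vdc H A hA hAH θ hθ g0 f h0 hf a _ hBd)
      (fun k k' => by
        have hθ' : ∀ t, ‖θ (t + k) * (starRingEnd ℂ) (θ (t + k'))‖ ≤ 1 := by
          intro t
          rw [norm_mul, RCLike.norm_conj]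
          exact mul_le_one₀ (hθ _) (norm_nonneg _) (hθ _)
        have hdB := dL_Bd k k' (g :: L0) hBd
        have e1 : dL k k' (g :: L0) =
            ((fun x => g.1 (x + g.2 * (k : ZMod M)) * (starRingEnd ℂ) (g.1 (x + g.2 * (k' : ZMod M)))), g.2) ::
              dL k k' L0 := rfl
        rw [e1] at hdB ⊢
        rw [LinT_cons]
        have h3 := hB M H A hA hH _ hθ'
          (fun x => g.1 (x + g.2 * (k : ZMod M)) * (starRingEnd ℂ) (g.1 (x + g.2 * (k' : ZMod M))))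
          (df a k k' f) (hdB _ List.mem_cons_self) (df_Bd a k k' f hf) (a - g.2)
          ((dL k k' L0).map (fun p => (p.1, p.2 - g.2))) (by
            unfold dL
            simp [hL0]) (by
            intro p hp
            rw [List.mem_map] at hp
            obtain ⟨q, hq, rfl⟩ := hp
            exact hdB q (List.mem_cons_of_mem _ hq)) w
        refine h3.trans (le_of_eq ?_)
        have e2 : ((fe A (a - g.2)) :: (((dL k k' L0).map (fun p => (p.1, p.2 - g.2))).map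
            (fun p => fe A (a - g.2 - p.2)) ++ [fe A w])) =
            (g :: L0).map (fun p => fe A (a - p.2)) ++ [fe A w] := by
          unfold dL
          rw [List.map_map, List.map_map, List.map_cons, List.cons_append]
          congr 2
          refine List.map_congr_left (fun p _ => ?_)
          change fe A (a - g.2 - (p.2 - g.2)) = fe A (a - p.2)
          congr 1
          ring
        rw [e2]
        unfold df
        rw [BB_shift])
    have e : 2 ^ (l + 1 + 2) = 2 * 2 ^ (l + 2) := by ring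
    rw [e]
    refine h.trans (le_of_eq ?_)
    push_cast
    ring

end LinGAux

open LinGAux

theorem lin_g (l : ℕ) : ∃ B : ℕ, ∀ (M : ℕ) [NeZero M] (H A : ℕ), 1 ≤ A → 1 ≤ H → ∀ (θ : ℕ → ℂ), (∀ t, ‖θ t‖ ≤ 1) →
    ∀ g0 f : ZMod M → ℂ, Bd g0 → Bd f → ∀ Q : ℤ[X], Q.natDegree ≤ 1 → ∀ L : List ((ZMod M → ℂ) × ℤ[X]), L.length = l →
    (∀ p ∈ L, Bd p.1 ∧ p.2.natDegree ≤ 1) → ∀ w : ZMod M,
    ‖TG H θ g0 f Q L‖ ^ (2 ^ (l + 2)) ≤
      B * (‖BB ((fe A ((Q.coeff 1 : ℤ) : ZMod M)) ::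
        (L.map (fun p => fe A ((Q.coeff 1 - p.2.coeff 1 : ℤ) : ZMod M)) ++ [fe A w])) f‖ + (A : ℝ) / H) := by
  obtain ⟨B, hB⟩ := lt_main l
  refine ⟨B, ?_⟩
  intro M _ H A hA hH θ hθ g0 f h0 hf Q hQ L hL hLp w
  have hev : ∀ P : ℤ[X], P.natDegree ≤ 1 → ∀ t : ℕ, ((P.eval (t : ℤ) : ℤ) : ZMod M) =
      ((P.coeff 1 : ℤ) : ZMod M) * (t : ZMod M) + ((P.coeff 0 : ℤ) : ZMod M) := by
    intro P hP t
    have h1 : P.eval (t : ℤ) = P.coeff 1 * (t : ℤ) + P.coeff 0 := by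
      conv_lhs => rw [Polynomial.eq_X_add_C_of_natDegree_le_one hP]
      simp
    rw [h1]
    push_cast
    ring
  have h1 : TG H θ g0 f Q L = LinT H θ g0 (fun x => f (x + ((Q.coeff 0 : ℤ) : ZMod M))) ((Q.coeff 1 : ℤ) : ZMod M)
      (L.map (fun p => ((fun x => p.1 (x + ((p.2.coeff 0 : ℤ) : ZMod M))), ((p.2.coeff 1 : ℤ) : ZMod M)))) := by
    unfold TG LinT
    refine TGAAux.TG_congr H (fun t x => ?_)
    rw [List.map_map]
    have h2 : L.map (fun g => g.1 (x + ((g.2.eval (t : ℤ) : ℤ) : ZMod M))) =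
        L.map ((fun g : (ZMod M → ℂ) × ZMod M => g.1 (x + g.2 * (t : ZMod M))) ∘
          (fun p => ((fun x => p.1 (x + ((p.2.coeff 0 : ℤ) : ZMod M))), ((p.2.coeff 1 : ℤ) : ZMod M)))) := by
      refine List.map_congr_left (fun g hg => ?_)
      change _ = g.1 (x + ((g.2.coeff 1 : ℤ) : ZMod M) * (t : ZMod M) + ((g.2.coeff 0 : ℤ) : ZMod M))
      rw [hev g.2 (hLp g hg).2 t, add_assoc]
    rw [h2, hev Q hQ t, ← add_assoc]
  have h3 := hB M H A hA hH θ hθ g0 (fun x => f (x + ((Q.coeff 0 : ℤ) : ZMod M))) h0 (Bd_shift _ hf)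
    ((Q.coeff 1 : ℤ) : ZMod M)
    (L.map (fun p => ((fun x => p.1 (x + ((p.2.coeff 0 : ℤ) : ZMod M))), ((p.2.coeff 1 : ℤ) : ZMod M))))
    (by simp [hL]) (by
      intro p hp
      rw [List.mem_map] at hp
      obtain ⟨q, hq, rfl⟩ := hp
      exact Bd_shift _ (hLp q hq).1) w
  rw [h1]
  refine h3.trans (le_of_eq ?_)
  rw [BB_shift, List.map_map]
  congr 6
  refine List.map_congr_left (fun p _ => ?_)
  change fe A (((Q.coeff 1 : ℤ) : ZMod M) - ((p.2.coeff 1 : ℤ) : ZMod M)) = _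
  push_cast
  rfl

end Pool.Agent.NLG
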