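import Pool.Agent.Lib.NLG.FamMs
import Pool.Agent.Lib.NLG.IndG
import Pool.Agent.Lib.NLT.MsqAll

/-!
# Module MsqFam: the mean square property for products of sparse one-shift slots and polynomial blocks

Parameters `(S, t)`, `S i ∈ T i` (`i < m'`), `t i ≤ H i` (`i < b`); the slot `j < r` belongs to the block `blk j` and has the shift `Q j (t (blk j)) + u j`;
the degrees of the polynomials of one block are distinct.

PROOF (as NLT/MsqAll, `msq_all`, with `fam_ms` in place of `pair_ms`; its auxiliary lemmas on `Fintype.piFinset` and `Fin.append` can be copied). For a block `i` let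
`s = univ.filter (fun j => blk j = i)`, `k = s.card`; the degrees `(Q j).natDegree`, `j ∈ s`, are distinct, so there is an enumeration `e : Fin k → Fin r` of `s` (bijective onto `s`) such that
`(Q (e ·)).natDegree` is strictly monotone (`Finset.orderEmbOfFin` of the set of degrees, composed with the inverse of `j ↦ natDegree (Q j)` on `s`). `fam_ms k (genA k) (Q ∘ e)` with
`K1 = K (m' + r + 1)`, the given `B`, `ε` gives `B' i`, `C i`. The final `B'`, `C` are at least all `B' i`, `C i` and the constant of `wn_of_wba` (monotonicity of `WBA` as in MsqAll), `b0` from `msp_spec`.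
MSQ, first part: the shifts are `≤ x`: `T i ⊆ range (x + 1)` and the hypothesis on the values. Second part, for a slot `j*`:
(1) `j*` is one of the first `m'`: fix all other coordinates, as in `msq_all`. (2) `j*` is the polynomial slot `j`, `i = blk j`: fix all coordinates except `t i`; the factors of the slots outside the block
`i` do not depend on `t i` and are absorbed into `w` (bounded by `(log x) ^ K1` on `[1, x]`); the product over the slots of the block is the product over `Fin k` (`Finset.prod_bij` /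
`Fintype.prod_equiv` with `e`) and `fam_ms` applies with `j0 = e⁻¹ j`. Sum over the other coordinates.
-/

set_option autoImplicit false

open Finset Filter Polynomial

namespace Pool.Agent.NLG

open Pool.Agent.HLT Pool.Agent.HLB Pool.Agent.HL Pool.Agent.VN Pool.Agent.VK Pool.Agent.NLT

/-- The shifts of the blocks. -/
def shq {m' b r : ℕ} (blk : Fin r → Fin b) (Q : Fin r → ℤ[X]) (u : Fin r → ℕ) (p : (Fin m' → ℕ) × (Fin b → ℕ)) :
    Fin (m' + r) → ℕ :=
  Fin.append p.1 (fun j => ((Q j).eval ((p.2 (blk j) : ℕ) : ℤ) + u j).toNat)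

namespace MsqFamAux

open Pool.Agent.NLT.MsqAllAux

/-- An enumeration of a block with increasing degrees. -/
lemma enum {r : ℕ} (s : Finset (Fin r)) (f : Fin r → ℕ) (hf : ∀ j ∈ s, ∀ j' ∈ s, f j = f j' → j = j') :
    ∃ (k : ℕ) (e : Fin k → Fin r), StrictMono (fun l => f (e l)) ∧ (∀ l, e l ∈ s) ∧
      (∀ j ∈ s, ∃ l, e l = j) ∧ Function.Injective e := by
  classical
  have h1 : ∀ l : Fin (s.image f).card, ∃ j ∈ s, f j = (s.image f).orderEmbOfFin rfl l := by
    intro l
    have h2 := Finset.orderEmbOfFin_mem (s.image f) rfl l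
    rw [Finset.mem_image] at h2
    exact h2
  choose e he1 he2 using h1
  have hmono : StrictMono (fun l => f (e l)) := by
    intro l l' hl
    show f (e l) < f (e l')
    rw [he2, he2]
    exact ((s.image f).orderEmbOfFin rfl).strictMono hl
  refine ⟨(s.image f).card, e, hmono, he1, ?_, ?_⟩
  · intro j hj
    have h2 : f j ∈ Set.range ((s.image f).orderEmbOfFin rfl) := by
      rw [Finset.range_orderEmbOfFin]
      exact Finset.mem_coe.mpr (Finset.mem_image_of_mem f hj)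
    obtain ⟨l, hl⟩ := h2
    refine ⟨l, hf _ (he1 l) _ hj ?_⟩
    rw [he2, hl]
  · intro l l' hl
    apply hmono.injective
    show f (e l) = f (e l')
    rw [hl]

lemma part_le {m' r K x : ℕ} {G : Fin (m' + r) → ℕ → ℝ} (hL : 1 ≤ Real.log x) {ι : Type} (s : Finset ι)
    (e : ι → Fin (m' + r))
    (hG : ∀ i, ∀ n ∈ Icc 1 (2 * x), |G i n| ≤ Real.log x ^ K) (σ : ι → ℕ) (hσ : ∀ i ∈ s, σ i ≤ x)
    {n : ℕ} (hn : n ∈ Icc 1 x) {N : ℕ} (hN : s.card ≤ N) :
    ‖∏ i ∈ s, (G (e i) (n + σ i) : ℂ)‖ ≤ Real.log x ^ (K * N) := by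
  have h1 : ‖∏ i ∈ s, (G (e i) (n + σ i) : ℂ)‖ ≤ (Real.log x ^ K) ^ s.card := by
    refine norm_prod_le' s (fun i => G (e i) (n + σ i)) fun i hi => ?_
    apply hG
    have h2 := hσ i hi
    rw [mem_Icc] at hn ⊢
    omega
  refine h1.trans ?_
  rw [← pow_mul]
  exact pow_le_pow_right₀ hL (Nat.mul_le_mul_left _ hN)

section slots

variable {m' b r K x : ℕ} {blk : Fin r → Fin b} {Q : Fin r → ℤ[X]} {u : Fin r → ℕ} {H : Fin b → ℕ}
  {T : Fin m' → Finset ℕ} {w : ℕ → ℂ} {G : Fin (m' + r) → ℕ → ℝ}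

lemma prod_shq (n : ℕ) (S : Fin m' → ℕ) (t : Fin b → ℕ) :
    ∏ i, (G i (n + shq blk Q u (S, t) i) : ℂ) =
      (∏ i : Fin m', (G (Fin.castAdd r i) (n + S i) : ℂ)) *
      (∏ j : Fin r, (G (Fin.natAdd m' j) (n + ((Q j).eval ((t (blk j) : ℕ) : ℤ) + u j).toNat) : ℂ)) := by
  rw [Fin.prod_univ_add]
  unfold shq
  simp only [Fin.append_left, Fin.append_right]

lemma sh_le (hu : ∀ j, ∀ t : ℕ, t ≤ H (blk j) → 0 ≤ (Q j).eval (t : ℤ) + u j ∧ (Q j).eval (t : ℤ) + u j ≤ x)
    {t : Fin b → ℕ} (ht : t ∈ Fintype.piFinset (fun i => range (H i + 1))) (j : Fin r) :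
    ((Q j).eval ((t (blk j) : ℕ) : ℤ) + u j).toNat ≤ x := by
  have h1 := Finset.mem_range.mp ((Fintype.mem_piFinset.mp ht) (blk j))
  have h2 := (hu j (t (blk j)) (by omega)).2
  exact Int.toNat_le.mpr h2

/-- Positions of the polynomial blocks. -/
lemma block_slot (hL : 1 ≤ Real.log x) (i0 : Fin b) (E : ℝ) {k : ℕ} (e : Fin k → Fin r)
    (hinj : Function.Injective e) (hes : ∀ l, blk (e l) = i0) (hsur : ∀ j, blk j = i0 → ∃ l, e l = j)
    (hT : ∀ i, T i ⊆ range (x + 1))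
    (hu : ∀ j, ∀ t : ℕ, t ≤ H (blk j) → 0 ≤ (Q j).eval (t : ℤ) + u j ∧ (Q j).eval (t : ℤ) + u j ≤ x)
    (hw : ∀ n ∈ Icc 1 x, ‖w n‖ ≤ Real.log x ^ K)
    (hG : ∀ i, ∀ n ∈ Icc 1 (2 * x), |G i n| ≤ Real.log x ^ K)
    (hpair : ∀ w' : ℕ → ℂ, (∀ n ∈ Icc 1 x, ‖w' n‖ ≤ Real.log x ^ (K * (m' + r + 1))) →
      ∑ s ∈ range (H i0 + 1), ‖∑ n ∈ Icc 1 x, w' n *
        ∏ l, (G (Fin.natAdd m' (e l)) (n + ((Q (e l)).eval (s : ℤ) + u (e l)).toNat) : ℂ)‖ ^ 2 ≤
        ((H i0 + 1 : ℕ) : ℝ) * E) :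
    ∑ p ∈ Fintype.piFinset T ×ˢ Fintype.piFinset (fun j => range (H j + 1)),
      ‖∑ n ∈ Icc 1 x, w n * ∏ i, (G i (n + shq blk Q u p i) : ℂ)‖ ^ 2 ≤
      ((Fintype.piFinset T ×ˢ Fintype.piFinset (fun j => range (H j + 1))).card : ℝ) * E := by
  classical
  rw [Finset.sum_product, Finset.card_product, Nat.cast_mul, mul_assoc, ← nsmul_eq_mul,
    ← Finset.sum_const]
  refine Finset.sum_le_sum fun S hS => ?_
  apply avg i0 (fun j => range (H j + 1))
    (fun t => ‖∑ n ∈ Icc 1 x, w n * ∏ i, (G i (n + shq blk Q u (S, t) i) : ℂ)‖ ^ 2) E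
  intro t ht
  set h : ℕ → ℂ := fun n => w n *
    (∏ i : Fin m', (G (Fin.castAdd r i) (n + S i) : ℂ)) * 1 *
    (∏ j ∈ univ.filter (fun j => ¬ blk j = i0), (G (Fin.natAdd m' j)
      (n + ((Q j).eval ((t (blk j) : ℕ) : ℤ) + u j).toNat) : ℂ)) with hh
  have himg : univ.filter (fun j => blk j = i0) = univ.image e := by
    ext j
    simp only [mem_filter, mem_univ, true_and, mem_image]
    constructor
    · exact hsur j
    · rintro ⟨l, rfl⟩
      exact hes l
  have h1 : ∀ s : ℕ, ∑ n ∈ Icc 1 x, w n *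
      ∏ i, (G i (n + shq blk Q u (S, Function.update t i0 s) i) : ℂ) =
      ∑ n ∈ Icc 1 x, h n *
        ∏ l, (G (Fin.natAdd m' (e l)) (n + ((Q (e l)).eval (s : ℤ) + u (e l)).toNat) : ℂ) := by
    intro s
    refine Finset.sum_congr rfl fun n _ => ?_
    rw [prod_shq]
    rw [← Finset.prod_filter_mul_prod_filter_not univ (fun j => blk j = i0), himg,
      Finset.prod_image (fun a _ b _ hab => hinj hab)]
    have e2 : ∏ l : Fin k, (G (Fin.natAdd m' (e l))
        (n + ((Q (e l)).eval (((Function.update t i0 s) (blk (e l)) : ℕ) : ℤ) + u (e l)).toNat) : ℂ) =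
        ∏ l : Fin k, (G (Fin.natAdd m' (e l)) (n + ((Q (e l)).eval (s : ℤ) + u (e l)).toNat) : ℂ) := by
      refine Finset.prod_congr rfl fun l _ => ?_
      rw [hes l, Function.update_self]
    have e3 : ∏ j ∈ univ.filter (fun j => ¬ blk j = i0), (G (Fin.natAdd m' j)
        (n + ((Q j).eval (((Function.update t i0 s) (blk j) : ℕ) : ℤ) + u j).toNat) : ℂ) =
        ∏ j ∈ univ.filter (fun j => ¬ blk j = i0), (G (Fin.natAdd m' j)
        (n + ((Q j).eval ((t (blk j) : ℕ) : ℤ) + u j).toNat) : ℂ) := by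
      refine Finset.prod_congr rfl fun j hj => ?_
      rw [Function.update_of_ne (Finset.mem_filter.mp hj).2]
    rw [e2, e3, hh]
    ring
  have h2 : ∀ n ∈ Icc 1 x, ‖h n‖ ≤ Real.log x ^ (K * (m' + r + 1)) := by
    intro n hn
    have hc : ((univ : Finset (Fin r)).filter (fun j => ¬ blk j = i0)).card ≤ r := by
      refine (Finset.card_le_univ _).trans ?_
      rw [Fintype.card_fin]
    refine four_le hL (hw n hn)
      (part_le hL univ (fun i => Fin.castAdd r i) hG S (fun i _ => T_le hT hS i) hn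
        (N := m') (by rw [Finset.card_univ, Fintype.card_fin])) (n3 := 0) (by rw [norm_one, pow_zero])
      (part_le hL (univ.filter (fun j => ¬ blk j = i0)) (fun j => Fin.natAdd m' j) hG
        (fun j => ((Q j).eval ((t (blk j) : ℕ) : ℤ) + u j).toNat)
        (fun j _ => sh_le hu ht j) hn (N := r) hc) ?_
    apply le_of_eq
    ring
  have h3 := hpair h h2
  simp only [h1]
  rw [Finset.card_range]
  exact h3

/-- Positions of the one-shift slots. -/
lemma one_slot {A B : ℕ} (hL : 2 ≤ Real.log x) (j0 : Fin m') (hT : ∀ i, T i ⊆ range (x + 1))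
    (hu : ∀ j, ∀ t : ℕ, t ≤ H (blk j) → 0 ≤ (Q j).eval (t : ℤ) + u j ∧ (Q j).eval (t : ℤ) + u j ≤ x)
    (hw : ∀ n ∈ Icc 1 x, ‖w n‖ ≤ Real.log x ^ K)
    (hG : ∀ i, ∀ n ∈ Icc 1 (2 * x), |G i n| ≤ Real.log x ^ K)
    (hTj : Pool.Agent.VN.MSP A (K * (r + 1) * (m' + 1)) B x (T j0))
    (hGj : G (Fin.castAdd r j0) = ff (zA A x)) :
    ∑ p ∈ Fintype.piFinset T ×ˢ Fintype.piFinset (fun j => range (H j + 1)),
      ‖∑ n ∈ Icc 1 x, w n * ∏ i, (G i (n + shq blk Q u p i) : ℂ)‖ ^ 2 ≤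
      ((Fintype.piFinset T ×ˢ Fintype.piFinset (fun j => range (H j + 1))).card : ℝ) *
        ((x : ℝ) ^ 2 / Real.log x ^ B) := by
  classical
  have hL1 : 1 ≤ Real.log x := by linarith
  rw [Finset.sum_product_right, Finset.card_product, mul_comm (Fintype.piFinset T).card, Nat.cast_mul,
    mul_assoc, ← nsmul_eq_mul, ← Finset.sum_const]
  refine Finset.sum_le_sum fun t ht => ?_
  set h : ℕ → ℂ := fun n => w n * 1 * 1 *
    (∏ j : Fin r, (G (Fin.natAdd m' j)
      (n + ((Q j).eval ((t (blk j) : ℕ) : ℤ) + u j).toNat) : ℂ)) with hh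
  have h2 : ∀ n ∈ Icc 1 x, ‖h n‖ ≤ Real.log x ^ (K * (r + 1)) := by
    intro n hn
    have hc : (univ : Finset (Fin r)).card ≤ r := by
      rw [Finset.card_univ, Fintype.card_fin]
    refine four_le hL1 (hw n hn) (n2 := 0) (by rw [norm_one, pow_zero]) (n3 := 0) (by rw [norm_one, pow_zero])
      (part_le hL1 univ (fun j => Fin.natAdd m' j) hG
        (fun j => ((Q j).eval ((t (blk j) : ℕ) : ℤ) + u j).toNat)
        (fun j _ => sh_le hu ht j) hn (N := r) hc) ?_
    apply le_of_eq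
    ring
  have h3 := Pool.Agent.VN.last_ms m' (K * (r + 1)) B A x hL j0 T hT hTj h
    (fun i => G (Fin.castAdd r i)) h2 (fun i n hn => (hG _ n hn).trans
      (pow_le_pow_right₀ hL1 (Nat.le_mul_of_pos_right _ (by omega)))) hGj
  rw [Fintype.card_piFinset]
  push_cast
  refine le_trans (le_of_eq ?_) h3
  refine Finset.sum_congr rfl fun S _ => ?_
  congr 2
  refine Finset.sum_congr rfl fun n _ => ?_
  rw [prod_shq, hh]
  ring

end slots

end MsqFamAux

open MsqFamAux Pool.Agent.NLT.MsqAllAux Pool.Agent.HLU in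
theorem msq_fam (m' b r K B : ℕ) (F : ℕ → ℕ) (ε : ℝ) (hε : 0 < ε) (blk : Fin r → Fin b) (Q : Fin r → ℤ[X])
    (hd : ∀ j j', blk j = blk j' → (Q j).natDegree = (Q j').natDegree → j = j') (h1 : ∀ j, 1 ≤ (Q j).natDegree)
    (h0 : ∀ j, (Q j).coeff 0 = 0) :
    ∃ b0 B' C : ℕ, ∀ A : ℕ, ∀ᶠ x : ℕ in atTop, WBA A B' C (ε / 2) x →
    ∀ (D : Fin m' → ℕ) (T : Fin m' → Finset ℕ),
    (∀ i, (x : ℝ) ^ (1 / 6 + ε) ≤ D i ∧ D i ≤ x ∧ T i ⊆ range (x + 1) ∧ SpT F b0 x (D i) (T i)) →
    ∀ (H : Fin b → ℕ) (u : Fin r → ℕ),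
    (∀ j, (x : ℝ) ^ (1 / 6 + ε) ≤ (H (blk j) : ℝ) ^ (Q j).natDegree ∧ H (blk j) ^ (Q j).natDegree ≤ x) →
    (∀ j, ∀ t : ℕ, t ≤ H (blk j) → 0 ≤ (Q j).eval (t : ℤ) + u j ∧ (Q j).eval (t : ℤ) + u j ≤ x) →
    MSQ (m' + r) A K B x (Fintype.piFinset T ×ˢ Fintype.piFinset (fun i => range (H i + 1))) (shq blk Q u) := by
  classical
  have henum := fun i : Fin b => enum (univ.filter (fun j => blk j = i)) (fun j => (Q j).natDegree)
    (fun j hj j' hj' h => hd j j' ((Finset.mem_filter.mp hj).2.trans (Finset.mem_filter.mp hj').2.symm) h)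
  choose k e hmono hmem hsur hinj using henum
  have hes : ∀ i l, blk (e i l) = i := fun i l => (Finset.mem_filter.mp (hmem i l)).2
  have hsur' : ∀ i j, blk j = i → ∃ l, e i l = j :=
    fun i j hj => hsur i j (Finset.mem_filter.mpr ⟨Finset.mem_univ _, hj⟩)
  obtain ⟨b0, B1, hmsp⟩ := Pool.Agent.VN.msp_spec (K * (r + 1) * (m' + 1)) B F
  obtain ⟨B2, hwn⟩ := wn_of_wba B1 ε hε
  have hp := fun i : Fin b => fam_ms (k i) (genA (k i)) (fun l => Q (e i l)) (hmono i) (fun l => h1 _)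
    (fun l => h0 _) (K * (r + 1) * (m' + 1)) B ε hε
  choose B3 C3 hp using hp
  refine ⟨b0, B2 + ∑ i, B3 i, 1 + ∑ i, C3 i, fun A => ?_⟩
  filter_upwards [hmsp A, hwn A, eventually_all.2 (fun i => hp i A), ev_log 2,
    ev_rpow_one] with x hmsp hwn hp hL hx1 hWBA D T hDT H u hH hu
  have hL1 : 1 ≤ Real.log x := by linarith
  have hT : ∀ i, T i ⊆ range (x + 1) := fun i => (hDT i).2.2.1
  refine ⟨?_, ?_⟩
  · rintro ⟨S, t⟩ hp i
    rw [Finset.mem_product] at hp
    refine Fin.addCases (fun i => ?_) (fun j => ?_) i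
    · unfold shq
      rw [Fin.append_left]
      exact T_le hT hp.1 i
    · unfold shq
      rw [Fin.append_right]
      exact sh_le hu hp.2 j
  · intro i0 w G hw hG
    have hK : K ≤ K * (r + 1) * (m' + 1) := by
      calc K = K * 1 * 1 := by ring
        _ ≤ K * (r + 1) * (m' + 1) :=
          Nat.mul_le_mul (Nat.mul_le_mul_left _ (by omega)) (by omega)
    have hK2 : K * (m' + r + 1) ≤ K * (r + 1) * (m' + 1) := by
      rw [mul_assoc]
      apply Nat.mul_le_mul_left
      nlinarith [Nat.zero_le (r * m')]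
    have hWj : ∀ i, WBA A (B3 i) (C3 i) (ε / 2) x := by
      intro i
      have h1 : B3 i ≤ ∑ i, B3 i := Finset.single_le_sum (fun _ _ => Nat.zero_le _) (Finset.mem_univ i)
      have h2 : C3 i ≤ ∑ i, C3 i := Finset.single_le_sum (fun _ _ => Nat.zero_le _) (Finset.mem_univ i)
      exact WBA_mono hWBA (by omega) (by omega) hL1
    refine Fin.addCases (fun j => ?_) (fun j => ?_) i0
    · intro hGj
      refine one_slot hL j hT hu hw hG ?_ hGj
      obtain ⟨h1, h2, h3, h4⟩ := hDT j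
      have hW : WBA A B2 1 (ε / 2) x := WBA_mono hWBA (by omega) (by omega) hL1
      refine hmsp (D j) ?_ h2 (hwn hW (D j) h1 h2) (T j) h3 h4
      have h5 : (1 : ℝ) ≤ D j := hx1.trans (le_trans (Real.rpow_le_rpow_of_exponent_le (one_le_of_log hL) (by linarith)) h1)
      exact_mod_cast h5
    · intro hGj
      obtain ⟨l0, hl0⟩ := hsur' (blk j) j rfl
      refine block_slot hL1 (blk j) _ (e (blk j)) (hinj _) (hes _) (hsur' _) hT hu hw hG ?_
      intro w' hw'
      refine hp (blk j) (hWj _) (H (blk j)) (fun l => ?_) (fun l => u (e (blk j) l)) (fun l t ht => ?_) w'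
        (fun n hn => (hw' n hn).trans (pow_le_pow_right₀ hL1 hK2))
        (fun l => G (Fin.natAdd m' (e (blk j) l)))
        (fun l n hn => (hG _ n hn).trans (pow_le_pow_right₀ hL1 hK)) l0 ?_
      · have := hH (e (blk j) l)
        rw [hes] at this
        exact this
      · exact hu (e (blk j) l) t (by rw [hes]; exact ht)
      · show G (Fin.natAdd m' (e (blk j) l0)) = ff (zA A x)
        rw [hl0]
        exact hGj

end Pool.Agent.NLG
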