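import Pool.Agent.Lib.NLG.Ev
import Pool.Agent.Lib.NLT.NT

/-!
# Module NTg: many multiples of `θ` close to integers (two scales)

PROOF (compare NLT/NT.lean, `nt_major`, which is the case `δ = K / N`). `|S| ≥ N / K ≥ 100 K` elements in `[-N, N]`: two of them differ by
`1 ≤ q ≤ 5 K`, so `‖q θ‖ ≤ 2 δ`. Write `q θ = integer + η`, `|η| ≤ 2 δ`; if `η = 0` we are done. Write `g = r + q k`, `0 ≤ r < q`. Then
`g θ = r θ + k η` mod 1. For fixed `r` the `k` run through an interval of length `≤ 2 N / q`, so `k η` through one of length `≤ 2 N |η| / q`;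
the number of integers which `r θ + k η` comes `δ`-close to is `≤ 2 N |η| / q + 2 δ + 1`, and each of them is served by `≤ 2 δ / |η| + 1`
values of `k`. Hence `N / K ≤ |S| ≤ (2 N |η| + q (2 δ + 1)) (2 δ / |η| + 1) ≤ 8 N δ + 2 q (2 δ + 1) (δ / |η|) + q (2 δ + 1)`
(`|η| ≤ 2 δ`). With `δ ≤ 1 / (100 K)`, `q ≤ 5 K`, `K ≤ N / (100 K)`: `8 N δ ≤ 0.08 N / K`, `q (2 δ + 1) ≤ 0.06 N / K`, so `11 K δ / |η| ≥ 0.8 N / K`:
`|η| ≤ 14 K ^ 2 δ / N`.
-/

set_option autoImplicit false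

open Finset

namespace Pool.Agent.NLG

open Pool.Agent.HLT Pool.Agent.NLT

namespace NTgAux

lemma nrm_sub_le (θ : ℝ) (c : ℝ) (g g' : ℤ) (h : nrm ((g : ℝ) * θ) ≤ c)
    (h' : nrm ((g' : ℝ) * θ) ≤ c) : nrm (((g - g' : ℤ) : ℝ) * θ) ≤ 2 * c := by
  have e : ((g - g' : ℤ) : ℝ) * θ = (g : ℝ) * θ + -((g' : ℝ) * θ) := by
    push_cast
    ring
  rw [e]
  refine (nrm_add_le _ _).trans ?_
  rw [nrm_ng]
  linarith

lemma div_mem {B : ℕ} {g W : ℤ} (hW : 0 < W) (hg : |g| ≤ B) :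
    (g + B) / W ∈ Finset.Icc (0 : ℤ) ((2 * B) / W) := by
  rw [abs_le] at hg
  rw [Finset.mem_Icc]
  exact ⟨Int.ediv_nonneg (by linarith) hW.le, Int.ediv_le_ediv hW (by linarith)⟩

lemma card_Icc_le {B : ℕ} {W : ℤ} (hW : 0 < W) :
    ((Finset.Icc (0 : ℤ) ((2 * B) / W)).card : ℝ) ≤ 2 * B / W + 1 := by
  rw [Int.card_Icc]
  have h0 : (0 : ℤ) ≤ (2 * B) / W := Int.ediv_nonneg (by positivity) hW.le
  have h1 : (((2 * (B : ℤ)) / W + 1 - 0).toNat : ℤ) = (2 * B) / W + 1 := by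
    rw [Int.toNat_of_nonneg (by linarith)]
    ring
  have h2 : ((((2 * (B : ℤ)) / W + 1 - 0).toNat : ℕ) : ℝ) = (((2 * (B : ℤ)) / W : ℤ) : ℝ) + 1 := by
    exact_mod_cast h1
  rw [h2]
  have hWr : (0 : ℝ) < (W : ℝ) := by exact_mod_cast hW
  have h3 : (((2 * (B : ℤ)) / W : ℤ) : ℝ) ≤ 2 * B / W := by
    rw [le_div_iff₀ hWr]
    have := Int.ediv_mul_le (2 * (B : ℤ)) hW.ne'
    exact_mod_cast this
  linarith

lemma same_block {g g' W : ℤ} {B : ℕ} (hW : 0 < W) (h : (g + B) / W = (g' + B) / W) :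
    |g - g'| < W := by
  have h1 := Int.emod_add_mul_ediv (g + B) W
  have h2 := Int.emod_add_mul_ediv (g' + B) W
  have h3 := Int.emod_nonneg (g + B) hW.ne'
  have h4 := Int.emod_lt_of_pos (g + B) hW
  have h5 := Int.emod_nonneg (g' + B) hW.ne'
  have h6 := Int.emod_lt_of_pos (g' + B) hW
  rw [h] at h1
  rw [abs_lt]
  constructor <;> linarith

/-- a set of integers of diameter at most `D` has at most `D + 1` elements -/
lemma card_le_of_diam (T : Finset ℤ) (D : ℝ) (hD : 0 ≤ D)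
    (h : ∀ a ∈ T, ∀ b ∈ T, ((a - b : ℤ) : ℝ) ≤ D) : T.card ≤ ⌊D⌋₊ + 1 := by
  rcases T.eq_empty_or_nonempty with rfl | hne
  · simp
  have hsub : T ⊆ Finset.Icc (T.min' hne) (T.max' hne) :=
    fun z hz => Finset.mem_Icc.2 ⟨Finset.min'_le _ _ hz, Finset.le_max' _ _ hz⟩
  have h1 := Finset.card_le_card hsub
  rw [Int.card_Icc] at h1
  have h2 := h _ (T.max'_mem hne) _ (T.min'_mem hne)
  have h3 : T.min' hne ≤ T.max' hne := Finset.min'_le _ _ (T.max'_mem hne)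
  have h4 : (T.max' hne - T.min' hne).toNat ≤ ⌊D⌋₊ := by
    rw [Nat.le_floor_iff hD]
    have : (((T.max' hne - T.min' hne).toNat : ℕ) : ℝ) = ((T.max' hne - T.min' hne : ℤ) : ℝ) := by
      have h5 : (((T.max' hne - T.min' hne).toNat : ℕ) : ℤ) = T.max' hne - T.min' hne :=
        Int.toNat_of_nonneg (by linarith)
      exact_mod_cast h5
    rw [this]
    exact h2
  omega

/-- the final computation -/
lemma final (N K q : ℕ) (x δ a s D L : ℝ) (hK : (1 : ℝ) ≤ K) (hx0 : 0 < x) (hNx : (N : ℝ) = x * K)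
    (hxK : 100 * (K : ℝ) ≤ x) (hδ : 0 ≤ δ) (hδK : 100 * (K : ℝ) * δ ≤ 1) (hq1 : (1 : ℝ) ≤ q)
    (hqK : (q : ℝ) ≤ 5 * K) (ha : 0 < a) (ha2 : a ≤ 2 * δ) (hD : D * a = 2 * δ)
    (hL : L = 1 / 2 + a * ((N : ℝ) / q + 1) + δ) (hc : x ≤ s)
    (hs : s ≤ (D + 1) * (q * (2 * L + 1))) : a ≤ 40 * (K : ℝ) ^ 2 * δ / N := by
  have hK0 : (0 : ℝ) < K := by linarith
  have hq0 : (0 : ℝ) < q := by linarith
  have hN0 : (0 : ℝ) < N := by rw [hNx]; positivity
  have hD0 : 0 ≤ D := by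
    by_contra h
    push Not at h
    have := mul_neg_of_neg_of_pos h ha
    linarith
  have e1 : (q : ℝ) * (2 * L + 1) = 2 * q * (1 + δ) + 2 * a * (N + q) := by
    rw [hL]
    field_simp
    ring
  have e3 : (D + 1) * (q * (2 * L + 1)) =
      2 * q * (1 + δ) * D + 2 * q * (1 + δ) + 4 * δ * (N + q) + 2 * a * (N + q) := by
    rw [e1]
    have e2 : (D + 1) * (2 * q * (1 + δ) + 2 * a * (N + q)) =
      2 * q * (1 + δ) * D + 2 * q * (1 + δ) + 2 * (D * a) * (N + q) + 2 * a * (N + q) := by ring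
    rw [e2, hD]
    ring
  rw [e3] at hs
  have hNq : (0 : ℝ) ≤ N + q := by positivity
  have h6 : 2 * a * ((N : ℝ) + q) ≤ 4 * δ * (N + q) :=
    mul_le_mul_of_nonneg_right (by linarith) hNq
  have hKδ : (K : ℝ) * δ ≤ 1 / 100 := by linarith
  have hδs : δ ≤ 1 / 100 := by
    have : 1 * δ ≤ K * δ := mul_le_mul_of_nonneg_right hK hδ
    linarith
  have h7 : δ * (N : ℝ) ≤ x / 100 := by
    rw [hNx]
    have : x * ((K : ℝ) * δ) ≤ x * (1 / 100) := mul_le_mul_of_nonneg_left hKδ hx0.le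
    calc δ * (x * K) = x * ((K : ℝ) * δ) := by ring
      _ ≤ x * (1 / 100) := this
      _ = x / 100 := by ring
  have h8 : δ * (q : ℝ) ≤ 1 / 20 := by
    have : δ * (q : ℝ) ≤ δ * (5 * K) := mul_le_mul_of_nonneg_left hqK hδ
    linarith
  have h9 : (q : ℝ) * (1 + δ) ≤ 5.05 * K := by
    have : (q : ℝ) * (1 + δ) ≤ (5 * K) * (1 + 1 / 100) :=
      mul_le_mul hqK (by linarith) (by linarith) (by linarith)
    linarith
  have h10 : 2 * q * (1 + δ) * D ≤ 10.1 * K * D :=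
    mul_le_mul_of_nonneg_right (by linarith) hD0
  have h11 : x ≤ 10.1 * K * D + 10.1 * K + 8 * (x / 100) + 8 * (1 / 20) := by
    have : 4 * δ * ((N : ℝ) + q) = 4 * (δ * N) + 4 * (δ * q) := by ring
    linarith
  have h12 : 0.8 * x ≤ 10.1 * K * D := by
    linarith
  have h13 : 0.8 * x * a ≤ 20.2 * K * δ := by
    have h14 : 10.1 * K * D * a = 20.2 * K * δ := by
      calc 10.1 * K * D * a = 10.1 * K * (D * a) := by ring
        _ = 20.2 * K * δ := by rw [hD]; ring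
    rw [← h14]
    exact mul_le_mul_of_nonneg_right h12 ha.le
  rw [le_div_iff₀ hN0, hNx]
  have h15 : a * (x * K) * 0.8 ≤ 20.2 * (K ^ 2 * δ) := by
    have := mul_le_mul_of_nonneg_right h13 hK0.le
    calc a * (x * K) * 0.8 = 0.8 * x * a * K := by ring
      _ ≤ 20.2 * K * δ * K := this
      _ = 20.2 * (K ^ 2 * δ) := by ring
  have h16 : 0 ≤ (K : ℝ) ^ 2 * δ := by positivity
  linarith

end NTgAux

theorem ntg (θ δ : ℝ) (N K : ℕ) (hK : 1 ≤ K) (hN : 100 * K ^ 2 ≤ N) (hδ : 0 ≤ δ) (hδK : 100 * K * δ ≤ 1)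
    (S : Finset ℤ) (hS : ∀ g ∈ S, |g| ≤ N ∧ nrm ((g : ℝ) * θ) ≤ δ) (hc : (N : ℝ) / K ≤ S.card) :
    ∃ q : ℕ, 1 ≤ q ∧ q ≤ 5 * K ∧ nrm ((q : ℝ) * θ) ≤ 40 * (K : ℝ) ^ 2 * δ / N := by
  have hKr : (1 : ℝ) ≤ K := by exact_mod_cast hK
  have hK0 : (0 : ℝ) < K := by linarith
  have hNr : 100 * (K : ℝ) ^ 2 ≤ N := by exact_mod_cast hN
  have hN0 : (0 : ℝ) < N := by nlinarith
  obtain ⟨x, hx⟩ : ∃ x : ℝ, x = (N : ℝ) / K := ⟨_, rfl⟩
  have hNx : (N : ℝ) = x * K := by rw [hx]; field_simp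
  have hxK : 100 * (K : ℝ) ≤ x := by
    rw [hx, le_div_iff₀ hK0]
    nlinarith
  have hx0 : 0 < x := by linarith
  rw [← hx] at hc
  -- step 1
  obtain ⟨g1, hg1, g2, hg2, hne, hblk⟩ : ∃ g1 ∈ S, ∃ g2 ∈ S, g1 ≠ g2 ∧
      (g1 + N) / ((5 * K : ℕ) : ℤ) = (g2 + N) / ((5 * K : ℕ) : ℤ) := by
    have hW : (0 : ℤ) < ((5 * K : ℕ) : ℤ) := by
      have : 0 < 5 * K := by omega
      exact_mod_cast this
    refine Finset.exists_ne_map_eq_of_card_lt_of_maps_to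
      (t := Finset.Icc (0 : ℤ) ((2 * N) / ((5 * K : ℕ) : ℤ))) ?_
      (fun g hg => NTgAux.div_mem hW (hS g hg).1)
    have h1 := NTgAux.card_Icc_le (B := N) hW
    have h2 : 2 * (N : ℝ) / (((5 * K : ℕ) : ℤ) : ℝ) + 1 < x := by
      have e : 2 * (N : ℝ) / (((5 * K : ℕ) : ℤ) : ℝ) = 2 / 5 * x := by
        rw [hNx]
        push_cast
        field_simp
      rw [e]
      linarith
    have h3 : ((Finset.Icc (0 : ℤ) ((2 * N) / ((5 * K : ℕ) : ℤ))).card : ℝ) < S.card := by linarith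
    exact_mod_cast h3
  have hq5 : |g1 - g2| < ((5 * K : ℕ) : ℤ) := NTgAux.same_block (by
    have : 0 < 5 * K := by omega
    exact_mod_cast this) hblk
  obtain ⟨q, hq⟩ : ∃ q : ℕ, (q : ℤ) = |g1 - g2| := ⟨(g1 - g2).natAbs, by rw [Int.abs_eq_natAbs]⟩
  have hq1 : 1 ≤ q := by
    have h : (0 : ℤ) < q := by rw [hq]; exact abs_pos.2 (sub_ne_zero.2 hne)
    exact_mod_cast h
  have hqK : q < 5 * K := by
    have h : (q : ℤ) < ((5 * K : ℕ) : ℤ) := by rw [hq]; exact hq5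
    exact_mod_cast h
  have hqθ : nrm ((q : ℝ) * θ) ≤ 2 * δ := by
    have h1 := NTgAux.nrm_sub_le θ _ g1 g2 (hS g1 hg1).2 (hS g2 hg2).2
    rcases abs_choice (g1 - g2) with h | h
    · rw [h] at hq
      have e : ((g1 - g2 : ℤ) : ℝ) = (q : ℝ) := by rw [← hq]; push_cast; rfl
      rwa [e] at h1
    · rw [h] at hq
      have e : ((g1 - g2 : ℤ) : ℝ) = -(q : ℝ) := by
        have : g1 - g2 = -(q : ℤ) := by linarith
        rw [this]
        push_cast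
        rfl
      rw [e, neg_mul, nrm_ng] at h1
      exact h1
  refine ⟨q, hq1, hqK.le, ?_⟩
  have hqr1 : (1 : ℝ) ≤ q := by exact_mod_cast hq1
  have hqrK : (q : ℝ) ≤ 5 * K := by exact_mod_cast hqK.le
  have hqz : (0 : ℤ) < (q : ℤ) := by exact_mod_cast hq1
  -- the small number `η`
  obtain ⟨η, hη⟩ : ∃ η : ℝ, η = (q : ℝ) * θ - round ((q : ℝ) * θ) := ⟨_, rfl⟩
  have hηn : nrm ((q : ℝ) * θ) = |η| := by rw [hη]; rfl
  have hη2 : |η| ≤ 2 * δ := by rw [← hηn]; exact hqθ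
  rw [hηn]
  by_cases hη0 : η = 0
  · rw [hη0, abs_zero]; positivity
  have hηp : 0 < |η| := abs_pos.mpr hη0
  -- step 2: counting
  obtain ⟨F, hF⟩ : ∃ F : ℤ → ℤ × ℤ, F = fun g : ℤ =>
    (g % q, round ((g : ℝ) * θ) - (g / q) * round ((q : ℝ) * θ) - round (((g % q : ℤ) : ℝ) * θ)) := ⟨_, rfl⟩
  have hF1 : ∀ g, (F g).1 = g % q := by intro g; rw [hF]
  obtain ⟨L, hL⟩ : ∃ L : ℝ, L = 1 / 2 + |η| * ((N : ℝ) / q + 1) + δ := ⟨_, rfl⟩
  have hL0 : 0 ≤ L := by rw [hL]; positivity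
  obtain ⟨D, hD⟩ : ∃ D : ℝ, D = 2 * δ / |η| := ⟨_, rfl⟩
  have hD0 : 0 ≤ D := by rw [hD]; positivity
  -- the basic identity
  have hid : ∀ g : ℤ, (g : ℝ) * θ - round ((g : ℝ) * θ) =
      (((g % q : ℤ) : ℝ) * θ - round (((g % q : ℤ) : ℝ) * θ)) + ((g / q : ℤ) : ℝ) * η - ((F g).2 : ℝ) := by
    intro g
    have h1 : (g : ℝ) = ((g % q : ℤ) : ℝ) + (q : ℝ) * ((g / q : ℤ) : ℝ) := by
      have := Int.emod_add_mul_ediv g q
      exact_mod_cast this.symm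
    rw [hη, hF]
    push_cast
    have h2 : (g : ℝ) * θ = ((g % q : ℤ) : ℝ) * θ + ((g / q : ℤ) : ℝ) * ((q : ℝ) * θ) := by
      conv_lhs => rw [h1]
      ring
    linear_combination h2
  have habs : ∀ g ∈ S, |(((g % q : ℤ) : ℝ) * θ - round (((g % q : ℤ) : ℝ) * θ)) +
      ((g / q : ℤ) : ℝ) * η - ((F g).2 : ℝ)| ≤ δ := by
    intro g hg
    rw [← hid g]
    exact (hS g hg).2
  have hk : ∀ g ∈ S, |((g / q : ℤ) : ℝ)| ≤ (N : ℝ) / q + 1 := by
    intro g hg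
    have h1 : ((g / q : ℤ) : ℝ) * q ≤ g := by
      have := Int.ediv_mul_le g hqz.ne'
      exact_mod_cast this
    have h2 : (g : ℝ) < ((g / q : ℤ) : ℝ) * q + q := by
      have := Int.lt_ediv_add_one_mul_self g hqz
      have h3 : (g : ℝ) < (((g / q : ℤ) : ℝ) + 1) * q := by exact_mod_cast this
      linarith
    have h3 : |(g : ℝ)| ≤ N := by
      have := (hS g hg).1
      exact_mod_cast this
    rw [abs_le] at h3 ⊢
    have hq0 : (0 : ℝ) < q := by linarith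
    constructor
    · have : -((N : ℝ) / q + 1) * q ≤ ((g / q : ℤ) : ℝ) * q := by
        have e : -((N : ℝ) / q + 1) * q = -(N : ℝ) - q := by field_simp; ring
        rw [e]; linarith
      exact le_of_mul_le_mul_right this hq0
    · have : ((g / q : ℤ) : ℝ) * q ≤ ((N : ℝ) / q + 1) * q := by
        have e : ((N : ℝ) / q + 1) * q = (N : ℝ) + q := by field_simp
        rw [e]; linarith
      exact le_of_mul_le_mul_right this hq0
  have hmaps : ∀ g ∈ S, F g ∈ (Finset.Ico (0 : ℤ) q) ×ˢ (Finset.Icc (-(⌊L⌋₊ : ℤ)) (⌊L⌋₊ : ℤ)) := by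
    intro g hg
    rw [Finset.mem_product]
    refine ⟨by rw [hF1]; exact Finset.mem_Ico.2 ⟨Int.emod_nonneg _ hqz.ne', Int.emod_lt_of_pos _ hqz⟩, ?_⟩
    have h1 := habs g hg
    have h2 : |(((g % q : ℤ) : ℝ) * θ - round (((g % q : ℤ) : ℝ) * θ))| ≤ 1 / 2 := abs_sub_round _
    have h3 : |((g / q : ℤ) : ℝ) * η| ≤ |η| * ((N : ℝ) / q + 1) := by
      rw [abs_mul, mul_comm]
      exact mul_le_mul_of_nonneg_left (hk g hg) (abs_nonneg _)
    have h4 : |((F g).2 : ℝ)| ≤ L := by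
      rw [abs_le] at h1 h2 h3 ⊢
      constructor <;> linarith [h1.1, h1.2, h2.1, h2.2, h3.1, h3.2]
    have h5 : (F g).2.natAbs ≤ ⌊L⌋₊ := by
      rw [Nat.le_floor_iff hL0]
      have : (((F g).2.natAbs : ℕ) : ℝ) = |((F g).2 : ℝ)| := by
        rw [Nat.cast_natAbs, Int.cast_abs]
      rw [this]
      exact h4
    rw [Finset.mem_Icc]
    omega
  have hfib : ∀ y ∈ (Finset.Ico (0 : ℤ) q) ×ˢ (Finset.Icc (-(⌊L⌋₊ : ℤ)) (⌊L⌋₊ : ℤ)),
      (S.filter (fun g => F g = y)).card ≤ ⌊D⌋₊ + 1 := by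
    intro y _
    have hinj : Set.InjOn (fun g : ℤ => g / q) (S.filter (fun g => F g = y)) := by
      intro g hg g' hg' h
      have e1 := (Finset.mem_filter.1 (Finset.mem_coe.1 hg)).2
      have e2 := (Finset.mem_filter.1 (Finset.mem_coe.1 hg')).2
      have h1 : g % q = g' % q := by
        rw [← hF1, ← hF1, e1, e2]
      have h2 := Int.emod_add_mul_ediv g q
      have h3 := Int.emod_add_mul_ediv g' q
      simp only at h
      rw [h, h1] at h2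
      linarith
    rw [← Finset.card_image_of_injOn hinj]
    refine NTgAux.card_le_of_diam _ D hD0 ?_
    intro a ha b hb
    obtain ⟨g, hg, rfl⟩ := Finset.mem_image.1 ha
    obtain ⟨g', hg', rfl⟩ := Finset.mem_image.1 hb
    obtain ⟨hgS, hgy⟩ := Finset.mem_filter.1 hg
    obtain ⟨hgS', hgy'⟩ := Finset.mem_filter.1 hg'
    have h1 := habs g hgS
    have h2 := habs g' hgS'
    have e1 : g % q = g' % q := by
      rw [← hF1, ← hF1, hgy, hgy']
    have e2 : (F g).2 = (F g').2 := by rw [hgy, hgy']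
    rw [e1, e2] at h1
    have h3 : |(((g / q : ℤ) : ℝ) - ((g' / q : ℤ) : ℝ)) * η| ≤ 2 * δ := by
      rw [abs_le] at h1 h2 ⊢
      constructor <;> nlinarith [h1.1, h1.2, h2.1, h2.2]
    rw [abs_mul] at h3
    rw [hD, le_div_iff₀ hηp]
    refine le_trans (mul_le_mul_of_nonneg_right ?_ (abs_nonneg _)) h3
    push_cast
    exact le_abs_self _
  have hcount := Finset.card_le_mul_card_image_of_maps_to hmaps (⌊D⌋₊ + 1) hfib
  rw [Finset.card_product, Int.card_Ico, Int.card_Icc, sub_zero, Int.toNat_natCast] at hcount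
  have hLc : ((⌊L⌋₊ : ℤ) + 1 - -(⌊L⌋₊ : ℤ)).toNat = 2 * ⌊L⌋₊ + 1 := by omega
  rw [hLc] at hcount
  have hcr : (S.card : ℝ) ≤ (D + 1) * (q * (2 * L + 1)) := by
    have h1 : (S.card : ℝ) ≤ ((⌊D⌋₊ : ℝ) + 1) * (q * (2 * (⌊L⌋₊ : ℝ) + 1)) := by exact_mod_cast hcount
    refine h1.trans ?_
    have h2 := Nat.floor_le hD0
    have h3 := Nat.floor_le hL0
    gcongr
  exact NTgAux.final N K q x δ |η| S.card D L hKr hx0 hNx hxK hδ hδK hqr1 hqrK hηp hη2
    (by rw [hD]; exact div_mul_cancel₀ _ hηp.ne') hL hc hcr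

/-- Version for a set of natural numbers `k < A`: differences of elements. -/
theorem ntg_diff (θ δ : ℝ) (A K : ℕ) (hK : 1 ≤ K) (hA : 100 * K ^ 2 ≤ A) (hδ : 0 ≤ δ) (hδK : 200 * K * δ ≤ 1)
    (β : ℝ) (S : Finset ℕ) (hS : ∀ k ∈ S, k < A ∧ nrm (β + (k : ℝ) * θ) ≤ δ) (hc : (A : ℝ) / K ≤ S.card) :
    ∃ q : ℕ, 1 ≤ q ∧ q ≤ 5 * K ∧ nrm ((q : ℝ) * θ) ≤ 80 * (K : ℝ) ^ 2 * δ / A := by
  have hKr : (1 : ℝ) ≤ K := by exact_mod_cast hK
  have hAr : 100 * (K : ℝ) ^ 2 ≤ A := by exact_mod_cast hA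
  have hA0 : (0 : ℝ) < A := by nlinarith
  have hne : S.Nonempty := by
    rw [← Finset.card_pos]
    have : (0 : ℝ) < S.card := lt_of_lt_of_le (by positivity) hc
    exact_mod_cast this
  obtain ⟨k0, hk0⟩ := hne
  have hinj : Function.Injective (fun k : ℕ => (k : ℤ) - k0) := by
    intro a b h
    simp only at h
    omega
  obtain ⟨q, h1, h2, h3⟩ := ntg θ (2 * δ) A K hK hA (by linarith) (by linarith)
    (S.image (fun k : ℕ => (k : ℤ) - k0)) (by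
      intro g hg
      obtain ⟨k, hk, rfl⟩ := Finset.mem_image.1 hg
      refine ⟨?_, ?_⟩
      · have h1 := (hS k hk).1
        have h2 := (hS k0 hk0).1
        rw [abs_le]
        constructor <;> omega
      · have e : (((k : ℤ) - k0 : ℤ) : ℝ) * θ = (β + (k : ℝ) * θ) + -(β + (k0 : ℝ) * θ) := by
          push_cast
          ring
        rw [e]
        refine (nrm_add_le _ _).trans ?_
        rw [nrm_ng]
        linarith [(hS k hk).2, (hS k0 hk0).2])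
    (by rw [Finset.card_image_of_injective _ hinj]; exact hc)
  refine ⟨q, h1, h2, h3.trans (le_of_eq ?_)⟩
  ring

end Pool.Agent.NLG
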