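import Pool.Agent.Lib.NLG.GoodA
import Pool.Agent.Lib.NLG.ExA

/-!
# Module PetB: degrees and leading coefficients under Taylor shifts

PROOFS. `taylor_coeff_top`, `taylor_coeff_sub`: `Polynomial.taylor_coeff` (`hasseDeriv_coeff`), or `Q = q_(e+1) X^(e+1) + q_e X^e + lower` and
the binomial theorem. `natDegree_taylor_sub`: the coefficients of index `≥ e` cancel (for `e = 0` the polynomial is constant and
the difference is `0`). `natDegree_cross`: `taylor k Q - taylor k' Q' = taylor k (Q - Q') + (taylor k Q' - taylor k' Q')`.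
`x1`: the coefficient of index `e` is not changed by a Taylor shift, so this is `Exq_lift` (as functions of `(h, k, k')`; `Om2 Ω A =
Ω A ×ˢ (range A ×ˢ range A)` by definition). `x3`: the same for `taylor k (Qs - Q)`. `x2`: the coefficient of index `e - 1` of
`taylor k Qs - taylor k' Q = taylor k (Qs - Q) + (taylor k Q - taylor k' Q)` is `(Qs - Q).coeff (e - 1) + e (k - k') Q.coeff e` and
`Q.coeff e = Qs.coeff e`; this is `Exq_step` with `c1 = (Qs - Q).coeff (e - 1)`, `c2 = Qs.coeff e`, `m = e`, and `D - e + 1 = D - (e - 1)`.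
-/

set_option autoImplicit false

open Finset Polynomial

namespace Pool.Agent.NLG

open Pool.Agent.HLT Pool.Agent.NLT

theorem taylor_coeff_top (Q : ℤ[X]) (e : ℕ) (h : Q.natDegree ≤ e) (k : ℤ) : (taylor k Q).coeff e = Q.coeff e := by
  rw [taylor_coeff]
  have h1 : (hasseDeriv e Q).natDegree ≤ 0 := (natDegree_hasseDeriv_le Q e).trans (by omega)
  rw [eq_C_of_natDegree_le_zero h1, eval_C, hasseDeriv_coeff, Nat.zero_add, Nat.choose_self, Nat.cast_one, one_mul]

theorem taylor_coeff_sub (Q : ℤ[X]) (e : ℕ) (h : Q.natDegree ≤ e + 1) (k : ℤ) :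
    (taylor k Q).coeff e = Q.coeff e + (e + 1) * k * Q.coeff (e + 1) := by
  rw [taylor_coeff]
  have h1 : (hasseDeriv e Q).natDegree ≤ 1 := (natDegree_hasseDeriv_le Q e).trans (by omega)
  rw [eq_X_add_C_of_natDegree_le_one h1, eval_add, eval_mul, eval_C, eval_C, eval_X, hasseDeriv_coeff,
    hasseDeriv_coeff, Nat.zero_add, Nat.choose_self, Nat.add_comm 1 e, Nat.choose_succ_self_right]
  push_cast
  ring

theorem natDegree_taylor_sub (Q : ℤ[X]) (e : ℕ) (h : Q.natDegree ≤ e) (k k' : ℤ) :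
    (taylor k Q - taylor k' Q).natDegree ≤ e - 1 := by
  rw [natDegree_le_iff_coeff_eq_zero]
  intro N hN
  rw [coeff_sub, taylor_coeff_top Q N (by omega) k, taylor_coeff_top Q N (by omega) k', sub_self]

theorem natDegree_cross (Q Q' : ℤ[X]) (e : ℕ) (h : (Q - Q').natDegree ≤ e - 1) (h' : Q'.natDegree ≤ e) (k k' : ℤ) :
    (taylor k Q - taylor k' Q').natDegree ≤ e - 1 := by
  have e1 : taylor k Q - taylor k' Q' = taylor k (Q - Q') + (taylor k Q' - taylor k' Q') := by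
    rw [map_sub]
    ring
  rw [e1]
  refine (natDegree_add_le _ _).trans (max_le ?_ (natDegree_taylor_sub Q' e h' k k'))
  rw [natDegree_taylor]
  exact h

variable {α τ : Type}

theorem x1 (sz : α → ℕ) (Ω : ℕ → Finset τ) (E e : ℕ) (Qs Q : α → τ → ℤ[X]) (hs : ∀ a h, (Qs a h).natDegree ≤ e)
    (hQ : ∀ a h, (Q a h).natDegree ≤ e) (h : Exq sz Ω E (fun a h => (Qs a h).coeff e - (Q a h).coeff e)) :
    Exq sz (Om2 Ω) E (fun a p => (lt0 Qs a p).coeff e - (lt0 Q a p).coeff e) ∧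
      Exq sz (Om2 Ω) E (fun a p => (lt0 Qs a p).coeff e - (lt1 Q a p).coeff e) := by
  have h1 := Exq_lift sz Ω (fun A => range A ×ˢ range A) E _ h
  have e1 : (fun (a : α) (p : τ × (ℕ × ℕ)) => (lt0 Qs a p).coeff e - (lt0 Q a p).coeff e) =
      fun a p => (Qs a p.1).coeff e - (Q a p.1).coeff e := by
    funext a p
    unfold lt0
    rw [taylor_coeff_top _ e (hs a p.1), taylor_coeff_top _ e (hQ a p.1)]
  have e2 : (fun (a : α) (p : τ × (ℕ × ℕ)) => (lt0 Qs a p).coeff e - (lt1 Q a p).coeff e) =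
      fun a p => (Qs a p.1).coeff e - (Q a p.1).coeff e := by
    funext a p
    unfold lt0 lt1
    rw [taylor_coeff_top _ e (hs a p.1), taylor_coeff_top _ e (hQ a p.1)]
  rw [e1, e2]
  exact ⟨h1, h1⟩

theorem x2 (sz : α → ℕ) (Ω : ℕ → Finset τ) (D e : ℕ) (he : 1 ≤ e) (heD : e ≤ D) (Qs Q : α → τ → ℤ[X])
    (hs : ∀ a h, (Qs a h).natDegree ≤ e) (hQ : ∀ a h, (Qs a h - Q a h).natDegree ≤ e - 1)
    (h : Exq sz Ω (D - e) (fun a h => (Qs a h).coeff e)) :
    Exq sz (Om2 Ω) (D - (e - 1)) (fun a p => (lt0 Qs a p - lt1 Q a p).coeff (e - 1)) := by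
  have h1 := Exq_step sz Ω (D - e) e he (fun a h => (Qs a h - Q a h).coeff (e - 1)) _ h
  have e1 : (fun (a : α) (p : τ × (ℕ × ℕ)) => (lt0 Qs a p - lt1 Q a p).coeff (e - 1)) =
      fun a p => (Qs a p.1 - Q a p.1).coeff (e - 1) +
        e * (Qs a p.1).coeff e * ((p.2.1 : ℤ) - p.2.2) := by
    funext a p
    unfold lt0 lt1
    have hd : (Q a p.1).natDegree ≤ e := by
      have e2 : Q a p.1 = Qs a p.1 - (Qs a p.1 - Q a p.1) := by ring
      rw [e2]
      exact (natDegree_sub_le _ _).trans (max_le (hs a p.1) ((hQ a p.1).trans (by omega)))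
    have hc : (Q a p.1).coeff e = (Qs a p.1).coeff e := by
      have h3 : (Qs a p.1 - Q a p.1).coeff e = 0 :=
        coeff_eq_zero_of_natDegree_lt (lt_of_le_of_lt (hQ a p.1) (by omega))
      rw [coeff_sub] at h3
      linarith
    have e3 : taylor (p.2.1 : ℤ) (Qs a p.1) - taylor (p.2.2 : ℤ) (Q a p.1) =
        taylor (p.2.1 : ℤ) (Qs a p.1 - Q a p.1) +
          (taylor (p.2.1 : ℤ) (Q a p.1) - taylor (p.2.2 : ℤ) (Q a p.1)) := by
      rw [map_sub]
      ring
    obtain ⟨m, rfl⟩ : ∃ m, e = m + 1 := ⟨e - 1, by omega⟩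
    rw [e3, coeff_add, taylor_coeff_top _ _ (hQ a p.1), coeff_sub (taylor _ _), Nat.add_sub_cancel,
      taylor_coeff_sub _ m hd, taylor_coeff_sub _ m hd, hc]
    push_cast
    ring
  have e4 : D - (e - 1) = D - e + 1 := by omega
  rw [e1, e4]
  exact h1

theorem x3 (sz : α → ℕ) (Ω : ℕ → Finset τ) (E e : ℕ) (Qs Q : α → τ → ℤ[X])
    (hQ : ∀ a h, (Qs a h - Q a h).natDegree ≤ e - 1) (h : Exq sz Ω E (fun a h => (Qs a h - Q a h).coeff (e - 1))) :
    Exq sz (Om2 Ω) E (fun a p => (lt0 Qs a p - lt0 Q a p).coeff (e - 1)) := by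
  have h1 := Exq_lift sz Ω (fun A => range A ×ˢ range A) E _ h
  have e1 : (fun (a : α) (p : τ × (ℕ × ℕ)) => (lt0 Qs a p - lt0 Q a p).coeff (e - 1)) =
      fun a p => (Qs a p.1 - Q a p.1).coeff (e - 1) := by
    funext a p
    unfold lt0
    rw [← map_sub, taylor_coeff_top _ _ (hQ a p.1)]
  rw [e1]
  exact h1

/-- Exact degree of `c`, lifted (first coordinate only). -/
theorem x0 (sz : α → ℕ) (Ω : ℕ → Finset τ) (E : ℕ) (c : α → τ → ℤ) (h : Exq sz Ω E c) :
    Exq sz (Om2 Ω) E (fun a p => c a p.1) :=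
  Exq_lift sz Ω (fun A => range A ×ˢ range A) E c h

end Pool.Agent.NLG
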