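import Pool.Agent.Lib.NLG.DefsC
import Pool.Agent.Lib.NLG.Ev
import Pool.Agent.Lib.NLT.Auto
import Pool.Agent.Lib.NLT.Geo

/-!
# Module PmsG: mean squares from window bounds

PROOF (compare NLT/PmsOne; here no blocks are needed because `GenA` holds in every `ZMod M`). Let `b` be a bound for all coefficients of the `P j` and for
`∑_i |coefficient|`, so `|P j t| ≤ b H ^ d j ≤ b X` for `t < H`. Take `M = 20 (b + 1) X` (`X ≥ 1`). Suppose `∑_t ‖∑_n ..‖ ^ 2 > H X ^ 2 / R`. Square out (`n' = n + h`, `|h| < X`):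
`∑_t ‖..‖ ^ 2 = ∑_(|h| < X) ∑_t ∑_(n ∈ (0, X]) cr h w n ∏_j cr h (g j) (n + P j t)` (`cr h f n = f n conj f (n + h)`; `w` is supported in `(0, X]`). For `z : ZMod M` let `z'` be its
representative in `(-M/2, M/2]` (`ZMod.valMinAbs`), `f0 z = cr h w z'`, `f j z = cr h (g j) z'`. For `0 < n ≤ X`, `t < H`: `|n + P j t| ≤ (b + 1) X < M / 2`, so
`∑_t ∑_n .. = H M TP H 1 P f0 f` (`f0` vanishes for `z' ∉ (0, X]`). Hence `∑_(|h| < X) ‖TP_h‖ > X ^ 2 / (R M)` and at least `X / (C' R)` of the `2 X` values `h` have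
`‖TP_h‖ ≥ 1 / (C' R)`, `C' = 100 (b + 1)`. `GenA m` with `R1 = R ^ k ≥ max (C' R) b` (`Fam m d R1 H P` because `|coeff_i| H ^ i ≤ b H ^ d`): `Star C1 R1 H (d j0) (f j0)` with some
`q_h ≤ R1 ^ C1`. Pigeonhole: one `q` for a set `S` of at least `X / R ^ C2` of the `h`. Let `J` be the integer part of `H ^ d j0 / R ^ C3` (`≥ 1`, `q J ≤ H ^ d j0 ≤ X`). Since `g j0` vanishes for `|n| > 3 X`
and `M / 2 ≥ 10 X`: `∑_z ‖tv J (fun i => f j0 (z + q i))‖ = ∑_n ‖tv J (fun i => cr h (g j0) (n + q i))‖` over `n ∈ [-9 X, 9 X]` (if `z' + q i > M / 2` both sides vanish). So for `h ∈ S`: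
`M / R ^ C4 ≤ ∑_n ‖tv J ..‖`, `M ^ 2 / R ^ (2 C4) ≤ 20 X ∑_n ‖tv J ..‖ ^ 2`. Sum over `h ∈ S` and `auto_ap` (`Y = 3 X`, `W = q J`; `H ^ d j0 ≤ 2 R ^ C3 J ≤ R ^ C q J`):
`X ^ 2 / R ^ C5 ≤ J ^ (-2) (∑ ‖g j0 n‖ ^ 2) X (q J) ^ 2 / R ^ C ≤ 7 X ^ 2 q ^ 2 / R ^ C`: a contradiction if `C` is large (`q ≤ R ^ (k C1)`).
(`m = 0` is excluded by `j0`.)
-/

set_option autoImplicit false

open Finset Polynomial

namespace Pool.Agent.NLG

open Pool.Agent.HLT Pool.Agent.NLT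

namespace PmsGAux

/-- The sum of the absolute values of all coefficients. -/
def bP {m : ℕ} (P : Fin m → ℤ[X]) : ℕ := ∑ j, ∑ i ∈ range ((P j).natDegree + 1), ((P j).coeff i).natAbs

lemma bP_ge {m : ℕ} (P : Fin m → ℤ[X]) (j : Fin m) :
    ∑ i ∈ range ((P j).natDegree + 1), ((P j).coeff i).natAbs ≤ bP P :=
  Finset.single_le_sum (f := fun j => ∑ i ∈ range ((P j).natDegree + 1), ((P j).coeff i).natAbs)
    (fun _ _ => Nat.zero_le _) (Finset.mem_univ j)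

lemma coeff_le {m : ℕ} (P : Fin m → ℤ[X]) (j : Fin m) (i : ℕ) : ((P j).coeff i).natAbs ≤ bP P := by
  by_cases hi : i ∈ range ((P j).natDegree + 1)
  · exact (Finset.single_le_sum (f := fun i => ((P j).coeff i).natAbs) (fun _ _ => Nat.zero_le _) hi).trans (bP_ge P j)
  · rw [Finset.mem_range, not_lt] at hi
    rw [Polynomial.coeff_eq_zero_of_natDegree_lt (by omega)]
    simp

lemma fam {m : ℕ} (d : Fin m → ℕ) (P : Fin m → ℤ[X]) (hP : ∀ j, (P j).natDegree = d j) (R H : ℕ) (hR : bP P ≤ R)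
    (hH : 1 ≤ H) : Fam m d R H P := by
  refine ⟨hP, ?_⟩
  intro j i _
  by_cases hi : i ≤ d j
  · exact Nat.mul_le_mul ((coeff_le P j i).trans hR) (Nat.pow_le_pow_right hH hi)
  · rw [Polynomial.coeff_eq_zero_of_natDegree_lt (by rw [hP]; omega)]
    simp

lemma eval_le {m : ℕ} (d : Fin m → ℕ) (P : Fin m → ℤ[X]) (hP : ∀ j, (P j).natDegree = d j) (H X t : ℕ) (ht : t < H)
    (hX : ∀ j, H ^ d j ≤ X) (j : Fin m) : |(P j).eval (t : ℤ)| ≤ (bP P : ℤ) * X := by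
  rw [Polynomial.eval_eq_sum_range]
  refine (Finset.abs_sum_le_sum_abs _ _).trans ?_
  have h1 : ∀ i ∈ range ((P j).natDegree + 1), |(P j).coeff i * (t : ℤ) ^ i| ≤ (((P j).coeff i).natAbs : ℤ) * X := by
    intro i hi
    rw [Finset.mem_range, hP] at hi
    rw [abs_mul, Int.abs_eq_natAbs ((P j).coeff i)]
    refine mul_le_mul_of_nonneg_left ?_ (Int.natCast_nonneg _)
    rw [abs_of_nonneg (pow_nonneg (Int.natCast_nonneg t) i)]
    have h2 : t ^ i ≤ X := by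
      calc t ^ i ≤ H ^ i := Nat.pow_le_pow_left ht.le i
        _ ≤ H ^ d j := Nat.pow_le_pow_right (by omega) (by omega)
        _ ≤ X := hX j
    exact_mod_cast h2
  refine (Finset.sum_le_sum h1).trans ?_
  rw [← Finset.sum_mul]
  refine mul_le_mul_of_nonneg_right ?_ (Int.natCast_nonneg _)
  exact_mod_cast bP_ge P j

section zm

variable {M : ℕ} [NeZero M]

lemma vma_add (x : ZMod M) (k : ℤ) (hk : |x.valMinAbs + k| * 2 < M) :
    (x + (k : ZMod M)).valMinAbs = x.valMinAbs + k := by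
  rw [ZMod.valMinAbs_spec]
  refine ⟨?_, ?_⟩
  · rw [Int.cast_add, ZMod.coe_valMinAbs]
  · obtain ⟨h1, h2⟩ := abs_le.1 (le_refl |x.valMinAbs + k|)
    rw [Set.mem_Ioc]
    constructor <;> linarith

lemma sum_vma {β : Type} [AddCommMonoid β] (U : Finset ℤ) (hU : ∀ n ∈ U, |n| * 2 < M) (φ : ℤ → β) :
    ∑ x : ZMod M, (if x.valMinAbs ∈ U then φ x.valMinAbs else 0) = ∑ n ∈ U, φ n := by
  rw [← Finset.sum_filter]
  have hv : ∀ n ∈ U, ((n : ZMod M)).valMinAbs = n := by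
    intro n hn
    rw [ZMod.valMinAbs_spec]
    have h3 := hU n hn
    obtain ⟨h1, h2⟩ := abs_le.1 (le_refl |n|)
    refine ⟨rfl, ?_⟩
    rw [Set.mem_Ioc]
    constructor <;> linarith
  refine Finset.sum_nbij' (fun x => x.valMinAbs) (fun n => (n : ZMod M)) ?_ ?_ ?_ ?_ ?_
  · intro x hx
    exact (Finset.mem_filter.1 hx).2
  · intro n hn
    rw [Finset.mem_filter]
    refine ⟨Finset.mem_univ _, ?_⟩
    rw [hv n hn]
    exact hn
  · intro x _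
    exact ZMod.coe_valMinAbs x
  · intro n hn
    exact hv n hn
  · intro x _
    rfl

/-- The average along a progression. -/
lemma tv_vma (X : ℕ) (hM : 20 * X ≤ M) (hX : 1 ≤ X) (g : ℤ → ℂ) (hg : ∀ n : ℤ, 3 * (X : ℤ) < |n| → g n = 0) (h : ℤ) (q J : ℕ)
    (hqJ : q * J ≤ X) (x : ZMod M) :
    ‖tv J (fun i => cr h g (x + ((q * i : ℕ) : ZMod M)).valMinAbs)‖ =
      if x.valMinAbs ∈ Icc (-(4 * X : ℤ)) (4 * X) then ‖tv J (fun i => cr h g (x.valMinAbs + q * i))‖ else 0 := by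
  have hM' : 20 * (X : ℤ) ≤ M := by exact_mod_cast hM
  have hX' : 1 ≤ (X : ℤ) := by exact_mod_cast hX
  have hqi : ∀ i ∈ range J, (0 : ℤ) ≤ ((q * i : ℕ) : ℤ) ∧ ((q * i : ℕ) : ℤ) ≤ X := by
    intro i hi
    rw [Finset.mem_range] at hi
    have h1 : q * i ≤ q * J := Nat.mul_le_mul_left q hi.le
    refine ⟨Int.natCast_nonneg _, ?_⟩
    exact_mod_cast h1.trans hqJ
  by_cases hx : x.valMinAbs ∈ Icc (-(4 * X : ℤ)) (4 * X)
  · rw [if_pos hx]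
    congr 1
    unfold tv
    congr 1
    refine Finset.sum_congr rfl fun i hi => ?_
    obtain ⟨h1, h2⟩ := hqi i hi
    rw [Finset.mem_Icc] at hx
    have e1 : (x + (((q * i : ℕ) : ℤ) : ZMod M)).valMinAbs = x.valMinAbs + ((q * i : ℕ) : ℤ) := by
      refine vma_add x _ ?_
      have h3 : |x.valMinAbs + ((q * i : ℕ) : ℤ)| ≤ 5 * X := abs_le.2 ⟨by linarith [hx.1], by linarith [hx.2]⟩
      linarith
    rw [Int.cast_natCast] at e1
    show cr h g (x + ((q * i : ℕ) : ZMod M)).valMinAbs = cr h g (x.valMinAbs + q * i)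
    rw [e1]
    push_cast
    rfl
  · rw [if_neg hx]
    have e0 : tv J (fun i => cr h g (x + ((q * i : ℕ) : ZMod M)).valMinAbs) = 0 := by
      unfold tv
      rw [Finset.sum_eq_zero, zero_div]
      intro i hi
      obtain ⟨h1, h2⟩ := hqi i hi
      have hz : g (x + ((q * i : ℕ) : ZMod M)).valMinAbs = 0 := by
        apply hg
        by_contra hc
        rw [not_lt, abs_le] at hc
        apply hx
        have e1 : x.valMinAbs = (x + ((q * i : ℕ) : ZMod M)).valMinAbs - ((q * i : ℕ) : ℤ) := by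
          rw [ZMod.valMinAbs_spec]
          refine ⟨?_, ?_⟩
          · rw [Int.cast_sub, ZMod.coe_valMinAbs, Int.cast_natCast]
            ring
          · rw [Set.mem_Ioc]
            constructor
            · linarith [hc.1]
            · linarith [hc.2]
        rw [e1, Finset.mem_Icc]
        constructor
        · linarith [hc.1]
        · linarith [hc.2]
      unfold cr
      rw [hz, zero_mul]
    rw [e0, norm_zero]

end zm

lemma norm_tv_le {J : ℕ} (F : ℕ → ℂ) (hF : ∀ j, ‖F j‖ ≤ 1) : ‖tv J F‖ ≤ 1 := by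
  unfold tv
  rw [norm_div, Complex.norm_natCast]
  refine div_le_one_of_le₀ ?_ (Nat.cast_nonneg J)
  refine (norm_sum_le _ _).trans ?_
  refine (Finset.sum_le_sum fun j _ => hF j).trans ?_
  simp

lemma norm_av_le {M : ℕ} [NeZero M] (F : ZMod M → ℂ) (hF : ∀ j, ‖F j‖ ≤ 1) : ‖av F‖ ≤ 1 := by
  unfold av
  rw [norm_div, Complex.norm_natCast]
  refine div_le_one_of_le₀ ?_ (Nat.cast_nonneg M)
  refine (norm_sum_le _ _).trans ?_
  refine (Finset.sum_le_sum fun j _ => hF j).trans ?_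
  simp [ZMod.card]

lemma cr_Bd (h : ℤ) (f : ℤ → ℂ) (hf : Bd f) : Bd (cr h f) := by
  intro n
  unfold cr
  rw [norm_mul, Complex.norm_conj]
  exact mul_le_one₀ (hf _) (norm_nonneg _) (hf _)

lemma prod_Bd {m : ℕ} (f : Fin m → ℂ) (hf : ∀ j, ‖f j‖ ≤ 1) : ‖∏ j, f j‖ ≤ 1 := by
  rw [norm_prod]
  exact Finset.prod_le_one (fun _ _ => norm_nonneg _) (fun j _ => hf j)

/-- the sum over a long interval of a function supported on `(0, X]` -/
lemma shift_full {X : ℕ} (f : ℤ → ℂ) (hf : ∀ n : ℤ, ¬ (0 < n ∧ n ≤ X) → f n = 0) (lo hi z : ℤ)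
    (h1 : lo + z ≤ 1) (h2 : (X : ℤ) ≤ hi + z) :
    ∑ y ∈ Icc lo hi, f (y + z) = ∑ n ∈ Ioc (0 : ℤ) X, f n := by
  have e1 : ∑ y ∈ Icc lo hi, f (y + z) = ∑ n ∈ Icc (lo + z) (hi + z), f n := by
    rw [← Finset.map_add_right_Icc, Finset.sum_map]
    rfl
  rw [e1]
  symm
  apply Finset.sum_subset
  · intro n hn
    rw [Finset.mem_Ioc] at hn
    rw [Finset.mem_Icc]
    omega
  · intro n _ hn
    rw [Finset.mem_Ioc] at hn
    exact hf n hn

lemma expand {X : ℕ} (F : ℤ → ℂ) (hF : ∀ n : ℤ, ¬ (0 < n ∧ n ≤ X) → F n = 0) :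
    ((‖∑ n ∈ Ioc (0 : ℤ) X, F n‖ ^ 2 : ℝ) : ℂ) =
      ∑ h ∈ Icc (-(X : ℤ)) X, ∑ n ∈ Ioc (0 : ℤ) X, F n * (starRingEnd ℂ) (F (n + h)) := by
  rw [Finset.sum_comm]
  have e1 : ((‖∑ n ∈ Ioc (0 : ℤ) X, F n‖ ^ 2 : ℝ) : ℂ) =
      (∑ n ∈ Ioc (0 : ℤ) X, F n) * (starRingEnd ℂ) (∑ n ∈ Ioc (0 : ℤ) X, F n) := by
    rw [Complex.mul_conj, Complex.normSq_eq_norm_sq]
  rw [e1, Finset.sum_mul]
  refine Finset.sum_congr rfl fun n hn => ?_
  rw [← Finset.mul_sum, ← map_sum]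
  rw [Finset.mem_Ioc] at hn
  have e2 := shift_full F hF (-(X : ℤ)) X n (by omega) (by omega)
  rw [← e2]
  congr 2
  refine Finset.sum_congr rfl fun h _ => ?_
  rw [add_comm]

/-- The sum for one difference. -/
noncomputable def Sg {m : ℕ} (H X : ℕ) (P : Fin m → ℤ[X]) (w : ℤ → ℂ) (g : Fin m → ℤ → ℂ) (h : ℤ) : ℂ :=
  ∑ t ∈ range H, ∑ n ∈ Ioc (0 : ℤ) X, cr h w n * ∏ j, cr h (g j) (n + (P j).eval (t : ℤ))

lemma total {m : ℕ} (H X : ℕ) (P : Fin m → ℤ[X]) (w : ℤ → ℂ) (g : Fin m → ℤ → ℂ)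
    (hw : ∀ n : ℤ, ¬ (0 < n ∧ n ≤ X) → w n = 0) :
    ((∑ t ∈ range H, ‖∑ n ∈ Ioc (0 : ℤ) X, w n * ∏ j, g j (n + (P j).eval (t : ℤ))‖ ^ 2 : ℝ) : ℂ) =
      ∑ h ∈ Icc (-(X : ℤ)) X, Sg H X P w g h := by
  unfold Sg
  rw [Complex.ofReal_sum, Finset.sum_comm]
  refine Finset.sum_congr rfl fun t _ => ?_
  rw [expand (fun n => w n * ∏ j, g j (n + (P j).eval (t : ℤ)))]
  · refine Finset.sum_congr rfl fun h _ => Finset.sum_congr rfl fun n _ => ?_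
    unfold cr
    rw [map_mul, map_prod, Finset.prod_mul_distrib]
    have e3 : ∀ j, n + h + (P j).eval (t : ℤ) = n + (P j).eval (t : ℤ) + h := fun j => by ring
    simp only [e3]
    ring
  · intro n hn
    rw [hw n hn]
    simp

lemma Sg_eq {m : ℕ} (d : Fin m → ℕ) (H X M : ℕ) [NeZero M] (P : Fin m → ℤ[X]) (hP : ∀ j, (P j).natDegree = d j)
    (hX : ∀ j, H ^ d j ≤ X) (hX1 : 1 ≤ X) (hM : 20 * (bP P + 1) * X ≤ M) (w : ℤ → ℂ) (g : Fin m → ℤ → ℂ)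
    (hw : ∀ n : ℤ, ¬ (0 < n ∧ n ≤ X) → w n = 0) (h : ℤ) :
    TP H (fun _ => 1) P (fun z : ZMod M => cr h w z.valMinAbs) (fun j (z : ZMod M) => cr h (g j) z.valMinAbs) =
      Sg H X P w g h / (M * H) := by
  have hM' : 20 * ((bP P : ℤ) + 1) * X ≤ M := by exact_mod_cast hM
  have hX1' : (1 : ℤ) ≤ X := by exact_mod_cast hX1
  have hb0 : (0 : ℤ) ≤ bP P := Int.natCast_nonneg _
  have hbX : (0 : ℤ) ≤ (bP P : ℤ) * X := by positivity
  have key : ∀ t ∈ range H, ∑ x : ZMod M, cr h w x.valMinAbs *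
      ∏ j, cr h (g j) (x + (((P j).eval (t : ℤ) : ℤ) : ZMod M)).valMinAbs =
      ∑ n ∈ Ioc (0 : ℤ) X, cr h w n * ∏ j, cr h (g j) (n + (P j).eval (t : ℤ)) := by
    intro t ht
    rw [Finset.mem_range] at ht
    rw [← sum_vma (M := M) (Ioc (0 : ℤ) X) (by
      intro n hn
      rw [Finset.mem_Ioc] at hn
      rw [abs_of_nonneg hn.1.le]
      nlinarith [hn.2]) (fun n => cr h w n * ∏ j, cr h (g j) (n + (P j).eval (t : ℤ)))]
    refine Finset.sum_congr rfl fun x _ => ?_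
    by_cases hx : x.valMinAbs ∈ Ioc (0 : ℤ) X
    · rw [if_pos hx]
      rw [Finset.mem_Ioc] at hx
      congr 1
      refine Finset.prod_congr rfl fun j _ => ?_
      have h1 := eval_le d P hP H X t ht hX j
      rw [vma_add x]
      obtain ⟨h2, h3⟩ := abs_le.1 h1
      have h4 : |x.valMinAbs + (P j).eval (t : ℤ)| ≤ (bP P : ℤ) * X + X :=
        abs_le.2 ⟨by linarith [hx.1], by linarith [hx.2]⟩
      nlinarith
    · rw [if_neg hx]
      rw [Finset.mem_Ioc] at hx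
      unfold cr
      rw [hw _ hx]
      simp
  unfold TP tv av Sg
  have e2 : ∀ t ∈ range H, (1 : ℂ) * ((∑ x : ZMod M, cr h w x.valMinAbs *
      ∏ j, cr h (g j) (x + (((P j).eval (t : ℤ) : ℤ) : ZMod M)).valMinAbs) / (M : ℂ)) =
      (∑ n ∈ Ioc (0 : ℤ) X, cr h w n * ∏ j, cr h (g j) (n + (P j).eval (t : ℤ))) / (M : ℂ) := by
    intro t ht
    rw [key t ht, one_mul]
  rw [Finset.sum_congr rfl e2, ← Finset.sum_div, div_div]

/-- Many differences with a large average. -/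
lemma many {m : ℕ} (d : Fin m → ℕ) (R H X M : ℕ) [NeZero M] (P : Fin m → ℤ[X]) (hP : ∀ j, (P j).natDegree = d j)
    (hX : ∀ j, H ^ d j ≤ X) (hX1 : 1 ≤ X) (hH1 : 1 ≤ H) (hR1 : 1 ≤ R) (hM : M = 20 * (bP P + 1) * X) (w : ℤ → ℂ)
    (hwB : Bd w) (g : Fin m → ℤ → ℂ) (hg : ∀ j, Bd (g j)) (hw : ∀ n : ℤ, ¬ (0 < n ∧ n ≤ X) → w n = 0)
    (hbig : (H : ℝ) * X ^ 2 / R <
      ∑ t ∈ range H, ‖∑ n ∈ Ioc (0 : ℤ) X, w n * ∏ j, g j (n + (P j).eval (t : ℤ))‖ ^ 2) :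
    ∃ S : Finset ℤ, (X : ℝ) / (40 * (bP P + 1) * R) ≤ S.card ∧ ∀ h ∈ S, 1 / (120 * (bP P + 1) * (R : ℝ)) ≤
      ‖TP H (fun _ => 1) P (fun z : ZMod M => cr h w z.valMinAbs) (fun j (z : ZMod M) => cr h (g j) z.valMinAbs)‖ := by
  classical
  have hXr : (1 : ℝ) ≤ X := by exact_mod_cast hX1
  have hHr : (1 : ℝ) ≤ H := by exact_mod_cast hH1
  have hRr : (1 : ℝ) ≤ R := by exact_mod_cast hR1
  have hb0 : (0 : ℝ) ≤ bP P := Nat.cast_nonneg _
  have hMr : (M : ℝ) = 20 * (bP P + 1) * X := by rw [hM]; push_cast; ring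
  have hM0 : (0 : ℝ) < M := by rw [hMr]; positivity
  set T : ℤ → ℂ := fun h => TP H (fun _ => 1) P (fun z : ZMod M => cr h w z.valMinAbs)
    (fun j (z : ZMod M) => cr h (g j) z.valMinAbs) with hT
  have hT1 : ∀ h, ‖T h‖ ≤ 1 := by
    intro h
    rw [hT]
    unfold TP
    refine norm_tv_le _ fun t => ?_
    rw [one_mul]
    refine norm_av_le _ fun x => ?_
    rw [norm_mul]
    exact mul_le_one₀ (cr_Bd h w hwB _) (norm_nonneg _) (prod_Bd _ fun j => cr_Bd h (g j) (hg j) _)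
  have htot := total H X P w g hw
  set S0 : ℝ := ∑ t ∈ range H, ‖∑ n ∈ Ioc (0 : ℤ) X, w n * ∏ j, g j (n + (P j).eval (t : ℤ))‖ ^ 2 with hS0
  have hS00 : 0 ≤ S0 := Finset.sum_nonneg fun _ _ => by positivity
  have h1 : S0 ≤ ∑ h ∈ Icc (-(X : ℤ)) X, ‖Sg H X P w g h‖ := by
    have e1 : S0 = ‖(S0 : ℂ)‖ := by rw [Complex.norm_real, Real.norm_of_nonneg hS00]
    rw [e1, htot]
    exact norm_sum_le _ _
  have h2 : ∀ h, ‖Sg H X P w g h‖ = M * H * ‖T h‖ := by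
    intro h
    have e1 : T h = Sg H X P w g h / (M * H) := Sg_eq d H X M P hP hX hX1 hM.ge w g hw h
    rw [e1, norm_div, norm_mul, Complex.norm_natCast, Complex.norm_natCast]
    field_simp
  simp only [h2] at h1
  rw [← Finset.mul_sum] at h1
  set τ : ℝ := 1 / (120 * (bP P + 1) * (R : ℝ)) with hτ
  have hτ0 : 0 < τ := by positivity
  refine ⟨(Icc (-(X : ℤ)) X).filter (fun h => τ ≤ ‖T h‖), ?_, fun h hh => (Finset.mem_filter.1 hh).2⟩
  set S := (Icc (-(X : ℤ)) X).filter (fun h => τ ≤ ‖T h‖) with hS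
  have h3 : ∑ h ∈ Icc (-(X : ℤ)) X, ‖T h‖ ≤ S.card + 3 * X * τ := by
    rw [← Finset.sum_filter_add_sum_filter_not (Icc (-(X : ℤ)) X) (fun h => τ ≤ ‖T h‖)]
    apply add_le_add
    · rw [← hS]
      calc ∑ h ∈ S, ‖T h‖ ≤ ∑ _h ∈ S, (1 : ℝ) := Finset.sum_le_sum fun h _ => hT1 h
        _ = _ := by rw [Finset.sum_const, nsmul_eq_mul, mul_one]
    · calc ∑ h ∈ (Icc (-(X : ℤ)) X).filter (fun h => ¬ τ ≤ ‖T h‖), ‖T h‖
          ≤ ∑ _h ∈ (Icc (-(X : ℤ)) X).filter (fun h => ¬ τ ≤ ‖T h‖), τ :=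
            Finset.sum_le_sum fun h hh => (not_le.1 (Finset.mem_filter.1 hh).2).le
        _ = (((Icc (-(X : ℤ)) X).filter (fun h => ¬ τ ≤ ‖T h‖)).card : ℝ) * τ := by
            rw [Finset.sum_const, nsmul_eq_mul]
        _ ≤ 3 * X * τ := by
            apply mul_le_mul_of_nonneg_right _ hτ0.le
            have e1 : ((Icc (-(X : ℤ)) X).filter (fun h => ¬ τ ≤ ‖T h‖)).card ≤ 3 * X := by
              refine (Finset.card_filter_le _ _).trans ?_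
              rw [Int.card_Icc]
              omega
            exact_mod_cast e1
  have h4 : (H : ℝ) * X ^ 2 / R < M * H * (S.card + 3 * X * τ) :=
    hbig.trans_le (h1.trans (mul_le_mul_of_nonneg_left h3 (by positivity)))
  have h5 : (M : ℝ) * H * (X / (20 * (bP P + 1) * R)) = (H : ℝ) * X ^ 2 / R := by
    rw [hMr]
    field_simp
  rw [← h5] at h4
  have h6 := lt_of_mul_lt_mul_left h4 (by positivity)
  have h7 : 3 * (X : ℝ) * τ = X / (40 * (bP P + 1) * R) := by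
    rw [hτ]
    field_simp
    norm_num
  have h8 : (X : ℝ) / (20 * (bP P + 1) * R) = X / (40 * (bP P + 1) * R) + X / (40 * (bP P + 1) * R) := by
    field_simp
    norm_num
  rw [h7, h8] at h6
  linarith

/-- The upper bound for one step `q`. -/
lemma upper (e : ℤ → ℂ) (X : ℕ) (hX : 1 ≤ X) (he : Bd e) (hse : ∀ n : ℤ, 3 * (X : ℤ) < |n| → e n = 0) (q J : ℕ)
    (hq : 1 ≤ q) (hJ : 1 ≤ J) (D : ℝ) (hD : WB e (q * J) D) (S U : Finset ℤ) :
    ∑ h ∈ S, ∑ n ∈ U, ‖tv J (fun j => cr h e (n + q * j))‖ ^ 2 ≤ (7 * X * D) / (J : ℝ) ^ 2 := by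
  have hD0 : 0 ≤ D := by
    have := hD 0 ∅
    simpa using this
  have hJ' : (0 : ℝ) < (J : ℝ) := by exact_mod_cast hJ
  have h3 := auto_ap e (3 * X) (by
    intro n hn
    refine hse n ?_
    push_cast at hn
    exact hn) q J hq D hD S U
  have h4 : ∑ n ∈ Icc (-((3 * X : ℕ) : ℤ)) ((3 * X : ℕ) : ℤ), ‖e n‖ ^ 2 ≤ 7 * X := by
    calc ∑ n ∈ Icc (-((3 * X : ℕ) : ℤ)) ((3 * X : ℕ) : ℤ), ‖e n‖ ^ 2
        ≤ ∑ _n ∈ Icc (-((3 * X : ℕ) : ℤ)) ((3 * X : ℕ) : ℤ), (1 : ℝ) := by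
          refine Finset.sum_le_sum fun n _ => ?_
          have := he n
          exact pow_le_one₀ (norm_nonneg _) this
      _ ≤ 7 * X := by
          rw [Finset.sum_const, nsmul_eq_mul, mul_one, Int.card_Icc]
          have : (((3 * X : ℕ) : ℤ) + 1 - -((3 * X : ℕ) : ℤ)).toNat ≤ 7 * X := by omega
          exact_mod_cast this
  have h5 : ∀ (h n : ℤ), ‖tv J (fun j => cr h e (n + q * j))‖ ^ 2 =
      ‖∑ j ∈ range J, cr h e (n + q * j)‖ ^ 2 / (J : ℝ) ^ 2 := by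
    intro h n
    unfold tv
    rw [norm_div, Complex.norm_natCast, div_pow]
  simp only [h5]
  simp only [← Finset.sum_div]
  refine div_le_div_of_nonneg_right ?_ (by positivity)
  exact h3.trans (mul_le_mul_of_nonneg_right h4 hD0)

end PmsGAux

open PmsGAux

theorem pms_g (m : ℕ) (hA : GenA m) (d : Fin m → ℕ) (hd : StrictMono d) (h1 : ∀ j, 1 ≤ d j) (P : Fin m → ℤ[X])
    (hP : ∀ j, (P j).natDegree = d j) (h0 : ∀ j, (P j).coeff 0 = 0) :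
    ∃ C : ℕ, ∀ (R H X : ℕ), 2 ≤ R → R ^ C ≤ H → (∀ j, H ^ d j ≤ X) → ∀ w : ℤ → ℂ, Bd w → ∀ g : Fin m → ℤ → ℂ, (∀ j, Bd (g j)) →
    (∀ n : ℤ, ¬ (0 < n ∧ n ≤ X) → w n = 0) → ∀ j0 : Fin m, (∀ n : ℤ, 3 * (X : ℤ) < |n| → g j0 n = 0) →
    (∀ W : ℕ, H ^ d j0 ≤ R ^ C * W → W ≤ H ^ d j0 → WB (g j0) W ((X : ℝ) * W ^ 2 / (R : ℝ) ^ C)) →
    ∑ t ∈ range H, ‖∑ n ∈ Ioc (0 : ℤ) X, w n * ∏ j, g j (n + (P j).eval (t : ℤ))‖ ^ 2 ≤ (H : ℝ) * X ^ 2 / R := by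
  obtain ⟨C1, hG⟩ := hA d hd h1
  set b := bP P with hb
  set k := b + 9 with hk
  set E := k * C1 with hE
  set C := 5 * E + b + 12 with hC
  refine ⟨C, ?_⟩
  intro R H X hR hRH hHX w hw g hg hsw j0 hsg hWB
  by_contra hcon
  push Not at hcon
  have hR1 : 1 ≤ R := by omega
  have hRr : (2 : ℝ) ≤ R := by exact_mod_cast hR
  have hRr1 : (1 : ℝ) ≤ R := by linarith
  have hR0 : (0 : ℝ) < R := by linarith
  have hle : ∀ {n : ℕ}, n ≤ C → R ^ n ≤ H := fun {n} hn => (Nat.pow_le_pow_right hR1 hn).trans hRH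
  have hH1 : 1 ≤ H := (Nat.one_le_pow _ _ (by omega)).trans hRH
  have hHe : H ≤ H ^ d j0 := by
    calc H = H ^ 1 := (pow_one H).symm
      _ ≤ H ^ d j0 := Nat.pow_le_pow_right hH1 (h1 j0)
  have hX1 : 1 ≤ X := hH1.trans (hHe.trans (hHX j0))
  obtain ⟨M, hM⟩ : ∃ M : ℕ, M = 20 * (bP P + 1) * X := ⟨_, rfl⟩
  have hMpos : 0 < M := by rw [hM]; positivity
  have : NeZero M := ⟨hMpos.ne'⟩
  obtain ⟨S, hSc, hS⟩ := many d R H X M P hP hHX hX1 hH1 hR1 hM w hw g hg hsw hcon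
  rw [← hb] at hSc hS hM
  have hk2 : 2 ≤ R ^ k := hR.trans (by simpa using Nat.pow_le_pow_right hR1 (show 1 ≤ k by omega))
  have hbk : b ≤ R ^ k := by
    have e1 : b < 2 ^ b := Nat.lt_two_pow_self
    have e2 : 2 ^ b ≤ R ^ b := Nat.pow_le_pow_left hR _
    have e3 : R ^ b ≤ R ^ k := Nat.pow_le_pow_right hR1 (by omega)
    omega
  have hbpow : ((b : ℝ) + 1) ≤ (R : ℝ) ^ (b + 1) := by
    have e1 : b + 1 < 2 ^ (b + 1) := Nat.lt_two_pow_self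
    have e2 : 2 ^ (b + 1) ≤ R ^ (b + 1) := Nat.pow_le_pow_left hR _
    have e3 : b + 1 ≤ R ^ (b + 1) := e1.le.trans e2
    exact_mod_cast e3
  have hb0 : (0 : ℝ) ≤ b := Nat.cast_nonneg b
  have hthr : 120 * ((b : ℝ) + 1) * R ≤ (R : ℝ) ^ k := by
    have e1 : (128 : ℝ) ≤ (R : ℝ) ^ 7 := by
      calc (128 : ℝ) = 2 ^ 7 := by norm_num
        _ ≤ (R : ℝ) ^ 7 := pow_le_pow_left₀ (by norm_num) hRr 7
    calc 120 * ((b : ℝ) + 1) * R ≤ (R : ℝ) ^ 7 * (R : ℝ) ^ (b + 1) * R := by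
          apply mul_le_mul_of_nonneg_right _ hR0.le
          exact mul_le_mul (by linarith) hbpow (by positivity) (by positivity)
      _ = (R : ℝ) ^ k := by rw [hk]; ring
  set e := d j0 with he
  set J := H ^ e / R ^ E with hJ
  have hRE : R ^ E ≤ H ^ e := (hle (by omega)).trans hHe
  have hJ1 : 1 ≤ J := (Nat.one_le_div_iff (by positivity)).2 hRE
  have hJH : J * R ^ E ≤ H ^ e := Nat.div_mul_le_self _ _
  -- the step
  have hq : ∀ h ∈ S, ∃ q : ℕ, 1 ≤ q ∧ q ≤ R ^ E ∧ 1 / (R : ℝ) ^ E ≤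
      avr (fun x : ZMod M => ‖tv J (fun i => cr h (g j0) (x + ((q * i : ℕ) : ZMod M)).valMinAbs)‖) := by
    intro h hh
    obtain ⟨q, hq1, hq2, hq3⟩ := hG M H (R ^ k) hk2 (by rw [← pow_mul]; exact hle (by omega)) P
      (fam d P hP (R ^ k) H hbk hH1)
      (fun z : ZMod M => cr h w z.valMinAbs) (fun z => cr_Bd h w hw _)
      (fun j (z : ZMod M) => cr h (g j) z.valMinAbs) (fun j z => cr_Bd h (g j) (hg j) _) (by
        refine le_trans ?_ (hS h hh)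
        rw [Nat.cast_pow]
        exact one_div_le_one_div_of_le (by positivity) hthr) j0
    rw [← pow_mul] at hq2 hq3
    refine ⟨q, hq1, hq2, ?_⟩
    have h2 := hq3 J hJ1 hJH
    rw [Nat.cast_pow, ← pow_mul] at h2
    exact h2
  choose! qf hq1 hq2 hq3 using hq
  have hqJ : ∀ q, q ≤ R ^ E → q * J ≤ H ^ e := by
    intro q hq
    calc q * J ≤ R ^ E * J := Nat.mul_le_mul_right J hq
      _ = J * R ^ E := mul_comm _ _
      _ ≤ H ^ e := hJH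
  -- the lower bound
  have hMX : 20 * X ≤ M := by rw [hM]; nlinarith
  have hMr : 20 * (X : ℝ) ≤ M := by exact_mod_cast hMX
  have hM0 : (0 : ℝ) < M := by exact_mod_cast hMpos
  have hXr : (1 : ℝ) ≤ X := by exact_mod_cast hX1
  have hlow : ∀ h ∈ S, (X : ℝ) / (R : ℝ) ^ (2 * E) ≤
      ∑ n ∈ Icc (-(4 * X : ℤ)) (4 * X), ‖tv J (fun j => cr h (g j0) (n + qf h * j))‖ ^ 2 := by
    intro h hh
    have h1 := hq3 h hh
    unfold avr at h1
    rw [le_div_iff₀ hM0] at h1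
    have h2 : ∑ x : ZMod M, ‖tv J (fun i => cr h (g j0) (x + ((qf h * i : ℕ) : ZMod M)).valMinAbs)‖ =
        ∑ n ∈ Icc (-(4 * X : ℤ)) (4 * X), ‖tv J (fun j => cr h (g j0) (n + qf h * j))‖ := by
      rw [← sum_vma (M := M) (Icc (-(4 * X : ℤ)) (4 * X)) (by
        intro n hn
        rw [Finset.mem_Icc] at hn
        have h3 : |n| ≤ 4 * X := abs_le.2 ⟨by linarith [hn.1], by linarith [hn.2]⟩
        have h4 : 20 * (X : ℤ) ≤ M := by exact_mod_cast hMX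
        have h5 : 1 ≤ (X : ℤ) := by exact_mod_cast hX1
        linarith) (fun n => ‖tv J (fun j => cr h (g j0) (n + qf h * j))‖)]
      refine Finset.sum_congr rfl fun x _ => ?_
      exact tv_vma X hMX hX1 (g j0) hsg h (qf h) J ((hqJ _ (hq2 h hh)).trans (hHX j0)) x
    rw [h2] at h1
    have h5 := sq_sum_le_card_mul_sum_sq (s := Icc (-(4 * X : ℤ)) (4 * X))
      (f := fun n => ‖tv J (fun j => cr h (g j0) (n + qf h * j))‖)
    have hcard : ((Icc (-(4 * X : ℤ)) (4 * X)).card : ℝ) ≤ 9 * X := by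
      rw [Int.card_Icc]
      have : ((4 * X : ℤ) + 1 - -(4 * X : ℤ)).toNat ≤ 9 * X := by omega
      exact_mod_cast this
    have h6 : (1 / (R : ℝ) ^ E * M) ^ 2 ≤ 9 * X *
        ∑ n ∈ Icc (-(4 * X : ℤ)) (4 * X), ‖tv J (fun j => cr h (g j0) (n + qf h * j))‖ ^ 2 :=
      (pow_le_pow_left₀ (by positivity) h1 2).trans
        (h5.trans (mul_le_mul_of_nonneg_right hcard (Finset.sum_nonneg fun n _ => by positivity)))
    have h7 : 9 * (X : ℝ) * ((X : ℝ) / (R : ℝ) ^ (2 * E)) ≤ (1 / (R : ℝ) ^ E * M) ^ 2 := by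
      have e1 : (1 / (R : ℝ) ^ E * M) ^ 2 = (M : ℝ) ^ 2 / (R : ℝ) ^ (2 * E) := by
        rw [mul_pow, div_pow, one_pow, ← pow_mul, mul_comm E 2]
        ring
      rw [e1, ← mul_div_assoc]
      refine div_le_div_of_nonneg_right ?_ (by positivity)
      nlinarith
    exact le_of_mul_le_mul_left (h7.trans h6) (by positivity)
  -- the upper bound
  have hup : ∀ q ∈ Icc 1 (R ^ E), ∑ h ∈ S, ∑ n ∈ Icc (-(4 * X : ℤ)) (4 * X),
      ‖tv J (fun j => cr h (g j0) (n + q * j))‖ ^ 2 ≤ 7 * (X : ℝ) ^ 2 * (R : ℝ) ^ (2 * E) / (R : ℝ) ^ C := by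
    intro q hq
    rw [Finset.mem_Icc] at hq
    have hqJ1 : H ^ e ≤ R ^ C * (q * J) := by
      have e1 : H ^ e < R ^ E * (J + 1) := Nat.lt_mul_div_succ (H ^ e) (by positivity)
      have e2 : R ^ E * (J + 1) ≤ R ^ E * (R * J) := Nat.mul_le_mul_left _ (by nlinarith)
      have e3 : R ^ E * (R * J) = R ^ (E + 1) * J := by ring
      have e4 : R ^ (E + 1) * J ≤ R ^ C * (q * J) :=
        Nat.mul_le_mul (Nat.pow_le_pow_right hR1 (by omega)) (Nat.le_mul_of_pos_left _ (by omega))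
      omega
    have h1 := upper (g j0) X hX1 (hg j0) hsg q J hq.1 hJ1 _ (hWB (q * J) hqJ1 (hqJ q hq.2)) S
      (Icc (-(4 * X : ℤ)) (4 * X))
    refine h1.trans ?_
    have hJ0 : (0 : ℝ) < J := by exact_mod_cast hJ1
    have hqr : (q : ℝ) ≤ (R : ℝ) ^ E := by exact_mod_cast hq.2
    have e1 : (7 * X * ((X : ℝ) * ((q * J : ℕ) : ℝ) ^ 2 / (R : ℝ) ^ C)) /
        (J : ℝ) ^ 2 = 7 * (X : ℝ) ^ 2 * (q : ℝ) ^ 2 / (R : ℝ) ^ C := by
      push_cast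
      field_simp
    rw [e1]
    refine div_le_div_of_nonneg_right ?_ (by positivity)
    refine mul_le_mul_of_nonneg_left ?_ (by positivity)
    rw [mul_comm 2 E, pow_mul]
    exact pow_le_pow_left₀ (Nat.cast_nonneg q) hqr 2
  -- comparison
  have hsum : (S.card : ℝ) * ((X : ℝ) / (R : ℝ) ^ (2 * E)) ≤ (R : ℝ) ^ E *
      (7 * (X : ℝ) ^ 2 * (R : ℝ) ^ (2 * E) / (R : ℝ) ^ C) := by
    calc (S.card : ℝ) * ((X : ℝ) / (R : ℝ) ^ (2 * E))
        = ∑ _h ∈ S, ((X : ℝ) / (R : ℝ) ^ (2 * E)) := by rw [Finset.sum_const, nsmul_eq_mul]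
      _ ≤ ∑ h ∈ S, ∑ n ∈ Icc (-(4 * X : ℤ)) (4 * X), ‖tv J (fun j => cr h (g j0) (n + qf h * j))‖ ^ 2 :=
          Finset.sum_le_sum hlow
      _ ≤ ∑ h ∈ S, ∑ q ∈ Icc 1 (R ^ E), ∑ n ∈ Icc (-(4 * X : ℤ)) (4 * X),
            ‖tv J (fun j => cr h (g j0) (n + q * j))‖ ^ 2 := by
          refine Finset.sum_le_sum fun h hh => ?_
          exact Finset.single_le_sum (f := fun q : ℕ => ∑ n ∈ Icc (-(4 * X : ℤ)) (4 * X),
            ‖tv J (fun j => cr h (g j0) (n + q * j))‖ ^ 2) (fun q _ => Finset.sum_nonneg fun n _ => by positivity)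
            (Finset.mem_Icc.2 ⟨hq1 h hh, hq2 h hh⟩)
      _ = ∑ q ∈ Icc 1 (R ^ E), ∑ h ∈ S, ∑ n ∈ Icc (-(4 * X : ℤ)) (4 * X),
            ‖tv J (fun j => cr h (g j0) (n + q * j))‖ ^ 2 := Finset.sum_comm
      _ ≤ ∑ _q ∈ Icc 1 (R ^ E), 7 * (X : ℝ) ^ 2 * (R : ℝ) ^ (2 * E) / (R : ℝ) ^ C :=
          Finset.sum_le_sum hup
      _ = _ := by
          rw [Finset.sum_const, Nat.card_Icc, nsmul_eq_mul, Nat.add_sub_cancel, Nat.cast_pow]
  have h1 : (X : ℝ) / (40 * (b + 1) * R) * ((X : ℝ) / (R : ℝ) ^ (2 * E)) ≤ (R : ℝ) ^ E *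
      (7 * (X : ℝ) ^ 2 * (R : ℝ) ^ (2 * E) / (R : ℝ) ^ C) :=
    (mul_le_mul_of_nonneg_right hSc (by positivity)).trans hsum
  have h2 : (R : ℝ) ^ C ≤ 280 * (b + 1) * (R * ((R : ℝ) ^ E * (R : ℝ) ^ (2 * E) * (R : ℝ) ^ (2 * E))) := by
    have e1 : (0 : ℝ) < (X : ℝ) ^ 2 := by positivity
    have e2 : (X : ℝ) / (40 * (b + 1) * R) * ((X : ℝ) / (R : ℝ) ^ (2 * E)) =
        ((X : ℝ) ^ 2) * (1 / (40 * (b + 1) * R * (R : ℝ) ^ (2 * E))) := by
      field_simp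
    have e3 : (R : ℝ) ^ E * (7 * (X : ℝ) ^ 2 * (R : ℝ) ^ (2 * E) / (R : ℝ) ^ C) =
        ((X : ℝ) ^ 2) * (7 * ((R : ℝ) ^ E * (R : ℝ) ^ (2 * E)) / (R : ℝ) ^ C) := by
      field_simp
    rw [e2, e3] at h1
    have h3 := le_of_mul_le_mul_left h1 e1
    rw [div_le_div_iff₀ (by positivity) (by positivity), one_mul] at h3
    refine h3.trans (le_of_eq ?_)
    ring
  have h3 : 280 * (b + 1) * (R * ((R : ℝ) ^ E * (R : ℝ) ^ (2 * E) * (R : ℝ) ^ (2 * E))) < (R : ℝ) ^ C := by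
    have e1 : (512 : ℝ) ≤ (R : ℝ) ^ 9 := by
      calc (512 : ℝ) = 2 ^ 9 := by norm_num
        _ ≤ (R : ℝ) ^ 9 := pow_le_pow_left₀ (by norm_num) hRr 9
    have e5 : (0 : ℝ) < R * ((R : ℝ) ^ E * (R : ℝ) ^ (2 * E) * (R : ℝ) ^ (2 * E)) := by positivity
    have e6 : (280 * (b + 1) : ℝ) < (R : ℝ) ^ 9 * (R : ℝ) ^ (b + 1) := by
      have e7 : (0 : ℝ) < (b + 1 : ℝ) := by positivity
      nlinarith
    calc 280 * (b + 1) * (R * ((R : ℝ) ^ E * (R : ℝ) ^ (2 * E) * (R : ℝ) ^ (2 * E)))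
        < (R : ℝ) ^ 9 * (R : ℝ) ^ (b + 1) * (R * ((R : ℝ) ^ E * (R : ℝ) ^ (2 * E) * (R : ℝ) ^ (2 * E))) :=
          mul_lt_mul_of_pos_right e6 e5
      _ = (R : ℝ) ^ (5 * E + b + 11) := by
          rw [show 5 * E + b + 11 = 9 + (b + 1) + (1 + (E + 2 * E + 2 * E)) by ring,
            pow_add (R : ℝ) (9 + (b + 1)), pow_add (R : ℝ) 9 (b + 1), pow_add (R : ℝ) 1 (E + 2 * E + 2 * E),
            pow_add (R : ℝ) (E + 2 * E), pow_add (R : ℝ) E, pow_one]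
      _ ≤ (R : ℝ) ^ C := pow_le_pow_right₀ hRr1 (by omega)
  exact absurd h2 (not_le.2 h3)

end Pool.Agent.NLG
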