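import Pool.Agent.Lib.NLG.Ev

/-!
# Module StrA: structured functions are closed under translations, conjugation and products

PROOFS. `StL_shift`: replace `b ν i x m` by `b ν i (x + y) m`. `StL_conj`: `b' = conj b`.
`StL_mul`: `L1 = List.ofFn v1`, `L2 = List.ofFn v2`, `L1 ++ L2 = List.ofFn (Fin.append v1 v2)` (`List.ofFn_fin_append`). Take
`N = N1 × N2`, `T = T1 ×ˢ T2`. For `m : Fin (n1 + n2) → ℕ` put `m1 = m ∘ Fin.castAdd n2`, `m2 = m ∘ Fin.natAdd n1`,
`y1 = ∑_j v1 j m1 j`, `y2 = ∑_j v2 j m2 j` and `b (ν1, ν2) (castAdd i) x m = b1 ν1 i (x + y2) m1`,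
`b (ν1, ν2) (natAdd i) x m = b2 ν2 i (x + y1) m2` (`Fin.addCases`): it does not depend on the coordinate in question.
`W1 (x + y1 + y2) W2 (x + y1 + y2)` differs from `E1 E2`, `E1 = ev T1 (∏ b1)`, `E2 = ev T2 (∏ b2)`, by at most
`‖W1 - E1‖ ‖W2‖ + ‖E1‖ ‖W2 - E2‖ ≤ η1 + η2` (`‖E1‖ ≤ 1`), and `E1 E2 = ev (T1 ×ˢ T2) ..` (`ev_prod`, `Fin.prod_univ_add`).
`StL_mono`: monotone in `A'` and `η`.
-/

set_option autoImplicit false

open Finset

namespace Pool.Agent.NLG

open Pool.Agent.HLT Pool.Agent.NLT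

variable {M : ℕ} [NeZero M]

theorem StL_shift {A' : ℕ} {η : ℝ} {L : List (ZMod M)} {W : ZMod M → ℂ} (h : StL A' η L W) (y : ZMod M) :
    StL A' η L (fun x => W (x + y)) := by
  obtain ⟨n, v, hL, N, T, b, hT, hb1, hb2, hW⟩ := h
  refine ⟨n, v, hL, N, T, fun ν i x m => b ν i (x + y) m, hT, fun ν i x m => hb1 ν i (x + y) m,
    fun ν i x m m' hm => hb2 ν i (x + y) m m' hm, fun x m hm => ?_⟩
  have h1 := hW (x + y) m hm
  have h2 : x + ∑ i, v i * (m i : ZMod M) + y = x + y + ∑ i, v i * (m i : ZMod M) := by ring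
  simp only
  rw [h2]
  exact h1

theorem StL_conj {A' : ℕ} {η : ℝ} {L : List (ZMod M)} {W : ZMod M → ℂ} (h : StL A' η L W) :
    StL A' η L (fun x => (starRingEnd ℂ) (W x)) := by
  obtain ⟨n, v, hL, N, T, b, hT, hb1, hb2, hW⟩ := h
  refine ⟨n, v, hL, N, T, fun ν i x m => (starRingEnd ℂ) (b ν i x m), hT, fun ν i x m => ?_,
    fun ν i x m m' hm => ?_, fun x m hm => ?_⟩
  · rw [RCLike.norm_conj]
    exact hb1 ν i x m
  · simp only
    rw [hb2 ν i x m m' hm]
  · have h1 := hW x m hm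
    have h2 : (fun ν => ∏ i, (starRingEnd ℂ) (b ν i x m)) =
        fun ν => (starRingEnd ℂ) (∏ i, b ν i x m) := by
      funext ν
      rw [map_prod]
    simp only
    rw [h2, ev_conj, ← map_sub, RCLike.norm_conj]
    exact h1

theorem StL_mul {A' : ℕ} {η1 η2 : ℝ} {L1 L2 : List (ZMod M)} {W1 W2 : ZMod M → ℂ} (h1 : StL A' η1 L1 W1)
    (h2 : StL A' η2 L2 W2) (hW1 : Bd W1) (hW2 : Bd W2) :
    StL A' (η1 + η2) (L1 ++ L2) (fun x => W1 x * W2 x) := by
  obtain ⟨n1, v1, hL1, N1, T1, b1, hT1, hb11, hb12, hA1⟩ := h1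
  obtain ⟨n2, v2, hL2, N2, T2, b2, hT2, hb21, hb22, hA2⟩ := h2
  refine ⟨n1 + n2, Fin.append v1 v2, ?_, N1 × N2, T1 ×ˢ T2, fun ν i x m => Fin.addCases
    (fun i1 => b1 ν.1 i1 (x + ∑ j, v2 j * (m (Fin.natAdd n1 j) : ZMod M)) (fun j => m (Fin.castAdd n2 j)))
    (fun i2 => b2 ν.2 i2 (x + ∑ j, v1 j * (m (Fin.castAdd n2 j) : ZMod M)) (fun j => m (Fin.natAdd n1 j))) i,
    hT1.product hT2, ?_, ?_, ?_⟩
  · rw [hL1, hL2, List.ofFn_fin_append]
  · intro ν i x m
    refine Fin.addCases (fun i1 => ?_) (fun i2 => ?_) i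
    · simp only [Fin.addCases_left]
      exact hb11 _ _ _ _
    · simp only [Fin.addCases_right]
      exact hb21 _ _ _ _
  · intro ν i x m m'
    refine Fin.addCases (fun i1 => ?_) (fun i2 => ?_) i
    · intro hm
      simp only [Fin.addCases_left]
      have e1 : ∀ j : Fin n2, m (Fin.natAdd n1 j) = m' (Fin.natAdd n1 j) := by
        intro j
        apply hm
        intro he
        have := congrArg Fin.val he
        simp at this
        omega
      simp only [e1]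
      apply hb12
      intro j hj
      apply hm
      intro he
      exact hj (Fin.castAdd_injective n1 n2 he)
    · intro hm
      simp only [Fin.addCases_right]
      have e1 : ∀ j : Fin n1, m (Fin.castAdd n2 j) = m' (Fin.castAdd n2 j) := by
        intro j
        apply hm
        intro he
        have := congrArg Fin.val he
        simp at this
        omega
      simp only [e1]
      apply hb22
      intro j hj
      apply hm
      intro he
      exact hj (Fin.natAdd_injective n2 n1 he)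
  · intro x m hm
    obtain ⟨y1, hy1⟩ : ∃ y1 : ZMod M, y1 = ∑ j, v1 j * (m (Fin.castAdd n2 j) : ZMod M) := ⟨_, rfl⟩
    obtain ⟨y2, hy2⟩ : ∃ y2 : ZMod M, y2 = ∑ j, v2 j * (m (Fin.natAdd n1 j) : ZMod M) := ⟨_, rfl⟩
    have hs : ∑ i, Fin.append v1 v2 i * (m i : ZMod M) = y1 + y2 := by
      rw [Fin.sum_univ_add, hy1, hy2]
      simp only [Fin.append_left, Fin.append_right]
    have g1 := hA1 (x + y2) (fun j => m (Fin.castAdd n2 j)) (fun j => hm _)
    have g2 := hA2 (x + y1) (fun j => m (Fin.natAdd n1 j)) (fun j => hm _)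
    rw [← hy1] at g1
    rw [← hy2] at g2
    have hx1 : x + y2 + y1 = x + (y1 + y2) := by ring
    have hx2 : x + y1 + y2 = x + (y1 + y2) := by ring
    rw [hx1] at g1
    rw [hx2] at g2
    obtain ⟨E1, hE1⟩ : ∃ E1 : ℂ, E1 = ev T1 (fun ν => ∏ i, b1 ν i (x + y2) (fun j => m (Fin.castAdd n2 j))) :=
      ⟨_, rfl⟩
    obtain ⟨E2, hE2⟩ : ∃ E2 : ℂ, E2 = ev T2 (fun ν => ∏ i, b2 ν i (x + y1) (fun j => m (Fin.natAdd n1 j))) :=
      ⟨_, rfl⟩
    have hE : ev (T1 ×ˢ T2) (fun ν => ∏ i : Fin (n1 + n2), Fin.addCases (motive := fun _ => ℂ)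
        (fun i1 => b1 ν.1 i1 (x + ∑ j, v2 j * (m (Fin.natAdd n1 j) : ZMod M)) (fun j => m (Fin.castAdd n2 j)))
        (fun i2 => b2 ν.2 i2 (x + ∑ j, v1 j * (m (Fin.castAdd n2 j) : ZMod M)) (fun j => m (Fin.natAdd n1 j)))
        i) = E1 * E2 := by
      rw [← hy1, ← hy2, ev_prod, hE1, ← ev_mul_right]
      refine ev_congr fun a _ => ?_
      rw [hE2, ← ev_mul_left]
      refine ev_congr fun c _ => ?_
      rw [Fin.prod_univ_add]
      simp only [Fin.addCases_left, Fin.addCases_right]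
    rw [← hE1] at g1
    rw [← hE2] at g2
    simp only
    rw [hs]
    have hE1n : ‖E1‖ ≤ 1 := by
      rw [hE1]
      refine norm_ev_le_one _ fun a _ => ?_
      rw [norm_prod]
      exact Finset.prod_le_one (fun _ _ => norm_nonneg _) (fun i _ => hb11 _ _ _ _)
    have hfin : ‖W1 (x + (y1 + y2)) * W2 (x + (y1 + y2)) - E1 * E2‖ ≤ η1 + η2 := by
      have e : W1 (x + (y1 + y2)) * W2 (x + (y1 + y2)) - E1 * E2 =
          (W1 (x + (y1 + y2)) - E1) * W2 (x + (y1 + y2)) + E1 * (W2 (x + (y1 + y2)) - E2) := by ring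
      rw [e]
      refine (norm_add_le _ _).trans ?_
      rw [norm_mul, norm_mul]
      have k1 : ‖W1 (x + (y1 + y2)) - E1‖ * ‖W2 (x + (y1 + y2))‖ ≤ ‖W1 (x + (y1 + y2)) - E1‖ :=
        mul_le_of_le_one_right (norm_nonneg _) (hW2 _)
      have k2 : ‖E1‖ * ‖W2 (x + (y1 + y2)) - E2‖ ≤ ‖W2 (x + (y1 + y2)) - E2‖ :=
        mul_le_of_le_one_left (norm_nonneg _) hE1n
      linarith
    exact (le_of_eq (by rw [hE])).trans hfin

theorem StL_mono {A' A'' : ℕ} {η η' : ℝ} {L : List (ZMod M)} {W : ZMod M → ℂ} (h : StL A' η L W) (hA : A'' ≤ A')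
    (hη : η ≤ η') : StL A'' η' L W := by
  obtain ⟨n, v, hL, N, T, b, hT, hb1, hb2, hW⟩ := h
  exact ⟨n, v, hL, N, T, b, hT, hb1, hb2, fun x m hm => (hW x m (fun i => (hm i).trans_le hA)).trans hη⟩

end Pool.Agent.NLG
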