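import Pool.Agent.Lib.NLG.BxBB

/-!
# Module StrB: a function which correlates with a structured function has a large box average

PROOF of `StL_bound`. `L = List.ofFn v`, `n = L.length` (`List.length_ofFn`). By `mv_shift`,
`av (F * W) = av_x mv (range A') n (fun m => F (x + v·m) W (x + v·m))`. Replace `W (x + v·m)` by `ev T (∏ b ν i x m)`: the error is at
most `η` (`‖F‖ ≤ 1`, `m i < A'`; `mv_eq` helps). Hence `ρ ≤ ‖av_x mv_m F (x + v·m) ev T (∏ b ν i x m)‖ ≤` average over `ν ∈ T` of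
`‖av_x mv_m F (x + v·m) ∏ b ν i x m‖`, so some `ν ∈ T` has `ρ ≤ ‖..‖`. By `bcs` with `P = univ` (the variable `x`) and
`S = range A'`: `ρ ^ (2 ^ n) ≤ ‖ev univ (fun x => bx (range A') n (fun m => F (x + v·m)))‖ = ‖BB (L.map (fe A')) F‖` (`bx_lin`).
-/

set_option autoImplicit false

open Finset

namespace Pool.Agent.NLG

open Pool.Agent.HLT Pool.Agent.NLT

variable {M : ℕ} [NeZero M]

theorem StL_bound (A' : ℕ) (hA : 1 ≤ A') (η : ℝ) (L : List (ZMod M)) (W F : ZMod M → ℂ) (hW : StL A' η L W)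
    (hF : Bd F) (ρ : ℝ) (hρ : 0 ≤ ρ) (h : ρ + η ≤ ‖av (fun x => F x * W x)‖) :
    ρ ^ (2 ^ L.length) ≤ ‖BB (L.map (fe A')) F‖ := by
  classical
  obtain ⟨n, v, rfl, N, T, b, hT, hb1, hb2, hb3⟩ := hW
  rw [List.length_ofFn]
  have hη : 0 ≤ η := (norm_nonneg _).trans (hb3 0 (fun _ => 0) (fun _ => by omega))
  set Pi : Finset (Fin n → ℕ) := Fintype.piFinset (fun _ : Fin n => range A') with hPi
  set pt : ZMod M → (Fin n → ℕ) → ZMod M := fun x m => x + ∑ i, v i * (m i : ZMod M) with hpt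
  set G : N → ℂ := fun ν => ev univ (fun x : ZMod M => ev Pi (fun m =>
    F (pt x m) * ∏ i, b ν i x m)) with hG
  have e1 : av (fun x => F x * W x) =
      ev univ (fun x : ZMod M => ev Pi (fun m => F (pt x m) * W (pt x m))) := by
    rw [← mv_shift A' n hA v (fun x => F x * W x), av_eq_ev]
    refine ev_congr fun x _ => ?_
    rw [mv_eq]
  have e2 : ev T G = ev univ (fun x : ZMod M => ev Pi (fun m =>
      F (pt x m) * ev T (fun ν => ∏ i, b ν i x m))) := by
    rw [hG, ev_comm]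
    refine ev_congr fun x _ => ?_
    rw [ev_comm]
    refine ev_congr fun m _ => ?_
    rw [ev_mul_left]
  have e3 : ‖av (fun x => F x * W x) - ev T G‖ ≤ η := by
    rw [e1, e2, ← ev_sub]
    refine (norm_ev_le _ _).trans (evr_le _ hη fun x _ => ?_)
    rw [← ev_sub]
    refine (norm_ev_le _ _).trans (evr_le _ hη fun m hm => ?_)
    rw [← mul_sub, norm_mul]
    have hm' : ∀ i, m i < A' := fun i => by
      rw [hPi, Fintype.mem_piFinset] at hm
      exact mem_range.1 (hm i)
    have h1 := hb3 x m hm'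
    have h2 := hF (pt x m)
    calc ‖F (pt x m)‖ * ‖W (pt x m) - ev T (fun ν => ∏ i, b ν i x m)‖
        ≤ 1 * η := mul_le_mul h2 h1 (norm_nonneg _) zero_le_one
      _ = η := one_mul η
  have e4 : ρ ≤ ‖ev T G‖ := by
    have h1 : ‖av (fun x => F x * W x)‖ ≤ ‖av (fun x => F x * W x) - ev T G‖ + ‖ev T G‖ := by
      have := norm_add_le (av (fun x => F x * W x) - ev T G) (ev T G)
      rwa [sub_add_cancel] at this
    linarith
  have e5 : ∃ ν ∈ T, ρ ≤ ‖G ν‖ := by
    refine Finset.exists_le_of_sum_le hT ?_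
    have h1 := e4.trans (norm_ev_le T G)
    unfold evr at h1
    have hc : (0 : ℝ) < T.card := by exact_mod_cast Finset.card_pos.mpr hT
    rw [le_div_iff₀ hc] at h1
    rw [Finset.sum_const, nsmul_eq_mul]
    linarith
  obtain ⟨ν, -, hν⟩ := e5
  have h1 := bcs (univ : Finset (ZMod M)) (range A') n (fun x m => F (pt x m))
    (fun i x m => b ν i x m) (fun i x m => hb1 ν i x m) (fun i x m m' h => hb2 ν i x m m' h)
  have h2 : ev univ (fun x : ZMod M => mv (range A') n (fun m =>
      F (pt x m) * ∏ i, b ν i x m)) = G ν := by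
    rw [hG]
    exact ev_congr fun x _ => mv_eq _ _ _
  have h3 : ev univ (fun x : ZMod M => bx (range A') n (fun m => F (pt x m))) =
      BB ((List.ofFn v).map (fe A')) F := by
    rw [← bx_lin, av_eq_ev]
  rw [h2, h3] at h1
  exact (pow_le_pow_left₀ hρ hν _).trans h1

end Pool.Agent.NLG
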