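import Pool.Agent.Lib.NLG.DefsB
import Pool.Agent.Lib.NLT.Vdc

/-!
# Module TGA: basic facts on the counting operator

PROOFS. `TG_one`: every factor is bounded by one. `TG_perm`: the product of a list is invariant (`List.Perm.prod_eq`, `List.Perm.map`).
`TG_absorb`: a leaf whose polynomial has degree zero is a function of `x` alone: `Q1 = C b`, absorb `g1 (x + b)` into `g0`.
`TG_shift`: shift `x` by `- Q1 (t)` for each `t`: the leaf `(g1, Q1)` becomes the new root, all other polynomials are reduced by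
`Q1`. `TG_fshift`: shift `x` by `- Q' (t)`, root `1`: all polynomials are reduced by `Q'` (root function `1` again).
`TG_vdc`: `vdc_norm` (NLT/Vdc; for `A > H` the claim is trivial since `‖TG‖ ≤ 1`) with the root function `g0` and
`φ x t = θ t f (x + Q t) ∏ g (x + P t)`: the average over `k, k' < A` of
`‖tv H (fun t => av (fun x => φ x (t + k) conj (φ x (t + k'))))‖`, and this is `TG` with root `1`, weight `θ (t + k) conj θ (t + k')`, function `f` at
`taylor k Q`, and the leaves listed (`Polynomial.taylor_eval`: `(taylor k P).eval t = P.eval (t + k)`; products of mapped lists: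
`List.prod_append`, and conjugation commutes with the product of a list).
-/

set_option autoImplicit false

open Finset Polynomial

namespace Pool.Agent.NLG

open Pool.Agent.HLT Pool.Agent.NLT

variable {M : ℕ} [NeZero M]

namespace TGAAux

theorem norm_prod_le (L : List ((ZMod M → ℂ) × ℤ[X])) (hL : ∀ p ∈ L, Bd p.1) (y : (ℤ[X]) → ZMod M) :
    ‖(L.map (fun g => g.1 (y g.2))).prod‖ ≤ 1 := by
  induction L with
  | nil => simp
  | cons g L ih =>
    rw [List.map_cons, List.prod_cons, norm_mul]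
    exact mul_le_one₀ (hL g (List.mem_cons_self) (y g.2)) (norm_nonneg _)
      (ih (fun p hp => hL p (List.mem_cons_of_mem _ hp)))

theorem norm4 {a b c d : ℂ} (ha : ‖a‖ ≤ 1) (hb : ‖b‖ ≤ 1) (hc : ‖c‖ ≤ 1) (hd : ‖d‖ ≤ 1) :
    ‖a * b * c * d‖ ≤ 1 := by
  rw [norm_mul, norm_mul, norm_mul]
  exact mul_le_one₀ (mul_le_one₀ (mul_le_one₀ ha (norm_nonneg _) hb) (norm_nonneg _) hc)
    (norm_nonneg _) hd

theorem TG_congr (H : ℕ) {F G : ℕ → ZMod M → ℂ} (h : ∀ t x, F t x = G t x) :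
    tv H (fun t => av (fun x => F t x)) = tv H (fun t => av (fun x => G t x)) := by
  have : F = G := by
    funext t x
    exact h t x
  rw [this]

theorem conj_prod {ι : Type} (L : List ι) (F : ι → ℂ) :
    (starRingEnd ℂ) (L.map F).prod = (L.map (fun i => (starRingEnd ℂ) (F i))).prod := by
  rw [map_list_prod, List.map_map]
  rfl

end TGAAux

open TGAAux

theorem TG_le_one (H : ℕ) (θ : ℕ → ℂ) (hθ : ∀ t, ‖θ t‖ ≤ 1) (g0 f : ZMod M → ℂ) (h0 : Bd g0) (hf : Bd f) (Q : ℤ[X])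
    (L : List ((ZMod M → ℂ) × ℤ[X])) (hL : ∀ p ∈ L, Bd p.1) : ‖TG H θ g0 f Q L‖ ≤ 1 := by
  unfold TG
  refine norm_tv_le_one H _ (fun t => norm_av_le_one (fun x => ?_))
  exact norm4 (hθ t) (h0 x) (hf _) (norm_prod_le L hL (fun P => x + ((P.eval (t : ℤ) : ℤ) : ZMod M)))

theorem TG_perm (H : ℕ) (θ : ℕ → ℂ) (g0 f : ZMod M → ℂ) (Q : ℤ[X]) {L L' : List ((ZMod M → ℂ) × ℤ[X])}
    (h : L.Perm L') : TG H θ g0 f Q L = TG H θ g0 f Q L' := by
  unfold TG
  refine TG_congr H (fun t x => ?_)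
  rw [(h.map (fun g : (ZMod M → ℂ) × ℤ[X] => g.1 (x + ((g.2.eval (t : ℤ) : ℤ) : ZMod M)))).prod_eq]

theorem TG_absorb (H : ℕ) (θ : ℕ → ℂ) (g0 g1 f : ZMod M → ℂ) (Q : ℤ[X]) (b : ℤ) (L : List ((ZMod M → ℂ) × ℤ[X])) :
    TG H θ g0 f Q ((g1, C b) :: L) = TG H θ (fun x => g0 x * g1 (x + (b : ZMod M))) f Q L := by
  unfold TG
  refine TG_congr H (fun t x => ?_)
  rw [List.map_cons, List.prod_cons, eval_C]
  ring

theorem TG_shift (H : ℕ) (θ : ℕ → ℂ) (g1 f : ZMod M → ℂ) (Q Q1 : ℤ[X]) (L : List ((ZMod M → ℂ) × ℤ[X])) :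
    TG H θ (fun _ => 1) f Q ((g1, Q1) :: L) = TG H θ g1 f (Q - Q1) (L.map (fun p => (p.1, p.2 - Q1))) := by
  unfold TG
  congr 1
  funext t
  rw [← av_shift (fun x => θ t * g1 x * f (x + (((Q - Q1).eval (t : ℤ) : ℤ) : ZMod M)) *
    ((L.map (fun p => (p.1, p.2 - Q1))).map
      (fun g => g.1 (x + ((g.2.eval (t : ℤ) : ℤ) : ZMod M)))).prod)
    ((Q1.eval (t : ℤ) : ℤ) : ZMod M)]
  congr 1
  funext x
  rw [List.map_cons, List.prod_cons, List.map_map]
  have h1 : ∀ P : ℤ[X], x + ((Q1.eval (t : ℤ) : ℤ) : ZMod M) + (((P - Q1).eval (t : ℤ) : ℤ) : ZMod M)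
      = x + ((P.eval (t : ℤ) : ℤ) : ZMod M) := by
    intro P
    rw [eval_sub, Int.cast_sub]
    ring
  have h2 : L.map ((fun g : (ZMod M → ℂ) × ℤ[X] => g.1 (x + ((Q1.eval (t : ℤ) : ℤ) : ZMod M) +
      ((g.2.eval (t : ℤ) : ℤ) : ZMod M))) ∘ (fun p => (p.1, p.2 - Q1)))
      = L.map (fun g => g.1 (x + ((g.2.eval (t : ℤ) : ℤ) : ZMod M))) := by
    refine List.map_congr_left (fun g _ => ?_)
    change g.1 (x + ((Q1.eval (t : ℤ) : ℤ) : ZMod M) + (((g.2 - Q1).eval (t : ℤ) : ℤ) : ZMod M)) = _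
    rw [h1]
  rw [h2, h1]
  ring

theorem TG_vdc (H A : ℕ) (hA : 1 ≤ A) (hH : 1 ≤ H) (θ : ℕ → ℂ) (hθ : ∀ t, ‖θ t‖ ≤ 1) (g0 f : ZMod M → ℂ)
    (h0 : Bd g0) (hf : Bd f) (Q : ℤ[X]) (L : List ((ZMod M → ℂ) × ℤ[X])) (hL : ∀ p ∈ L, Bd p.1) :
    ‖TG H θ g0 f Q L‖ ^ 2 ≤ tvr A (fun k => tvr A (fun k' =>
      ‖TG H (fun t => θ (t + k) * (starRingEnd ℂ) (θ (t + k'))) (fun _ => 1) f (taylor (k : ℤ) Q)
        (((fun x => (starRingEnd ℂ) (f x)), taylor (k' : ℤ) Q) ::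
          (L.map (fun p => (p.1, taylor (k : ℤ) p.2)) ++
            L.map (fun p => ((fun x => (starRingEnd ℂ) (p.1 x)), taylor (k' : ℤ) p.2))))‖)) + 8 * A / H := by
  have hH' : (1 : ℝ) ≤ H := by exact_mod_cast hH
  by_cases hAH : A ≤ H
  · have hφ : ∀ (x : ZMod M) (t : ℕ), ‖θ t * f (x + ((Q.eval (t : ℤ) : ℤ) : ZMod M)) *
        (L.map (fun g => g.1 (x + ((g.2.eval (t : ℤ) : ℤ) : ZMod M)))).prod‖ ≤ 1 := by
      intro x t
      have h1 := norm4 (hθ t) (b := 1) (by simp) (hf (x + ((Q.eval (t : ℤ) : ℤ) : ZMod M)))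
        (norm_prod_le L hL (fun P => x + ((P.eval (t : ℤ) : ℤ) : ZMod M)))
      rwa [mul_one] at h1
    have h1 := vdc_norm H A hA hAH g0 h0 (fun x t => θ t * f (x + ((Q.eval (t : ℤ) : ℤ) : ZMod M)) *
        (L.map (fun g => g.1 (x + ((g.2.eval (t : ℤ) : ℤ) : ZMod M)))).prod) hφ
    have h2 : TG H θ g0 f Q L = tv H (fun t => av (fun x => g0 x * (θ t *
        f (x + ((Q.eval (t : ℤ) : ℤ) : ZMod M)) *
        (L.map (fun g => g.1 (x + ((g.2.eval (t : ℤ) : ℤ) : ZMod M)))).prod))) := by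
      unfold TG
      refine TG_congr H (fun t x => ?_)
      ring
    rw [← h2] at h1
    refine h1.trans (le_of_eq ?_)
    congr 1
    congr 1
    funext k
    congr 1
    funext k'
    congr 1
    unfold TG
    refine TG_congr H (fun t x => ?_)
    have e : ∀ (P : ℤ[X]) (j : ℕ), ((P.eval ((t + j : ℕ) : ℤ) : ℤ) : ZMod M)
        = (((taylor (j : ℤ) P).eval (t : ℤ) : ℤ) : ZMod M) := by
      intro P j
      rw [taylor_eval]
      push_cast
      rfl
    rw [List.map_cons, List.prod_cons, List.map_append, List.prod_append, List.map_map,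
      List.map_map, map_mul, map_mul, conj_prod, e Q k, e Q k']
    have h3 : L.map (fun g => g.1 (x + ((g.2.eval ((t + k : ℕ) : ℤ) : ℤ) : ZMod M)))
        = L.map ((fun g : (ZMod M → ℂ) × ℤ[X] => g.1 (x + ((g.2.eval (t : ℤ) : ℤ) : ZMod M))) ∘
          (fun p => (p.1, taylor (k : ℤ) p.2))) := by
      refine List.map_congr_left (fun g _ => ?_)
      rw [e]
      rfl
    have h4 : L.map (fun i => (starRingEnd ℂ)
          (i.1 (x + ((i.2.eval ((t + k' : ℕ) : ℤ) : ℤ) : ZMod M))))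
        = L.map ((fun g : (ZMod M → ℂ) × ℤ[X] => g.1 (x + ((g.2.eval (t : ℤ) : ℤ) : ZMod M))) ∘
          (fun p => ((fun x => (starRingEnd ℂ) (p.1 x)), taylor (k' : ℤ) p.2))) := by
      refine List.map_congr_left (fun g _ => ?_)
      rw [e]
      rfl
    rw [h3, h4]
    ring
  · have h1 := TG_le_one H θ hθ g0 f h0 hf Q L hL
    have h2 : ‖TG H θ g0 f Q L‖ ^ 2 ≤ 1 := pow_le_one₀ (norm_nonneg _) h1
    have h3 : (1 : ℝ) ≤ 8 * A / H := by
      rw [le_div_iff₀ (by linarith)]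
      have h4 : (H : ℝ) ≤ A := by exact_mod_cast (Nat.lt_of_not_le hAH).le
      linarith
    have h5 : 0 ≤ tvr A (fun k => tvr A (fun k' =>
      ‖TG H (fun t => θ (t + k) * (starRingEnd ℂ) (θ (t + k'))) (fun _ => 1) f (taylor (k : ℤ) Q)
        (((fun x => (starRingEnd ℂ) (f x)), taylor (k' : ℤ) Q) ::
          (L.map (fun p => (p.1, taylor (k : ℤ) p.2)) ++
            L.map (fun p => ((fun x => (starRingEnd ℂ) (p.1 x)), taylor (k' : ℤ) p.2))))‖)) :=
      tvr_nonneg A (fun k => tvr_nonneg A (fun k' => norm_nonneg _))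
    linarith

end Pool.Agent.NLG
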